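import Pool.Agent.Helper59.Lit.Defs

/-!
# Module Avoid: a multiplier avoiding two Lipschitz paths
-/

set_option autoImplicit false

namespace Pool.Agent.Helper59.Lit

namespace AvoidAux

/-- the candidate multipliers -/
noncomputable def cand (A : ℕ) (p : ℕ × ℕ) : ℂ :=
  ⟨1 + (p.1 : ℝ) / A, (p.2 : ℝ) / A⟩

lemma one_le_norm_cand (A : ℕ) (p : ℕ × ℕ) : 1 ≤ ‖cand A p‖ := by
  have h1 : |(cand A p).re| ≤ ‖cand A p‖ := Complex.abs_re_le_norm _
  have h2 : (cand A p).re = 1 + (p.1 : ℝ) / A := rfl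
  have h3 : 0 ≤ (p.1 : ℝ) / A := by positivity
  rw [h2, abs_of_nonneg (by linarith)] at h1
  linarith

lemma norm_cand_le (A : ℕ) (p : ℕ × ℕ) (h1 : p.1 < A) (h2 : p.2 < A) : ‖cand A p‖ ≤ 3 := by
  have hA : (0 : ℝ) < A := by
    have : 0 < A := by omega
    exact_mod_cast this
  have h3 : ‖cand A p‖ ≤ |(cand A p).re| + |(cand A p).im| := Complex.norm_le_abs_re_add_abs_im _
  have h4 : (p.1 : ℝ) / A ≤ 1 := by
    rw [div_le_one hA]; exact_mod_cast h1.le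
  have h5 : (p.2 : ℝ) / A ≤ 1 := by
    rw [div_le_one hA]; exact_mod_cast h2.le
  have h6 : 0 ≤ (p.1 : ℝ) / A := by positivity
  have h7 : 0 ≤ (p.2 : ℝ) / A := by positivity
  have h8 : (cand A p).re = 1 + (p.1 : ℝ) / A := rfl
  have h9 : (cand A p).im = (p.2 : ℝ) / A := rfl
  rw [h8, h9, abs_of_nonneg (by linarith), abs_of_nonneg h7] at h3
  linarith

lemma cand_sep (A : ℕ) (hA : 0 < A) (p q : ℕ × ℕ) (hpq : p ≠ q) :
    1 / (A : ℝ) ≤ ‖cand A p - cand A q‖ := by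
  have hA' : (0 : ℝ) < A := by exact_mod_cast hA
  have key : ∀ a b : ℕ, a ≠ b → 1 / (A : ℝ) ≤ |(a : ℝ) / A - (b : ℝ) / A| := by
    intro a b hab
    rw [← sub_div, abs_div, abs_of_pos hA']
    apply div_le_div_of_nonneg_right _ hA'.le
    have h1 : (1 : ℤ) ≤ |(a : ℤ) - (b : ℤ)| := by
      apply Int.one_le_abs
      intro h
      apply hab
      omega
    have h2 : ((1 : ℤ) : ℝ) ≤ ((|(a : ℤ) - (b : ℤ)| : ℤ) : ℝ) := by exact_mod_cast h1
    simpa using h2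
  by_cases h1 : p.1 = q.1
  · have h2 : p.2 ≠ q.2 := fun h => hpq (Prod.ext h1 h)
    have h3 := key p.2 q.2 h2
    have h4 : |(cand A p - cand A q).im| ≤ ‖cand A p - cand A q‖ := Complex.abs_im_le_norm _
    have h5 : (cand A p - cand A q).im = (p.2 : ℝ) / A - (q.2 : ℝ) / A := rfl
    rw [h5] at h4
    exact h3.trans h4
  · have h3 := key p.1 q.1 h1
    have h4 : |(cand A p - cand A q).re| ≤ ‖cand A p - cand A q‖ := Complex.abs_re_le_norm _
    have h5 : (cand A p - cand A q).re = (p.1 : ℝ) / A - (q.1 : ℝ) / A := by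
      have : (cand A p - cand A q).re = (1 + (p.1 : ℝ) / A) - (1 + (q.1 : ℝ) / A) := rfl
      rw [this]; ring
    rw [h5] at h4
    exact h3.trans h4

lemma bad_unique (r : ℝ) (hr : r ≤ 1 / 4) (v w φ : ℂ) (hv : ‖v‖ ≤ 3)
    (h1 : ‖1 + v * φ‖ < r) (h2 : ‖1 + w * φ‖ < r) : ‖v - w‖ < 8 * r := by
  have h3 : 1 ≤ ‖1 + v * φ‖ + ‖v * φ‖ := by
    calc (1 : ℝ) = ‖(1 + v * φ) - v * φ‖ := by simp
      _ ≤ ‖1 + v * φ‖ + ‖v * φ‖ := norm_sub_le _ _
  rw [norm_mul] at h3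
  have h4 : 1 / 4 ≤ ‖φ‖ := by nlinarith [norm_nonneg φ]
  have h5 : ‖(v - w) * φ‖ < 2 * r := by
    calc ‖(v - w) * φ‖ = ‖(1 + v * φ) - (1 + w * φ)‖ := by congr 1; ring
      _ ≤ ‖1 + v * φ‖ + ‖1 + w * φ‖ := norm_sub_le _ _
      _ < 2 * r := by linarith
  rw [norm_mul] at h5
  nlinarith [norm_nonneg (v - w)]

end AvoidAux

open AvoidAux in
theorem avoid (K : ℝ) (hK : 1 ≤ K) : ∃ ρ : ℝ, 0 < ρ ∧ ρ ≤ 1 ∧ ∀ φ1 φ2 : ℝ → ℂ,
    (∀ x ∈ Set.Icc (0 : ℝ) 1, ∀ y ∈ Set.Icc (0 : ℝ) 1, ‖φ1 x - φ1 y‖ ≤ K * |x - y|) →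
    (∀ x ∈ Set.Icc (0 : ℝ) 1, ∀ y ∈ Set.Icc (0 : ℝ) 1, ‖φ2 x - φ2 y‖ ≤ K * |x - y|) →
    ∃ v : ℂ, 1 ≤ ‖v‖ ∧ ‖v‖ ≤ 3 ∧
      ∀ x ∈ Set.Icc (0 : ℝ) 1, ρ ≤ ‖1 + v * φ1 x‖ ∧ ρ ≤ ‖1 + v * φ2 x‖ := by
  obtain ⟨A, hAdef⟩ : ∃ A : ℕ, A = ⌈100 * K⌉₊ + 10 := ⟨_, rfl⟩
  obtain ⟨n, hndef⟩ : ∃ n : ℕ, n = ⌈48 * K * A⌉₊ := ⟨_, rfl⟩
  have hA0 : 0 < A := by omega
  have hAK : 100 * K + 10 ≤ (A : ℝ) := by
    rw [hAdef]
    push_cast
    have := Nat.le_ceil (100 * K)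
    linarith
  have hA' : (0 : ℝ) < A := by exact_mod_cast hA0
  have hn1 : 48 * K * A ≤ (n : ℝ) := by rw [hndef]; exact Nat.le_ceil _
  have hn2 : (n : ℝ) < 48 * K * A + 1 := by
    rw [hndef]; exact Nat.ceil_lt_add_one (by positivity)
  have hn0 : (0 : ℝ) < n := by nlinarith
  have hcard : 2 * (n + 1) < A * A := by
    have : (2 * (n + 1) : ℝ) < (A : ℝ) * A := by nlinarith
    exact_mod_cast this
  refine ⟨1 / (16 * A), by positivity, ?_, ?_⟩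
  · rw [div_le_one (by positivity)]; nlinarith
  intro φ1 φ2 h1 h2
  by_contra hcon
  push Not at hcon
  -- every candidate is bad at a sample point
  have hbad : ∀ p ∈ Finset.range A ×ˢ Finset.range A,
      ∃ t ∈ Finset.range 2 ×ˢ Finset.range (n + 1),
        ‖1 + cand A p * (if t.1 = 0 then φ1 ((t.2 : ℝ) / n) else φ2 ((t.2 : ℝ) / n))‖
          < 1 / (8 * A) := by
    intro p hp
    rw [Finset.mem_product, Finset.mem_range, Finset.mem_range] at hp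
    have hv1 := one_le_norm_cand A p
    have hv3 := norm_cand_le A p hp.1 hp.2
    obtain ⟨x, hx, hx2⟩ := hcon (cand A p) hv1 hv3
    -- sample point
    obtain ⟨k, hk, hk1, hk2⟩ : ∃ k : ℕ, k < n + 1 ∧ (k : ℝ) / n ∈ Set.Icc (0 : ℝ) 1 ∧
        |x - (k : ℝ) / n| ≤ 1 / n := by
      refine ⟨⌊x * n⌋₊, ?_, ?_, ?_⟩
      · have : (⌊x * n⌋₊ : ℝ) ≤ n := by
          refine (Nat.floor_le (by have := hx.1; positivity)).trans ?_
          nlinarith [hx.2]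
        have : ⌊x * n⌋₊ ≤ n := by exact_mod_cast this
        omega
      · have : (⌊x * n⌋₊ : ℝ) ≤ n := by
          refine (Nat.floor_le (by have := hx.1; positivity)).trans ?_
          nlinarith [hx.2]
        exact ⟨by positivity, by rw [div_le_one hn0]; exact this⟩
      · have hf1 : (⌊x * n⌋₊ : ℝ) ≤ x * n := Nat.floor_le (by have := hx.1; positivity)
        have hf2 : x * n < ⌊x * n⌋₊ + 1 := Nat.lt_floor_add_one _
        rw [abs_le]
        constructor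
        · have : (⌊x * n⌋₊ : ℝ) / n ≤ x := by rw [div_le_iff₀ hn0]; exact hf1
          have h0 : 0 ≤ 1 / (n : ℝ) := by positivity
          linarith
        · have : x ≤ (⌊x * n⌋₊ + 1 : ℝ) / n := by rw [le_div_iff₀ hn0]; exact hf2.le
          rw [add_div] at this
          linarith
    have hmove : ∀ φ : ℝ → ℂ,
        (∀ x ∈ Set.Icc (0 : ℝ) 1, ∀ y ∈ Set.Icc (0 : ℝ) 1, ‖φ x - φ y‖ ≤ K * |x - y|) →
        ‖1 + cand A p * φ x‖ < 1 / (16 * A) →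
        ‖1 + cand A p * φ ((k : ℝ) / n)‖ < 1 / (8 * A) := by
      intro φ hφ hs
      have e1 := hφ ((k : ℝ) / n) hk1 x hx
      have e2 : ‖1 + cand A p * φ ((k : ℝ) / n)‖ ≤
          ‖1 + cand A p * φ x‖ + ‖cand A p‖ * ‖φ ((k : ℝ) / n) - φ x‖ := by
        calc ‖1 + cand A p * φ ((k : ℝ) / n)‖
            = ‖(1 + cand A p * φ x) + cand A p * (φ ((k : ℝ) / n) - φ x)‖ := by
              congr 1; ring
          _ ≤ ‖1 + cand A p * φ x‖ + ‖cand A p * (φ ((k : ℝ) / n) - φ x)‖ := norm_add_le _ _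
          _ = _ := by rw [norm_mul]
      have e3 : ‖φ ((k : ℝ) / n) - φ x‖ ≤ K * (1 / n) := by
        refine e1.trans ?_
        rw [abs_sub_comm]
        exact mul_le_mul_of_nonneg_left hk2 (by linarith)
      have e4 : ‖cand A p‖ * ‖φ ((k : ℝ) / n) - φ x‖ ≤ 3 * (K * (1 / n)) :=
        mul_le_mul hv3 e3 (norm_nonneg _) (by norm_num)
      have e5 : 3 * (K * (1 / (n : ℝ))) ≤ 1 / (16 * A) := by
        rw [mul_one_div, ← mul_div_assoc, div_le_div_iff₀ hn0 (by positivity)]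
        linarith
      have e6 : 1 / (8 * (A : ℝ)) = 1 / (16 * A) + 1 / (16 * A) := by field_simp; norm_num
      rw [e6]
      linarith
    by_cases hb : 1 / (16 * (A : ℝ)) ≤ ‖1 + cand A p * φ1 x‖
    · have hb2 := hx2 hb
      refine ⟨(1, k), ?_, ?_⟩
      · simp [hk]
      · simpa using hmove φ2 h2 hb2
    · push Not at hb
      refine ⟨(0, k), ?_, ?_⟩
      · simp [hk]
      · simpa using hmove φ1 h1 hb
  choose! f hf1 hf2 using hbad
  have hlt : (Finset.range 2 ×ˢ Finset.range (n + 1)).card <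
      (Finset.range A ×ˢ Finset.range A).card := by
    simpa [Finset.card_product] using hcard
  obtain ⟨p, hp, q, hq, hpq, hfe⟩ :=
    Finset.exists_ne_map_eq_of_card_lt_of_maps_to hlt (f := f) hf1
  have b1 := hf2 p hp
  have b2 := hf2 q hq
  rw [← hfe] at b2
  have hpm := hp
  rw [Finset.mem_product, Finset.mem_range, Finset.mem_range] at hpm
  have hr : 1 / (8 * (A : ℝ)) ≤ 1 / 4 := by
    apply one_div_le_one_div_of_le (by norm_num)
    nlinarith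
  have b3 := bad_unique (1 / (8 * A)) hr _ _ _ (norm_cand_le A p hpm.1 hpm.2) b1 b2
  have b4 := cand_sep A hA0 p q hpq
  have b5 : 8 * (1 / (8 * (A : ℝ))) = 1 / A := by field_simp
  rw [b5] at b3
  linarith

end Pool.Agent.Helper59.Lit
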