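import Mathlib

/-!
# Module Quartic: a polynomial of degree at most 4 is small on the unit circle only near roots
-/

set_option autoImplicit false

namespace Pool.Agent.Helper59.Lit

namespace QuarticAux

open Polynomial Finset

/-- some fifth root of unity has a value at least the coefficient -/
theorem exists_big (p : Polynomial ℂ) (hdeg : p.natDegree ≤ 4) (i : ℕ) (hi : i ≤ 4) :
    ∃ u : ℂ, ‖u‖ = 1 ∧ ‖p.coeff i‖ ≤ ‖p.eval u‖ := by
  classical
  -- the fifth root of unity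
  set z : ℂ := Complex.exp (2 * Real.pi * Complex.I / 5) with hz
  have hprim : IsPrimitiveRoot z 5 := by
    have := Complex.isPrimitiveRoot_exp 5 (by norm_num)
    simpa [hz] using this
  have hz5 : z ^ 5 = 1 := hprim.pow_eq_one
  have hzn : ‖z‖ = 1 := hprim.norm'_eq_one (by norm_num)
  have hz0 : z ≠ 0 := by
    intro h
    rw [h, norm_zero] at hzn
    exact zero_ne_one hzn
  -- orthogonality
  have horth : ∀ j : ℕ, j ≤ 4 → j ≠ i →
      ∑ k ∈ range 5, (z ^ k) ^ j * ((z ^ k) ^ i)⁻¹ = 0 := by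
    intro j hj hji
    have h1 : ∀ k, (z ^ k) ^ j * ((z ^ k) ^ i)⁻¹ = (z ^ j * (z ^ i)⁻¹) ^ k := by
      intro k
      rw [mul_pow, ← pow_mul, ← pow_mul, inv_pow, ← pow_mul, ← pow_mul, mul_comm k j, mul_comm k i]
    simp_rw [h1]
    have hne : z ^ j * (z ^ i)⁻¹ ≠ 1 := by
      intro h
      have h2 : z ^ j = z ^ i := by
        field_simp at h
        exact h
      have := hprim.pow_inj (by omega : j < 5) (by omega : i < 5) h2
      exact hji this
    have hpow : (z ^ j * (z ^ i)⁻¹) ^ 5 = 1 := by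
      rw [mul_pow, ← pow_mul, inv_pow, ← pow_mul, mul_comm j, mul_comm i, pow_mul, pow_mul, hz5]
      simp
    have := geom_sum_mul (z ^ j * (z ^ i)⁻¹) 5
    rw [hpow, sub_self] at this
    rcases mul_eq_zero.mp this with h | h
    · exact h
    · exact absurd (sub_eq_zero.mp h) hne
  have hself : ∑ k ∈ range 5, (z ^ k) ^ i * ((z ^ k) ^ i)⁻¹ = 5 := by
    have : ∀ k ∈ range 5, (z ^ k) ^ i * ((z ^ k) ^ i)⁻¹ = 1 := by
      intro k _
      exact mul_inv_cancel₀ (pow_ne_zero _ (pow_ne_zero _ hz0))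
    rw [sum_congr rfl this]
    simp
  have heval : ∀ w : ℂ, p.eval w = ∑ j ∈ range 5, p.coeff j * w ^ j := by
    intro w
    exact Polynomial.eval_eq_sum_range' (by omega) w
  have hsum : ∑ k ∈ range 5, p.eval (z ^ k) * ((z ^ k) ^ i)⁻¹ = 5 * p.coeff i := by
    have h1 : ∀ k, p.eval (z ^ k) * ((z ^ k) ^ i)⁻¹ =
        ∑ j ∈ range 5, p.coeff j * ((z ^ k) ^ j * ((z ^ k) ^ i)⁻¹) := by
      intro k
      rw [heval, sum_mul]
      exact sum_congr rfl fun j _ => by ring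
    simp_rw [h1]
    rw [sum_comm]
    simp_rw [← mul_sum]
    rw [sum_eq_single i]
    · rw [hself]; ring
    · intro j hj hji
      rw [horth j (by have := mem_range.mp hj; omega) hji, mul_zero]
    · intro h
      exact absurd (mem_range.mpr (by omega)) h
  by_contra hcon
  push Not at hcon
  have hlt : ‖∑ k ∈ range 5, p.eval (z ^ k) * ((z ^ k) ^ i)⁻¹‖ < 5 * ‖p.coeff i‖ := by
    calc ‖∑ k ∈ range 5, p.eval (z ^ k) * ((z ^ k) ^ i)⁻¹‖
        ≤ ∑ k ∈ range 5, ‖p.eval (z ^ k) * ((z ^ k) ^ i)⁻¹‖ := norm_sum_le _ _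
      _ < ∑ _k ∈ range 5, ‖p.coeff i‖ := by
          refine sum_lt_sum_of_nonempty (by simp) fun k _ => ?_
          rw [norm_mul, norm_inv, norm_pow, norm_pow, hzn, one_pow, one_pow, inv_one, mul_one]
          exact hcon (z ^ k) (by rw [norm_pow, hzn, one_pow])
      _ = 5 * ‖p.coeff i‖ := by simp
  rw [hsum, norm_mul] at hlt
  norm_num at hlt

theorem factor_bound (w u z : ℂ) (δ : ℝ) (hw : ‖w‖ = 1) (hu : ‖u‖ = 1) (hδ : 0 < δ)
    (hδ1 : δ ≤ 1) (hz : δ ≤ ‖w - z‖) : δ / 3 * ‖u - z‖ ≤ ‖w - z‖ := by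
  have h1 : ‖u - z‖ ≤ 2 + ‖w - z‖ := by
    calc ‖u - z‖ = ‖(u - w) + (w - z)‖ := by ring_nf
      _ ≤ ‖u - w‖ + ‖w - z‖ := norm_add_le _ _
      _ ≤ (‖u‖ + ‖w‖) + ‖w - z‖ := by gcongr; exact norm_sub_le _ _
      _ = 2 + ‖w - z‖ := by rw [hu, hw]; norm_num
  nlinarith [norm_nonneg (u - z)]

theorem prod_bound (s : Multiset ℂ) (w u : ℂ) (δ : ℝ) (hw : ‖w‖ = 1) (hu : ‖u‖ = 1) (hδ : 0 < δ)
    (hδ1 : δ ≤ 1) (hz : ∀ z ∈ s, δ ≤ ‖w - z‖) :
    (δ / 3) ^ (Multiset.card s) * ‖(s.map fun a => u - a).prod‖ ≤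
      ‖(s.map fun a => w - a).prod‖ := by
  induction s using Multiset.induction_on with
  | empty => simp
  | cons a s ih =>
    have ih' := ih fun z hzs => hz z (Multiset.mem_cons_of_mem hzs)
    have ha := factor_bound w u a δ hw hu hδ hδ1 (hz a (Multiset.mem_cons_self a s))
    rw [Multiset.map_cons, Multiset.prod_cons, Multiset.map_cons, Multiset.prod_cons, norm_mul,
      norm_mul, Multiset.card_cons, pow_succ]
    calc (δ / 3) ^ Multiset.card s * (δ / 3) *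
          (‖u - a‖ * ‖(Multiset.map (fun a => u - a) s).prod‖)
        = (δ / 3 * ‖u - a‖) * ((δ / 3) ^ Multiset.card s *
            ‖(Multiset.map (fun a => u - a) s).prod‖) := by ring
      _ ≤ ‖w - a‖ * ‖(Multiset.map (fun a => w - a) s).prod‖ :=
          mul_le_mul ha ih' (by positivity) (norm_nonneg _)

end QuarticAux

open QuarticAux in
theorem quartic_low (p : Polynomial ℂ) (hdeg : p.natDegree ≤ 4) (A : ℝ) (hA0 : 0 < A)
    (hA : ∃ i, A ≤ ‖p.coeff i‖) :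
    ∃ S : Finset ℂ, S.card ≤ 4 ∧ ∀ w : ℂ, ‖w‖ = 1 → ∀ δ : ℝ, 0 < δ → δ ≤ 1 →
      (∀ z ∈ S, δ ≤ ‖w - z‖) → A * (δ / 3) ^ 4 ≤ ‖p.eval w‖ := by
  classical
  obtain ⟨i, hi⟩ := hA
  have hp0 : p ≠ 0 := by
    intro h
    rw [h] at hi
    simp at hi
    linarith
  have hi4 : i ≤ 4 := by
    by_contra hcon
    push Not at hcon
    rw [Polynomial.coeff_eq_zero_of_natDegree_lt (by omega), norm_zero] at hi
    linarith
  obtain ⟨u, hu, hbig⟩ := exists_big p hdeg i hi4
  have hcard : Multiset.card p.roots ≤ 4 := (p.card_roots').trans hdeg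
  refine ⟨p.roots.toFinset, (Multiset.toFinset_card_le _).trans hcard, ?_⟩
  intro w hw δ hδ hδ1 hS
  have hsplit : p.Splits := IsAlgClosed.splits p
  have hev : ∀ x : ℂ, p.eval x = p.leadingCoeff * (p.roots.map fun a => x - a).prod := by
    intro x
    exact hsplit.eval_eq_prod_roots x
  have hS' : ∀ z ∈ p.roots, δ ≤ ‖w - z‖ := fun z hz => hS z (Multiset.mem_toFinset.mpr hz)
  have hb := prod_bound p.roots w u δ hw hu hδ hδ1 hS'
  have h1 : (δ / 3) ^ (Multiset.card p.roots) * ‖p.eval u‖ ≤ ‖p.eval w‖ := by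
    rw [hev u, hev w, norm_mul, norm_mul]
    calc (δ / 3) ^ (Multiset.card p.roots) * (‖p.leadingCoeff‖ *
          ‖(p.roots.map fun a => u - a).prod‖)
        = ‖p.leadingCoeff‖ * ((δ / 3) ^ (Multiset.card p.roots) *
          ‖(p.roots.map fun a => u - a).prod‖) := by ring
      _ ≤ ‖p.leadingCoeff‖ * ‖(p.roots.map fun a => w - a).prod‖ :=
          mul_le_mul_of_nonneg_left hb (norm_nonneg _)
  have h2 : (δ / 3) ^ 4 ≤ (δ / 3) ^ (Multiset.card p.roots) :=
    pow_le_pow_of_le_one (by positivity) (by linarith) hcard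
  calc A * (δ / 3) ^ 4 ≤ ‖p.eval u‖ * (δ / 3) ^ (Multiset.card p.roots) :=
        mul_le_mul (hi.trans hbig) h2 (by positivity) (norm_nonneg _)
    _ = (δ / 3) ^ (Multiset.card p.roots) * ‖p.eval u‖ := by ring
    _ ≤ ‖p.eval w‖ := h1

/-- the form used later -/
theorem trig_low (al be : ℂ) (N : ℝ) (hN : 0 < N) (h : 2 * N ≤ ‖al‖ ^ 2 + ‖be‖ ^ 2) :
    ∃ S : Finset ℂ, S.card ≤ 4 ∧ ∀ x δ : ℝ, 0 < δ → δ ≤ 1 →
      (∀ z ∈ S, δ ≤ ‖Complex.exp (Complex.I * (x : ℂ)) - z‖) →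
      Real.sqrt N * (δ / 3) ^ 4 ≤
        |2 * (al * Complex.exp (Complex.I * (x : ℂ)) +
          be * Complex.exp (2 * Complex.I * (x : ℂ))).re| := by
  have hs : 0 < Real.sqrt N := Real.sqrt_pos.mpr hN
  set p : Polynomial ℂ := Polynomial.C be * Polynomial.X ^ 4 + Polynomial.C al * Polynomial.X ^ 3 +
    Polynomial.C (starRingEnd ℂ al) * Polynomial.X + Polynomial.C (starRingEnd ℂ be) with hp
  have hdeg : p.natDegree ≤ 4 := by
    rw [hp]
    compute_degree
  have h3 : p.coeff 3 = al := by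
    rw [hp]
    simp [Polynomial.coeff_X, Polynomial.coeff_C]
  have h4 : p.coeff 4 = be := by
    rw [hp]
    simp [Polynomial.coeff_X, Polynomial.coeff_C]
  have hA : ∃ i, Real.sqrt N ≤ ‖p.coeff i‖ := by
    by_cases hal : N ≤ ‖al‖ ^ 2
    · refine ⟨3, ?_⟩
      rw [h3]
      exact Real.sqrt_le_iff.mpr ⟨norm_nonneg _, hal⟩
    · refine ⟨4, ?_⟩
      rw [h4]
      exact Real.sqrt_le_iff.mpr ⟨norm_nonneg _, by push Not at hal; linarith⟩
  obtain ⟨S, hS, hmain⟩ := quartic_low p hdeg (Real.sqrt N) hs hA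
  refine ⟨S, hS, ?_⟩
  intro x δ hδ hδ1 hz
  have hw : ‖Complex.exp (Complex.I * (x : ℂ))‖ = 1 := Complex.norm_exp_I_mul_ofReal x
  refine (hmain _ hw δ hδ hδ1 hz).trans (le_of_eq ?_)
  set w := Complex.exp (Complex.I * (x : ℂ)) with hwdef
  have hw2 : Complex.exp (2 * Complex.I * (x : ℂ)) = w ^ 2 := by
    rw [hwdef, ← Complex.exp_nat_mul]
    congr 1
    push_cast
    ring
  have hww : starRingEnd ℂ w * w = 1 := by
    rw [mul_comm, Complex.mul_conj, Complex.normSq_eq_norm_sq, hw]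
    norm_num
  rw [hw2]
  have hev : p.eval w = w ^ 2 * ((2 * (al * w + be * w ^ 2).re : ℝ) : ℂ) := by
    have h5 : ((2 * (al * w + be * w ^ 2).re : ℝ) : ℂ) =
        (al * w + be * w ^ 2) + starRingEnd ℂ (al * w + be * w ^ 2) := by
      rw [Complex.add_conj]
    rw [h5, hp]
    simp only [Polynomial.eval_add, Polynomial.eval_mul, Polynomial.eval_C, Polynomial.eval_pow,
      Polynomial.eval_X, map_add, map_mul, map_pow]
    have e1 : w ^ 2 * (starRingEnd ℂ al * starRingEnd ℂ w) = starRingEnd ℂ al * w := by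
      calc w ^ 2 * (starRingEnd ℂ al * starRingEnd ℂ w)
          = starRingEnd ℂ al * w * (starRingEnd ℂ w * w) := by ring
        _ = starRingEnd ℂ al * w := by rw [hww, mul_one]
    have e2 : w ^ 2 * (starRingEnd ℂ be * (starRingEnd ℂ w) ^ 2) = starRingEnd ℂ be := by
      calc w ^ 2 * (starRingEnd ℂ be * (starRingEnd ℂ w) ^ 2)
          = starRingEnd ℂ be * (starRingEnd ℂ w * w) ^ 2 := by ring
        _ = starRingEnd ℂ be := by rw [hww, one_pow, mul_one]
    rw [mul_add, mul_add, mul_add, e1, e2]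
    ring
  rw [hev, norm_mul, norm_pow, hw, one_pow, one_mul, Complex.norm_real, Real.norm_eq_abs]

end Pool.Agent.Helper59.Lit
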