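import Pool.Agent.Helper59.Lit.RS
import Pool.Agent.Helper59.Lit.Quartic

/-!
# Module BadSet: the cosine part is large outside few tiny arcs

Parameters: `N = 4^u`, `nu = 2^w`, `T = N nu^21`, `n = N nu^25`.
-/

set_option autoImplicit false

namespace Pool.Agent.Helper59.Lit

/-- the cosine part -/
noncomputable def cpart (u w : ℕ) (p q : ℕ → ℤ) (θ : ℝ) : ℝ :=
  1 + 2 * (Complex.exp (2 * Complex.I * ((4 ^ u * 2 ^ (21 * w) : ℕ) : ℂ) * (θ : ℂ)) *
      sv (4 ^ u) p (2 * (θ : ℂ)) +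
    Complex.exp (4 * Complex.I * ((4 ^ u * 2 ^ (21 * w) : ℕ) : ℂ) * (θ : ℂ)) *
      sv (4 ^ u) q (2 * (θ : ℂ))).re

/-- at most 8 centres in each interval `[πr/T, π(r+1)/T]`, away from 0 -/
structure Centres (u w : ℕ) (Z : ℕ → Finset ℝ) : Prop where
  card : ∀ r, (Z r).card ≤ 8
  emp : ∀ r, 4 ^ u * 2 ^ (21 * w) / 2 ≤ r → Z r = ∅
  lo : ∀ r, ∀ z ∈ Z r, Real.pi * r / (4 ^ u * 2 ^ (21 * w) : ℝ) ≤ z
  hi : ∀ r, ∀ z ∈ Z r, z ≤ Real.pi * (r + 1) / (4 ^ u * 2 ^ (21 * w) : ℝ)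
  away : ∀ r, ∀ z ∈ Z r, 1 / (100 * (4 ^ u * 2 ^ (21 * w) : ℝ)) ≤ z

namespace BadSetAux

open Complex

theorem norm_exp_I (x : ℝ) : ‖Complex.exp (Complex.I * (x : ℂ))‖ = 1 := by
  rw [mul_comm]; exact Complex.norm_exp_ofReal_mul_I x

theorem norm_exp_2I (x : ℝ) : ‖Complex.exp (2 * Complex.I * (x : ℂ))‖ = 1 := by
  have h : (2 * Complex.I * (x : ℂ)) = Complex.I * ((2 * x : ℝ) : ℂ) := by push_cast; ring
  rw [h]; exact norm_exp_I _

/-- chord versus arc -/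
theorem arc_le (a b : ℝ) (h : |a - b| ≤ Real.pi) :
    |a - b| ≤ Real.pi / 2 *
      ‖Complex.exp (Complex.I * (a : ℂ)) - Complex.exp (Complex.I * (b : ℂ))‖ := by
  have h1 : ‖Complex.exp (Complex.I * (a : ℂ)) - Complex.exp (Complex.I * (b : ℂ))‖ =
      ‖Complex.exp (Complex.I * ((a - b : ℝ) : ℂ)) - 1‖ := by
    have : Complex.exp (Complex.I * (a : ℂ)) - Complex.exp (Complex.I * (b : ℂ)) =
        Complex.exp (Complex.I * (b : ℂ)) *
          (Complex.exp (Complex.I * ((a - b : ℝ) : ℂ)) - 1) := by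
      rw [mul_sub, ← Complex.exp_add, mul_one]
      congr 2
      push_cast; ring
    rw [this, norm_mul, norm_exp_I, one_mul]
  rw [h1, Complex.norm_exp_I_mul_ofReal_sub_one, Real.norm_eq_abs, abs_mul, abs_two]
  have hpi := Real.pi_pos
  have h2 : 2 / Real.pi * (|a - b| / 2) ≤ |Real.sin ((a - b) / 2)| := by
    have h3 : |Real.sin ((a - b) / 2)| = Real.sin (|a - b| / 2) := by
      rcases le_total 0 (a - b) with h0 | h0
      · rw [abs_of_nonneg h0] at h ⊢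
        exact abs_of_nonneg (Real.sin_nonneg_of_nonneg_of_le_pi (by linarith) (by linarith))
      · rw [abs_of_nonpos h0] at h ⊢
        have : (a - b) / 2 = -(-(a - b) / 2) := by ring
        rw [this, Real.sin_neg, abs_neg]
        exact abs_of_nonneg (Real.sin_nonneg_of_nonneg_of_le_pi (by linarith) (by linarith))
    rw [h3]
    exact Real.mul_le_sin (by positivity) (by linarith)
  calc |a - b| = Real.pi / 2 * (2 * (2 / Real.pi * (|a - b| / 2))) := by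
        field_simp
    _ ≤ Real.pi / 2 * (2 * |Real.sin ((a - b) / 2)|) := by gcongr

/-- `cpart` in terms of real arguments -/
theorem cpart_eq (u w : ℕ) (p q : ℕ → ℤ) (θ : ℝ) :
    cpart u w p q θ = 1 + 2 *
      (sv (4 ^ u) p ((2 * θ : ℝ) : ℂ) *
          Complex.exp (Complex.I * ((2 * (4 ^ u * 2 ^ (21 * w)) * θ : ℝ) : ℂ)) +
        sv (4 ^ u) q ((2 * θ : ℝ) : ℂ) *
          Complex.exp (2 * Complex.I * ((2 * (4 ^ u * 2 ^ (21 * w)) * θ : ℝ) : ℂ))).re := by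
  unfold cpart
  have h1 : 2 * Complex.I * ((4 ^ u * 2 ^ (21 * w) : ℕ) : ℂ) * (θ : ℂ) =
      Complex.I * ((2 * (4 ^ u * 2 ^ (21 * w)) * θ : ℝ) : ℂ) := by push_cast; ring
  have h2 : 4 * Complex.I * ((4 ^ u * 2 ^ (21 * w) : ℕ) : ℂ) * (θ : ℂ) =
      2 * Complex.I * ((2 * (4 ^ u * 2 ^ (21 * w)) * θ : ℝ) : ℂ) := by push_cast; ring
  have h3 : (2 * (θ : ℂ)) = ((2 * θ : ℝ) : ℂ) := by push_cast; ring
  rw [h1, h2, h3, mul_comm (Complex.exp (Complex.I * _)),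
    mul_comm (Complex.exp (2 * Complex.I * _))]

/-- replacing the slowly varying factors by their values at a nearby point -/
theorem freeze (u w : ℕ) (p q : ℕ → ℤ) (h : RSPair u p q) (θ θ' : ℝ) :
    |2 * (sv (4 ^ u) p ((2 * θ' : ℝ) : ℂ) *
          Complex.exp (Complex.I * ((2 * (4 ^ u * 2 ^ (21 * w)) * θ : ℝ) : ℂ)) +
        sv (4 ^ u) q ((2 * θ' : ℝ) : ℂ) *
          Complex.exp (2 * Complex.I * ((2 * (4 ^ u * 2 ^ (21 * w)) * θ : ℝ) : ℂ))).re| ≤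
      |cpart u w p q θ| + 1 + 16 * 8 ^ u * |θ - θ'| := by
  set x : ℝ := 2 * (4 ^ u * 2 ^ (21 * w)) * θ with hx
  set a := sv (4 ^ u) p ((2 * θ : ℝ) : ℂ)
  set b := sv (4 ^ u) q ((2 * θ : ℝ) : ℂ)
  set a' := sv (4 ^ u) p ((2 * θ' : ℝ) : ℂ)
  set b' := sv (4 ^ u) q ((2 * θ' : ℝ) : ℂ)
  set E1 := Complex.exp (Complex.I * (x : ℂ))
  set E2 := Complex.exp (2 * Complex.I * (x : ℂ))
  have hE1 : ‖E1‖ = 1 := norm_exp_I x
  have hE2 : ‖E2‖ = 1 := norm_exp_2I x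
  have hc : cpart u w p q θ = 1 + 2 * (a * E1 + b * E2).re := cpart_eq u w p q θ
  have ha : ‖a' - a‖ ≤ 2 * 8 ^ u * |2 * θ - 2 * θ'| := by
    rw [norm_sub_rev]; exact h.lip_p (2 * θ) (2 * θ')
  have hb : ‖b' - b‖ ≤ 2 * 8 ^ u * |2 * θ - 2 * θ'| := by
    rw [norm_sub_rev]; exact h.lip_q (2 * θ) (2 * θ')
  have hab : |2 * θ - 2 * θ'| = 2 * |θ - θ'| := by
    rw [← mul_sub, abs_mul, abs_two]
  rw [hab] at ha hb
  have key : |(a' * E1 + b' * E2).re - (a * E1 + b * E2).re| ≤ 8 * 8 ^ u * |θ - θ'| := by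
    rw [← Complex.sub_re]
    calc |(a' * E1 + b' * E2 - (a * E1 + b * E2)).re|
        ≤ ‖a' * E1 + b' * E2 - (a * E1 + b * E2)‖ := Complex.abs_re_le_norm _
      _ = ‖(a' - a) * E1 + (b' - b) * E2‖ := by congr 1; ring
      _ ≤ ‖(a' - a) * E1‖ + ‖(b' - b) * E2‖ := norm_add_le _ _
      _ = ‖a' - a‖ + ‖b' - b‖ := by rw [norm_mul, norm_mul, hE1, hE2, mul_one, mul_one]
      _ ≤ 8 * 8 ^ u * |θ - θ'| := by linarith
  rw [hc]
  have e1 : 2 * (a' * E1 + b' * E2).re = (1 + 2 * (a * E1 + b * E2).re) - 1 +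
      2 * ((a' * E1 + b' * E2).re - (a * E1 + b * E2).re) := by ring
  rw [e1]
  calc |(1 + 2 * (a * E1 + b * E2).re) - 1 +
      2 * ((a' * E1 + b' * E2).re - (a * E1 + b * E2).re)|
      ≤ |(1 + 2 * (a * E1 + b * E2).re) - 1| +
        |2 * ((a' * E1 + b' * E2).re - (a * E1 + b * E2).re)| := abs_add_le _ _
    _ ≤ (|1 + 2 * (a * E1 + b * E2).re| + |(1 : ℝ)|) +
        |2 * ((a' * E1 + b' * E2).re - (a * E1 + b * E2).re)| := by
        gcongr; exact abs_sub _ _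
    _ ≤ _ := by
        rw [abs_one, abs_mul, abs_two]
        linarith

/-- near zero the cosine part is large -/
theorem near_zero (u w : ℕ) (hw : 1 ≤ w) (p q : ℕ → ℤ) (h : RSPair u p q) (θ : ℝ)
    (h0 : 0 ≤ θ) (h1 : θ < 1 / (100 * (4 ^ u * 2 ^ (21 * w) : ℝ))) :
    (2 : ℝ) ^ u ≤ |cpart u w p q θ| := by
  set x : ℝ := 2 * (4 ^ u * 2 ^ (21 * w)) * θ with hx
  set a := sv (4 ^ u) p ((2 * θ : ℝ) : ℂ) with ha_def
  set b := sv (4 ^ u) q ((2 * θ : ℝ) : ℂ) with hb_def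
  set E1 := Complex.exp (Complex.I * (x : ℂ)) with hE1_def
  set E2 := Complex.exp (2 * Complex.I * (x : ℂ)) with hE2_def
  have hT : (0 : ℝ) < 4 ^ u * 2 ^ (21 * w) := by positivity
  have hc : cpart u w p q θ = 1 + 2 * (a * E1 + b * E2).re := cpart_eq u w p q θ
  have hTθ : (4 ^ u * 2 ^ (21 * w)) * θ ≤ 1 / 100 := by
    have := mul_le_mul_of_nonneg_left h1.le hT.le
    calc (4 ^ u * 2 ^ (21 * w)) * θ ≤ (4 ^ u * 2 ^ (21 * w)) *
        (1 / (100 * (4 ^ u * 2 ^ (21 * w) : ℝ))) := this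
      _ = 1 / 100 := by field_simp
  have hx0 : 0 ≤ x := by positivity
  have hx1 : x ≤ 1 / 50 := by rw [hx]; linarith
  have hE1n : ‖E1‖ = 1 := norm_exp_I x
  have hE2n : ‖E2‖ = 1 := norm_exp_2I x
  have hE1 : ‖E1 - 1‖ ≤ 1 / 50 := by
    have := Real.norm_exp_I_mul_ofReal_sub_one_le (x := x)
    rw [Real.norm_eq_abs, abs_of_nonneg hx0] at this
    exact this.trans hx1
  have hE2 : ‖E2 - 1‖ ≤ 1 / 25 := by
    have e : E2 = Complex.exp (Complex.I * ((2 * x : ℝ) : ℂ)) := by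
      rw [hE2_def]; congr 1; push_cast; ring
    have := Real.norm_exp_I_mul_ofReal_sub_one_le (x := 2 * x)
    rw [← e, Real.norm_eq_abs, abs_of_nonneg (by positivity)] at this
    linarith
  have hp0 : sv (4 ^ u) p ((0 : ℝ) : ℂ) = 2 ^ u := by simpa using h.p_zero
  have hq0 : sv (4 ^ u) q ((0 : ℝ) : ℂ) = 2 ^ u := by simpa using h.q_zero
  have ha : ‖a - 2 ^ u‖ ≤ 2 * 8 ^ u * (2 * θ) := by
    have := h.lip_p (2 * θ) 0
    rw [hp0, sub_zero, abs_of_nonneg (by positivity)] at this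
    exact this
  have hb : ‖b - 2 ^ u‖ ≤ 2 * 8 ^ u * (2 * θ) := by
    have := h.lip_q (2 * θ) 0
    rw [hq0, sub_zero, abs_of_nonneg (by positivity)] at this
    exact this
  have h8 : (8 : ℝ) ^ u * θ ≤ 2 ^ u / 100 := by
    have h84 : (8 : ℝ) ^ u = 2 ^ u * 4 ^ u := by rw [← mul_pow]; norm_num
    have h2w : (1 : ℝ) ≤ 2 ^ (21 * w) := one_le_pow₀ (by norm_num)
    calc (8 : ℝ) ^ u * θ = 2 ^ u * (4 ^ u * 1 * θ) := by rw [h84]; ring
      _ ≤ 2 ^ u * (4 ^ u * 2 ^ (21 * w) * θ) := by gcongr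
      _ ≤ 2 ^ u * (1 / 100) := by gcongr
      _ = 2 ^ u / 100 := by ring
  have h2n : ‖(2 : ℂ) ^ u‖ = 2 ^ u := by simp
  have key : ‖a * E1 + b * E2 - 2 * 2 ^ u‖ ≤ 2 ^ u / 2 := by
    have e : a * E1 + b * E2 - 2 * 2 ^ u =
        ((a - 2 ^ u) * E1 + 2 ^ u * (E1 - 1)) + ((b - 2 ^ u) * E2 + 2 ^ u * (E2 - 1)) := by
      ring
    rw [e]
    have n1 : ‖(a - 2 ^ u) * E1 + 2 ^ u * (E1 - 1)‖ ≤ ‖a - 2 ^ u‖ + 2 ^ u * ‖E1 - 1‖ := by
      refine (norm_add_le _ _).trans ?_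
      rw [norm_mul, norm_mul, hE1n, mul_one, h2n]
    have n2 : ‖(b - 2 ^ u) * E2 + 2 ^ u * (E2 - 1)‖ ≤ ‖b - 2 ^ u‖ + 2 ^ u * ‖E2 - 1‖ := by
      refine (norm_add_le _ _).trans ?_
      rw [norm_mul, norm_mul, hE2n, mul_one, h2n]
    have n3 : (2 : ℝ) ^ u * ‖E1 - 1‖ ≤ 2 ^ u * (1 / 50) := by gcongr
    have n4 : (2 : ℝ) ^ u * ‖E2 - 1‖ ≤ 2 ^ u * (1 / 25) := by gcongr
    have n5 : (0 : ℝ) < 2 ^ u := by positivity
    refine (norm_add_le _ _).trans ?_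
    nlinarith
  have hre : (2 : ℝ) * 2 ^ u - 2 ^ u / 2 ≤ (a * E1 + b * E2).re := by
    have h5 : |(a * E1 + b * E2 - 2 * 2 ^ u).re| ≤ 2 ^ u / 2 :=
      (Complex.abs_re_le_norm _).trans key
    have h6 : (a * E1 + b * E2 - 2 * 2 ^ u : ℂ).re = (a * E1 + b * E2).re - 2 * 2 ^ u := by
      rw [Complex.sub_re]
      congr 1
      have : (2 * 2 ^ u : ℂ) = ((2 * 2 ^ u : ℝ) : ℂ) := by push_cast; ring
      rw [this, Complex.ofReal_re]
    rw [h6, abs_le] at h5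
    linarith [h5.1]
  have n5 : (0 : ℝ) < 2 ^ u := by positivity
  rw [hc]
  calc (2 : ℝ) ^ u ≤ 1 + 2 * (a * E1 + b * E2).re := by linarith
    _ ≤ _ := le_abs_self _

/-- the numerical comparison -/
theorem numeric (u w : ℕ) (hw : 15 ≤ w) (hu : 21 * w ≤ u) :
    (2 : ℝ) ^ u / (100 * 2 ^ (20 * w)) + 1 +
        16 * 8 ^ u * (Real.pi / (4 ^ u * 2 ^ (21 * w) : ℝ)) ≤
      2 ^ u * (1 / 2 ^ (5 * w) / 3) ^ 4 := by
  have h84 : (8 : ℝ) ^ u = 2 ^ u * 4 ^ u := by rw [← mul_pow]; norm_num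
  have hν : (32768 : ℝ) ≤ 2 ^ w := by
    calc (32768 : ℝ) = 2 ^ 15 := by norm_num
      _ ≤ 2 ^ w := pow_le_pow_right₀ (by norm_num) hw
  have hM : ((2 : ℝ) ^ w) ^ 21 ≤ 2 ^ u := by
    rw [← pow_mul, mul_comm w 21]
    exact pow_le_pow_right₀ (by norm_num) hu
  have e20 : (2 : ℝ) ^ (20 * w) = ((2 : ℝ) ^ w) ^ 20 := by rw [← pow_mul, mul_comm w 20]
  have e21 : (2 : ℝ) ^ (21 * w) = ((2 : ℝ) ^ w) ^ 21 := by rw [← pow_mul, mul_comm w 21]
  have e5 : (2 : ℝ) ^ (5 * w) = ((2 : ℝ) ^ w) ^ 5 := by rw [← pow_mul, mul_comm w 5]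
  rw [e20, e21, e5, h84]
  set ν : ℝ := 2 ^ w
  set M : ℝ := 2 ^ u
  have hMpos : 0 < M := by positivity
  have hνpos : 0 < ν := by positivity
  have h4 : (0 : ℝ) < 4 ^ u := by positivity
  have e1 : 16 * (M * 4 ^ u) * (Real.pi / (4 ^ u * ν ^ 21)) = M / ν ^ 21 * (16 * Real.pi) := by
    field_simp
  have e2 : M * (1 / ν ^ 5 / 3) ^ 4 = M / ν ^ 21 * (ν / 81) := by
    field_simp; norm_num
  have e3 : M / (100 * ν ^ 20) = M / ν ^ 21 * (ν / 100) := by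
    field_simp
  have e4 : 1 ≤ M / ν ^ 21 := by rwa [le_div_iff₀ (by positivity), one_mul]
  have hpi := Real.pi_lt_d2
  rw [e1, e2, e3]
  have : M / ν ^ 21 * (ν / 100) + M / ν ^ 21 * 1 + M / ν ^ 21 * (16 * Real.pi) ≤
      M / ν ^ 21 * (ν / 81) := by
    rw [← mul_add, ← mul_add]
    apply mul_le_mul_of_nonneg_left _ (by positivity)
    linarith
  linarith

end BadSetAux

open BadSetAux in
theorem bad_set : ∃ w0 : ℕ, ∀ u w : ℕ, w0 ≤ w → 21 * w ≤ u → ∀ p q : ℕ → ℤ, RSPair u p q →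
    ∃ Z : ℕ → Finset ℝ, Centres u w Z ∧ ∀ θ : ℝ, 0 ≤ θ → θ ≤ Real.pi / 2 →
      ((2 : ℝ) ^ u / (100 * 2 ^ (20 * w)) ≤ |cpart u w p q θ|) ∨
      ∃ r, ∃ z ∈ Z r, |θ - z| ≤ 2 / (2 ^ w * (4 ^ u * 2 ^ (25 * w) : ℝ)) := by
  classical
  refine ⟨15, ?_⟩
  intro u w hw hu p q h
  have hpi := Real.pi_pos
  set T : ℝ := 4 ^ u * 2 ^ (21 * w) with hTdef
  have hT : 0 < T := by positivity
  -- the sets S_r
  have hS : ∀ r : ℕ, ∃ S : Finset ℂ, S.card ≤ 4 ∧ ∀ x δ : ℝ, 0 < δ → δ ≤ 1 →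
      (∀ z ∈ S, δ ≤ ‖Complex.exp (Complex.I * (x : ℂ)) - z‖) →
      (2 : ℝ) ^ u * (δ / 3) ^ 4 ≤
        |2 * (sv (4 ^ u) p ((2 * (Real.pi * r / T) : ℝ) : ℂ) * Complex.exp (Complex.I * (x : ℂ)) +
          sv (4 ^ u) q ((2 * (Real.pi * r / T) : ℝ) : ℂ) *
            Complex.exp (2 * Complex.I * (x : ℂ))).re| := by
    intro r
    have hs := h.sum_sq (2 * (Real.pi * r / T))
    obtain ⟨S, hS1, hS2⟩ := trig_low (sv (4 ^ u) p ((2 * (Real.pi * r / T) : ℝ) : ℂ))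
      (sv (4 ^ u) q ((2 * (Real.pi * r / T) : ℝ) : ℂ)) (4 ^ u) (by positivity) hs.ge
    have hsq : Real.sqrt ((4 : ℝ) ^ u) = 2 ^ u := by
      have : (4 : ℝ) ^ u = (2 ^ u) ^ 2 := by rw [← pow_mul, mul_comm, pow_mul]; norm_num
      rw [this, Real.sqrt_sq (by positivity)]
    rw [hsq] at hS2
    exact ⟨S, hS1, hS2⟩
  choose S hS1 hS2 using hS
  -- the bad sets
  set δ : ℝ := 1 / 2 ^ (5 * w) with hδ
  have hδ0 : 0 < δ := by positivity
  have hδ1 : δ ≤ 1 := by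
    rw [hδ, div_le_one (by positivity)]
    exact one_le_pow₀ (by norm_num)
  set B : ℕ → ℂ → ℕ → Set ℝ := fun r z j => {θ : ℝ | Real.pi * r / T + j * (Real.pi / (2 * T)) ≤ θ ∧
    θ ≤ Real.pi * r / T + (j + 1) * (Real.pi / (2 * T)) ∧
    |cpart u w p q θ| < (2 : ℝ) ^ u / (100 * 2 ^ (20 * w)) ∧
    ‖Complex.exp (Complex.I * ((2 * T * θ : ℝ) : ℂ)) - z‖ < δ} with hB
  have hc : ∀ (r : ℕ) (z : ℂ) (j : ℕ), ∃ c : ℝ, (B r z j).Nonempty → c ∈ B r z j := by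
    intro r z j
    by_cases hne : (B r z j).Nonempty
    · exact ⟨hne.choose, fun _ => hne.choose_spec⟩
    · exact ⟨0, fun h => absurd h hne⟩
  choose c hc using hc
  set Z : ℕ → Finset ℝ := fun r => if 4 ^ u * 2 ^ (21 * w) / 2 ≤ r then ∅ else
    ((S r ×ˢ Finset.range 2).filter (fun zj => (B r zj.1 zj.2).Nonempty)).image
      (fun zj => c r zj.1 zj.2) with hZ
  have hZmem : ∀ r, ∀ z ∈ Z r, ∃ z0 ∈ S r, ∃ j < 2, z ∈ B r z0 j := by
    intro r z hz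
    simp only [hZ] at hz
    split_ifs at hz with hr
    · simp at hz
    · rw [Finset.mem_image] at hz
      obtain ⟨⟨z0, j⟩, hm, rfl⟩ := hz
      rw [Finset.mem_filter, Finset.mem_product, Finset.mem_range] at hm
      exact ⟨z0, hm.1.1, j, hm.1.2, hc r z0 j hm.2⟩
  have hjlo : ∀ (r : ℕ) (z0 : ℂ) (j : ℕ) (z : ℝ), z ∈ B r z0 j → Real.pi * r / T ≤ z := by
    intro r z0 j z hz
    have : 0 ≤ (j : ℝ) * (Real.pi / (2 * T)) := by positivity
    linarith [hz.1]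
  refine ⟨Z, ⟨?_, ?_, ?_, ?_, ?_⟩, ?_⟩
  · -- card
    intro r
    simp only [hZ]
    split_ifs with hr
    · simp
    · calc _ ≤ ((S r ×ˢ Finset.range 2).filter (fun zj => (B r zj.1 zj.2).Nonempty)).card :=
          Finset.card_image_le
        _ ≤ (S r ×ˢ Finset.range 2).card := Finset.card_filter_le _ _
        _ = (S r).card * 2 := by rw [Finset.card_product, Finset.card_range]
        _ ≤ 8 := by have := hS1 r; omega
  · -- emp
    intro r hr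
    simp only [hZ]
    rw [if_pos hr]
  · -- lo
    intro r z hz
    obtain ⟨z0, _, j, _, hzB⟩ := hZmem r z hz
    exact hjlo r z0 j z hzB
  · -- hi
    intro r z hz
    obtain ⟨z0, _, j, hj, hzB⟩ := hZmem r z hz
    have hj1 : (j : ℝ) + 1 ≤ 2 := by
      have : j + 1 ≤ 2 := hj
      exact_mod_cast this
    have h1 : ((j : ℝ) + 1) * (Real.pi / (2 * T)) ≤ 2 * (Real.pi / (2 * T)) := by
      apply mul_le_mul_of_nonneg_right hj1 (by positivity)
    have h2 : Real.pi * (r + 1) / T = Real.pi * r / T + 2 * (Real.pi / (2 * T)) := by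
      field_simp
    rw [h2]
    linarith [hzB.2.1]
  · -- away
    intro r z hz
    obtain ⟨z0, _, j, hj, hzB⟩ := hZmem r z hz
    by_contra hlt
    rw [not_le] at hlt
    have hz0 : 0 ≤ z := le_trans (by positivity) (hjlo r z0 j z hzB)
    have h1 := near_zero u w (by omega) p q h z hz0 hlt
    have h2 := hzB.2.2.1
    have h3 : (2 : ℝ) ^ u / (100 * 2 ^ (20 * w)) ≤ 2 ^ u := by
      apply div_le_self (by positivity)
      have : (1 : ℝ) ≤ 2 ^ (20 * w) := one_le_pow₀ (by norm_num)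
      linarith
    linarith
  · -- covering
    intro θ h0 h1
    by_contra hcon
    push_neg at hcon
    obtain ⟨hbad, hfar⟩ := hcon
    -- choose r
    set Tn : ℕ := 4 ^ u * 2 ^ (21 * w) with hTn
    have hTnT : (Tn : ℝ) = T := by rw [hTn, hTdef]; push_cast; ring
    have heven : 2 * (Tn / 2) = Tn := by
      have : 2 ∣ Tn := by
        rw [hTn]
        exact Dvd.dvd.mul_left (dvd_pow_self 2 (by omega)) _
      omega
    have hTn2 : 1 ≤ Tn / 2 := by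
      have : 0 < Tn := by positivity
      omega
    have hhalf : ((Tn / 2 : ℕ) : ℝ) = T / 2 := by
      have : (2 : ℝ) * ((Tn / 2 : ℕ) : ℝ) = T := by rw [← hTnT]; exact_mod_cast heven
      linarith
    set y : ℝ := T * θ / Real.pi with hy
    have hy0 : 0 ≤ y := by positivity
    have hθy : θ = Real.pi * y / T := by rw [hy]; field_simp
    have hy1 : y ≤ T / 2 := by
      rw [hy, div_le_iff₀ hpi]
      nlinarith
    obtain ⟨r, hr1, hr2, hr3⟩ : ∃ r : ℕ, r < Tn / 2 ∧ (r : ℝ) ≤ y ∧ y ≤ r + 1 := by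
      by_cases hlt : ⌊y⌋₊ < Tn / 2
      · exact ⟨⌊y⌋₊, hlt, Nat.floor_le hy0, (Nat.lt_floor_add_one y).le⟩
      · refine ⟨Tn / 2 - 1, by omega, ?_, ?_⟩
        · have h5 : ((Tn / 2 : ℕ) : ℝ) ≤ y := by
            have h6 : ((Tn / 2 : ℕ) : ℝ) ≤ (⌊y⌋₊ : ℝ) := by
              have := not_lt.mp hlt
              exact_mod_cast this
            exact h6.trans (Nat.floor_le hy0)
          have h7 : ((Tn / 2 - 1 : ℕ) : ℝ) ≤ ((Tn / 2 : ℕ) : ℝ) := by
            exact_mod_cast Nat.sub_le _ _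
          linarith
        · have h8 : (((Tn / 2 - 1 : ℕ) : ℝ) + 1) = ((Tn / 2 : ℕ) : ℝ) := by
            have : Tn / 2 - 1 + 1 = Tn / 2 := by omega
            exact_mod_cast this
          rw [h8, hhalf]; exact hy1
    -- θ lies in a half of A_r
    obtain ⟨j, hj2, hjl, hju⟩ : ∃ j : ℕ, j < 2 ∧
        Real.pi * r / T + j * (Real.pi / (2 * T)) ≤ θ ∧
        θ ≤ Real.pi * r / T + (j + 1) * (Real.pi / (2 * T)) := by
      have hθl : Real.pi * r / T ≤ θ := by rw [hθy]; gcongr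
      have hθu : θ ≤ Real.pi * (r + 1) / T := by rw [hθy]; gcongr
      by_cases hmid : θ ≤ Real.pi * r / T + (Real.pi / (2 * T))
      · exact ⟨0, by norm_num, by simpa using hθl, by simpa using hmid⟩
      · rw [not_le] at hmid
        refine ⟨1, by norm_num, by simpa using hmid.le, ?_⟩
        have e : Real.pi * (r + 1) / T = Real.pi * r / T + ((1 : ℕ) + 1) * (Real.pi / (2 * T)) := by
          push_cast; field_simp; ring
        rw [← e]; exact hθu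
    -- some z in S_r is close
    have hdist : |θ - Real.pi * r / T| ≤ Real.pi / T := by
      have hθl : Real.pi * r / T ≤ θ := by rw [hθy]; gcongr
      have hθu : θ ≤ Real.pi * (r + 1) / T := by rw [hθy]; gcongr
      rw [abs_of_nonneg (by linarith)]
      have e : Real.pi * (r + 1) / T = Real.pi * r / T + Real.pi / T := by ring
      linarith
    obtain ⟨z0, hz0S, hz0⟩ : ∃ z0 ∈ S r,
        ‖Complex.exp (Complex.I * ((2 * T * θ : ℝ) : ℂ)) - z0‖ < δ := by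
      by_contra hno
      push_neg at hno
      have h5 := hS2 r (2 * T * θ) δ hδ0 hδ1 hno
      have h6 := freeze u w p q h θ (Real.pi * r / T)
      have h7 := numeric u w hw hu
      have h8 : 16 * 8 ^ u * |θ - Real.pi * r / T| ≤ 16 * 8 ^ u * (Real.pi / T) := by gcongr
      have h9 := h5.trans h6
      linarith
    have hθB : θ ∈ B r z0 j := ⟨hjl, hju, hbad, hz0⟩
    have hcB : c r z0 j ∈ B r z0 j := hc r z0 j ⟨θ, hθB⟩
    have hcZ : c r z0 j ∈ Z r := by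
      simp only [hZ]
      rw [if_neg (by omega)]
      rw [Finset.mem_image]
      exact ⟨(z0, j), Finset.mem_filter.mpr ⟨Finset.mem_product.mpr
        ⟨hz0S, Finset.mem_range.mpr hj2⟩, ⟨θ, hθB⟩⟩, rfl⟩
    have hfar' := hfar r _ hcZ
    set ζ := c r z0 j
    have hdiff : |θ - ζ| ≤ Real.pi / (2 * T) := by
      have e1 : (((j : ℝ) + 1) * (Real.pi / (2 * T))) = j * (Real.pi / (2 * T)) +
        Real.pi / (2 * T) := by ring
      have l1 := hcB.1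
      have l2 := hcB.2.1
      rw [e1] at l2 hju
      rw [abs_le]
      constructor <;> linarith
    have harc := arc_le (2 * T * θ) (2 * T * ζ) (by
      rw [← mul_sub, abs_mul, abs_of_pos (by positivity : (0 : ℝ) < 2 * T)]
      calc 2 * T * |θ - ζ| ≤ 2 * T * (Real.pi / (2 * T)) := by gcongr
        _ = Real.pi := by field_simp)
    have hnorm : ‖Complex.exp (Complex.I * ((2 * T * θ : ℝ) : ℂ)) -
        Complex.exp (Complex.I * ((2 * T * ζ : ℝ) : ℂ))‖ ≤ 2 * δ := by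
      have e : Complex.exp (Complex.I * ((2 * T * θ : ℝ) : ℂ)) -
        Complex.exp (Complex.I * ((2 * T * ζ : ℝ) : ℂ)) =
        (Complex.exp (Complex.I * ((2 * T * θ : ℝ) : ℂ)) - z0) -
        (Complex.exp (Complex.I * ((2 * T * ζ : ℝ) : ℂ)) - z0) := by ring
      rw [e]
      refine (norm_sub_le _ _).trans ?_
      linarith [hcB.2.2.2]
    rw [← mul_sub, abs_mul, abs_of_pos (by positivity : (0 : ℝ) < 2 * T)] at harc
    have h10 : 2 * T * |θ - ζ| ≤ Real.pi * δ := by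
      calc 2 * T * |θ - ζ| ≤ Real.pi / 2 * ‖Complex.exp (Complex.I * ((2 * T * θ : ℝ) : ℂ)) -
        Complex.exp (Complex.I * ((2 * T * ζ : ℝ) : ℂ))‖ := harc
        _ ≤ Real.pi / 2 * (2 * δ) := by gcongr
        _ = Real.pi * δ := by ring
    have h11 : (2 : ℝ) ^ w * (4 ^ u * 2 ^ (25 * w)) = T * 2 ^ (5 * w) := by
      rw [hTdef]
      have : (2 : ℝ) ^ w * 2 ^ (25 * w) = 2 ^ (21 * w) * 2 ^ (5 * w) := by
        rw [← pow_add, ← pow_add]; congr 1; ring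
      calc (2 : ℝ) ^ w * (4 ^ u * 2 ^ (25 * w)) = 4 ^ u * (2 ^ w * 2 ^ (25 * w)) := by ring
        _ = 4 ^ u * (2 ^ (21 * w) * 2 ^ (5 * w)) := by rw [this]
        _ = _ := by ring
    have h12 : |θ - ζ| ≤ 2 / (2 ^ w * (4 ^ u * 2 ^ (25 * w) : ℝ)) := by
      rw [h11]
      have e : 2 / (T * 2 ^ (5 * w)) = 2 * δ / T := by rw [hδ]; field_simp
      rw [e, le_div_iff₀ hT]
      have : Real.pi * δ ≤ 4 * δ := by
        have := Real.pi_le_four
        gcongr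
      linarith
    linarith

end Pool.Agent.Helper59.Lit
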