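import Pool.Agent.Helper59.Lit.Radii

/-!
# Module Choice: choice of the signs of the bumps, of the multiplier and of the rounding
-/

set_option autoImplicit false

namespace Pool.Agent.Helper59.Lit

open Finset

/-- the two crossing functions -/
noncomputable def ph1 (CR : ℝ) (k Y : ℕ) (a be al : ℕ → ℤ) (θ : ℝ) : ℂ :=
  Complex.exp (Complex.I * ((k * Y ^ 256 + 8 * mm Y : ℕ) : ℂ) * (θ : ℂ)) *
    tt CR k Y a be al (θ : ℂ) / GG k Y a (θ : ℂ)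

noncomputable def ph2 (CR : ℝ) (k Y : ℕ) (a be al : ℕ → ℤ) (θ : ℝ) : ℂ :=
  Complex.exp (Complex.I * ((8 * mm Y : ℕ) : ℂ) * (θ : ℂ)) *
    tt CR k Y a be al (θ : ℂ) / (((1 - hh Y : ℝ) : ℂ) * BB Y be (θ : ℂ))

theorem ch_log_small (K : ℝ) : ∃ Y0 : ℕ, ∀ Y : ℕ, Y0 ≤ Y → K * Real.log Y ≤ Y := by
  have h := Real.isLittleO_log_id_atTop
  have h1 := h.def (c := 1 / (|K| + 1)) (by positivity)
  rw [Filter.eventually_atTop] at h1
  obtain ⟨x0, hx0⟩ := h1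
  obtain ⟨N, hN⟩ := exists_nat_ge x0
  refine ⟨N, fun Y hY => ?_⟩
  have hY' : x0 ≤ (Y : ℝ) := le_trans hN (by exact_mod_cast hY)
  have h2 := hx0 (Y : ℝ) hY'
  simp only [id, Real.norm_eq_abs] at h2
  have hY0 : (0 : ℝ) ≤ Y := by positivity
  rw [abs_of_nonneg hY0] at h2
  have hK : 0 < |K| + 1 := by positivity
  calc K * Real.log Y ≤ |K * Real.log Y| := le_abs_self _
    _ = |K| * |Real.log Y| := abs_mul _ _
    _ ≤ |K| * (1 / (|K| + 1) * Y) := by gcongr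
    _ ≤ Y := by
      have : |K| * (1 / (|K| + 1) * Y) = (|K| / (|K| + 1)) * Y := by ring
      rw [this]
      have h3 : |K| / (|K| + 1) ≤ 1 := by
        rw [div_le_one hK]; linarith
      nlinarith

theorem ch_sv_diff (n : ℕ) (a : ℕ → ℤ) : Differentiable ℂ (sv n a) := by
  unfold sv rv
  fun_prop

theorem ch_tau_diff (m i1 i2 : ℕ) (al : ℕ → ℤ) (R : ℕ → ℝ) :
    Differentiable ℂ (tau m i1 i2 al R) := by
  unfold tau
  have h := FK_diff m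
  fun_prop

theorem ch_norm_exp_real (t : ℝ) : ‖Complex.exp (Complex.I * (t : ℂ))‖ = 1 := by
  rw [mul_comm]; exact Complex.norm_exp_ofReal_mul_I t

theorem ch_norm_exp_le (K : ℝ) (hK : 0 ≤ K) (z : ℂ) (hz : ‖z‖ ≤ 1) :
    ‖Complex.exp (Complex.I * (K : ℂ) * z)‖ ≤ Real.exp K := by
  rw [Complex.norm_exp]
  apply Real.exp_le_exp.mpr
  have h1 : (Complex.I * (K : ℂ) * z).re = - (K * z.im) := by
    simp
  rw [h1]
  have h2 : |z.im| ≤ 1 := le_trans (Complex.abs_im_le_norm z) hz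
  have h3 := abs_le.mp h2
  nlinarith

theorem ch_ph1_lip (L0 C0 CR D0 C2 C3 : ℝ) (hL0 : 1 ≤ L0) (hC0 : 1 ≤ C0) (hCR : 1 ≤ CR)
    (hD0 : 1 ≤ D0) (hC2 : 1 ≤ C2) (hC3 : 1 ≤ C3) (k Y : ℕ) (hY : 100 ≤ Y)
    (hYD : 1000 * D0 ≤ Y) (a be al : ℕ → ℤ) (La : ℝ) (hG : Good La (4 * L0) (4 * C0) k Y a)
    (hRpos : 0 < RR CR k Y a be (ii1 Y))
    (hRl : RR CR k Y a be (ii1 Y) ≤
      C3 * CR * (‖PP k Y a (cell (kap Y) (ii1 Y) : ℂ)‖ / cell (mm Y) (ii1 Y)))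
    (htau : ∀ (θ : ℝ) (z : ℂ), 0 ≤ θ → θ ≤ cell (mm Y) (ii1 Y) → ‖z‖ ≤ 1 →
      ‖tt CR k Y a be al ((θ : ℂ) + z / ((Y ^ 256 : ℕ) : ℂ))‖ ≤ C2 * RR CR k Y a be (ii1 Y))
    (x y : ℝ) (hx0 : cell (mm Y) (ii1 Y) - D0 / mm Y ≤ x) (hx1 : x ≤ cell (mm Y) (ii1 Y))
    (hy0 : cell (mm Y) (ii1 Y) - D0 / mm Y ≤ y) (hy1 : y ≤ cell (mm Y) (ii1 Y)) :
    ‖ph1 CR k Y a be al x - ph1 CR k Y a be al y‖ ≤
      (4 * (8 * L0) + 4) / (49 / 1000 / (4 * C0 * (1 + 17 * D0) * C3 * CR) / (Real.exp 2 * C2)) *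
        |x - y| / (1 / (Y : ℝ) ^ 256) := by
  obtain ⟨hm10, hm16, hm17, hi1, hi12, hc2u, hc2l, hc1l, hc1u, hk17, hk16, hi78, hper, hcell⟩ :=
    params Y hY
  have hYR : (100 : ℝ) ≤ Y := by exact_mod_cast hY
  have hYpos : (0 : ℝ) < Y := by linarith
  have hmpos : (0 : ℝ) < mm Y := by
    have : 0 < mm Y := by omega
    exact_mod_cast this
  have hLpos : (0 : ℝ) < (Y : ℝ) ^ 256 := by positivity
  have hkap : (0 : ℝ) < kap Y := by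
    have h1 : (0 : ℝ) < (Y : ℝ) ^ 64 := by positivity
    nlinarith
  have hm16R : 16 * (mm Y : ℝ) ≤ (Y : ℝ) ^ 256 := by exact_mod_cast hm16
  -- relation `b * D0 / m = D0 / kap`
  have hmk : (mm Y : ℝ) = (Y : ℝ) ^ 192 * kap Y := by
    unfold mm; push_cast; ring
  set c1 := cell (mm Y) (ii1 Y) with hc1def
  have hc1pos : 0 < c1 := by
    refine lt_of_lt_of_le ?_ hc1l
    positivity
  have hDm : D0 / mm Y ≤ c1 / 2 := by
    have h1 : D0 / mm Y ≤ 17 * D0 / (Y : ℝ) ^ 256 := by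
      rw [div_le_div_iff₀ hmpos hLpos]
      nlinarith
    have h2 : 17 * D0 / (Y : ℝ) ^ 256 ≤ 7 / (10 * (Y : ℝ) ^ 176) / 2 := by
      rw [div_div, div_le_div_iff₀ hLpos (by positivity)]
      have h3 : (Y : ℝ) ^ 256 = (Y : ℝ) ^ 176 * (Y : ℝ) ^ 80 := by ring
      have h4 : (Y : ℝ) ≤ (Y : ℝ) ^ 80 := by
        calc (Y : ℝ) = (Y : ℝ) ^ 1 := by ring
          _ ≤ (Y : ℝ) ^ 80 := pow_le_pow_right₀ (by linarith) (by norm_num)
      have h5 : (0 : ℝ) < (Y : ℝ) ^ 176 := by positivity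
      rw [h3]
      have h6 : 17 * D0 * (10 * 2) ≤ 7 * (Y : ℝ) ^ 80 := by nlinarith
      calc 17 * D0 * (10 * (Y : ℝ) ^ 176 * 2) = 17 * D0 * (10 * 2) * (Y : ℝ) ^ 176 := by ring
        _ ≤ 7 * (Y : ℝ) ^ 80 * (Y : ℝ) ^ 176 := by gcongr
        _ = 7 * ((Y : ℝ) ^ 176 * (Y : ℝ) ^ 80) := by ring
    linarith
  set R := RR CR k Y a be (ii1 Y) with hRdef
  set U : ℂ → ℂ := fun s =>
    Complex.exp (Complex.I * (((Y : ℝ) ^ 256 + 8 * (mm Y : ℝ) : ℝ) : ℂ) * s) *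
      tt CR k Y a be al s with hU
  set W : ℂ → ℂ := fun s =>
    Complex.exp (-(Complex.I * ((((k : ℝ) - 1) * (Y : ℝ) ^ 256 : ℝ) : ℂ) * s)) *
      GG k Y a s with hW
  have hUd : Differentiable ℂ U := by
    have h1 : Differentiable ℂ (tt CR k Y a be al) := by
      have := ch_tau_diff (mm Y) (ii1 Y) (ii2 Y) al (RR CR k Y a be)
      exact this
    rw [hU]
    fun_prop
  have hWd : Differentiable ℂ W := by
    have h1 : Differentiable ℂ (GG k Y a) := by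
      have h2 := ch_sv_diff (k * Y ^ 64) a
      have h3 := ch_sv_diff (Y ^ 192) (rs (Y ^ 192) (Y ^ 176))
      unfold GG PP QQ
      fun_prop
    rw [hW]
    fun_prop
  have hphi : ∀ θ : ℝ, ph1 CR k Y a be al θ = U (θ : ℂ) / W (θ : ℂ) := by
    intro θ
    simp only [ph1, hU, hW]
    rw [mul_div_mul_comm, mul_div_assoc]
    congr 1
    rw [← Complex.exp_sub]
    congr 1
    push_cast
    ring
  have hA : 0 < Real.exp 2 * C2 * R := by positivity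
  have hc : 0 < 49 / 1000 / (4 * C0 * (1 + 17 * D0) * C3 * CR) / (Real.exp 2 * C2) := by
    positivity
  have hcast : ((Y ^ 256 : ℕ) : ℂ) = (Y : ℂ) ^ 256 := by push_cast; rfl
  -- bounds valid on the interval
  have hpt : ∀ θ : ℝ, c1 - D0 / mm Y ≤ θ → θ ≤ c1 → 0 ≤ θ ∧ c1 / 2 ≤ θ ∧
      θ ≤ Real.pi / (Y : ℝ) ^ 176 := by
    intro θ h0 h1
    refine ⟨by linarith, by linarith, ?_⟩
    refine le_trans (le_trans h1 hc1u) ?_
    gcongr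
    linarith [Real.pi_gt_three]
  have hb1 : ∀ θ : ℝ, c1 - D0 / mm Y ≤ θ → θ ≤ c1 → ∀ z : ℂ, ‖z‖ ≤ 1 →
      ‖U ((θ : ℂ) + z * ((1 / (Y : ℝ) ^ 256 : ℝ) : ℂ))‖ ≤ Real.exp 2 * C2 * R := by
    intro θ h0 h1 z hz
    obtain ⟨hp0, -, -⟩ := hpt θ h0 h1
    have e1 : (θ : ℂ) + z * ((1 / (Y : ℝ) ^ 256 : ℝ) : ℂ) =
        (θ : ℂ) + z / ((Y ^ 256 : ℕ) : ℂ) := by
      push_cast; ring
    have h2 := htau θ z hp0 h1 hz
    rw [← e1] at h2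
    simp only [hU]
    rw [norm_mul]
    have h3 : ‖Complex.exp (Complex.I * (((Y : ℝ) ^ 256 + 8 * (mm Y : ℝ) : ℝ) : ℂ) *
        ((θ : ℂ) + z * ((1 / (Y : ℝ) ^ 256 : ℝ) : ℂ)))‖ ≤ Real.exp 2 := by
      have e2 : Complex.I * (((Y : ℝ) ^ 256 + 8 * (mm Y : ℝ) : ℝ) : ℂ) *
          ((θ : ℂ) + z * ((1 / (Y : ℝ) ^ 256 : ℝ) : ℂ)) =
          Complex.I * ((((Y : ℝ) ^ 256 + 8 * (mm Y : ℝ)) * θ : ℝ) : ℂ) +
          Complex.I * ((((Y : ℝ) ^ 256 + 8 * (mm Y : ℝ)) * (1 / (Y : ℝ) ^ 256) : ℝ) : ℂ) * z := by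
        push_cast; ring
      rw [e2, Complex.exp_add, norm_mul, ch_norm_exp_real, one_mul]
      refine le_trans (ch_norm_exp_le _ (by positivity) z hz) ?_
      apply Real.exp_le_exp.mpr
      rw [mul_one_div, div_le_iff₀ hLpos]
      linarith
    calc _ ≤ Real.exp 2 * (C2 * R) := by gcongr
      _ = Real.exp 2 * C2 * R := by ring
  -- the reduced angle
  have hred : ∀ θ : ℝ, c1 - D0 / mm Y ≤ θ → θ ≤ c1 →
      |((Y : ℝ) ^ 192 * θ - 2 * Real.pi * ((Y ^ 16 / 8 : ℕ) : ℝ)) - Real.pi| ≤ 1 ∧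
      |(Y : ℝ) ^ 192 * θ - cell (kap Y) (ii1 Y)| ≤ D0 / kap Y := by
    intro θ h0 h1
    have e1 := hper (ii1 Y)
    have h2 : (Y : ℝ) ^ 192 * (D0 / mm Y) = D0 / kap Y := by
      rw [hmk]; field_simp
    have h3 : (Y : ℝ) ^ 192 * θ ≤ cell (kap Y) (ii1 Y) := by
      rw [← e1]; gcongr
    have h4 : cell (kap Y) (ii1 Y) - D0 / kap Y ≤ (Y : ℝ) ^ 192 * θ := by
      rw [← e1, ← h2]
      have : (Y : ℝ) ^ 192 * (c1 - D0 / mm Y) ≤ (Y : ℝ) ^ 192 * θ := by gcongr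
      linarith
    have h5 : D0 / kap Y ≤ 1 / 2 := by
      rw [div_le_iff₀ hkap]
      have h6 : (Y : ℝ) ≤ (Y : ℝ) ^ 64 := by
        calc (Y : ℝ) = (Y : ℝ) ^ 1 := by ring
          _ ≤ (Y : ℝ) ^ 64 := pow_le_pow_right₀ (by linarith) (by norm_num)
      nlinarith
    have h7 := abs_le.mp hcell
    constructor
    · rw [abs_le]; constructor <;> linarith
    · rw [abs_le]; constructor <;> linarith
  have hPper : ∀ s : ℂ, PP k Y a (s + ((2 * Real.pi * ((Y ^ 16 / 8 : ℕ) : ℝ) : ℝ) : ℂ)) =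
      PP k Y a s := by
    intro s
    have h : Function.Periodic (sv (k * Y ^ 64) a) (2 * (Real.pi : ℂ)) :=
      fun s => sv_periodic _ a s
    have h1 := h.nat_mul (Y ^ 16 / 8) s
    unfold PP
    rw [← h1]
    congr 1
    push_cast
    ring
  have hb2 : ∀ θ : ℝ, c1 - D0 / mm Y ≤ θ → θ ≤ c1 → ∀ z : ℂ, ‖z‖ ≤ 1 →
      ‖W ((θ : ℂ) + z * ((1 / (Y : ℝ) ^ 256 : ℝ) : ℂ))‖ ≤ (8 * L0) * ‖W (θ : ℂ)‖ := by
    intro θ h0 h1 z hz
    obtain ⟨hp0, hp1, hp2⟩ := hpt θ h0 h1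
    obtain ⟨hr1, hr2⟩ := hred θ h0 h1
    set t : ℝ := (Y : ℝ) ^ 192 * θ - 2 * Real.pi * ((Y ^ 16 / 8 : ℕ) : ℝ) with ht
    have hn := hG.nice t hr1 z hz
    have hq := rq_rel Y hY θ hp0 hp2 z hz
    have eY : (Y : ℂ) ≠ 0 := by
      have : Y ≠ 0 := by omega
      exact_mod_cast this
    have e1 : PP k Y a ((Y : ℂ) ^ 192 * ((θ : ℂ) + z * ((1 / (Y : ℝ) ^ 256 : ℝ) : ℂ))) =
        sv (k * Y ^ 64) a ((t : ℂ) + z / ((Y : ℂ) ^ 64)) := by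
      have e2 : (Y : ℂ) ^ 192 * ((θ : ℂ) + z * ((1 / (Y : ℝ) ^ 256 : ℝ) : ℂ)) =
          ((t : ℂ) + z / ((Y : ℂ) ^ 64)) +
            ((2 * Real.pi * ((Y ^ 16 / 8 : ℕ) : ℝ) : ℝ) : ℂ) := by
        rw [ht]
        push_cast
        field_simp
        ring
      rw [e2, hPper]; rfl
    have e3 : PP k Y a ((Y : ℂ) ^ 192 * (θ : ℂ)) = sv (k * Y ^ 64) a (t : ℂ) := by
      have e2 : (Y : ℂ) ^ 192 * (θ : ℂ) =
          (t : ℂ) + ((2 * Real.pi * ((Y ^ 16 / 8 : ℕ) : ℝ) : ℝ) : ℂ) := by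
        rw [ht]
        push_cast
        ring
      rw [e2, hPper]; rfl
    have e4 : QQ Y ((θ : ℂ) + z * ((1 / (Y : ℝ) ^ 256 : ℝ) : ℂ)) =
        sv (Y ^ 192) (rs (Y ^ 192) (Y ^ 176)) ((θ : ℂ) + z / ((Y : ℂ) ^ 256)) := by
      unfold QQ
      congr 1
      push_cast
      ring
    have hWz : ‖W ((θ : ℂ) + z * ((1 / (Y : ℝ) ^ 256 : ℝ) : ℂ))‖ =
        ‖Complex.exp (-(Complex.I * ((k : ℂ) - 1) * z)) *
          sv (k * Y ^ 64) a ((t : ℂ) + z / ((Y : ℂ) ^ 64))‖ *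
        ‖sv (Y ^ 192) (rs (Y ^ 192) (Y ^ 176)) ((θ : ℂ) + z / ((Y : ℂ) ^ 256))‖ := by
      simp only [hW, GG]
      rw [e1, e4, ← mul_assoc, norm_mul, norm_mul, norm_mul]
      congr 2
      have e5 : -(Complex.I * ((((k : ℝ) - 1) * (Y : ℝ) ^ 256 : ℝ) : ℂ) *
          ((θ : ℂ) + z * ((1 / (Y : ℝ) ^ 256 : ℝ) : ℂ))) =
          Complex.I * ((-(((k : ℝ) - 1) * (Y : ℝ) ^ 256 * θ) : ℝ) : ℂ) +
          (-(Complex.I * ((k : ℂ) - 1) * z)) := by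
        push_cast
        field_simp
        ring
      rw [e5, Complex.exp_add, norm_mul, ch_norm_exp_real, one_mul]
    have hW0 : ‖W (θ : ℂ)‖ = ‖sv (k * Y ^ 64) a (t : ℂ)‖ *
        ‖sv (Y ^ 192) (rs (Y ^ 192) (Y ^ 176)) (θ : ℂ)‖ := by
      simp only [hW, GG]
      rw [e3, norm_mul, norm_mul]
      have e5 : -(Complex.I * ((((k : ℝ) - 1) * (Y : ℝ) ^ 256 : ℝ) : ℂ) * (θ : ℂ)) =
          Complex.I * ((-(((k : ℝ) - 1) * (Y : ℝ) ^ 256 * θ) : ℝ) : ℂ) := by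
        push_cast
        ring
      rw [e5, ch_norm_exp_real, one_mul]
      rfl
    rw [hWz, hW0]
    have h8 : 1 + 1 / (Y : ℝ) ^ 8 ≤ 2 := by
      have : 1 / (Y : ℝ) ^ 8 ≤ 1 := by
        rw [div_le_one (by positivity)]
        exact one_le_pow₀ (by linarith)
      linarith
    calc _ ≤ (4 * L0 * ‖sv (k * Y ^ 64) a (t : ℂ)‖) *
          ((1 + 1 / (Y : ℝ) ^ 8) * ‖sv (Y ^ 192) (rs (Y ^ 192) (Y ^ 176)) (θ : ℂ)‖) := by
          gcongr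
      _ ≤ (4 * L0 * ‖sv (k * Y ^ 64) a (t : ℂ)‖) *
          (2 * ‖sv (Y ^ 192) (rs (Y ^ 192) (Y ^ 176)) (θ : ℂ)‖) := by
          gcongr
      _ = _ := by ring
  have hb3 : ∀ θ : ℝ, c1 - D0 / mm Y ≤ θ → θ ≤ c1 →
      49 / 1000 / (4 * C0 * (1 + 17 * D0) * C3 * CR) / (Real.exp 2 * C2) *
        (Real.exp 2 * C2 * R) ≤ ‖W (θ : ℂ)‖ := by
    intro θ h0 h1
    obtain ⟨hp0, hp1, hp2⟩ := hpt θ h0 h1
    obtain ⟨hr1, hr2⟩ := hred θ h0 h1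
    obtain ⟨hr3, -⟩ := hred c1 (by
      have : 0 ≤ D0 / mm Y := by positivity
      linarith) le_rfl
    set t : ℝ := (Y : ℝ) ^ 192 * θ - 2 * Real.pi * ((Y ^ 16 / 8 : ℕ) : ℝ) with ht
    set t1 : ℝ := (Y : ℝ) ^ 192 * c1 - 2 * Real.pi * ((Y ^ 16 / 8 : ℕ) : ℝ) with ht1
    have hp := hG.poly t t1 hr1 hr3
    have hq := rq_low Y hY θ hp0 hp2
    have e3 : PP k Y a ((Y : ℂ) ^ 192 * (θ : ℂ)) = sv (k * Y ^ 64) a (t : ℂ) := by
      have e2 : (Y : ℂ) ^ 192 * (θ : ℂ) =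
          (t : ℂ) + ((2 * Real.pi * ((Y ^ 16 / 8 : ℕ) : ℝ) : ℝ) : ℂ) := by
        rw [ht]
        push_cast
        ring
      rw [e2, hPper]; rfl
    have e4 : PP k Y a (cell (kap Y) (ii1 Y) : ℂ) = sv (k * Y ^ 64) a (t1 : ℂ) := by
      have e2 : (cell (kap Y) (ii1 Y) : ℂ) =
          (t1 : ℂ) + ((2 * Real.pi * ((Y ^ 16 / 8 : ℕ) : ℝ) : ℝ) : ℂ) := by
        rw [ht1, ← hper (ii1 Y)]
        push_cast
        ring
      rw [e2, hPper]; rfl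
    have hW0 : ‖W (θ : ℂ)‖ = ‖sv (k * Y ^ 64) a (t : ℂ)‖ *
        ‖sv (Y ^ 192) (rs (Y ^ 192) (Y ^ 176)) (θ : ℂ)‖ := by
      simp only [hW, GG]
      rw [e3, norm_mul, norm_mul]
      have e5 : -(Complex.I * ((((k : ℝ) - 1) * (Y : ℝ) ^ 256 : ℝ) : ℂ) * (θ : ℂ)) =
          Complex.I * ((-(((k : ℝ) - 1) * (Y : ℝ) ^ 256 * θ) : ℝ) : ℂ) := by
        push_cast
        ring
      rw [e5, ch_norm_exp_real, one_mul]
      rfl
    -- distance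
    have hd : (Y : ℝ) ^ 64 * |t - t1| ≤ 17 * D0 := by
      have h2 : |t - t1| ≤ D0 / kap Y := by
        have : t - t1 = (Y : ℝ) ^ 192 * θ - cell (kap Y) (ii1 Y) := by
          rw [ht, ht1, ← hper (ii1 Y)]; ring
        rw [this]; exact hr2
      calc (Y : ℝ) ^ 64 * |t - t1| ≤ (17 * kap Y) * (D0 / kap Y) := by gcongr
        _ = 17 * D0 := by field_simp
    have hP1 : ‖PP k Y a (cell (kap Y) (ii1 Y) : ℂ)‖ ≤
        4 * C0 * (1 + 17 * D0) * ‖sv (k * Y ^ 64) a (t : ℂ)‖ := by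
      rw [e4]
      refine le_trans hp ?_
      gcongr
    have hY352 : 49 / 100 / c1 ^ 2 ≤ (Y : ℝ) ^ 352 := by
      rw [div_le_iff₀ (by positivity)]
      have h2 : (7 / (10 * (Y : ℝ) ^ 176)) ^ 2 ≤ c1 ^ 2 := by gcongr
      have h3 : (Y : ℝ) ^ 352 * (7 / (10 * (Y : ℝ) ^ 176)) ^ 2 = 49 / 100 := by
        field_simp
        norm_num
      calc (49 : ℝ) / 100 = (Y : ℝ) ^ 352 * (7 / (10 * (Y : ℝ) ^ 176)) ^ 2 := h3.symm
        _ ≤ (Y : ℝ) ^ 352 * c1 ^ 2 := by gcongr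
    have hq2 : 49 / 1000 / c1 ≤ ‖sv (Y ^ 192) (rs (Y ^ 192) (Y ^ 176)) (θ : ℂ)‖ := by
      refine le_trans ?_ hq
      calc 49 / 1000 / c1 = (49 / 100 / c1 ^ 2) * (c1 / 2) / 5 := by field_simp; norm_num
        _ ≤ (Y : ℝ) ^ 352 * θ / 5 := by gcongr
    rw [hW0]
    have e6 : 49 / 1000 / (4 * C0 * (1 + 17 * D0) * C3 * CR) / (Real.exp 2 * C2) *
        (Real.exp 2 * C2 * R) = 49 / 1000 / (4 * C0 * (1 + 17 * D0) * C3 * CR) * R := by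
      field_simp
    rw [e6]
    have hR1 : R ≤ C3 * CR * (4 * C0 * (1 + 17 * D0) * ‖sv (k * Y ^ 64) a (t : ℂ)‖ / c1) := by
      refine le_trans hRl ?_
      gcongr
    calc 49 / 1000 / (4 * C0 * (1 + 17 * D0) * C3 * CR) * R
        ≤ 49 / 1000 / (4 * C0 * (1 + 17 * D0) * C3 * CR) *
          (C3 * CR * (4 * C0 * (1 + 17 * D0) * ‖sv (k * Y ^ 64) a (t : ℂ)‖ / c1)) := by gcongr
      _ = ‖sv (k * Y ^ 64) a (t : ℂ)‖ * (49 / 1000 / c1) := by field_simp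
      _ ≤ _ := by gcongr
  have hfin := quot_lip U W hUd hWd (1 / (Y : ℝ) ^ 256) (Real.exp 2 * C2 * R) (8 * L0)
    (49 / 1000 / (4 * C0 * (1 + 17 * D0) * C3 * CR) / (Real.exp 2 * C2))
    (c1 - D0 / mm Y) c1 (by positivity) hA hc (by linarith) hb1 hb2 hb3 x y hx0 hx1 hy0 hy1
  rw [hphi x, hphi y]
  exact hfin

theorem ch_ph2_lip (L0 C0 CR D0 C2 C3 : ℝ) (hL0 : 1 ≤ L0) (hC0 : 1 ≤ C0) (hCR : 1 ≤ CR)
    (hD0 : 1 ≤ D0) (hC2 : 1 ≤ C2) (hC3 : 1 ≤ C3) (k Y : ℕ) (hY : 100 ≤ Y)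
    (hYD : 1000 * D0 ≤ Y) (a be al : ℕ → ℤ) (hB : FlatB L0 C0 (Y ^ 256) be)
    (hRpos : 0 < RR CR k Y a be (ii2 Y))
    (hRr : RR CR k Y a be (ii2 Y) ≤ C3 * CR * ‖BB Y be (cell (mm Y) (ii2 Y) : ℂ)‖)
    (htau : ∀ (θ : ℝ) (z : ℂ), cell (mm Y) (ii2 Y) ≤ θ → θ ≤ Real.pi → ‖z‖ ≤ 1 →
      ‖tt CR k Y a be al ((θ : ℂ) + z / ((Y ^ 256 : ℕ) : ℂ))‖ ≤ C2 * RR CR k Y a be (ii2 Y))
    (x y : ℝ) (hx0 : cell (mm Y) (ii2 Y) ≤ x) (hx1 : x ≤ cell (mm Y) (ii2 Y) + D0 / mm Y)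
    (hy0 : cell (mm Y) (ii2 Y) ≤ y) (hy1 : y ≤ cell (mm Y) (ii2 Y) + D0 / mm Y) :
    ‖ph2 CR k Y a be al x - ph2 CR k Y a be al y‖ ≤
      (4 * L0 + 4) / (1 / 2 / (C0 * (1 + 17 * D0) * C3 * CR) / (Real.exp 1 * C2)) *
        |x - y| / (1 / (Y : ℝ) ^ 256) := by
  obtain ⟨hm10, hm16, hm17, hi1, hi12, hc2u, hc2l, hc1l, hc1u, hk17, hk16, hi78, hper, hcell⟩ :=
    params Y hY
  have hYR : (100 : ℝ) ≤ Y := by exact_mod_cast hY
  have hYpos : (0 : ℝ) < Y := by linarith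
  have hmpos : (0 : ℝ) < mm Y := by
    have : 0 < mm Y := by omega
    exact_mod_cast this
  have hLpos : (0 : ℝ) < (Y : ℝ) ^ 256 := by positivity
  have hm16R : 16 * (mm Y : ℝ) ≤ (Y : ℝ) ^ 256 := by exact_mod_cast hm16
  set c2 := cell (mm Y) (ii2 Y) with hc2def
  have hDm : D0 / mm Y ≤ 17 * D0 / (Y : ℝ) ^ 256 := by
    rw [div_le_div_iff₀ hmpos hLpos]
    nlinarith
  have hDm1 : D0 / mm Y ≤ 1 := by
    refine le_trans hDm ?_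
    rw [div_le_one hLpos]
    have h4 : (Y : ℝ) ≤ (Y : ℝ) ^ 256 := by
      calc (Y : ℝ) = (Y : ℝ) ^ 1 := by ring
        _ ≤ (Y : ℝ) ^ 256 := pow_le_pow_right₀ (by linarith) (by norm_num)
    linarith
  have hc2one : c2 ≤ 1 := by
    refine le_trans hc2u ?_
    rw [div_le_one (by positivity)]
    have h4 : (Y : ℝ) ≤ (Y : ℝ) ^ 60 := by
      calc (Y : ℝ) = (Y : ℝ) ^ 1 := by ring
        _ ≤ (Y : ℝ) ^ 60 := pow_le_pow_right₀ (by linarith) (by norm_num)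
    linarith
  set R := RR CR k Y a be (ii2 Y) with hRdef
  have hh1 : hh Y ≤ 1 / 2 := by
    unfold hh
    rw [div_le_div_iff₀ (by positivity) (by norm_num)]
    have h4 : (Y : ℝ) ≤ (Y : ℝ) ^ 6 := by
      calc (Y : ℝ) = (Y : ℝ) ^ 1 := by ring
        _ ≤ (Y : ℝ) ^ 6 := pow_le_pow_right₀ (by linarith) (by norm_num)
    linarith
  have hh0 : 0 ≤ hh Y := by unfold hh; positivity
  set U : ℂ → ℂ := fun s =>
    Complex.exp (Complex.I * ((8 * (mm Y : ℝ) : ℝ) : ℂ) * s) *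
      tt CR k Y a be al s with hU
  set W : ℂ → ℂ := fun s => ((1 - hh Y : ℝ) : ℂ) * BB Y be s with hW
  have hUd : Differentiable ℂ U := by
    have h1 : Differentiable ℂ (tt CR k Y a be al) := by
      have := ch_tau_diff (mm Y) (ii1 Y) (ii2 Y) al (RR CR k Y a be)
      exact this
    rw [hU]
    fun_prop
  have hWd : Differentiable ℂ W := by
    have h1 : Differentiable ℂ (BB Y be) := ch_sv_diff (Y ^ 256) be
    rw [hW]
    fun_prop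
  have hphi : ∀ θ : ℝ, ph2 CR k Y a be al θ = U (θ : ℂ) / W (θ : ℂ) := by
    intro θ
    simp only [ph2, hU, hW]
    push_cast
    rfl
  have hA : 0 < Real.exp 1 * C2 * R := by positivity
  have hc : 0 < 1 / 2 / (C0 * (1 + 17 * D0) * C3 * CR) / (Real.exp 1 * C2) := by
    positivity
  have hb1 : ∀ θ : ℝ, c2 ≤ θ → θ ≤ c2 + D0 / mm Y → ∀ z : ℂ, ‖z‖ ≤ 1 →
      ‖U ((θ : ℂ) + z * ((1 / (Y : ℝ) ^ 256 : ℝ) : ℂ))‖ ≤ Real.exp 1 * C2 * R := by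
    intro θ h0 h1 z hz
    have e1 : (θ : ℂ) + z * ((1 / (Y : ℝ) ^ 256 : ℝ) : ℂ) =
        (θ : ℂ) + z / ((Y ^ 256 : ℕ) : ℂ) := by
      push_cast; ring
    have h2 := htau θ z h0 (by linarith [Real.pi_gt_three]) hz
    rw [← e1] at h2
    simp only [hU]
    rw [norm_mul]
    have h3 : ‖Complex.exp (Complex.I * ((8 * (mm Y : ℝ) : ℝ) : ℂ) *
        ((θ : ℂ) + z * ((1 / (Y : ℝ) ^ 256 : ℝ) : ℂ)))‖ ≤ Real.exp 1 := by
      have e2 : Complex.I * ((8 * (mm Y : ℝ) : ℝ) : ℂ) *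
          ((θ : ℂ) + z * ((1 / (Y : ℝ) ^ 256 : ℝ) : ℂ)) =
          Complex.I * (((8 * (mm Y : ℝ)) * θ : ℝ) : ℂ) +
          Complex.I * (((8 * (mm Y : ℝ)) * (1 / (Y : ℝ) ^ 256) : ℝ) : ℂ) * z := by
        push_cast; ring
      rw [e2, Complex.exp_add, norm_mul, ch_norm_exp_real, one_mul]
      refine le_trans (ch_norm_exp_le _ (by positivity) z hz) ?_
      apply Real.exp_le_exp.mpr
      rw [mul_one_div, div_le_iff₀ hLpos]
      linarith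
    calc _ ≤ Real.exp 1 * (C2 * R) := by gcongr
      _ = Real.exp 1 * C2 * R := by ring
  have hb2 : ∀ θ : ℝ, c2 ≤ θ → θ ≤ c2 + D0 / mm Y → ∀ z : ℂ, ‖z‖ ≤ 1 →
      ‖W ((θ : ℂ) + z * ((1 / (Y : ℝ) ^ 256 : ℝ) : ℂ))‖ ≤ L0 * ‖W (θ : ℂ)‖ := by
    intro θ h0 h1 z hz
    have h2 := hB.reg θ z hz
    have e1 : (θ : ℂ) + z * ((1 / (Y : ℝ) ^ 256 : ℝ) : ℂ) =
        (θ : ℂ) + z / ((Y ^ 256 : ℕ) : ℂ) := by
      push_cast; ring
    simp only [hW]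
    rw [norm_mul, norm_mul, e1]
    calc _ ≤ ‖((1 - hh Y : ℝ) : ℂ)‖ * (L0 * ‖sv (Y ^ 256) be (θ : ℂ)‖) := by
          gcongr
          exact h2
      _ = _ := by simp only [BB]; ring
  have hb3 : ∀ θ : ℝ, c2 ≤ θ → θ ≤ c2 + D0 / mm Y →
      1 / 2 / (C0 * (1 + 17 * D0) * C3 * CR) / (Real.exp 1 * C2) *
        (Real.exp 1 * C2 * R) ≤ ‖W (θ : ℂ)‖ := by
    intro θ h0 h1
    have hp := hB.poly θ c2
    have hd : ((Y ^ 256 : ℕ) : ℝ) * |θ - c2| ≤ 17 * D0 := by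
      have h2 : |θ - c2| ≤ D0 / mm Y := by
        rw [abs_le]; constructor
        · have : 0 ≤ D0 / mm Y := by positivity
          linarith
        · linarith
      push_cast
      calc (Y : ℝ) ^ 256 * |θ - c2| ≤ (17 * mm Y) * (D0 / mm Y) := by gcongr
        _ = 17 * D0 := by field_simp
    have hP1 : ‖BB Y be (c2 : ℂ)‖ ≤ C0 * (1 + 17 * D0) * ‖BB Y be (θ : ℂ)‖ := by
      refine le_trans hp ?_
      unfold BB
      gcongr
    have hW0 : 1 / 2 * ‖BB Y be (θ : ℂ)‖ ≤ ‖W (θ : ℂ)‖ := by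
      simp only [hW]
      rw [norm_mul, Complex.norm_real, Real.norm_eq_abs, abs_of_nonneg (by linarith)]
      gcongr
      linarith
    refine le_trans ?_ hW0
    have e6 : 1 / 2 / (C0 * (1 + 17 * D0) * C3 * CR) / (Real.exp 1 * C2) *
        (Real.exp 1 * C2 * R) = 1 / 2 / (C0 * (1 + 17 * D0) * C3 * CR) * R := by
      field_simp
    rw [e6]
    have hR1 : R ≤ C3 * CR * (C0 * (1 + 17 * D0) * ‖BB Y be (θ : ℂ)‖) := by
      refine le_trans hRr ?_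
      gcongr
    calc 1 / 2 / (C0 * (1 + 17 * D0) * C3 * CR) * R
        ≤ 1 / 2 / (C0 * (1 + 17 * D0) * C3 * CR) *
          (C3 * CR * (C0 * (1 + 17 * D0) * ‖BB Y be (θ : ℂ)‖)) := by gcongr
      _ = 1 / 2 * ‖BB Y be (θ : ℂ)‖ := by field_simp
  have hfin := quot_lip U W hUd hWd (1 / (Y : ℝ) ^ 256) (Real.exp 1 * C2 * R) L0
    (1 / 2 / (C0 * (1 + 17 * D0) * C3 * CR) / (Real.exp 1 * C2))
    c2 (c2 + D0 / mm Y) (by positivity) hA hc hL0 hb1 hb2 hb3 x y hx0 hx1 hy0 hy1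
  rw [hphi x, hphi y]
  exact hfin

theorem ch_num1 (Cs : ℝ) (hCs : 1 ≤ Cs) (Y : ℕ) (hY : 100 ≤ Y)
    (h : 36864 * Cs ^ 2 * Real.log Y ≤ Y) :
    Cs * (Real.sqrt (1 / (Y : ℝ) ^ 13 * Real.log ((Y ^ 256 : ℕ) : ℝ)) +
      1 / (Y : ℝ) ^ 13 * Real.log ((Y ^ 256 : ℕ) : ℝ)) ≤ 1 / (6 * (Y : ℝ) ^ 6) := by
  have hYR : (100 : ℝ) ≤ Y := by exact_mod_cast hY
  have hYpos : (0 : ℝ) < Y := by linarith
  have hl0 : 0 ≤ Real.log Y := Real.log_nonneg (by linarith)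
  have e1 : Real.log ((Y ^ 256 : ℕ) : ℝ) = 256 * Real.log Y := by
    push_cast; rw [Real.log_pow]; norm_num
  rw [e1]
  have h1 : Real.sqrt (1 / (Y : ℝ) ^ 13 * (256 * Real.log Y)) ≤ 1 / (12 * Cs * (Y : ℝ) ^ 6) := by
    rw [Real.sqrt_le_iff]
    refine ⟨by positivity, ?_⟩
    rw [one_div_mul_eq_div, div_pow, div_le_div_iff₀ (by positivity) (by positivity)]
    calc 256 * Real.log Y * (12 * Cs * (Y : ℝ) ^ 6) ^ 2
        = (36864 * Cs ^ 2 * Real.log Y) * (Y : ℝ) ^ 12 := by ring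
      _ ≤ (Y : ℝ) * (Y : ℝ) ^ 12 := by gcongr
      _ = 1 ^ 2 * (Y : ℝ) ^ 13 := by ring
  have h2 : 1 / (Y : ℝ) ^ 13 * (256 * Real.log Y) ≤ 1 / (12 * Cs * (Y : ℝ) ^ 6) := by
    rw [one_div_mul_eq_div, div_le_div_iff₀ (by positivity) (by positivity)]
    have h3 : 256 * Real.log Y * (12 * Cs) ≤ Y := by
      have : 256 * Real.log Y * (12 * Cs) ≤ 36864 * Cs ^ 2 * Real.log Y := by
        nlinarith [mul_nonneg hl0 (by linarith : (0:ℝ) ≤ Cs), mul_nonneg (mul_nonneg hl0 (by linarith : (0:ℝ) ≤ Cs)) (by linarith : (0:ℝ) ≤ Cs - 1)]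
      linarith
    have h4 : (Y : ℝ) * (Y : ℝ) ^ 6 ≤ (Y : ℝ) ^ 13 := by
      calc (Y : ℝ) * (Y : ℝ) ^ 6 = (Y : ℝ) ^ 7 := by ring
        _ ≤ (Y : ℝ) ^ 13 := pow_le_pow_right₀ (by linarith) (by norm_num)
    calc 256 * Real.log Y * (12 * Cs * (Y : ℝ) ^ 6)
        = (256 * Real.log Y * (12 * Cs)) * (Y : ℝ) ^ 6 := by ring
      _ ≤ (Y : ℝ) * (Y : ℝ) ^ 6 := by gcongr
      _ ≤ 1 * (Y : ℝ) ^ 13 := by linarith
  calc _ ≤ Cs * (1 / (12 * Cs * (Y : ℝ) ^ 6) + 1 / (12 * Cs * (Y : ℝ) ^ 6)) := by gcongr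
    _ = 1 / (6 * (Y : ℝ) ^ 6) := by field_simp; norm_num

theorem ch_num2 (Cr : ℝ) (hCr : 1 ≤ Cr) (Y : ℕ) (hY : 100 ≤ Y)
    (h : 4096 * Cr ^ 2 * Real.log Y ≤ Y) :
    Cr * (Real.sqrt (4 * (Y : ℝ) ^ 250 * Real.log ((Y ^ 256 : ℕ) : ℝ)) +
      Real.log ((Y ^ 256 : ℕ) : ℝ)) ≤ (Y : ℝ) ^ 126 := by
  have hYR : (100 : ℝ) ≤ Y := by exact_mod_cast hY
  have hYpos : (0 : ℝ) < Y := by linarith
  have hl0 : 0 ≤ Real.log Y := Real.log_nonneg (by linarith)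
  have e1 : Real.log ((Y ^ 256 : ℕ) : ℝ) = 256 * Real.log Y := by
    push_cast; rw [Real.log_pow]; norm_num
  rw [e1]
  have h1 : Real.sqrt (4 * (Y : ℝ) ^ 250 * (256 * Real.log Y)) ≤ (Y : ℝ) ^ 126 / (2 * Cr) := by
    rw [Real.sqrt_le_iff]
    refine ⟨by positivity, ?_⟩
    rw [div_pow, le_div_iff₀ (by positivity)]
    calc 4 * (Y : ℝ) ^ 250 * (256 * Real.log Y) * (2 * Cr) ^ 2
        = (4096 * Cr ^ 2 * Real.log Y) * (Y : ℝ) ^ 250 := by ring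
      _ ≤ (Y : ℝ) * (Y : ℝ) ^ 250 := by gcongr
      _ = (Y : ℝ) ^ 251 := by ring
      _ ≤ (Y : ℝ) ^ 252 := pow_le_pow_right₀ (by linarith) (by norm_num)
      _ = ((Y : ℝ) ^ 126) ^ 2 := by ring
  have h2 : 256 * Real.log Y ≤ (Y : ℝ) ^ 126 / (2 * Cr) := by
    rw [le_div_iff₀ (by positivity)]
    have h3 : 256 * Real.log Y * (2 * Cr) ≤ Y := by
      have : 256 * Real.log Y * (2 * Cr) ≤ 4096 * Cr ^ 2 * Real.log Y := by
        nlinarith [mul_nonneg hl0 (by linarith : (0:ℝ) ≤ Cr), mul_nonneg (mul_nonneg hl0 (by linarith : (0:ℝ) ≤ Cr)) (by linarith : (0:ℝ) ≤ Cr - 1)]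
      linarith
    refine le_trans h3 ?_
    calc (Y : ℝ) = (Y : ℝ) ^ 1 := by ring
      _ ≤ (Y : ℝ) ^ 126 := pow_le_pow_right₀ (by linarith) (by norm_num)
  calc _ ≤ Cr * ((Y : ℝ) ^ 126 / (2 * Cr) + (Y : ℝ) ^ 126 / (2 * Cr)) := by gcongr
    _ = (Y : ℝ) ^ 126 := by field_simp; norm_num

/-- the rounding step -/
theorem ch_round (Cr : ℝ) (hCr : 1 ≤ Cr)
    (hround : ∀ n : ℕ, 2 ≤ n → ∀ x : ℕ → ℝ, (∀ j, |x j| ≤ 1) →
    ∀ V : ℝ, ∑ j ∈ range n, (1 - x j ^ 2) ≤ V →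
    ∃ e : ℕ → ℤ, IsSign e ∧ (∀ j, x j = 1 → e j = 1) ∧ (∀ j, x j = -1 → e j = -1) ∧
      ∀ s : ℂ, |s.im| ≤ 1 / (n : ℝ) →
        ‖sv n e s - rv n x s‖ ≤ Cr * (Real.sqrt (V * Real.log n) + Real.log n))
    (Y : ℕ) (hY : 100 ≤ Y) (hlog : 4096 * Cr ^ 2 * Real.log Y ≤ Y) (be : ℕ → ℤ)
    (hbe : IsSign be) (x : ℕ → ℝ) (hx : ∀ j, |x j| ≤ hh Y) :
    ∃ e : ℕ → ℤ, IsSign e ∧ ∀ s : ℂ, |s.im| ≤ 1 / (Y : ℝ) ^ 256 →
      ‖AA Y e s - (((1 - hh Y : ℝ) : ℂ) * BB Y be s + rv (Y ^ 256) x s)‖ ≤ (Y : ℝ) ^ 126 := by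
  have hYR : (100 : ℝ) ≤ Y := by exact_mod_cast hY
  have hYpos : (0 : ℝ) < Y := by linarith
  have hh0 : 0 ≤ hh Y := by unfold hh; positivity
  have hh1 : hh Y ≤ 1 / 2 := by
    unfold hh
    rw [div_le_div_iff₀ (by positivity) (by norm_num)]
    have h4 : (Y : ℝ) ≤ (Y : ℝ) ^ 6 := by
      calc (Y : ℝ) = (Y : ℝ) ^ 1 := by ring
        _ ≤ (Y : ℝ) ^ 6 := pow_le_pow_right₀ (by linarith) (by norm_num)
    linarith
  set w : ℕ → ℝ := fun j => (1 - hh Y) * (be j : ℝ) + x j with hw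
  have hw1 : ∀ j, |w j| ≤ 1 ∧ 1 - w j ^ 2 ≤ 4 * hh Y := by
    intro j
    have hxj := abs_le.mp (hx j)
    simp only [hw]
    rcases hbe j with h | h
    · rw [h]; push_cast
      constructor
      · rw [abs_le]; constructor <;> linarith
      · nlinarith
    · rw [h]; push_cast
      constructor
      · rw [abs_le]; constructor <;> linarith
      · nlinarith
  have hV : ∑ j ∈ range (Y ^ 256), (1 - w j ^ 2) ≤ 4 * (Y : ℝ) ^ 250 := by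
    calc ∑ j ∈ range (Y ^ 256), (1 - w j ^ 2) ≤ ∑ j ∈ range (Y ^ 256), 4 * hh Y :=
          Finset.sum_le_sum (fun j _ => (hw1 j).2)
      _ = (Y : ℝ) ^ 256 * (4 * hh Y) := by
          rw [Finset.sum_const, card_range, nsmul_eq_mul]; push_cast; ring
      _ = 4 * (Y : ℝ) ^ 250 := by
          unfold hh; field_simp
  have hn2 : 2 ≤ Y ^ 256 := by
    calc 2 ≤ Y := by omega
      _ = Y ^ 1 := by ring
      _ ≤ Y ^ 256 := Nat.pow_le_pow_right (by omega) (by norm_num)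
  obtain ⟨e, he, -, -, herr⟩ := hround (Y ^ 256) hn2 w (fun j => (hw1 j).1) _ hV
  refine ⟨e, he, fun s hs => ?_⟩
  have h1 := herr s (by push_cast; exact hs)
  have e1 : rv (Y ^ 256) w s = ((1 - hh Y : ℝ) : ℂ) * BB Y be s + rv (Y ^ 256) x s := by
    unfold BB sv rv
    rw [Finset.mul_sum, ← Finset.sum_add_distrib]
    refine Finset.sum_congr rfl (fun j _ => ?_)
    simp only [hw]
    push_cast
    ring
  rw [← e1]
  exact le_trans h1 (ch_num2 Cr hCr Y hY hlog)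

theorem choice (L0 C0 : ℝ) (hL0 : 1 ≤ L0) (hC0 : 1 ≤ C0) (CR D0 : ℝ) (hCR : 1 ≤ CR)
    (hD0 : 1 ≤ D0) : ∃ ρ : ℝ, 0 < ρ ∧ ρ ≤ 1 ∧ ∀ k : ℕ, 1 ≤ k → ∃ Y0 : ℕ, ∀ Y : ℕ, Y0 ≤ Y →
    ∀ (be a : ℕ → ℤ) (La : ℝ), FlatB L0 C0 (Y ^ 256) be → Good La (4 * L0) (4 * C0) k Y a →
    ∃ (al e : ℕ → ℤ) (v : ℂ), IsSign al ∧ IsSign e ∧ 1 ≤ ‖v‖ ∧ ‖v‖ ≤ 3 ∧
      TauHyp (mm Y) (Y ^ 256) (ii1 Y) (ii2 Y) al (RR CR k Y a be) ∧
      (∀ s : ℂ, |s.im| ≤ 1 / (Y : ℝ) ^ 256 →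
        ‖AA Y e s - (((1 - hh Y : ℝ) : ℂ) * BB Y be s +
          Complex.exp (Complex.I * (8 * (mm Y : ℂ)) * s) *
            (v * tt CR k Y a be al s + (starRingEnd ℂ) v * ttS CR k Y a be al s))‖ ≤
          (Y : ℝ) ^ 126) ∧
      (∀ θ : ℝ, cell (mm Y) (ii1 Y) - D0 / mm Y ≤ θ → θ ≤ cell (mm Y) (ii1 Y) →
        ρ ≤ ‖1 + v * ph1 CR k Y a be al θ‖) ∧
      (∀ θ : ℝ, cell (mm Y) (ii2 Y) ≤ θ → θ ≤ cell (mm Y) (ii2 Y) + D0 / mm Y →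
        ρ ≤ ‖1 + v * ph2 CR k Y a be al θ‖) := by
  obtain ⟨c1, C2, hc1, hc11, hC2, htau⟩ := tau_bounds
  obtain ⟨C3, hC3, hrad⟩ := radii_props L0 C0 hL0 hC0
  obtain ⟨Cr, hCr, hround⟩ := rounding
  obtain ⟨Cs, hCs, hsigns⟩ := signs
  set K1 := (4 * (8 * L0) + 4) /
    (49 / 1000 / (4 * C0 * (1 + 17 * D0) * C3 * CR) / (Real.exp 2 * C2)) * (17 * D0) with hK1
  set K2 := (4 * L0 + 4) / (1 / 2 / (C0 * (1 + 17 * D0) * C3 * CR) / (Real.exp 1 * C2)) *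
    (17 * D0) with hK2
  obtain ⟨ρ, hρ0, hρ1, hav⟩ := avoid (max 1 (max K1 K2)) (le_max_left _ _)
  refine ⟨ρ, hρ0, hρ1, fun k hk => ?_⟩
  obtain ⟨Ya, hYa⟩ := hrad CR k hCR hk
  obtain ⟨Yb, hYb⟩ := ch_log_small (36864 * Cs ^ 2)
  obtain ⟨Yd, hYd⟩ := ch_log_small (4096 * Cr ^ 2)
  obtain ⟨Yc, hYc⟩ := exists_nat_ge (1000 * D0)
  refine ⟨Ya + Yb + Yc + Yd + 100, fun Y hY be a La hbe hgood => ?_⟩
  have hY100 : 100 ≤ Y := by omega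
  have hYD : 1000 * D0 ≤ Y := by
    refine le_trans hYc ?_
    have : Yc ≤ Y := by omega
    exact_mod_cast this
  have hlog1 := hYb Y (by omega)
  have hlog2 := hYd Y (by omega)
  obtain ⟨hR0, hRslow, hRge, hRl, hRr, hRsq, hRmax⟩ := hYa Y (by omega) be a La hbe hgood
  obtain ⟨hm10, hm16, hm17, hi1, hi12, hc2u, hc2l, hc1l, hc1u, hk17, hk16, hi78, hper, hcell⟩ :=
    params Y hY100
  have hYR : (100 : ℝ) ≤ Y := by exact_mod_cast hY100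
  have hYpos : (0 : ℝ) < Y := by linarith
  have hmpos : (0 : ℝ) < mm Y := by
    have : 0 < mm Y := by omega
    exact_mod_cast this
  have hLpos : (0 : ℝ) < (Y : ℝ) ^ 256 := by positivity
  have hn2 : 2 ≤ Y ^ 256 := by
    calc 2 ≤ Y := by omega
      _ = Y ^ 1 := by ring
      _ ≤ Y ^ 256 := Nat.pow_le_pow_right (by omega) (by norm_num)
  have hh0 : 0 ≤ hh Y := by unfold hh; positivity
  -- positivity of the radii at the two ends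
  have hRpos : ∀ i ∈ Icc (ii1 Y) (ii2 Y), 0 < RR CR k Y a be i := by
    intro i hi
    refine lt_of_lt_of_le ?_ (hRge i hi)
    have hB : 0 < ‖BB Y be (cell (mm Y) i : ℂ)‖ := by
      have h1 := hbe.lower (cell (mm Y) i)
      by_contra h0
      have h2 : ‖BB Y be (cell (mm Y) i : ℂ)‖ = 0 :=
        le_antisymm (not_lt.mp h0) (norm_nonneg _)
      have h3 : ‖sv (Y ^ 256) be (cell (mm Y) i : ℂ)‖ = 0 := h2
      rw [h3] at h1
      have h4 : (0 : ℝ) < ((Y ^ 256 : ℕ) : ℝ) ^ 255 := by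
        have : 0 < Y ^ 256 := by omega
        positivity
      have h5 : (0 : ℝ) ^ 512 = 0 := by norm_num
      linarith
    have hcn : 0 ≤ cell (mm Y) i := by unfold cell; positivity
    have hg : 0 < gam k Y a be i := by
      unfold gam
      have : 0 ≤ ‖PP k Y a (cell (kap Y) i : ℂ)‖ / cell (mm Y) i := by positivity
      linarith
    have ho : 0 < om Y i := by
      unfold om
      refine lt_min (lt_min ?_ ?_) hYpos
      · positivity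
      · positivity
    positivity
  -- signs
  set c : ℕ → ℕ → ℂ := fun j i => Complex.I ^ i * ((RR CR k Y a be i / mm Y : ℝ) : ℂ) *
        Complex.exp (-(Complex.I * ((j : ℂ) - 8 * (mm Y : ℂ)) * (cell (mm Y) i : ℂ))) with hcdef
  have hcn : ∀ j < Y ^ 256, ∀ i ∈ Icc (ii1 Y) (ii2 Y), ‖c j i‖ ≤ RR CR k Y a be i / mm Y := by
    intro j _ i _
    simp only [hcdef]
    rw [norm_mul, norm_mul, norm_pow, Complex.norm_I, one_pow, one_mul, Complex.norm_real,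
      Real.norm_eq_abs, abs_of_nonneg (div_nonneg (hR0 i) hmpos.le)]
    have e1 : -(Complex.I * ((j : ℂ) - 8 * (mm Y : ℂ)) * (cell (mm Y) i : ℂ)) =
        Complex.I * ((-(((j : ℝ) - 8 * (mm Y : ℝ)) * cell (mm Y) i) : ℝ) : ℂ) := by
      push_cast; ring
    rw [e1, ch_norm_exp_real, mul_one]
  obtain ⟨al, hal, halb⟩ := hsigns (Y ^ 256) hn2 (ii1 Y) (ii2 Y) c
    (fun i => RR CR k Y a be i / mm Y) (1 / (Y : ℝ) ^ 13) (1 / (Y : ℝ) ^ 13) hcn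
    (fun i _ => hRmax i) (by positivity) hRsq
  have hTH : TauHyp (mm Y) (Y ^ 256) (ii1 Y) (ii2 Y) al (RR CR k Y a be) := by
    refine ⟨hal, hm10, hm16, hi1, hi12, ?_, hR0, hRslow⟩
    refine le_trans hc2u ?_
    rw [div_le_one (by positivity)]
    have h4 : (Y : ℝ) ≤ (Y : ℝ) ^ 60 := by
      calc (Y : ℝ) = (Y : ℝ) ^ 1 := by ring
        _ ≤ (Y : ℝ) ^ 60 := pow_le_pow_right₀ (by linarith) (by norm_num)
    linarith
  obtain ⟨-, -, tle, tri, -⟩ := htau _ _ _ _ _ _ hTH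
  -- bounds for the bump sum on the two crossing intervals
  have htle : ∀ (θ : ℝ) (z : ℂ), 0 ≤ θ → θ ≤ cell (mm Y) (ii1 Y) → ‖z‖ ≤ 1 →
      ‖tt CR k Y a be al ((θ : ℂ) + z / ((Y ^ 256 : ℕ) : ℂ))‖ ≤ C2 * RR CR k Y a be (ii1 Y) := by
    intro θ z h0 h1 hz
    refine le_trans (tle θ z h0 h1 hz) ?_
    refine div_le_self (mul_nonneg (by linarith) (hR0 _)) ?_
    refine one_le_pow₀ ?_
    have : 0 ≤ (mm Y : ℝ) * (cell (mm Y) (ii1 Y) - θ) :=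
      mul_nonneg hmpos.le (by linarith)
    linarith
  have htri : ∀ (θ : ℝ) (z : ℂ), cell (mm Y) (ii2 Y) ≤ θ → θ ≤ Real.pi → ‖z‖ ≤ 1 →
      ‖tt CR k Y a be al ((θ : ℂ) + z / ((Y ^ 256 : ℕ) : ℂ))‖ ≤ C2 * RR CR k Y a be (ii2 Y) := by
    intro θ z h0 h1 hz
    refine le_trans (tri θ z h0 h1 hz) ?_
    refine div_le_self (mul_nonneg (by linarith) (hR0 _)) ?_
    refine one_le_pow₀ ?_
    have : 0 ≤ (mm Y : ℝ) * (θ - cell (mm Y) (ii2 Y)) :=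
      mul_nonneg hmpos.le (by linarith)
    linarith
  have hi1m : ii1 Y ∈ Icc (ii1 Y) (ii2 Y) := Finset.mem_Icc.mpr ⟨le_rfl, hi12⟩
  have hi2m : ii2 Y ∈ Icc (ii1 Y) (ii2 Y) := Finset.mem_Icc.mpr ⟨hi12, le_rfl⟩
  have hDmL : D0 / mm Y ≤ 17 * D0 * (1 / (Y : ℝ) ^ 256) := by
    rw [mul_one_div, div_le_div_iff₀ hmpos hLpos]
    nlinarith
  have hD0m : 0 ≤ D0 / mm Y := by positivity
  -- the two paths
  obtain ⟨v, hv1, hv3, hv⟩ := hav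
    (fun x => ph1 CR k Y a be al (cell (mm Y) (ii1 Y) - D0 / mm Y + x * (D0 / mm Y)))
    (fun x => ph2 CR k Y a be al (cell (mm Y) (ii2 Y) + x * (D0 / mm Y)))
    (by
      intro x hx y hy
      have h := ch_ph1_lip L0 C0 CR D0 C2 C3 hL0 hC0 hCR hD0 hC2 hC3 k Y hY100 hYD a be al La
        hgood (hRpos _ hi1m) hRl htle
        (cell (mm Y) (ii1 Y) - D0 / mm Y + x * (D0 / mm Y))
        (cell (mm Y) (ii1 Y) - D0 / mm Y + y * (D0 / mm Y))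
        (by nlinarith [hx.1, hx.2]) (by nlinarith [hx.1, hx.2])
        (by nlinarith [hy.1, hy.2]) (by nlinarith [hy.1, hy.2])
      refine le_trans h ?_
      have e1 : (cell (mm Y) (ii1 Y) - D0 / mm Y + x * (D0 / mm Y)) -
        (cell (mm Y) (ii1 Y) - D0 / mm Y + y * (D0 / mm Y)) = (x - y) * (D0 / mm Y) := by ring
      rw [e1, abs_mul, abs_of_nonneg hD0m]
      refine le_trans ?_ (mul_le_mul_of_nonneg_right
        (le_trans (le_max_left K1 K2) (le_max_right 1 _)) (abs_nonneg _))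
      rw [hK1]
      set Q := (4 * (8 * L0) + 4) /
        (49 / 1000 / (4 * C0 * (1 + 17 * D0) * C3 * CR) / (Real.exp 2 * C2)) with hQ
      have hQ0 : 0 ≤ Q := by positivity
      rw [div_le_iff₀ (by positivity)]
      calc Q * (|x - y| * (D0 / mm Y)) ≤ Q * (|x - y| * (17 * D0 * (1 / (Y : ℝ) ^ 256))) := by
            gcongr
        _ = Q * (17 * D0) * |x - y| * (1 / (Y : ℝ) ^ 256) := by ring)
    (by
      intro x hx y hy
      have h := ch_ph2_lip L0 C0 CR D0 C2 C3 hL0 hC0 hCR hD0 hC2 hC3 k Y hY100 hYD a be al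
        hbe (hRpos _ hi2m) hRr htri
        (cell (mm Y) (ii2 Y) + x * (D0 / mm Y))
        (cell (mm Y) (ii2 Y) + y * (D0 / mm Y))
        (by nlinarith [hx.1, hx.2]) (by nlinarith [hx.1, hx.2])
        (by nlinarith [hy.1, hy.2]) (by nlinarith [hy.1, hy.2])
      refine le_trans h ?_
      have e1 : (cell (mm Y) (ii2 Y) + x * (D0 / mm Y)) -
        (cell (mm Y) (ii2 Y) + y * (D0 / mm Y)) = (x - y) * (D0 / mm Y) := by ring
      rw [e1, abs_mul, abs_of_nonneg hD0m]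
      refine le_trans ?_ (mul_le_mul_of_nonneg_right
        (le_trans (le_max_right K1 K2) (le_max_right 1 _)) (abs_nonneg _))
      rw [hK2]
      set Q := (4 * L0 + 4) / (1 / 2 / (C0 * (1 + 17 * D0) * C3 * CR) / (Real.exp 1 * C2)) with hQ
      have hQ0 : 0 ≤ Q := by positivity
      rw [div_le_iff₀ (by positivity)]
      calc Q * (|x - y| * (D0 / mm Y)) ≤ Q * (|x - y| * (17 * D0 * (1 / (Y : ℝ) ^ 256))) := by
            gcongr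
        _ = Q * (17 * D0) * |x - y| * (1 / (Y : ℝ) ^ 256) := by ring)
  -- coefficients and rounding
  obtain ⟨x, hx1, hx2, hx3⟩ := tau_coef (mm Y) (Y ^ 256) (ii1 Y) (ii2 Y) al (RR CR k Y a be)
    (by omega) hm16 v
  have hxh : ∀ j, |x j| ≤ hh Y := by
    intro j
    rcases lt_or_ge j (Y ^ 256) with hj | hj
    · refine le_trans (hx3 j hj) ?_
      have h1 := halb j hj
      have h2 := le_trans h1 (ch_num1 Cs hCs Y hY100 hlog1)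
      have h3 : ‖∑ i ∈ Icc (ii1 Y) (ii2 Y), (al i : ℂ) *
        (Complex.I ^ i * ((RR CR k Y a be i / mm Y : ℝ) : ℂ) *
        Complex.exp (-(Complex.I * ((j : ℂ) - 8 * (mm Y : ℂ)) * (cell (mm Y) i : ℂ))))‖ ≤
          1 / (6 * (Y : ℝ) ^ 6) := h2
      calc _ ≤ 2 * 3 * (1 / (6 * (Y : ℝ) ^ 6)) := by gcongr
        _ = hh Y := by unfold hh; field_simp; norm_num
    · rw [hx2 j hj, abs_zero]; exact hh0
  obtain ⟨e, he, herr⟩ := ch_round Cr hCr hround Y hY100 hlog2 be hbe.sign x hxh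
  refine ⟨al, e, v, hal, he, hv1, hv3, hTH, ?_, ?_, ?_⟩
  · intro s hs
    have h1 := herr s hs
    rw [← hx1 s] at h1
    exact h1
  · intro θ h0 h1
    have h2 := (hv ((θ - (cell (mm Y) (ii1 Y) - D0 / mm Y)) / (D0 / mm Y)) (by
      have hp : 0 < D0 / mm Y := by positivity
      constructor
      · exact div_nonneg (by linarith) hp.le
      · rw [div_le_one hp]; linarith)).1
    have e1 : cell (mm Y) (ii1 Y) - D0 / mm Y +
        (θ - (cell (mm Y) (ii1 Y) - D0 / mm Y)) / (D0 / mm Y) * (D0 / mm Y) = θ := by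
      have hp : D0 / mm Y ≠ 0 := by positivity
      rw [div_mul_cancel₀ _ hp]; ring
    simp only [e1] at h2
    exact h2
  · intro θ h0 h1
    have h2 := (hv ((θ - cell (mm Y) (ii2 Y)) / (D0 / mm Y)) (by
      have hp : 0 < D0 / mm Y := by positivity
      constructor
      · exact div_nonneg (by linarith) hp.le
      · rw [div_le_one hp]; linarith)).2
    have e1 : cell (mm Y) (ii2 Y) +
        (θ - cell (mm Y) (ii2 Y)) / (D0 / mm Y) * (D0 / mm Y) = θ := by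
      have hp : D0 / mm Y ≠ 0 := by positivity
      rw [div_mul_cancel₀ _ hp]; ring
    simp only [e1] at h2
    exact h2

end Pool.Agent.Helper59.Lit
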