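import Pool.Agent.Helper59.Lit.Defs

/-!
# Module Concat: the sign sequence of `P(z^b) q(z) + z^N A(z)`
-/

set_option autoImplicit false

namespace Pool.Agent.Helper59.Lit

open Finset in
theorem ConcatAux.sum_blocks (m b : ℕ) (hb : 1 ≤ b) (a c : ℕ → ℤ) (s : ℂ) :
    ∑ j ∈ range (m * b), (((a (j / b) * c (j % b) : ℤ) : ℝ) : ℂ) *
        Complex.exp (Complex.I * (j : ℂ) * s) =
      (∑ q ∈ range m, ((a q : ℝ) : ℂ) * Complex.exp (Complex.I * (q : ℂ) * ((b : ℂ) * s))) *
        ∑ r ∈ range b, ((c r : ℝ) : ℂ) * Complex.exp (Complex.I * (r : ℂ) * s) := by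
  induction m with
  | zero => simp
  | succ m ih =>
    rw [Nat.succ_mul, Finset.sum_range_add, ih, Finset.sum_range_succ, add_mul]
    congr 1
    rw [Finset.mul_sum]
    apply Finset.sum_congr rfl
    intro r hr
    rw [Finset.mem_range] at hr
    have h1 : (m * b + r) / b = m := by
      rw [mul_comm, Nat.mul_add_div (by omega), Nat.div_eq_of_lt hr, add_zero]
    have h2 : (m * b + r) % b = r := by
      rw [mul_comm, Nat.mul_add_mod, Nat.mod_eq_of_lt hr]
    rw [h1, h2]
    have h3 : Complex.exp (Complex.I * ((m * b + r : ℕ) : ℂ) * s) =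
        Complex.exp (Complex.I * (m : ℂ) * ((b : ℂ) * s)) *
          Complex.exp (Complex.I * (r : ℂ) * s) := by
      rw [← Complex.exp_add]
      congr 1
      push_cast
      ring
    rw [h3]
    push_cast
    ring

theorem concat_exists (k b X : ℕ) (hb : 1 ≤ b) (a c e : ℕ → ℤ) (ha : IsSign a)
    (hc : IsSign c) (he : IsSign e) : ∃ a' : ℕ → ℤ, IsSign a' ∧ ∀ s : ℂ,
      sv ((k + 1) * (b * X)) a' s = sv (k * X) a ((b : ℂ) * s) * sv b c s +
        Complex.exp (Complex.I * ((k * (b * X) : ℕ) : ℂ) * s) * sv (b * X) e s := by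
  refine ⟨fun j => if j < k * (b * X) then a (j / b) * c (j % b) else e (j - k * (b * X)),
    ?_, ?_⟩
  · intro j
    by_cases h : j < k * (b * X)
    · simp only [h, if_true]
      rcases ha (j / b) with h1 | h1 <;> rcases hc (j % b) with h2 | h2 <;> simp [h1, h2]
    · simp only [h, if_false]
      exact he _
  · intro s
    unfold sv rv
    have e1 : (k + 1) * (b * X) = k * (b * X) + b * X := by ring
    rw [e1, Finset.sum_range_add]
    congr 1
    · have e2 : k * (b * X) = k * X * b := by ring
      rw [← ConcatAux.sum_blocks (k * X) b hb a c s, e2]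
      apply Finset.sum_congr rfl
      intro j hj
      rw [Finset.mem_range] at hj
      simp only [hj, if_true]
    · rw [Finset.mul_sum]
      apply Finset.sum_congr rfl
      intro j _
      have h : ¬ (k * (b * X) + j < k * (b * X)) := by omega
      simp only [h, if_false]
      have h3 : Complex.exp (Complex.I * ((k * (b * X) + j : ℕ) : ℂ) * s) =
          Complex.exp (Complex.I * ((k * (b * X) : ℕ) : ℂ) * s) *
            Complex.exp (Complex.I * (j : ℂ) * s) := by
        rw [← Complex.exp_add]
        congr 1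
        push_cast
        ring
      rw [h3]
      have h4 : k * (b * X) + j - k * (b * X) = j := by omega
      rw [h4]
      ring

/-- reflection symmetry -/
theorem sv_neg_conj (n : ℕ) (a : ℕ → ℤ) (s : ℂ) :
    sv n a (-(starRingEnd ℂ) s) = (starRingEnd ℂ) (sv n a s) := by
  unfold sv rv
  rw [map_sum]
  apply Finset.sum_congr rfl
  intro j _
  rw [map_mul, Complex.conj_ofReal, ← Complex.exp_conj]
  congr 2
  simp

theorem sv_periodic (n : ℕ) (a : ℕ → ℤ) (s : ℂ) : sv n a (s + 2 * Real.pi) = sv n a s := by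
  unfold sv rv
  apply Finset.sum_congr rfl
  intro j _
  congr 1
  have h : Complex.I * (j : ℂ) * (s + 2 * Real.pi) =
      Complex.I * (j : ℂ) * s + (j : ℕ) * (2 * Real.pi * Complex.I) := by ring
  rw [h, Complex.exp_add, Complex.exp_nat_mul_two_pi_mul_I, mul_one]

end Pool.Agent.Helper59.Lit
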