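import Mathlib

/-!
# Littlewood polynomials with no zeros near the unit circle: definitions

`sv n a s` is the Littlewood polynomial with sign sequence `a` and `n` coefficients, at the
point `exp (i s)`, `s` complex.  `rv` is the same with real coefficients.
-/

set_option autoImplicit false

namespace Pool.Agent.Helper59.Lit

open Finset

/-- a sequence of signs -/
def IsSign (a : ℕ → ℤ) : Prop := ∀ j, a j = 1 ∨ a j = -1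

/-- `∑_{j<n} x_j e^{ijs}` with real coefficients `x` -/
noncomputable def rv (n : ℕ) (x : ℕ → ℝ) (s : ℂ) : ℂ :=
  ∑ j ∈ range n, (x j : ℂ) * Complex.exp (Complex.I * (j : ℂ) * s)

/-- `∑_{j<n} a_j e^{ijs}` with integer coefficients `a` -/
noncomputable def sv (n : ℕ) (a : ℕ → ℤ) (s : ℂ) : ℂ :=
  rv n (fun j => (a j : ℝ)) s

/-- normalised Dirichlet kernel `(1/m) ∑_{j<m} e^{ijs}` -/
noncomputable def Kc (m : ℕ) (s : ℂ) : ℂ :=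
  (1 / (m : ℂ)) * ∑ j ∈ range m, Complex.exp (Complex.I * (j : ℂ) * s)

/-- eighth power of the Fejer kernel, `FK m x = |Kc m x|^16` for real `x` -/
noncomputable def FK (m : ℕ) (s : ℂ) : ℂ := (Kc m s * Kc m (-s)) ^ 8

/-- grid points -/
noncomputable def cell (m i : ℕ) : ℝ := 2 * Real.pi * i / m

/-- the bump sum -/
noncomputable def tau (m i1 i2 : ℕ) (al : ℕ → ℤ) (R : ℕ → ℝ) (s : ℂ) : ℂ :=
  ∑ i ∈ Icc i1 i2, (al i : ℂ) * Complex.I ^ i * (R i : ℂ) * FK m (s - (cell m i : ℂ))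

/-- the mirror image of the bump sum -/
noncomputable def tauS (m i1 i2 : ℕ) (al : ℕ → ℤ) (R : ℕ → ℝ) (s : ℂ) : ℂ :=
  ∑ i ∈ Icc i1 i2, (al i : ℂ) * (-Complex.I) ^ i * (R i : ℂ) * FK m (s + (cell m i : ℂ))

/-- smoothed radii -/
noncomputable def rad (i1 i2 : ℕ) (u : ℕ → ℝ) (i : ℕ) : ℝ :=
  ∑ j ∈ Icc i1 i2, u j / (1 + |(i : ℝ) - (j : ℝ)|) ^ 4

/-- signs of the short-run block: `+1` for `j < b - mr`, then `-1` -/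
def rs (b mr : ℕ) (j : ℕ) : ℤ := if j < b - mr then 1 else -1

/-- A flat Littlewood polynomial with `L` coefficients, `|B|` between `L^{1/2-1/512}` and
`L^{1/2+1/512}`, with local regularity at scale `1/L`. -/
structure FlatB (L0 C0 : ℝ) (L : ℕ) (be : ℕ → ℤ) : Prop where
  sign : IsSign be
  reg : ∀ θ : ℝ, ∀ z : ℂ, ‖z‖ ≤ 1 →
    ‖sv L be ((θ : ℂ) + z / (L : ℂ))‖ ≤ L0 * ‖sv L be (θ : ℂ)‖
  poly : ∀ θ θ' : ℝ, ‖sv L be (θ' : ℂ)‖ ≤ C0 * (1 + L * |θ - θ'|) * ‖sv L be (θ : ℂ)‖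
  lower : ∀ θ : ℝ, (L : ℝ) ^ 255 ≤ ‖sv L be (θ : ℂ)‖ ^ 512
  upper : ∀ θ : ℝ, ‖sv L be (θ : ℂ)‖ ^ 512 ≤ (L : ℝ) ^ 257

/-- The induction hypothesis: a Littlewood polynomial with `k * Y^64` coefficients. -/
structure Good (La L1 C1 : ℝ) (k Y : ℕ) (a : ℕ → ℤ) : Prop where
  sign : IsSign a
  reg : ∀ θ : ℝ, ∃ lam : ℝ, |lam| ≤ k ∧ ∀ z : ℂ, ‖z‖ ≤ 1 →
    ‖Complex.exp (-(Complex.I * (lam : ℂ) * z)) *
        sv (k * Y ^ 64) a ((θ : ℂ) + z / ((Y : ℂ) ^ 64))‖ ≤ La * ‖sv (k * Y ^ 64) a (θ : ℂ)‖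
  lower : ∀ θ : ℝ, (Y : ℝ) ^ 30 ≤ ‖sv (k * Y ^ 64) a (θ : ℂ)‖
  poly : ∀ θ θ' : ℝ, |θ - Real.pi| ≤ 1 → |θ' - Real.pi| ≤ 1 →
    ‖sv (k * Y ^ 64) a (θ' : ℂ)‖ ≤
      C1 * (1 + (Y : ℝ) ^ 64 * |θ - θ'|) * ‖sv (k * Y ^ 64) a (θ : ℂ)‖
  nice : ∀ θ : ℝ, |θ - Real.pi| ≤ 1 → ∀ z : ℂ, ‖z‖ ≤ 1 →
    ‖Complex.exp (-(Complex.I * ((k : ℂ) - 1) * z)) *
        sv (k * Y ^ 64) a ((θ : ℂ) + z / ((Y : ℂ) ^ 64))‖ ≤ L1 * ‖sv (k * Y ^ 64) a (θ : ℂ)‖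

end Pool.Agent.Helper59.Lit
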