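import Pool.Agent.Helper59.Lit.Defs

/-!
# Module Energy: aliasing bound and the energy of the samples of `P(z^b)`
-/

set_option autoImplicit false

namespace Pool.Agent.Helper59.Lit

open Finset

/-- number of grid points per period of `z^b` -/
def kap (Y : ℕ) : ℕ := Y ^ 64 / 16

/-- kernel parameter / number of grid points on the circle -/
def mm (Y : ℕ) : ℕ := Y ^ 192 * kap Y

/-- first grid index of the bump region -/
def ii1 (Y : ℕ) : ℕ := (Y ^ 16 / 8) * kap Y + kap Y / 2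

/-- last grid index of the bump region -/
def ii2 (Y : ℕ) : ℕ := mm Y / Y ^ 60

namespace EnergyAux

theorem char_sum (K : ℕ) (hK : 1 ≤ K) (i0 j j' : ℕ) :
    ‖∑ i ∈ range K, Complex.exp (Complex.I * ((j : ℂ) - (j' : ℂ)) * (cell K (i0 + i) : ℂ))‖ ≤
      if j' ≡ j [MOD K] then (K : ℝ) else 0 := by
  have hK0 : (K : ℂ) ≠ 0 := by
    have : K ≠ 0 := by omega
    exact_mod_cast this
  set u : ℂ := Complex.I * ((j : ℂ) - (j' : ℂ)) * (2 * (Real.pi : ℂ) / (K : ℂ)) with hu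
  have hterm : ∀ i ∈ range K, Complex.exp (Complex.I * ((j : ℂ) - (j' : ℂ)) *
      (cell K (i0 + i) : ℂ)) = Complex.exp u ^ i0 * Complex.exp u ^ i := by
    intro i _
    rw [← pow_add, ← Complex.exp_nat_mul]
    congr 1
    unfold cell
    rw [hu]
    push_cast
    ring
  rw [Finset.sum_congr rfl hterm, ← Finset.mul_sum]
  have hone : Complex.exp u ^ K = 1 := by
    rw [← Complex.exp_nat_mul, hu]
    have : (K : ℂ) * (Complex.I * ((j : ℂ) - (j' : ℂ)) * (2 * (Real.pi : ℂ) / (K : ℂ))) =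
        (((j : ℤ) - (j' : ℤ) : ℤ) : ℂ) * (2 * (Real.pi : ℂ) * Complex.I) := by
      push_cast
      field_simp
    rw [this]
    exact Complex.exp_int_mul_two_pi_mul_I _
  have hn1 : ‖Complex.exp u‖ = 1 := by
    have : u = (((((j : ℝ) - (j' : ℝ)) * (2 * Real.pi / K)) : ℝ) : ℂ) * Complex.I := by
      rw [hu]; push_cast; ring
    rw [this, Complex.norm_exp_ofReal_mul_I]
  by_cases hmod : j' ≡ j [MOD K]
  · rw [if_pos hmod, norm_mul, norm_pow, hn1, one_pow, one_mul]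
    calc _ ≤ ∑ i ∈ range K, (1 : ℝ) := norm_sum_le_of_le _ (fun i _ => by
          rw [norm_pow, hn1, one_pow])
      _ = K := by simp
  · rw [if_neg hmod]
    have hne : Complex.exp u ≠ 1 := by
      intro h
      rw [Complex.exp_eq_one_iff] at h
      obtain ⟨n, hn⟩ := h
      apply hmod
      have h2 : ((j : ℂ) - (j' : ℂ)) = (n : ℂ) * (K : ℂ) := by
        have hpi : (Real.pi : ℂ) ≠ 0 := by exact_mod_cast Real.pi_ne_zero
        rw [hu] at hn
        field_simp at hn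
        linear_combination hn
      have h3 : ((j : ℤ) - (j' : ℤ)) = n * K := by exact_mod_cast h2
      rw [Nat.modEq_iff_dvd]
      exact ⟨n, by rw [h3]; ring⟩
    have := geom_sum_eq hne K
    rw [this, hone, sub_self, zero_div, mul_zero, norm_zero]

theorem count_le (n K : ℕ) (hK : 1 ≤ K) (j : ℕ) :
    ∑ j' ∈ range n, (if j' ≡ j [MOD K] then (K : ℝ) else 0) ≤ K * ((n : ℝ) / K + 1) := by
  have hc := Nat.count_modEq_card n (r := K) (by omega) j
  have h1 : ∑ j' ∈ range n, (if j' ≡ j [MOD K] then (K : ℝ) else 0) =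
      K * (Nat.count (· ≡ j [MOD K]) n : ℝ) := by
    rw [Nat.count_eq_card_filter_range, ← Finset.sum_filter, Finset.sum_const, nsmul_eq_mul]
    ring
  rw [h1]
  apply mul_le_mul_of_nonneg_left _ (Nat.cast_nonneg K)
  rw [hc]
  push_cast
  have h2 : ((n / K : ℕ) : ℝ) ≤ (n : ℝ) / K := Nat.cast_div_le
  split_ifs
  · linarith
  · linarith

end EnergyAux

open EnergyAux

/-- aliased discrete Parseval -/
theorem alias_bound (n K : ℕ) (hK : 1 ≤ K) (a : ℕ → ℤ) (ha : IsSign a) (i0 : ℕ) :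
    ∑ i ∈ range K, ‖sv n a (cell K (i0 + i) : ℂ)‖ ^ 2 ≤ (K : ℝ) ^ 2 * ((n : ℝ) / K + 1) ^ 2 := by
  have hexp : ∀ i, ((‖sv n a (cell K (i0 + i) : ℂ)‖ ^ 2 : ℝ) : ℂ) =
      ∑ j ∈ range n, ∑ j' ∈ range n, ((a j : ℝ) : ℂ) * ((a j' : ℝ) : ℂ) *
        Complex.exp (Complex.I * ((j : ℂ) - (j' : ℂ)) * (cell K (i0 + i) : ℂ)) := by
    intro i
    have h1 : ((‖sv n a (cell K (i0 + i) : ℂ)‖ ^ 2 : ℝ) : ℂ) =
        sv n a (cell K (i0 + i) : ℂ) * (starRingEnd ℂ) (sv n a (cell K (i0 + i) : ℂ)) := by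
      rw [Complex.mul_conj']
      push_cast
      rfl
    rw [h1]
    unfold sv rv
    rw [map_sum, Finset.sum_mul_sum]
    refine Finset.sum_congr rfl fun j _ => Finset.sum_congr rfl fun j' _ => ?_
    rw [map_mul, ← Complex.exp_conj, Complex.conj_ofReal]
    have h2 : (starRingEnd ℂ) (Complex.I * (j' : ℂ) * (cell K (i0 + i) : ℂ)) =
        -(Complex.I * (j' : ℂ) * (cell K (i0 + i) : ℂ)) := by
      rw [map_mul, map_mul, Complex.conj_I, Complex.conj_ofReal, Complex.conj_natCast]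
      ring
    rw [h2]
    have h3 : Complex.exp (Complex.I * ((j : ℂ) - (j' : ℂ)) * (cell K (i0 + i) : ℂ)) =
        Complex.exp (Complex.I * (j : ℂ) * (cell K (i0 + i) : ℂ)) *
        Complex.exp (-(Complex.I * (j' : ℂ) * (cell K (i0 + i) : ℂ))) := by
      rw [← Complex.exp_add]; ring_nf
    rw [h3]
    ring
  have hT : ((∑ i ∈ range K, ‖sv n a (cell K (i0 + i) : ℂ)‖ ^ 2 : ℝ) : ℂ) =
      ∑ j ∈ range n, ∑ j' ∈ range n, ((a j : ℝ) : ℂ) * ((a j' : ℝ) : ℂ) *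
        ∑ i ∈ range K, Complex.exp (Complex.I * ((j : ℂ) - (j' : ℂ)) * (cell K (i0 + i) : ℂ)) := by
    rw [Complex.ofReal_sum, Finset.sum_congr rfl fun i _ => hexp i, Finset.sum_comm]
    refine Finset.sum_congr rfl fun j _ => ?_
    rw [Finset.sum_comm]
    refine Finset.sum_congr rfl fun j' _ => ?_
    rw [Finset.mul_sum]
  have hnonneg : 0 ≤ ∑ i ∈ range K, ‖sv n a (cell K (i0 + i) : ℂ)‖ ^ 2 :=
    Finset.sum_nonneg fun _ _ => sq_nonneg _
  have hsig : ∀ j, ‖((a j : ℝ) : ℂ)‖ = 1 := by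
    intro j
    rcases ha j with h | h <;> rw [h] <;> simp
  have h4 : ∑ i ∈ range K, ‖sv n a (cell K (i0 + i) : ℂ)‖ ^ 2 ≤
      ∑ j ∈ range n, ∑ j' ∈ range n, (if j' ≡ j [MOD K] then (K : ℝ) else 0) := by
    have h5 : ∑ i ∈ range K, ‖sv n a (cell K (i0 + i) : ℂ)‖ ^ 2 =
        ‖((∑ i ∈ range K, ‖sv n a (cell K (i0 + i) : ℂ)‖ ^ 2 : ℝ) : ℂ)‖ := by
      rw [Complex.norm_real, Real.norm_of_nonneg hnonneg]
    rw [h5, hT]
    refine norm_sum_le_of_le _ fun j _ => norm_sum_le_of_le _ fun j' _ => ?_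
    rw [norm_mul, norm_mul, hsig, hsig, one_mul, one_mul]
    exact char_sum K hK i0 j j'
  refine h4.trans ?_
  have hKr : (0 : ℝ) < K := by exact_mod_cast hK
  calc _ ≤ ∑ j ∈ range n, K * ((n : ℝ) / K + 1) := Finset.sum_le_sum fun j _ => count_le n K hK j
    _ = n * (K * ((n : ℝ) / K + 1)) := by rw [Finset.sum_const, card_range, nsmul_eq_mul]
    _ ≤ (K * ((n : ℝ) / K + 1)) * (K * ((n : ℝ) / K + 1)) := by
      apply mul_le_mul_of_nonneg_right _ (by positivity)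
      have : (K : ℝ) * ((n : ℝ) / K + 1) = n + K := by field_simp
      rw [this]
      linarith
    _ = _ := by ring

theorem energy (Y k : ℕ) (hY : 100 ≤ Y) (hk : 1 ≤ k) (a : ℕ → ℤ) (ha : IsSign a) (i2 : ℕ) :
    ∑ i ∈ Icc (ii1 Y) i2, (‖sv (k * Y ^ 64) a (cell (kap Y) i : ℂ)‖ / cell (mm Y) i) ^ 2 ≤
      10 ^ 4 * (k : ℝ) ^ 2 * (mm Y : ℝ) ^ 2 / (Y : ℝ) ^ 16 := by
  set κ := kap Y with hκ
  set m := mm Y with hm
  set t0 := Y ^ 16 / 8 with ht0
  have hY16 : Y ^ 16 ≥ 1000 := by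
    calc Y ^ 16 ≥ 100 ^ 16 := Nat.pow_le_pow_left hY 16
      _ ≥ 1000 := by norm_num
  have ht0pos : 100 ≤ t0 := by omega
  have hY64 : Y ^ 64 ≥ 1000 := by
    calc Y ^ 64 ≥ 100 ^ 64 := Nat.pow_le_pow_left hY 64
      _ ≥ 1000 := by norm_num
  have hκpos : 1 ≤ κ := by
    rw [hκ]; unfold kap; omega
  have hκlow : Y ^ 64 ≤ 17 * κ := by
    rw [hκ]; unfold kap; omega
  have ht0low : Y ^ 16 ≤ 9 * t0 := by omega
  have hmpos : 0 < m := by
    rw [hm]; unfold mm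
    have : 0 < Y := by omega
    positivity
  set f : ℕ → ℝ := fun i => (‖sv (k * Y ^ 64) a (cell κ i : ℂ)‖ / cell m i) ^ 2 with hf
  have hf0 : ∀ i, 0 ≤ f i := fun i => sq_nonneg _
  have hκr : (0 : ℝ) < κ := by exact_mod_cast hκpos
  have hmr : (0 : ℝ) < m := by exact_mod_cast hmpos
  -- one block
  have hC : ((k * Y ^ 64 : ℕ) : ℝ) / κ + 1 ≤ 18 * k := by
    have h1 : ((Y ^ 64 : ℕ) : ℝ) ≤ 17 * κ := by exact_mod_cast hκlow
    have h2 : (1 : ℝ) ≤ k := by exact_mod_cast hk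
    have h3 : ((k * Y ^ 64 : ℕ) : ℝ) / κ ≤ 17 * k := by
      rw [div_le_iff₀ hκr]
      push_cast at h1 ⊢
      nlinarith
    linarith
  have hblock : ∀ t, 1 ≤ t → ∑ i ∈ range κ, f (t * κ + i) ≤
      (m : ℝ) ^ 2 * (9 * (k : ℝ) ^ 2) * (((t : ℝ)) ^ 2)⁻¹ := by
    intro t ht
    have htr : (0 : ℝ) < t := by exact_mod_cast ht
    have hcell : ∀ i, 2 * Real.pi * (t * κ) / m ≤ cell m (t * κ + i) := by
      intro i
      unfold cell
      apply div_le_div_of_nonneg_right _ hmr.le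
      apply mul_le_mul_of_nonneg_left _ (by positivity)
      push_cast
      have : (0 : ℝ) ≤ i := Nat.cast_nonneg i
      linarith
    have hc0 : 0 < 2 * Real.pi * (t * κ) / m := by positivity
    have hle : ∀ i ∈ range κ, f (t * κ + i) ≤
        ‖sv (k * Y ^ 64) a (cell κ (t * κ + i) : ℂ)‖ ^ 2 * ((2 * Real.pi * (t * κ) / m) ^ 2)⁻¹ := by
      intro i _
      rw [hf]
      simp only
      rw [div_pow, div_eq_mul_inv]
      apply mul_le_mul_of_nonneg_left _ (sq_nonneg _)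
      apply inv_anti₀ (by positivity)
      exact pow_le_pow_left₀ hc0.le (hcell i) 2
    refine (Finset.sum_le_sum hle).trans ?_
    rw [← Finset.sum_mul]
    have hal := alias_bound (k * Y ^ 64) κ hκpos a ha (t * κ)
    have h6 : ∑ i ∈ range κ, ‖sv (k * Y ^ 64) a (cell κ (t * κ + i) : ℂ)‖ ^ 2 ≤
        (κ : ℝ) ^ 2 * (18 * k) ^ 2 := by
      refine hal.trans ?_
      apply mul_le_mul_of_nonneg_left _ (sq_nonneg _)
      exact pow_le_pow_left₀ (by positivity) hC 2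
    refine (mul_le_mul_of_nonneg_right h6 (by positivity)).trans ?_
    have hpi : 9 ≤ Real.pi ^ 2 := by
      have := Real.pi_gt_three
      nlinarith
    have h7 : (κ : ℝ) ^ 2 * (18 * k) ^ 2 * ((2 * Real.pi * (t * κ) / m) ^ 2)⁻¹ =
        (m : ℝ) ^ 2 * (81 * (k : ℝ) ^ 2 / Real.pi ^ 2) * (((t : ℝ)) ^ 2)⁻¹ := by
      field_simp
      ring
    rw [h7]
    apply mul_le_mul_of_nonneg_right _ (by positivity)
    apply mul_le_mul_of_nonneg_left _ (sq_nonneg _)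
    rw [div_le_iff₀ (by positivity)]
    nlinarith [sq_nonneg (k : ℝ)]
  -- all blocks
  have hall : ∀ N, t0 ≤ N → ∑ i ∈ Ico (t0 * κ) (N * κ), f i ≤
      (m : ℝ) ^ 2 * (9 * (k : ℝ) ^ 2) * ∑ t ∈ Ico t0 N, (((t : ℝ)) ^ 2)⁻¹ := by
    intro N hN
    induction N, hN using Nat.le_induction with
    | base => simp
    | succ N hN ih =>
      have h1 : t0 * κ ≤ N * κ := Nat.mul_le_mul_right κ hN
      have h2 : N * κ ≤ (N + 1) * κ := Nat.mul_le_mul_right κ (Nat.le_succ N)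
      rw [← Finset.sum_Ico_consecutive f h1 h2, Finset.sum_Ico_succ_top hN, mul_add]
      refine add_le_add ih ?_
      rw [Finset.sum_Ico_eq_sum_range]
      have h3 : (N + 1) * κ - N * κ = κ := by
        rw [← Nat.sub_mul, Nat.add_sub_cancel_left, one_mul]
      rw [h3]
      exact hblock N (by omega)
  have hsub : Icc (ii1 Y) i2 ⊆ Ico (t0 * κ) ((t0 + i2 + 1) * κ) := by
    intro i hi
    rw [Finset.mem_Icc] at hi
    rw [Finset.mem_Ico]
    constructor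
    · refine le_trans ?_ hi.1
      unfold ii1
      exact Nat.le_add_right _ _
    · calc i < i2 + 1 := by omega
        _ ≤ (t0 + i2 + 1) * 1 := by omega
        _ ≤ (t0 + i2 + 1) * κ := Nat.mul_le_mul_left _ hκpos
  have hinv : ∑ t ∈ Ico t0 (t0 + i2 + 1), (((t : ℝ)) ^ 2)⁻¹ ≤ 2 / t0 := by
    have h1 : Ico t0 (t0 + i2 + 1) = Ioo (t0 - 1) (t0 + i2 + 1) := by
      ext t
      rw [Finset.mem_Ico, Finset.mem_Ioo]
      omega
    rw [h1]
    refine (sum_Ioo_inv_sq_le (α := ℝ) (t0 - 1) (t0 + i2 + 1)).trans ?_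
    rw [Nat.cast_sub (by omega)]
    push_cast
    rw [sub_add_cancel]
  calc ∑ i ∈ Icc (ii1 Y) i2, f i ≤ ∑ i ∈ Ico (t0 * κ) ((t0 + i2 + 1) * κ), f i :=
        Finset.sum_le_sum_of_subset_of_nonneg hsub fun i _ _ => hf0 i
    _ ≤ (m : ℝ) ^ 2 * (9 * (k : ℝ) ^ 2) * ∑ t ∈ Ico t0 (t0 + i2 + 1), (((t : ℝ)) ^ 2)⁻¹ :=
        hall _ (by omega)
    _ ≤ (m : ℝ) ^ 2 * (9 * (k : ℝ) ^ 2) * (2 / t0) :=
        mul_le_mul_of_nonneg_left hinv (by positivity)
    _ ≤ 10 ^ 4 * (k : ℝ) ^ 2 * (m : ℝ) ^ 2 / (Y : ℝ) ^ 16 := by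
      have h1 : ((Y ^ 16 : ℕ) : ℝ) ≤ 9 * t0 := by exact_mod_cast ht0low
      push_cast at h1
      have h2 : (0 : ℝ) < t0 := by
        have : 0 < t0 := by omega
        exact_mod_cast this
      have hYr : (0 : ℝ) < (Y : ℝ) ^ 16 := by
        have : (0 : ℝ) < Y := by exact_mod_cast (by omega : 0 < Y)
        positivity
      rw [le_div_iff₀ hYr, mul_div_assoc', div_mul_eq_mul_div, div_le_iff₀ h2]
      have h3 : 0 ≤ (m : ℝ) ^ 2 * (k : ℝ) ^ 2 := by positivity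
      nlinarith [mul_le_mul_of_nonneg_left h1 h3, mul_nonneg h3 h2.le]

end Pool.Agent.Helper59.Lit
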