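import Pool.Agent.Helper59.Lit.Flat

/-!
# Module Family: products of a fixed flat polynomial
-/

set_option autoImplicit false

namespace Pool.Agent.Helper59.Lit

open Finset

/-- the coefficients of the product of the polynomials `q(z^(m^j))`, `j < r` -/
def fam (m : ℕ) (a : ℕ → ℤ) : ℕ → ℕ → ℤ
  | 0 => fun _ => 1
  | r + 1 => fun j => fam m a r (j % m ^ r) * a (j / m ^ r)

lemma fam_sign {m : ℕ} {a : ℕ → ℤ} (ha : IsSign a) (r : ℕ) : IsSign (fam m a r) := by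
  induction r with
  | zero => intro j; left; rfl
  | succ r ih =>
    intro j
    change fam m a r (j % m ^ r) * a (j / m ^ r) = 1 ∨ fam m a r (j % m ^ r) * a (j / m ^ r) = -1
    rcases ih (j % m ^ r) with h1 | h1 <;> rcases ha (j / m ^ r) with h2 | h2 <;>
      rw [h1, h2] <;> simp

lemma sv_mul {L : ℕ} (hL : 0 < L) (be a : ℕ → ℤ) (m : ℕ) (s : ℂ) :
    sv (L * m) (fun j => be (j % L) * a (j / L)) s = sv L be s * sv m a ((L : ℂ) * s) := by
  induction m with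
  | zero => simp [sv, rv]
  | succ m ih =>
    have h1 : sv (L * (m + 1)) (fun j => be (j % L) * a (j / L)) s =
        sv (L * m) (fun j => be (j % L) * a (j / L)) s +
        ∑ j ∈ range L, (((be ((L * m + j) % L) * a ((L * m + j) / L) : ℤ) : ℝ) : ℂ) *
          Complex.exp (Complex.I * ((L * m + j : ℕ) : ℂ) * s) := by
      rw [Nat.mul_succ]
      exact Finset.sum_range_add _ _ _
    have h2 : sv (m + 1) a ((L : ℂ) * s) = sv m a ((L : ℂ) * s) +
        ((a m : ℝ) : ℂ) * Complex.exp (Complex.I * (m : ℂ) * ((L : ℂ) * s)) :=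
      Finset.sum_range_succ _ _
    rw [h1, h2, ih, mul_add]
    congr 1
    have h3 : sv L be s = ∑ j ∈ range L, ((be j : ℝ) : ℂ) *
        Complex.exp (Complex.I * (j : ℂ) * s) := rfl
    rw [h3, Finset.sum_mul]
    apply Finset.sum_congr rfl
    intro j hj
    have hj' := Finset.mem_range.1 hj
    have h4 : (L * m + j) % L = j := by
      rw [Nat.mul_add_mod, Nat.mod_eq_of_lt hj']
    have h5 : (L * m + j) / L = m := by
      rw [Nat.mul_add_div hL, Nat.div_eq_of_lt hj', add_zero]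
    rw [h4, h5]
    have h6 : Complex.exp (Complex.I * ((L * m + j : ℕ) : ℂ) * s) =
        Complex.exp (Complex.I * (j : ℂ) * s) *
          Complex.exp (Complex.I * (m : ℂ) * ((L : ℂ) * s)) := by
      rw [← Complex.exp_add]
      congr 1
      push_cast
      ring
    rw [h6]
    push_cast
    ring

lemma sv_fam_zero (m : ℕ) (a : ℕ → ℤ) (s : ℂ) : sv (m ^ 0) (fam m a 0) s = 1 := by
  simp [sv, rv, fam]

lemma sv_fam_succ {m : ℕ} (hm : 0 < m) (a : ℕ → ℤ) (r : ℕ) (s : ℂ) :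
    sv (m ^ (r + 1)) (fam m a (r + 1)) s =
      sv (m ^ r) (fam m a r) s * sv m a ((m : ℂ) ^ r * s) := by
  have h := sv_mul (pow_pos hm r) (fam m a r) a m s
  rw [pow_succ]
  have h2 : fam m a (r + 1) = fun j => fam m a r (j % m ^ r) * a (j / m ^ r) := rfl
  rw [h2, h]
  push_cast
  rfl

lemma exp_sub_one_le (w : ℂ) : ‖Complex.exp w - 1‖ ≤ ‖w‖ * Real.exp ‖w‖ := by
  have h1 : ‖Complex.exp w - 1‖ ≤ Real.exp ‖w‖ - 1 := by
    have := Complex.norm_exp_sub_sum_le_exp_norm_sub_sum w 1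
    simpa using this
  have h2 : Real.exp ‖w‖ - 1 ≤ ‖w‖ * Real.exp ‖w‖ := by
    have h3 : 1 - ‖w‖ ≤ Real.exp (-‖w‖) := by
      have := Real.add_one_le_exp (-‖w‖)
      linarith
    have h4 : Real.exp (-‖w‖) * Real.exp ‖w‖ = 1 := by
      rw [← Real.exp_add]; simp
    nlinarith [Real.exp_pos ‖w‖]
  exact h1.trans h2

/-- Lipschitz bound of the fixed polynomial. -/
lemma sv_lip {a : ℕ → ℤ} (ha : IsSign a) (m : ℕ) (θ : ℝ) (z : ℂ)
    (hz : ‖z‖ ≤ 1 ∨ z.im = 0) :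
    ‖sv m a ((θ : ℂ) + z) - sv m a (θ : ℂ)‖ ≤ ((m : ℝ) ^ 2 * Real.exp m) * ‖z‖ := by
  have h1 : sv m a ((θ : ℂ) + z) - sv m a (θ : ℂ) =
      ∑ j ∈ range m, ((a j : ℝ) : ℂ) * Complex.exp (Complex.I * (j : ℂ) * θ) *
        (Complex.exp (Complex.I * (j : ℂ) * z) - 1) := by
    simp only [sv, rv]
    rw [← Finset.sum_sub_distrib]
    apply Finset.sum_congr rfl
    intro j _
    have : Complex.exp (Complex.I * (j : ℂ) * ((θ : ℂ) + z)) =
        Complex.exp (Complex.I * (j : ℂ) * θ) * Complex.exp (Complex.I * (j : ℂ) * z) := by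
      rw [← Complex.exp_add]
      congr 1
      ring
    rw [this]
    ring
  rw [h1]
  refine (norm_sum_le _ _).trans ?_
  have h2 : ∀ j ∈ range m, ‖((a j : ℝ) : ℂ) * Complex.exp (Complex.I * (j : ℂ) * θ) *
        (Complex.exp (Complex.I * (j : ℂ) * z) - 1)‖ ≤ (m : ℝ) * Real.exp m * ‖z‖ := by
    intro j hj
    have hj' : (j : ℝ) ≤ m := by exact_mod_cast (Finset.mem_range.1 hj).le
    have hj0 : (0 : ℝ) ≤ j := Nat.cast_nonneg j
    have ha1 : ‖((a j : ℝ) : ℂ)‖ = 1 := by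
      rcases ha j with h | h <;> rw [h] <;> simp
    have he1 : ‖Complex.exp (Complex.I * (j : ℂ) * θ)‖ = 1 := by
      rw [Complex.norm_exp]
      simp
    rw [norm_mul, norm_mul, ha1, he1, one_mul, one_mul]
    have hexp1 : 1 ≤ Real.exp (m : ℝ) := Real.one_le_exp (Nat.cast_nonneg m)
    have key : ‖Complex.exp (Complex.I * (j : ℂ) * z) - 1‖ ≤ (j : ℝ) * ‖z‖ * Real.exp m := by
      rcases hz with hz | hz
      · refine (exp_sub_one_le _).trans ?_
        have hn : ‖Complex.I * (j : ℂ) * z‖ = j * ‖z‖ := by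
          rw [norm_mul, norm_mul, Complex.norm_I, one_mul, Complex.norm_natCast]
        rw [hn]
        apply mul_le_mul_of_nonneg_left _ (by positivity)
        apply Real.exp_le_exp.2
        calc (j : ℝ) * ‖z‖ ≤ j * 1 := by gcongr
          _ ≤ m := by linarith
      · have hzr : z = (z.re : ℂ) := by
          apply Complex.ext <;> simp [hz]
        have h5 : Complex.exp (Complex.I * (j : ℂ) * z) =
            Complex.exp (((j * z.re : ℝ) : ℂ) * Complex.I) := by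
          congr 1
          rw [hzr]
          push_cast
          simp
          ring
        have h6 : ‖z‖ = |z.re| := by
          conv_lhs => rw [hzr]
          rw [Complex.norm_real, Real.norm_eq_abs]
        have h7 : ‖Complex.exp (((j * z.re : ℝ) : ℂ) * Complex.I) - 1‖ ≤ |(j : ℝ) * z.re| := by
          have := Real.norm_exp_I_mul_ofReal_sub_one_le (x := (j : ℝ) * z.re)
          rw [mul_comm Complex.I] at this
          simpa using this
        rw [h5, h6]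
        refine h7.trans ?_
        rw [abs_mul, abs_of_nonneg hj0]
        nlinarith [mul_nonneg hj0 (abs_nonneg z.re)]
    refine key.trans ?_
    have : (j : ℝ) * ‖z‖ * Real.exp m ≤ m * ‖z‖ * Real.exp m := by
      gcongr
    linarith
  refine (Finset.sum_le_sum h2).trans ?_
  rw [Finset.sum_const, Finset.card_range, nsmul_eq_mul]
  apply le_of_eq
  ring

/-- exponential regularity of the products -/
lemma fam_exp_reg {m : ℕ} (hm : 2 ≤ m) {a : ℕ → ℤ} (ha : IsSign a)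
    (hq : ∀ θ : ℝ, 1 ≤ ‖sv m a (θ : ℂ)‖) (r : ℕ) (θ : ℝ) (z : ℂ)
    (hz : (m : ℝ) ^ r * ‖z‖ ≤ 1 ∨ z.im = 0) :
    ‖sv (m ^ r) (fam m a r) ((θ : ℂ) + z)‖ ≤
      Real.exp (2 * ((m : ℝ) ^ 2 * Real.exp m) * ((m : ℝ) ^ r * ‖z‖)) *
        ‖sv (m ^ r) (fam m a r) (θ : ℂ)‖ := by
  have hm1 : (2 : ℝ) ≤ m := by exact_mod_cast hm
  have hm0 : 0 < m := by omega
  induction r with
  | zero =>
    rw [sv_fam_zero, sv_fam_zero, norm_one, mul_one]
    apply Real.one_le_exp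
    positivity
  | succ r ih =>
    set Cq : ℝ := (m : ℝ) ^ 2 * Real.exp m with hCq
    have hCq0 : 0 ≤ Cq := by positivity
    set d : ℝ := (m : ℝ) ^ r * ‖z‖ with hd
    have hd0 : 0 ≤ d := by positivity
    have hdm : (m : ℝ) ^ (r + 1) * ‖z‖ = m * d := by rw [hd, pow_succ]; ring
    have hz' : d ≤ 1 ∨ z.im = 0 := by
      rcases hz with hz | hz
      · left
        rw [hdm] at hz
        nlinarith
      · right; exact hz
    have ih' := ih hz'
    rw [sv_fam_succ hm0, sv_fam_succ hm0, norm_mul, norm_mul, hdm]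
    have h1 : ((m : ℂ) ^ r * ((θ : ℂ) + z)) = (((m : ℝ) ^ r * θ : ℝ) : ℂ) + (m : ℂ) ^ r * z := by
      push_cast; ring
    have h1' : ((m : ℂ) ^ r * (θ : ℂ)) = (((m : ℝ) ^ r * θ : ℝ) : ℂ) := by push_cast; ring
    have hnz : ‖(m : ℂ) ^ r * z‖ = d := by
      rw [norm_mul, norm_pow, Complex.norm_natCast]
    have hlip := sv_lip ha m ((m : ℝ) ^ r * θ) ((m : ℂ) ^ r * z) (by
      rcases hz' with h | h
      · left; rw [hnz]; exact h
      · right
        have : ((m : ℂ) ^ r) = (((m : ℝ) ^ r : ℝ) : ℂ) := by push_cast; rfl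
        rw [this, Complex.im_ofReal_mul, h, mul_zero])
    rw [h1, h1']
    rw [hnz] at hlip
    set Q := ‖sv m a (((m : ℝ) ^ r * θ : ℝ) : ℂ)‖ with hQ
    have hQ1 : 1 ≤ Q := hq _
    have h2 : ‖sv m a ((((m : ℝ) ^ r * θ : ℝ) : ℂ) + (m : ℂ) ^ r * z)‖ ≤
        Real.exp (Cq * d) * Q := by
      have h3 := norm_le_norm_sub_add (sv m a ((((m : ℝ) ^ r * θ : ℝ) : ℂ) + (m : ℂ) ^ r * z))
        (sv m a (((m : ℝ) ^ r * θ : ℝ) : ℂ))
      have h4 : 1 + Cq * d ≤ Real.exp (Cq * d) := by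
        have := Real.add_one_le_exp (Cq * d)
        linarith
      have h5 : 0 ≤ Cq * d := by positivity
      calc ‖sv m a ((((m : ℝ) ^ r * θ : ℝ) : ℂ) + (m : ℂ) ^ r * z)‖ ≤ Cq * d + Q := by
            linarith
        _ ≤ (1 + Cq * d) * Q := by nlinarith
        _ ≤ Real.exp (Cq * d) * Q := by gcongr
    have h6 : Real.exp (2 * Cq * d) * Real.exp (Cq * d) ≤ Real.exp (2 * Cq * (m * d)) := by
      rw [← Real.exp_add]
      apply Real.exp_le_exp.2
      have : 0 ≤ Cq * d := by positivity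
      nlinarith
    set B := ‖sv (m ^ r) (fam m a r) (θ : ℂ)‖ with hB
    have hB0 : 0 ≤ B := norm_nonneg _
    have hQ0 : 0 ≤ Q := norm_nonneg _
    calc ‖sv (m ^ r) (fam m a r) ((θ : ℂ) + z)‖ *
          ‖sv m a ((((m : ℝ) ^ r * θ : ℝ) : ℂ) + (m : ℂ) ^ r * z)‖
        ≤ (Real.exp (2 * Cq * d) * B) * (Real.exp (Cq * d) * Q) := by gcongr
      _ = (Real.exp (2 * Cq * d) * Real.exp (Cq * d)) * (B * Q) := by ring
      _ ≤ Real.exp (2 * Cq * (m * d)) * (B * Q) := by gcongr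

lemma ratio_le {m : ℕ} (hm : 2 ≤ m) {x y : ℝ} (hy0 : 0 ≤ y)
    (hx : x ^ 512 ≤ (m : ℝ) ^ 257) (hy : (m : ℝ) ^ 255 ≤ y ^ 512) :
    x ≤ ((m : ℝ) + 1) / 2 * y := by
  have hm1 : (2 : ℝ) ≤ m := by exact_mod_cast hm
  have h1 : (m : ℝ) ≤ (((m : ℝ) + 1) / 2) ^ 2 := by nlinarith [sq_nonneg ((m : ℝ) - 1)]
  have h2 : (m : ℝ) ^ 2 ≤ (((m : ℝ) + 1) / 2) ^ 512 := by
    have h3 : (m : ℝ) ^ 256 ≤ (((m : ℝ) + 1) / 2) ^ 512 := by
      calc (m : ℝ) ^ 256 ≤ ((((m : ℝ) + 1) / 2) ^ 2) ^ 256 := by gcongr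
        _ = (((m : ℝ) + 1) / 2) ^ 512 := by rw [← pow_mul]
    have h4 : (m : ℝ) ^ 2 ≤ (m : ℝ) ^ 256 := pow_le_pow_right₀ (by linarith) (by norm_num)
    exact h4.trans h3
  have h5 : x ^ 512 ≤ (((m : ℝ) + 1) / 2 * y) ^ 512 := by
    rw [mul_pow]
    calc x ^ 512 ≤ (m : ℝ) ^ 257 := hx
      _ = (m : ℝ) ^ 2 * (m : ℝ) ^ 255 := by ring
      _ ≤ (((m : ℝ) + 1) / 2) ^ 512 * y ^ 512 := by
        apply mul_le_mul h2 hy (by positivity) (by positivity)
  exact le_of_pow_le_pow_left₀ (by norm_num) (by positivity) h5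

lemma fam_poly {m : ℕ} (hm : 2 ≤ m) {a : ℕ → ℤ} (ha : IsSign a)
    (hq : ∀ θ : ℝ, 1 ≤ ‖sv m a (θ : ℂ)‖)
    (hb : ∀ θ : ℝ, (m : ℝ) ^ 255 ≤ ‖sv m a (θ : ℂ)‖ ^ 512 ∧
      ‖sv m a (θ : ℂ)‖ ^ 512 ≤ (m : ℝ) ^ 257) (r : ℕ) (θ θ' : ℝ) :
    ‖sv (m ^ r) (fam m a r) (θ' : ℂ)‖ ≤
      Real.exp (2 * ((m : ℝ) ^ 2 * Real.exp m) * m) * (1 + (m : ℝ) ^ r * |θ - θ'|) *
        ‖sv (m ^ r) (fam m a r) (θ : ℂ)‖ := by
  have hm1 : (2 : ℝ) ≤ m := by exact_mod_cast hm
  have hm0 : 0 < m := by omega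
  set C0 : ℝ := Real.exp (2 * ((m : ℝ) ^ 2 * Real.exp m) * m) with hC0
  have hC01 : 1 ≤ C0 := Real.one_le_exp (by positivity)
  induction r with
  | zero =>
    rw [sv_fam_zero, sv_fam_zero, norm_one, mul_one]
    have : 0 ≤ (m : ℝ) ^ 0 * |θ - θ'| := by positivity
    nlinarith
  | succ r ih =>
    by_cases hcase : (m : ℝ) ^ (r + 1) * |θ - θ'| ≤ m
    · have h1 := fam_exp_reg hm ha hq (r + 1) θ ((θ' - θ : ℝ) : ℂ) (Or.inr (by simp))
      have h2 : (θ : ℂ) + ((θ' - θ : ℝ) : ℂ) = (θ' : ℂ) := by push_cast; ring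
      rw [h2] at h1
      have h3 : ‖((θ' - θ : ℝ) : ℂ)‖ = |θ - θ'| := by
        rw [Complex.norm_real, Real.norm_eq_abs, abs_sub_comm]
      rw [h3] at h1
      refine h1.trans ?_
      apply mul_le_mul_of_nonneg_right _ (norm_nonneg _)
      have h4 : Real.exp (2 * ((m : ℝ) ^ 2 * Real.exp m) * ((m : ℝ) ^ (r + 1) * |θ - θ'|)) ≤
          C0 := by
        apply Real.exp_le_exp.2
        gcongr
      have h5 : 0 ≤ (m : ℝ) ^ (r + 1) * |θ - θ'| := by positivity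
      nlinarith
    · push Not at hcase
      set d : ℝ := (m : ℝ) ^ r * |θ - θ'| with hd
      have hdm : (m : ℝ) ^ (r + 1) * |θ - θ'| = m * d := by rw [hd, pow_succ]; ring
      rw [hdm] at hcase ⊢
      have hd1 : 1 < d := by
        by_contra hcon
        push Not at hcon
        nlinarith
      rw [sv_fam_succ hm0, sv_fam_succ hm0, norm_mul, norm_mul]
      have e1 : ((m : ℂ) ^ r * (θ : ℂ)) = (((m : ℝ) ^ r * θ : ℝ) : ℂ) := by push_cast; ring
      have e2 : ((m : ℂ) ^ r * (θ' : ℂ)) = (((m : ℝ) ^ r * θ' : ℝ) : ℂ) := by push_cast; ring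
      rw [e1, e2]
      have hr := ratio_le hm (norm_nonneg _) (hb ((m : ℝ) ^ r * θ')).2
        (hb ((m : ℝ) ^ r * θ)).1
      set Q := ‖sv m a (((m : ℝ) ^ r * θ : ℝ) : ℂ)‖ with hQ
      set Q' := ‖sv m a (((m : ℝ) ^ r * θ' : ℝ) : ℂ)‖ with hQ'
      set B := ‖sv (m ^ r) (fam m a r) (θ : ℂ)‖ with hB
      set B' := ‖sv (m ^ r) (fam m a r) (θ' : ℂ)‖ with hB'
      have hB0 : 0 ≤ B := norm_nonneg _
      have hQ0 : 0 ≤ Q := norm_nonneg _
      have hQ0' : 0 ≤ Q' := norm_nonneg _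
      calc B' * Q' ≤ (C0 * (1 + d) * B) * (((m : ℝ) + 1) / 2 * Q) := by
            apply mul_le_mul ih hr hQ0' (by positivity)
        _ = C0 * ((1 + d) * (((m : ℝ) + 1) / 2)) * (B * Q) := by ring
        _ ≤ C0 * (1 + m * d) * (B * Q) := by
            apply mul_le_mul_of_nonneg_right _ (by positivity)
            apply mul_le_mul_of_nonneg_left _ (by positivity)
            nlinarith

lemma fam_bounds {m : ℕ} (hm : 2 ≤ m) {a : ℕ → ℤ}
    (hb : ∀ θ : ℝ, (m : ℝ) ^ 255 ≤ ‖sv m a (θ : ℂ)‖ ^ 512 ∧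
      ‖sv m a (θ : ℂ)‖ ^ 512 ≤ (m : ℝ) ^ 257) (r : ℕ) (θ : ℝ) :
    ((m : ℝ) ^ r) ^ 255 ≤ ‖sv (m ^ r) (fam m a r) (θ : ℂ)‖ ^ 512 ∧
      ‖sv (m ^ r) (fam m a r) (θ : ℂ)‖ ^ 512 ≤ ((m : ℝ) ^ r) ^ 257 := by
  have hm0 : 0 < m := by omega
  induction r with
  | zero =>
    rw [sv_fam_zero]; simp
  | succ r ih =>
    rw [sv_fam_succ hm0, norm_mul, mul_pow]
    have e1 : ((m : ℂ) ^ r * (θ : ℂ)) = (((m : ℝ) ^ r * θ : ℝ) : ℂ) := by push_cast; ring
    rw [e1]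
    have hb' := hb ((m : ℝ) ^ r * θ)
    have e3 : ∀ k : ℕ, ((m : ℝ) ^ (r + 1)) ^ k = ((m : ℝ) ^ r) ^ k * (m : ℝ) ^ k := by
      intro k
      rw [pow_succ, mul_pow]
    rw [e3, e3]
    constructor
    · exact mul_le_mul ih.1 hb'.1 (by positivity) (by positivity)
    · exact mul_le_mul ih.2 hb'.2 (by positivity) (by positivity)

theorem family_exists : ∃ m : ℕ, 2 ≤ m ∧ ∃ L0 C0 : ℝ, 1 ≤ L0 ∧ 1 ≤ C0 ∧
    ∀ r : ℕ, ∃ be : ℕ → ℤ, FlatB L0 C0 (m ^ r) be := by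
  obtain ⟨m, hm, a, ha, hb⟩ := flat_exists
  have hm0 : 0 < m := by omega
  have hmR : (1 : ℝ) ≤ m := by exact_mod_cast hm0
  have hq : ∀ θ : ℝ, 1 ≤ ‖sv m a (θ : ℂ)‖ := by
    intro θ
    by_contra hcon
    push Not at hcon
    have h1 : ‖sv m a (θ : ℂ)‖ ^ 512 < 1 := pow_lt_one₀ (norm_nonneg _) hcon (by norm_num)
    have h2 : (1 : ℝ) ≤ (m : ℝ) ^ 255 := one_le_pow₀ hmR
    linarith [(hb θ).1]
  refine ⟨m, hm, Real.exp (2 * ((m : ℝ) ^ 2 * Real.exp m)),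
    Real.exp (2 * ((m : ℝ) ^ 2 * Real.exp m) * m), Real.one_le_exp (by positivity),
    Real.one_le_exp (by positivity), ?_⟩
  intro r
  refine ⟨fam m a r, fam_sign ha r, ?_, ?_, ?_, ?_⟩
  · intro θ z hz
    have hpow : (0 : ℝ) < (m : ℝ) ^ r := by positivity
    have hn : (m : ℝ) ^ r * ‖z / ((m ^ r : ℕ) : ℂ)‖ = ‖z‖ := by
      rw [norm_div]
      push_cast
      rw [norm_pow, Complex.norm_natCast]
      field_simp
    have h1 := fam_exp_reg hm ha hq r θ (z / ((m ^ r : ℕ) : ℂ)) (Or.inl (by rw [hn]; exact hz))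
    rw [hn] at h1
    refine h1.trans ?_
    apply mul_le_mul_of_nonneg_right _ (norm_nonneg _)
    apply Real.exp_le_exp.2
    have : 0 ≤ 2 * ((m : ℝ) ^ 2 * Real.exp m) := by positivity
    nlinarith
  · intro θ θ'
    have h1 := fam_poly hm ha hq hb r θ θ'
    push_cast
    exact h1
  · intro θ
    have h1 := (fam_bounds hm hb r θ).1
    push_cast
    exact h1
  · intro θ
    have h1 := (fam_bounds hm hb r θ).2
    push_cast
    exact h1

end Pool.Agent.Helper59.Lit
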