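import Pool.Agent.Helper59.Lit.Stage
import Pool.Agent.Helper59.Lit.Family

/-!
# Module Final: from the induction step to the answer
-/

set_option autoImplicit false

namespace Pool.Agent.Helper59.Lit

open Finset

theorem good_mono {La La' L1 C1 : ℝ} {k Y : ℕ} {a : ℕ → ℤ} (h : La ≤ La')
    (hg : Good La L1 C1 k Y a) : Good La' L1 C1 k Y a := by
  refine ⟨hg.sign, fun θ => ?_, hg.lower, hg.poly, hg.nice⟩
  obtain ⟨lam, h1, h2⟩ := hg.reg θ
  exact ⟨lam, h1, fun z hz => le_trans (h2 z hz) (mul_le_mul_of_nonneg_right h (norm_nonneg _))⟩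

/-- the induction start -/
theorem good_start (L0 C0 : ℝ) (hL0 : 1 ≤ L0) (hC0 : 1 ≤ C0) (Y : ℕ) (hY : 2 ≤ Y) (be : ℕ → ℤ)
    (hbe : FlatB L0 C0 (Y ^ 64) be) : Good L0 (4 * L0) (4 * C0) 1 Y be := by
  have h1 : 1 * Y ^ 64 = Y ^ 64 := one_mul _
  have hc : ((Y ^ 64 : ℕ) : ℂ) = (Y : ℂ) ^ 64 := by push_cast; rfl
  have hcr : ((Y ^ 64 : ℕ) : ℝ) = (Y : ℝ) ^ 64 := by push_cast; rfl
  have hYR : (2 : ℝ) ≤ Y := by exact_mod_cast hY
  have hn : ∀ θ : ℝ, 0 ≤ ‖sv (Y ^ 64) be (θ : ℂ)‖ := fun θ => norm_nonneg _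
  refine ⟨hbe.sign, fun θ => ⟨0, by simp, fun z hz => ?_⟩, fun θ => ?_, fun θ θ' _ _ => ?_,
    fun θ _ z hz => ?_⟩
  · rw [h1]
    have := hbe.reg θ z hz
    rw [hc] at this
    simpa using this
  · rw [h1]
    have h2 := hbe.lower θ
    rw [hcr] at h2
    by_contra hlt
    push Not at hlt
    have h3 : ‖sv (Y ^ 64) be (θ : ℂ)‖ ^ 512 ≤ ((Y : ℝ) ^ 30) ^ 512 :=
      pow_le_pow_left₀ (hn θ) hlt.le 512
    have h4 : ((Y : ℝ) ^ 30) ^ 512 < ((Y : ℝ) ^ 64) ^ 255 := by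
      rw [← pow_mul, ← pow_mul]
      exact pow_lt_pow_right₀ (by linarith) (by norm_num)
    linarith
  · rw [h1]
    have h2 := hbe.poly θ θ'
    rw [hcr] at h2
    refine le_trans h2 ?_
    apply mul_le_mul_of_nonneg_right _ (hn θ)
    have hYp : 0 ≤ (Y : ℝ) ^ 64 := pow_nonneg (Nat.cast_nonneg Y) _
    have h3 := mul_nonneg hYp (abs_nonneg (θ - θ'))
    nlinarith
  · rw [h1]
    have := hbe.reg θ z hz
    rw [hc] at this
    have e : Complex.exp (-(Complex.I * (((1 : ℕ) : ℂ) - 1) * z)) = 1 := by simp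
    rw [e, one_mul]
    refine le_trans this ?_
    have := hn θ
    nlinarith

/-- uniform regularity for arbitrarily many windows -/
theorem many_windows : ∃ La : ℝ, 1 ≤ La ∧ ∀ K : ℕ, 1 ≤ K → ∃ (Y : ℕ) (a : ℕ → ℤ) (L1 C1 : ℝ),
    2 ≤ Y ∧ Good La L1 C1 K Y a := by
  obtain ⟨m, hm, L0, C0, hL0, hC0, hfam⟩ := family_exists
  obtain ⟨Ls, hLs, hst⟩ := stage L0 C0 hL0 hC0
  set M : ℝ := max Ls L0 with hM
  have hM1 : 1 ≤ M := le_trans hLs (le_max_left _ _)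
  -- bound for `k` windows
  set B : ℕ → ℝ := fun k => M * (3 - 1 / 2 ^ k) with hB
  have hB1 : ∀ k, 1 ≤ B k := by
    intro k
    have : (1 : ℝ) / 2 ^ k ≤ 1 := by
      rw [div_le_one (by positivity)]; exact one_le_pow₀ (by norm_num)
    simp only [hB]; nlinarith
  -- choose ep with B k * (1 + ep) ≤ B (k+1)
  have hep : ∀ k, B k * (1 + 1 / (2 ^ (k + 1) * 3)) ≤ B (k + 1) := by
    intro k
    simp only [hB]
    have h2 : (0 : ℝ) < 1 / 2 ^ k := by positivity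
    have e1 : (1 : ℝ) / (2 ^ (k + 1) * 3) = (1 / 2 ^ k) / 6 := by
      rw [pow_succ]; field_simp; norm_num
    have e2 : (1 : ℝ) / 2 ^ (k + 1) = (1 / 2 ^ k) / 2 := by
      rw [pow_succ]; field_simp
    rw [e1, e2]
    nlinarith [mul_pos (lt_of_lt_of_le one_pos hM1) h2, sq_nonneg ((1 : ℝ) / 2 ^ k),
      mul_nonneg (le_trans zero_le_one hM1) (sq_nonneg ((1 : ℝ) / 2 ^ k))]
  -- thresholds
  have hthr : ∀ k : ℕ, ∃ Y0 : ℕ, 1 ≤ k → ∀ Y : ℕ, Y0 ≤ Y → ∀ (be a : ℕ → ℤ),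
      FlatB L0 C0 (Y ^ 256) be → Good (B k) (4 * L0) (4 * C0) k Y a →
      ∃ a' : ℕ → ℤ, Good (B (k + 1)) (4 * L0) (4 * C0) (k + 1) (Y ^ 4) a' := by
    intro k
    rcases Nat.lt_or_ge k 1 with hk | hk
    · exact ⟨0, fun h => absurd h (by omega)⟩
    · obtain ⟨Y0, hY0⟩ := hst k (B k) (1 / (2 ^ (k + 1) * 3)) hk (hB1 k) (by positivity)
      refine ⟨Y0, fun _ Y hY be a hbe hg => ?_⟩
      obtain ⟨a', ha'⟩ := hY0 Y hY be a hbe hg
      refine ⟨a', good_mono (max_le ?_ (hep k)) ha'⟩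
      have h1 : (1 : ℝ) / 2 ^ (k + 1) ≤ 1 := by
        rw [div_le_one (by positivity)]; exact one_le_pow₀ (by norm_num)
      have h2 : Ls ≤ M := le_max_left _ _
      simp only [hB]
      nlinarith
  choose Y0 hY0 using hthr
  refine ⟨3 * M, by linarith, fun K hK => ?_⟩
  -- a start exponent beating all thresholds below K
  obtain ⟨s, hs⟩ : ∃ s : ℕ, ∀ k, k < K → Y0 k ≤ m ^ s := by
    refine ⟨∑ k ∈ range K, Y0 k, fun k hk => ?_⟩
    have h1 : Y0 k ≤ ∑ k ∈ range K, Y0 k :=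
      Finset.single_le_sum (f := Y0) (fun _ _ => Nat.zero_le _) (Finset.mem_range.mpr hk)
    exact le_trans h1 (Nat.le_of_lt (Nat.lt_pow_self (by omega)))
  have hind : ∀ k : ℕ, 1 ≤ k → k ≤ K → ∃ a : ℕ → ℤ,
      Good (B k) (4 * L0) (4 * C0) k (m ^ ((s + 1) * 4 ^ (k - 1))) a := by
    intro k hk
    induction k, hk using Nat.le_induction with
    | base =>
      intro _
      obtain ⟨be, hbe⟩ := hfam ((s + 1) * 64)
      refine ⟨be, ?_⟩
      have e : m ^ ((s + 1) * 4 ^ (1 - 1)) = m ^ (s + 1) := by simp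
      rw [e]
      have hY2 : 2 ≤ m ^ (s + 1) := by
        calc 2 ≤ m := hm
          _ = m ^ 1 := (pow_one m).symm
          _ ≤ m ^ (s + 1) := Nat.pow_le_pow_right (by omega) (by omega)
      have := good_start L0 C0 hL0 hC0 (m ^ (s + 1)) hY2 be (by rw [← pow_mul]; exact hbe)
      refine good_mono ?_ this
      have h2 : L0 ≤ M := le_max_right _ _
      simp only [hB]
      nlinarith
    | succ k hk ih =>
      intro hkK
      obtain ⟨a, ha⟩ := ih (by omega)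
      obtain ⟨be, hbe⟩ := hfam ((s + 1) * 4 ^ (k - 1) * 256)
      have hge : Y0 k ≤ m ^ ((s + 1) * 4 ^ (k - 1)) := by
        refine le_trans (hs k (by omega)) (Nat.pow_le_pow_right (by omega) ?_)
        have : 1 ≤ 4 ^ (k - 1) := Nat.one_le_pow _ _ (by norm_num)
        nlinarith
      obtain ⟨a', ha'⟩ := hY0 k hk _ hge be a (by rw [← pow_mul]; exact hbe) ha
      refine ⟨a', ?_⟩
      have e : (m ^ ((s + 1) * 4 ^ (k - 1))) ^ 4 = m ^ ((s + 1) * 4 ^ (k + 1 - 1)) := by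
        rw [← pow_mul]
        congr 1
        have : 4 ^ (k + 1 - 1) = 4 ^ (k - 1) * 4 := by
          rw [← pow_succ]; congr 1; omega
        rw [this]; ring
      rw [← e]
      exact ha'
  obtain ⟨a, ha⟩ := hind K hK le_rfl
  refine ⟨m ^ ((s + 1) * 4 ^ (K - 1)), a, 4 * L0, 4 * C0, ?_, ?_⟩
  · calc 2 ≤ m := hm
      _ = m ^ 1 := (pow_one m).symm
      _ ≤ _ := Nat.pow_le_pow_right (by omega) (by
          have : 1 ≤ 4 ^ (K - 1) := Nat.one_le_pow _ _ (by norm_num)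
          nlinarith)
  · refine good_mono ?_ ha
    have : (0 : ℝ) < 1 / 2 ^ K := by positivity
    simp only [hB]
    nlinarith

/-- `sv` at `-i log z` is the polynomial at `z` -/
theorem sv_eq_poly (n : ℕ) (a : ℕ → ℤ) (s z : ℂ) (hz : Complex.exp (Complex.I * s) = z) :
    sv n a s = ∑ j ∈ range n, ((a j : ℤ) : ℂ) * z ^ j := by
  unfold sv rv
  refine Finset.sum_congr rfl fun j _ => ?_
  rw [← hz, ← Complex.exp_nat_mul]
  push_cast
  congr 2
  ring

theorem sv_differentiable (n : ℕ) (a : ℕ → ℤ) : Differentiable ℂ (sv n a) := by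
  unfold sv rv
  fun_prop

/-- no zero near the circle -/
theorem no_zero {La L1 C1 : ℝ} {K Y : ℕ} {a : ℕ → ℤ} (hLa : 1 ≤ La) (hY : 2 ≤ Y)
    (hg : Good La L1 C1 K Y a) (θ : ℝ) (z : ℂ) (hz : ‖z‖ < 1 / (2 * (1 + La))) :
    sv (K * Y ^ 64) a ((θ : ℂ) + z / ((Y : ℂ) ^ 64)) ≠ 0 := by
  obtain ⟨lam, hlam, hreg⟩ := hg.reg θ
  have hlow := hg.lower θ
  have hYR : (2 : ℝ) ≤ Y := by exact_mod_cast hY
  have hpos : 0 < ‖sv (K * Y ^ 64) a (θ : ℂ)‖ := by
    have : (0 : ℝ) < (Y : ℝ) ^ 30 := by positivity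
    linarith
  set f : ℂ → ℂ := fun w => Complex.exp (-(Complex.I * (lam : ℂ) * w)) *
    sv (K * Y ^ 64) a ((θ : ℂ) + w / ((Y : ℂ) ^ 64)) with hf
  have hfd : Differentiable ℂ f := by
    have h1 : Differentiable ℂ (fun w : ℂ => Complex.exp (-(Complex.I * (lam : ℂ) * w))) := by
      fun_prop
    have h2 : Differentiable ℂ (fun w : ℂ => (θ : ℂ) + w / ((Y : ℂ) ^ 64)) := by fun_prop
    exact h1.mul ((sv_differentiable _ _).comp h2)
  have h0 : f 0 = sv (K * Y ^ 64) a (θ : ℂ) := by simp [hf]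
  have hlip := lip_of_bound f hfd 0 1 (La * ‖sv (K * Y ^ 64) a (θ : ℂ)‖) one_pos (by
    intro w hw
    have := hreg w hw
    simpa [hf] using this) z (by
      rw [sub_zero]
      have : 1 / (2 * (1 + La)) ≤ 1 := by
        rw [div_le_one (by linarith)]; linarith
      linarith)
  rw [sub_zero, div_one] at hlip
  intro hzero
  have hfz : f z = 0 := by simp [hf, hzero]
  rw [hfz, zero_sub, norm_neg, h0] at hlip
  have h3 : 2 * (La * ‖sv (K * Y ^ 64) a (θ : ℂ)‖) * ‖z‖ <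
      ‖sv (K * Y ^ 64) a (θ : ℂ)‖ := by
    have h4 : 2 * La * ‖z‖ < 1 := by
      have h5 : 2 * (1 + La) * ‖z‖ < 1 := by
        rw [lt_div_iff₀ (by linarith)] at hz
        linarith
      nlinarith [norm_nonneg z]
    nlinarith
  linarith

/-- the negative answer -/
theorem answer : ¬ (∃ c : ℝ, 0 < c ∧
      ∀ n : ℕ, 1 ≤ n →
        ∀ a : ℕ → ℤ, (∀ j ∈ Finset.range (n + 1), a j = 1 ∨ a j = -1) →
          ∃ z : ℂ,
            (∑ j ∈ Finset.range (n + 1), ((a j : ℤ) : ℂ) * z ^ j) = 0 ∧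
            1 - c / (n : ℝ) < ‖z‖ ∧ ‖z‖ < 1 + c / (n : ℝ)) := by
  rintro ⟨c, hc, H⟩
  obtain ⟨La, hLa, hW⟩ := many_windows
  obtain ⟨K, hK⟩ := exists_nat_gt (8 * c * (1 + La) + 8 * c + 2)
  have hKpos : (0 : ℝ) < K := by
    have : 0 < 8 * c * (1 + La) + 8 * c + 2 := by positivity
    linarith
  have hK1 : 1 ≤ K := by
    have : 0 < K := by exact_mod_cast hKpos
    exact this
  obtain ⟨Y, a, L1, C1, hY, hg⟩ := hW K hK1
  have hYR : (2 : ℝ) ≤ Y := by exact_mod_cast hY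
  have hX1 : (1 : ℝ) ≤ (Y : ℝ) ^ 64 := one_le_pow₀ (by linarith)
  have hX1' : 1 ≤ Y ^ 64 := Nat.one_le_pow _ _ (by omega)
  set n : ℕ := K * Y ^ 64 - 1 with hn
  have hK2 : 2 ≤ K := by
    have : (2 : ℝ) < K := by
      have : 0 ≤ 8 * c * (1 + La) + 8 * c := by positivity
      linarith
    have : 2 < K := by exact_mod_cast this
    omega
  have hKX : 2 ≤ K * Y ^ 64 := by nlinarith
  have hn1 : n + 1 = K * Y ^ 64 := by omega
  have hn0 : 1 ≤ n := by omega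
  obtain ⟨z, hz0, hz1, hz2⟩ := H n hn0 a (fun j _ => hg.sign j)
  rw [hn1] at hz0
  have hnR : (n : ℝ) = K * (Y : ℝ) ^ 64 - 1 := by
    have : ((n + 1 : ℕ) : ℝ) = ((K * Y ^ 64 : ℕ) : ℝ) := by rw [hn1]
    push_cast at this
    linarith
  have hKX2 : (2 : ℝ) ≤ K * (Y : ℝ) ^ 64 := by exact_mod_cast hKX
  have hnR2 : (K : ℝ) * (Y : ℝ) ^ 64 / 2 ≤ n := by rw [hnR]; linarith
  have hnpos : (0 : ℝ) < n := by
    have : 0 < (K : ℝ) * (Y : ℝ) ^ 64 / 2 := by positivity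
    linarith
  -- c / n is small
  have hcn : c / n ≤ 2 * c / (K * (Y : ℝ) ^ 64) := by
    rw [div_le_div_iff₀ hnpos (by positivity)]
    nlinarith
  have hcn2 : c / n ≤ 1 / 2 := by
    refine le_trans hcn ?_
    rw [div_le_div_iff₀ (by positivity) (by norm_num)]
    have : 8 * c ≤ K := by
      have : 0 ≤ 8 * c * (1 + La) := by positivity
      linarith
    nlinarith
  have hzpos : 0 < ‖z‖ := by linarith
  have hzne : z ≠ 0 := norm_pos_iff.mp hzpos
  -- logarithm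
  have hlog : |Real.log ‖z‖| ≤ 2 * (c / n) := by
    rw [abs_le]
    constructor
    · have h1 : 1 - ‖z‖⁻¹ ≤ Real.log ‖z‖ := Real.one_sub_inv_le_log_of_pos hzpos
      have h2 : ‖z‖⁻¹ ≤ 1 + 2 * (c / n) := by
        rw [inv_le_comm₀ hzpos (by positivity)]
        have h3 : (1 + 2 * (c / n))⁻¹ ≤ 1 - c / n := by
          rw [inv_le_iff_one_le_mul₀ (by positivity)]
          have : 0 ≤ c / n := by positivity
          nlinarith
        linarith
      linarith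
    · have h1 : Real.log ‖z‖ ≤ ‖z‖ - 1 := Real.log_le_sub_one_of_pos hzpos
      have : 0 ≤ c / n := by positivity
      linarith
  set θ : ℝ := Complex.arg z with hθ
  set w : ℂ := -(Complex.I * ((Real.log ‖z‖ * (Y : ℝ) ^ 64 : ℝ) : ℂ)) with hw
  have hwn : ‖w‖ < 1 / (2 * (1 + La)) := by
    rw [hw, norm_neg, norm_mul, Complex.norm_I, one_mul, Complex.norm_real, Real.norm_eq_abs,
      abs_mul, abs_of_nonneg (by positivity : (0:ℝ) ≤ (Y : ℝ) ^ 64)]
    calc |Real.log ‖z‖| * (Y : ℝ) ^ 64 ≤ (2 * (2 * c / (K * (Y : ℝ) ^ 64))) * (Y : ℝ) ^ 64 := by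
          apply mul_le_mul_of_nonneg_right _ (by positivity)
          linarith
      _ = 4 * c / K := by field_simp; ring
      _ < 1 / (2 * (1 + La)) := by
          rw [div_lt_div_iff₀ hKpos (by linarith)]
          nlinarith
  have hnz := no_zero hLa hY hg θ w hwn
  apply hnz
  have hs : Complex.exp (Complex.I * ((θ : ℂ) + w / ((Y : ℂ) ^ 64))) = z := by
    have hYne : ((Y : ℂ) ^ 64) ≠ 0 := by
      have : (Y : ℂ) ≠ 0 := by
        exact_mod_cast (by omega : Y ≠ 0)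
      exact pow_ne_zero _ this
    have e1 : Complex.I * ((θ : ℂ) + w / ((Y : ℂ) ^ 64)) =
        ((Real.log ‖z‖ : ℝ) : ℂ) + (θ : ℂ) * Complex.I := by
      have e0 : w / ((Y : ℂ) ^ 64) = -(Complex.I * ((Real.log ‖z‖ : ℝ) : ℂ)) := by
        rw [hw, div_eq_iff hYne]
        push_cast
        ring
      rw [e0]
      have hI : Complex.I * Complex.I = -1 := Complex.I_mul_I
      linear_combination (-((Real.log ‖z‖ : ℝ) : ℂ)) * hI
    rw [e1, Complex.exp_add, ← Complex.ofReal_exp, Real.exp_log hzpos, hθ]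
    exact Complex.norm_mul_exp_arg_mul_I z
  rw [sv_eq_poly _ a _ z hs]
  exact hz0

end Pool.Agent.Helper59.Lit
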