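import Pool.Agent.Helper59.Lit.GroupTS

/-!
# Module Flat: one almost flat Littlewood polynomial
-/

set_option autoImplicit false

namespace Pool.Agent.Helper59.Lit

namespace FlatAux

open Finset

/-- coefficients of the symmetrised polynomial -/
def symC (M : ℕ) (e σ : ℕ → ℤ) (k : ℕ) : ℤ :=
  if M ≤ k then e (k - M) else σ (M - k) * e (M - k)

theorem expand (M : ℕ) (e σ : ℕ → ℤ) (h0 : σ 0 * e 0 = 1) (θ : ℝ) :
    sv (2 * M + 1) (symC M e σ) (θ : ℂ) = Complex.exp (Complex.I * (M : ℂ) * (θ : ℂ)) *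
      (∑ j ∈ range (M + 1), (e j : ℂ) * (Complex.exp (Complex.I * (j : ℂ) * (θ : ℂ)) +
        (σ j : ℂ) * Complex.exp (-(Complex.I * (j : ℂ) * (θ : ℂ)))) - 1) := by
  unfold sv rv
  have hM : 2 * M + 1 = M + (M + 1) := by ring
  rw [hM, Finset.sum_range_add]
  have h1 : ∑ x ∈ range (M + 1), (((symC M e σ (M + x) : ℤ) : ℝ) : ℂ) *
      Complex.exp (Complex.I * ((M + x : ℕ) : ℂ) * (θ : ℂ)) =
      Complex.exp (Complex.I * (M : ℂ) * (θ : ℂ)) *
        ∑ x ∈ range (M + 1), (e x : ℂ) * Complex.exp (Complex.I * (x : ℂ) * (θ : ℂ)) := by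
    rw [Finset.mul_sum]
    apply Finset.sum_congr rfl
    intro x _
    have hs : symC M e σ (M + x) = e x := by
      unfold symC
      rw [if_pos (Nat.le_add_right M x), Nat.add_sub_cancel_left]
    have he : Complex.exp (Complex.I * ((M + x : ℕ) : ℂ) * (θ : ℂ)) =
        Complex.exp (Complex.I * (M : ℂ) * (θ : ℂ)) *
          Complex.exp (Complex.I * (x : ℂ) * (θ : ℂ)) := by
      rw [← Complex.exp_add]; congr 1; push_cast; ring
    rw [hs, he]
    push_cast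
    ring
  have h2 : ∑ x ∈ range M, (((symC M e σ x : ℤ) : ℝ) : ℂ) *
      Complex.exp (Complex.I * (x : ℂ) * (θ : ℂ)) =
      Complex.exp (Complex.I * (M : ℂ) * (θ : ℂ)) *
        (∑ j ∈ range (M + 1), (σ j : ℂ) * (e j : ℂ) *
          Complex.exp (-(Complex.I * (j : ℂ) * (θ : ℂ))) - 1) := by
    rw [Finset.sum_range_succ']
    have h00 : (σ 0 : ℂ) * (e 0 : ℂ) * Complex.exp (-(Complex.I * ((0 : ℕ) : ℂ) * (θ : ℂ))) = 1 := by
      have : (σ 0 : ℂ) * (e 0 : ℂ) = 1 := by exact_mod_cast h0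
      rw [this]; simp
    rw [h00, add_sub_cancel_right, ← Finset.sum_range_reflect, Finset.mul_sum]
    apply Finset.sum_congr rfl
    intro i hi
    rw [Finset.mem_range] at hi
    have hs : symC M e σ (M - 1 - i) = σ (i + 1) * e (i + 1) := by
      unfold symC
      rw [if_neg (by omega)]
      have : M - (M - 1 - i) = i + 1 := by omega
      rw [this]
    have hc : ((M - 1 - i : ℕ) : ℂ) = (M : ℂ) - ((i + 1 : ℕ) : ℂ) := by
      have : M - 1 - i = M - (i + 1) := by omega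
      rw [this, Nat.cast_sub (by omega)]
    have he : Complex.exp (Complex.I * ((M - 1 - i : ℕ) : ℂ) * (θ : ℂ)) =
        Complex.exp (Complex.I * (M : ℂ) * (θ : ℂ)) *
          Complex.exp (-(Complex.I * ((i + 1 : ℕ) : ℂ) * (θ : ℂ))) := by
      rw [← Complex.exp_add, hc]; congr 1; ring
    rw [hs, he]
    push_cast
    ring
  rw [h1, h2, ← mul_add]
  congr 1
  have h3 : ∑ j ∈ range (M + 1), (e j : ℂ) * (Complex.exp (Complex.I * (j : ℂ) * (θ : ℂ)) +
        (σ j : ℂ) * Complex.exp (-(Complex.I * (j : ℂ) * (θ : ℂ)))) =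
      ∑ j ∈ range (M + 1), (σ j : ℂ) * (e j : ℂ) *
          Complex.exp (-(Complex.I * (j : ℂ) * (θ : ℂ))) +
      ∑ j ∈ range (M + 1), (e j : ℂ) * Complex.exp (Complex.I * (j : ℂ) * (θ : ℂ)) := by
    rw [← Finset.sum_add_distrib]
    apply Finset.sum_congr rfl
    intro j _
    ring
  rw [h3]
  ring

/-- prescribed signs at the cosine indices, `0` at the others -/
def Dn (N T : ℕ) (p q : ℕ → ℤ) (j : ℕ) : ℤ :=
  (if j = 0 then 1 else 0) + ∑ l ∈ range N, (if j = 2 * (T + l) then p l else 0) +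
    ∑ l ∈ range N, (if j = 2 * (2 * T + l) then q l else 0)

theorem Dn_cases (N T : ℕ) (hT : 1 ≤ T) (hN : N ≤ T) (p q : ℕ → ℤ) (hp : IsSign p)
    (hq : IsSign q) (j : ℕ) :
    Dn N T p q j = 0 ∨ ((Dn N T p q j = 1 ∨ Dn N T p q j = -1) ∧ Even j) := by
  unfold Dn
  by_cases h1 : ∃ l ∈ range N, j = 2 * (T + l)
  · obtain ⟨l, hl, rfl⟩ := h1
    have hl' := Finset.mem_range.mp hl
    right
    refine ⟨?_, even_two_mul _⟩
    have e1 : ∑ l' ∈ range N, (if 2 * (T + l) = 2 * (T + l') then p l' else 0) = p l := by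
      rw [Finset.sum_eq_single_of_mem l hl]
      · simp
      · intro b _ hb
        rw [if_neg]; omega
    have e2 : ∑ l' ∈ range N, (if 2 * (T + l) = 2 * (2 * T + l') then q l' else 0) = 0 := by
      apply Finset.sum_eq_zero
      intro b _
      rw [if_neg]; omega
    rw [e1, e2, if_neg (by omega)]
    simpa using hp l
  · by_cases h2 : ∃ l ∈ range N, j = 2 * (2 * T + l)
    · obtain ⟨l, hl, rfl⟩ := h2
      have hl' := Finset.mem_range.mp hl
      right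
      refine ⟨?_, even_two_mul _⟩
      have e1 : ∑ l' ∈ range N, (if 2 * (2 * T + l) = 2 * (T + l') then p l' else 0) = 0 := by
        apply Finset.sum_eq_zero
        intro b hb
        have hb' := Finset.mem_range.mp hb
        rw [if_neg]; omega
      have e2 : ∑ l' ∈ range N, (if 2 * (2 * T + l) = 2 * (2 * T + l') then q l' else 0) =
          q l := by
        rw [Finset.sum_eq_single_of_mem l hl]
        · simp
        · intro b _ hb
          rw [if_neg]; omega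
      rw [e1, e2, if_neg (by omega)]
      simpa using hq l
    · have e1 : ∑ l' ∈ range N, (if j = 2 * (T + l') then p l' else 0) = 0 := by
        apply Finset.sum_eq_zero
        intro b hb
        rw [if_neg]
        intro hc
        exact h1 ⟨b, hb, hc⟩
      have e2 : ∑ l' ∈ range N, (if j = 2 * (2 * T + l') then q l' else 0) = 0 := by
        apply Finset.sum_eq_zero
        intro b hb
        rw [if_neg]
        intro hc
        exact h2 ⟨b, hb, hc⟩
      rw [e1, e2]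
      by_cases h0 : j = 0
      · right
        rw [if_pos h0]
        exact ⟨by simp, by rw [h0]; exact Even.zero⟩
      · left
        rw [if_neg h0]; simp

theorem Dn_zero (N T : ℕ) (hT : 1 ≤ T) (p q : ℕ → ℤ) : Dn N T p q 0 = 1 := by
  unfold Dn
  have e1 : ∑ l' ∈ range N, (if 0 = 2 * (T + l') then p l' else 0) = 0 := by
    apply Finset.sum_eq_zero
    intro b _
    rw [if_neg]; omega
  have e2 : ∑ l' ∈ range N, (if 0 = 2 * (2 * T + l') then q l' else 0) = 0 := by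
    apply Finset.sum_eq_zero
    intro b _
    rw [if_neg]; omega
  rw [e1, e2]; simp

theorem Dn_sum (N T n : ℕ) (hn : 0 < n) (hNn : ∀ l < N, 2 * (2 * T + l) < n) (p q : ℕ → ℤ)
    (f : ℕ → ℝ) :
    ∑ j ∈ range n, (Dn N T p q j : ℝ) * f j = f 0 + ∑ l ∈ range N, (p l : ℝ) * f (2 * (T + l)) +
      ∑ l ∈ range N, (q l : ℝ) * f (2 * (2 * T + l)) := by
  have h1 : ∀ j, (Dn N T p q j : ℝ) * f j = (if j = 0 then f j else 0) +
      ∑ l ∈ range N, (if j = 2 * (T + l) then (p l : ℝ) * f j else 0) +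
      ∑ l ∈ range N, (if j = 2 * (2 * T + l) then (q l : ℝ) * f j else 0) := by
    intro j
    unfold Dn
    push_cast
    rw [add_mul, add_mul, Finset.sum_mul, Finset.sum_mul]
    congr 1
    · congr 1
      · split_ifs <;> simp
      · apply Finset.sum_congr rfl
        intro l _
        split_ifs <;> simp
    · apply Finset.sum_congr rfl
      intro l _
      split_ifs <;> simp
  simp_rw [h1]
  rw [Finset.sum_add_distrib, Finset.sum_add_distrib, Finset.sum_comm,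
    Finset.sum_comm (s := range n) (t := range N)]
  congr 1
  · congr 1
    · rw [Finset.sum_ite_eq' (range n) 0 f, if_pos (Finset.mem_range.mpr hn)]
    · apply Finset.sum_congr rfl
      intro l hl
      have hl' := hNn l (Finset.mem_range.mp hl)
      rw [Finset.sum_ite_eq' (range n) (2 * (T + l)) (fun j => (p l : ℝ) * f j), if_pos]
      rw [Finset.mem_range]; omega
  · apply Finset.sum_congr rfl
    intro l hl
    have hl' := hNn l (Finset.mem_range.mp hl)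
    rw [Finset.sum_ite_eq' (range n) (2 * (2 * T + l)) (fun j => (q l : ℝ) * f j), if_pos]
    rw [Finset.mem_range]; omega

theorem exp_re (k θ : ℝ) : (Complex.exp (Complex.I * (k : ℂ) * (θ : ℂ))).re = Real.cos (k * θ) := by
  have : Complex.I * (k : ℂ) * (θ : ℂ) = ((k * θ : ℝ) : ℂ) * Complex.I := by push_cast; ring
  rw [this, Complex.exp_ofReal_mul_I_re]

theorem exp_im (k θ : ℝ) : (Complex.exp (Complex.I * (k : ℂ) * (θ : ℂ))).im = Real.sin (k * θ) := by
  have : Complex.I * (k : ℂ) * (θ : ℂ) = ((k * θ : ℝ) : ℂ) * Complex.I := by push_cast; ring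
  rw [this, Complex.exp_ofReal_mul_I_im]

theorem sv_mul_re (N : ℕ) (p : ℕ → ℤ) (k θ : ℝ) :
    (sv N p ((2 * θ : ℝ) : ℂ) * Complex.exp (Complex.I * ((2 * k * θ : ℝ) : ℂ))).re =
      ∑ l ∈ range N, (p l : ℝ) * Real.cos (2 * (k + l) * θ) := by
  unfold sv rv
  rw [Finset.sum_mul, Complex.re_sum]
  apply Finset.sum_congr rfl
  intro l _
  have h : (((p l : ℤ) : ℝ) : ℂ) * Complex.exp (Complex.I * (l : ℂ) * ((2 * θ : ℝ) : ℂ)) *
      Complex.exp (Complex.I * ((2 * k * θ : ℝ) : ℂ)) =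
      (((p l : ℤ) : ℝ) : ℂ) * Complex.exp (Complex.I * ((2 * (k + l) : ℝ) : ℂ) * (θ : ℂ)) := by
    rw [mul_assoc, ← Complex.exp_add]
    congr 2
    push_cast
    ring
  rw [h, Complex.re_ofReal_mul, exp_re]

theorem cpart_cos (u w n : ℕ) (p q : ℕ → ℤ) (hn : 0 < n)
    (hNn : ∀ l < 4 ^ u, 2 * (2 * (4 ^ u * 2 ^ (21 * w)) + l) < n) (θ : ℝ) :
    cpart u w p q θ =
      2 * ∑ j ∈ range n, (Dn (4 ^ u) (4 ^ u * 2 ^ (21 * w)) p q j : ℝ) * Real.cos (j * θ) - 1 := by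
  rw [Dn_sum (4 ^ u) (4 ^ u * 2 ^ (21 * w)) n hn hNn p q (fun j => Real.cos (j * θ)),
    BadSetAux.cpart_eq, Complex.add_re]
  have h1 := sv_mul_re (4 ^ u) p (4 ^ u * 2 ^ (21 * w)) θ
  have h2 := sv_mul_re (4 ^ u) q (2 * (4 ^ u * 2 ^ (21 * w))) θ
  have h3 : (2 * Complex.I * ((2 * (4 ^ u * 2 ^ (21 * w)) * θ : ℝ) : ℂ)) =
      Complex.I * ((2 * (2 * (4 ^ u * 2 ^ (21 * w))) * θ : ℝ) : ℂ) := by
    push_cast; ring
  rw [h3, h1, h2]
  push_cast
  simp only [zero_mul, Real.cos_zero]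
  ring

/-- the norm in terms of the cosine and the sine part -/
theorem real_imag (u w M : ℕ) (p q : ℕ → ℤ) (hp : IsSign p) (hq : IsSign q)
    (hNn : ∀ l < 4 ^ u, 2 * (2 * (4 ^ u * 2 ^ (21 * w)) + l) < M + 1) (e : ℕ → ℤ)
    (he : ∀ j, Dn (4 ^ u) (4 ^ u * 2 ^ (21 * w)) p q j ≠ 0 →
      e j = Dn (4 ^ u) (4 ^ u * 2 ^ (21 * w)) p q j) (θ : ℝ) :
    ∃ W : ℂ, W.re = cpart u w p q θ ∧
      W.im = 2 * ∑ j ∈ range (M + 1),
        ((e j : ℝ) - (Dn (4 ^ u) (4 ^ u * 2 ^ (21 * w)) p q j : ℝ)) * Real.sin (j * θ) ∧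
      ‖sv (2 * M + 1) (symC M e (fun j =>
        if Dn (4 ^ u) (4 ^ u * 2 ^ (21 * w)) p q j = 0 then -1 else 1)) (θ : ℂ)‖ = ‖W‖ := by
  set D := Dn (4 ^ u) (4 ^ u * 2 ^ (21 * w)) p q with hD
  set σ : ℕ → ℤ := fun j => if D j = 0 then -1 else 1 with hσ
  have hT1 : 1 ≤ 4 ^ u * 2 ^ (21 * w) := Nat.one_le_iff_ne_zero.mpr (by positivity)
  have hNT : 4 ^ u ≤ 4 ^ u * 2 ^ (21 * w) := Nat.le_mul_of_pos_right _ (by positivity)
  have hD0 : D 0 = 1 := Dn_zero _ _ hT1 p q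
  have h0 : σ 0 * e 0 = 1 := by
    have h1 : e 0 = D 0 := he 0 (by rw [hD0]; norm_num)
    rw [h1, hD0, hσ]
    simp [hD0]
  refine ⟨∑ j ∈ range (M + 1), (e j : ℂ) * (Complex.exp (Complex.I * (j : ℂ) * (θ : ℂ)) +
        (σ j : ℂ) * Complex.exp (-(Complex.I * (j : ℂ) * (θ : ℂ)))) - 1, ?_, ?_, ?_⟩
  · rw [Complex.sub_re, Complex.re_sum, Complex.one_re, cpart_cos u w (M + 1) p q (by omega) hNn θ,
      Finset.mul_sum]
    congr 1
    apply Finset.sum_congr rfl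
    intro j _
    have e1 : ((e j : ℤ) : ℂ) = (((e j : ℤ) : ℝ) : ℂ) := by push_cast; rfl
    have e2 : ((σ j : ℤ) : ℂ) = (((σ j : ℤ) : ℝ) : ℂ) := by push_cast; rfl
    have e3 : -(Complex.I * (j : ℂ) * (θ : ℂ)) =
        Complex.I * (((-(j : ℝ)) : ℝ) : ℂ) * (θ : ℂ) := by push_cast; ring
    have e4 : Complex.I * (j : ℂ) * (θ : ℂ) =
        Complex.I * (((j : ℝ) : ℝ) : ℂ) * (θ : ℂ) := by push_cast; ring
    rw [e1, Complex.re_ofReal_mul, Complex.add_re, e2, Complex.re_ofReal_mul, e3, exp_re, e4,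
      exp_re, neg_mul, Real.cos_neg, ← hD]
    by_cases hDj : D j = 0
    · rw [hDj]
      have : σ j = -1 := by rw [hσ]; simp [hDj]
      rw [this]; push_cast; ring
    · have h1 := he j hDj
      have : σ j = 1 := by rw [hσ]; simp [hDj]
      rw [this, h1]; push_cast; ring
  · rw [Complex.sub_im, Complex.im_sum, Complex.one_im, sub_zero, Finset.mul_sum]
    apply Finset.sum_congr rfl
    intro j _
    have e1 : ((e j : ℤ) : ℂ) = (((e j : ℤ) : ℝ) : ℂ) := by push_cast; rfl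
    have e2 : ((σ j : ℤ) : ℂ) = (((σ j : ℤ) : ℝ) : ℂ) := by push_cast; rfl
    have e3 : -(Complex.I * (j : ℂ) * (θ : ℂ)) =
        Complex.I * (((-(j : ℝ)) : ℝ) : ℂ) * (θ : ℂ) := by push_cast; ring
    have e4 : Complex.I * (j : ℂ) * (θ : ℂ) =
        Complex.I * (((j : ℝ) : ℝ) : ℂ) * (θ : ℂ) := by push_cast; ring
    rw [e1, Complex.im_ofReal_mul, Complex.add_im, e2, Complex.im_ofReal_mul, e3, exp_im, e4,
      exp_im, neg_mul, Real.sin_neg]
    by_cases hDj : D j = 0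
    · rw [hDj]
      have : σ j = -1 := by rw [hσ]; simp [hDj]
      rw [this]; push_cast; ring
    · have h1 := he j hDj
      have : σ j = 1 := by rw [hσ]; simp [hDj]
      rw [this, h1]; push_cast; ring
  · rw [expand M e σ h0 θ, norm_mul]
    have : ‖Complex.exp (Complex.I * (M : ℂ) * (θ : ℂ))‖ = 1 := by
      have e4 : Complex.I * (M : ℂ) * (θ : ℂ) = ((M * θ : ℝ) : ℂ) * Complex.I := by
        push_cast; ring
      rw [e4]; exact Complex.norm_exp_ofReal_mul_I _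
    rw [this, one_mul]

/-- reduction to `[0, π/2]` -/
theorem reduce (u w n n' : ℕ) (p q : ℕ → ℤ) (hp : IsSign p) (hq : IsSign q) (hn : 0 < n)
    (hNn : ∀ l < 4 ^ u, 2 * (2 * (4 ^ u * 2 ^ (21 * w)) + l) < n) (x : ℕ → ℝ)
    (hx : ∀ k, Even k → x k = 0) (θ : ℝ) :
    ∃ φ : ℝ, 0 ≤ φ ∧ φ ≤ Real.pi / 2 ∧ cpart u w p q θ = cpart u w p q φ ∧
      |∑ k ∈ range n', 2 * x k * Real.sin (k * θ)| =
        |∑ k ∈ range n', 2 * x k * Real.sin (k * φ)| := by
  have hpi := Real.pi_pos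
  set k0 : ℤ := round (θ / Real.pi) with hk0
  have hr := abs_sub_round (θ / Real.pi)
  set ψ : ℝ := θ - k0 * Real.pi with hψ
  have hψ1 : |ψ| ≤ Real.pi / 2 := by
    have e : ψ = (θ / Real.pi - (round (θ / Real.pi) : ℝ)) * Real.pi := by
      rw [hψ, hk0]; field_simp
    rw [e, abs_mul, abs_of_pos hpi]
    calc |θ / Real.pi - (round (θ / Real.pi) : ℝ)| * Real.pi ≤ 1 / 2 * Real.pi := by gcongr
      _ = Real.pi / 2 := by ring
  have hT1 : 1 ≤ 4 ^ u * 2 ^ (21 * w) := Nat.one_le_iff_ne_zero.mpr (by positivity)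
  have hNT : 4 ^ u ≤ 4 ^ u * 2 ^ (21 * w) := Nat.le_mul_of_pos_right _ (by positivity)
  refine ⟨|ψ|, abs_nonneg _, hψ1, ?_, ?_⟩
  · rw [cpart_cos u w n p q hn hNn θ, cpart_cos u w n p q hn hNn |ψ|]
    congr 2
    apply Finset.sum_congr rfl
    intro j _
    rcases Dn_cases (4 ^ u) (4 ^ u * 2 ^ (21 * w)) hT1 hNT p q hp hq j with h | ⟨_, h⟩
    · rw [h]; simp
    · congr 1
      have e1 : Real.cos (j * |ψ|) = Real.cos (j * ψ) := by
        rcases abs_choice ψ with h1 | h1 <;> rw [h1]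
        rw [mul_neg, Real.cos_neg]
      obtain ⟨r, hr2⟩ := h
      have e2 : (j : ℝ) * ψ = j * θ - (((r : ℤ) * k0 : ℤ) : ℝ) * (2 * Real.pi) := by
        rw [hψ, hr2]; push_cast; ring
      rw [e1, e2, Real.cos_sub_int_mul_two_pi]
  · have e1 : |∑ k ∈ range n', 2 * x k * Real.sin (k * |ψ|)| =
        |∑ k ∈ range n', 2 * x k * Real.sin (k * ψ)| := by
      rcases abs_choice ψ with h1 | h1
      · rw [h1]
      · rw [h1, ← abs_neg, ← Finset.sum_neg_distrib]
        congr 1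
        apply Finset.sum_congr rfl
        intro k _
        rw [mul_neg, Real.sin_neg]; ring
    have e2 : ∑ k ∈ range n', 2 * x k * Real.sin (k * ψ) =
        (-1) ^ k0 * ∑ k ∈ range n', 2 * x k * Real.sin (k * θ) := by
      rw [Finset.mul_sum]
      apply Finset.sum_congr rfl
      intro k _
      rcases Nat.even_or_odd k with hk | hk
      · rw [hx k hk]; ring
      · have e3 : (k : ℝ) * ψ = k * θ - (((k : ℤ) * k0 : ℤ) : ℝ) * Real.pi := by
          rw [hψ]; push_cast; ring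
        have e4 : ((-1 : ℝ)) ^ ((k : ℤ) * k0) = (-1) ^ k0 := by
          rw [zpow_mul, zpow_natCast, hk.neg_one_pow]
        rw [e3, Real.sin_sub_int_mul_pi, e4]; ring
    rw [e1, e2, abs_mul, abs_zpow, abs_neg, abs_one, one_zpow, one_mul]

/-- the noise term is small compared with the main term -/
theorem noise_small (C c1 : ℝ) (hC : 1 ≤ C) (hc1 : 0 < c1) :
    ∃ w1 : ℕ, ∀ w : ℕ, w1 ≤ w → ∀ n : ℕ, n = 4 ^ (10000 * w) * 2 ^ (25 * w) →
      2 * (C * (Real.sqrt (n * Real.log n) + Real.log n)) ≤ c1 / 2 * 2 ^ w * Real.sqrt n := by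
  have h1 : Filter.Tendsto (fun w : ℕ => (w : ℝ) * (1 / 2) ^ w) Filter.atTop (nhds 0) :=
    tendsto_self_mul_const_pow_of_lt_one (by norm_num) (by norm_num)
  have h2 : 0 < c1 / (16 * C * 20025) := by positivity
  have h3 := (h1.eventually (gt_mem_nhds h2))
  rw [Filter.eventually_atTop] at h3
  obtain ⟨w1, hw1⟩ := h3
  refine ⟨w1 + 1, ?_⟩
  intro w hw n hn
  have h4 := hw1 w (by omega)
  have hn2 : (n : ℝ) = 2 ^ (20025 * w) := by
    rw [hn]; push_cast
    have : (4 : ℝ) ^ (10000 * w) = 2 ^ (20000 * w) := by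
      rw [show (4 : ℝ) = 2 ^ 2 by norm_num, ← pow_mul]; congr 1; ring
    rw [this, ← pow_add]; congr 1; ring
  have hnpos : (0 : ℝ) < n := by rw [hn2]; positivity
  have hn1 : (1 : ℝ) ≤ n := by rw [hn2]; exact one_le_pow₀ (by norm_num)
  have hlog : Real.log n = 20025 * w * Real.log 2 := by
    rw [hn2, Real.log_pow]; push_cast; ring
  have hlog1 : Real.log n ≤ 20025 * w := by
    rw [hlog]
    have := Real.log_two_lt_d9
    have h5 : (0 : ℝ) ≤ 20025 * w := by positivity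
    nlinarith
  have hlog0 : 0 ≤ Real.log n := Real.log_nonneg hn1
  have hw1r : (1 : ℝ) ≤ w := by
    have : 1 ≤ w := by omega
    exact_mod_cast this
  have hs0 : 0 ≤ Real.sqrt n := Real.sqrt_nonneg _
  have hsq1 : Real.sqrt (n * Real.log n) ≤ Real.sqrt n * (20025 * w) := by
    rw [Real.sqrt_mul hnpos.le]
    apply mul_le_mul_of_nonneg_left _ hs0
    rw [Real.sqrt_le_left (by positivity)]
    have : (1 : ℝ) ≤ 20025 * w := by nlinarith
    nlinarith
  have hlog2 : Real.log n ≤ Real.sqrt n * (20025 * w) := by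
    have h6 : 1 ≤ Real.sqrt n := by
      rw [Real.one_le_sqrt]; exact hn1
    have h7 : (0 : ℝ) ≤ 20025 * w := by positivity
    nlinarith
  have h8 : (w : ℝ) ≤ c1 / (16 * C * 20025) * 2 ^ w := by
    have e : (w : ℝ) = (w : ℝ) * (1 / 2) ^ w * 2 ^ w := by
      rw [mul_assoc, ← mul_pow]; norm_num
    rw [e]
    apply mul_le_mul_of_nonneg_right h4.le (by positivity)
  have h9 : 2 * (C * (Real.sqrt (n * Real.log n) + Real.log n)) ≤
      4 * C * (Real.sqrt n * (20025 * w)) := by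
    have : C * (Real.sqrt (n * Real.log n) + Real.log n) ≤
        C * (2 * (Real.sqrt n * (20025 * w))) := by
      apply mul_le_mul_of_nonneg_left _ (by linarith)
      linarith
    linarith
  have h10 : 4 * C * (Real.sqrt n * (20025 * w)) ≤
      4 * C * (Real.sqrt n * (20025 * (c1 / (16 * C * 20025) * 2 ^ w))) := by
    gcongr
  have h11 : 4 * C * (Real.sqrt n * (20025 * (c1 / (16 * C * 20025) * 2 ^ w))) =
      c1 / 4 * 2 ^ w * Real.sqrt n := by
    field_simp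
    norm_num
  have h12 : c1 / 4 * 2 ^ w * Real.sqrt n ≤ c1 / 2 * 2 ^ w * Real.sqrt n := by
    gcongr
    norm_num
  linarith

theorem pow_split (ν : ℝ) (a b : ℕ) : ν ^ (a + b) = ν ^ a * ν ^ b := pow_add _ _ _

theorem num_lower (ν m n y : ℝ) (h16 : 16 ≤ ν) (hm0 : 0 ≤ m) (hm : m ≤ 2 * n)
    (hn : n = ν ^ 20025) (hy : ν ^ 9980 / 100 ≤ y) : m ^ 255 ≤ y ^ 512 := by
  have hν : 0 < ν := by linarith
  have a1 : m ^ 255 ≤ (2 * n) ^ 255 := pow_le_pow_left₀ hm0 hm 255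
  have a2 : (ν ^ 9980 / 100) ^ 512 ≤ y ^ 512 :=
    pow_le_pow_left₀ (by positivity) hy 512
  refine a1.trans (le_trans ?_ a2)
  have a3 : (2 * n) ^ 255 = 2 ^ 255 * ν ^ (20025 * 255) := by
    rw [mul_pow, hn, ← pow_mul]
  have a4 : (ν ^ 9980 / 100) ^ 512 = ν ^ (9980 * 512) / 100 ^ 512 := by
    rw [div_pow, ← pow_mul]
  have a5 : 9980 * 512 = 20025 * 255 + 3385 := by norm_num
  rw [a3, a4, a5, pow_split, le_div_iff₀ (by positivity)]
  have e3 : (2 : ℝ) ^ 255 * 100 ^ 512 ≤ ν ^ 3385 := by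
    have b1 : (100 : ℝ) ^ 512 ≤ (2 ^ 7) ^ 512 :=
      pow_le_pow_left₀ (by norm_num) (by norm_num) 512
    have b2 : (2 : ℝ) ^ 255 * (2 ^ 7) ^ 512 = 2 ^ (255 + 7 * 512) := by
      rw [← pow_mul, ← pow_add]
    have b3 : (2 : ℝ) ^ (255 + 7 * 512) ≤ 2 ^ (4 * 3385) :=
      pow_le_pow_right₀ (by norm_num) (by norm_num)
    have b4 : (2 : ℝ) ^ (4 * 3385) = (2 ^ 4) ^ 3385 := pow_mul _ _ _
    have b5 : ((2 : ℝ) ^ 4) ^ 3385 ≤ ν ^ 3385 :=
      pow_le_pow_left₀ (by norm_num) (by norm_num; exact h16) 3385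
    calc (2 : ℝ) ^ 255 * 100 ^ 512 ≤ 2 ^ 255 * (2 ^ 7) ^ 512 :=
          mul_le_mul_of_nonneg_left b1 (pow_nonneg (by norm_num) _)
      _ = 2 ^ (255 + 7 * 512) := b2
      _ ≤ 2 ^ (4 * 3385) := b3
      _ = (2 ^ 4) ^ 3385 := b4
      _ ≤ ν ^ 3385 := b5
  have hX : 0 ≤ ν ^ (20025 * 255) := pow_nonneg hν.le _
  calc (2 : ℝ) ^ 255 * ν ^ (20025 * 255) * 100 ^ 512 =
      ν ^ (20025 * 255) * (2 ^ 255 * 100 ^ 512) := by
        rw [mul_comm ((2 : ℝ) ^ 255) (ν ^ (20025 * 255)), mul_assoc]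
    _ ≤ ν ^ (20025 * 255) * ν ^ 3385 := mul_le_mul_of_nonneg_left e3 hX

theorem num_lower2 (m n y : ℝ) (hn : 1 ≤ n) (hm0 : 0 ≤ m) (hm : m ≤ 2 * n)
    (hy : 2 * Real.sqrt n ≤ y) : m ^ 255 ≤ y ^ 512 := by
  have hs : 0 ≤ Real.sqrt n := Real.sqrt_nonneg _
  have a1 : m ^ 255 ≤ (2 * n) ^ 255 := pow_le_pow_left₀ hm0 hm 255
  have a2 : (2 * Real.sqrt n) ^ 512 ≤ y ^ 512 := pow_le_pow_left₀ (by positivity) hy 512
  refine a1.trans (le_trans ?_ a2)
  have a3 : (2 * Real.sqrt n) ^ 512 = 2 ^ 512 * n ^ 256 := by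
    rw [mul_pow, show (512 : ℕ) = 2 * 256 by norm_num, pow_mul (Real.sqrt n) 2 256,
      Real.sq_sqrt (by linarith)]
  rw [a3, mul_pow]
  have e1 : (2 : ℝ) ^ 255 ≤ 2 ^ 512 := pow_le_pow_right₀ (by norm_num) (by norm_num)
  have e2 : n ^ 255 ≤ n ^ 256 := pow_le_pow_right₀ hn (by norm_num)
  exact mul_le_mul e1 e2 (by positivity) (by positivity)

theorem num_upper (ν m n y : ℝ) (h16 : 16 ≤ ν) (hm : n ≤ m)
    (hn : n = ν ^ 20025) (hy0 : 0 ≤ y) (hy : y ≤ ν ^ 2 * Real.sqrt n) : y ^ 512 ≤ m ^ 257 := by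
  have hν : 0 < ν := by linarith
  have hn0 : 0 ≤ n := by rw [hn]; exact pow_nonneg hν.le _
  have hs : 0 ≤ Real.sqrt n := Real.sqrt_nonneg _
  have a1 : y ^ 512 ≤ (ν ^ 2 * Real.sqrt n) ^ 512 := pow_le_pow_left₀ hy0 hy 512
  have a2 : n ^ 257 ≤ m ^ 257 := pow_le_pow_left₀ hn0 hm 257
  refine a1.trans (le_trans ?_ a2)
  have a3 : (ν ^ 2 * Real.sqrt n) ^ 512 = ν ^ (2 * 512) * n ^ 256 := by
    rw [mul_pow, ← pow_mul, show (512 : ℕ) = 2 * 256 by norm_num, pow_mul (Real.sqrt n) 2 256,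
      Real.sq_sqrt hn0]
  have a4 : ν ^ (2 * 512) ≤ n := by
    rw [hn]; exact pow_le_pow_right₀ (by linarith) (by norm_num)
  have a5 : n ^ 257 = n * n ^ 256 := by rw [show (257 : ℕ) = 256 + 1 by norm_num, pow_succ, mul_comm]
  rw [a3, a5]
  exact mul_le_mul_of_nonneg_right a4 (pow_nonneg hn0 _)

/-- crude upper bound for a Rudin-Shapiro polynomial -/
theorem rs_bound (u : ℕ) (p q : ℕ → ℤ) (h : RSPair u p q) (θ : ℝ) :
    ‖sv (4 ^ u) p (θ : ℂ)‖ ≤ 2 * 2 ^ u ∧ ‖sv (4 ^ u) q (θ : ℂ)‖ ≤ 2 * 2 ^ u := by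
  have hs := h.sum_sq θ
  have h4 : (4 : ℝ) ^ u = (2 ^ u) ^ 2 := by rw [← pow_mul, mul_comm, pow_mul]; norm_num
  rw [h4] at hs
  have h2 : (0 : ℝ) < 2 ^ u := by positivity
  constructor
  · apply le_of_sq_le_sq _ (by positivity)
    nlinarith [sq_nonneg ‖sv (4 ^ u) q (θ : ℂ)‖]
  · apply le_of_sq_le_sq _ (by positivity)
    nlinarith [sq_nonneg ‖sv (4 ^ u) p (θ : ℂ)‖]

theorem cpart_le (u w : ℕ) (p q : ℕ → ℤ) (h : RSPair u p q) (θ : ℝ) :
    |cpart u w p q θ| ≤ 9 * 2 ^ u := by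
  rw [BadSetAux.cpart_eq]
  set x : ℝ := 2 * (4 ^ u * 2 ^ (21 * w)) * θ
  obtain ⟨h1, h2⟩ := rs_bound u p q h (2 * θ)
  have h3 : |(sv (4 ^ u) p ((2 * θ : ℝ) : ℂ) * Complex.exp (Complex.I * (x : ℂ)) +
        sv (4 ^ u) q ((2 * θ : ℝ) : ℂ) * Complex.exp (2 * Complex.I * (x : ℂ))).re| ≤
      4 * 2 ^ u := by
    refine (Complex.abs_re_le_norm _).trans ((norm_add_le _ _).trans ?_)
    rw [norm_mul, norm_mul, BadSetAux.norm_exp_I, BadSetAux.norm_exp_2I, mul_one, mul_one]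
    linarith
  have h4 : (1 : ℝ) ≤ 2 ^ u := one_le_pow₀ (by norm_num)
  rw [abs_le] at h3 ⊢
  constructor <;> linarith [h3.1, h3.2]

end FlatAux

open Finset FlatAux in
theorem flat_exists : ∃ m : ℕ, 2 ≤ m ∧ ∃ a : ℕ → ℤ, IsSign a ∧
    ∀ θ : ℝ, (m : ℝ) ^ 255 ≤ ‖sv m a (θ : ℂ)‖ ^ 512 ∧ ‖sv m a (θ : ℂ)‖ ^ 512 ≤ (m : ℝ) ^ 257 := by
  obtain ⟨w0, hbad⟩ := bad_set
  obtain ⟨w0', c1, C1, hc1, hC1, hts⟩ := group_ts
  obtain ⟨C, hC, hround⟩ := rounding
  obtain ⟨w1, hnoise⟩ := noise_small C (min c1 1) hC (lt_min hc1 one_pos)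
  -- choose w large
  obtain ⟨w2, hw2⟩ : ∃ w2 : ℕ, 16 + 4 / c1 + C1 ≤ (2 : ℝ) ^ w2 := by
    obtain ⟨k, hk⟩ := pow_unbounded_of_one_lt (16 + 4 / c1 + C1) (by norm_num : (1 : ℝ) < 2)
    exact ⟨k, hk.le⟩
  obtain ⟨w, hw⟩ : ∃ w : ℕ, w = w0 + w0' + w1 + w2 + 1 := ⟨_, rfl⟩
  obtain ⟨u, hu⟩ : ∃ u : ℕ, u = 10000 * w := ⟨_, rfl⟩
  obtain ⟨n, hn⟩ : ∃ n : ℕ, n = 4 ^ u * 2 ^ (25 * w) := ⟨_, rfl⟩
  obtain ⟨M, hM⟩ : ∃ M : ℕ, M = n - 1 := ⟨_, rfl⟩
  have hνlow : 16 + 4 / c1 + C1 ≤ (2 : ℝ) ^ w :=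
    hw2.trans (pow_le_pow_right₀ (by norm_num) (by omega))
  have hn16 : 16 ≤ n := by
    have h1 : 16 ≤ 2 ^ (25 * w) := by
      calc 16 = 2 ^ 4 := by norm_num
        _ ≤ 2 ^ (25 * w) := Nat.pow_le_pow_right (by norm_num) (by omega)
    calc 16 ≤ 2 ^ (25 * w) := h1
      _ ≤ n := by rw [hn]; exact Nat.le_mul_of_pos_left _ (by positivity)
  have hM1 : M + 1 = n := by omega
  obtain ⟨p, q, hpq⟩ := rs_exists u
  obtain ⟨Z, hZ, hcov⟩ := hbad u w (by omega) (by omega) p q hpq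
  obtain ⟨x, hx1, hx2, hx3, hx4⟩ := hts u w (by omega) hu.le Z hZ
  obtain ⟨T, hT⟩ : ∃ T : ℕ, T = 4 ^ u * 2 ^ (21 * w) := ⟨_, rfl⟩
  obtain ⟨D, hD⟩ : ∃ D : ℕ → ℤ, D = Dn (4 ^ u) T p q := ⟨_, rfl⟩
  have hT1 : 1 ≤ T := by rw [hT]; exact Nat.one_le_iff_ne_zero.mpr (by positivity)
  have hNT : 4 ^ u ≤ T := by rw [hT]; exact Nat.le_mul_of_pos_right _ (by positivity)
  have hDc := Dn_cases (4 ^ u) T hT1 hNT p q hpq.sp hpq.sq
  rw [← hD] at hDc
  have hNn : ∀ l < 4 ^ u, 2 * (2 * T + l) < n := by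
    intro l hl
    have h1 : n = T * 2 ^ (4 * w) := by
      rw [hn, hT, mul_assoc, ← pow_add]; congr 2; ring
    have h2 : 16 ≤ 2 ^ (4 * w) := by
      calc 16 = 2 ^ 4 := by norm_num
        _ ≤ 2 ^ (4 * w) := Nat.pow_le_pow_right (by norm_num) (by omega)
    have h3 : T * 16 ≤ n := by rw [h1]; exact Nat.mul_le_mul_left _ h2
    omega
  -- rounding
  set x' : ℕ → ℝ := fun j => (D j : ℝ) + x j with hx'
  have hx'1 : ∀ j, |x' j| ≤ 1 := by
    intro j
    rcases hDc j with h | ⟨h, hev⟩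
    · have : x' j = x j := by simp only [hx']; rw [h]; simp
      rw [this]
      linarith [hx1 j]
    · have : x' j = D j := by simp only [hx']; rw [hx2 j hev, add_zero]
      rw [this]
      rcases h with h | h <;> rw [h] <;> simp
  have hV : ∑ j ∈ range n, (1 - x' j ^ 2) ≤ (n : ℝ) := by
    calc ∑ j ∈ range n, (1 - x' j ^ 2) ≤ ∑ j ∈ range n, (1 : ℝ) := by
          apply Finset.sum_le_sum
          intro j _
          nlinarith [sq_nonneg (x' j)]
      _ = n := by simp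
  obtain ⟨e, he, he1, he2, he3⟩ := hround n (by omega) x' hx'1 n hV
  have heD : ∀ j, D j ≠ 0 → e j = D j := by
    intro j hj
    rcases hDc j with h | ⟨h, hev⟩
    · exact absurd h hj
    · have hxj : x' j = D j := by simp only [hx']; rw [hx2 j hev, add_zero]
      rcases h with h | h
      · rw [h]; exact he1 j (by rw [hxj, h]; simp)
      · rw [h]; exact he2 j (by rw [hxj, h]; simp)
  set σ : ℕ → ℤ := fun j => if D j = 0 then -1 else 1 with hσ
  refine ⟨2 * M + 1, by omega, symC M e σ, ?_, ?_⟩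
  · intro k
    unfold symC
    split_ifs with h
    · exact he _
    · have h1 : σ (M - k) = 1 ∨ σ (M - k) = -1 := by
        simp only [hσ]; split_ifs <;> simp
      rcases h1 with h1 | h1 <;> rcases he (M - k) with h2 | h2 <;> rw [h1, h2] <;> simp
  · intro θ
    -- quantities
    obtain ⟨ν, hν⟩ : ∃ ν : ℝ, ν = 2 ^ w := ⟨_, rfl⟩
    rw [← hν] at hνlow
    have hνpos : 0 < ν := by rw [hν]; positivity
    have hν16 : 16 ≤ ν := by
      have : 0 < 4 / c1 := by positivity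
      linarith
    have hν20025 : (n : ℝ) = ν ^ 20025 := by
      rw [hn, hu, hν]; push_cast
      rw [show (4 : ℝ) = 2 ^ 2 by norm_num, ← pow_mul, ← pow_mul, ← pow_add]
      congr 1; ring
    have hnR : (1 : ℝ) ≤ n := by exact_mod_cast (by omega : 1 ≤ n)
    have hnpos : (0 : ℝ) < n := by linarith
    have hsn : 0 < Real.sqrt n := Real.sqrt_pos.mpr hnpos
    have hsn2 : Real.sqrt n ^ 2 = n := Real.sq_sqrt hnpos.le
    have hncast : ((4 : ℝ) ^ u * 2 ^ (25 * w)) = (n : ℝ) := by rw [hn]; push_cast; ring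
    obtain ⟨W, hWre, hWim, hWn⟩ := real_imag u w M p q hpq.sp hpq.sq
      (by rw [hM1, ← hT]; exact hNn) e (by rw [← hT, ← hD]; exact heD) θ
    rw [hM1, ← hT, ← hD] at hWim
    rw [← hT, ← hD] at hWn
    have hmM : (n : ℝ) ≤ ((2 * M + 1 : ℕ) : ℝ) := by exact_mod_cast (by omega : n ≤ 2 * M + 1)
    have hmM2 : ((2 * M + 1 : ℕ) : ℝ) ≤ 2 * n := by exact_mod_cast (by omega : 2 * M + 1 ≤ 2 * n)
    have hnorm : ‖sv (2 * M + 1) (symC M e σ) (θ : ℂ)‖ = ‖W‖ := hWn
    rw [hnorm]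
    -- the noise
    have hns : |W.im - ∑ k ∈ range n, 2 * x k * Real.sin (k * θ)| ≤
        min c1 1 / 2 * ν * Real.sqrt n := by
      have h1 := he3 (θ : ℂ) (by simp)
      have h2 : W.im - ∑ k ∈ range n, 2 * x k * Real.sin (k * θ) =
          2 * (sv n e (θ : ℂ) - rv n x' (θ : ℂ)).im := by
        rw [hWim]
        have e1 : (sv n e (θ : ℂ) - rv n x' (θ : ℂ)) = ∑ j ∈ range n,
            (((e j : ℝ) - x' j : ℝ) : ℂ) * Complex.exp (Complex.I * (j : ℂ) * (θ : ℂ)) := by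
          unfold sv rv
          rw [← Finset.sum_sub_distrib]
          apply Finset.sum_congr rfl
          intro j _
          push_cast; ring
        rw [e1, Complex.im_sum, Finset.mul_sum, Finset.mul_sum, ← Finset.sum_sub_distrib]
        apply Finset.sum_congr rfl
        intro j _
        rw [Complex.im_ofReal_mul]
        have e4 : Complex.I * (j : ℂ) * (θ : ℂ) =
          Complex.I * (((j : ℝ) : ℝ) : ℂ) * (θ : ℂ) := by push_cast; ring
        rw [e4, exp_im]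
        simp only [hx']
        ring
      rw [h2, abs_mul, abs_two]
      calc 2 * |(sv n e (θ : ℂ) - rv n x' (θ : ℂ)).im|
          ≤ 2 * ‖sv n e (θ : ℂ) - rv n x' (θ : ℂ)‖ := by
            gcongr; exact Complex.abs_im_le_norm _
        _ ≤ 2 * (C * (Real.sqrt (n * Real.log n) + Real.log n)) := by gcongr
        _ ≤ _ := by
          have h3 := hnoise w (by omega) n (by rw [hn, hu])
          rw [← hν] at h3
          exact h3
    obtain ⟨φ, hφ0, hφ1, hφ2, hφ3⟩ := reduce u w n n p q hpq.sp hpq.sq (by omega)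
      (by rw [← hT]; exact hNn) x hx2 θ
    have hup := hx3 φ hφ0 hφ1
    rw [hncast, ← hn, ← hφ3, ← hν] at hup
    constructor
    · -- lower bound
      rcases hcov φ hφ0 hφ1 with hA | hB
      · rw [← hφ2, ← hWre] at hA
        have h1 : (2 : ℝ) ^ u / (100 * 2 ^ (20 * w)) ≤ ‖W‖ := hA.trans (Complex.abs_re_le_norm _)
        have h2 : (2 : ℝ) ^ u / (100 * 2 ^ (20 * w)) = ν ^ 9980 / 100 := by
          have e1 : (2 : ℝ) ^ u = ν ^ 9980 * 2 ^ (20 * w) := by
            rw [hu, hν, ← pow_mul, ← pow_add]; congr 1; ring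
          rw [e1]; field_simp
        rw [h2] at h1
        exact num_lower ν _ _ _ hν16 (by positivity) hmM2 hν20025 h1
      · have h1 := hx4 φ hφ0 hφ1 hB
        rw [hncast, ← hn, ← hφ3, ← hν] at h1
        have h2 : c1 / 2 * ν * Real.sqrt n ≤ ‖W‖ := by
          have h3 : |∑ k ∈ range n, 2 * x k * Real.sin (k * θ)| ≤
              |W.im| + |W.im - ∑ k ∈ range n, 2 * x k * Real.sin (k * θ)| := by
            have e1 : ∑ k ∈ range n, 2 * x k * Real.sin (k * θ) =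
              W.im - (W.im - ∑ k ∈ range n, 2 * x k * Real.sin (k * θ)) := by ring
            calc |∑ k ∈ range n, 2 * x k * Real.sin (k * θ)| =
              |W.im - (W.im - ∑ k ∈ range n, 2 * x k * Real.sin (k * θ))| := by rw [← e1]
              _ ≤ _ := abs_sub _ _
          have h4 : min c1 1 / 2 * ν * Real.sqrt n ≤ c1 / 2 * ν * Real.sqrt n := by
            gcongr; exact min_le_left _ _
          have h5 := Complex.abs_im_le_norm W
          linarith
        have h6 : 2 ≤ c1 / 2 * ν := by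
          have h7 : 4 / c1 ≤ ν := by linarith
          rw [div_le_iff₀ hc1] at h7
          linarith
        have h8 : 2 * Real.sqrt n ≤ ‖W‖ := by
          refine le_trans ?_ h2
          gcongr
        exact num_lower2 _ _ _ hnR (by positivity) hmM2 h8
    · -- upper bound
      have h1 : |W.re| ≤ 9 * Real.sqrt n := by
        rw [hWre]
        refine (cpart_le u w p q hpq θ).trans ?_
        have e1 : (2 : ℝ) ^ u ≤ Real.sqrt n := by
          apply Real.le_sqrt_of_sq_le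
          rw [← hncast]
          have e2 : (4 : ℝ) ^ u = (2 ^ u) ^ 2 := by rw [← pow_mul, mul_comm u 2, pow_mul]; norm_num
          have e3 : (1 : ℝ) ≤ 2 ^ (25 * w) := one_le_pow₀ (by norm_num)
          rw [e2]
          nlinarith [sq_nonneg ((2 : ℝ) ^ u)]
        linarith
      have h2 : |W.im| ≤ (C1 + 1) * ν * Real.sqrt n := by
        have h3 : |W.im| ≤ |∑ k ∈ range n, 2 * x k * Real.sin (k * θ)| +
            |W.im - ∑ k ∈ range n, 2 * x k * Real.sin (k * θ)| := by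
          have e1 : W.im = ∑ k ∈ range n, 2 * x k * Real.sin (k * θ) +
            (W.im - ∑ k ∈ range n, 2 * x k * Real.sin (k * θ)) := by ring
          calc |W.im| = |∑ k ∈ range n, 2 * x k * Real.sin (k * θ) +
            (W.im - ∑ k ∈ range n, 2 * x k * Real.sin (k * θ))| := by rw [← e1]
            _ ≤ _ := abs_add_le _ _
        have h4 : min c1 1 / 2 * ν * Real.sqrt n ≤ 1 * ν * Real.sqrt n := by
          gcongr
          have : min c1 1 ≤ 1 := min_le_right _ _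
          linarith
        have e5 : (C1 + 1) * ν * Real.sqrt n = C1 * ν * Real.sqrt n + 1 * ν * Real.sqrt n := by
          ring
        rw [e5]
        linarith
      have h3 : ‖W‖ ≤ ν ^ 2 * Real.sqrt n := by
        refine (Complex.norm_le_abs_re_add_abs_im W).trans ?_
        have e1 : 9 * Real.sqrt n + (C1 + 1) * ν * Real.sqrt n ≤ ν ^ 2 * Real.sqrt n := by
          rw [← add_mul]
          apply mul_le_mul_of_nonneg_right _ hsn.le
          have e2 : 0 < 4 / c1 := by positivity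
          have e3 : 10 + C1 ≤ ν := by linarith
          nlinarith
        linarith
      exact num_upper ν _ _ _ hν16 hmM hν20025 (norm_nonneg _) h3

end Pool.Agent.Helper59.Lit
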