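import Pool.Agent.Helper59.Lit.Defs

/-!
# Module Kernel: the kernel FK (eighth power of the Fejer kernel)
-/

set_option autoImplicit false

namespace Pool.Agent.Helper59.Lit

open Finset

/-- trigonometric polynomials with nonnegative coefficients and value one at the origin -/
structure TP (F : ℂ → ℂ) (N : ℤ) (f : ℤ → ℝ) : Prop where
  nn : 0 ≤ N
  nonneg : ∀ k, 0 ≤ f k
  supp : ∀ k, N < |k| → f k = 0
  one : F 0 = 1
  eq : ∀ s : ℂ, F s = ∑ k ∈ Icc (-N) N, (f k : ℂ) * Complex.exp (Complex.I * (k : ℂ) * s)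

theorem TP.sum_one {F : ℂ → ℂ} {N : ℤ} {f : ℤ → ℝ} (h : TP F N f) :
    ∑ k ∈ Icc (-N) N, f k = 1 := by
  have h1 := h.eq 0
  rw [h.one] at h1
  simp only [mul_zero, Complex.exp_zero, mul_one] at h1
  exact_mod_cast h1.symm

theorem TP.sum_le {F : ℂ → ℂ} {N : ℤ} {f : ℤ → ℝ} (h : TP F N f) (S : Finset ℤ) :
    ∑ k ∈ S, f k ≤ 1 := by
  classical
  rw [← h.sum_one]
  have h1 : ∑ k ∈ S, f k = ∑ k ∈ S ∩ Icc (-N) N, f k := by
    symm
    apply Finset.sum_subset Finset.inter_subset_left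
    intro k hk hk'
    apply h.supp
    rw [lt_abs]
    by_contra hcon
    push Not at hcon
    apply hk'
    rw [Finset.mem_inter, Finset.mem_Icc]
    exact ⟨hk, by omega, by omega⟩
  rw [h1]
  exact Finset.sum_le_sum_of_subset_of_nonneg Finset.inter_subset_right
    (fun k _ _ => h.nonneg k)

theorem TP.sum_ext {F : ℂ → ℂ} {N : ℤ} {f : ℤ → ℝ} (h : TP F N f) (s : ℂ) {S : Finset ℤ}
    (hS : Icc (-N) N ⊆ S) :
    ∑ k ∈ S, (f k : ℂ) * Complex.exp (Complex.I * (k : ℂ) * s) = F s := by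
  rw [h.eq]
  symm
  apply Finset.sum_subset hS
  intro k _ hk'
  rw [h.supp, Complex.ofReal_zero, zero_mul]
  rw [lt_abs]
  by_contra hcon
  push Not at hcon
  apply hk'
  rw [Finset.mem_Icc]
  exact ⟨by omega, by omega⟩

theorem TP.mul {F G : ℂ → ℂ} {N M : ℤ} {f g : ℤ → ℝ} (hF : TP F N f) (hG : TP G M g) :
    TP (fun s => F s * G s) (N + M) (fun k => ∑ a ∈ Icc (-N) N, f a * g (k - a)) where
  nn := add_nonneg hF.nn hG.nn
  nonneg k := Finset.sum_nonneg fun a _ => mul_nonneg (hF.nonneg _) (hG.nonneg _)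
  supp k hk := by
    apply Finset.sum_eq_zero
    intro a ha
    rw [Finset.mem_Icc] at ha
    rw [hG.supp, mul_zero]
    rw [lt_abs] at hk ⊢
    rcases hk with hk | hk
    · left; linarith [ha.2]
    · right; linarith [ha.1]
  one := by rw [hF.one, hG.one, one_mul]
  eq s := by
    have h1 : ∀ a ∈ Icc (-N) N, ∑ k ∈ Icc (-(N + M)) (N + M),
        ((f a * g (k - a) : ℝ) : ℂ) * Complex.exp (Complex.I * (k : ℂ) * s)
        = (f a : ℂ) * Complex.exp (Complex.I * (a : ℂ) * s) * G s := by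
      intro a ha
      rw [Finset.mem_Icc] at ha
      rw [← hG.sum_ext s (S := (Icc (-(N + M)) (N + M)).map (Equiv.subRight a).toEmbedding)]
      · rw [Finset.sum_map, Finset.mul_sum]
        refine Finset.sum_congr rfl fun k _ => ?_
        simp only [Equiv.coe_toEmbedding, Equiv.subRight_apply]
        have h2 : Complex.exp (Complex.I * (k : ℂ) * s)
            = Complex.exp (Complex.I * (a : ℂ) * s) *
              Complex.exp (Complex.I * ((k - a : ℤ) : ℂ) * s) := by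
          rw [← Complex.exp_add]
          congr 1
          push_cast
          ring
        rw [h2]
        push_cast
        ring
      · intro b hb
        rw [Finset.mem_Icc] at hb
        rw [Finset.mem_map]
        refine ⟨b + a, ?_, ?_⟩
        · rw [Finset.mem_Icc]
          constructor <;> linarith [ha.1, ha.2, hb.1, hb.2]
        · simp
    calc F s * G s = ∑ a ∈ Icc (-N) N,
          (f a : ℂ) * Complex.exp (Complex.I * (a : ℂ) * s) * G s := by
          rw [← Finset.sum_mul, ← hF.eq]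
      _ = ∑ a ∈ Icc (-N) N, ∑ k ∈ Icc (-(N + M)) (N + M),
        ((f a * g (k - a) : ℝ) : ℂ) * Complex.exp (Complex.I * (k : ℂ) * s) :=
          (Finset.sum_congr rfl fun a ha => (h1 a ha)).symm
      _ = ∑ k ∈ Icc (-(N + M)) (N + M), ∑ a ∈ Icc (-N) N,
        ((f a * g (k - a) : ℝ) : ℂ) * Complex.exp (Complex.I * (k : ℂ) * s) :=
          Finset.sum_comm
      _ = _ := by
          refine Finset.sum_congr rfl fun k _ => ?_
          rw [← Finset.sum_mul]
          push_cast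
          rfl

theorem TP.mul_le {G : ℂ → ℂ} {N M : ℤ} {f g : ℤ → ℝ} (hG : TP G M g) {B : ℝ}
    (hB : 0 ≤ B) (hf : ∀ k, f k ≤ B) (k : ℤ) :
    ∑ a ∈ Icc (-N) N, f a * g (k - a) ≤ B := by
  calc ∑ a ∈ Icc (-N) N, f a * g (k - a) ≤ ∑ a ∈ Icc (-N) N, B * g (k - a) :=
        Finset.sum_le_sum fun a _ => mul_le_mul_of_nonneg_right (hf a) (hG.nonneg _)
    _ = B * ∑ a ∈ Icc (-N) N, g (k - a) := by rw [Finset.mul_sum]
    _ = B * ∑ b ∈ (Icc (-N) N).map (Equiv.subLeft k).toEmbedding, g b := by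
        rw [Finset.sum_map]
        rfl
    _ ≤ B * 1 := mul_le_mul_of_nonneg_left (hG.sum_le _) hB
    _ = B := mul_one B

theorem TP.shrink {F : ℂ → ℂ} {N N' : ℤ} {f : ℤ → ℝ} (h : TP F N f) (h0 : 0 ≤ N')
    (hle : N' ≤ N) (hs : ∀ k, N' < |k| → f k = 0) : TP F N' f where
  nn := h0
  nonneg := h.nonneg
  supp := hs
  one := h.one
  eq s := by
    rw [h.eq s]
    symm
    apply Finset.sum_subset
    · intro k hk
      rw [Finset.mem_Icc] at hk ⊢
      constructor <;> linarith [hk.1, hk.2]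
    · intro k _ hk'
      rw [hs, Complex.ofReal_zero, zero_mul]
      rw [lt_abs]
      by_contra hcon
      push Not at hcon
      apply hk'
      rw [Finset.mem_Icc]
      exact ⟨by omega, by omega⟩

theorem TP.pow {H : ℂ → ℂ} {N : ℤ} {f : ℤ → ℝ} (h : TP H N f) {B : ℝ}
    (hB : 0 ≤ B) (hf : ∀ k, f k ≤ B) (n : ℕ) :
    ∃ g : ℤ → ℝ, TP (fun s => H s ^ (n + 1)) ((n + 1 : ℤ) * N) g ∧ ∀ k, g k ≤ B := by
  induction n with
  | zero =>
    refine ⟨f, ?_, hf⟩
    simpa using h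
  | succ n ih =>
    obtain ⟨g, hg, hgB⟩ := ih
    refine ⟨_, ?_, fun k => TP.mul_le (N := (n + 1 : ℤ) * N)
      h hB hgB k⟩
    have h1 := hg.mul h
    have e1 : ((n + 1 : ℤ) * N + N) = (((n + 1 : ℕ) : ℤ) + 1) * N := by push_cast; ring
    rw [e1] at h1
    simpa [pow_succ] using h1

/-- coefficients of the Dirichlet kernel -/
noncomputable def dk (m : ℕ) (k : ℤ) : ℝ := if 0 ≤ k ∧ k < m then 1 / (m : ℝ) else 0

theorem Kc_eq (m : ℕ) (s : ℂ) : Kc m s =
    ∑ j ∈ range m, ((1 / (m : ℝ) : ℝ) : ℂ) * Complex.exp (Complex.I * (j : ℂ) * s) := by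
  unfold Kc
  rw [Finset.mul_sum]
  push_cast
  rfl

theorem TP_Kc (m : ℕ) (hm : 1 ≤ m) : TP (Kc m) ((m : ℤ) - 1) (dk m) where
  nn := by omega
  nonneg k := by unfold dk; split_ifs <;> positivity
  supp k hk := by
    unfold dk
    rw [if_neg]
    rintro ⟨h1, h2⟩
    rw [abs_of_nonneg h1] at hk
    omega
  one := by
    unfold Kc
    have : (m : ℂ) ≠ 0 := by exact_mod_cast (by omega : m ≠ 0)
    simp [this]
  eq s := by
    rw [Kc_eq]
    symm
    rw [← Finset.sum_subset (s₁ := (range m).map Nat.castEmbedding)]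
    · rw [Finset.sum_map]
      refine Finset.sum_congr rfl fun j hj => ?_
      rw [Finset.mem_range] at hj
      simp only [Nat.castEmbedding_apply, Int.cast_natCast]
      unfold dk
      rw [if_pos ⟨by omega, by omega⟩]
    · intro k hk
      rw [Finset.mem_map] at hk
      obtain ⟨j, hj, rfl⟩ := hk
      rw [Finset.mem_range] at hj
      rw [Finset.mem_Icc]
      simp only [Nat.castEmbedding_apply]
      constructor <;> omega
    · intro k _ hk'
      unfold dk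
      rw [if_neg, Complex.ofReal_zero, zero_mul]
      rintro ⟨h1, h2⟩
      apply hk'
      rw [Finset.mem_map]
      refine ⟨k.toNat, ?_, ?_⟩
      · rw [Finset.mem_range]; omega
      · simp only [Nat.castEmbedding_apply]; omega

theorem TP.neg {F : ℂ → ℂ} {N : ℤ} {f : ℤ → ℝ} (h : TP F N f) :
    TP (fun s => F (-s)) N (fun k => f (-k)) where
  nn := h.nn
  nonneg k := h.nonneg _
  supp k hk := h.supp _ (by rwa [abs_neg])
  one := by simpa using h.one
  eq s := by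
    rw [h.eq]
    have hmap : (Icc (-N) N).map (Equiv.neg ℤ).toEmbedding = Icc (-N) N := by
      ext k
      rw [Finset.mem_map, Finset.mem_Icc]
      constructor
      · rintro ⟨a, ha, rfl⟩
        rw [Finset.mem_Icc] at ha
        simp only [Equiv.coe_toEmbedding, Equiv.neg_apply]
        omega
      · intro hk
        refine ⟨-k, ?_, by simp⟩
        rw [Finset.mem_Icc]
        omega
    nth_rewrite 1 [← hmap]
    rw [Finset.sum_map]
    refine Finset.sum_congr rfl fun k _ => ?_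
    simp only [Equiv.coe_toEmbedding, Equiv.neg_apply]
    congr 2
    push_cast
    ring

theorem FK_coef (m : ℕ) (hm : 1 ≤ m) : ∃ f : ℤ → ℝ,
    (∀ k, 0 ≤ f k ∧ f k ≤ 1 / (m : ℝ)) ∧ (∀ k, f (-k) = f k) ∧
    (∀ k, 8 * ((m : ℤ) - 1) < |k| → f k = 0) ∧
    ∀ s : ℂ, FK m s = ∑ k ∈ Icc (-(8 * ((m : ℤ) - 1))) (8 * ((m : ℤ) - 1)),
      (f k : ℂ) * Complex.exp (Complex.I * (k : ℂ) * s) := by
  have hK := TP_Kc m hm
  have hB : (0 : ℝ) ≤ 1 / m := by positivity
  have hdk : ∀ k, dk m k ≤ 1 / (m : ℝ) := by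
    intro k; unfold dk; split_ifs
    · exact le_rfl
    · exact hB
  have hH0 := hK.mul hK.neg
  have hH : TP (fun s => Kc m s * Kc m (-s)) ((m : ℤ) - 1)
      (fun k => ∑ a ∈ Icc (-((m : ℤ) - 1)) ((m : ℤ) - 1), dk m a * dk m (-(k - a))) := by
    refine hH0.shrink (by omega) (by omega) ?_
    intro k hk
    apply Finset.sum_eq_zero
    intro a _
    by_contra hne
    have h1 : dk m a ≠ 0 := left_ne_zero_of_mul hne
    have h2 : dk m (-(k - a)) ≠ 0 := right_ne_zero_of_mul hne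
    unfold dk at h1 h2
    rw [ne_eq, ite_eq_right_iff, Classical.not_imp] at h1 h2
    have h3 := h1.1
    have h4 := h2.1
    rw [lt_abs] at hk
    omega
  have hHB : ∀ k, (fun k => ∑ a ∈ Icc (-((m : ℤ) - 1)) ((m : ℤ) - 1),
      dk m a * dk m (-(k - a))) k ≤ 1 / (m : ℝ) := fun k =>
    TP.mul_le (N := (m : ℤ) - 1) (f := dk m) hK.neg hB hdk k
  obtain ⟨g, hg, hgB⟩ := hH.pow hB hHB 7
  have e8 : ((7 : ℕ) : ℤ) + 1 = 8 := by norm_num
  rw [e8] at hg
  have hFK : ∀ s, FK m s = (fun s => (Kc m s * Kc m (-s)) ^ (7 + 1)) s := fun s => rfl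
  refine ⟨fun k => (g k + g (-k)) / 2, fun k => ⟨?_, ?_⟩, fun k => ?_, fun k hk => ?_, fun s => ?_⟩
  · have h1 := hg.nonneg k
    have h2 := hg.nonneg (-k)
    positivity
  · have h1 := hgB k
    have h2 := hgB (-k)
    simp only
    linarith
  · simp only [neg_neg]
    ring
  · simp only
    rw [hg.supp k hk, hg.supp (-k) (by rwa [abs_neg])]
    norm_num
  · have h1 : FK m s = ∑ k ∈ Icc (-(8 * ((m : ℤ) - 1))) (8 * ((m : ℤ) - 1)),
        (g k : ℂ) * Complex.exp (Complex.I * (k : ℂ) * s) := hg.eq s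
    have h2 : (Kc m (-s) * Kc m (- -s)) ^ (7 + 1) =
        ∑ k ∈ Icc (-(8 * ((m : ℤ) - 1))) (8 * ((m : ℤ) - 1)),
        (g (-k) : ℂ) * Complex.exp (Complex.I * (k : ℂ) * s) := hg.neg.eq s
    have h3 : (Kc m (-s) * Kc m (- -s)) ^ (7 + 1) = FK m s := by
      rw [neg_neg]
      unfold FK
      ring
    rw [h3] at h2
    have h4 : FK m s = (FK m s + FK m s) / 2 := by ring
    rw [h4]
    nth_rewrite 1 [h1]
    rw [h2, ← Finset.sum_add_distrib, Finset.sum_div]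
    refine Finset.sum_congr rfl fun k _ => ?_
    push_cast
    ring

theorem FK_periodic (m : ℕ) (s : ℂ) : FK m (s + 2 * Real.pi) = FK m s := by
  have h1 : ∀ s : ℂ, Kc m (s + 2 * Real.pi) = Kc m s := by
    intro s
    unfold Kc
    congr 1
    refine Finset.sum_congr rfl fun j _ => ?_
    have : Complex.I * (j : ℂ) * (s + 2 * Real.pi)
        = Complex.I * (j : ℂ) * s + (j : ℤ) * (2 * Real.pi * Complex.I) := by
      push_cast; ring
    rw [this, Complex.exp_add, Complex.exp_int_mul_two_pi_mul_I, mul_one]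
  have h2 : Kc m (-(s + 2 * Real.pi)) = Kc m (-s) := by
    rw [← h1 (-(s + 2 * Real.pi))]
    congr 1
    ring
  unfold FK
  rw [h1, h2]

theorem Kc_diff (m : ℕ) : Differentiable ℂ (Kc m) := by
  unfold Kc
  fun_prop

theorem FK_diff (m : ℕ) : Differentiable ℂ (FK m) := by
  unfold FK
  have h1 := Kc_diff m
  have h2 : Differentiable ℂ fun s => Kc m (-s) := h1.comp differentiable_neg
  exact (h1.mul h2).pow 8

theorem Kc_neg_conj (m : ℕ) (x : ℝ) : Kc m (-(x : ℂ)) = (starRingEnd ℂ) (Kc m (x : ℂ)) := by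
  unfold Kc
  rw [map_mul, map_sum]
  congr 1
  · simp
  · refine Finset.sum_congr rfl fun j _ => ?_
    rw [← Complex.exp_conj]
    congr 1
    simp

theorem Kc_mul (m : ℕ) (s : ℂ) : (m : ℂ) * Kc m s * (Complex.exp (Complex.I * s) - 1)
    = if m = 0 then 0 else Complex.exp (Complex.I * (m : ℂ) * s) - 1 := by
  split_ifs with h
  · subst h; simp
  · unfold Kc
    have hm : (m : ℂ) ≠ 0 := by exact_mod_cast h
    have h1 : (m : ℂ) * (1 / (m : ℂ) * ∑ j ∈ range m, Complex.exp (Complex.I * (j : ℂ) * s))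
        = ∑ j ∈ range m, Complex.exp (Complex.I * s) ^ j := by
      rw [← mul_assoc, mul_one_div_cancel hm, one_mul]
      refine Finset.sum_congr rfl fun j _ => ?_
      rw [← Complex.exp_nat_mul]
      congr 1
      ring
    rw [h1, geom_sum_mul, ← Complex.exp_nat_mul]
    congr 2
    ring

theorem sum_sq_centred (m : ℕ) : ∑ j ∈ range m, ((j : ℝ) - ((m : ℝ) - 1) / 2) ^ 2
    = m * ((m : ℝ) ^ 2 - 1) / 12 := by
  have h1 : ∀ n : ℕ, ∑ j ∈ range n, (j : ℝ) = n * ((n : ℝ) - 1) / 2 := by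
    intro n
    induction n with
    | zero => simp
    | succ n ih => rw [Finset.sum_range_succ, ih]; push_cast; ring
  have h2 : ∀ n : ℕ, ∑ j ∈ range n, (j : ℝ) ^ 2 = n * ((n : ℝ) - 1) * (2 * n - 1) / 6 := by
    intro n
    induction n with
    | zero => simp
    | succ n ih => rw [Finset.sum_range_succ, ih]; push_cast; ring
  have h3 : ∀ j : ℕ, ((j : ℝ) - ((m : ℝ) - 1) / 2) ^ 2
      = (j : ℝ) ^ 2 - ((m : ℝ) - 1) * j + (((m : ℝ) - 1) / 2) ^ 2 := by
    intro j; ring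
  simp_rw [h3]
  rw [Finset.sum_add_distrib, Finset.sum_sub_distrib, ← Finset.mul_sum, h1, h2]
  simp only [Finset.sum_const, Finset.card_range, nsmul_eq_mul]
  ring

theorem Kc_norm_le_one (m : ℕ) (hm : 1 ≤ m) (x : ℝ) : ‖Kc m (x : ℂ)‖ ≤ 1 := by
  unfold Kc
  have hm' : (0 : ℝ) < m := by exact_mod_cast (by omega : 0 < m)
  rw [norm_mul]
  have h1 : ‖(1 / (m : ℂ))‖ = 1 / (m : ℝ) := by simp
  rw [h1]
  have h2 : ‖∑ j ∈ range m, Complex.exp (Complex.I * (j : ℂ) * (x : ℂ))‖ ≤ m := by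
    refine (norm_sum_le _ _).trans ?_
    have : ∀ j ∈ range m, ‖Complex.exp (Complex.I * (j : ℂ) * (x : ℂ))‖ ≤ 1 := by
      intro j _
      rw [Complex.norm_exp]
      simp
    refine (Finset.sum_le_sum this).trans ?_
    simp
  calc 1 / (m : ℝ) * _ ≤ 1 / (m : ℝ) * m := by gcongr
    _ = 1 := by field_simp

theorem Kc_norm_upper (m : ℕ) (hm : 1 ≤ m) (x : ℝ) (hx : |x| ≤ Real.pi) (hx0 : x ≠ 0) :
    ‖Kc m (x : ℂ)‖ ≤ Real.pi / (m * |x|) := by
  have hm' : (0 : ℝ) < m := by exact_mod_cast (by omega : 0 < m)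
  have hxp : 0 < |x| := abs_pos.mpr hx0
  have h1 := Kc_mul m (x : ℂ)
  rw [if_neg (by omega)] at h1
  have h2 := congrArg norm h1
  rw [norm_mul, norm_mul] at h2
  have h3 : ‖Complex.exp (Complex.I * (m : ℂ) * (x : ℂ)) - 1‖ ≤ 2 := by
    refine (norm_sub_le _ _).trans ?_
    rw [Complex.norm_exp]
    simp
    norm_num
  have h4 : 2 * |x| / Real.pi ≤ ‖Complex.exp (Complex.I * (x : ℂ)) - 1‖ := by
    rw [Complex.norm_exp_I_mul_ofReal_sub_one, Real.norm_eq_abs, abs_mul, abs_two]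
    have h5 : 2 / Real.pi * |x / 2| ≤ |Real.sin (x / 2)| := by
      rw [Real.abs_sin_eq_sin_abs_of_abs_le_pi]
      · apply Real.mul_le_sin (abs_nonneg _)
        rw [abs_div, abs_two]
        linarith
      · rw [abs_div, abs_two]
        linarith [abs_nonneg x]
    rw [abs_div, abs_two] at h5
    calc 2 * |x| / Real.pi = 2 * (2 / Real.pi * (|x| / 2)) := by ring
      _ ≤ _ := by linarith
  have h6 : ‖(m : ℂ)‖ = m := by simp
  rw [h6] at h2
  have h7 : (m : ℝ) * ‖Kc m (x : ℂ)‖ * (2 * |x| / Real.pi) ≤ 2 := by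
    calc _ ≤ (m : ℝ) * ‖Kc m (x : ℂ)‖ * ‖Complex.exp (Complex.I * (x : ℂ)) - 1‖ := by
          gcongr
      _ ≤ 2 := by rw [h2]; exact h3
  rw [le_div_iff₀ (by positivity)]
  have h8 : (m : ℝ) * ‖Kc m (x : ℂ)‖ * (2 * |x| / Real.pi) * Real.pi ≤ 2 * Real.pi := by
    gcongr
  have h9 : (m : ℝ) * ‖Kc m (x : ℂ)‖ * (2 * |x| / Real.pi) * Real.pi
      = 2 * (‖Kc m (x : ℂ)‖ * (m * |x|)) := by
    field_simp
  linarith

theorem Kc_norm_lower (m : ℕ) (hm : 1 ≤ m) (x : ℝ) (hx : (m : ℝ) * |x| ≤ Real.pi) :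
    57 / 100 ≤ ‖Kc m (x : ℂ)‖ := by
  have hm' : (0 : ℝ) < m := by exact_mod_cast (by omega : 0 < m)
  have h1 : ‖Kc m (x : ℂ)‖ = ‖Complex.exp (Complex.I * ((-(((m : ℝ) - 1) / 2) * x : ℝ) : ℂ))
      * Kc m (x : ℂ)‖ := by
    rw [norm_mul, mul_comm Complex.I, Complex.norm_exp_ofReal_mul_I, one_mul]
  have h2 : Complex.exp (Complex.I * ((-(((m : ℝ) - 1) / 2) * x : ℝ) : ℂ)) * Kc m (x : ℂ)
      = (1 / (m : ℂ)) * ∑ j ∈ range m,
        Complex.exp (((((j : ℝ) - ((m : ℝ) - 1) / 2) * x : ℝ) : ℂ) * Complex.I) := by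
    unfold Kc
    rw [mul_left_comm, Finset.mul_sum]
    congr 1
    refine Finset.sum_congr rfl fun j _ => ?_
    rw [← Complex.exp_add]
    congr 1
    push_cast
    ring
  have h3 : ((1 / (m : ℂ)) * ∑ j ∈ range m,
        Complex.exp (((((j : ℝ) - ((m : ℝ) - 1) / 2) * x : ℝ) : ℂ) * Complex.I)).re
      = 1 / (m : ℝ) * ∑ j ∈ range m, Real.cos (((j : ℝ) - ((m : ℝ) - 1) / 2) * x) := by
    have e1 : (1 / (m : ℂ)) = ((1 / (m : ℝ) : ℝ) : ℂ) := by push_cast; rfl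
    rw [e1, Complex.re_ofReal_mul, Complex.re_sum]
    simp only [Complex.exp_ofReal_mul_I_re]
  have h4 : 1 / (m : ℝ) * ∑ j ∈ range m, (1 - (((j : ℝ) - ((m : ℝ) - 1) / 2) * x) ^ 2 / 2)
      ≤ 1 / (m : ℝ) * ∑ j ∈ range m, Real.cos (((j : ℝ) - ((m : ℝ) - 1) / 2) * x) := by
    gcongr with j _
    exact Real.one_sub_sq_div_two_le_cos
  have h5 : 1 / (m : ℝ) * ∑ j ∈ range m, (1 - (((j : ℝ) - ((m : ℝ) - 1) / 2) * x) ^ 2 / 2)
      = 1 - ((m : ℝ) ^ 2 - 1) * x ^ 2 / 24 := by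
    have e2 : ∀ j : ℕ, (1 - (((j : ℝ) - ((m : ℝ) - 1) / 2) * x) ^ 2 / 2)
        = 1 - (x ^ 2 / 2) * ((j : ℝ) - ((m : ℝ) - 1) / 2) ^ 2 := by intro j; ring
    simp_rw [e2]
    rw [Finset.sum_sub_distrib, ← Finset.mul_sum, sum_sq_centred]
    simp only [Finset.sum_const, Finset.card_range, nsmul_eq_mul]
    field_simp
    ring
  have h6 : ((m : ℝ) ^ 2 - 1) * x ^ 2 ≤ Real.pi ^ 2 := by
    have e3 : ((m : ℝ) * |x|) ^ 2 ≤ Real.pi ^ 2 := by gcongr
    rw [mul_pow, sq_abs] at e3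
    nlinarith [sq_nonneg x]
  have h7 : Real.pi ^ 2 ≤ 10 := by
    nlinarith [Real.pi_lt_d2, Real.pi_pos]
  rw [h1, h2]
  refine le_trans ?_ (Complex.re_le_norm _)
  rw [h3]
  linarith

theorem FK_real (m : ℕ) (hm : 1 ≤ m) (x : ℝ) : ∃ y : ℝ, FK m (x : ℂ) = (y : ℂ) ∧ 0 ≤ y ∧
    y ≤ 1 ∧ (|x| ≤ Real.pi → x ≠ 0 → y ≤ (Real.pi / (m * |x|)) ^ 16) ∧
    ((m : ℝ) * |x| ≤ Real.pi → (57 / 100) ^ 16 ≤ y) := by
  refine ⟨‖Kc m (x : ℂ)‖ ^ 16, ?_, by positivity, ?_, ?_, ?_⟩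
  · unfold FK
    rw [Kc_neg_conj, Complex.mul_conj, Complex.normSq_eq_norm_sq]
    push_cast
    ring
  · exact pow_le_one₀ (norm_nonneg _) (Kc_norm_le_one m hm x)
  · intro h1 h2
    exact pow_le_pow_left₀ (norm_nonneg _) (Kc_norm_upper m hm x h1 h2) 16
  · intro h1
    exact pow_le_pow_left₀ (by norm_num) (Kc_norm_lower m hm x h1) 16

theorem Kc_norm_cplx (m : ℕ) (hm : 1 ≤ m) (s : ℂ) (hs : |s.im| ≤ 1 / (m : ℝ)) :
    ‖Kc m s‖ ≤ Real.exp 1 := by
  have hm' : (0 : ℝ) < m := by exact_mod_cast (by omega : 0 < m)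
  unfold Kc
  rw [norm_mul]
  have h1 : ‖(1 / (m : ℂ))‖ = 1 / (m : ℝ) := by simp
  rw [h1]
  have h2 : ‖∑ j ∈ range m, Complex.exp (Complex.I * (j : ℂ) * s)‖ ≤ m * Real.exp 1 := by
    refine (norm_sum_le _ _).trans ?_
    have : ∀ j ∈ range m, ‖Complex.exp (Complex.I * (j : ℂ) * s)‖ ≤ Real.exp 1 := by
      intro j hj
      rw [Finset.mem_range] at hj
      rw [Complex.norm_exp]
      apply Real.exp_le_exp.mpr
      have e1 : (Complex.I * (j : ℂ) * s).re = -((j : ℝ) * s.im) := by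
        simp [Complex.mul_re]
      rw [e1]
      have e2 : |(j : ℝ) * s.im| ≤ 1 := by
        rw [abs_mul, abs_of_nonneg (by positivity : (0 : ℝ) ≤ j)]
        calc (j : ℝ) * |s.im| ≤ m * (1 / (m : ℝ)) := by gcongr
          _ = 1 := by field_simp
      linarith [neg_abs_le ((j : ℝ) * s.im)]
    refine (Finset.sum_le_sum this).trans ?_
    simp
  calc 1 / (m : ℝ) * _ ≤ 1 / (m : ℝ) * (m * Real.exp 1) := by gcongr
    _ = Real.exp 1 := by field_simp

theorem exp_sub_one_lower (s : ℂ) (hs : |s.re| ≤ Real.pi) :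
    |s.re| / Real.pi ≤ ‖Complex.exp (Complex.I * s) - 1‖ := by
  set r := Real.exp (-s.im) with hr
  have hrpos : 0 < r := Real.exp_pos _
  have hsq : ‖Complex.exp (Complex.I * s) - 1‖ ^ 2 = r ^ 2 - 2 * r * Real.cos s.re + 1 := by
    rw [← Complex.normSq_eq_norm_sq, Complex.normSq_apply]
    have e1 : (Complex.exp (Complex.I * s) - 1).re = r * Real.cos s.re - 1 := by
      rw [Complex.sub_re, Complex.exp_re]
      simp [hr]
    have e2 : (Complex.exp (Complex.I * s) - 1).im = r * Real.sin s.re := by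
      rw [Complex.sub_im, Complex.exp_im]
      simp [hr]
    rw [e1, e2]
    have := Real.sin_sq_add_cos_sq s.re
    nlinarith
  have hlow : (|s.re| / Real.pi) ^ 2 ≤ ‖Complex.exp (Complex.I * s) - 1‖ ^ 2 := by
    rw [hsq]
    rcases le_or_gt (|s.re|) (Real.pi / 2) with h | h
    · have h1 : 2 / Real.pi * |s.re| ≤ Real.sin |s.re| := Real.mul_le_sin (abs_nonneg _) h
      have h2 : Real.sin |s.re| ^ 2 = Real.sin s.re ^ 2 := by
        rcases abs_cases s.re with ⟨h3, _⟩ | ⟨h3, _⟩ <;> rw [h3]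
        rw [Real.sin_neg]; ring
      have h3 : (|s.re| / Real.pi) ^ 2 ≤ Real.sin s.re ^ 2 := by
        rw [← h2]
        have h4 : |s.re| / Real.pi ≤ 2 / Real.pi * |s.re| := by
          rw [div_mul_eq_mul_div]
          gcongr
          linarith [abs_nonneg s.re]
        have h5 : (0 : ℝ) ≤ |s.re| / Real.pi := by positivity
        gcongr
        linarith
      have h6 := Real.sin_sq_add_cos_sq s.re
      nlinarith [sq_nonneg (r - Real.cos s.re)]
    · have h1 : Real.cos s.re ≤ 0 := by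
        rw [← Real.cos_abs]
        apply Real.cos_nonpos_of_pi_div_two_le_of_le h.le
        linarith [Real.pi_pos]
      have h2 : (|s.re| / Real.pi) ^ 2 ≤ 1 := by
        apply pow_le_one₀ (by positivity)
        rw [div_le_one Real.pi_pos]
        exact hs
      nlinarith [sq_nonneg r, mul_nonneg hrpos.le (neg_nonneg.mpr h1)]
  exact (pow_le_pow_iff_left₀ (by positivity) (norm_nonneg _) (by norm_num)).mp hlow

theorem Kc_norm_cplx_upper (m : ℕ) (hm : 1 ≤ m) (s : ℂ) (hs : |s.im| ≤ 1 / (m : ℝ))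
    (h1 : |s.re| ≤ Real.pi) (h2 : s.re ≠ 0) : ‖Kc m s‖ ≤ 4 * Real.pi / (m * |s.re|) := by
  have hm' : (0 : ℝ) < m := by exact_mod_cast (by omega : 0 < m)
  have hxp : 0 < |s.re| := abs_pos.mpr h2
  have h3 := Kc_mul m s
  rw [if_neg (by omega)] at h3
  have h4 := congrArg norm h3
  rw [norm_mul, norm_mul] at h4
  have h5 : ‖Complex.exp (Complex.I * (m : ℂ) * s) - 1‖ ≤ 4 := by
    refine (norm_sub_le _ _).trans ?_
    rw [Complex.norm_exp, norm_one]
    have e1 : (Complex.I * (m : ℂ) * s).re = -((m : ℝ) * s.im) := by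
      simp [Complex.mul_re]
    have e2 : |(m : ℝ) * s.im| ≤ 1 := by
      rw [abs_mul, abs_of_nonneg (by positivity : (0 : ℝ) ≤ m)]
      calc (m : ℝ) * |s.im| ≤ m * (1 / (m : ℝ)) := by gcongr
        _ = 1 := by field_simp
    have e3 : Real.exp (-((m : ℝ) * s.im)) ≤ Real.exp 1 := by
      apply Real.exp_le_exp.mpr
      linarith [neg_abs_le ((m : ℝ) * s.im)]
    rw [e1]
    linarith [Real.exp_one_lt_d9]
  have h6 : |s.re| / Real.pi ≤ ‖Complex.exp (Complex.I * s) - 1‖ := exp_sub_one_lower s h1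
  have h7 : ‖(m : ℂ)‖ = m := by simp
  rw [h7] at h4
  have h8 : (m : ℝ) * ‖Kc m s‖ * (|s.re| / Real.pi) ≤ 4 := by
    calc _ ≤ (m : ℝ) * ‖Kc m s‖ * ‖Complex.exp (Complex.I * s) - 1‖ := by gcongr
      _ ≤ 4 := by rw [h4]; exact h5
  rw [le_div_iff₀ (by positivity)]
  have h9 : (m : ℝ) * ‖Kc m s‖ * (|s.re| / Real.pi) * Real.pi ≤ 4 * Real.pi := by
    gcongr
  have h10 : (m : ℝ) * ‖Kc m s‖ * (|s.re| / Real.pi) * Real.pi
      = ‖Kc m s‖ * (m * |s.re|) := by
    field_simp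
  linarith

theorem FK_cplx (m : ℕ) (hm : 1 ≤ m) (s : ℂ) (hs : |s.im| ≤ 1 / (m : ℝ)) :
    ‖FK m s‖ ≤ Real.exp 16 ∧
    (|s.re| ≤ Real.pi → s.re ≠ 0 → ‖FK m s‖ ≤ (4 * Real.pi / (m * |s.re|)) ^ 16) := by
  have hs' : |(-s).im| ≤ 1 / (m : ℝ) := by rwa [Complex.neg_im, abs_neg]
  unfold FK
  rw [norm_pow, norm_mul]
  constructor
  · have h1 := Kc_norm_cplx m hm s hs
    have h2 := Kc_norm_cplx m hm (-s) hs'
    calc (‖Kc m s‖ * ‖Kc m (-s)‖) ^ 8 ≤ (Real.exp 1 * Real.exp 1) ^ 8 := by gcongr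
      _ = Real.exp 16 := by
        rw [← Real.exp_add, ← Real.exp_nat_mul]
        norm_num
  · intro h1 h2
    have h3 := Kc_norm_cplx_upper m hm s hs h1 h2
    have h4 := Kc_norm_cplx_upper m hm (-s) hs' (by rwa [Complex.neg_re, abs_neg])
      (by rw [Complex.neg_re]; exact neg_ne_zero.mpr h2)
    rw [Complex.neg_re, abs_neg] at h4
    calc (‖Kc m s‖ * ‖Kc m (-s)‖) ^ 8
        ≤ ((4 * Real.pi / (m * |s.re|)) * (4 * Real.pi / (m * |s.re|))) ^ 8 := by gcongr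
      _ = (4 * Real.pi / (m * |s.re|)) ^ 16 := by ring

end Pool.Agent.Helper59.Lit
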