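import Pool.Agent.Helper59.Lit.Defs

/-!
# Module Pot: rounding of real coefficients to signs by a potential function
-/

set_option autoImplicit false

namespace Pool.Agent.Helper59.Lit

open Finset

/-- one step of the potential argument, for a single test -/
theorem pot_step_one (a x : ℝ) (hx : |x| ≤ 1) (ha : |a| ≤ 1 / 2) :
    (1 + x) / 2 * Real.exp (a * (1 - x) - a ^ 2 * (1 - x ^ 2)) +
      (1 - x) / 2 * Real.exp (a * (-1 - x) - a ^ 2 * (1 - x ^ 2)) ≤ 1 := by
  have hx1 : -1 ≤ x := (abs_le.1 hx).1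
  have hx2 : x ≤ 1 := (abs_le.1 hx).2
  have ha1 : -(1 / 2) ≤ a := (abs_le.1 ha).1
  have ha2 : a ≤ 1 / 2 := (abs_le.1 ha).2
  have key : ∀ u : ℝ, |u| ≤ 1 → Real.exp u ≤ 1 + u + u ^ 2 := by
    intro u hu
    have := (abs_le.1 (Real.abs_exp_sub_one_sub_id_le hu)).2
    linarith
  have h1 : |a * (1 - x)| ≤ 1 := by
    rw [abs_mul]
    have : |1 - x| ≤ 2 := abs_le.2 ⟨by linarith, by linarith⟩
    calc |a| * |1 - x| ≤ 1 / 2 * 2 := mul_le_mul ha this (abs_nonneg _) (by norm_num)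
      _ = 1 := by norm_num
  have h2 : |a * (-1 - x)| ≤ 1 := by
    rw [abs_mul]
    have : |-1 - x| ≤ 2 := abs_le.2 ⟨by linarith, by linarith⟩
    calc |a| * |-1 - x| ≤ 1 / 2 * 2 := mul_le_mul ha this (abs_nonneg _) (by norm_num)
      _ = 1 := by norm_num
  have e1 := key _ h1
  have e2 := key _ h2
  set v := a ^ 2 * (1 - x ^ 2) with hv
  rw [Real.exp_sub, Real.exp_sub]
  have hpos : 0 < Real.exp v := Real.exp_pos _
  have hv1 : 1 + v ≤ Real.exp v := by
    have := Real.add_one_le_exp v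
    linarith
  have : (1 + x) / 2 * Real.exp (a * (1 - x)) + (1 - x) / 2 * Real.exp (a * (-1 - x)) ≤
      Real.exp v := by
    have s1 : (1 + x) / 2 * Real.exp (a * (1 - x)) ≤
        (1 + x) / 2 * (1 + a * (1 - x) + (a * (1 - x)) ^ 2) :=
      mul_le_mul_of_nonneg_left e1 (by linarith)
    have s2 : (1 - x) / 2 * Real.exp (a * (-1 - x)) ≤
        (1 - x) / 2 * (1 + a * (-1 - x) + (a * (-1 - x)) ^ 2) :=
      mul_le_mul_of_nonneg_left e2 (by linarith)
    have s3 : (1 + x) / 2 * (1 + a * (1 - x) + (a * (1 - x)) ^ 2) +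
        (1 - x) / 2 * (1 + a * (-1 - x) + (a * (-1 - x)) ^ 2) = 1 + v := by
      rw [hv]; ring
    linarith
  have h3 : (1 + x) / 2 * (Real.exp (a * (1 - x)) / Real.exp v) +
      (1 - x) / 2 * (Real.exp (a * (-1 - x)) / Real.exp v) =
      ((1 + x) / 2 * Real.exp (a * (1 - x)) + (1 - x) / 2 * Real.exp (a * (-1 - x))) /
        Real.exp v := by
    ring
  rw [h3, div_le_one hpos]
  exact this

/-- Potential induction. -/
theorem pot_aux {ι : Type} [Fintype ι] (w : ι → ℕ → ℝ) (x : ℕ → ℝ)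
    (hx : ∀ j, |x j| ≤ 1) (lam : ι → ℝ) (hlam : ∀ p, 0 ≤ lam p) :
    ∀ n : ℕ, (∀ p, ∀ j < n, lam p * |w p j| ≤ 1 / 2) →
    ∃ e : ℕ → ℤ, IsSign e ∧ (∀ j, x j = 1 → e j = 1) ∧ (∀ j, x j = -1 → e j = -1) ∧
      ∑ p, Real.exp (lam p * ∑ j ∈ range n, ((e j : ℝ) - x j) * w p j -
        lam p ^ 2 * ∑ j ∈ range n, (1 - x j ^ 2) * w p j ^ 2) ≤ Fintype.card ι := by
  intro n
  induction n with
  | zero =>
    intro _
    refine ⟨fun j => if x j = -1 then -1 else 1, ?_, ?_, ?_, ?_⟩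
    · intro j
      by_cases h : x j = -1 <;> simp [h]
    · intro j h
      have : ¬ x j = -1 := by rw [h]; norm_num
      simp [this]
    · intro j h
      simp [h]
    · simp
  | succ n ih =>
    intro hw
    obtain ⟨e, he, h1, h2, hsum⟩ := ih (fun p j hj => hw p j (by omega))
    set W : ι → ℝ := fun p => Real.exp (lam p * ∑ j ∈ range n, ((e j : ℝ) - x j) * w p j -
        lam p ^ 2 * ∑ j ∈ range n, (1 - x j ^ 2) * w p j ^ 2) with hW
    have hWpos : ∀ p, 0 < W p := fun p => Real.exp_pos _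
    -- the new value for a choice eps
    have hnew : ∀ eps : ℤ, ∀ p, Real.exp (lam p * ∑ j ∈ range (n + 1),
          ((Function.update e n eps j : ℤ) - x j) * w p j -
        lam p ^ 2 * ∑ j ∈ range (n + 1), (1 - x j ^ 2) * w p j ^ 2) =
        W p * Real.exp ((lam p * w p n) * ((eps : ℝ) - x n) -
          (lam p * w p n) ^ 2 * (1 - x n ^ 2)) := by
      intro eps p
      have hsame : ∑ j ∈ range n, ((Function.update e n eps j : ℤ) - x j) * w p j =
          ∑ j ∈ range n, ((e j : ℝ) - x j) * w p j := by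
        apply sum_congr rfl
        intro j hj
        have : j ≠ n := by
          have := mem_range.1 hj
          omega
        rw [Function.update_of_ne this]
      rw [sum_range_succ, sum_range_succ, hsame, Function.update_self, hW]
      simp only
      rw [← Real.exp_add]
      congr 1
      ring
    have hcase : ∃ eps : ℤ, (eps = 1 ∨ eps = -1) ∧ (x n = 1 → eps = 1) ∧
        (x n = -1 → eps = -1) ∧
        ∑ p, W p * Real.exp ((lam p * w p n) * ((eps : ℝ) - x n) -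
          (lam p * w p n) ^ 2 * (1 - x n ^ 2)) ≤ ∑ p, W p := by
      by_cases hx1 : x n = 1
      · refine ⟨1, Or.inl rfl, fun _ => rfl, ?_, ?_⟩
        · intro h
          rw [h] at hx1
          norm_num at hx1
        · apply le_of_eq
          apply sum_congr rfl
          intro p _
          rw [hx1]
          norm_num
      by_cases hx2 : x n = -1
      · refine ⟨-1, Or.inr rfl, fun h => absurd h hx1, fun _ => rfl, ?_⟩
        apply le_of_eq
        apply sum_congr rfl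
        intro p _
        rw [hx2]
        norm_num
      · have hlt1 : x n < 1 := lt_of_le_of_ne (abs_le.1 (hx n)).2 hx1
        have hlt2 : -1 < x n := lt_of_le_of_ne (abs_le.1 (hx n)).1 (Ne.symm hx2)
        by_contra hcon
        push Not at hcon
        have c1 := hcon 1 (Or.inl rfl) (fun _ => rfl) (fun h => absurd h hx2)
        have c2 := hcon (-1) (Or.inr rfl) (fun h => absurd h hx1) (fun _ => rfl)
        have havg : (1 + x n) / 2 * ∑ p, W p * Real.exp ((lam p * w p n) * (((1 : ℤ) : ℝ) - x n) -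
              (lam p * w p n) ^ 2 * (1 - x n ^ 2)) +
            (1 - x n) / 2 * ∑ p, W p * Real.exp ((lam p * w p n) * (((-1 : ℤ) : ℝ) - x n) -
              (lam p * w p n) ^ 2 * (1 - x n ^ 2)) ≤ ∑ p, W p := by
          rw [mul_sum, mul_sum, ← sum_add_distrib]
          apply sum_le_sum
          intro p _
          have ha : |lam p * w p n| ≤ 1 / 2 := by
            rw [abs_mul, abs_of_nonneg (hlam p)]
            exact hw p n (by omega)
          have := pot_step_one (lam p * w p n) (x n) (hx n) ha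
          have h3 := mul_le_mul_of_nonneg_left this (hWpos p).le
          push_cast
          nlinarith [h3]
        have d1 := mul_lt_mul_of_pos_left c1 (show (0 : ℝ) < (1 + x n) / 2 by linarith)
        have d2 := mul_lt_mul_of_pos_left c2 (show (0 : ℝ) < (1 - x n) / 2 by linarith)
        have : (1 + x n) / 2 * ∑ p, W p + (1 - x n) / 2 * ∑ p, W p = ∑ p, W p := by ring
        linarith
    obtain ⟨eps, hs, g1, g2, hle⟩ := hcase
    refine ⟨Function.update e n eps, ?_, ?_, ?_, ?_⟩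
    · intro j
      by_cases hj : j = n
      · subst hj
        rw [Function.update_self]
        exact hs
      · rw [Function.update_of_ne hj]
        exact he j
    · intro j hxj
      by_cases hj : j = n
      · subst hj
        rw [Function.update_self]
        exact g1 hxj
      · rw [Function.update_of_ne hj]
        exact h1 j hxj
    · intro j hxj
      by_cases hj : j = n
      · subst hj
        rw [Function.update_self]
        exact g2 hxj
      · rw [Function.update_of_ne hj]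
        exact h2 j hxj
    · calc _ = ∑ p, W p * Real.exp ((lam p * w p n) * ((eps : ℝ) - x n) -
          (lam p * w p n) ^ 2 * (1 - x n ^ 2)) := sum_congr rfl (fun p _ => hnew eps p)
        _ ≤ ∑ p, W p := hle
        _ ≤ Fintype.card ι := hsum

/-- Basic potential-function lemma (greedy / conditional expectation choice of signs). -/
theorem pot {ι : Type} [Fintype ι] [Nonempty ι] (n : ℕ) (w : ι → ℕ → ℝ) (x : ℕ → ℝ)
    (hx : ∀ j, |x j| ≤ 1) (lam : ι → ℝ) (hlam : ∀ p, 0 ≤ lam p)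
    (hw : ∀ p, ∀ j < n, lam p * |w p j| ≤ 1 / 2) :
    ∃ e : ℕ → ℤ, IsSign e ∧ (∀ j, x j = 1 → e j = 1) ∧ (∀ j, x j = -1 → e j = -1) ∧
      ∀ p, lam p * ∑ j ∈ range n, ((e j : ℝ) - x j) * w p j ≤
        Real.log (Fintype.card ι) + lam p ^ 2 * ∑ j ∈ range n, (1 - x j ^ 2) * w p j ^ 2 := by
  obtain ⟨e, he, h1, h2, hsum⟩ := pot_aux w x hx lam hlam n hw
  refine ⟨e, he, h1, h2, ?_⟩
  intro p
  have hcard : (0 : ℝ) < Fintype.card ι := by exact_mod_cast Fintype.card_pos
  have hp : Real.exp (lam p * ∑ j ∈ range n, ((e j : ℝ) - x j) * w p j -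
        lam p ^ 2 * ∑ j ∈ range n, (1 - x j ^ 2) * w p j ^ 2) ≤ Fintype.card ι :=
    le_trans (single_le_sum (f := fun p => Real.exp (lam p * ∑ j ∈ range n,
      ((e j : ℝ) - x j) * w p j - lam p ^ 2 * ∑ j ∈ range n, (1 - x j ^ 2) * w p j ^ 2))
      (fun q _ => (Real.exp_pos _).le) (mem_univ p)) hsum
  have := (Real.le_log_iff_exp_le hcard).2 hp
  linarith

/-- Uniform version with an optimised parameter. -/
theorem pot_unif {ι : Type} [Fintype ι] [Nonempty ι] (n : ℕ) (w : ι → ℕ → ℝ) (x : ℕ → ℝ)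
    (hx : ∀ j, |x j| ≤ 1) (Bd Q Lg : ℝ) (hB : 0 ≤ Bd) (hQ : 0 ≤ Q) (hL : 0 < Lg)
    (hcard : Real.log (Fintype.card ι) ≤ Lg)
    (hw : ∀ p, ∀ j < n, |w p j| ≤ Bd)
    (hQ' : ∀ p, ∑ j ∈ range n, (1 - x j ^ 2) * w p j ^ 2 ≤ Q) :
    ∃ e : ℕ → ℤ, IsSign e ∧ (∀ j, x j = 1 → e j = 1) ∧ (∀ j, x j = -1 → e j = -1) ∧
      ∀ p, ∑ j ∈ range n, ((e j : ℝ) - x j) * w p j ≤ 4 * (Bd * Lg + Real.sqrt (Lg * Q)) := by
  have hsq : 0 ≤ Real.sqrt (Lg * Q) := Real.sqrt_nonneg _
  rcases eq_or_lt_of_le hB with hB0 | hBpos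
  · obtain ⟨e, he, h1, h2, _⟩ := pot n w x hx (fun _ => 0) (fun _ => le_refl _)
      (fun p j hj => by norm_num)
    refine ⟨e, he, h1, h2, ?_⟩
    intro p
    have : ∑ j ∈ range n, ((e j : ℝ) - x j) * w p j = 0 := by
      apply sum_eq_zero
      intro j hj
      have := hw p j (mem_range.1 hj)
      rw [← hB0] at this
      have : w p j = 0 := abs_eq_zero.1 (le_antisymm this (abs_nonneg _))
      rw [this, mul_zero]
    rw [this]
    positivity
  · by_cases hc : Q ≤ 4 * Bd ^ 2 * Lg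
    · -- parameter 1 / (2 Bd)
      obtain ⟨e, he, h1, h2, h3⟩ := pot n w x hx (fun _ => 1 / (2 * Bd))
        (fun _ => by positivity)
        (fun p j hj => by
          have := hw p j hj
          calc 1 / (2 * Bd) * |w p j| ≤ 1 / (2 * Bd) * Bd :=
                mul_le_mul_of_nonneg_left this (by positivity)
            _ = 1 / 2 := by field_simp)
      refine ⟨e, he, h1, h2, ?_⟩
      intro p
      have h4 := h3 p
      have h5 := hQ' p
      set S := ∑ j ∈ range n, ((e j : ℝ) - x j) * w p j with hS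
      set V := ∑ j ∈ range n, (1 - x j ^ 2) * w p j ^ 2 with hV
      have h6 : (1 / (2 * Bd)) ^ 2 * V ≤ Lg := by
        have : (1 / (2 * Bd)) ^ 2 * V ≤ (1 / (2 * Bd)) ^ 2 * (4 * Bd ^ 2 * Lg) :=
          mul_le_mul_of_nonneg_left (le_trans h5 hc) (by positivity)
        have h7 : (1 / (2 * Bd)) ^ 2 * (4 * Bd ^ 2 * Lg) = Lg := by
          field_simp
          ring
        linarith
      have h8 : 1 / (2 * Bd) * S ≤ 2 * Lg := by linarith
      have h9 : S ≤ 4 * (Bd * Lg) := by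
        have : S = 2 * Bd * (1 / (2 * Bd) * S) := by field_simp
        rw [this]
        nlinarith
      linarith
    · push Not at hc
      have hQpos : 0 < Q := lt_of_le_of_lt (by positivity) hc
      set lam := Real.sqrt (Lg / Q) with hlamdef
      have hlam : 0 < lam := Real.sqrt_pos.2 (by positivity)
      have hlamsq : lam ^ 2 = Lg / Q := Real.sq_sqrt (by positivity)
      have hlamB : lam * Bd ≤ 1 / 2 := by
        have h1 : (lam * Bd) ^ 2 ≤ (1 / 2) ^ 2 := by
          rw [mul_pow, hlamsq, div_mul_eq_mul_div, div_le_iff₀ hQpos]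
          nlinarith
        exact abs_le_of_sq_le_sq' h1 (by norm_num) |>.2
      obtain ⟨e, he, h1, h2, h3⟩ := pot n w x hx (fun _ => lam)
        (fun _ => hlam.le)
        (fun p j hj => by
          have := hw p j hj
          calc lam * |w p j| ≤ lam * Bd := mul_le_mul_of_nonneg_left this hlam.le
            _ ≤ 1 / 2 := hlamB)
      refine ⟨e, he, h1, h2, ?_⟩
      intro p
      have h4 := h3 p
      have h5 := hQ' p
      set S := ∑ j ∈ range n, ((e j : ℝ) - x j) * w p j with hS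
      set V := ∑ j ∈ range n, (1 - x j ^ 2) * w p j ^ 2 with hV
      have h6 : lam ^ 2 * V ≤ Lg := by
        have : lam ^ 2 * V ≤ lam ^ 2 * Q := mul_le_mul_of_nonneg_left h5 (by positivity)
        rw [hlamsq, div_mul_cancel₀ _ hQpos.ne'] at this
        rw [hlamsq]
        exact this
      have h8 : lam * S ≤ 2 * Lg := by
        linarith
      have h10 : lam * Real.sqrt (Lg * Q) = Lg := by
        rw [hlamdef, ← Real.sqrt_mul (by positivity)]
        have : Lg / Q * (Lg * Q) = Lg ^ 2 := by field_simp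
        rw [this, Real.sqrt_sq hL.le]
      have h11 : lam * S ≤ lam * (2 * Real.sqrt (Lg * Q)) := by
        calc lam * S ≤ 2 * Lg := h8
          _ = lam * (2 * Real.sqrt (Lg * Q)) := by rw [← mul_assoc, mul_comm lam 2, mul_assoc, h10]
      have h12 : S ≤ 2 * Real.sqrt (Lg * Q) := le_of_mul_le_mul_left h11 hlam
      have h13 : 0 ≤ Bd * Lg := by positivity
      linarith

/-- Complex version. -/
theorem pot_cplx {κ : Type} [Fintype κ] [Nonempty κ] (n : ℕ) (z : κ → ℕ → ℂ) (x : ℕ → ℝ)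
    (hx : ∀ j, |x j| ≤ 1) (Bd Q Lg : ℝ) (hB : 0 ≤ Bd) (hQ : 0 ≤ Q) (hL : 0 < Lg)
    (hcard : Real.log (4 * Fintype.card κ) ≤ Lg)
    (hz : ∀ p, ∀ j < n, ‖z p j‖ ≤ Bd)
    (hQ' : ∀ p, ∑ j ∈ range n, (1 - x j ^ 2) * ‖z p j‖ ^ 2 ≤ Q) :
    ∃ e : ℕ → ℤ, IsSign e ∧ (∀ j, x j = 1 → e j = 1) ∧ (∀ j, x j = -1 → e j = -1) ∧
      ∀ p, ‖∑ j ∈ range n, (((e j : ℝ) - x j : ℝ) : ℂ) * z p j‖ ≤
        8 * (Bd * Lg + Real.sqrt (Lg * Q)) := by
  -- test functions
  let w : κ × Bool × Bool → ℕ → ℝ := fun q j =>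
    (if q.2.1 then 1 else -1) * (if q.2.2 then (z q.1 j).re else (z q.1 j).im)
  have hwabs : ∀ q j, |w q j| ≤ ‖z q.1 j‖ := by
    rintro ⟨p, b1, b2⟩ j
    simp only [w]
    rw [abs_mul]
    have h1 : |(if b1 = true then (1 : ℝ) else -1)| = 1 := by
      cases b1 <;> simp
    rw [h1, one_mul]
    cases b2
    · simpa using Complex.abs_im_le_norm (z p j)
    · simpa using Complex.abs_re_le_norm (z p j)
  have hx2 : ∀ j, 0 ≤ 1 - x j ^ 2 := by
    intro j
    have := (sq_le_one_iff_abs_le_one (x j)).2 (hx j)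
    linarith
  obtain ⟨e, he, h1, h2, h3⟩ := pot_unif n w x hx Bd Q Lg hB hQ hL
    (by
      have : Fintype.card (κ × Bool × Bool) = 4 * Fintype.card κ := by
        simp [Fintype.card_prod]
        ring
      rw [this]
      push_cast
      exact hcard)
    (fun q j hj => le_trans (hwabs q j) (hz q.1 j hj))
    (fun q => le_trans (sum_le_sum (fun j _ => mul_le_mul_of_nonneg_left
      (by
        have := hwabs q j
        calc w q j ^ 2 = |w q j| ^ 2 := (sq_abs _).symm
          _ ≤ ‖z q.1 j‖ ^ 2 := pow_le_pow_left₀ (abs_nonneg _) this 2) (hx2 j))) (hQ' q.1))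
  refine ⟨e, he, h1, h2, ?_⟩
  intro p
  set S := ∑ j ∈ range n, (((e j : ℝ) - x j : ℝ) : ℂ) * z p j with hS
  have hre : S.re = ∑ j ∈ range n, ((e j : ℝ) - x j) * (z p j).re := by
    rw [hS, Complex.re_sum]
    apply sum_congr rfl
    intro j _
    rw [Complex.re_ofReal_mul]
  have him : S.im = ∑ j ∈ range n, ((e j : ℝ) - x j) * (z p j).im := by
    rw [hS, Complex.im_sum]
    apply sum_congr rfl
    intro j _
    rw [Complex.im_ofReal_mul]
  have a1 := h3 (p, true, true)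
  have a2 := h3 (p, false, true)
  have a3 := h3 (p, true, false)
  have a4 := h3 (p, false, false)
  have b1 : ∑ j ∈ range n, ((e j : ℝ) - x j) * w (p, true, true) j = S.re := by
    rw [hre]
    apply sum_congr rfl
    intro j _
    simp [w]
  have b2 : ∑ j ∈ range n, ((e j : ℝ) - x j) * w (p, false, true) j = -S.re := by
    rw [hre, ← sum_neg_distrib]
    apply sum_congr rfl
    intro j _
    simp [w]
  have b3 : ∑ j ∈ range n, ((e j : ℝ) - x j) * w (p, true, false) j = S.im := by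
    rw [him]
    apply sum_congr rfl
    intro j _
    simp [w]
  have b4 : ∑ j ∈ range n, ((e j : ℝ) - x j) * w (p, false, false) j = -S.im := by
    rw [him, ← sum_neg_distrib]
    apply sum_congr rfl
    intro j _
    simp [w]
  rw [b1] at a1
  rw [b2] at a2
  rw [b3] at a3
  rw [b4] at a4
  have c1 : |S.re| ≤ 4 * (Bd * Lg + Real.sqrt (Lg * Q)) := abs_le.2 ⟨by linarith, a1⟩
  have c2 : |S.im| ≤ 4 * (Bd * Lg + Real.sqrt (Lg * Q)) := abs_le.2 ⟨by linarith, a3⟩
  have := Complex.norm_le_abs_re_add_abs_im S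
  linarith


theorem norm_exp_strip (n : ℕ) (hn : 1 ≤ n) (j : ℕ) (hj : j < n) (t : ℂ)
    (ht : |t.im| ≤ 1 / (n : ℝ)) : ‖Complex.exp (Complex.I * (j : ℂ) * t)‖ ≤ 3 := by
  rw [Complex.norm_exp]
  have h1 : (Complex.I * (j : ℂ) * t).re = -((j : ℝ) * t.im) := by
    simp [Complex.mul_re, Complex.mul_im]
  rw [h1]
  have hn0 : (0 : ℝ) < n := by exact_mod_cast hn
  have h2 : -((j : ℝ) * t.im) ≤ 1 := by
    have h3 : |(j : ℝ) * t.im| ≤ 1 := by
      rw [abs_mul, Nat.abs_cast]
      have hj' : (j : ℝ) ≤ n := by exact_mod_cast hj.le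
      calc (j : ℝ) * |t.im| ≤ n * (1 / (n : ℝ)) :=
            mul_le_mul hj' ht (abs_nonneg _) hn0.le
        _ = 1 := by field_simp
    have := (abs_le.1 h3).1
    linarith
  calc Real.exp (-((j : ℝ) * t.im)) ≤ Real.exp 1 := Real.exp_le_exp.2 h2
    _ ≤ 3 := by
      have := Real.exp_one_lt_d9
      linarith

theorem norm_exp_diff (n : ℕ) (hn : 1 ≤ n) (j : ℕ) (hj : j < n) (s t : ℂ)
    (ht : |t.im| ≤ 1 / (n : ℝ)) (δ : ℝ) (hd : ‖s - t‖ ≤ δ) (hδ : n * δ ≤ 1) :
    ‖Complex.exp (Complex.I * (j : ℂ) * s) - Complex.exp (Complex.I * (j : ℂ) * t)‖ ≤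
      6 * (n * δ) := by
  have hδ0 : 0 ≤ δ := le_trans (norm_nonneg _) hd
  have hj' : (j : ℝ) ≤ n := by exact_mod_cast hj.le
  have h1 : Complex.exp (Complex.I * (j : ℂ) * s) - Complex.exp (Complex.I * (j : ℂ) * t) =
      Complex.exp (Complex.I * (j : ℂ) * t) *
        (Complex.exp (Complex.I * (j : ℂ) * (s - t)) - 1) := by
    rw [mul_sub, ← Complex.exp_add, mul_one]
    congr 2
    ring
  have h2 : ‖Complex.I * (j : ℂ) * (s - t)‖ ≤ n * δ := by
    rw [norm_mul, norm_mul, Complex.norm_I, one_mul, Complex.norm_natCast]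
    exact mul_le_mul hj' hd (norm_nonneg _) (by positivity)
  have h3 : ‖Complex.exp (Complex.I * (j : ℂ) * (s - t)) - 1‖ ≤ 2 * (n * δ) :=
    le_trans (Complex.norm_exp_sub_one_le (le_trans h2 hδ)) (by linarith)
  rw [h1, norm_mul]
  calc _ ≤ 3 * (2 * (n * δ)) :=
        mul_le_mul (norm_exp_strip n hn j hj t ht) h3 (norm_nonneg _) (by norm_num)
    _ = 6 * (n * δ) := by ring

theorem sv_sub_rv (n : ℕ) (e : ℕ → ℤ) (x : ℕ → ℝ) (s : ℂ) :
    sv n e s - rv n x s =
      ∑ j ∈ range n, (((e j : ℝ) - x j : ℝ) : ℂ) * Complex.exp (Complex.I * (j : ℂ) * s) := by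
  unfold sv rv
  rw [← sum_sub_distrib]
  apply sum_congr rfl
  intro j _
  push_cast
  ring

/-- grid point -/
noncomputable def gridPt (n a b : ℕ) : ℂ :=
  ⟨2 * Real.pi * a / (16 * (n : ℝ) ^ 2), -(1 / (n : ℝ)) + 2 * b / (n * (4 * (n : ℝ) ^ 2))⟩

theorem gridPt_im (n a b : ℕ) (hn : 1 ≤ n) (hb : b ≤ 4 * n ^ 2) :
    |(gridPt n a b).im| ≤ 1 / (n : ℝ) := by
  have hn0 : (0 : ℝ) < n := by exact_mod_cast hn
  have hb' : (b : ℝ) ≤ 4 * (n : ℝ) ^ 2 := by exact_mod_cast hb
  have h1 : 2 * (b : ℝ) / (n * (4 * (n : ℝ) ^ 2)) ≤ 2 * (1 / (n : ℝ)) := by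
    rw [div_le_iff₀ (by positivity)]
    have : 2 * (1 / (n : ℝ)) * (n * (4 * (n : ℝ) ^ 2)) = 2 * (4 * (n : ℝ) ^ 2) := by
      field_simp
    rw [this]
    linarith
  have h2 : 0 ≤ 2 * (b : ℝ) / (n * (4 * (n : ℝ) ^ 2)) := by positivity
  simp only [gridPt]
  rw [abs_le]
  constructor <;> linarith

theorem grid_near (n : ℕ) (hn : 1 ≤ n) (t : ℂ) (h0 : 0 ≤ t.re) (h1 : t.re < 2 * Real.pi)
    (ht : |t.im| ≤ 1 / (n : ℝ)) : ∃ a b : ℕ, a < 16 * n ^ 2 ∧ b < 4 * n ^ 2 + 1 ∧
      ‖t - gridPt n a b‖ ≤ 1 / (n : ℝ) ^ 2 := by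
  have hn0 : (0 : ℝ) < n := by exact_mod_cast hn
  have hn1 : (1 : ℝ) ≤ n := by exact_mod_cast hn
  have hpi := Real.pi_pos
  have hpi2 : Real.pi ≤ 3.15 := Real.pi_lt_d2.le
  set u := t.re * (16 * (n : ℝ) ^ 2) / (2 * Real.pi) with hu
  set v := (t.im + 1 / (n : ℝ)) * (n * (4 * (n : ℝ) ^ 2)) / 2 with hv
  have hu0 : 0 ≤ u := by positivity
  have ht1 := (abs_le.1 ht).1
  have ht2 := (abs_le.1 ht).2
  have hv0 : 0 ≤ v := by
    have : 0 ≤ t.im + 1 / (n : ℝ) := by linarith
    positivity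
  have hu1 : u < 16 * (n : ℝ) ^ 2 := by
    rw [hu, div_lt_iff₀ (by positivity)]
    have : 0 < 16 * (n : ℝ) ^ 2 := by positivity
    nlinarith
  have hv1 : v ≤ 4 * (n : ℝ) ^ 2 := by
    have : t.im + 1 / (n : ℝ) ≤ 2 * (1 / (n : ℝ)) := by linarith
    have h2 : v ≤ 2 * (1 / (n : ℝ)) * (n * (4 * (n : ℝ) ^ 2)) / 2 := by
      rw [hv]
      gcongr
    have h3 : 2 * (1 / (n : ℝ)) * (n * (4 * (n : ℝ) ^ 2)) / 2 = 4 * (n : ℝ) ^ 2 := by
      field_simp
    linarith
  refine ⟨⌊u⌋₊, ⌊v⌋₊, ?_, ?_, ?_⟩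
  · rw [Nat.floor_lt hu0]
    push_cast
    exact hu1
  · rw [Nat.floor_lt hv0]
    push_cast
    linarith
  · have hfu1 := Nat.floor_le hu0
    have hfu2 := Nat.lt_floor_add_one u
    have hfv1 := Nat.floor_le hv0
    have hfv2 := Nat.lt_floor_add_one v
    have e1 : (t - gridPt n ⌊u⌋₊ ⌊v⌋₊).re = (u - ⌊u⌋₊) * (2 * Real.pi / (16 * (n : ℝ) ^ 2)) := by
      simp only [gridPt, Complex.sub_re, hu]
      field_simp
    have e2 : (t - gridPt n ⌊u⌋₊ ⌊v⌋₊).im = (v - ⌊v⌋₊) * (2 / (n * (4 * (n : ℝ) ^ 2))) := by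
      simp only [gridPt, Complex.sub_im, hv]
      field_simp
      ring
    have a1 : |(t - gridPt n ⌊u⌋₊ ⌊v⌋₊).re| ≤ 2 * Real.pi / (16 * (n : ℝ) ^ 2) := by
      rw [e1, abs_mul, abs_of_nonneg (show 0 ≤ 2 * Real.pi / (16 * (n : ℝ) ^ 2) by positivity),
        abs_of_nonneg (by linarith)]
      have : 0 ≤ 2 * Real.pi / (16 * (n : ℝ) ^ 2) := by positivity
      nlinarith
    have a2 : |(t - gridPt n ⌊u⌋₊ ⌊v⌋₊).im| ≤ 2 / (n * (4 * (n : ℝ) ^ 2)) := by
      rw [e2, abs_mul, abs_of_nonneg (show 0 ≤ 2 / ((n : ℝ) * (4 * (n : ℝ) ^ 2)) by positivity),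
        abs_of_nonneg (by linarith)]
      have : 0 ≤ 2 / ((n : ℝ) * (4 * (n : ℝ) ^ 2)) := by positivity
      nlinarith
    have a3 : 2 / ((n : ℝ) * (4 * (n : ℝ) ^ 2)) ≤ 1 / 2 * (1 / (n : ℝ) ^ 2) := by
      rw [div_le_iff₀ (by positivity)]
      have : 1 / 2 * (1 / (n : ℝ) ^ 2) * (n * (4 * (n : ℝ) ^ 2)) = 2 * n := by
        field_simp
        ring
      rw [this]
      linarith
    have a4 : 2 * Real.pi / (16 * (n : ℝ) ^ 2) ≤ 1 / 2 * (1 / (n : ℝ) ^ 2) := by
      rw [div_le_iff₀ (by positivity)]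
      have : 1 / 2 * (1 / (n : ℝ) ^ 2) * (16 * (n : ℝ) ^ 2) = 8 := by
        field_simp
        ring
      rw [this]
      linarith
    have := Complex.norm_le_abs_re_add_abs_im (t - gridPt n ⌊u⌋₊ ⌊v⌋₊)
    linarith

theorem exp_periodic_shift (j : ℕ) (k : ℤ) (s : ℂ) :
    Complex.exp (Complex.I * (j : ℂ) * s) =
      Complex.exp (Complex.I * (j : ℂ) * (s - 2 * Real.pi * k)) := by
  rw [Complex.exp_eq_exp_iff_exists_int]
  refine ⟨j * k, ?_⟩
  push_cast
  ring

/-- Rounding: real coefficients `x` can be rounded to signs with a small error on the whole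
strip `|Im s| ≤ 1/n`. -/
theorem rounding : ∃ C : ℝ, 1 ≤ C ∧ ∀ n : ℕ, 2 ≤ n → ∀ x : ℕ → ℝ, (∀ j, |x j| ≤ 1) →
    ∀ V : ℝ, ∑ j ∈ range n, (1 - x j ^ 2) ≤ V →
    ∃ e : ℕ → ℤ, IsSign e ∧ (∀ j, x j = 1 → e j = 1) ∧ (∀ j, x j = -1 → e j = -1) ∧
      ∀ s : ℂ, |s.im| ≤ 1 / (n : ℝ) →
        ‖sv n e s - rv n x s‖ ≤ C * (Real.sqrt (V * Real.log n) + Real.log n) := by
  refine ⟨400, by norm_num, ?_⟩
  intro n hn x hx V hV
  have hn1 : 1 ≤ n := by omega
  have hn0 : (0 : ℝ) < n := by exact_mod_cast hn1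
  have hlog : 0 < Real.log n := Real.log_pos (by exact_mod_cast hn)
  have hlog2 : Real.log 2 ≤ Real.log n := Real.log_le_log (by norm_num) (by exact_mod_cast hn)
  have hlog2' : (0.69 : ℝ) < Real.log 2 := by
    have := Real.log_two_gt_d9
    linarith
  have hx2 : ∀ j, 0 ≤ 1 - x j ^ 2 := by
    intro j
    have := (sq_le_one_iff_abs_le_one (x j)).2 (hx j)
    linarith
  have hV0 : 0 ≤ V := le_trans (sum_nonneg (fun j _ => hx2 j)) hV
  have : Nonempty (Fin (16 * n ^ 2)) := ⟨⟨0, by positivity⟩⟩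
  let z : Fin (16 * n ^ 2) × Fin (4 * n ^ 2 + 1) → ℕ → ℂ := fun p j =>
    Complex.exp (Complex.I * (j : ℂ) * gridPt n p.1 p.2)
  have hz : ∀ p, ∀ j < n, ‖z p j‖ ≤ 3 := by
    intro p j hj
    exact norm_exp_strip n hn1 j hj _ (gridPt_im n _ _ hn1 (by have := p.2.2; omega))
  obtain ⟨e, he, h1, h2, h3⟩ := pot_cplx n z x hx 3 (9 * V) (13 * Real.log n) (by norm_num)
    (by positivity) (by positivity)
    (by
      have hc : (4 * (Fintype.card (Fin (16 * n ^ 2) × Fin (4 * n ^ 2 + 1)) : ℝ)) ≤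
          2 ^ 9 * (n : ℝ) ^ 4 := by
        simp only [Fintype.card_prod, Fintype.card_fin]
        push_cast
        have h5 : (1 : ℝ) ≤ (n : ℝ) ^ 2 := one_le_pow₀ (by exact_mod_cast hn1)
        nlinarith [sq_nonneg ((n : ℝ) ^ 2)]
      have hpos : (0 : ℝ) < 4 * (Fintype.card (Fin (16 * n ^ 2) × Fin (4 * n ^ 2 + 1)) : ℝ) := by
        have : 0 < Fintype.card (Fin (16 * n ^ 2) × Fin (4 * n ^ 2 + 1)) := Fintype.card_pos
        have : (0 : ℝ) < (Fintype.card (Fin (16 * n ^ 2) × Fin (4 * n ^ 2 + 1)) : ℝ) := by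
          exact_mod_cast this
        linarith
      calc _ ≤ Real.log (2 ^ 9 * (n : ℝ) ^ 4) := Real.log_le_log hpos hc
        _ = 9 * Real.log 2 + 4 * Real.log n := by
          rw [Real.log_mul (by norm_num) (by positivity), Real.log_pow, Real.log_pow]
          norm_num
        _ ≤ 13 * Real.log n := by linarith)
    hz
    (by
      intro p
      calc ∑ j ∈ range n, (1 - x j ^ 2) * ‖z p j‖ ^ 2
          ≤ ∑ j ∈ range n, (1 - x j ^ 2) * 9 := by
            apply sum_le_sum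
            intro j hj
            have := hz p j (mem_range.1 hj)
            apply mul_le_mul_of_nonneg_left _ (hx2 j)
            nlinarith [norm_nonneg (z p j)]
        _ = 9 * ∑ j ∈ range n, (1 - x j ^ 2) := by
            rw [← sum_mul]
            ring
        _ ≤ 9 * V := by linarith)
  refine ⟨e, he, h1, h2, ?_⟩
  intro s hs
  set k : ℤ := ⌊s.re / (2 * Real.pi)⌋ with hk
  set t : ℂ := s - 2 * Real.pi * k with ht
  have hpi := Real.pi_pos
  have ht_re : t.re = s.re - 2 * Real.pi * k := by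
    rw [ht]
    simp
  have ht_im : t.im = s.im := by
    rw [ht]
    simp
  have hre0 : 0 ≤ t.re := by
    have := Int.floor_le (s.re / (2 * Real.pi))
    rw [← hk, le_div_iff₀ (by positivity)] at this
    rw [ht_re]
    linarith
  have hre1 : t.re < 2 * Real.pi := by
    have := Int.lt_floor_add_one (s.re / (2 * Real.pi))
    rw [← hk, div_lt_iff₀ (by positivity)] at this
    rw [ht_re]
    linarith
  have hst : sv n e s - rv n x s = sv n e t - rv n x t := by
    rw [sv_sub_rv, sv_sub_rv]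
    apply sum_congr rfl
    intro j _
    rw [exp_periodic_shift j k s]
  obtain ⟨a, b, ha, hb, hab⟩ := grid_near n hn1 t hre0 hre1 (by rw [ht_im]; exact hs)
  have h4 := h3 (⟨a, ha⟩, ⟨b, hb⟩)
  simp only [z] at h4
  rw [← sv_sub_rv] at h4
  have h5 : ‖(sv n e t - rv n x t) - (sv n e (gridPt n a b) - rv n x (gridPt n a b))‖ ≤ 12 := by
    rw [sv_sub_rv, sv_sub_rv, ← sum_sub_distrib]
    calc _ ≤ ∑ j ∈ range n, ‖(((e j : ℝ) - x j : ℝ) : ℂ) * Complex.exp (Complex.I * (j : ℂ) * t) -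
          (((e j : ℝ) - x j : ℝ) : ℂ) * Complex.exp (Complex.I * (j : ℂ) * gridPt n a b)‖ :=
          norm_sum_le _ _
      _ ≤ ∑ j ∈ range n, 12 * (1 / (n : ℝ)) := by
          apply sum_le_sum
          intro j hj
          rw [← mul_sub, norm_mul]
          have g1 : ‖(((e j : ℝ) - x j : ℝ) : ℂ)‖ ≤ 2 := by
            rw [Complex.norm_real, Real.norm_eq_abs]
            have hxj := abs_le.1 (hx j)
            rcases he j with h | h
            · rw [h]
              push_cast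
              exact abs_le.2 ⟨by linarith [hxj.1, hxj.2], by linarith [hxj.1, hxj.2]⟩
            · rw [h]
              push_cast
              exact abs_le.2 ⟨by linarith [hxj.1, hxj.2], by linarith [hxj.1, hxj.2]⟩
          have g2 := norm_exp_diff n hn1 j (mem_range.1 hj) t (gridPt n a b)
            (gridPt_im n a b hn1 (by omega)) (1 / (n : ℝ) ^ 2) hab
            (by
              have : (n : ℝ) * (1 / (n : ℝ) ^ 2) = 1 / n := by field_simp
              rw [this, div_le_one hn0]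
              exact_mod_cast hn1)
          have g3 : (n : ℝ) * (1 / (n : ℝ) ^ 2) = 1 / n := by field_simp
          rw [g3] at g2
          calc _ ≤ 2 * (6 * (1 / (n : ℝ))) := mul_le_mul g1 g2 (norm_nonneg _) (by norm_num)
            _ = 12 * (1 / (n : ℝ)) := by ring
      _ = 12 := by
          rw [sum_const, card_range, nsmul_eq_mul]
          field_simp
  have h6 : ‖sv n e t - rv n x t‖ ≤
      8 * (3 * (13 * Real.log n) + Real.sqrt (13 * Real.log n * (9 * V))) + 12 := by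
    have := norm_le_norm_add_norm_sub' (sv n e t - rv n x t)
      (sv n e (gridPt n a b) - rv n x (gridPt n a b))
    linarith
  have h7 : Real.sqrt (13 * Real.log n * (9 * V)) ≤ 11 * Real.sqrt (V * Real.log n) := by
    have h71 : Real.sqrt ((11 : ℝ) ^ 2 * (V * Real.log n)) = 11 * Real.sqrt (V * Real.log n) := by
      rw [Real.sqrt_mul (by norm_num : (0 : ℝ) ≤ 11 ^ 2) (V * Real.log n),
        Real.sqrt_sq (by norm_num : (0 : ℝ) ≤ 11)]
    rw [← h71]
    apply Real.sqrt_le_sqrt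
    have : 0 ≤ V * Real.log n := by positivity
    nlinarith
  rw [hst]
  have h8 : 0 ≤ Real.sqrt (V * Real.log n) := Real.sqrt_nonneg _
  linarith

/-- Signs making finitely many complex linear forms small. -/
theorem signs : ∃ C : ℝ, 1 ≤ C ∧ ∀ M : ℕ, 2 ≤ M → ∀ (i1 i2 : ℕ) (c : ℕ → ℕ → ℂ) (A : ℕ → ℝ)
    (Am S : ℝ), (∀ k < M, ∀ i ∈ Icc i1 i2, ‖c k i‖ ≤ A i) → (∀ i ∈ Icc i1 i2, A i ≤ Am) →
    0 ≤ Am → ∑ i ∈ Icc i1 i2, A i ^ 2 ≤ S →
    ∃ al : ℕ → ℤ, IsSign al ∧ ∀ k < M,
      ‖∑ i ∈ Icc i1 i2, (al i : ℂ) * c k i‖ ≤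
        C * (Real.sqrt (S * Real.log M) + Am * Real.log M) := by
  refine ⟨24, by norm_num, ?_⟩
  intro M hM i1 i2 c A Am S hc hA hAm hS
  have : Nonempty (Fin M) := ⟨⟨0, by omega⟩⟩
  have hlog : 0 < Real.log M := Real.log_pos (by exact_mod_cast hM)
  have hlog2 : Real.log 2 ≤ Real.log M := Real.log_le_log (by norm_num) (by exact_mod_cast hM)
  have hS0 : 0 ≤ S := le_trans (sum_nonneg (fun i _ => sq_nonneg _)) hS
  let z : Fin M → ℕ → ℂ := fun k j => if j ∈ Icc i1 i2 then c k j else 0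
  obtain ⟨e, he, _, _, h3⟩ := pot_cplx (κ := Fin M) (i2 + 1) z (fun _ => 0)
    (fun _ => by norm_num) Am S (3 * Real.log M) hAm hS0 (by positivity)
    (by
      rw [Fintype.card_fin, Real.log_mul (by norm_num) (by positivity)]
      have : Real.log 4 = 2 * Real.log 2 := by
        rw [show (4 : ℝ) = 2 ^ 2 by norm_num, Real.log_pow]
        norm_num
      rw [this]
      linarith)
    (by
      intro p j _
      simp only [z]
      split_ifs with h
      · exact le_trans (hc p p.2 j h) (hA j h)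
      · simpa using hAm)
    (by
      intro p
      refine le_trans ?_ hS
      have hsub : Icc i1 i2 ⊆ range (i2 + 1) := by
        intro i hi
        rw [mem_Icc] at hi
        rw [mem_range]
        omega
      have : ∑ j ∈ range (i2 + 1), (1 - (0 : ℝ) ^ 2) * ‖z p j‖ ^ 2 =
          ∑ j ∈ Icc i1 i2, ‖c p j‖ ^ 2 := by
        rw [← sum_subset hsub]
        · apply sum_congr rfl
          intro j hj
          simp only [z, if_pos hj]
          ring
        · intro j _ hj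
          simp only [z, if_neg hj]
          simp
      rw [this]
      apply sum_le_sum
      intro i hi
      exact pow_le_pow_left₀ (norm_nonneg _) (hc p p.2 i hi) 2)
  refine ⟨e, he, ?_⟩
  intro k hk
  have h4 := h3 ⟨k, hk⟩
  have hsub : Icc i1 i2 ⊆ range (i2 + 1) := by
    intro i hi
    rw [mem_Icc] at hi
    rw [mem_range]
    omega
  have h5 : ∑ j ∈ range (i2 + 1), (((e j : ℝ) - 0 : ℝ) : ℂ) * z ⟨k, hk⟩ j =
      ∑ i ∈ Icc i1 i2, (e i : ℂ) * c k i := by
    rw [← sum_subset hsub]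
    · apply sum_congr rfl
      intro j hj
      simp only [z, if_pos hj]
      push_cast
      ring
    · intro j _ hj
      simp only [z, if_neg hj]
      simp
  rw [h5] at h4
  refine le_trans h4 ?_
  have h6 : Real.sqrt (3 * Real.log M * S) ≤ 3 * Real.sqrt (S * Real.log M) := by
    have h61 : Real.sqrt ((3 : ℝ) ^ 2 * (S * Real.log M)) = 3 * Real.sqrt (S * Real.log M) := by
      rw [Real.sqrt_mul (by norm_num : (0 : ℝ) ≤ 3 ^ 2) (S * Real.log M),
        Real.sqrt_sq (by norm_num : (0 : ℝ) ≤ 3)]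
    rw [← h61]
    apply Real.sqrt_le_sqrt
    have : 0 ≤ S * Real.log M := by positivity
    nlinarith
  have h7 : 0 ≤ Am * Real.log M := by positivity
  nlinarith

end Pool.Agent.Helper59.Lit
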