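import Pool.Agent.Helper59.Lit.BadSet
import Pool.Agent.Helper59.Lit.Kernel
import Pool.Agent.Helper59.Lit.Pot

/-!
# Module GroupTS: the sine target

A real odd-frequency sine polynomial with coefficients at most `1/2` in modulus, which is
larger than `c nu sqrt n` on the tiny arcs around the centres.
-/

set_option autoImplicit false

namespace Pool.Agent.Helper59.Lit

open Finset

namespace GTS

/-! ### The kernel on the real line -/

/-- the kernel as a real function -/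
noncomputable def fr (m : ℕ) (x : ℝ) : ℝ := (FK m (x : ℂ)).re

theorem FK_eq_fr (m : ℕ) (hm : 1 ≤ m) (x : ℝ) : FK m (x : ℂ) = (fr m x : ℂ) := by
  obtain ⟨y, hy, -⟩ := FK_real m hm x
  rw [fr, hy, Complex.ofReal_re]

theorem fr_nonneg (m : ℕ) (hm : 1 ≤ m) (x : ℝ) : 0 ≤ fr m x := by
  obtain ⟨y, hy, h0, -⟩ := FK_real m hm x
  rw [fr, hy, Complex.ofReal_re]
  exact h0

theorem fr_le_one (m : ℕ) (hm : 1 ≤ m) (x : ℝ) : fr m x ≤ 1 := by
  obtain ⟨y, hy, h0, h1, -⟩ := FK_real m hm x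
  rw [fr, hy, Complex.ofReal_re]
  exact h1

theorem fr_ge (m : ℕ) (hm : 1 ≤ m) (x : ℝ) (hx : (m : ℝ) * |x| ≤ Real.pi) :
    (57 / 100 : ℝ) ^ 16 ≤ fr m x := by
  obtain ⟨y, hy, h0, h1, h2, h3⟩ := FK_real m hm x
  rw [fr, hy, Complex.ofReal_re]
  exact h3 hx

theorem fr_le (m : ℕ) (hm : 1 ≤ m) (x d : ℝ) (hd : 0 < d) (h1 : d ≤ |x|) (h2 : |x| ≤ Real.pi) :
    fr m x ≤ (Real.pi / (m * d)) ^ 16 := by
  obtain ⟨y, hy, h0, -, h3, -⟩ := FK_real m hm x
  rw [fr, hy, Complex.ofReal_re]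
  have hx : x ≠ 0 := by
    intro h
    rw [h, abs_zero] at h1
    linarith
  refine (h3 h2 hx).trans ?_
  have hm' : (0 : ℝ) < m := by exact_mod_cast hm
  have hpi := Real.pi_pos
  apply pow_le_pow_left₀ (by positivity)
  apply div_le_div_of_nonneg_left hpi.le (by positivity)
  exact mul_le_mul_of_nonneg_left h1 hm'.le

theorem fr_add (m : ℕ) (x : ℝ) : fr m (x + 2 * Real.pi) = fr m x := by
  rw [fr, fr]
  push_cast
  rw [FK_periodic]

theorem fr_neg (m : ℕ) (x : ℝ) : fr m (-x) = fr m x := by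
  rw [fr, fr, FK, FK]
  push_cast
  rw [neg_neg, mul_comm]

/-- all four translates are bounded in terms of the distance -/
theorem fr_four (m : ℕ) (hm : 1 ≤ m) {θ p d : ℝ} (hθ0 : 0 ≤ θ) (hθ1 : θ ≤ Real.pi / 2)
    (hp0 : 0 ≤ p) (hp1 : p ≤ Real.pi / 2) (hd : 0 < d) (h : d ≤ |θ - p|) :
    fr m (θ - p) ≤ (Real.pi / (m * d)) ^ 16 ∧ fr m (θ - p + Real.pi) ≤ (Real.pi / (m * d)) ^ 16 ∧
    fr m (θ + p) ≤ (Real.pi / (m * d)) ^ 16 ∧
    fr m (θ + p + Real.pi) ≤ (Real.pi / (m * d)) ^ 16 := by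
  have hpi := Real.pi_pos
  refine ⟨?_, ?_, ?_, ?_⟩
  · exact fr_le m hm _ d hd h (abs_le.mpr ⟨by linarith, by linarith⟩)
  · rcases le_total θ p with h1 | h1
    · have h2 : |θ - p| = p - θ := by rw [abs_sub_comm]; exact abs_of_nonneg (by linarith)
      rw [h2] at h
      have h3 : |θ - p + Real.pi| = θ - p + Real.pi := abs_of_nonneg (by linarith)
      exact fr_le m hm _ d hd (by rw [h3]; linarith) (by rw [h3]; linarith)
    · have h2 : |θ - p| = θ - p := abs_of_nonneg (by linarith)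
      rw [h2] at h
      have h4 : fr m (θ - p + Real.pi) = fr m (θ - p - Real.pi) := by
        rw [← fr_add m (θ - p - Real.pi)]
        congr 1
        ring
      rw [h4]
      have h3 : |θ - p - Real.pi| = Real.pi - (θ - p) := by
        rw [abs_sub_comm]; exact abs_of_nonneg (by linarith)
      exact fr_le m hm _ d hd (by rw [h3]; linarith) (by rw [h3]; linarith)
  · have h3 : |θ + p| = θ + p := abs_of_nonneg (by linarith)
    refine fr_le m hm _ d hd (h.trans ?_) (by rw [h3]; linarith)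
    rw [h3]
    exact abs_le.mpr ⟨by linarith, by linarith⟩
  · have h4 : fr m (θ + p + Real.pi) = fr m (θ + p - Real.pi) := by
      rw [← fr_add m (θ + p - Real.pi)]
      congr 1
      ring
    rw [h4]
    have h3 : |θ + p - Real.pi| = Real.pi - (θ + p) := by
      rw [abs_sub_comm]; exact abs_of_nonneg (by linarith)
    refine fr_le m hm _ d hd (h.trans ?_) (by rw [h3]; linarith)
    rw [h3]
    exact abs_le.mpr ⟨by linarith, by linarith⟩

/-- the bump with the required symmetries -/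
noncomputable def psi (m : ℕ) (p θ : ℝ) : ℝ :=
  fr m (θ - p) - fr m (θ - p + Real.pi) - fr m (θ + p) + fr m (θ + p + Real.pi)

/-- Fourier expansion of the kernel -/
theorem fr_fourier (m : ℕ) (hm : 1 ≤ m) : ∃ f : ℕ → ℝ, (∀ k, 0 ≤ f k ∧ f k ≤ 1 / (m : ℝ)) ∧
    ∀ x : ℝ, fr m x = f 0 + ∑ k ∈ range (8 * m), if k = 0 then 0 else
      2 * f k * Real.cos (k * x) := by
  obtain ⟨f, hf0, hfe, hfz, hF⟩ := FK_coef m hm
  refine ⟨fun k => f k, fun k => hf0 k, fun x => ?_⟩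
  have h1 : fr m x = ∑ k ∈ Icc (-(8 * ((m : ℤ) - 1))) (8 * ((m : ℤ) - 1)),
      f k * Real.cos (k * x) := by
    rw [fr, hF, Complex.re_sum]
    apply sum_congr rfl
    intro k _
    have : Complex.I * (k : ℂ) * (x : ℂ) = ((k * x : ℝ) : ℂ) * Complex.I := by
      push_cast
      ring
    rw [this, Complex.re_ofReal_mul, Complex.exp_ofReal_mul_I_re]
  rw [h1]
  have h2 : ∑ k ∈ Icc (-(8 * ((m : ℤ) - 1))) (8 * ((m : ℤ) - 1)), f k * Real.cos (k * x) =
      ∑ k ∈ Icc (-(8 * (m : ℤ) - 1)) (8 * (m : ℤ) - 1), f k * Real.cos (k * x) := by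
    apply sum_subset
    · intro k hk
      rw [mem_Icc] at hk ⊢
      omega
    · intro k _ hk2
      rw [mem_Icc] at hk2
      rw [hfz k, zero_mul]
      rw [lt_abs]
      omega
  rw [h2]
  -- symmetric sum
  have h3 : ∀ K : ℕ, ∑ k ∈ Icc (-(K : ℤ)) (K : ℤ), f k * Real.cos (k * x) =
      f 0 + ∑ k ∈ range (K + 1), if k = 0 then 0 else 2 * f k * Real.cos (k * x) := by
    intro K
    induction K with
    | zero => simp
    | succ K ih =>
      have h4 : Icc (-((K + 1 : ℕ) : ℤ)) ((K + 1 : ℕ) : ℤ) =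
          insert (-((K + 1 : ℕ) : ℤ)) (insert ((K + 1 : ℕ) : ℤ) (Icc (-(K : ℤ)) (K : ℤ))) := by
        ext k
        simp only [mem_insert, mem_Icc]
        omega
      rw [h4, sum_insert, sum_insert, ih, sum_range_succ _ (K + 1), if_neg (by omega)]
      · rw [hfe]
        push_cast
        have : Real.cos (-((K : ℝ) + 1) * x) = Real.cos (((K : ℝ) + 1) * x) := by
          rw [neg_mul, Real.cos_neg]
        rw [this]
        ring
      · rw [mem_Icc]; omega
      · rw [mem_insert, mem_Icc]; omega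
  have h5 : (8 * (m : ℤ) - 1) = ((8 * m - 1 : ℕ) : ℤ) := by omega
  rw [h5, h3]
  have h6 : 8 * m - 1 + 1 = 8 * m := by omega
  rw [h6]
  simp only [Nat.cast_zero]

/-- Fourier expansion of the bump -/
theorem psi_fourier (m : ℕ) (hm : 1 ≤ m) : ∃ f : ℕ → ℝ, (∀ k, 0 ≤ f k ∧ f k ≤ 1 / (m : ℝ)) ∧
    ∀ p θ : ℝ, psi m p θ = ∑ k ∈ range (8 * m), (if Even k then 0 else
      8 * f k * Real.sin (k * p)) * Real.sin (k * θ) := by
  obtain ⟨f, hf, hF⟩ := fr_fourier m hm
  refine ⟨f, hf, fun p θ => ?_⟩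
  rw [psi, hF, hF, hF, hF]
  have : ∀ a b c d e : ℝ, a + b - (a + c) - (a + d) + (a + e) = b - c - d + e := by
    intros; ring
  rw [this, ← sum_sub_distrib, ← sum_sub_distrib, ← sum_add_distrib]
  apply sum_congr rfl
  intro k _
  by_cases hk0 : k = 0
  · subst hk0
    simp
  · rw [if_neg hk0, if_neg hk0, if_neg hk0, if_neg hk0]
    have hs : ∀ y : ℝ, Real.cos (k * (y + Real.pi)) = (-1) ^ k * Real.cos (k * y) := by
      intro y
      rw [mul_add, Real.cos_add_nat_mul_pi]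
    rw [hs, hs]
    have e1 : (k : ℝ) * (θ - p) = k * θ - k * p := by ring
    have e2 : (k : ℝ) * (θ + p) = k * θ + k * p := by ring
    rw [e1, e2, Real.cos_sub, Real.cos_add]
    by_cases he : Even k
    · rw [if_pos he, he.neg_one_pow]
      ring
    · rw [if_neg he]
      have ho : Odd k := Nat.not_even_iff_odd.mp he
      rw [ho.neg_one_pow]
      ring

/-! ### Elementary sums -/

/-- distance of natural numbers -/
def dd (r0 r : ℕ) : ℕ := (r - r0) + (r0 - r)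

/-- weights -/
noncomputable def hw (δ ε : ℝ) (d : ℕ) : ℝ := if d ≤ 1 then δ else ε / ((d : ℝ) - 1) ^ 2

theorem hw_nonneg {δ ε : ℝ} (hδ : 0 ≤ δ) (hε : 0 ≤ ε) (d : ℕ) : 0 ≤ hw δ ε d := by
  unfold hw
  split_ifs
  · exact hδ
  · positivity

theorem sum_hw_aux (δ ε : ℝ) (hε : 0 ≤ ε) (K : ℕ) :
    ∑ d ∈ range (K + 2), hw δ ε d ≤ 2 * δ + 2 * ε * (1 - 1 / ((K : ℝ) + 1)) := by
  induction K with
  | zero =>
    simp [hw, sum_range_succ]
    linarith
  | succ K ih =>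
    rw [sum_range_succ]
    have h1 : hw δ ε (K + 2) = ε / ((K : ℝ) + 1) ^ 2 := by
      unfold hw
      rw [if_neg (by omega)]
      push_cast
      congr 2
      ring
    rw [h1]
    have h2 : ε / ((K : ℝ) + 1) ^ 2 ≤ 2 * ε * (1 / ((K : ℝ) + 1) - 1 / ((K : ℝ) + 2)) := by
      have h3 : 2 * ε * (1 / ((K : ℝ) + 1) - 1 / ((K : ℝ) + 2)) =
          2 * ε / (((K : ℝ) + 1) * ((K : ℝ) + 2)) := by
        field_simp
        ring
      rw [h3, div_le_div_iff₀ (by positivity) (by positivity)]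
      have : 0 ≤ (K : ℝ) := Nat.cast_nonneg K
      have h5 : ((K : ℝ) + 1) * ((K : ℝ) + 2) ≤ 2 * ((K : ℝ) + 1) ^ 2 := by nlinarith
      nlinarith
    push_cast
    have e1 : (K : ℝ) + 1 + 1 = (K : ℝ) + 2 := by ring
    rw [e1]
    linarith

theorem sum_hw (δ ε : ℝ) (hδ : 0 ≤ δ) (hε : 0 ≤ ε) (K : ℕ) :
    ∑ d ∈ range K, hw δ ε d ≤ 2 * δ + 2 * ε := by
  have h1 : ∑ d ∈ range K, hw δ ε d ≤ ∑ d ∈ range (K + 2), hw δ ε d :=
    sum_le_sum_of_subset_of_nonneg (range_subset_range.mpr (by omega))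
      (fun d _ _ => hw_nonneg hδ hε d)
  have h2 := sum_hw_aux δ ε hε K
  have h3 : 0 ≤ 1 / ((K : ℝ) + 1) := by positivity
  have h4 : 2 * ε * (1 - 1 / ((K : ℝ) + 1)) ≤ 2 * ε := by nlinarith
  linarith

theorem sum_dd (δ ε : ℝ) (hδ : 0 ≤ δ) (hε : 0 ≤ ε) (r0 R : ℕ) :
    ∑ r ∈ range R, hw δ ε (dd r0 r) ≤ 2 * (2 * δ + 2 * ε) := by
  rw [← sum_filter_add_sum_filter_not (range R) (fun r => r ≤ r0)]
  have h1 : ∑ r ∈ (range R).filter (fun r => r ≤ r0), hw δ ε (dd r0 r) ≤ 2 * δ + 2 * ε := by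
    refine le_trans ?_ (sum_hw δ ε hδ hε (r0 + 1))
    have h2 : ∑ r ∈ (range R).filter (fun r => r ≤ r0), hw δ ε (dd r0 r) =
        ∑ d ∈ ((range R).filter (fun r => r ≤ r0)).image (fun r => r0 - r), hw δ ε d := by
      rw [sum_image]
      · apply sum_congr rfl
        intro r hr
        rw [mem_filter] at hr
        congr 1
        unfold dd
        omega
      · intro a ha b hb hab
        simp only [coe_filter, Set.mem_setOf_eq] at ha hb
        simp only at hab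
        omega
    rw [h2]
    apply sum_le_sum_of_subset_of_nonneg
    · intro d hd
      rw [mem_image] at hd
      obtain ⟨r, hr, rfl⟩ := hd
      rw [mem_range]
      omega
    · intro d _ _
      exact hw_nonneg hδ hε d
  have h3 : ∑ r ∈ (range R).filter (fun r => ¬ r ≤ r0), hw δ ε (dd r0 r) ≤ 2 * δ + 2 * ε := by
    refine le_trans ?_ (sum_hw δ ε hδ hε (R + 1))
    have h2 : ∑ r ∈ (range R).filter (fun r => ¬ r ≤ r0), hw δ ε (dd r0 r) =
        ∑ d ∈ ((range R).filter (fun r => ¬ r ≤ r0)).image (fun r => r - r0), hw δ ε d := by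
      rw [sum_image]
      · apply sum_congr rfl
        intro r hr
        rw [mem_filter] at hr
        congr 1
        unfold dd
        omega
      · intro a ha b hb hab
        simp only [coe_filter, Set.mem_setOf_eq] at ha hb
        simp only at hab
        omega
    rw [h2]
    apply sum_le_sum_of_subset_of_nonneg
    · intro d hd
      rw [mem_image] at hd
      obtain ⟨r, hr, rfl⟩ := hd
      rw [mem_filter, mem_range] at hr
      rw [mem_range]
      omega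
    · intro d _ _
      exact hw_nonneg hδ hε d
  linarith

/-! ### Boundaries of the groups -/

theorem bdry (T n : ℝ) (hT : 0 < T) (hn : 0 < n) (hTn : 200 / n ≤ Real.pi / (10 * T))
    (Z : Finset ℝ) (hZ : Z.card ≤ 8) (r : ℕ) :
    ∃ b : ℝ, Real.pi * (r + 1 / 10) / T ≤ b ∧ b ≤ Real.pi * (r + 9 / 10) / T ∧
      ∀ z ∈ Z, 100 / n ≤ |z - b| := by
  by_contra hcon
  push Not at hcon
  have hpi := Real.pi_pos
  let c : Fin 9 → ℝ := fun j => Real.pi * (r + ((j : ℕ) + 1) / 10) / T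
  have hc : ∀ j, ∃ z ∈ Z, |z - c j| < 100 / n := by
    intro j
    apply hcon
    · apply div_le_div_of_nonneg_right _ hT.le
      apply mul_le_mul_of_nonneg_left _ hpi.le
      have : (0 : ℝ) ≤ ((j : ℕ) : ℝ) := Nat.cast_nonneg _
      linarith
    · apply div_le_div_of_nonneg_right _ hT.le
      apply mul_le_mul_of_nonneg_left _ hpi.le
      have h1 : (j : ℕ) ≤ 8 := by omega
      have : ((j : ℕ) : ℝ) ≤ 8 := by exact_mod_cast h1
      linarith
  choose z hz1 hz2 using hc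
  obtain ⟨i, -, j, -, hij, hzij⟩ := exists_ne_map_eq_of_card_lt_of_maps_to
    (s := (univ : Finset (Fin 9))) (t := Z) (f := z)
    (by rw [card_univ, Fintype.card_fin]; omega) (fun i _ => hz1 i)
  have h1 : |c i - c j| < 200 / n := by
    have h2 := hz2 i
    have h3 := hz2 j
    rw [← hzij] at h3
    have h4 : |c i - c j| ≤ |z i - c i| + |z i - c j| := by
      have : c i - c j = (z i - c j) - (z i - c i) := by ring
      rw [this]
      have := abs_sub (z i - c j) (z i - c i)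
      linarith
    have h5 : 100 / n + 100 / n = 200 / n := by ring
    linarith
  have h6 : Real.pi / (10 * T) ≤ |c i - c j| := by
    have h7 : c i - c j = (Real.pi / (10 * T)) * (((i : ℕ) : ℝ) - ((j : ℕ) : ℝ)) := by
      simp only [c]
      field_simp
      ring
    rw [h7, abs_mul, abs_of_pos (by positivity : 0 < Real.pi / (10 * T))]
    have h8 : (1 : ℝ) ≤ |((i : ℕ) : ℝ) - ((j : ℕ) : ℝ)| := by
      have h9 : (i : ℕ) ≠ (j : ℕ) := fun h => hij (Fin.ext h)
      have h10 : (1 : ℤ) ≤ |((i : ℕ) : ℤ) - ((j : ℕ) : ℤ)| := Int.one_le_abs (by omega)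
      exact_mod_cast h10
    have : 0 < Real.pi / (10 * T) := by positivity
    nlinarith
  linarith

/-- group index of a centre -/
noncomputable def gi (b : ℕ → ℝ) (r : ℕ) (z : ℝ) : ℕ := if z < b r then r else r + 1

theorem gi_sep {T n : ℝ} (hT : 0 < T) (hn : 0 < n) (hTn : 200 / n ≤ Real.pi / (10 * T))
    {Z : ℕ → Finset ℝ} {b : ℕ → ℝ} (hlo : ∀ r, ∀ z ∈ Z r, Real.pi * r / T ≤ z)
    (hhi : ∀ r, ∀ z ∈ Z r, z ≤ Real.pi * (r + 1) / T)
    (hb1 : ∀ r : ℕ, Real.pi * (r + 1 / 10) / T ≤ b r)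
    (hb2 : ∀ r : ℕ, b r ≤ Real.pi * (r + 9 / 10) / T)
    (hb3 : ∀ r, ∀ z ∈ Z r, 100 / n ≤ |z - b r|) {r r' : ℕ} {z z' : ℝ} (hz : z ∈ Z r)
    (hz' : z' ∈ Z r') (hne : gi b r z ≠ gi b r' z') : 200 / n ≤ |z - z'| := by
  have hpi := Real.pi_pos
  have hsum : (100 : ℝ) / n + 100 / n = 200 / n := by ring
  have h100 : 0 < 100 / n := by positivity
  have e : ∀ x y : ℝ, Real.pi * x / T - Real.pi * y / T = (Real.pi / (10 * T)) * (10 * (x - y)) := by
    intro x y
    field_simp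
  have F1 : ∀ r, ∀ z ∈ Z r, z ≤ b (gi b r z) - 100 / n := by
    intro r z hz
    unfold gi
    split_ifs with h
    · have h1 := hb3 r z hz
      rw [abs_sub_comm, abs_of_pos (by linarith)] at h1
      linarith
    · have h1 := hhi r z hz
      have h2 := hb1 (r + 1)
      push_cast at h2
      have h3 := e ((r : ℝ) + 1 + 1 / 10) ((r : ℝ) + 1)
      have h4 : (10 : ℝ) * ((r : ℝ) + 1 + 1 / 10 - ((r : ℝ) + 1)) = 1 := by ring
      rw [h4, mul_one] at h3
      linarith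
  have F2 : ∀ r, ∀ z ∈ Z r, ∀ s, gi b r z = s + 1 → b s + 100 / n ≤ z := by
    intro r z hz s hs
    unfold gi at hs
    split_ifs at hs with h
    · subst hs
      have h1 := hlo (s + 1) z hz
      have h2 := hb2 s
      push_cast at h1
      have h3 := e ((s : ℝ) + 1) ((s : ℝ) + 9 / 10)
      have h4 : (10 : ℝ) * ((s : ℝ) + 1 - ((s : ℝ) + 9 / 10)) = 1 := by ring
      rw [h4, mul_one] at h3
      linarith
    · have hrs : r = s := by omega
      subst hrs
      have h1 := hb3 r z hz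
      rw [abs_of_nonneg (by linarith)] at h1
      linarith
  have mono : ∀ s s' : ℕ, s ≤ s' → b s ≤ b s' := by
    intro s s' hss
    rcases Nat.lt_or_ge s s' with h | h
    · have h1 := hb2 s
      have h2 := hb1 s'
      have h3 : Real.pi * ((s : ℝ) + 9 / 10) / T ≤ Real.pi * ((s' : ℝ) + 1 / 10) / T := by
        apply div_le_div_of_nonneg_right _ hT.le
        apply mul_le_mul_of_nonneg_left _ hpi.le
        have : (s : ℝ) + 1 ≤ s' := by exact_mod_cast h
        linarith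
      linarith
    · have : s = s' := by omega
      rw [this]
  have key : ∀ r r' z z', z ∈ Z r → z' ∈ Z r' → gi b r z < gi b r' z' → 200 / n ≤ z' - z := by
    intro r r' z z' hz hz' hlt
    obtain ⟨s, hs⟩ : ∃ s, gi b r' z' = s + 1 := ⟨gi b r' z' - 1, by omega⟩
    have h1 := F1 r z hz
    have h2 := F2 r' z' hz' s hs
    have h3 := mono (gi b r z) s (by omega)
    linarith
  rcases Nat.lt_or_gt_of_ne hne with h | h
  · have h1 := key r r' z z' hz hz' h
    rw [abs_sub_comm]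
    exact h1.trans (le_abs_self _)
  · have h1 := key r' r z' z hz' hz h
    exact h1.trans (le_abs_self _)

/-- each group has at most 16 elements -/
theorem gi_card {Z : ℕ → Finset ℝ} (hZ : ∀ r, (Z r).card ≤ 8) (b : ℕ → ℝ) (R i : ℕ) :
    ∑ r ∈ range R, ((Z r).filter (fun z => gi b r z = i)).card ≤ 16 := by
  have h1 : ∀ r ∈ range R, ((Z r).filter (fun z => gi b r z = i)).card ≤
      (if r = i then 8 else 0) + (if r = i - 1 then 8 else 0) := by
    intro r _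
    by_cases h : r = i
    · rw [if_pos h]
      have := card_filter_le (Z r) (fun z => gi b r z = i)
      have := hZ r
      omega
    · by_cases h' : r = i - 1
      · rw [if_pos h']
        have := card_filter_le (Z r) (fun z => gi b r z = i)
        have := hZ r
        omega
      · have h2 : (Z r).filter (fun z => gi b r z = i) = ∅ := by
          rw [filter_eq_empty_iff]
          intro z _
          unfold gi
          split_ifs <;> omega
        rw [h2, card_empty]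
        omega
  refine (sum_le_sum h1).trans ?_
  rw [sum_add_distrib, sum_ite_eq', sum_ite_eq']
  split_ifs <;> omega

/-! ### Bounds for the bumps -/

theorem far_dist {T : ℝ} (hT : 0 < T) {r0 r : ℕ} {θ z : ℝ} (h1 : Real.pi * r0 / T ≤ θ)
    (h2 : θ ≤ Real.pi * (r0 + 1) / T) (h3 : Real.pi * r / T ≤ z)
    (h4 : z ≤ Real.pi * (r + 1) / T) (hd : ¬ dd r0 r ≤ 1) :
    ((dd r0 r : ℝ) - 1) * (Real.pi / T) ≤ |θ - z| := by
  have hpi := Real.pi_pos
  unfold dd at hd ⊢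
  rcases Nat.le_total r r0 with h | h
  · have e1 : ((r - r0 + (r0 - r) : ℕ) : ℝ) = (r0 : ℝ) - r := by
      have : r - r0 + (r0 - r) = r0 - r := by omega
      rw [this, Nat.cast_sub h]
    rw [e1]
    refine le_trans ?_ (le_abs_self _)
    have e2 : ((r0 : ℝ) - r - 1) * (Real.pi / T) =
        Real.pi * r0 / T - Real.pi * (r + 1) / T := by
      field_simp
      ring
    rw [e2]
    linarith
  · have e1 : ((r - r0 + (r0 - r) : ℕ) : ℝ) = (r : ℝ) - r0 := by
      have : r - r0 + (r0 - r) = r - r0 := by omega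
      rw [this, Nat.cast_sub h]
    rw [e1, abs_sub_comm]
    refine le_trans ?_ (le_abs_self _)
    have e2 : ((r : ℝ) - r0 - 1) * (Real.pi / T) =
        Real.pi * r / T - Real.pi * (r0 + 1) / T := by
      field_simp
      ring
    rw [e2]
    linarith

theorem far_pow {T ν : ℝ} (hT : 0 < T) (hν : 0 < ν) {m : ℕ} (hmT : 8 * (m : ℝ) = T * ν ^ 4)
    {d : ℕ} (hd : ¬ d ≤ 1) :
    (Real.pi / (m * (((d : ℝ) - 1) * (Real.pi / T)))) ^ 16 ≤
      (8 / ν ^ 4) ^ 16 / ((d : ℝ) - 1) ^ 2 := by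
  have hpi := Real.pi_pos
  have hd1 : (1 : ℝ) ≤ (d : ℝ) - 1 := by
    have : (2 : ℝ) ≤ d := by exact_mod_cast (by omega : 2 ≤ d)
    linarith
  have hm : (m : ℝ) = T * ν ^ 4 / 8 := by linarith
  have e1 : Real.pi / (m * (((d : ℝ) - 1) * (Real.pi / T))) = (8 / ν ^ 4) * (1 / ((d : ℝ) - 1)) := by
    rw [hm]
    have : (d : ℝ) - 1 ≠ 0 := by linarith
    field_simp
  rw [e1, mul_pow, div_eq_mul_inv ((8 / ν ^ 4) ^ 16)]
  apply mul_le_mul_of_nonneg_left _ (by positivity)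
  have h0 : 0 ≤ 1 / ((d : ℝ) - 1) := by positivity
  have h1 : 1 / ((d : ℝ) - 1) ≤ 1 := by
    rw [div_le_one (by linarith)]
    exact hd1
  have h2 : (1 / ((d : ℝ) - 1)) ^ 16 ≤ (1 / ((d : ℝ) - 1)) ^ 2 :=
    pow_le_pow_of_le_one h0 h1 (by norm_num)
  refine h2.trans (le_of_eq ?_)
  rw [one_div, inv_pow]

/-- four translates far away -/
theorem four_far {T ν : ℝ} (hT : 0 < T) (hν : 0 < ν) {m : ℕ} (hm : 1 ≤ m)
    (hmT : 8 * (m : ℝ) = T * ν ^ 4) {r0 r : ℕ} {θ z : ℝ} (hθ0 : 0 ≤ θ) (hθ1 : θ ≤ Real.pi / 2)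
    (hz0 : 0 ≤ z) (hz1 : z ≤ Real.pi / 2) (h1 : Real.pi * r0 / T ≤ θ)
    (h2 : θ ≤ Real.pi * (r0 + 1) / T) (h3 : Real.pi * r / T ≤ z)
    (h4 : z ≤ Real.pi * (r + 1) / T) (hd : ¬ dd r0 r ≤ 1) :
    fr m (θ - z) ≤ (8 / ν ^ 4) ^ 16 / ((dd r0 r : ℝ) - 1) ^ 2 ∧
    fr m (θ - z + Real.pi) ≤ (8 / ν ^ 4) ^ 16 / ((dd r0 r : ℝ) - 1) ^ 2 ∧
    fr m (θ + z) ≤ (8 / ν ^ 4) ^ 16 / ((dd r0 r : ℝ) - 1) ^ 2 ∧
    fr m (θ + z + Real.pi) ≤ (8 / ν ^ 4) ^ 16 / ((dd r0 r : ℝ) - 1) ^ 2 := by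
  have hpi := Real.pi_pos
  have hd1 : (1 : ℝ) ≤ (dd r0 r : ℝ) - 1 := by
    have : (2 : ℝ) ≤ dd r0 r := by exact_mod_cast (by omega : 2 ≤ dd r0 r)
    linarith
  have h5 := far_dist hT h1 h2 h3 h4 hd
  have h6 := fr_four m hm hθ0 hθ1 hz0 hz1 (by positivity : 0 < ((dd r0 r : ℝ) - 1) * (Real.pi / T)) h5
  have h7 := far_pow hT hν hmT hd
  exact ⟨h6.1.trans h7, h6.2.1.trans h7, h6.2.2.1.trans h7, h6.2.2.2.trans h7⟩

theorem psi_upper {T ν : ℝ} (hT : 0 < T) (hν : 0 < ν) {m : ℕ} (hm : 1 ≤ m)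
    (hmT : 8 * (m : ℝ) = T * ν ^ 4) {r0 r : ℕ} {θ z : ℝ} (hθ0 : 0 ≤ θ) (hθ1 : θ ≤ Real.pi / 2)
    (hz0 : 0 ≤ z) (hz1 : z ≤ Real.pi / 2) (h1 : Real.pi * r0 / T ≤ θ)
    (h2 : θ ≤ Real.pi * (r0 + 1) / T) (h3 : Real.pi * r / T ≤ z)
    (h4 : z ≤ Real.pi * (r + 1) / T) :
    |psi m z θ| ≤ hw 4 (4 * (8 / ν ^ 4) ^ 16) (dd r0 r) := by
  have n1 := fr_nonneg m hm (θ - z)
  have n2 := fr_nonneg m hm (θ - z + Real.pi)
  have n3 := fr_nonneg m hm (θ + z)
  have n4 := fr_nonneg m hm (θ + z + Real.pi)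
  unfold psi hw
  split_ifs with hd
  · have u1 := fr_le_one m hm (θ - z)
    have u2 := fr_le_one m hm (θ - z + Real.pi)
    have u3 := fr_le_one m hm (θ + z)
    have u4 := fr_le_one m hm (θ + z + Real.pi)
    rw [abs_le]
    constructor <;> linarith
  · obtain ⟨u1, u2, u3, u4⟩ := four_far hT hν hm hmT hθ0 hθ1 hz0 hz1 h1 h2 h3 h4 hd
    rw [mul_div_assoc, abs_le]
    constructor <;> linarith

/-- a bump of another group -/
theorem psi_other {T ν n δ : ℝ} (hT : 0 < T) (hν : 0 < ν) (hn : 0 < n) {m : ℕ} (hm : 1 ≤ m)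
    (hmT : 8 * (m : ℝ) = T * ν ^ 4) (hmn : 8 * (m : ℝ) = n) (hδ : (1 / 7 : ℝ) ^ 16 ≤ δ)
    {r0 r : ℕ} {θ z : ℝ} (hθ0 : 0 ≤ θ) (hθ1 : θ ≤ Real.pi / 2)
    (hz0 : 0 ≤ z) (hz1 : z ≤ Real.pi / 2) (h1 : Real.pi * r0 / T ≤ θ)
    (h2 : θ ≤ Real.pi * (r0 + 1) / T) (h3 : Real.pi * r / T ≤ z)
    (h4 : z ≤ Real.pi * (r + 1) / T) (hsep : 199 / n ≤ |θ - z|) :
    |psi m z θ| ≤ hw (4 * δ) (4 * (8 / ν ^ 4) ^ 16) (dd r0 r) := by
  have n1 := fr_nonneg m hm (θ - z)
  have n2 := fr_nonneg m hm (θ - z + Real.pi)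
  have n3 := fr_nonneg m hm (θ + z)
  have n4 := fr_nonneg m hm (θ + z + Real.pi)
  unfold psi hw
  split_ifs with hd
  · obtain ⟨u1, u2, u3, u4⟩ := fr_four m hm hθ0 hθ1 hz0 hz1 (by positivity : 0 < 199 / n) hsep
    have h5 : (Real.pi / (m * (199 / n))) ^ 16 ≤ δ := by
      refine le_trans ?_ hδ
      have hpi := Real.pi_pos
      apply pow_le_pow_left₀ (by positivity)
      have : (m : ℝ) * (199 / n) = 199 / 8 := by
        rw [← hmn]
        have : (m : ℝ) ≠ 0 := by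
          have : 0 < m := hm
          positivity
        field_simp
      rw [this]
      have := Real.pi_lt_d2
      rw [div_le_div_iff₀ (by norm_num) (by norm_num)]
      linarith
    rw [abs_le]
    constructor <;> linarith
  · obtain ⟨u1, u2, u3, u4⟩ := four_far hT hν hm hmT hθ0 hθ1 hz0 hz1 h1 h2 h3 h4 hd
    rw [mul_div_assoc, abs_le]
    constructor <;> linarith

/-- a bump of the same group -/
theorem psi_same {T ν δ : ℝ} (hT : 0 < T) (hν : 16 ≤ ν) {m : ℕ} (hm : 14 ≤ m)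
    (hmT : 8 * (m : ℝ) = T * ν ^ 4) (hδ : (1 / 7 : ℝ) ^ 16 ≤ δ)
    {r0 r : ℕ} {θ z : ℝ} (hθ0 : 0 ≤ θ) (hθ1 : θ ≤ Real.pi / 2)
    (hz0 : 1 / (100 * T) ≤ z) (hz1 : z ≤ Real.pi / 2) (h1 : Real.pi * r0 / T ≤ θ)
    (h2 : θ ≤ Real.pi * (r0 + 1) / T) (h3 : Real.pi * r / T ≤ z)
    (h4 : z ≤ Real.pi * (r + 1) / T) :
    fr m (θ - z) - hw (4 * δ) (4 * (8 / ν ^ 4) ^ 16) (dd r0 r) ≤ psi m z θ := by
  have hpi := Real.pi_pos
  have hν0 : 0 < ν := by linarith
  have hm1 : 1 ≤ m := by omega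
  have hz0' : 0 ≤ z := le_trans (by positivity) hz0
  have n2 := fr_nonneg m hm1 (θ - z + Real.pi)
  have n3 := fr_nonneg m hm1 (θ + z)
  have n4 := fr_nonneg m hm1 (θ + z + Real.pi)
  have hm' : (0 : ℝ) < m := by exact_mod_cast hm1
  have hδ0 : 0 ≤ δ := le_trans (by positivity) hδ
  unfold psi hw
  split_ifs with hd
  · -- the term at distance about pi
    have e2 : fr m (θ - z + Real.pi) ≤ δ := by
      have h5 : Real.pi / 2 ≤ |θ - z + Real.pi| := by
        rw [abs_of_nonneg (by linarith)]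
        linarith
      have h6 : fr m (θ - z + Real.pi) ≤ (Real.pi / (m * (Real.pi / 2))) ^ 16 := by
        rcases le_total θ z with h | h
        · refine fr_le m hm1 _ _ (by positivity) h5 ?_
          rw [abs_of_nonneg (by linarith)]
          linarith
        · have h7 : fr m (θ - z + Real.pi) = fr m (θ - z - Real.pi) := by
            rw [← fr_add m (θ - z - Real.pi)]
            congr 1
            ring
          rw [h7]
          have h8 : |θ - z - Real.pi| = Real.pi - (θ - z) := by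
            rw [abs_sub_comm]
            exact abs_of_nonneg (by linarith)
          exact fr_le m hm1 _ _ (by positivity) (by rw [h8]; linarith) (by rw [h8]; linarith)
      refine h6.trans (le_trans ?_ hδ)
      apply pow_le_pow_left₀ (by positivity)
      have : Real.pi / (m * (Real.pi / 2)) = 2 / m := by
        field_simp
      rw [this, div_le_div_iff₀ hm' (by norm_num)]
      have : (14 : ℝ) ≤ m := by exact_mod_cast hm
      linarith
    have e3 : fr m (θ + z) ≤ δ := by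
      have h5 : 1 / (100 * T) ≤ |θ + z| := by
        rw [abs_of_nonneg (by linarith)]
        linarith
      have h6 : |θ + z| ≤ Real.pi := by
        rw [abs_of_nonneg (by linarith)]
        linarith
      have h7 := fr_le m hm1 (θ + z) (1 / (100 * T)) (by positivity) h5 h6
      refine h7.trans (le_trans ?_ hδ)
      apply pow_le_pow_left₀ (by positivity)
      have hmm : (m : ℝ) = T * ν ^ 4 / 8 := by linarith
      have : Real.pi / (m * (1 / (100 * T))) = 800 * Real.pi / ν ^ 4 := by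
        rw [hmm]
        field_simp
        norm_num
      rw [this, div_le_div_iff₀ (by positivity) (by norm_num)]
      have h8 : (16 : ℝ) ^ 4 ≤ ν ^ 4 := pow_le_pow_left₀ (by norm_num) hν 4
      have := Real.pi_lt_d2
      norm_num at h8
      linarith
    linarith
  · obtain ⟨u1, u2, u3, u4⟩ := four_far hT hν0 hm1 hmT hθ0 hθ1 hz0' hz1 h1 h2 h3 h4 hd
    rw [mul_div_assoc]
    have : 0 ≤ (8 / ν ^ 4) ^ 16 / ((dd r0 r : ℝ) - 1) ^ 2 := by positivity
    linarith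

/-! ### The sum of all bumps -/

theorem main_bounds {T ν n : ℝ} {m R : ℕ} (hT : 0 < T) (hν : 16 ≤ ν) (hn : 0 < n)
    (hm : 14 ≤ m) (hmT : 8 * (m : ℝ) = T * ν ^ 4) (hmn : 8 * (m : ℝ) = n)
    (hTn : 200 / n ≤ Real.pi / (10 * T)) {Z : ℕ → Finset ℝ} (hcard : ∀ r, (Z r).card ≤ 8)
    (hR : ∀ r, ∀ z ∈ Z r, r < R) (hlo : ∀ r, ∀ z ∈ Z r, Real.pi * r / T ≤ z)
    (hhi : ∀ r, ∀ z ∈ Z r, z ≤ Real.pi * (r + 1) / T)
    (haway : ∀ r, ∀ z ∈ Z r, 1 / (100 * T) ≤ z) (htop : ∀ r, ∀ z ∈ Z r, z ≤ Real.pi / 2)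
    {b : ℕ → ℝ} (hb1 : ∀ r : ℕ, Real.pi * (r + 1 / 10) / T ≤ b r)
    (hb2 : ∀ r : ℕ, b r ≤ Real.pi * (r + 9 / 10) / T)
    (hb3 : ∀ r, ∀ z ∈ Z r, 100 / n ≤ |z - b r|) {al : ℕ → ℤ} (hal : IsSign al) {θ : ℝ}
    (hθ0 : 0 ≤ θ) (hθ1 : θ ≤ Real.pi / 2) :
    |∑ r ∈ range R, ∑ z ∈ Z r, (al (gi b r z) : ℝ) * psi m z θ| ≤ 256 ∧
    ∀ r', ∀ z' ∈ Z r', |θ - z'| ≤ 2 / (ν * n) →
      (57 / 100 : ℝ) ^ 16 / 2 ≤ |∑ r ∈ range R, ∑ z ∈ Z r, (al (gi b r z) : ℝ) * psi m z θ| := by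
  have hpi := Real.pi_pos
  have hν0 : 0 < ν := by linarith
  have hm1 : 1 ≤ m := by omega
  have hal' : ∀ i, (al i : ℝ) = 1 ∨ (al i : ℝ) = -1 := by
    intro i
    rcases hal i with h | h
    · left; rw [h]; norm_num
    · right; rw [h]; norm_num
  have hal1 : ∀ i, |(al i : ℝ)| = 1 := by
    intro i
    rcases hal' i with h | h <;> rw [h] <;> norm_num
  have hε : (8 / ν ^ 4 : ℝ) ^ 16 ≤ (1 / 8192) ^ 16 := by
    apply pow_le_pow_left₀ (by positivity)
    rw [div_le_div_iff₀ (by positivity) (by norm_num)]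
    have h8 : (16 : ℝ) ^ 4 ≤ ν ^ 4 := pow_le_pow_left₀ (by norm_num) hν 4
    norm_num at h8
    linarith
  have hε0 : 0 ≤ (8 / ν ^ 4 : ℝ) ^ 16 := by positivity
  obtain ⟨r0, h1, h2⟩ : ∃ r0 : ℕ, Real.pi * r0 / T ≤ θ ∧ θ ≤ Real.pi * (r0 + 1) / T := by
    refine ⟨⌊θ * T / Real.pi⌋₊, ?_, ?_⟩
    · rw [div_le_iff₀ hT]
      have := Nat.floor_le (by positivity : 0 ≤ θ * T / Real.pi)
      rw [le_div_iff₀ hpi] at this
      linarith
    · rw [le_div_iff₀ hT]
      have := Nat.lt_floor_add_one (θ * T / Real.pi)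
      rw [div_lt_iff₀ hpi] at this
      linarith
  have hz0 : ∀ r, ∀ z ∈ Z r, 0 ≤ z := fun r z hz => le_trans (by positivity) (haway r z hz)
  have hsumw : ∀ δ' ε' : ℝ, 0 ≤ δ' → 0 ≤ ε' →
      ∑ r ∈ range R, ∑ _z ∈ Z r, hw δ' ε' (dd r0 r) ≤ 8 * (2 * (2 * δ' + 2 * ε')) := by
    intro δ' ε' hδ' hε'
    calc ∑ r ∈ range R, ∑ _z ∈ Z r, hw δ' ε' (dd r0 r)
        ≤ ∑ r ∈ range R, 8 * hw δ' ε' (dd r0 r) := by
          apply sum_le_sum
          intro r _
          rw [sum_const, nsmul_eq_mul]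
          apply mul_le_mul_of_nonneg_right _ (hw_nonneg hδ' hε' _)
          exact_mod_cast hcard r
      _ = 8 * ∑ r ∈ range R, hw δ' ε' (dd r0 r) := by rw [mul_sum]
      _ ≤ 8 * (2 * (2 * δ' + 2 * ε')) :=
          mul_le_mul_of_nonneg_left (sum_dd δ' ε' hδ' hε' r0 R) (by norm_num)
  refine ⟨?_, ?_⟩
  · calc |∑ r ∈ range R, ∑ z ∈ Z r, (al (gi b r z) : ℝ) * psi m z θ|
        ≤ ∑ r ∈ range R, ∑ z ∈ Z r, hw 4 (4 * (8 / ν ^ 4) ^ 16) (dd r0 r) := by
          refine (abs_sum_le_sum_abs _ _).trans (sum_le_sum fun r _ => ?_)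
          refine (abs_sum_le_sum_abs _ _).trans (sum_le_sum fun z hz => ?_)
          rw [abs_mul, hal1, one_mul]
          exact psi_upper hT hν0 hm1 hmT hθ0 hθ1 (hz0 r z hz) (htop r z hz) h1 h2
            (hlo r z hz) (hhi r z hz)
      _ ≤ 8 * (2 * (2 * 4 + 2 * (4 * (8 / ν ^ 4) ^ 16))) :=
          hsumw _ _ (by norm_num) (by positivity)
      _ ≤ 256 := by
          have : ((1 : ℝ) / 8192) ^ 16 ≤ 1 := by norm_num
          linarith
  · intro r' z' hz' hclose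
    set α0 := al (gi b r' z') with hα0
    have hz'R := hR r' z' hz'
    have key : ∀ r ∈ range R, ∀ z ∈ Z r,
        (if (⟨r, z⟩ : Σ _ : ℕ, ℝ) = ⟨r', z'⟩ then (57 / 100 : ℝ) ^ 16 else 0) -
          hw (4 * (1 / 7) ^ 16) (4 * (8 / ν ^ 4) ^ 16) (dd r0 r) ≤
        (α0 : ℝ) * ((al (gi b r z) : ℝ) * psi m z θ) := by
      intro r _ z hz
      by_cases hg : gi b r z = gi b r' z'
      · have e1 : (α0 : ℝ) * ((al (gi b r z) : ℝ) * psi m z θ) = psi m z θ := by
          rw [hg, ← hα0, ← mul_assoc]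
          have : (α0 : ℝ) * α0 = 1 := by
            rcases hal' (gi b r' z') with h | h <;> rw [hα0, h] <;> norm_num
          rw [this, one_mul]
        rw [e1]
        have h5 := psi_same hT hν hm hmT (le_refl ((1 / 7 : ℝ) ^ 16)) hθ0 hθ1 (haway r z hz)
          (htop r z hz) h1 h2 (hlo r z hz) (hhi r z hz)
        refine le_trans ?_ h5
        apply sub_le_sub_right
        split_ifs with he
        · have he2 : z = z' := by
            have := congrArg (fun p : Σ _ : ℕ, ℝ => p.2) he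
            exact this
          subst he2
          apply fr_ge m hm1
          have h6 : (m : ℝ) * |θ - z| ≤ (m : ℝ) * (2 / (ν * n)) :=
            mul_le_mul_of_nonneg_left hclose (Nat.cast_nonneg m)
          refine h6.trans ?_
          have h7 : (m : ℝ) * (2 / (ν * n)) = 1 / (4 * ν) := by
            have hmn' : (m : ℝ) = n / 8 := by linarith
            rw [hmn']
            field_simp
            norm_num
          rw [h7]
          have h8 : 1 / (4 * ν) ≤ 1 := by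
            rw [div_le_one (by positivity)]
            linarith
          have := Real.pi_gt_three
          linarith
        · exact fr_nonneg m hm1 _
      · have hne : (⟨r, z⟩ : Σ _ : ℕ, ℝ) ≠ ⟨r', z'⟩ := by
          intro he
          apply hg
          have e1 : r = r' := congrArg (fun p : Σ _ : ℕ, ℝ => p.1) he
          have e2 : z = z' := congrArg (fun p : Σ _ : ℕ, ℝ => p.2) he
          rw [e1, e2]
        rw [if_neg hne]
        have hsep := gi_sep hT hn hTn hlo hhi hb1 hb2 hb3 hz hz' hg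
        have hsep2 : 199 / n ≤ |θ - z| := by
          have h6 : |z - z'| ≤ |θ - z| + |θ - z'| := by
            have : z - z' = (θ - z') - (θ - z) := by ring
            rw [this]
            have := abs_sub (θ - z') (θ - z)
            linarith
          have h7 : 2 / (ν * n) ≤ 1 / n := by
            rw [div_le_div_iff₀ (by positivity) hn]
            nlinarith
          have h8 : (199 : ℝ) / n = 200 / n - 1 / n := by ring
          linarith
        have h5 := psi_other hT hν0 hn hm1 hmT hmn (le_refl ((1 / 7 : ℝ) ^ 16)) hθ0 hθ1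
          (hz0 r z hz) (htop r z hz) h1 h2 (hlo r z hz) (hhi r z hz) hsep2
        have h6 : |(α0 : ℝ) * ((al (gi b r z) : ℝ) * psi m z θ)| = |psi m z θ| := by
          rw [abs_mul, abs_mul, hal1, hal1, one_mul, one_mul]
        have h7 := neg_abs_le ((α0 : ℝ) * ((al (gi b r z) : ℝ) * psi m z θ))
        rw [h6] at h7
        linarith
    have hsum : (57 / 100 : ℝ) ^ 16 - 8 * (2 * (2 * (4 * (1 / 7) ^ 16) +
        2 * (4 * (8 / ν ^ 4) ^ 16))) ≤
        (α0 : ℝ) * ∑ r ∈ range R, ∑ z ∈ Z r, (al (gi b r z) : ℝ) * psi m z θ := by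
      rw [mul_sum]
      have h6 : ∑ r ∈ range R, (α0 : ℝ) * ∑ z ∈ Z r, (al (gi b r z) : ℝ) * psi m z θ =
          ∑ r ∈ range R, ∑ z ∈ Z r, (α0 : ℝ) * ((al (gi b r z) : ℝ) * psi m z θ) := by
        apply sum_congr rfl
        intro r _
        rw [mul_sum]
      rw [h6]
      refine le_trans ?_ (sum_le_sum fun r hr => sum_le_sum fun z hz => key r hr z hz)
      have h7 : ∑ r ∈ range R, ∑ z ∈ Z r,
          ((if (⟨r, z⟩ : Σ _ : ℕ, ℝ) = ⟨r', z'⟩ then (57 / 100 : ℝ) ^ 16 else 0) -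
            hw (4 * (1 / 7) ^ 16) (4 * (8 / ν ^ 4) ^ 16) (dd r0 r)) =
          ∑ r ∈ range R, ∑ z ∈ Z r,
            (if (⟨r, z⟩ : Σ _ : ℕ, ℝ) = ⟨r', z'⟩ then (57 / 100 : ℝ) ^ 16 else 0) -
          ∑ r ∈ range R, ∑ _z ∈ Z r,
            hw (4 * (1 / 7) ^ 16) (4 * (8 / ν ^ 4) ^ 16) (dd r0 r) := by
        rw [← sum_sub_distrib]
        apply sum_congr rfl
        intro r _
        rw [← sum_sub_distrib]
      have h8 : ∑ r ∈ range R, ∑ z ∈ Z r,
            (if (⟨r, z⟩ : Σ _ : ℕ, ℝ) = ⟨r', z'⟩ then (57 / 100 : ℝ) ^ 16 else 0) =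
            (57 / 100 : ℝ) ^ 16 := by
        rw [sum_sigma']
        have h9 : (⟨r', z'⟩ : Σ _ : ℕ, ℝ) ∈ (range R).sigma Z := by
          rw [mem_sigma]
          exact ⟨mem_range.mpr hz'R, hz'⟩
        have h10 := sum_ite_eq' ((range R).sigma Z) (⟨r', z'⟩ : Σ _ : ℕ, ℝ)
          (fun _ => (57 / 100 : ℝ) ^ 16)
        rw [if_pos h9] at h10
        exact h10
      rw [h7, h8]
      have h11 := hsumw (4 * (1 / 7) ^ 16) (4 * (8 / ν ^ 4) ^ 16) (by positivity) (by positivity)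
      linarith
    have h12 : (α0 : ℝ) * ∑ r ∈ range R, ∑ z ∈ Z r, (al (gi b r z) : ℝ) * psi m z θ ≤
        |∑ r ∈ range R, ∑ z ∈ Z r, (al (gi b r z) : ℝ) * psi m z θ| := by
      refine (le_abs_self _).trans ?_
      rw [abs_mul, hal1, one_mul]
    refine le_trans ?_ (hsum.trans h12)
    have h13 : (57 / 100 : ℝ) ^ 16 / 2 ≤ (57 / 100 : ℝ) ^ 16 - 8 * (2 * (2 * (4 * (1 / 7) ^ 16) +
        2 * (4 * (1 / 8192) ^ 16))) := by norm_num
    linarith

/-- the coefficients of one group -/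
noncomputable def cf (ν n : ℝ) (R : ℕ) (Z : ℕ → Finset ℝ) (b : ℕ → ℝ) (f : ℕ → ℝ) (k i : ℕ) : ℝ :=
  ν * Real.sqrt n * ∑ r ∈ range R, ∑ z ∈ (Z r).filter (fun z => gi b r z = i),
    (if Even k then 0 else 4 * f k * Real.sin (k * z))

theorem cf_bound {ν n : ℝ} (hν : 0 < ν) (hn : 0 < n) {m : ℕ} (hm : 1 ≤ m)
    (hmn : 8 * (m : ℝ) = n) {Z : ℕ → Finset ℝ} (hcard : ∀ r, (Z r).card ≤ 8) (R : ℕ) (b : ℕ → ℝ)
    {f : ℕ → ℝ} (hf : ∀ k, 0 ≤ f k ∧ f k ≤ 1 / (m : ℝ)) (k i : ℕ) :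
    |cf ν n R Z b f k i| ≤ 512 * ν / Real.sqrt n := by
  have hm' : (0 : ℝ) < m := by exact_mod_cast hm
  have h1 : ∀ z : ℝ, |(if Even k then 0 else 4 * f k * Real.sin (k * z))| ≤ 4 * (1 / (m : ℝ)) := by
    intro z
    split_ifs
    · rw [abs_zero]; positivity
    · rw [abs_mul, abs_mul]
      have h2 := Real.abs_sin_le_one (k * z)
      have h3 : |f k| ≤ 1 / m := by rw [abs_of_nonneg (hf k).1]; exact (hf k).2
      have h4 : |(4 : ℝ)| = 4 := by norm_num
      rw [h4]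
      have h5 : 4 * |f k| * |Real.sin (k * z)| ≤ 4 * |f k| * 1 :=
        mul_le_mul_of_nonneg_left h2 (by positivity)
      linarith
  have h2 : |∑ r ∈ range R, ∑ z ∈ (Z r).filter (fun z => gi b r z = i),
      (if Even k then 0 else 4 * f k * Real.sin (k * z))| ≤ 16 * (4 * (1 / (m : ℝ))) := by
    calc |∑ r ∈ range R, ∑ z ∈ (Z r).filter (fun z => gi b r z = i),
        (if Even k then 0 else 4 * f k * Real.sin (k * z))|
        ≤ ∑ r ∈ range R, ∑ z ∈ (Z r).filter (fun z => gi b r z = i), 4 * (1 / (m : ℝ)) := by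
          refine (abs_sum_le_sum_abs _ _).trans (sum_le_sum fun r _ => ?_)
          exact (abs_sum_le_sum_abs _ _).trans (sum_le_sum fun z _ => h1 z)
      _ = ((∑ r ∈ range R, ((Z r).filter (fun z => gi b r z = i)).card : ℕ) : ℝ) *
            (4 * (1 / (m : ℝ))) := by
          push_cast
          rw [sum_mul]
          apply sum_congr rfl
          intro r _
          rw [sum_const, nsmul_eq_mul]
      _ ≤ 16 * (4 * (1 / (m : ℝ))) := by
          apply mul_le_mul_of_nonneg_right _ (by positivity)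
          exact_mod_cast gi_card hcard b R i
  unfold cf
  rw [abs_mul, abs_of_nonneg (by positivity : 0 ≤ ν * Real.sqrt n)]
  have h3 : ν * Real.sqrt n * (16 * (4 * (1 / (m : ℝ)))) = 512 * ν / Real.sqrt n := by
    have hmm : (m : ℝ) = n / 8 := by linarith
    have hs : 0 < Real.sqrt n := Real.sqrt_pos.mpr hn
    rw [hmm]
    have h4 : n = Real.sqrt n * Real.sqrt n := (Real.mul_self_sqrt hn.le).symm
    rw [eq_div_iff hs.ne']
    have h5 : ν * Real.sqrt n * (16 * (4 * (1 / (n / 8)))) * Real.sqrt n =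
        512 * ν * (Real.sqrt n * Real.sqrt n) / n := by
      field_simp
      norm_num
    rw [h5, ← h4]
    field_simp
  rw [← h3]
  exact mul_le_mul_of_nonneg_left h2 (by positivity)

/-- regrouping -/
theorem cf_sum {ν n : ℝ} {Z : ℕ → Finset ℝ} (R : ℕ) (b : ℕ → ℝ) (f : ℕ → ℝ) (k : ℕ)
    (al : ℕ → ℤ) : ∑ i ∈ Icc 0 R, (al i : ℝ) * cf ν n R Z b f k i =
    ν * Real.sqrt n * ∑ r ∈ range R, ∑ z ∈ Z r, (al (gi b r z) : ℝ) *
      (if Even k then 0 else 4 * f k * Real.sin (k * z)) := by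
  unfold cf
  have h1 : ∀ i ∈ Icc 0 R, (al i : ℝ) * (ν * Real.sqrt n * ∑ r ∈ range R,
      ∑ z ∈ (Z r).filter (fun z => gi b r z = i),
        (if Even k then 0 else 4 * f k * Real.sin (k * z))) =
      ν * Real.sqrt n * ∑ r ∈ range R, ∑ z ∈ Z r, (if gi b r z = i then (al (gi b r z) : ℝ) *
        (if Even k then 0 else 4 * f k * Real.sin (k * z)) else 0) := by
    intro i _
    rw [mul_left_comm, mul_sum]
    congr 1
    apply sum_congr rfl
    intro r _
    rw [sum_filter, mul_sum]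
    apply sum_congr rfl
    intro z _
    by_cases hg : gi b r z = i
    · rw [if_pos hg, if_pos hg, hg]
    · rw [if_neg hg, if_neg hg, mul_zero]
  rw [sum_congr rfl h1, ← mul_sum]
  congr 1
  rw [sum_comm]
  apply sum_congr rfl
  intro r hr
  rw [sum_comm]
  apply sum_congr rfl
  intro z _
  rw [sum_ite_eq]
  rw [if_pos]
  rw [mem_Icc]
  rw [mem_range] at hr
  unfold gi
  split_ifs <;> omega

theorem sq_le_two_pow (w : ℕ) (hw : 4 ≤ w) : w ^ 2 ≤ 2 ^ w := by
  induction w, hw using Nat.le_induction with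
  | base => norm_num
  | succ k hk ih =>
    rw [pow_succ 2 k]
    nlinarith

theorem log_bound {u w : ℕ} (hw : 1 ≤ w) (hu : u ≤ 10000 * w) :
    Real.log ((4 : ℝ) ^ u * 2 ^ (25 * w)) ≤ 14000 * w := by
  rw [Real.log_mul (by positivity) (by positivity), Real.log_pow, Real.log_pow]
  have h4 : Real.log 4 = 2 * Real.log 2 := by
    rw [show (4 : ℝ) = 2 ^ 2 by norm_num, Real.log_pow]
    norm_num
  rw [h4]
  have h2 := Real.log_two_lt_d9
  have h0 : 0 < Real.log 2 := Real.log_pos (by norm_num)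
  have hu' : (u : ℝ) ≤ 10000 * w := by exact_mod_cast hu
  have hw' : (1 : ℝ) ≤ w := by exact_mod_cast hw
  push_cast
  nlinarith

/-- the numerical estimate of the coefficients -/
theorem coef_small {C ν n w' S A lg : ℝ} (hC : 1 ≤ C) (hw : 1 ≤ w') (hν : 0 < ν)
    (hbig : C * 28672000 * w' ≤ ν) (hn : ν ^ 4 ≤ n) (hlg : lg ≤ 14000 * w')
    (hS : S ≤ (512 / ν) ^ 2) (hA : A = 512 * ν / Real.sqrt n) (hlg0 : 0 ≤ lg) (hS0 : 0 ≤ S) :
    C * (Real.sqrt (S * lg) + A * lg) ≤ 1 / 2 := by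
  have h1 : Real.sqrt (S * lg) ≤ 512 / ν * (14000 * w') := by
    rw [Real.sqrt_le_left (by positivity)]
    have h2 : S * lg ≤ (512 / ν) ^ 2 * (14000 * w') :=
      mul_le_mul hS hlg hlg0 (by positivity)
    have h3 : 14000 * w' ≤ (14000 * w') ^ 2 := by nlinarith
    calc S * lg ≤ (512 / ν) ^ 2 * (14000 * w') := h2
      _ ≤ (512 / ν) ^ 2 * (14000 * w') ^ 2 := mul_le_mul_of_nonneg_left h3 (by positivity)
      _ = (512 / ν * (14000 * w')) ^ 2 := by ring
  have h4 : A ≤ 512 / ν := by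
    rw [hA]
    have h5 : ν ^ 2 ≤ Real.sqrt n := by
      apply Real.le_sqrt_of_sq_le
      calc (ν ^ 2) ^ 2 = ν ^ 4 := by ring
        _ ≤ n := hn
    have h6 : 0 < Real.sqrt n := lt_of_lt_of_le (by positivity) h5
    rw [div_le_div_iff₀ h6 hν]
    nlinarith
  have h7 : A * lg ≤ 512 / ν * (14000 * w') :=
    mul_le_mul h4 hlg hlg0 (by positivity)
  have h8 : C * (Real.sqrt (S * lg) + A * lg) ≤ C * (512 / ν * (14000 * w') +
      512 / ν * (14000 * w')) :=
    mul_le_mul_of_nonneg_left (by linarith) (by linarith)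
  refine h8.trans ?_
  have h9 : C * (512 / ν * (14000 * w') + 512 / ν * (14000 * w')) = C * 14336000 * w' / ν := by
    field_simp
    ring
  rw [h9, div_le_div_iff₀ hν (by norm_num)]
  linarith

end GTS

open GTS in
theorem group_ts : ∃ w0 : ℕ, ∃ c1 C1 : ℝ, 0 < c1 ∧ 1 ≤ C1 ∧ ∀ u w : ℕ, w0 ≤ w →
    u ≤ 10000 * w → ∀ Z : ℕ → Finset ℝ, Centres u w Z →
    ∃ x : ℕ → ℝ, (∀ k, |x k| ≤ 1 / 2) ∧ (∀ k, Even k → x k = 0) ∧
      (∀ θ : ℝ, 0 ≤ θ → θ ≤ Real.pi / 2 →
        |∑ k ∈ range (4 ^ u * 2 ^ (25 * w)), 2 * x k * Real.sin (k * θ)| ≤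
          C1 * 2 ^ w * Real.sqrt (4 ^ u * 2 ^ (25 * w))) ∧
      (∀ θ : ℝ, 0 ≤ θ → θ ≤ Real.pi / 2 →
        (∃ r, ∃ z ∈ Z r, |θ - z| ≤ 2 / (2 ^ w * (4 ^ u * 2 ^ (25 * w) : ℝ))) →
        c1 * 2 ^ w * Real.sqrt (4 ^ u * 2 ^ (25 * w)) ≤
          |∑ k ∈ range (4 ^ u * 2 ^ (25 * w)), 2 * x k * Real.sin (k * θ)|) := by
  obtain ⟨C, hC1, hsigns⟩ := signs
  refine ⟨⌈C * 28672000⌉₊ + 4, (57 / 100 : ℝ) ^ 16 / 2, 256, by positivity, by norm_num, ?_⟩
  intro u w hw hu Z hZ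
  have hpi := Real.pi_pos
  have hw4 : 4 ≤ w := by omega
  set T : ℝ := (4 : ℝ) ^ u * 2 ^ (21 * w) with hTdef
  set n : ℝ := (4 : ℝ) ^ u * 2 ^ (25 * w) with hndef
  set ν : ℝ := (2 : ℝ) ^ w with hνdef
  have hT : 0 < T := by positivity
  have hn : 0 < n := by positivity
  have hν16 : 16 ≤ ν := by
    rw [hνdef, show (16 : ℝ) = 2 ^ 4 by norm_num]
    exact pow_le_pow_right₀ (by norm_num) hw4
  have hν0 : 0 < ν := by linarith
  have hnT : n = T * ν ^ 4 := by
    rw [hndef, hTdef, hνdef, ← pow_mul, mul_assoc, ← pow_add]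
    congr 2
    ring
  set m : ℕ := 4 ^ u * 2 ^ (25 * w - 3) with hmdef
  have h8m : 8 * m = 4 ^ u * 2 ^ (25 * w) := by
    have : 2 ^ (25 * w) = 2 ^ (25 * w - 3) * 2 ^ 3 := by
      rw [← pow_add]
      congr 1
      omega
    rw [hmdef, this]
    ring
  have hmn : 8 * (m : ℝ) = n := by
    have : ((8 * m : ℕ) : ℝ) = ((4 ^ u * 2 ^ (25 * w) : ℕ) : ℝ) := by rw [h8m]
    push_cast at this
    rw [hndef]
    exact this
  have hmT : 8 * (m : ℝ) = T * ν ^ 4 := by rw [hmn, hnT]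
  have hν4 : (65536 : ℝ) ≤ ν ^ 4 := by
    have h8 : (16 : ℝ) ^ 4 ≤ ν ^ 4 := pow_le_pow_left₀ (by norm_num) hν16 4
    norm_num at h8
    exact h8
  have hT2 : 2 ≤ T := by
    rw [hTdef]
    have h1 : (1 : ℝ) ≤ 4 ^ u := one_le_pow₀ (by norm_num)
    have h2 : (2 : ℝ) ^ 1 ≤ 2 ^ (21 * w) := pow_le_pow_right₀ (by norm_num) (by omega)
    nlinarith
  have hm14 : 14 ≤ m := by
    have h1 : (14 : ℝ) ≤ m := by nlinarith
    exact_mod_cast h1
  have hTn : 200 / n ≤ Real.pi / (10 * T) := by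
    rw [hnT, div_le_div_iff₀ (by positivity) (by positivity)]
    have := Real.pi_gt_three
    nlinarith [mul_pos hT hpi]
  -- centres
  set R : ℕ := 4 ^ u * 2 ^ (21 * w) / 2 with hRdef
  have hTR : T = 2 * (R : ℝ) := by
    have h1 : 2 * R = 4 ^ u * 2 ^ (21 * w) := by
      rw [hRdef]
      apply Nat.mul_div_cancel'
      apply Dvd.dvd.mul_left
      exact dvd_pow_self 2 (by omega)
    have : ((2 * R : ℕ) : ℝ) = ((4 ^ u * 2 ^ (21 * w) : ℕ) : ℝ) := by rw [h1]
    push_cast at this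
    rw [hTdef]
    exact this.symm
  have hR : ∀ r, ∀ z ∈ Z r, r < R := by
    intro r z hz
    by_contra h
    have := hZ.emp r (by omega)
    rw [this] at hz
    exact absurd hz (notMem_empty _)
  have htop : ∀ r, ∀ z ∈ Z r, z ≤ Real.pi / 2 := by
    intro r z hz
    have h1 := hZ.hi r z hz
    have h2 := hR r z hz
    refine h1.trans ?_
    rw [div_le_div_iff₀ hT (by norm_num)]
    rw [hTR]
    have h3 : (r : ℝ) + 1 ≤ R := by exact_mod_cast h2
    nlinarith
  choose b hb1 hb2 hb3 using fun r : ℕ => bdry T n hT hn hTn (Z r) (hZ.card r) r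
  obtain ⟨f, hf, hpsi⟩ := psi_fourier m (by omega)
  -- the signs
  obtain ⟨al, hal, hsm⟩ := hsigns (8 * m) (by omega) 0 R (fun k i => (cf ν n R Z b f k i : ℂ))
    (fun _ => 512 * ν / Real.sqrt n) (512 * ν / Real.sqrt n)
    ((R + 1 : ℝ) * (512 * ν / Real.sqrt n) ^ 2)
    (by
      intro k _ i _
      rw [Complex.norm_real, Real.norm_eq_abs]
      exact cf_bound hν0 hn (by omega) hmn hZ.card R b hf k i)
    (fun _ _ => le_refl _) (by positivity)
    (by
      rw [sum_const, Nat.card_Icc, nsmul_eq_mul]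
      push_cast
      simp)
  have hS : (R + 1 : ℝ) * (512 * ν / Real.sqrt n) ^ 2 ≤ (512 / ν) ^ 2 := by
    rw [div_pow, Real.sq_sqrt hn.le, hnT]
    have h1 : (R : ℝ) + 1 ≤ T := by rw [hTR] at hT2 ⊢; linarith
    calc (R + 1 : ℝ) * ((512 * ν) ^ 2 / (T * ν ^ 4))
        ≤ T * ((512 * ν) ^ 2 / (T * ν ^ 4)) := mul_le_mul_of_nonneg_right h1 (by positivity)
      _ = (512 / ν) ^ 2 := by
        field_simp
  have hlg : Real.log ((8 * m : ℕ) : ℝ) ≤ 14000 * w := by
    have : ((8 * m : ℕ) : ℝ) = (4 : ℝ) ^ u * 2 ^ (25 * w) := by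
      rw [h8m]
      push_cast
      ring
    rw [this]
    exact log_bound (by omega) hu
  have hbig : C * 28672000 * w ≤ ν := by
    have h1 : C * 28672000 ≤ w := by
      refine (Nat.le_ceil _).trans ?_
      exact_mod_cast (by omega : ⌈C * 28672000⌉₊ ≤ w)
    have h2 : ((w ^ 2 : ℕ) : ℝ) ≤ ((2 ^ w : ℕ) : ℝ) := by exact_mod_cast sq_le_two_pow w hw4
    push_cast at h2
    have h3 : (0 : ℝ) ≤ w := Nat.cast_nonneg w
    rw [hνdef]
    nlinarith
  let x : ℕ → ℝ := fun k => if k < 8 * m then ν * Real.sqrt n * ∑ r ∈ range R, ∑ z ∈ Z r,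
    (al (gi b r z) : ℝ) * (if Even k then 0 else 4 * f k * Real.sin (k * z)) else 0
  have hx : ∀ k, |x k| ≤ 1 / 2 := by
    intro k
    simp only [x]
    by_cases hk : k < 8 * m
    · rw [if_pos hk, ← cf_sum R b f k al]
      have h1 := hsm k hk
      have h2 : ∑ i ∈ Icc 0 R, ((al i : ℤ) : ℂ) * (cf ν n R Z b f k i : ℂ) =
          ((∑ i ∈ Icc 0 R, (al i : ℝ) * cf ν n R Z b f k i : ℝ) : ℂ) := by
        push_cast
        rfl
      rw [h2, Complex.norm_real, Real.norm_eq_abs] at h1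
      refine h1.trans ?_
      refine coef_small hC1 ?_ hν0 hbig ?_ hlg hS rfl ?_ (by positivity)
      · exact_mod_cast (by omega : 1 ≤ w)
      · rw [hnT]
        nlinarith
      · apply Real.log_nonneg
        exact_mod_cast (by omega : 1 ≤ 8 * m)
    · rw [if_neg hk, abs_zero]
      norm_num
  have hxe : ∀ k, Even k → x k = 0 := by
    intro k hk
    simp only [x, if_pos hk, mul_zero, sum_const_zero, ite_self]
  have hsumx : ∀ θ : ℝ, ∑ k ∈ range (4 ^ u * 2 ^ (25 * w)), 2 * x k * Real.sin (k * θ) =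
      ν * Real.sqrt n * ∑ r ∈ range R, ∑ z ∈ Z r, (al (gi b r z) : ℝ) * psi m z θ := by
    intro θ
    rw [← h8m]
    have h1 : ∀ k ∈ range (8 * m), 2 * x k * Real.sin (k * θ) =
        ν * Real.sqrt n * ∑ r ∈ range R, ∑ z ∈ Z r, (al (gi b r z) : ℝ) *
          ((if Even k then 0 else 8 * f k * Real.sin (k * z)) * Real.sin (k * θ)) := by
      intro k hk
      simp only [x]
      rw [if_pos (mem_range.mp hk)]
      have h2 : ∀ S : ℝ, 2 * (ν * Real.sqrt n * S) * Real.sin (k * θ) =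
          ν * Real.sqrt n * (S * (2 * Real.sin (k * θ))) := by intro S; ring
      rw [h2, sum_mul]
      congr 1
      apply sum_congr rfl
      intro r _
      rw [sum_mul]
      apply sum_congr rfl
      intro z _
      split_ifs
      · ring
      · ring
    rw [sum_congr rfl h1, ← mul_sum]
    congr 1
    rw [sum_comm]
    apply sum_congr rfl
    intro r _
    rw [sum_comm]
    apply sum_congr rfl
    intro z _
    rw [← mul_sum, ← hpsi]
  refine ⟨x, hx, hxe, ?_, ?_⟩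
  · intro θ hθ0 hθ1
    have hb := (main_bounds hT hν16 hn hm14 hmT hmn hTn hZ.card hR hZ.lo hZ.hi hZ.away htop
      hb1 hb2 hb3 hal hθ0 hθ1).1
    rw [hsumx, abs_mul, abs_of_nonneg (by positivity : 0 ≤ ν * Real.sqrt n)]
    have h1 := mul_le_mul_of_nonneg_left hb (by positivity : 0 ≤ ν * Real.sqrt n)
    linarith
  · rintro θ hθ0 hθ1 ⟨r', z', hz', hclose⟩
    have hb := (main_bounds hT hν16 hn hm14 hmT hmn hTn hZ.card hR hZ.lo hZ.hi hZ.away htop
      hb1 hb2 hb3 hal hθ0 hθ1).2 r' z' hz' hclose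
    rw [hsumx, abs_mul, abs_of_nonneg (by positivity : 0 ≤ ν * Real.sqrt n)]
    have h1 := mul_le_mul_of_nonneg_left hb (by positivity : 0 ≤ ν * Real.sqrt n)
    linarith

end Pool.Agent.Helper59.Lit
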