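import Mathlib

/-!
# Module Lip: Lipschitz bound for a quotient of two locally regular entire functions
-/

set_option autoImplicit false

namespace Pool.Agent.Helper59.Lit

/-- Schwarz lemma form -/
theorem lip_of_bound (f : ℂ → ℂ) (hf : Differentiable ℂ f) (x : ℂ) (r A : ℝ) (hr : 0 < r)
    (hA : ∀ z : ℂ, ‖z‖ ≤ 1 → ‖f (x + z * r)‖ ≤ A) (y : ℂ) (hy : ‖y - x‖ ≤ r) :
    ‖f y - f x‖ ≤ 2 * A * ‖y - x‖ / r := by
  have hr' : (r : ℂ) ≠ 0 := by exact_mod_cast hr.ne'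
  have hball : ∀ w : ℂ, ‖w - x‖ ≤ r → ‖f w‖ ≤ A := by
    intro w hw
    have h := hA ((w - x) / r) (by
      rw [norm_div, Complex.norm_real, Real.norm_of_nonneg hr.le, div_le_one hr]
      exact hw)
    have e : x + (w - x) / r * r = w := by field_simp; ring
    rwa [e] at h
  have hx : ‖f x‖ ≤ A := hball x (by simpa using hr.le)
  rcases hy.lt_or_eq with h | h
  · have hm : Set.MapsTo f (Metric.ball x r) (Metric.closedBall (f x) (2 * A)) := by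
      intro w hw
      rw [mem_ball_iff_norm] at hw
      rw [mem_closedBall_iff_norm]
      calc ‖f w - f x‖ ≤ ‖f w‖ + ‖f x‖ := norm_sub_le _ _
        _ ≤ 2 * A := by linarith [hball w hw.le]
    have := Complex.dist_le_div_mul_dist_of_mapsTo_ball hf.differentiableOn hm
      (z := y) (by rw [mem_ball_iff_norm]; exact h)
    rw [dist_eq_norm, dist_eq_norm] at this
    calc ‖f y - f x‖ ≤ 2 * A / r * ‖y - x‖ := this
      _ = _ := by ring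
  · rw [h, mul_div_assoc, div_self hr.ne', mul_one]
    calc ‖f y - f x‖ ≤ ‖f y‖ + ‖f x‖ := norm_sub_le _ _
      _ ≤ 2 * A := by linarith [hball y hy]

theorem quot_lip (U W : ℂ → ℂ) (hU : Differentiable ℂ U) (hW : Differentiable ℂ W)
    (r A La c θ0 θ1 : ℝ) (hr : 0 < r) (hA : 0 < A) (hc : 0 < c) (hLa : 1 ≤ La)
    (h1 : ∀ θ : ℝ, θ0 ≤ θ → θ ≤ θ1 → ∀ z : ℂ, ‖z‖ ≤ 1 → ‖U ((θ : ℂ) + z * r)‖ ≤ A)
    (h2 : ∀ θ : ℝ, θ0 ≤ θ → θ ≤ θ1 → ∀ z : ℂ, ‖z‖ ≤ 1 →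
      ‖W ((θ : ℂ) + z * r)‖ ≤ La * ‖W (θ : ℂ)‖)
    (h3 : ∀ θ : ℝ, θ0 ≤ θ → θ ≤ θ1 → c * A ≤ ‖W (θ : ℂ)‖) (x y : ℝ)
    (hx0 : θ0 ≤ x) (hx1 : x ≤ θ1) (hy0 : θ0 ≤ y) (hy1 : y ≤ θ1) :
    ‖U (x : ℂ) / W (x : ℂ) - U (y : ℂ) / W (y : ℂ)‖ ≤ (4 * La + 4) / c * |x - y| / r := by
  have hcA : 0 < c * A := mul_pos hc hA
  have hWx : c * A ≤ ‖W (x : ℂ)‖ := h3 x hx0 hx1
  have hWy : c * A ≤ ‖W (y : ℂ)‖ := h3 y hy0 hy1
  have hWx0 : 0 < ‖W (x : ℂ)‖ := hcA.trans_le hWx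
  have hWy0 : 0 < ‖W (y : ℂ)‖ := hcA.trans_le hWy
  have hWxn : W (x : ℂ) ≠ 0 := norm_pos_iff.mp hWx0
  have hWyn : W (y : ℂ) ≠ 0 := norm_pos_iff.mp hWy0
  have hUx : ‖U (x : ℂ)‖ ≤ A := by simpa using h1 x hx0 hx1 0 (by simp)
  have hUy : ‖U (y : ℂ)‖ ≤ A := by simpa using h1 y hy0 hy1 0 (by simp)
  have hqx : ‖U (x : ℂ) / W (x : ℂ)‖ ≤ 1 / c := by
    rw [norm_div, div_le_div_iff₀ hWx0 hc]
    nlinarith
  have hqy : ‖U (y : ℂ) / W (y : ℂ)‖ ≤ 1 / c := by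
    rw [norm_div, div_le_div_iff₀ hWy0 hc]
    nlinarith
  by_cases hd : |x - y| ≤ r
  · have hn : ‖(y : ℂ) - (x : ℂ)‖ = |x - y| := by
      rw [← Complex.ofReal_sub, Complex.norm_real, Real.norm_eq_abs, abs_sub_comm]
    have l1 : ‖U (y : ℂ) - U (x : ℂ)‖ ≤ 2 * A * |x - y| / r := by
      have := lip_of_bound U hU x r A hr (h1 x hx0 hx1) y (by rw [hn]; exact hd)
      rwa [hn] at this
    have l2 : ‖W (y : ℂ) - W (x : ℂ)‖ ≤ 2 * (La * ‖W (x : ℂ)‖) * |x - y| / r := by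
      have := lip_of_bound W hW x r (La * ‖W (x : ℂ)‖) hr (h2 x hx0 hx1) y (by rw [hn]; exact hd)
      rwa [hn] at this
    have e : U (x : ℂ) / W (x : ℂ) - U (y : ℂ) / W (y : ℂ) =
        -((U (y : ℂ) - U (x : ℂ)) / W (x : ℂ)) +
          (U (y : ℂ) / W (y : ℂ)) * ((W (y : ℂ) - W (x : ℂ)) / W (x : ℂ)) := by
      field_simp
      ring
    have m1 : ‖(U (y : ℂ) - U (x : ℂ)) / W (x : ℂ)‖ ≤ 2 / c * (|x - y| / r) := by
      rw [norm_div, div_le_iff₀ hWx0]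
      calc ‖U (y : ℂ) - U (x : ℂ)‖ ≤ 2 * A * |x - y| / r := l1
        _ = 2 / c * (|x - y| / r) * (c * A) := by field_simp
        _ ≤ 2 / c * (|x - y| / r) * ‖W (x : ℂ)‖ :=
            mul_le_mul_of_nonneg_left hWx (by positivity)
    have m2 : ‖(W (y : ℂ) - W (x : ℂ)) / W (x : ℂ)‖ ≤ 2 * La * (|x - y| / r) := by
      rw [norm_div, div_le_iff₀ hWx0]
      calc ‖W (y : ℂ) - W (x : ℂ)‖ ≤ 2 * (La * ‖W (x : ℂ)‖) * |x - y| / r := l2
        _ = _ := by ring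
    calc ‖U (x : ℂ) / W (x : ℂ) - U (y : ℂ) / W (y : ℂ)‖
        ≤ ‖(U (y : ℂ) - U (x : ℂ)) / W (x : ℂ)‖ +
          ‖U (y : ℂ) / W (y : ℂ)‖ * ‖(W (y : ℂ) - W (x : ℂ)) / W (x : ℂ)‖ := by
          rw [e, ← norm_mul, ← norm_neg ((U (y : ℂ) - U (x : ℂ)) / W (x : ℂ))]
          exact norm_add_le _ _
      _ ≤ 2 / c * (|x - y| / r) + 1 / c * (2 * La * (|x - y| / r)) :=
          add_le_add m1 (mul_le_mul hqy m2 (norm_nonneg _) (by positivity))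
      _ = (2 * La + 2) / c * (|x - y| / r) := by ring
      _ ≤ (4 * La + 4) / c * (|x - y| / r) := by
          apply mul_le_mul_of_nonneg_right _ (by positivity)
          apply div_le_div_of_nonneg_right _ hc.le
          linarith
      _ = _ := by ring
  · push Not at hd
    have h4 : 1 ≤ |x - y| / r := by rw [le_div_iff₀ hr]; linarith
    calc ‖U (x : ℂ) / W (x : ℂ) - U (y : ℂ) / W (y : ℂ)‖
        ≤ ‖U (x : ℂ) / W (x : ℂ)‖ + ‖U (y : ℂ) / W (y : ℂ)‖ := norm_sub_le _ _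
      _ ≤ 2 / c := by
          have : 2 / c = 1 / c + 1 / c := by ring
          rw [this]
          exact add_le_add hqx hqy
      _ ≤ (4 * La + 4) / c * (|x - y| / r) := by
          have h5 : 2 / c ≤ (4 * La + 4) / c := by
            apply div_le_div_of_nonneg_right _ hc.le
            linarith
          calc 2 / c ≤ (4 * La + 4) / c := h5
            _ = (4 * La + 4) / c * 1 := by ring
            _ ≤ (4 * La + 4) / c * (|x - y| / r) :=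
              mul_le_mul_of_nonneg_left h4 (by positivity)
      _ = _ := by ring

end Pool.Agent.Helper59.Lit
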