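import Pool.Agent.Helper59.Lit.Defs

/-!
# Module RS: Rudin-Shapiro pairs
-/

set_option autoImplicit false

namespace Pool.Agent.Helper59.Lit

/-- a Rudin-Shapiro pair with `4^u` coefficients -/
structure RSPair (u : ℕ) (p q : ℕ → ℤ) : Prop where
  sp : IsSign p
  sq : IsSign q
  sum_sq : ∀ θ : ℝ, ‖sv (4 ^ u) p (θ : ℂ)‖ ^ 2 + ‖sv (4 ^ u) q (θ : ℂ)‖ ^ 2 = 2 * 4 ^ u
  lip_p : ∀ θ θ' : ℝ, ‖sv (4 ^ u) p (θ : ℂ) - sv (4 ^ u) p (θ' : ℂ)‖ ≤ 2 * 8 ^ u * |θ - θ'|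
  lip_q : ∀ θ θ' : ℝ, ‖sv (4 ^ u) q (θ : ℂ) - sv (4 ^ u) q (θ' : ℂ)‖ ≤ 2 * 8 ^ u * |θ - θ'|
  p_zero : sv (4 ^ u) p 0 = 2 ^ u
  q_zero : sv (4 ^ u) q 0 = 2 ^ u

namespace RSAux

open Finset

/-- the recursive pair of sign sequences -/
def rsq : ℕ → (ℕ → ℤ) × (ℕ → ℤ)
  | 0 => (fun _ => 1, fun _ => 1)
  | t + 1 =>
    (fun j => if j < 2 ^ t then (rsq t).1 j else (rsq t).2 (j - 2 ^ t),
     fun j => if j < 2 ^ t then (rsq t).1 j else -(rsq t).2 (j - 2 ^ t))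

theorem rsq_sign (t : ℕ) : IsSign (rsq t).1 ∧ IsSign (rsq t).2 := by
  induction t with
  | zero => exact ⟨fun j => Or.inl rfl, fun j => Or.inl rfl⟩
  | succ t ih =>
    refine ⟨fun j => ?_, fun j => ?_⟩
    · simp only [rsq]
      split_ifs
      · exact ih.1 j
      · exact ih.2 _
    · simp only [rsq]
      split_ifs
      · exact ih.1 j
      · rcases ih.2 (j - 2 ^ t) with h | h
        · right; rw [h]
        · left; rw [h]; rfl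

theorem sv_split (m : ℕ) (a b : ℕ → ℤ) (s : ℂ) (c : ℤ) :
    sv (m + m) (fun j => if j < m then a j else c * b (j - m)) s =
      sv m a s + (c : ℂ) * Complex.exp (Complex.I * (m : ℂ) * s) * sv m b s := by
  unfold sv rv
  rw [sum_range_add, mul_sum]
  congr 1
  · refine sum_congr rfl fun j hj => ?_
    simp only [if_pos (mem_range.mp hj)]
  · refine sum_congr rfl fun j _ => ?_
    have hj : ¬ (m + j < m) := by omega
    simp only [if_neg hj, Nat.add_sub_cancel_left]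
    have : Complex.exp (Complex.I * ((m + j : ℕ) : ℂ) * s) =
        Complex.exp (Complex.I * (m : ℂ) * s) * Complex.exp (Complex.I * (j : ℂ) * s) := by
      rw [← Complex.exp_add]
      congr 1
      push_cast
      ring
    rw [this]
    push_cast
    ring

theorem sv_fst (t : ℕ) (s : ℂ) :
    sv (2 ^ (t + 1)) (rsq (t + 1)).1 s = sv (2 ^ t) (rsq t).1 s +
      Complex.exp (Complex.I * ((2 ^ t : ℕ) : ℂ) * s) * sv (2 ^ t) (rsq t).2 s := by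
  have h := sv_split (2 ^ t) (rsq t).1 (rsq t).2 s 1
  rw [← two_mul, ← pow_succ'] at h
  simp only [one_mul, Int.cast_one] at h
  exact h

theorem sv_snd (t : ℕ) (s : ℂ) :
    sv (2 ^ (t + 1)) (rsq (t + 1)).2 s = sv (2 ^ t) (rsq t).1 s -
      Complex.exp (Complex.I * ((2 ^ t : ℕ) : ℂ) * s) * sv (2 ^ t) (rsq t).2 s := by
  have h := sv_split (2 ^ t) (rsq t).1 (rsq t).2 s (-1)
  rw [← two_mul, ← pow_succ'] at h
  simp only [neg_mul, one_mul, Int.cast_neg, Int.cast_one] at h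
  rw [sub_eq_add_neg]
  exact h

theorem norm_ex (m : ℕ) (θ : ℝ) : ‖Complex.exp (Complex.I * (m : ℂ) * (θ : ℂ))‖ = 1 := by
  have : Complex.I * (m : ℂ) * (θ : ℂ) = Complex.I * ((m * θ : ℝ) : ℂ) := by push_cast; ring
  rw [this, Complex.norm_exp_I_mul_ofReal]

theorem ex_lip (m : ℕ) (θ θ' : ℝ) :
    ‖Complex.exp (Complex.I * (m : ℂ) * (θ : ℂ)) - Complex.exp (Complex.I * (m : ℂ) * (θ' : ℂ))‖
      ≤ m * |θ - θ'| := by
  have h1 : Complex.exp (Complex.I * (m : ℂ) * (θ : ℂ)) -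
      Complex.exp (Complex.I * (m : ℂ) * (θ' : ℂ)) =
      Complex.exp (Complex.I * (m : ℂ) * (θ' : ℂ)) *
        (Complex.exp (Complex.I * ((m * (θ - θ') : ℝ) : ℂ)) - 1) := by
    rw [mul_sub, ← Complex.exp_add, mul_one]
    congr 2
    push_cast
    ring
  rw [h1, norm_mul, norm_ex, one_mul]
  refine (Real.norm_exp_I_mul_ofReal_sub_one_le).trans ?_
  rw [Real.norm_eq_abs, abs_mul, Nat.abs_cast]

theorem sum_sq_aux (t : ℕ) (θ : ℝ) :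
    ‖sv (2 ^ t) (rsq t).1 (θ : ℂ)‖ ^ 2 + ‖sv (2 ^ t) (rsq t).2 (θ : ℂ)‖ ^ 2 = 2 * 2 ^ t := by
  induction t with
  | zero => simp [sv, rv, rsq]; norm_num
  | succ t ih =>
    rw [sv_fst, sv_snd, parallelogram_law_with_norm ℝ, norm_mul, norm_ex, one_mul, ih]
    ring

theorem step_ineq (a b c : ℂ) (M δ : ℝ) (e : ℂ) (hz : ‖e‖ = 1)
    (h1 : ‖a‖ ^ 2 + ‖b‖ ^ 2 ≤ 2 * M * δ) (h2 : ‖c‖ ^ 2 ≤ 2 * M * δ) :
    ‖(a + e * b) + c‖ ^ 2 + ‖(a - e * b) - c‖ ^ 2 ≤ 2 * (8 * M) * δ := by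
  have h3 := parallelogram_law_with_norm ℝ a (e * b)
  rw [norm_mul, hz, one_mul] at h3
  have h4 := parallelogram_law_with_norm ℝ (a + e * b) c
  have h5 := parallelogram_law_with_norm ℝ (a - e * b) c
  nlinarith [sq_nonneg ‖(a + e * b) - c‖, sq_nonneg ‖(a - e * b) + c‖]

theorem lip_aux (t : ℕ) (θ θ' : ℝ) :
    ‖sv (2 ^ t) (rsq t).1 (θ : ℂ) - sv (2 ^ t) (rsq t).1 (θ' : ℂ)‖ ^ 2 +
      ‖sv (2 ^ t) (rsq t).2 (θ : ℂ) - sv (2 ^ t) (rsq t).2 (θ' : ℂ)‖ ^ 2 ≤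
      2 * 8 ^ t * (θ - θ') ^ 2 := by
  induction t with
  | zero =>
    simp [sv, rv, rsq]
    positivity
  | succ t ih =>
    set P := sv (2 ^ t) (rsq t).1 (θ : ℂ)
    set Q := sv (2 ^ t) (rsq t).2 (θ : ℂ)
    set P' := sv (2 ^ t) (rsq t).1 (θ' : ℂ)
    set Q' := sv (2 ^ t) (rsq t).2 (θ' : ℂ) with hQ'
    rw [sv_fst, sv_fst, sv_snd, sv_snd]
    set e := Complex.exp (Complex.I * ((2 ^ t : ℕ) : ℂ) * (θ : ℂ)) with he
    set e' := Complex.exp (Complex.I * ((2 ^ t : ℕ) : ℂ) * (θ' : ℂ)) with he'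
    have hQ : ‖Q'‖ ^ 2 ≤ 2 * 2 ^ t := by
      have := sum_sq_aux t θ'
      nlinarith [sq_nonneg ‖sv (2 ^ t) (rsq t).1 (θ' : ℂ)‖]
    have hl := ex_lip (2 ^ t) θ θ'
    rw [← he, ← he'] at hl
    have hc : ‖(e - e') * Q'‖ ^ 2 ≤ 2 * 8 ^ t * (θ - θ') ^ 2 := by
      rw [norm_mul, mul_pow]
      have h1 : ‖e - e'‖ ^ 2 ≤ (((2 ^ t : ℕ) : ℝ) * |θ - θ'|) ^ 2 :=
        pow_le_pow_left₀ (norm_nonneg _) hl 2
      calc ‖e - e'‖ ^ 2 * ‖Q'‖ ^ 2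
          ≤ (((2 ^ t : ℕ) : ℝ) * |θ - θ'|) ^ 2 * (2 * 2 ^ t) :=
            mul_le_mul h1 hQ (by positivity) (by positivity)
        _ = 2 * 8 ^ t * (θ - θ') ^ 2 := by
            rw [mul_pow, sq_abs]
            push_cast
            have : (8 : ℝ) ^ t = (2 ^ t) ^ 2 * 2 ^ t := by
              rw [← pow_mul, ← pow_add, show (8 : ℝ) = 2 ^ 3 by norm_num, ← pow_mul]
              congr 1
              ring
            rw [this]
            ring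
    have h := step_ineq (P - P') (Q - Q') ((e - e') * Q') (8 ^ t) ((θ - θ') ^ 2) e
      (norm_ex _ _) ih hc
    have e1 : P + e * Q - (P' + e' * Q') = (P - P' + e * (Q - Q')) + (e - e') * Q' := by ring
    have e2 : P - e * Q - (P' - e' * Q') = (P - P' - e * (Q - Q')) - (e - e') * Q' := by ring
    rw [e1, e2, pow_succ' (8 : ℝ)]
    exact h

theorem zero_aux (u : ℕ) :
    sv (2 ^ (2 * u)) (rsq (2 * u)).1 0 = 2 ^ u ∧ sv (2 ^ (2 * u)) (rsq (2 * u)).2 0 = 2 ^ u := by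
  induction u with
  | zero => simp [sv, rv, rsq]
  | succ u ih =>
    have e : 2 * (u + 1) = (2 * u + 1) + 1 := by ring
    rw [e, sv_fst (2 * u + 1), sv_snd (2 * u + 1), sv_fst (2 * u), sv_snd (2 * u), ih.1, ih.2]
    simp only [mul_zero, Complex.exp_zero, one_mul]
    constructor <;> ring

end RSAux

open RSAux in
theorem rs_exists (u : ℕ) : ∃ p q : ℕ → ℤ, RSPair u p q := by
  have h4 : 4 ^ u = 2 ^ (2 * u) := by rw [pow_mul]; norm_num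
  have h8 : (2 : ℝ) * 8 ^ (2 * u) ≤ (2 * 8 ^ u) ^ 2 := by
    rw [mul_pow, ← pow_mul, mul_comm u 2]
    have : (0 : ℝ) ≤ 8 ^ (2 * u) := by positivity
    nlinarith
  have key : ∀ θ θ' : ℝ, ∀ x y : ℝ, 0 ≤ x → 0 ≤ y →
      x ^ 2 + y ^ 2 ≤ 2 * 8 ^ (2 * u) * (θ - θ') ^ 2 →
      x ≤ 2 * 8 ^ u * |θ - θ'| := by
    intro θ θ' x y hx hy h
    refine le_of_sq_le_sq ?_ (by positivity)
    have h1 : (2 * (8 : ℝ) ^ (2 * u)) * (θ - θ') ^ 2 ≤ (2 * 8 ^ u) ^ 2 * (θ - θ') ^ 2 :=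
      mul_le_mul_of_nonneg_right h8 (sq_nonneg _)
    rw [mul_pow _ |θ - θ'|, sq_abs]
    nlinarith [sq_nonneg y]
  refine ⟨(rsq (2 * u)).1, (rsq (2 * u)).2, (rsq_sign _).1, (rsq_sign _).2, ?_, ?_, ?_, ?_, ?_⟩
  · intro θ
    have h := sum_sq_aux (2 * u) θ
    rw [h4, h, pow_mul]
    norm_num
  · intro θ θ'
    rw [h4]
    exact key θ θ' _ _ (norm_nonneg _) (norm_nonneg _) (lip_aux (2 * u) θ θ')
  · intro θ θ'
    rw [h4]
    have h := lip_aux (2 * u) θ θ'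
    rw [add_comm] at h
    exact key θ θ' _ _ (norm_nonneg _) (norm_nonneg _) h
  · rw [h4]; exact (zero_aux u).1
  · rw [h4]; exact (zero_aux u).2

end Pool.Agent.Helper59.Lit
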