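import Pool.Agent.Helper59.Lit.Defs

/-!
# Module Rad: smoothed radii
-/

set_option autoImplicit false

namespace Pool.Agent.Helper59.Lit

open Finset

private lemma tel4 (m : ℝ) (hm : 1 ≤ m) :
    1 / (1 + m) ^ 4 ≤ 1 / (3 * m ^ 3) - 1 / (3 * (m + 1) ^ 3) := by
  have h0 : 0 < m := by linarith
  rw [div_sub_div _ _ (by positivity) (by positivity), div_le_div_iff₀ (by positivity) (by positivity)]
  nlinarith [pow_pos h0 3, pow_pos h0 2, pow_pos h0 4, pow_pos h0 5, pow_pos h0 6, pow_pos h0 7,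
    mul_pos (pow_pos h0 3) (pow_pos h0 3)]

private lemma sum4 (D : ℕ) (hD : 1 ≤ D) (n : ℕ) :
    ∑ d ∈ range n, 1 / (1 + ((D : ℝ) + d)) ^ 4 ≤ 1 / (3 * (D : ℝ) ^ 3) - 1 / (3 * ((D : ℝ) + n) ^ 3) := by
  have hD' : (1 : ℝ) ≤ D := by exact_mod_cast hD
  induction n with
  | zero => simp
  | succ n ih =>
    rw [sum_range_succ]
    have h := tel4 ((D : ℝ) + n) (by have : (0 : ℝ) ≤ n := Nat.cast_nonneg n; linarith)
    push_cast
    have e : (D : ℝ) + (n + 1) = (D : ℝ) + n + 1 := by ring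
    rw [e]
    linarith

private lemma sum4' (D : ℕ) (hD : 1 ≤ D) (n : ℕ) :
    ∑ d ∈ range n, 1 / (1 + ((D : ℝ) + d)) ^ 4 ≤ 1 / (3 * (D : ℝ) ^ 3) := by
  have h := sum4 D hD n
  have hD' : (1 : ℝ) ≤ D := by exact_mod_cast hD
  have h2 : 0 ≤ 1 / (3 * ((D : ℝ) + n) ^ 3) := by positivity
  linarith

private lemma sum4one (n : ℕ) : ∑ d ∈ range n, 1 / (1 + ((d : ℝ) + 1)) ^ 4 ≤ 1 / 3 := by
  have h := sum4' 1 le_rfl n
  calc ∑ d ∈ range n, 1 / (1 + ((d : ℝ) + 1)) ^ 4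
      = ∑ d ∈ range n, 1 / (1 + (((1 : ℕ) : ℝ) + d)) ^ 4 := by
        apply sum_congr rfl; intro d _; push_cast; ring_nf
    _ ≤ _ := h
    _ = 1 / 3 := by norm_num

private lemma sum4zero (n : ℕ) : ∑ d ∈ range n, 1 / (1 + (d : ℝ)) ^ 4 ≤ 4 / 3 := by
  rcases n with _ | n
  · norm_num
  · rw [sum_range_succ']
    have h := sum4one n
    push_cast
    norm_num at h ⊢
    linarith

private lemma sum2 (n : ℕ) : ∑ d ∈ range (n + 1), 1 / (1 + (d : ℝ)) ^ 2 ≤ 2 - 1 / ((n : ℝ) + 1) := by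
  induction n with
  | zero => norm_num
  | succ n ih =>
    rw [sum_range_succ]
    have hn : (0 : ℝ) ≤ n := Nat.cast_nonneg n
    have h : 1 / (1 + ((n + 1 : ℕ) : ℝ)) ^ 2 ≤ 1 / ((n : ℝ) + 1) - 1 / (((n + 1 : ℕ) : ℝ) + 1) := by
      push_cast
      rw [div_sub_div _ _ (by positivity) (by positivity),
        div_le_div_iff₀ (by positivity) (by positivity)]
      nlinarith
    linarith

private lemma sum2' (n : ℕ) : ∑ d ∈ range n, 1 / (1 + (d : ℝ)) ^ 2 ≤ 2 := by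
  rcases n with _ | n
  · norm_num
  · have h := sum2 n
    have : (0 : ℝ) ≤ 1 / ((n : ℝ) + 1) := by positivity
    linarith

private lemma icc_ico (a b : ℕ) : Icc a b = Ico a (b + 1) := by
  ext x; simp

/-- total weight -/
private lemma wsum (i1 i2 i : ℕ) :
    ∑ j ∈ Icc i1 i2, 1 / (1 + |(i : ℝ) - (j : ℝ)|) ^ 4 ≤ 2 := by
  have hsub : Icc i1 i2 ⊆ range (i + 1 + i2) := by
    intro x hx
    rw [mem_Icc] at hx
    rw [mem_range]; omega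
  have h1 : ∑ j ∈ Icc i1 i2, 1 / (1 + |(i : ℝ) - (j : ℝ)|) ^ 4 ≤
      ∑ j ∈ range (i + 1 + i2), 1 / (1 + |(i : ℝ) - (j : ℝ)|) ^ 4 :=
    sum_le_sum_of_subset_of_nonneg hsub (fun j _ _ => by positivity)
  rw [sum_range_add] at h1
  have h2 : ∑ j ∈ range (i + 1), 1 / (1 + |(i : ℝ) - (j : ℝ)|) ^ 4 ≤ 4 / 3 := by
    rw [← sum_range_reflect]
    refine le_trans (le_of_eq ?_) (sum4zero (i + 1))
    apply sum_congr rfl
    intro j hj
    rw [mem_range] at hj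
    have e : ((i + 1 - 1 - j : ℕ) : ℝ) = (i : ℝ) - j := by
      rw [Nat.add_sub_cancel, Nat.cast_sub (by omega)]
    rw [e]
    have e2 : (i : ℝ) - ((i : ℝ) - j) = j := by ring
    rw [e2, abs_of_nonneg (Nat.cast_nonneg j)]
  have h3 : ∑ x ∈ range i2, 1 / (1 + |(i : ℝ) - ((i + 1 + x : ℕ) : ℝ)|) ^ 4 ≤ 1 / 3 := by
    refine le_trans (le_of_eq ?_) (sum4one i2)
    apply sum_congr rfl
    intro j _
    push_cast
    have e2 : (i : ℝ) - ((i : ℝ) + 1 + j) = -((j : ℝ) + 1) := by ring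
    rw [e2, abs_neg, abs_of_nonneg (by positivity)]
  linarith

theorem rad_nonneg (i1 i2 : ℕ) (u : ℕ → ℝ) (hu : ∀ j, 0 ≤ u j) (i : ℕ) :
    0 ≤ rad i1 i2 u i := by
  unfold rad
  apply sum_nonneg
  intro j _
  exact div_nonneg (hu j) (by positivity)

theorem rad_slow (i1 i2 : ℕ) (u : ℕ → ℝ) (hu : ∀ j, 0 ≤ u j) (i j : ℕ) :
    rad i1 i2 u i ≤ (1 + |(i : ℝ) - (j : ℝ)|) ^ 4 * rad i1 i2 u j := by
  unfold rad
  rw [mul_sum]
  apply sum_le_sum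
  intro k _
  have hk := hu k
  set a := |(i : ℝ) - (k : ℝ)| with ha
  set b := |(j : ℝ) - (k : ℝ)| with hb
  set c := |(i : ℝ) - (j : ℝ)| with hc
  have ha0 : 0 ≤ a := abs_nonneg _
  have hb0 : 0 ≤ b := abs_nonneg _
  have hc0 : 0 ≤ c := abs_nonneg _
  have htri : b ≤ c + a := by
    have := abs_sub_le (j : ℝ) (i : ℝ) (k : ℝ)
    rw [abs_sub_comm (j : ℝ) (i : ℝ)] at this
    linarith
  rw [mul_div_assoc', div_le_div_iff₀ (by positivity) (by positivity)]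
  have h1 : (1 + b) ≤ (1 + c) * (1 + a) := by nlinarith
  have h2 : (1 + b) ^ 4 ≤ ((1 + c) * (1 + a)) ^ 4 :=
    pow_le_pow_left₀ (by positivity) h1 4
  rw [mul_pow] at h2
  nlinarith [mul_le_mul_of_nonneg_left h2 hk]

theorem rad_ge (i1 i2 : ℕ) (u : ℕ → ℝ) (hu : ∀ j, 0 ≤ u j) (i : ℕ) (hi : i ∈ Icc i1 i2) :
    u i ≤ rad i1 i2 u i := by
  unfold rad
  have h := single_le_sum (f := fun j : ℕ => u j / (1 + |(i : ℝ) - (j : ℝ)|) ^ 4)
    (fun j _ => div_nonneg (hu j) (by positivity)) hi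
  simpa using h

theorem rad_sq (i1 i2 : ℕ) (u : ℕ → ℝ) (hu : ∀ j, 0 ≤ u j) :
    ∑ i ∈ Icc i1 i2, rad i1 i2 u i ^ 2 ≤ 4 * ∑ j ∈ Icc i1 i2, u j ^ 2 := by
  have h1 : ∀ i ∈ Icc i1 i2, rad i1 i2 u i ^ 2 ≤
      2 * ∑ j ∈ Icc i1 i2, u j ^ 2 * (1 / (1 + |(i : ℝ) - (j : ℝ)|) ^ 4) := by
    intro i _
    unfold rad
    have hcs := sum_sq_le_sum_mul_sum_of_sq_eq_mul (Icc i1 i2)
      (r := fun j : ℕ => u j / (1 + |(i : ℝ) - (j : ℝ)|) ^ 4)
      (f := fun j : ℕ => 1 / (1 + |(i : ℝ) - (j : ℝ)|) ^ 4)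
      (g := fun j : ℕ => u j ^ 2 * (1 / (1 + |(i : ℝ) - (j : ℝ)|) ^ 4))
      (fun j _ => by positivity) (fun j _ => by positivity)
      (fun j _ => by field_simp)
    refine hcs.trans ?_
    apply mul_le_mul_of_nonneg_right (wsum i1 i2 i)
    apply sum_nonneg
    intro j _; positivity
  refine (sum_le_sum h1).trans ?_
  rw [← mul_sum, sum_comm]
  have h2 : ∑ y ∈ Icc i1 i2, ∑ x ∈ Icc i1 i2, u y ^ 2 * (1 / (1 + |(x : ℝ) - (y : ℝ)|) ^ 4) ≤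
      ∑ y ∈ Icc i1 i2, 2 * u y ^ 2 := by
    apply sum_le_sum
    intro y _
    rw [← mul_sum]
    have := wsum i1 i2 y
    have e : ∑ x ∈ Icc i1 i2, 1 / (1 + |(x : ℝ) - (y : ℝ)|) ^ 4 =
        ∑ x ∈ Icc i1 i2, 1 / (1 + |(y : ℝ) - (x : ℝ)|) ^ 4 := by
      apply sum_congr rfl; intro x _; rw [abs_sub_comm]
    rw [e]
    nlinarith [sq_nonneg (u y)]
  rw [← mul_sum] at h2
  linarith

theorem rad_le (i1 i2 : ℕ) (u : ℕ → ℝ) (hu : ∀ j, 0 ≤ u j) (B : ℝ) (hB : 0 ≤ B)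
    (h : ∀ j ∈ Icc i1 i2, u j ≤ B) (i : ℕ) : rad i1 i2 u i ≤ 2 * B := by
  unfold rad
  have h1 : ∑ j ∈ Icc i1 i2, u j / (1 + |(i : ℝ) - (j : ℝ)|) ^ 4 ≤
      ∑ j ∈ Icc i1 i2, B * (1 / (1 + |(i : ℝ) - (j : ℝ)|) ^ 4) := by
    apply sum_le_sum
    intro j hj
    rw [mul_one_div]
    exact div_le_div_of_nonneg_right (h j hj) (by positivity)
  rw [← mul_sum] at h1
  have := wsum i1 i2 i
  nlinarith

private lemma onesided (u : ℕ → ℝ) (hu : ∀ j, 0 ≤ u j) (N D : ℕ) (hD : 1 ≤ D) (K U : ℝ)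
    (hK : 0 ≤ K) (hU : 0 ≤ U)
    (h1 : ∀ d < N, d ≤ D → u d ≤ K * (1 + (d : ℝ)) ^ 2) (h2 : ∀ d < N, u d ≤ U) :
    ∑ d ∈ range N, u d / (1 + (d : ℝ)) ^ 4 ≤ 2 * K + U / (D : ℝ) ^ 3 := by
  have hD' : (1 : ℝ) ≤ D := by exact_mod_cast hD
  have hpt : ∀ d ∈ range N, u d / (1 + (d : ℝ)) ^ 4 ≤
      K * (1 / (1 + (d : ℝ)) ^ 2) + (if D ≤ d then U * (1 / (1 + (d : ℝ)) ^ 4) else 0) := by
    intro d hd
    rw [mem_range] at hd
    by_cases hdD : d ≤ D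
    · have hu1 := h1 d hd hdD
      have : u d / (1 + (d : ℝ)) ^ 4 ≤ K * (1 / (1 + (d : ℝ)) ^ 2) := by
        rw [mul_one_div, div_le_div_iff₀ (by positivity) (by positivity)]
        have : u d * (1 + (d : ℝ)) ^ 2 ≤ K * (1 + (d : ℝ)) ^ 2 * (1 + (d : ℝ)) ^ 2 :=
          mul_le_mul_of_nonneg_right hu1 (by positivity)
        nlinarith
      have h0 : 0 ≤ (if D ≤ d then U * (1 / (1 + (d : ℝ)) ^ 4) else 0) := by
        split_ifs
        · positivity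
        · exact le_rfl
      linarith
    · push Not at hdD
      rw [if_pos hdD.le]
      have hu2 := h2 d hd
      have : u d / (1 + (d : ℝ)) ^ 4 ≤ U * (1 / (1 + (d : ℝ)) ^ 4) := by
        rw [mul_one_div]
        exact div_le_div_of_nonneg_right hu2 (by positivity)
      have h0 : 0 ≤ K * (1 / (1 + (d : ℝ)) ^ 2) := by positivity
      linarith
  refine (sum_le_sum hpt).trans ?_
  rw [sum_add_distrib, ← mul_sum, ← sum_filter]
  have hA := sum2' N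
  have hB : ∑ a ∈ range N with D ≤ a, U * (1 / (1 + (a : ℝ)) ^ 4) ≤ U / (D : ℝ) ^ 3 := by
    rw [← mul_sum]
    have hsub : (range N).filter (fun a => D ≤ a) ⊆ Ico D (D + N) := by
      intro x hx
      rw [mem_filter, mem_range] at hx
      rw [mem_Ico]; omega
    have h3 : ∑ a ∈ range N with D ≤ a, 1 / (1 + (a : ℝ)) ^ 4 ≤
        ∑ a ∈ Ico D (D + N), 1 / (1 + (a : ℝ)) ^ 4 :=
      sum_le_sum_of_subset_of_nonneg hsub (fun j _ _ => by positivity)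
    rw [sum_Ico_eq_sum_range] at h3
    have h4 := sum4' D hD (D + N - D)
    have h5 : ∑ k ∈ range (D + N - D), 1 / (1 + ((D + k : ℕ) : ℝ)) ^ 4 ≤ 1 / (3 * (D : ℝ) ^ 3) := by
      refine le_trans (le_of_eq ?_) h4
      apply sum_congr rfl; intro k _; push_cast; rfl
    have h6 : 1 / (3 * (D : ℝ) ^ 3) ≤ 1 / (D : ℝ) ^ 3 := by
      apply one_div_le_one_div_of_le (by positivity)
      have : 0 < (D : ℝ) ^ 3 := by positivity
      linarith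
    calc U * ∑ a ∈ range N with D ≤ a, 1 / (1 + (a : ℝ)) ^ 4
        ≤ U * (1 / (D : ℝ) ^ 3) := mul_le_mul_of_nonneg_left (h3.trans (h5.trans h6)) hU
      _ = U / (D : ℝ) ^ 3 := by ring
  nlinarith

/-- the value at the left end -/
theorem rad_left (i1 i2 D : ℕ) (hD : 1 ≤ D) (h12 : i1 ≤ i2) (u : ℕ → ℝ) (hu : ∀ j, 0 ≤ u j)
    (K U : ℝ) (hK : 0 ≤ K) (hU : 0 ≤ U)
    (h1 : ∀ j ∈ Icc i1 i2, j ≤ i1 + D → u j ≤ K * (1 + ((j : ℝ) - (i1 : ℝ))) ^ 2)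
    (h2 : ∀ j ∈ Icc i1 i2, u j ≤ U) :
    rad i1 i2 u i1 ≤ 2 * K + U / (D : ℝ) ^ 3 := by
  unfold rad
  rw [icc_ico, sum_Ico_eq_sum_range]
  have h := onesided (fun d => u (i1 + d)) (fun d => hu _) (i2 + 1 - i1) D hD K U hK hU
    (fun d hd hdD => by
      have := h1 (i1 + d) (by rw [mem_Icc]; omega) (by omega)
      push_cast at this
      have e : (i1 : ℝ) + d - i1 = d := by ring
      rwa [e] at this)
    (fun d hd => h2 (i1 + d) (by rw [mem_Icc]; omega))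
  refine le_trans (le_of_eq ?_) h
  apply sum_congr rfl
  intro d _
  push_cast
  have e : (i1 : ℝ) - ((i1 : ℝ) + d) = -(d : ℝ) := by ring
  rw [e, abs_neg, abs_of_nonneg (Nat.cast_nonneg d)]

/-- the value at the right end -/
theorem rad_right (i1 i2 D : ℕ) (hD : 1 ≤ D) (h12 : i1 ≤ i2) (u : ℕ → ℝ) (hu : ∀ j, 0 ≤ u j)
    (K U : ℝ) (hK : 0 ≤ K) (hU : 0 ≤ U)
    (h1 : ∀ j ∈ Icc i1 i2, i2 ≤ j + D → u j ≤ K * (1 + ((i2 : ℝ) - (j : ℝ))) ^ 2)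
    (h2 : ∀ j ∈ Icc i1 i2, u j ≤ U) :
    rad i1 i2 u i2 ≤ 2 * K + U / (D : ℝ) ^ 3 := by
  unfold rad
  rw [icc_ico, sum_Ico_eq_sum_range, ← sum_range_reflect]
  have key : ∀ d < i2 + 1 - i1, i1 + (i2 + 1 - i1 - 1 - d) = i2 - d := by intro d hd; omega
  have h := onesided (fun d => u (i2 - d)) (fun d => hu _) (i2 + 1 - i1) D hD K U hK hU
    (fun d hd hdD => by
      have := h1 (i2 - d) (by rw [mem_Icc]; omega) (by omega)
      rw [Nat.cast_sub (by omega)] at this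
      have e : (i2 : ℝ) - ((i2 : ℝ) - d) = d := by ring
      rwa [e] at this)
    (fun d hd => h2 (i2 - d) (by rw [mem_Icc]; omega))
  refine le_trans (le_of_eq ?_) h
  apply sum_congr rfl
  intro d hd
  rw [mem_range] at hd
  rw [key d hd, Nat.cast_sub (by omega)]
  have e : (i2 : ℝ) - ((i2 : ℝ) - d) = d := by ring
  rw [e, abs_of_nonneg (Nat.cast_nonneg d)]

end Pool.Agent.Helper59.Lit
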