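import Pool.Agent.Helper59.Lit.StageDefs

/-!
# Module Radii: properties of the radii used in the step
-/

set_option autoImplicit false

namespace Pool.Agent.Helper59.Lit

open Finset

/-- basic facts on the integer parameters -/
lemma radii_kap_facts (Y : ℕ) (hY : 100 ≤ Y) :
    600 ≤ kap Y ∧ 16 * kap Y ≤ Y ^ 64 ∧ Y ^ 64 ≤ 17 * kap Y := by
  have h1 : 10000 ≤ Y ^ 64 := by
    calc 10000 = 100 ^ 2 := by norm_num
      _ ≤ Y ^ 2 := Nat.pow_le_pow_left hY 2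
      _ ≤ Y ^ 64 := Nat.pow_le_pow_right (by omega) (by norm_num)
  have h2 := Nat.div_add_mod (Y ^ 64) 16
  have h3 := Nat.mod_lt (Y ^ 64) (show 16 > 0 by norm_num)
  unfold kap
  refine ⟨?_, ?_, ?_⟩ <;> omega

lemma radii_ii2_eq (Y : ℕ) (hY : 100 ≤ Y) : ii2 Y = Y ^ 132 * kap Y := by
  unfold ii2 mm
  apply Nat.div_eq_of_eq_mul_left (pow_pos (by omega) 60)
  ring

lemma radii_pi_lo : 3.14 < Real.pi := Real.pi_gt_d2
lemma radii_pi_hi : Real.pi < 3.15 := Real.pi_lt_d2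

lemma radii_aux_cell_lo {π' N q a b : ℝ} (hπ : 3.14 < π') (hN : a ≤ 8 * N + 7) (ha : 10000 ≤ a)
    (hq : 0 ≤ q) (hb : 0 < b) : 7 * (b * a) ≤ 2 * π' * (N + q) * (10 * b) := by
  have hN0 : 0 ≤ N := by linarith
  have h1 : a * 7 ≤ 62 * N := by linarith
  have h2 : 62 * N ≤ 20 * π' * N := by nlinarith
  have h3 : 20 * π' * N ≤ 20 * π' * (N + q) := by
    have : 0 ≤ 20 * π' := by linarith
    nlinarith
  have h4 : a * 7 ≤ 20 * π' * (N + q) := by linarith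
  have h5 := mul_le_mul_of_nonneg_left h4 hb.le
  linarith

lemma radii_aux_cell_hi {π' N q a b : ℝ} (hπ : π' < 3.15) (hN : 8 * N ≤ a)
    (hN0 : 0 ≤ N) (ha : 10000 ≤ a) (hq0 : 0 ≤ q) (hq : q ≤ 1 / 2) (hb : 0 < b) :
    2 * π' * (N + q) * b ≤ 1 * (b * a) := by
  have h1 : 2 * π' * (N + q) ≤ 6.3 * (N + 1 / 2) := by
    apply mul_le_mul _ _ (by positivity) (by norm_num)
    · linarith
    · linarith
  have h2 : 6.3 * (N + 1 / 2) ≤ a := by linarith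
  have h5 := mul_le_mul_of_nonneg_left (h1.trans h2) hb.le
  linarith

lemma radii_aux_16 {N a : ℝ} (h1 : a ≤ 8 * N + 7) (ha : 10000 ≤ a) : a ≤ 9 * N := by
  linarith

lemma radii_aux_78 {N κ h y78 y2 : ℝ} (h1 : y78 * y2 ≤ 153 * (N * κ)) (h2 : 153 ≤ y2) (h0 : 0 < y78)
    (hh : 0 ≤ h) : y78 ≤ N * κ + h := by
  nlinarith

lemma radii_aux_pi {π' h κ : ℝ} (hπ : π' < 3.15) (hπ0 : 0 < π') (hκ : 600 ≤ κ) (h1 : 2 * h ≤ κ)
    (h2 : κ ≤ 2 * h + 1) : |π' * ((2 * h - κ) / κ)| ≤ 1 / 10 := by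
  have hκ0 : 0 < κ := by linarith
  rw [abs_mul, abs_of_pos hπ0, abs_div, abs_of_pos hκ0]
  have h3 : |2 * h - κ| ≤ 1 := by
    rw [abs_le]; constructor <;> linarith
  have h4 : |2 * h - κ| / κ ≤ 1 / 600 := by
    rw [div_le_div_iff₀ hκ0 (by norm_num)]
    linarith
  calc π' * (|2 * h - κ| / κ) ≤ 3.15 * (1 / 600) := by
        apply mul_le_mul hπ.le h4 (by positivity) (by norm_num)
    _ ≤ 1 / 10 := by norm_num

/-- elementary facts on the parameters -/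
theorem params (Y : ℕ) (hY : 100 ≤ Y) :
    10 ≤ mm Y ∧ 16 * mm Y ≤ Y ^ 256 ∧ (Y : ℝ) ^ 256 ≤ 17 * mm Y ∧ 1 ≤ ii1 Y ∧
    ii1 Y ≤ ii2 Y ∧ cell (mm Y) (ii2 Y) ≤ 7 / (Y : ℝ) ^ 60 ∧
    6 / (Y : ℝ) ^ 60 ≤ cell (mm Y) (ii2 Y) ∧
    7 / (10 * (Y : ℝ) ^ 176) ≤ cell (mm Y) (ii1 Y) ∧ cell (mm Y) (ii1 Y) ≤ 1 / (Y : ℝ) ^ 176 ∧
    (Y : ℝ) ^ 64 ≤ 17 * kap Y ∧ 16 * (kap Y : ℝ) ≤ (Y : ℝ) ^ 64 ∧
    (Y : ℝ) ^ 78 ≤ ii1 Y ∧
    (∀ i : ℕ, (Y : ℝ) ^ 192 * cell (mm Y) i = cell (kap Y) i) ∧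
    |cell (kap Y) (ii1 Y) - 2 * Real.pi * ((Y ^ 16 / 8 : ℕ) : ℝ) - Real.pi| ≤ 1 / 10 := by
  obtain ⟨hk1, hk2, hk3⟩ := radii_kap_facts Y hY
  have hy : (100 : ℝ) ≤ Y := by exact_mod_cast hY
  have hy0 : (0 : ℝ) < Y := by linarith
  have hY1 : 1 ≤ Y := by omega
  set N : ℕ := Y ^ 16 / 8 with hN
  have hN1 : 8 * N ≤ Y ^ 16 := Nat.mul_div_le _ _
  have hN2 : Y ^ 16 ≤ 8 * N + 7 := by
    have h2 := Nat.div_add_mod (Y ^ 16) 8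
    have h3 := Nat.mod_lt (Y ^ 16) (show 8 > 0 by norm_num)
    omega
  have h16 : 10000 ≤ Y ^ 16 := by
    calc 10000 = 100 ^ 2 := by norm_num
      _ ≤ Y ^ 2 := Nat.pow_le_pow_left hY 2
      _ ≤ Y ^ 16 := Nat.pow_le_pow_right (by omega) (by norm_num)
  have hii1 : ii1 Y = N * kap Y + kap Y / 2 := rfl
  have hii2 := radii_ii2_eq Y hY
  -- real versions
  have kk2 : 16 * (kap Y : ℝ) ≤ (Y : ℝ) ^ 64 := by exact_mod_cast hk2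
  have kk3 : (Y : ℝ) ^ 64 ≤ 17 * (kap Y : ℝ) := by exact_mod_cast hk3
  have kk1 : (600 : ℝ) ≤ (kap Y : ℝ) := by exact_mod_cast hk1
  have kk0 : (0 : ℝ) < (kap Y : ℝ) := by linarith
  have hmmR : ((mm Y : ℕ) : ℝ) = (Y : ℝ) ^ 192 * (kap Y : ℝ) := by
    unfold mm; push_cast; ring
  have hii2R : ((ii2 Y : ℕ) : ℝ) = (Y : ℝ) ^ 132 * (kap Y : ℝ) := by
    rw [hii2]; push_cast; ring
  have hNR1 : 8 * (N : ℝ) ≤ (Y : ℝ) ^ 16 := by exact_mod_cast hN1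
  have hNR2 : (Y : ℝ) ^ 16 ≤ 8 * (N : ℝ) + 7 := by exact_mod_cast hN2
  have h16R : (10000 : ℝ) ≤ (Y : ℝ) ^ 16 := by exact_mod_cast h16
  have hh1 : 2 * ((kap Y / 2 : ℕ) : ℝ) ≤ (kap Y : ℝ) := by
    exact_mod_cast Nat.mul_div_le (kap Y) 2
  have hh2 : (kap Y : ℝ) ≤ 2 * ((kap Y / 2 : ℕ) : ℝ) + 1 := by
    have h2 := Nat.div_add_mod (kap Y) 2
    have h3 := Nat.mod_lt (kap Y) (show 2 > 0 by norm_num)
    have : kap Y ≤ 2 * (kap Y / 2) + 1 := by omega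
    exact_mod_cast this
  have hii1R : ((ii1 Y : ℕ) : ℝ) = (N : ℝ) * (kap Y : ℝ) + ((kap Y / 2 : ℕ) : ℝ) := by
    rw [hii1]; push_cast; ring
  have p192 : (0 : ℝ) < (Y : ℝ) ^ 192 := by positivity
  have p176 : (0 : ℝ) < (Y : ℝ) ^ 176 := by positivity
  have p60 : (0 : ℝ) < (Y : ℝ) ^ 60 := by positivity
  have hmm0 : (0 : ℝ) < ((mm Y : ℕ) : ℝ) := by rw [hmmR]; positivity
  have hpil := radii_pi_lo
  have hpih := radii_pi_hi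
  have cell2 : cell (mm Y) (ii2 Y) = 2 * Real.pi / (Y : ℝ) ^ 60 := by
    unfold cell
    rw [hii2R, hmmR]
    have : (Y : ℝ) ^ 192 = (Y : ℝ) ^ 132 * (Y : ℝ) ^ 60 := by rw [← pow_add]
    rw [this]
    have p132 : (0 : ℝ) < (Y : ℝ) ^ 132 := by positivity
    field_simp
  have cell1 : cell (mm Y) (ii1 Y) =
      2 * Real.pi * ((N : ℝ) + ((kap Y / 2 : ℕ) : ℝ) / (kap Y : ℝ)) / (Y : ℝ) ^ 192 := by
    unfold cell
    rw [hii1R, hmmR]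
    field_simp
  have e192 : (Y : ℝ) ^ 192 = (Y : ℝ) ^ 176 * (Y : ℝ) ^ 16 := by rw [← pow_add]
  have hq1 : ((kap Y / 2 : ℕ) : ℝ) / (kap Y : ℝ) ≤ 1 / 2 := by
    rw [div_le_iff₀ kk0]; linarith
  have hq0 : 0 ≤ ((kap Y / 2 : ℕ) : ℝ) / (kap Y : ℝ) := by positivity
  refine ⟨?_, ?_, ?_, ?_, ?_, ?_, ?_, ?_, ?_, kk3, kk2, ?_, ?_, ?_⟩
  · have : 1 ≤ Y ^ 192 := Nat.one_le_pow _ _ hY1
    unfold mm
    nlinarith
  · unfold mm
    calc 16 * (Y ^ 192 * kap Y) = Y ^ 192 * (16 * kap Y) := by ring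
      _ ≤ Y ^ 192 * Y ^ 64 := Nat.mul_le_mul_left _ hk2
      _ = Y ^ 256 := by rw [← pow_add]
  · rw [hmmR]
    calc (Y : ℝ) ^ 256 = (Y : ℝ) ^ 192 * (Y : ℝ) ^ 64 := by rw [← pow_add]
      _ ≤ (Y : ℝ) ^ 192 * (17 * (kap Y : ℝ)) := by gcongr
      _ = 17 * ((Y : ℝ) ^ 192 * (kap Y : ℝ)) := by ring
  · rw [hii1]
    have : 1 ≤ kap Y / 2 := by omega
    omega
  · rw [hii1, hii2]
    have h1 : N + 1 ≤ Y ^ 132 := by
      calc N + 1 ≤ Y ^ 16 := by omega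
        _ ≤ Y ^ 132 := Nat.pow_le_pow_right hY1 (by norm_num)
    calc N * kap Y + kap Y / 2 ≤ N * kap Y + kap Y := by
          have := Nat.div_le_self (kap Y) 2
          omega
      _ = (N + 1) * kap Y := by ring
      _ ≤ Y ^ 132 * kap Y := Nat.mul_le_mul_right _ h1
  · rw [cell2]
    gcongr
    linarith
  · rw [cell2]
    gcongr
    linarith
  · rw [cell1, e192, div_le_div_iff₀ (by positivity) (by positivity)]
    exact radii_aux_cell_lo hpil hNR2 h16R hq0 p176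
  · rw [cell1, e192, div_le_div_iff₀ (by positivity) (by positivity)]
    exact radii_aux_cell_hi hpih hNR1 (Nat.cast_nonneg _) h16R hq0 hq1 p176
  · rw [hii1R]
    refine radii_aux_78 (y2 := (Y : ℝ) ^ 2) ?_ ?_ (by positivity) (Nat.cast_nonneg _)
    · have h1 : (Y : ℝ) ^ 16 ≤ 9 * (N : ℝ) := radii_aux_16 hNR2 h16R
      calc (Y : ℝ) ^ 78 * (Y : ℝ) ^ 2 = (Y : ℝ) ^ 16 * (Y : ℝ) ^ 64 := by
            rw [← pow_add, ← pow_add]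
        _ ≤ (9 * (N : ℝ)) * (17 * (kap Y : ℝ)) := by gcongr
        _ = 153 * ((N : ℝ) * (kap Y : ℝ)) := by ring
    · calc (153 : ℝ) ≤ 100 ^ 2 := by norm_num
        _ ≤ (Y : ℝ) ^ 2 := by gcongr
  · intro i
    unfold cell
    rw [hmmR]
    field_simp
  · have h1 : cell (kap Y) (ii1 Y) - 2 * Real.pi * (N : ℝ) - Real.pi =
        Real.pi * ((2 * ((kap Y / 2 : ℕ) : ℝ) - (kap Y : ℝ)) / (kap Y : ℝ)) := by
      have e1 : cell (kap Y) (ii1 Y) = 2 * Real.pi * (N : ℝ) +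
          2 * Real.pi * (((kap Y / 2 : ℕ) : ℝ) / (kap Y : ℝ)) := by
        unfold cell
        rw [hii1R, mul_add, add_div, mul_div_assoc, mul_div_assoc, div_self kk0.ne', mul_one,
          mul_div_assoc]
      rw [e1, sub_div, div_self kk0.ne', mul_div_assoc]
      ring
    rw [h1]
    exact radii_aux_pi hpih Real.pi_pos kk1 hh1 hh2


/-! ### Elementary bounds -/

lemma radii_sv_norm_le {n : ℕ} {a : ℕ → ℤ} (ha : IsSign a) (θ : ℝ) : ‖sv n a (θ : ℂ)‖ ≤ n := by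
  unfold sv rv
  refine (norm_sum_le _ _).trans ?_
  have h : ∀ j ∈ range n, ‖((a j : ℝ) : ℂ) * Complex.exp (Complex.I * (j : ℂ) * (θ : ℂ))‖ ≤ 1 := by
    intro j _
    have h1 : ‖((a j : ℝ) : ℂ)‖ = 1 := by
      rcases ha j with h | h <;> rw [h] <;> simp
    have h2 : ‖Complex.exp (Complex.I * (j : ℂ) * (θ : ℂ))‖ = 1 := by
      rw [Complex.norm_exp]; simp
    rw [norm_mul, h1, h2, one_mul]
  refine (Finset.sum_le_sum h).trans ?_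
  simp

lemma radii_sv_period (n : ℕ) (a : ℕ → ℤ) (θ : ℝ) (N : ℕ) :
    sv n a ((θ - 2 * Real.pi * N : ℝ) : ℂ) = sv n a (θ : ℂ) := by
  unfold sv rv
  apply Finset.sum_congr rfl
  intro j _
  congr 1
  have h := Complex.exp_periodic.sub_nat_mul_eq (x := Complex.I * (j : ℂ) * (θ : ℂ)) (j * N)
  rw [← h]
  congr 1
  push_cast
  ring

lemma radii_cell_nonneg (m i : ℕ) : 0 ≤ cell m i := by
  unfold cell
  have := Real.pi_pos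
  positivity

lemma radii_cell_mono (m : ℕ) {i j : ℕ} (h : i ≤ j) : cell m i ≤ cell m j := by
  unfold cell
  have := Real.pi_pos
  have h' : (i : ℝ) ≤ j := by exact_mod_cast h
  gcongr

lemma radii_cell_sub (m i j : ℕ) : cell m j - cell m i = 2 * Real.pi * ((j : ℝ) - i) / m := by
  unfold cell
  ring

lemma radii_flat_up {x y : ℝ} (hy : 1 ≤ y) (h : x ^ 512 ≤ (y ^ 256) ^ 257) : x ≤ y ^ 129 := by
  apply le_of_pow_le_pow_left₀ (n := 512) (by norm_num) (by positivity)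
  refine h.trans ?_
  rw [← pow_mul, ← pow_mul]
  exact pow_le_pow_right₀ hy (by norm_num)

lemma radii_flat_sq {x y : ℝ} (hy : 1 ≤ y) (h : x ^ 512 ≤ (y ^ 256) ^ 257) : x ^ 2 ≤ y ^ 257 := by
  apply le_of_pow_le_pow_left₀ (n := 256) (by norm_num) (by positivity)
  rw [← pow_mul, ← pow_mul]
  refine h.trans ?_
  rw [← pow_mul]

lemma radii_flat_lo {x y : ℝ} (hy : 1 ≤ y) (hx : 0 ≤ x) (h : (y ^ 256) ^ 255 ≤ x ^ 512) :
    y ^ 127 ≤ x := by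
  apply le_of_pow_le_pow_left₀ (n := 512) (by norm_num) hx
  refine le_trans ?_ h
  rw [← pow_mul, ← pow_mul]
  exact pow_le_pow_right₀ hy (by norm_num)

lemma radii_BB_up {L0 C0 : ℝ} {Y : ℕ} {be : ℕ → ℤ} (hY : 1 ≤ Y) (hF : FlatB L0 C0 (Y ^ 256) be)
    (θ : ℝ) : ‖BB Y be (θ : ℂ)‖ ≤ (Y : ℝ) ^ 129 := by
  apply radii_flat_up (by exact_mod_cast hY)
  have := hF.upper θ
  push_cast at this
  exact this

lemma radii_BB_sq {L0 C0 : ℝ} {Y : ℕ} {be : ℕ → ℤ} (hY : 1 ≤ Y) (hF : FlatB L0 C0 (Y ^ 256) be)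
    (θ : ℝ) : ‖BB Y be (θ : ℂ)‖ ^ 2 ≤ (Y : ℝ) ^ 257 := by
  apply radii_flat_sq (by exact_mod_cast hY)
  have := hF.upper θ
  push_cast at this
  exact this

lemma radii_BB_lo {L0 C0 : ℝ} {Y : ℕ} {be : ℕ → ℤ} (hY : 1 ≤ Y) (hF : FlatB L0 C0 (Y ^ 256) be)
    (θ : ℝ) : (Y : ℝ) ^ 127 ≤ ‖BB Y be (θ : ℂ)‖ := by
  apply radii_flat_lo (by exact_mod_cast hY) (norm_nonneg _)
  have := hF.lower θ
  push_cast at this
  exact this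

lemma radii_PP_up {k Y : ℕ} {a : ℕ → ℤ} (ha : IsSign a) (θ : ℝ) :
    ‖PP k Y a (θ : ℂ)‖ ≤ k * (Y : ℝ) ^ 64 := by
  have := radii_sv_norm_le (n := k * Y ^ 64) ha θ
  push_cast at this
  exact this

lemma radii_om_nonneg (Y i : ℕ) : 0 ≤ om Y i := by
  unfold om
  have h1 : (0 : ℝ) ≤ 1 + |(i : ℝ) - (ii1 Y : ℝ)| := by positivity
  have h2 : (0 : ℝ) ≤ 1 + |(ii2 Y : ℝ) - (i : ℝ)| := by positivity
  exact le_min (le_min h1 h2) (Nat.cast_nonneg _)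

lemma radii_gam_nonneg (k Y : ℕ) (a be : ℕ → ℤ) (i : ℕ) : 0 ≤ gam k Y a be i := by
  unfold gam
  have := radii_cell_nonneg (mm Y) i
  positivity

lemma radii_u_nonneg {CR : ℝ} (hCR : 1 ≤ CR) (k Y : ℕ) (a be : ℕ → ℤ) (i : ℕ) :
    0 ≤ CR * om Y i * gam k Y a be i := by
  have h1 := radii_om_nonneg Y i
  have h2 := radii_gam_nonneg k Y a be i
  have h3 : 0 ≤ CR := by linarith
  positivity

/-- bound of the first part of `gam` -/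
lemma radii_G_up {k Y : ℕ} (hY : 100 ≤ Y) {a : ℕ → ℤ} (ha : IsSign a) {i : ℕ} (hi : ii1 Y ≤ i) :
    ‖PP k Y a (cell (kap Y) i : ℂ)‖ / cell (mm Y) i ≤ 10 / 7 * (k * (Y : ℝ) ^ 240) := by
  obtain ⟨-, -, -, -, -, -, -, hc1, -, -⟩ := params Y hY
  have hy : (0 : ℝ) < Y := by
    have : (0 : ℕ) < Y := by omega
    exact_mod_cast this
  have h1 := radii_PP_up (k := k) (Y := Y) ha (cell (kap Y) i)
  have h2 : 7 / (10 * (Y : ℝ) ^ 176) ≤ cell (mm Y) i := hc1.trans (radii_cell_mono _ hi)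
  have h3 : (0 : ℝ) < 7 / (10 * (Y : ℝ) ^ 176) := by positivity
  calc ‖PP k Y a (cell (kap Y) i : ℂ)‖ / cell (mm Y) i
      ≤ (k * (Y : ℝ) ^ 64) / (7 / (10 * (Y : ℝ) ^ 176)) := by
        apply div_le_div₀ (by positivity) h1 h3 h2
    _ = 10 / 7 * (k * (Y : ℝ) ^ 240) := by
        have : (Y : ℝ) ^ 240 = (Y : ℝ) ^ 64 * (Y : ℝ) ^ 176 := by rw [← pow_add]
        rw [this]
        field_simp

/-- uniform bound of the weights -/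
lemma radii_u_up {L0 C0 CR : ℝ} (hCR : 1 ≤ CR) {k Y : ℕ} (hk : 1 ≤ k) (hY : 100 ≤ Y)
    {be a : ℕ → ℤ} (ha : IsSign a) (hF : FlatB L0 C0 (Y ^ 256) be) {i : ℕ} (hi : ii1 Y ≤ i) :
    CR * om Y i * gam k Y a be i ≤ 2 * CR * k * (Y : ℝ) ^ 241 := by
  have hy : (100 : ℝ) ≤ Y := by exact_mod_cast hY
  have hkR : (1 : ℝ) ≤ k := by exact_mod_cast hk
  have h1 := radii_G_up (k := k) hY ha hi
  have h2 := radii_BB_up (by omega : 1 ≤ Y) hF (cell (mm Y) i)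
  have h3 : om Y i ≤ Y := min_le_right _ _
  have h4 : (Y : ℝ) ^ 129 ≤ 1 / 100 * (k * (Y : ℝ) ^ 240) := by
    have e : (Y : ℝ) ^ 240 = (Y : ℝ) ^ 129 * (Y : ℝ) ^ 111 := by rw [← pow_add]
    have h5 : (100 : ℝ) ≤ (Y : ℝ) ^ 111 := hy.trans (le_self_pow₀ (by linarith) (by norm_num))
    have h6 : (0 : ℝ) < (Y : ℝ) ^ 129 := by positivity
    calc (Y : ℝ) ^ 129 = 1 / 100 * (1 * ((Y : ℝ) ^ 129 * 100)) := by ring
      _ ≤ 1 / 100 * (k * ((Y : ℝ) ^ 129 * (Y : ℝ) ^ 111)) := by gcongr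
      _ = 1 / 100 * (k * (Y : ℝ) ^ 240) := by rw [e]
  have h7 : gam k Y a be i ≤ 2 * (k * (Y : ℝ) ^ 240) := by
    have h8 : (0 : ℝ) ≤ k * (Y : ℝ) ^ 240 := by positivity
    unfold gam
    linarith
  have h8 := radii_om_nonneg Y i
  have h9 := radii_gam_nonneg k Y a be i
  calc CR * om Y i * gam k Y a be i ≤ CR * Y * (2 * (k * (Y : ℝ) ^ 240)) := by
        gcongr
    _ = 2 * CR * k * (Y : ℝ) ^ 241 := by ring

lemma radii_aux_sq_sum (x y : ℝ) : (x + y) ^ 2 ≤ 2 * (x ^ 2 + y ^ 2) := by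
  nlinarith [sq_nonneg (x - y)]

lemma radii_sumB {L0 C0 : ℝ} {Y : ℕ} (hY : 100 ≤ Y) {be : ℕ → ℤ} (hF : FlatB L0 C0 (Y ^ 256) be) :
    ∑ i ∈ Icc (ii1 Y) (ii2 Y), ‖BB Y be (cell (mm Y) i : ℂ)‖ ^ 2 ≤
      17 * (mm Y : ℝ) ^ 2 / (Y : ℝ) ^ 59 := by
  obtain ⟨-, -, hmm, hi1, hi12, -⟩ := params Y hY
  have hy : (0 : ℝ) < Y := by
    have : (0 : ℕ) < Y := by omega
    exact_mod_cast this
  have h1 : ∑ i ∈ Icc (ii1 Y) (ii2 Y), ‖BB Y be (cell (mm Y) i : ℂ)‖ ^ 2 ≤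
      ∑ i ∈ Icc (ii1 Y) (ii2 Y), (Y : ℝ) ^ 257 :=
    Finset.sum_le_sum fun i _ => radii_BB_sq (by omega) hF _
  rw [Finset.sum_const, Nat.card_Icc, nsmul_eq_mul] at h1
  have h2 : ((ii2 Y + 1 - ii1 Y : ℕ) : ℝ) ≤ (ii2 Y : ℝ) := by
    have : ii2 Y + 1 - ii1 Y ≤ ii2 Y := by omega
    exact_mod_cast this
  have h3 : (ii2 Y : ℝ) * (Y : ℝ) ^ 60 = (mm Y : ℝ) := by
    rw [radii_ii2_eq Y hY]
    unfold mm
    push_cast
    ring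
  have h4 : (0 : ℝ) < (Y : ℝ) ^ 59 := by positivity
  rw [le_div_iff₀ h4]
  have hmm0 : (0 : ℝ) ≤ (mm Y : ℝ) := Nat.cast_nonneg _
  calc (∑ i ∈ Icc (ii1 Y) (ii2 Y), ‖BB Y be (cell (mm Y) i : ℂ)‖ ^ 2) * (Y : ℝ) ^ 59
      ≤ ((ii2 Y : ℝ) * (Y : ℝ) ^ 257) * (Y : ℝ) ^ 59 := by
        gcongr
        refine h1.trans ?_
        gcongr
    _ = ((ii2 Y : ℝ) * (Y : ℝ) ^ 60) * (Y : ℝ) ^ 256 := by ring
    _ = (mm Y : ℝ) * (Y : ℝ) ^ 256 := by rw [h3]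
    _ ≤ (mm Y : ℝ) * (17 * (mm Y : ℝ)) := by gcongr
    _ = 17 * (mm Y : ℝ) ^ 2 := by ring

lemma radii_sum_u {L0 C0 CR : ℝ} (hCR : 1 ≤ CR) {k Y : ℕ} (hk : 1 ≤ k) (hY : 100 ≤ Y)
    {be a : ℕ → ℤ} (ha : IsSign a) (hF : FlatB L0 C0 (Y ^ 256) be) :
    ∑ i ∈ Icc (ii1 Y) (ii2 Y), (CR * om Y i * gam k Y a be i) ^ 2 ≤
      2 * CR ^ 2 * (Y : ℝ) ^ 2 * (10 ^ 4 * (k : ℝ) ^ 2 * (mm Y : ℝ) ^ 2 / (Y : ℝ) ^ 16 +
        17 * (mm Y : ℝ) ^ 2 / (Y : ℝ) ^ 59) := by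
  have hE := energy Y k hY hk a ha (ii2 Y)
  have hB := radii_sumB hY hF
  have h1 : ∀ i ∈ Icc (ii1 Y) (ii2 Y), (CR * om Y i * gam k Y a be i) ^ 2 ≤
      2 * CR ^ 2 * (Y : ℝ) ^ 2 * ((‖sv (k * Y ^ 64) a (cell (kap Y) i : ℂ)‖ /
        cell (mm Y) i) ^ 2 + ‖BB Y be (cell (mm Y) i : ℂ)‖ ^ 2) := by
    intro i _
    have h3 : om Y i ≤ Y := min_le_right _ _
    have h4 := radii_om_nonneg Y i
    have h5 : gam k Y a be i ^ 2 ≤ 2 * ((‖sv (k * Y ^ 64) a (cell (kap Y) i : ℂ)‖ /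
        cell (mm Y) i) ^ 2 + ‖BB Y be (cell (mm Y) i : ℂ)‖ ^ 2) := radii_aux_sq_sum _ _
    calc (CR * om Y i * gam k Y a be i) ^ 2 = CR ^ 2 * om Y i ^ 2 * gam k Y a be i ^ 2 := by
          ring
      _ ≤ CR ^ 2 * (Y : ℝ) ^ 2 * (2 * ((‖sv (k * Y ^ 64) a (cell (kap Y) i : ℂ)‖ /
        cell (mm Y) i) ^ 2 + ‖BB Y be (cell (mm Y) i : ℂ)‖ ^ 2)) := by gcongr
      _ = _ := by ring
  refine (Finset.sum_le_sum h1).trans ?_
  rw [← Finset.mul_sum, Finset.sum_add_distrib]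
  have hc : 0 ≤ 2 * CR ^ 2 * (Y : ℝ) ^ 2 := by positivity
  exact mul_le_mul_of_nonneg_left (add_le_add hE hB) hc


/-! ### The left end -/

lemma radii_PP_poly {La L1 C1 : ℝ} {k Y : ℕ} {a : ℕ → ℤ} (hG : Good La L1 C1 k Y a) (N : ℕ)
    {x x' : ℝ} (h1 : |x - 2 * Real.pi * N - Real.pi| ≤ 1)
    (h2 : |x' - 2 * Real.pi * N - Real.pi| ≤ 1) :
    ‖PP k Y a (x' : ℂ)‖ ≤ C1 * (1 + (Y : ℝ) ^ 64 * |x' - x|) * ‖PP k Y a (x : ℂ)‖ := by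
  have h := hG.poly (x - 2 * Real.pi * N) (x' - 2 * Real.pi * N) h1 h2
  rw [radii_sv_period, radii_sv_period] at h
  have e : x - 2 * Real.pi * N - (x' - 2 * Real.pi * N) = x - x' := by ring
  rw [e, abs_sub_comm] at h
  exact h

lemma radii_G_lo {La L1 C1 : ℝ} {k Y : ℕ} (hY : 100 ≤ Y) {a : ℕ → ℤ} (hG : Good La L1 C1 k Y a) :
    (Y : ℝ) ^ 206 ≤ ‖PP k Y a (cell (kap Y) (ii1 Y) : ℂ)‖ / cell (mm Y) (ii1 Y) := by
  obtain ⟨-, -, -, -, -, -, -, hc1, hc2, -⟩ := params Y hY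
  have hy : (0 : ℝ) < Y := by
    have : (0 : ℕ) < Y := by omega
    exact_mod_cast this
  have hc0 : 0 < cell (mm Y) (ii1 Y) := lt_of_lt_of_le (by positivity) hc1
  have h1 : (Y : ℝ) ^ 30 ≤ ‖PP k Y a (cell (kap Y) (ii1 Y) : ℂ)‖ := hG.lower _
  rw [le_div_iff₀ hc0]
  calc (Y : ℝ) ^ 206 * cell (mm Y) (ii1 Y) ≤ (Y : ℝ) ^ 206 * (1 / (Y : ℝ) ^ 176) := by gcongr
    _ = (Y : ℝ) ^ 30 := by
      have : (Y : ℝ) ^ 206 = (Y : ℝ) ^ 30 * (Y : ℝ) ^ 176 := by rw [← pow_add]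
      rw [this]
      field_simp
    _ ≤ _ := h1

lemma radii_aux_left {d C0 CR G B P om' : ℝ} (hd : 0 ≤ d) (hC0 : 1 ≤ C0) (hCR : 1 ≤ CR) (hG : 0 ≤ G)
    (hom : om' ≤ 1 + d) (_hom0 : 0 ≤ om') (hP : P ≤ 432 * C0 * (1 + d) * G)
    (hB : B ≤ G) (hg : 0 ≤ P + B) :
    CR * om' * (P + B) ≤ 433 * C0 * CR * G * (1 + d) ^ 2 := by
  have h1 : P + B ≤ 433 * C0 * (1 + d) * G := by
    have : G ≤ C0 * (1 + d) * G := by
      have : 1 ≤ C0 * (1 + d) := by nlinarith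
      nlinarith
    linarith
  calc CR * om' * (P + B) ≤ CR * (1 + d) * (433 * C0 * (1 + d) * G) := by
        gcongr
    _ = 433 * C0 * CR * G * (1 + d) ^ 2 := by ring

lemma radii_left_u {L0 C0 CR La L1 : ℝ} (hC0 : 1 ≤ C0) (hCR : 1 ≤ CR) {k Y : ℕ}
    (hY : 100 ≤ Y) {be a : ℕ → ℤ} (hF : FlatB L0 C0 (Y ^ 256) be)
    (hG : Good La L1 (4 * C0) k Y a) {j : ℕ} (hj : j ∈ Icc (ii1 Y) (ii2 Y))
    (hj2 : j ≤ ii1 Y + kap Y / 8) :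
    CR * om Y j * gam k Y a be j ≤
      433 * C0 * CR * (‖PP k Y a (cell (kap Y) (ii1 Y) : ℂ)‖ / cell (mm Y) (ii1 Y)) *
        (1 + ((j : ℝ) - (ii1 Y : ℝ))) ^ 2 := by
  obtain ⟨-, -, -, -, -, -, -, hc1, hc2, hk3, hk2, -, -, hpi⟩ := params Y hY
  obtain ⟨hkap, -, -⟩ := radii_kap_facts Y hY
  have hj1 := (Finset.mem_Icc.1 hj).1
  have hy : (0 : ℝ) < Y := by
    have : (0 : ℕ) < Y := by omega
    exact_mod_cast this
  have hy1 : (1 : ℝ) ≤ Y := by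
    have : (1 : ℕ) ≤ Y := by omega
    exact_mod_cast this
  have hc0 : 0 < cell (mm Y) (ii1 Y) := lt_of_lt_of_le (by positivity) hc1
  have hkapR : (0 : ℝ) < (kap Y : ℝ) := by
    have : 0 < kap Y := by omega
    exact_mod_cast this
  set d : ℝ := (j : ℝ) - (ii1 Y : ℝ) with hd
  have hd0 : 0 ≤ d := by
    have : (ii1 Y : ℝ) ≤ j := by exact_mod_cast hj1
    linarith
  have hd8 : d ≤ (kap Y : ℝ) / 8 := by
    have h1 : (j : ℝ) ≤ (ii1 Y : ℝ) + ((kap Y / 8 : ℕ) : ℝ) := by exact_mod_cast hj2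
    have h2 : ((kap Y / 8 : ℕ) : ℝ) ≤ (kap Y : ℝ) / 8 := Nat.cast_div_le
    linarith
  have hcs : cell (kap Y) j - cell (kap Y) (ii1 Y) = 2 * Real.pi * d / (kap Y : ℝ) :=
    radii_cell_sub _ _ _
  have hcs0 : 0 ≤ 2 * Real.pi * d / (kap Y : ℝ) := by
    have := Real.pi_pos
    positivity
  have hpih := radii_pi_hi
  have hpi0 := Real.pi_pos
  have hcs1 : 2 * Real.pi * d / (kap Y : ℝ) ≤ 0.8 := by
    rw [div_le_iff₀ hkapR]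
    have : 2 * Real.pi * d ≤ 6.3 * ((kap Y : ℝ) / 8) := by
      apply mul_le_mul (by linarith) hd8 hd0 (by norm_num)
    linarith
  have hcs2 : (Y : ℝ) ^ 64 * (2 * Real.pi * d / (kap Y : ℝ)) ≤ 108 * d := by
    rw [mul_div_assoc', div_le_iff₀ hkapR]
    calc (Y : ℝ) ^ 64 * (2 * Real.pi * d) ≤ (17 * (kap Y : ℝ)) * (6.3 * d) := by
          apply mul_le_mul hk3 _ (by positivity) (by positivity)
          apply mul_le_mul_of_nonneg_right (by linarith) hd0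
      _ ≤ 108 * d * (kap Y : ℝ) := by
          have : 0 ≤ d * (kap Y : ℝ) := by positivity
          linarith
  have hp1 : |cell (kap Y) (ii1 Y) - 2 * Real.pi * ((Y ^ 16 / 8 : ℕ) : ℝ) - Real.pi| ≤ 1 := by
    linarith
  have hp2 : |cell (kap Y) j - 2 * Real.pi * ((Y ^ 16 / 8 : ℕ) : ℝ) - Real.pi| ≤ 1 := by
    have e : cell (kap Y) j - 2 * Real.pi * ((Y ^ 16 / 8 : ℕ) : ℝ) - Real.pi =
        (cell (kap Y) (ii1 Y) - 2 * Real.pi * ((Y ^ 16 / 8 : ℕ) : ℝ) - Real.pi) +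
          (cell (kap Y) j - cell (kap Y) (ii1 Y)) := by ring
    rw [e, hcs]
    refine (abs_add_le _ _).trans ?_
    rw [abs_of_nonneg hcs0]
    linarith
  have hP := radii_PP_poly hG (Y ^ 16 / 8) hp1 hp2
  rw [hcs, abs_of_nonneg hcs0] at hP
  set P1 := ‖PP k Y a (cell (kap Y) (ii1 Y) : ℂ)‖ with hP1
  have hP10 : 0 ≤ P1 := norm_nonneg _
  set G := P1 / cell (mm Y) (ii1 Y) with hGdef
  have hG0 : 0 ≤ G := by positivity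
  have hcj : cell (mm Y) (ii1 Y) ≤ cell (mm Y) j := radii_cell_mono _ hj1
  have hGj : ‖PP k Y a (cell (kap Y) j : ℂ)‖ / cell (mm Y) j ≤ 432 * C0 * (1 + d) * G := by
    have h1 : ‖PP k Y a (cell (kap Y) j : ℂ)‖ ≤ 432 * C0 * (1 + d) * P1 := by
      refine hP.trans ?_
      apply mul_le_mul_of_nonneg_right _ hP10
      have h2 : 1 + (Y : ℝ) ^ 64 * (2 * Real.pi * d / (kap Y : ℝ)) ≤ 108 * (1 + d) := by
        linarith
      calc 4 * C0 * (1 + (Y : ℝ) ^ 64 * (2 * Real.pi * d / (kap Y : ℝ))) ≤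
            4 * C0 * (108 * (1 + d)) := by gcongr
        _ = 432 * C0 * (1 + d) := by ring
    calc ‖PP k Y a (cell (kap Y) j : ℂ)‖ / cell (mm Y) j ≤
          (432 * C0 * (1 + d) * P1) / cell (mm Y) (ii1 Y) := by
          apply div_le_div₀ (by positivity) h1 hc0 hcj
      _ = 432 * C0 * (1 + d) * G := by rw [hGdef]; ring
  have hBj : ‖BB Y be (cell (mm Y) j : ℂ)‖ ≤ G := by
    refine (radii_BB_up (by omega) hF _).trans (le_trans ?_ (radii_G_lo hY hG))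
    exact pow_le_pow_right₀ hy1 (by norm_num)
  have hom : om Y j ≤ 1 + d := by
    refine (min_le_left _ _).trans ((min_le_left _ _).trans ?_)
    rw [abs_of_nonneg hd0]
  exact radii_aux_left hd0 hC0 hCR hG0 hom (radii_om_nonneg _ _) hGj hBj (radii_gam_nonneg k Y a be j)

lemma radii_left_end {L0 C0 CR La L1 : ℝ} (hC0 : 1 ≤ C0) (hCR : 1 ≤ CR) {k Y : ℕ} (hk : 1 ≤ k)
    (hY : 100 ≤ Y) (hkY : k ≤ Y) {be a : ℕ → ℤ} (hF : FlatB L0 C0 (Y ^ 256) be)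
    (hG : Good La L1 (4 * C0) k Y a) :
    RR CR k Y a be (ii1 Y) ≤ (2 * 433 + 1) * C0 * CR *
      (‖PP k Y a (cell (kap Y) (ii1 Y) : ℂ)‖ / cell (mm Y) (ii1 Y)) := by
  obtain ⟨-, -, -, -, hi12, -, -, hc1, -, hk3, hk2, -, -, hpi⟩ := params Y hY
  obtain ⟨hkap, -, hk3n⟩ := radii_kap_facts Y hY
  have hy100 : (100 : ℝ) ≤ Y := by exact_mod_cast hY
  have hy : (0 : ℝ) < Y := by linarith
  have hkR : (1 : ℝ) ≤ k := by exact_mod_cast hk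
  have hkYR : (k : ℝ) ≤ Y := by exact_mod_cast hkY
  set G := ‖PP k Y a (cell (kap Y) (ii1 Y) : ℂ)‖ / cell (mm Y) (ii1 Y) with hGdef
  have hG0 : 0 ≤ G := by
    have := radii_cell_nonneg (mm Y) (ii1 Y)
    positivity
  have hGlo : (Y : ℝ) ^ 206 ≤ G := radii_G_lo hY hG
  have hD1 : 1 ≤ kap Y / 8 := by omega
  have hDR : (Y : ℝ) ^ 64 / 200 ≤ ((kap Y / 8 : ℕ) : ℝ) := by
    have h1 : kap Y ≤ 8 * (kap Y / 8) + 7 := by omega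
    have h2 : (kap Y : ℝ) ≤ 8 * ((kap Y / 8 : ℕ) : ℝ) + 7 := by exact_mod_cast h1
    have h3 : (600 : ℝ) ≤ (kap Y : ℝ) := by exact_mod_cast hkap
    rw [div_le_iff₀ (by norm_num)]
    linarith
  have hD0 : (0 : ℝ) < ((kap Y / 8 : ℕ) : ℝ) := by
    have : (0 : ℕ) < kap Y / 8 := by omega
    exact_mod_cast this
  have hmain := rad_left (ii1 Y) (ii2 Y) (kap Y / 8) hD1 hi12
    (fun j => CR * om Y j * gam k Y a be j) (fun j => radii_u_nonneg hCR k Y a be j)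
    (433 * C0 * CR * G) (2 * CR * k * (Y : ℝ) ^ 241) (by positivity) (by positivity)
    (fun j hj hj2 => radii_left_u hC0 hCR hY hF hG hj hj2)
    (fun j hj => radii_u_up hCR hk hY hG.sign hF (Finset.mem_Icc.1 hj).1)
  have hUD : 2 * CR * k * (Y : ℝ) ^ 241 / ((kap Y / 8 : ℕ) : ℝ) ^ 3 ≤ CR * G := by
    rw [div_le_iff₀ (by positivity)]
    have h1 : ((Y : ℝ) ^ 64 / 200) ^ 3 ≤ ((kap Y / 8 : ℕ) : ℝ) ^ 3 := by gcongr
    have h2 : 2 * CR * k * (Y : ℝ) ^ 241 ≤ CR * (Y : ℝ) ^ 206 * ((Y : ℝ) ^ 64 / 200) ^ 3 := by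
      have e1 : (Y : ℝ) ^ 206 * ((Y : ℝ) ^ 64 / 200) ^ 3 =
          (Y : ℝ) ^ 241 * ((Y : ℝ) ^ 157 / 8000000) := by
        rw [div_pow, ← pow_mul]
        ring
      have e2 : 2 * (k : ℝ) ≤ (Y : ℝ) ^ 157 / 8000000 := by
        rw [le_div_iff₀ (by norm_num)]
        calc 2 * (k : ℝ) * 8000000 ≤ 2 * (Y : ℝ) * 8000000 := by gcongr
          _ = (Y : ℝ) * 16000000 := by ring
          _ ≤ (Y : ℝ) * 100 ^ 4 := by gcongr; norm_num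
          _ ≤ (Y : ℝ) * (Y : ℝ) ^ 4 := by gcongr
          _ = (Y : ℝ) ^ 5 := by ring
          _ ≤ (Y : ℝ) ^ 157 := pow_le_pow_right₀ (by linarith) (by norm_num)
      calc 2 * CR * k * (Y : ℝ) ^ 241 = CR * ((Y : ℝ) ^ 241 * (2 * (k : ℝ))) := by ring
        _ ≤ CR * ((Y : ℝ) ^ 241 * ((Y : ℝ) ^ 157 / 8000000)) := by gcongr
        _ = CR * ((Y : ℝ) ^ 206 * ((Y : ℝ) ^ 64 / 200) ^ 3) := by rw [e1]
        _ = _ := by ring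
    calc 2 * CR * k * (Y : ℝ) ^ 241 ≤ CR * (Y : ℝ) ^ 206 * ((Y : ℝ) ^ 64 / 200) ^ 3 := h2
      _ ≤ CR * G * ((kap Y / 8 : ℕ) : ℝ) ^ 3 := by gcongr
  refine hmain.trans ?_
  have h1 : CR * G ≤ C0 * (CR * G) := by
    have : 0 ≤ CR * G := by positivity
    nlinarith
  calc 2 * (433 * C0 * CR * G) + 2 * CR * k * (Y : ℝ) ^ 241 / ((kap Y / 8 : ℕ) : ℝ) ^ 3 ≤
        2 * (433 * C0 * CR * G) + C0 * (CR * G) := by linarith
    _ = (2 * 433 + 1) * C0 * CR * G := by ring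

/-! ### The right end -/

lemma radii_aux_right {d C0 CR B1 B P om' : ℝ} (hd : 0 ≤ d) (hC0 : 1 ≤ C0) (hCR : 1 ≤ CR)
    (hB1 : 0 ≤ B1) (hom : om' ≤ 1 + d) (_hom0 : 0 ≤ om') (hP : P ≤ B1)
    (hB : B ≤ 108 * C0 * (1 + d) * B1) (hg : 0 ≤ P + B) :
    CR * om' * (P + B) ≤ 109 * C0 * CR * B1 * (1 + d) ^ 2 := by
  have h1 : P + B ≤ 109 * C0 * (1 + d) * B1 := by
    have : B1 ≤ C0 * (1 + d) * B1 := by
      have : 1 ≤ C0 * (1 + d) := by nlinarith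
      nlinarith
    linarith
  calc CR * om' * (P + B) ≤ CR * (1 + d) * (109 * C0 * (1 + d) * B1) := by
        gcongr
    _ = 109 * C0 * CR * B1 * (1 + d) ^ 2 := by ring

lemma radii_right_u {L0 C0 CR : ℝ} (hC0 : 1 ≤ C0) (hCR : 1 ≤ CR) {k Y : ℕ}
    (hY : 100 ≤ Y) (hkY : k ≤ Y) {be a : ℕ → ℤ} (ha : IsSign a)
    (hF : FlatB L0 C0 (Y ^ 256) be) {j : ℕ} (hj : j ∈ Icc (ii1 Y) (ii2 Y))
    (hj2 : ii2 Y ≤ j + ii2 Y / 2) :
    CR * om Y j * gam k Y a be j ≤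
      109 * C0 * CR * ‖BB Y be (cell (mm Y) (ii2 Y) : ℂ)‖ *
        (1 + ((ii2 Y : ℝ) - (j : ℝ))) ^ 2 := by
  obtain ⟨hmm10, -, hmm, -, -, -, hc6, -, -⟩ := params Y hY
  have hj1 := (Finset.mem_Icc.1 hj).2
  have hy100 : (100 : ℝ) ≤ Y := by exact_mod_cast hY
  have hy : (0 : ℝ) < Y := by linarith
  have hkYR : (k : ℝ) ≤ Y := by exact_mod_cast hkY
  have hmmR : (0 : ℝ) < (mm Y : ℝ) := by
    have : 0 < mm Y := by omega
    exact_mod_cast this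
  set d : ℝ := (ii2 Y : ℝ) - (j : ℝ) with hd
  have hd0 : 0 ≤ d := by
    have : (j : ℝ) ≤ ii2 Y := by exact_mod_cast hj1
    linarith
  have hj3 : (ii2 Y : ℝ) ≤ 2 * (j : ℝ) := by
    have : ii2 Y ≤ 2 * j := by omega
    exact_mod_cast this
  have hpi0 := Real.pi_pos
  have hpih := radii_pi_hi
  have hcj : 3 / (Y : ℝ) ^ 60 ≤ cell (mm Y) j := by
    have h1 : cell (mm Y) (ii2 Y) ≤ 2 * cell (mm Y) j := by
      unfold cell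
      rw [mul_div_assoc', div_le_div_iff_of_pos_right hmmR]
      nlinarith
    have h2 : 6 / (Y : ℝ) ^ 60 = 2 * (3 / (Y : ℝ) ^ 60) := by ring
    linarith
  set B1 := ‖BB Y be (cell (mm Y) (ii2 Y) : ℂ)‖ with hB1
  have hB10 : 0 ≤ B1 := norm_nonneg _
  have hB1lo : (Y : ℝ) ^ 127 ≤ B1 := radii_BB_lo (by omega) hF _
  have hP : ‖PP k Y a (cell (kap Y) j : ℂ)‖ / cell (mm Y) j ≤ B1 := by
    refine le_trans ?_ hB1lo
    have h1 := radii_PP_up (k := k) (Y := Y) ha (cell (kap Y) j)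
    have h3 : (0 : ℝ) < 3 / (Y : ℝ) ^ 60 := by positivity
    calc ‖PP k Y a (cell (kap Y) j : ℂ)‖ / cell (mm Y) j
        ≤ (k * (Y : ℝ) ^ 64) / (3 / (Y : ℝ) ^ 60) := by
          apply div_le_div₀ (by positivity) h1 h3 hcj
      _ = 1 / 3 * (k * (Y : ℝ) ^ 124) := by
          have : (Y : ℝ) ^ 124 = (Y : ℝ) ^ 64 * (Y : ℝ) ^ 60 := by rw [← pow_add]
          rw [this]
          field_simp
      _ ≤ 1 * ((Y : ℝ) * (Y : ℝ) ^ 124) :=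
          mul_le_mul (by norm_num) (mul_le_mul_of_nonneg_right hkYR (pow_nonneg hy.le _))
            (mul_nonneg (Nat.cast_nonneg _) (pow_nonneg hy.le _)) (by norm_num)
      _ = (Y : ℝ) ^ 125 := by ring
      _ ≤ (Y : ℝ) ^ 127 := pow_le_pow_right₀ (by linarith) (by norm_num)
  have hB : ‖BB Y be (cell (mm Y) j : ℂ)‖ ≤ 108 * C0 * (1 + d) * B1 := by
    have h1 := hF.poly (cell (mm Y) (ii2 Y)) (cell (mm Y) j)
    have h2 : cell (mm Y) (ii2 Y) - cell (mm Y) j = 2 * Real.pi * d / (mm Y : ℝ) :=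
      radii_cell_sub _ _ _
    have h30 : 0 ≤ 2 * Real.pi * d / (mm Y : ℝ) := by positivity
    rw [h2, abs_of_nonneg h30] at h1
    have h4 : ((Y ^ 256 : ℕ) : ℝ) * (2 * Real.pi * d / (mm Y : ℝ)) ≤ 108 * d := by
      rw [mul_div_assoc', div_le_iff₀ hmmR]
      push_cast
      calc (Y : ℝ) ^ 256 * (2 * Real.pi * d) ≤ (17 * (mm Y : ℝ)) * (6.3 * d) := by
            apply mul_le_mul hmm _ (by positivity) (by positivity)
            apply mul_le_mul_of_nonneg_right (by linarith) hd0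
        _ ≤ 108 * d * (mm Y : ℝ) := by
            have : 0 ≤ d * (mm Y : ℝ) := by positivity
            linarith
    refine h1.trans ?_
    apply mul_le_mul_of_nonneg_right _ hB10
    have h5 : 1 + ((Y ^ 256 : ℕ) : ℝ) * (2 * Real.pi * d / (mm Y : ℝ)) ≤ 108 * (1 + d) := by
      linarith
    calc C0 * (1 + ((Y ^ 256 : ℕ) : ℝ) * (2 * Real.pi * d / (mm Y : ℝ))) ≤
          C0 * (108 * (1 + d)) := by gcongr
      _ = 108 * C0 * (1 + d) := by ring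
  have hom : om Y j ≤ 1 + d := by
    refine (min_le_left _ _).trans ((min_le_right _ _).trans ?_)
    rw [abs_of_nonneg hd0]
  exact radii_aux_right hd0 hC0 hCR hB10 hom (radii_om_nonneg _ _) hP hB (radii_gam_nonneg k Y a be j)

lemma radii_right_end {L0 C0 CR : ℝ} (hC0 : 1 ≤ C0) (hCR : 1 ≤ CR) {k Y : ℕ} (hk : 1 ≤ k)
    (hY : 100 ≤ Y) (hkY : k ≤ Y) {be a : ℕ → ℤ} (ha : IsSign a)
    (hF : FlatB L0 C0 (Y ^ 256) be) :
    RR CR k Y a be (ii2 Y) ≤ (2 * 109 + 1) * C0 * CR *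
      ‖BB Y be (cell (mm Y) (ii2 Y) : ℂ)‖ := by
  obtain ⟨-, -, -, hi1, hi12, -, -, -, -, hk3, -⟩ := params Y hY
  have hy100 : (100 : ℝ) ≤ Y := by exact_mod_cast hY
  have hy : (0 : ℝ) < Y := by linarith
  have hkR : (1 : ℝ) ≤ k := by exact_mod_cast hk
  have hkYR : (k : ℝ) ≤ Y := by exact_mod_cast hkY
  set B1 := ‖BB Y be (cell (mm Y) (ii2 Y) : ℂ)‖ with hB1
  have hB10 : 0 ≤ B1 := norm_nonneg _
  have hB1lo : (Y : ℝ) ^ 127 ≤ B1 := radii_BB_lo (by omega) hF _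
  have hii2big : (Y : ℝ) ^ 196 / 17 ≤ (ii2 Y : ℝ) := by
    rw [radii_ii2_eq Y hY, div_le_iff₀ (by norm_num)]
    push_cast
    calc (Y : ℝ) ^ 196 = (Y : ℝ) ^ 132 * (Y : ℝ) ^ 64 := by rw [← pow_add]
      _ ≤ (Y : ℝ) ^ 132 * (17 * (kap Y : ℝ)) := by gcongr
      _ = (Y : ℝ) ^ 132 * (kap Y : ℝ) * 17 := by ring
  have hbig : (1000 : ℝ) ≤ (ii2 Y : ℝ) := by
    refine le_trans ?_ hii2big
    rw [le_div_iff₀ (by norm_num)]
    calc (1000 : ℝ) * 17 ≤ 100 ^ 3 := by norm_num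
      _ ≤ (Y : ℝ) ^ 3 := by gcongr
      _ ≤ (Y : ℝ) ^ 196 := pow_le_pow_right₀ (by linarith) (by norm_num)
  have hbign : 1000 ≤ ii2 Y := by exact_mod_cast hbig
  have hD1 : 1 ≤ ii2 Y / 2 := by omega
  have hDR : (Y : ℝ) ^ 196 / 51 ≤ ((ii2 Y / 2 : ℕ) : ℝ) := by
    have h1 : ii2 Y ≤ 3 * (ii2 Y / 2) := by omega
    have h2 : (ii2 Y : ℝ) ≤ 3 * ((ii2 Y / 2 : ℕ) : ℝ) := by exact_mod_cast h1
    linarith
  have hD0 : (0 : ℝ) < ((ii2 Y / 2 : ℕ) : ℝ) := by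
    have : (0 : ℕ) < ii2 Y / 2 := by omega
    exact_mod_cast this
  have hmain := rad_right (ii1 Y) (ii2 Y) (ii2 Y / 2) hD1 hi12
    (fun j => CR * om Y j * gam k Y a be j) (fun j => radii_u_nonneg hCR k Y a be j)
    (109 * C0 * CR * B1) (2 * CR * k * (Y : ℝ) ^ 241) (by positivity) (by positivity)
    (fun j hj hj2 => radii_right_u hC0 hCR hY hkY ha hF hj hj2)
    (fun j hj => radii_u_up hCR hk hY ha hF (Finset.mem_Icc.1 hj).1)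
  have hUD : 2 * CR * k * (Y : ℝ) ^ 241 / ((ii2 Y / 2 : ℕ) : ℝ) ^ 3 ≤ CR * B1 := by
    rw [div_le_iff₀ (by positivity)]
    have h2 : 2 * CR * k * (Y : ℝ) ^ 241 ≤ CR * (Y : ℝ) ^ 127 * ((Y : ℝ) ^ 196 / 51) ^ 3 := by
      have e1 : (Y : ℝ) ^ 127 * ((Y : ℝ) ^ 196 / 51) ^ 3 =
          (Y : ℝ) ^ 241 * ((Y : ℝ) ^ 474 / 132651) := by
        rw [div_pow, ← pow_mul]
        ring
      have e2 : 2 * (k : ℝ) ≤ (Y : ℝ) ^ 474 / 132651 := by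
        rw [le_div_iff₀ (by norm_num)]
        calc 2 * (k : ℝ) * 132651 ≤ 2 * (Y : ℝ) * 132651 := by gcongr
          _ = (Y : ℝ) * 265302 := by ring
          _ ≤ (Y : ℝ) * 100 ^ 4 := by gcongr; norm_num
          _ ≤ (Y : ℝ) * (Y : ℝ) ^ 4 := by gcongr
          _ = (Y : ℝ) ^ 5 := by ring
          _ ≤ (Y : ℝ) ^ 474 := pow_le_pow_right₀ (by linarith) (by norm_num)
      calc 2 * CR * k * (Y : ℝ) ^ 241 = CR * ((Y : ℝ) ^ 241 * (2 * (k : ℝ))) := by ring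
        _ ≤ CR * ((Y : ℝ) ^ 241 * ((Y : ℝ) ^ 474 / 132651)) := by gcongr
        _ = CR * ((Y : ℝ) ^ 127 * ((Y : ℝ) ^ 196 / 51) ^ 3) := by rw [e1]
        _ = _ := by ring
    calc 2 * CR * k * (Y : ℝ) ^ 241 ≤ CR * (Y : ℝ) ^ 127 * ((Y : ℝ) ^ 196 / 51) ^ 3 := h2
      _ ≤ CR * B1 * ((ii2 Y / 2 : ℕ) : ℝ) ^ 3 := by gcongr
  refine hmain.trans ?_
  have h1 : CR * B1 ≤ C0 * (CR * B1) := by
    have : 0 ≤ CR * B1 := by positivity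
    nlinarith
  calc 2 * (109 * C0 * CR * B1) + 2 * CR * k * (Y : ℝ) ^ 241 / ((ii2 Y / 2 : ℕ) : ℝ) ^ 3 ≤
        2 * (109 * C0 * CR * B1) + C0 * (CR * B1) := by linarith
    _ = (2 * 109 + 1) * C0 * CR * B1 := by ring

/-! ### The theorem -/

lemma radii_aux_k {CR k y : ℝ} (hCR : 1 ≤ CR) (hk : 1 ≤ k) (hy : 10 ^ 6 * CR ^ 2 * k ^ 2 ≤ y) :
    k ≤ y ∧ 68 * CR * k ≤ y ∧ 8 * CR ^ 2 * (10 ^ 4 * k ^ 2 + 17) ≤ y := by
  have h1 : 1 ≤ CR ^ 2 := one_le_pow₀ hCR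
  have h2 : k ≤ k ^ 2 := by nlinarith
  have h3 : CR ≤ CR ^ 2 := by nlinarith
  have h4 : 1 ≤ k ^ 2 := one_le_pow₀ hk
  have h5 : k ^ 2 ≤ CR ^ 2 * k ^ 2 := by nlinarith
  have h6 : CR * k ≤ CR ^ 2 * k ^ 2 :=
    mul_le_mul h3 h2 (by linarith) (by positivity)
  have h7 : CR ^ 2 ≤ CR ^ 2 * k ^ 2 := by nlinarith
  refine ⟨by linarith, by linarith, by linarith⟩

theorem radii_props (L0 C0 : ℝ) (hL0 : 1 ≤ L0) (hC0 : 1 ≤ C0) : ∃ C3 : ℝ, 1 ≤ C3 ∧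
    ∀ (CR : ℝ) (k : ℕ), 1 ≤ CR → 1 ≤ k → ∃ Y0 : ℕ, ∀ Y : ℕ, Y0 ≤ Y → ∀ (be a : ℕ → ℤ) (La : ℝ),
    FlatB L0 C0 (Y ^ 256) be → Good La (4 * L0) (4 * C0) k Y a →
    (∀ i, 0 ≤ RR CR k Y a be i) ∧
    (∀ i j : ℕ, RR CR k Y a be i ≤ (1 + |(i : ℝ) - (j : ℝ)|) ^ 4 * RR CR k Y a be j) ∧
    (∀ i ∈ Icc (ii1 Y) (ii2 Y), CR * om Y i * gam k Y a be i ≤ RR CR k Y a be i) ∧
    RR CR k Y a be (ii1 Y) ≤
      C3 * CR * (‖PP k Y a (cell (kap Y) (ii1 Y) : ℂ)‖ / cell (mm Y) (ii1 Y)) ∧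
    RR CR k Y a be (ii2 Y) ≤ C3 * CR * ‖BB Y be (cell (mm Y) (ii2 Y) : ℂ)‖ ∧
    (∑ i ∈ Icc (ii1 Y) (ii2 Y), (RR CR k Y a be i / mm Y) ^ 2 ≤ 1 / (Y : ℝ) ^ 13) ∧
    (∀ i, RR CR k Y a be i / mm Y ≤ 1 / (Y : ℝ) ^ 13) := by
  refine ⟨(2 * 433 + 1) * C0, by linarith, ?_⟩
  intro CR k hCR hk
  refine ⟨max 100 ⌈10 ^ 6 * CR ^ 2 * (k : ℝ) ^ 2⌉₊, ?_⟩
  intro Y hY0 be a La hF hG
  have hY : 100 ≤ Y := (le_max_left _ _).trans hY0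
  have hyc : 10 ^ 6 * CR ^ 2 * (k : ℝ) ^ 2 ≤ (Y : ℝ) := by
    have h1 := Nat.le_ceil (10 ^ 6 * CR ^ 2 * (k : ℝ) ^ 2)
    have h2 : ((⌈10 ^ 6 * CR ^ 2 * (k : ℝ) ^ 2⌉₊ : ℕ) : ℝ) ≤ (Y : ℝ) := by
      exact_mod_cast (le_max_right _ _).trans hY0
    linarith
  have hkR : (1 : ℝ) ≤ k := by exact_mod_cast hk
  obtain ⟨hkY, h68, h8⟩ := radii_aux_k hCR hkR hyc
  have hkYn : k ≤ Y := by exact_mod_cast hkY
  have ha := hG.sign
  have hy100 : (100 : ℝ) ≤ Y := by exact_mod_cast hY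
  have hy : (0 : ℝ) < Y := by linarith
  obtain ⟨hmm10, -, hmm, -⟩ := params Y hY
  have hmmR : (0 : ℝ) < (mm Y : ℝ) := by
    have : 0 < mm Y := by omega
    exact_mod_cast this
  have hun := fun j => radii_u_nonneg hCR k Y a be j
  refine ⟨fun i => rad_nonneg _ _ _ hun i, fun i j => rad_slow _ _ _ hun i j,
    fun i hi => rad_ge _ _ _ hun i hi, radii_left_end hC0 hCR hk hY hkYn hF hG, ?_, ?_, ?_⟩
  · refine (radii_right_end hC0 hCR hk hY hkYn ha hF).trans ?_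
    gcongr
    norm_num
  · have h1 := rad_sq (ii1 Y) (ii2 Y) (fun j => CR * om Y j * gam k Y a be j) hun
    have h2 := radii_sum_u hCR hk hY ha hF
    have h3 : ∑ i ∈ Icc (ii1 Y) (ii2 Y), (RR CR k Y a be i / mm Y) ^ 2 =
        (∑ i ∈ Icc (ii1 Y) (ii2 Y), RR CR k Y a be i ^ 2) / (mm Y : ℝ) ^ 2 := by
      rw [Finset.sum_div]
      apply Finset.sum_congr rfl
      intro i _
      rw [div_pow]
    rw [h3, div_le_div_iff₀ (by positivity) (by positivity), one_mul]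
    have h4 : ∑ i ∈ Icc (ii1 Y) (ii2 Y), RR CR k Y a be i ^ 2 ≤
        4 * (2 * CR ^ 2 * (Y : ℝ) ^ 2 * (10 ^ 4 * (k : ℝ) ^ 2 * (mm Y : ℝ) ^ 2 / (Y : ℝ) ^ 16 +
          17 * (mm Y : ℝ) ^ 2 / (Y : ℝ) ^ 59)) := by
      refine h1.trans ?_
      apply mul_le_mul_of_nonneg_left h2 (by norm_num)
    have h5 : 17 * (mm Y : ℝ) ^ 2 / (Y : ℝ) ^ 59 ≤ 17 * (mm Y : ℝ) ^ 2 / (Y : ℝ) ^ 16 := by
      apply div_le_div_of_nonneg_left (by positivity) (by positivity)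
      exact pow_le_pow_right₀ (by linarith) (by norm_num)
    calc (∑ i ∈ Icc (ii1 Y) (ii2 Y), RR CR k Y a be i ^ 2) * (Y : ℝ) ^ 13
        ≤ 4 * (2 * CR ^ 2 * (Y : ℝ) ^ 2 * (10 ^ 4 * (k : ℝ) ^ 2 * (mm Y : ℝ) ^ 2 /
            (Y : ℝ) ^ 16 + 17 * (mm Y : ℝ) ^ 2 / (Y : ℝ) ^ 16)) * (Y : ℝ) ^ 13 := by
          gcongr
          refine h4.trans ?_
          gcongr
      _ = (8 * CR ^ 2 * (10 ^ 4 * (k : ℝ) ^ 2 + 17)) * (mm Y : ℝ) ^ 2 / (Y : ℝ) := by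
          have e : (Y : ℝ) ^ 16 = (Y : ℝ) ^ 2 * (Y : ℝ) ^ 13 * (Y : ℝ) := by ring
          rw [e]
          field_simp
          ring
      _ ≤ (Y : ℝ) * (mm Y : ℝ) ^ 2 / (Y : ℝ) := by gcongr
      _ = (mm Y : ℝ) ^ 2 := by field_simp
  · intro i
    have h1 := rad_le (ii1 Y) (ii2 Y) (fun j => CR * om Y j * gam k Y a be j) hun
      (2 * CR * k * (Y : ℝ) ^ 241) (by positivity)
      (fun j hj => radii_u_up hCR hk hY ha hF (Finset.mem_Icc.1 hj).1) i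
    rw [div_le_div_iff₀ hmmR (by positivity), one_mul]
    have h2 : RR CR k Y a be i ≤ 2 * (2 * CR * k * (Y : ℝ) ^ 241) := h1
    have h3 : (17 : ℝ) * (RR CR k Y a be i * (Y : ℝ) ^ 13) ≤ 17 * (mm Y : ℝ) := by
      calc (17 : ℝ) * (RR CR k Y a be i * (Y : ℝ) ^ 13)
          ≤ 17 * (2 * (2 * CR * k * (Y : ℝ) ^ 241) * (Y : ℝ) ^ 13) := by gcongr
        _ = (68 * CR * k) * (Y : ℝ) ^ 254 := by ring
        _ ≤ (Y : ℝ) * (Y : ℝ) ^ 254 := by gcongr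
        _ = (Y : ℝ) ^ 255 := by ring
        _ ≤ (Y : ℝ) ^ 256 := pow_le_pow_right₀ (by linarith) (by norm_num)
        _ ≤ 17 * (mm Y : ℝ) := hmm
    linarith

end Pool.Agent.Helper59.Lit
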