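import Pool.Agent.Helper59.Lit.RegDefs

/-!
# Common estimates for the regions
-/

set_option autoImplicit false

namespace Pool.Agent.Helper59.Lit

open Finset

/-- trivial bound for a Littlewood polynomial near the circle -/
theorem sv_norm_le (n : ℕ) (a : ℕ → ℤ) (ha : IsSign a) (s : ℂ) (c : ℝ)
    (h : (n : ℝ) * |s.im| ≤ c) : ‖sv n a s‖ ≤ n * Real.exp c := by
  unfold sv rv
  refine le_trans (norm_sum_le _ _) ?_
  have h1 : ∀ j ∈ range n, ‖(((fun j => ((a j : ℤ) : ℝ)) j : ℝ) : ℂ) *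
      Complex.exp (Complex.I * (j : ℂ) * s)‖ ≤ Real.exp c := by
    intro j hj
    have hj' : (j : ℝ) ≤ n := by exact_mod_cast (Finset.mem_range.mp hj).le
    rw [norm_mul]
    have e1 : ‖(((fun j => ((a j : ℤ) : ℝ)) j : ℝ) : ℂ)‖ = 1 := by
      rcases ha j with hh | hh <;> simp [hh]
    rw [e1, one_mul, Complex.norm_exp]
    apply Real.exp_le_exp.mpr
    have e2 : (Complex.I * (j : ℂ) * s).re = -(j * s.im) := by simp
    rw [e2]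
    have h3 : -((j : ℝ) * s.im) ≤ (j : ℝ) * |s.im| := by
      have := neg_abs_le s.im
      have hj0 : (0 : ℝ) ≤ j := Nat.cast_nonneg j
      nlinarith
    have h4 : (j : ℝ) * |s.im| ≤ n * |s.im| := mul_le_mul_of_nonneg_right hj' (abs_nonneg _)
    linarith
  refine le_trans (Finset.sum_le_sum h1) ?_
  simp

theorem norm_exp_I_mul (c : ℝ) (z : ℂ) (hz : ‖z‖ ≤ 1) (hc : 0 ≤ c) :
    ‖Complex.exp (Complex.I * (c : ℂ) * z)‖ ≤ Real.exp c := by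
  rw [Complex.norm_exp]
  apply Real.exp_le_exp.mpr
  have e2 : (Complex.I * (c : ℂ) * z).re = -(c * z.im) := by simp
  rw [e2]
  have h1 : |z.im| ≤ 1 := le_trans (Complex.abs_im_le_norm z) hz
  have := neg_abs_le z.im
  nlinarith

theorem norm_exp_nat_real (n : ℕ) (θ : ℝ) :
    ‖Complex.exp (Complex.I * (n : ℂ) * (θ : ℂ))‖ = 1 := by
  rw [Complex.norm_exp]; simp

theorem norm_exp_negI_mul (c : ℝ) (z : ℂ) (hz : ‖z‖ ≤ 1) (hc : 0 ≤ c) :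
    ‖Complex.exp (-(Complex.I * (c : ℂ) * z))‖ ≤ Real.exp c := by
  have := norm_exp_I_mul c (-z) (by rwa [norm_neg]) hc
  rwa [mul_neg] at this

theorem Ypos (Y : ℕ) (hY : 100 ≤ Y) : (0 : ℝ) < Y := by
  have : (100 : ℝ) ≤ Y := by exact_mod_cast hY
  linarith

/-- lower bound for the flat polynomial -/
theorem BB_low {L0 C0 : ℝ} {Y : ℕ} {be : ℕ → ℤ} (hY : 100 ≤ Y) (h : FlatB L0 C0 (Y ^ 256) be)
    (θ : ℝ) : (Y : ℝ) ^ 127 * Y ^ (1 / 2 : ℝ) ≤ ‖BB Y be (θ : ℂ)‖ := by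
  have hY0 := Ypos Y hY
  have h1 := h.lower θ
  have h2 : (((Y ^ 256 : ℕ) : ℝ)) ^ 255 = ((Y : ℝ) ^ 127 * Y ^ (1 / 2 : ℝ)) ^ 512 := by
    rw [mul_pow, ← Real.rpow_natCast ((Y : ℝ) ^ (1 / 2 : ℝ)), ← Real.rpow_mul hY0.le]
    push_cast
    rw [← pow_mul, ← pow_mul, show (1 / 2 * 512 : ℝ) = ((256 : ℕ) : ℝ) by norm_num,
      Real.rpow_natCast, ← pow_add]
  rw [h2] at h1
  exact le_of_pow_le_pow_left₀ (by norm_num) (norm_nonneg _) h1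

theorem BB_low' {L0 C0 : ℝ} {Y : ℕ} {be : ℕ → ℤ} (hY : 100 ≤ Y) (h : FlatB L0 C0 (Y ^ 256) be)
    (θ : ℝ) : 10 * (Y : ℝ) ^ 127 ≤ ‖BB Y be (θ : ℂ)‖ := by
  have hY0 := Ypos Y hY
  have h1 := BB_low hY h θ
  have h2 : (10 : ℝ) ≤ (Y : ℝ) ^ (1 / 2 : ℝ) := by
    rw [← Real.sqrt_eq_rpow]
    apply Real.le_sqrt_of_sq_le
    have : (100 : ℝ) ≤ Y := by exact_mod_cast hY
    linarith
  have h3 : (0 : ℝ) ≤ (Y : ℝ) ^ 127 := pow_nonneg hY0.le _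
  nlinarith

/-- upper bound for the flat polynomial -/
theorem BB_up {L0 C0 : ℝ} {Y : ℕ} {be : ℕ → ℤ} (hY : 100 ≤ Y) (h : FlatB L0 C0 (Y ^ 256) be)
    (θ : ℝ) : ‖BB Y be (θ : ℂ)‖ ≤ (Y : ℝ) ^ 128 * Y ^ (1 / 2 : ℝ) := by
  have hY0 := Ypos Y hY
  have h1 := h.upper θ
  have h2 : (((Y ^ 256 : ℕ) : ℝ)) ^ 257 = ((Y : ℝ) ^ 128 * Y ^ (1 / 2 : ℝ)) ^ 512 := by
    rw [mul_pow, ← Real.rpow_natCast ((Y : ℝ) ^ (1 / 2 : ℝ)), ← Real.rpow_mul hY0.le]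
    push_cast
    rw [← pow_mul, ← pow_mul, show (1 / 2 * 512 : ℝ) = ((256 : ℕ) : ℝ) by norm_num,
      Real.rpow_natCast, ← pow_add]
  rw [h2] at h1
  exact le_of_pow_le_pow_left₀ (by norm_num) (by positivity) h1

theorem BB_up' {L0 C0 : ℝ} {Y : ℕ} {be : ℕ → ℤ} (hY : 100 ≤ Y) (h : FlatB L0 C0 (Y ^ 256) be)
    (θ : ℝ) : 10 * ‖BB Y be (θ : ℂ)‖ ≤ (Y : ℝ) ^ 129 := by
  have hY0 := Ypos Y hY
  have h1 := BB_up hY h θ
  have h2 : (10 : ℝ) ≤ (Y : ℝ) ^ (1 / 2 : ℝ) := by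
    rw [← Real.sqrt_eq_rpow]
    apply Real.le_sqrt_of_sq_le
    have : (100 : ℝ) ≤ Y := by exact_mod_cast hY
    linarith
  have h3 : (0 : ℝ) ≤ (Y : ℝ) ^ 128 := pow_nonneg hY0.le _
  have h4 : (Y : ℝ) ^ (1 / 2 : ℝ) * (Y : ℝ) ^ (1 / 2 : ℝ) = Y := by
    rw [← Real.rpow_add hY0]; norm_num
  have h5 : (0 : ℝ) ≤ (Y : ℝ) ^ (1 / 2 : ℝ) := by positivity
  calc 10 * ‖BB Y be (θ : ℂ)‖ ≤ (Y : ℝ) ^ (1 / 2 : ℝ) * ((Y : ℝ) ^ 128 * Y ^ (1 / 2 : ℝ)) := by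
        apply mul_le_mul h2 h1 (norm_nonneg _) h5
    _ = (Y : ℝ) ^ 128 * ((Y : ℝ) ^ (1 / 2 : ℝ) * (Y : ℝ) ^ (1 / 2 : ℝ)) := by ring
    _ = (Y : ℝ) ^ 129 := by rw [h4]; ring

theorem im_div_pow (Y n : ℕ) (hY : 100 ≤ Y) (θ : ℝ) (z : ℂ) (hz : ‖z‖ ≤ 1) :
    |((θ : ℂ) + z / ((Y : ℂ) ^ n)).im| ≤ 1 / (Y : ℝ) ^ n := by
  have hY0 := Ypos Y hY
  have h2 : (((Y : ℝ) ^ n : ℝ) : ℂ) = (Y : ℂ) ^ n := by push_cast; rfl
  have h1 : ((θ : ℂ) + z / ((Y : ℂ) ^ n)).im = z.im / (Y : ℝ) ^ n := by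
    rw [← h2, Complex.add_im, Complex.ofReal_im, zero_add, Complex.div_ofReal_im]
  rw [h1, abs_div, abs_of_pos (pow_pos hY0 n)]
  exact div_le_div_of_nonneg_right (le_trans (Complex.abs_im_le_norm z) hz) (pow_pos hY0 n).le

/-- the argument of the old polynomial -/
theorem scale_arg (Y : ℕ) (hY : 100 ≤ Y) (θ : ℝ) (z : ℂ) :
    (Y : ℂ) ^ 192 * ((θ : ℂ) + z / ((Y : ℂ) ^ 256)) =
      (((Y : ℝ) ^ 192 * θ : ℝ) : ℂ) + z / ((Y : ℂ) ^ 64) := by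
  have hY0 : (Y : ℂ) ≠ 0 := by
    have := Ypos Y hY
    exact_mod_cast this.ne'
  push_cast
  rw [mul_add]
  congr 1
  rw [show (256 : ℕ) = 192 + 64 by norm_num, pow_add]
  have h1 : (Y : ℂ) ^ 192 ≠ 0 := pow_ne_zero _ hY0
  have h2 : (Y : ℂ) ^ 64 ≠ 0 := pow_ne_zero _ hY0
  rw [mul_div_assoc', mul_div_mul_left _ _ h1]

/-- trivial bound for the old polynomial -/
theorem PP_triv (k Y : ℕ) (hY : 100 ≤ Y) (a : ℕ → ℤ) (ha : IsSign a) (θ : ℝ) (z : ℂ)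
    (hz : ‖z‖ ≤ 1) :
    ‖PP k Y a ((Y : ℂ) ^ 192 * ((θ : ℂ) + z / ((Y : ℂ) ^ 256)))‖ ≤
      k * (Y : ℝ) ^ 64 * Real.exp k := by
  rw [scale_arg Y hY]
  have h1 := im_div_pow Y 64 hY ((Y : ℝ) ^ 192 * θ) z hz
  have hY0 := Ypos Y hY
  have := sv_norm_le (k * Y ^ 64) a ha
    ((((Y : ℝ) ^ 192 * θ : ℝ) : ℂ) + z / ((Y : ℂ) ^ 64)) k (by
      have h2 : (0 : ℝ) < (Y : ℝ) ^ 64 := pow_pos hY0 _
      calc ((k * Y ^ 64 : ℕ) : ℝ) * |((((Y : ℝ) ^ 192 * θ : ℝ) : ℂ) + z / ((Y : ℂ) ^ 64)).im|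
          ≤ ((k * Y ^ 64 : ℕ) : ℝ) * (1 / (Y : ℝ) ^ 64) :=
            mul_le_mul_of_nonneg_left h1 (Nat.cast_nonneg _)
        _ = k := by push_cast; field_simp)
  simp only [PP]
  refine le_trans this ?_
  push_cast
  exact le_rfl

/-- the same at real points, without the exponential -/
theorem PP_triv_real (k Y : ℕ) (a : ℕ → ℤ) (ha : IsSign a) (θ : ℝ) :
    ‖PP k Y a (θ : ℂ)‖ ≤ k * (Y : ℝ) ^ 64 := by
  have := sv_norm_le (k * Y ^ 64) a ha (θ : ℂ) 0 (by simp)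
  simp only [PP]
  refine le_trans this ?_
  push_cast
  simp

/-- splitting of the new polynomial, with the index shift `k` -/
theorem PN_split {L0 C0 La CR D0 ρ c1 C2 C3 : ℝ} {k Y : ℕ} {a be al e : ℕ → ℤ} {v : ℂ}
    (hY : 100 ≤ Y) (D : StepData L0 C0 La CR D0 ρ c1 C2 C3 k Y a be al e v) (θ : ℝ)
    (h0 : 0 ≤ θ) (h1 : θ ≤ Real.pi) (z : ℂ) (hz : ‖z‖ ≤ 1) :
    ∃ E : ℂ, ‖E‖ ≤ 2 * (Y : ℝ) ^ 126 ∧
      Complex.exp (-(Complex.I * (k : ℂ) * z)) * PN k Y a e ((θ : ℂ) + z / ((Y : ℂ) ^ 256)) =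
      Complex.exp (-(Complex.I * (k : ℂ) * z)) * GG k Y a ((θ : ℂ) + z / ((Y : ℂ) ^ 256)) +
      Complex.exp (Complex.I * ((k * Y ^ 256 : ℕ) : ℂ) * (θ : ℂ)) *
        (((1 - hh Y : ℝ) : ℂ) * BB Y be ((θ : ℂ) + z / ((Y : ℂ) ^ 256)) +
          Complex.exp (Complex.I * (8 * (mm Y : ℂ)) * ((θ : ℂ) + z / ((Y : ℂ) ^ 256))) *
            (v * tt CR k Y a be al ((θ : ℂ) + z / ((Y : ℂ) ^ 256))) + E) := by
  have hY0 := Ypos Y hY
  have hYc : (Y : ℂ) ≠ 0 := by exact_mod_cast hY0.ne'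
  set s : ℂ := (θ : ℂ) + z / ((Y : ℂ) ^ 256) with hs
  set u : ℂ := Complex.exp (Complex.I * (8 * (mm Y : ℂ)) * s) with hu
  have him : |s.im| ≤ 1 / (Y : ℝ) ^ 256 := im_div_pow Y 256 hY θ z hz
  have herr := D.err s him
  refine ⟨u * ((starRingEnd ℂ) v * ttS CR k Y a be al s) + (AA Y e s - (((1 - hh Y : ℝ) : ℂ) * BB Y be s +
          u * (v * tt CR k Y a be al s + (starRingEnd ℂ) v * ttS CR k Y a be al s))), ?_, ?_⟩
  · refine le_trans (norm_add_le _ _) ?_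
    have hun : ‖u‖ ≤ 2 := by
      rw [hu, Complex.norm_exp]
      have e2 : (Complex.I * (8 * (mm Y : ℂ)) * s).re = -(8 * mm Y * s.im) := by
        simp
      rw [e2]
      have hm : (mm Y : ℝ) * 16 ≤ (Y : ℝ) ^ 256 := by
        have := (params Y hY).2.1
        have : (((16 * mm Y : ℕ)) : ℝ) ≤ ((Y ^ 256 : ℕ) : ℝ) := by exact_mod_cast this
        push_cast at this
        linarith
      have h3 : -(8 * (mm Y : ℝ) * s.im) ≤ 1 / 2 := by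
        have h4 := neg_abs_le s.im
        have h5 : (0 : ℝ) ≤ mm Y := Nat.cast_nonneg _
        have h6 : (mm Y : ℝ) * |s.im| ≤ 1 / 16 := by
          calc (mm Y : ℝ) * |s.im| ≤ mm Y * (1 / (Y : ℝ) ^ 256) :=
                mul_le_mul_of_nonneg_left him h5
            _ ≤ 1 / 16 := by
                rw [mul_one_div, div_le_div_iff₀ (pow_pos hY0 _) (by norm_num)]
                linarith
        nlinarith
      have h4 : Real.exp (1 / 2) ≤ 2 := by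
        have h5 := Real.exp_one_lt_d9
        have h6 : Real.exp (1 / 2) * Real.exp (1 / 2) = Real.exp 1 := by
          rw [← Real.exp_add]; norm_num
        nlinarith [Real.exp_pos (1 / 2)]
      exact le_trans (Real.exp_le_exp.mpr h3) h4
    have h7 : ‖u * ((starRingEnd ℂ) v * ttS CR k Y a be al s)‖ ≤ 6 := by
      rw [norm_mul, norm_mul, RCLike.norm_conj]
      have h8 := D.tmirror θ z h0 h1 hz
      have h9 := D.v3
      have h10 : ‖v‖ * ‖ttS CR k Y a be al s‖ ≤ 3 * 1 :=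
        mul_le_mul h9 h8 (norm_nonneg _) (by norm_num)
      calc ‖u‖ * (‖v‖ * ‖ttS CR k Y a be al s‖) ≤ 2 * (3 * 1) :=
            mul_le_mul hun h10 (mul_nonneg (norm_nonneg _) (norm_nonneg _)) (by norm_num)
        _ = 6 := by norm_num
    have h11 : (6 : ℝ) ≤ (Y : ℝ) ^ 126 := by
      have h12 : (100 : ℝ) ≤ Y := by exact_mod_cast hY
      calc (6 : ℝ) ≤ Y := by linarith
        _ = (Y : ℝ) ^ 1 := (pow_one _).symm
        _ ≤ (Y : ℝ) ^ 126 := pow_le_pow_right₀ (by linarith) (by norm_num)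
    linarith
  · have e3 : Complex.exp (-(Complex.I * (k : ℂ) * z)) *
        Complex.exp (Complex.I * ((k * Y ^ 256 : ℕ) : ℂ) * s) =
        Complex.exp (Complex.I * ((k * Y ^ 256 : ℕ) : ℂ) * (θ : ℂ)) := by
      rw [← Complex.exp_add]
      congr 1
      rw [hs]
      push_cast
      have : (Y : ℂ) ^ 256 * (z / (Y : ℂ) ^ 256) = z := by
        rw [mul_div_cancel₀]
        exact pow_ne_zero _ hYc
      linear_combination (Complex.I * (k : ℂ)) * this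
    simp only [PN]
    rw [mul_add, ← mul_assoc, e3]
    ring

end Pool.Agent.Helper59.Lit
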