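import Pool.Agent.Helper59.Lit.Choice

/-!
# Data available in the induction step and the conclusion wanted at a point
-/

set_option autoImplicit false

namespace Pool.Agent.Helper59.Lit

open Finset

/-- Everything known after the choice, plus the bounds for the bump sum. -/
structure StepData (L0 C0 La CR D0 ρ c1 C2 C3 : ℝ) (k Y : ℕ) (a be al e : ℕ → ℤ) (v : ℂ) :
    Prop where
  good : Good La (4 * L0) (4 * C0) k Y a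
  flat : FlatB L0 C0 (Y ^ 256) be
  v1 : 1 ≤ ‖v‖
  v3 : ‖v‖ ≤ 3
  R0 : ∀ i, 0 ≤ RR CR k Y a be i
  Rge : ∀ i ∈ Icc (ii1 Y) (ii2 Y), CR * om Y i * gam k Y a be i ≤ RR CR k Y a be i
  Rleft : RR CR k Y a be (ii1 Y) ≤
      C3 * CR * (‖PP k Y a (cell (kap Y) (ii1 Y) : ℂ)‖ / cell (mm Y) (ii1 Y))
  Rright : RR CR k Y a be (ii2 Y) ≤ C3 * CR * ‖BB Y be (cell (mm Y) (ii2 Y) : ℂ)‖
  Rmax : ∀ i, RR CR k Y a be i / mm Y ≤ 1 / (Y : ℝ) ^ 13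
  tlow : ∀ (θ : ℝ) (i : ℕ), i ∈ Icc (ii1 Y) (ii2 Y) → |θ - cell (mm Y) i| ≤ Real.pi / mm Y →
      c1 * RR CR k Y a be i ≤ ‖tt CR k Y a be al (θ : ℂ)‖
  tup : ∀ (θ : ℝ) (i : ℕ) (z : ℂ), i ∈ Icc (ii1 Y) (ii2 Y) →
      |θ - cell (mm Y) i| ≤ Real.pi / mm Y → 0 ≤ θ → ‖z‖ ≤ 1 →
      ‖tt CR k Y a be al ((θ : ℂ) + z / ((Y : ℂ) ^ 256))‖ ≤ C2 * RR CR k Y a be i
  tleft : ∀ (θ : ℝ) (z : ℂ), 0 ≤ θ → θ ≤ cell (mm Y) (ii1 Y) → ‖z‖ ≤ 1 →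
      ‖tt CR k Y a be al ((θ : ℂ) + z / ((Y : ℂ) ^ 256))‖ ≤
        C2 * RR CR k Y a be (ii1 Y) / (1 + mm Y * (cell (mm Y) (ii1 Y) - θ)) ^ 8
  tright : ∀ (θ : ℝ) (z : ℂ), cell (mm Y) (ii2 Y) ≤ θ → θ ≤ Real.pi → ‖z‖ ≤ 1 →
      ‖tt CR k Y a be al ((θ : ℂ) + z / ((Y : ℂ) ^ 256))‖ ≤
        C2 * RR CR k Y a be (ii2 Y) / (1 + mm Y * (θ - cell (mm Y) (ii2 Y))) ^ 8
  tmirror : ∀ (θ : ℝ) (z : ℂ), 0 ≤ θ → θ ≤ Real.pi → ‖z‖ ≤ 1 →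
      ‖ttS CR k Y a be al ((θ : ℂ) + z / ((Y : ℂ) ^ 256))‖ ≤ 1
  err : ∀ s : ℂ, |s.im| ≤ 1 / (Y : ℝ) ^ 256 →
        ‖AA Y e s - (((1 - hh Y : ℝ) : ℂ) * BB Y be s +
          Complex.exp (Complex.I * (8 * (mm Y : ℂ)) * s) *
            (v * tt CR k Y a be al s + (starRingEnd ℂ) v * ttS CR k Y a be al s))‖ ≤
          (Y : ℝ) ^ 126
  cross1 : ∀ θ : ℝ, cell (mm Y) (ii1 Y) - D0 / mm Y ≤ θ → θ ≤ cell (mm Y) (ii1 Y) →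
        ρ ≤ ‖1 + v * ph1 CR k Y a be al θ‖
  cross2 : ∀ θ : ℝ, cell (mm Y) (ii2 Y) ≤ θ → θ ≤ cell (mm Y) (ii2 Y) + D0 / mm Y →
        ρ ≤ ‖1 + v * ph2 CR k Y a be al θ‖

/-- conclusion wanted at a point -/
def PtGood (Ls : ℝ) (k Y : ℕ) (a e : ℕ → ℤ) (θ : ℝ) : Prop :=
  (Y : ℝ) ^ 120 ≤ ‖PN k Y a e (θ : ℂ)‖ ∧
  ∃ lam : ℝ, |lam| ≤ k + 1 ∧ ∀ z : ℂ, ‖z‖ ≤ 1 →
    ‖Complex.exp (-(Complex.I * (lam : ℂ) * z)) *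
      PN k Y a e ((θ : ℂ) + z / ((Y : ℂ) ^ 256))‖ ≤ Ls * ‖PN k Y a e (θ : ℂ)‖

end Pool.Agent.Helper59.Lit
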