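import Pool.Agent.Helper59.Lit.RegCommon

/-!
# The old polynomial where `z^b` is near `-1`
-/

set_option autoImplicit false

namespace Pool.Agent.Helper59.Lit

open Finset

/-- removing the period from the argument of the old polynomial -/
theorem PP_shift (k Y : ℕ) (a : ℕ → ℤ) (n : ℕ) (s : ℂ) :
    PP k Y a (s - ((2 * Real.pi * n : ℝ) : ℂ)) = PP k Y a s := by
  have h : Function.Periodic (sv (k * Y ^ 64) a) (2 * (Real.pi : ℂ)) :=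
    fun s => sv_periodic _ a s
  have h2 := h.nat_mul n
  have h3 := h2.sub_eq s
  simp only [PP]
  rw [← h3]
  congr 1
  push_cast
  ring

theorem near_nice {La L1 C1 : ℝ} {k Y : ℕ} {a : ℕ → ℤ} (hY : 100 ≤ Y)
    (hg : Good La L1 C1 k Y a) (θ : ℝ)
    (hθ : |(Y : ℝ) ^ 192 * θ - 2 * Real.pi * ((Y ^ 16 / 8 : ℕ) : ℝ) - Real.pi| ≤ 1) (z : ℂ)
    (hz : ‖z‖ ≤ 1) :
    ‖Complex.exp (-(Complex.I * ((k : ℂ) - 1) * z)) *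
        PP k Y a ((Y : ℂ) ^ 192 * ((θ : ℂ) + z / ((Y : ℂ) ^ 256)))‖ ≤
      L1 * ‖PP k Y a ((Y : ℂ) ^ 192 * (θ : ℂ))‖ := by
  have h := hg.nice _ hθ z hz
  have e1 : PP k Y a ((Y : ℂ) ^ 192 * ((θ : ℂ) + z / ((Y : ℂ) ^ 256))) =
      sv (k * Y ^ 64) a (((((Y : ℝ) ^ 192 * θ - 2 * Real.pi * ((Y ^ 16 / 8 : ℕ) : ℝ)) : ℝ) : ℂ) +
        z / ((Y : ℂ) ^ 64)) := by
    rw [scale_arg Y hY, ← PP_shift k Y a (Y ^ 16 / 8)]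
    simp only [PP]
    congr 1
    push_cast
    ring
  have e2 : PP k Y a ((Y : ℂ) ^ 192 * (θ : ℂ)) =
      sv (k * Y ^ 64) a (((((Y : ℝ) ^ 192 * θ - 2 * Real.pi * ((Y ^ 16 / 8 : ℕ) : ℝ)) : ℝ) : ℂ)) := by
    rw [← PP_shift k Y a (Y ^ 16 / 8)]
    simp only [PP]
    congr 1
    push_cast
    ring
  rw [e1, e2]
  exact h

theorem near_poly {La L1 C1 : ℝ} {k Y : ℕ} {a : ℕ → ℤ} (hY : 100 ≤ Y)
    (hg : Good La L1 C1 k Y a) (θ θ' : ℝ)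
    (hθ : |(Y : ℝ) ^ 192 * θ - 2 * Real.pi * ((Y ^ 16 / 8 : ℕ) : ℝ) - Real.pi| ≤ 1)
    (hθ' : |(Y : ℝ) ^ 192 * θ' - 2 * Real.pi * ((Y ^ 16 / 8 : ℕ) : ℝ) - Real.pi| ≤ 1) :
    ‖PP k Y a ((Y : ℂ) ^ 192 * (θ' : ℂ))‖ ≤
      C1 * (1 + (Y : ℝ) ^ 256 * |θ - θ'|) * ‖PP k Y a ((Y : ℂ) ^ 192 * (θ : ℂ))‖ := by
  have hY0 := Ypos Y hY
  have h := hg.poly _ _ hθ hθ'
  have e2 : ∀ t : ℝ, PP k Y a ((Y : ℂ) ^ 192 * (t : ℂ)) =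
      sv (k * Y ^ 64) a (((((Y : ℝ) ^ 192 * t - 2 * Real.pi * ((Y ^ 16 / 8 : ℕ) : ℝ)) : ℝ) : ℂ)) := by
    intro t
    rw [← PP_shift k Y a (Y ^ 16 / 8)]
    simp only [PP]
    congr 1
    push_cast
    ring
  rw [e2, e2]
  have e3 : (Y : ℝ) ^ 64 * |(Y : ℝ) ^ 192 * θ - 2 * Real.pi * ((Y ^ 16 / 8 : ℕ) : ℝ) -
      ((Y : ℝ) ^ 192 * θ' - 2 * Real.pi * ((Y ^ 16 / 8 : ℕ) : ℝ))| = (Y : ℝ) ^ 256 * |θ - θ'| := by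
    have : (Y : ℝ) ^ 192 * θ - 2 * Real.pi * ((Y ^ 16 / 8 : ℕ) : ℝ) -
      ((Y : ℝ) ^ 192 * θ' - 2 * Real.pi * ((Y ^ 16 / 8 : ℕ) : ℝ)) = (Y : ℝ) ^ 192 * (θ - θ') := by
      ring
    rw [this, abs_mul, abs_of_pos (pow_pos hY0 192)]
    ring
  rw [e3] at h
  exact h

/-- at a grid point -/
theorem PP_cell (k Y : ℕ) (hY : 100 ≤ Y) (a : ℕ → ℤ) (i : ℕ) :
    PP k Y a ((Y : ℂ) ^ 192 * (cell (mm Y) i : ℂ)) = PP k Y a (cell (kap Y) i : ℂ) := by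
  obtain ⟨p1, p2, p3, p4, p5, p6, p7, p8, p9, p10, p11, p12, p13, p14⟩ := params Y hY
  rw [← p13 i]
  push_cast
  rfl

end Pool.Agent.Helper59.Lit
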