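import Pool.Agent.Helper59.Lit.Region5

/-!
# Region I: far left, `P(z^b) q(z)` dominates
-/

set_option autoImplicit false

namespace Pool.Agent.Helper59.Lit

open Finset

theorem r1_q_low (Y : ℕ) (hY : 100 ≤ Y) (θ : ℝ) (h0 : 0 ≤ θ) (h1 : θ ≤ 1 / (Y : ℝ) ^ 176) :
    (Y : ℝ) ^ 160 / 5 ≤ ‖QQ Y (θ : ℂ)‖ := by
  have hY0 := Ypos Y hY
  have hY100 : (100 : ℝ) ≤ Y := by exact_mod_cast hY
  rcases le_or_gt θ (1 / (Y : ℝ) ^ 192) with h | h
  · have h2 := rq_low_small Y hY θ h0 h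
    refine le_trans ?_ h2
    have h3 : (Y : ℝ) ^ 160 ≤ (Y : ℝ) ^ 192 := pow_le_pow_right₀ (by linarith) (by norm_num)
    have h4 : (0 : ℝ) < (Y : ℝ) ^ 192 := pow_pos hY0 _
    linarith
  · have hpi := Real.pi_gt_three
    have h2 := rq_low Y hY θ h0 (le_trans h1 (by
      apply div_le_div_of_nonneg_right _ (pow_pos hY0 _).le
      linarith))
    refine le_trans ?_ h2
    apply div_le_div_of_nonneg_right _ (by norm_num)
    have h3 : (Y : ℝ) ^ 352 * (1 / (Y : ℝ) ^ 192) ≤ (Y : ℝ) ^ 352 * θ :=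
      mul_le_mul_of_nonneg_left h.le (pow_pos hY0 _).le
    refine le_trans (le_of_eq ?_) h3
    rw [mul_one_div, eq_div_iff (pow_pos hY0 _).ne', ← pow_add]

theorem region1 (L0 C0 La CR D0 ρ c1 C2 C3 ep : ℝ) (k : ℕ) (_hk : 1 ≤ k) (hL0 : 1 ≤ L0)
    (_hC0 : 1 ≤ C0) (hLa : 1 ≤ La) (_hCR : 1 ≤ CR) (hep : 0 < ep) :
    ∃ Y0 : ℕ, ∀ Y : ℕ, Y0 ≤ Y → ∀ (a be al e : ℕ → ℤ) (v : ℂ),
      StepData L0 C0 La CR D0 ρ c1 C2 C3 k Y a be al e v → ∀ θ : ℝ, 0 ≤ θ →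
      θ ≤ cell (mm Y) (ii1 Y) - kap Y / (16 * mm Y) → PtGood (La * (1 + ep)) k Y a e θ := by
  obtain ⟨Y1, hY1⟩ := exists_nat_ge (Real.exp (2 * k) * (L0 + 6 + 2))
  obtain ⟨Y2, hY2⟩ := exists_nat_ge (|C2| * 272 ^ 8)
  obtain ⟨Y3, hY3⟩ := exists_nat_ge (20 / ep)
  refine ⟨max 100 (max Y1 (max Y2 Y3)), ?_⟩
  intro Y hYY a be al e v D θ hθ0 hθ1
  have hY : 100 ≤ Y := le_trans (le_max_left _ _) hYY
  have hYa : Real.exp (2 * k) * (L0 + 6 + 2) ≤ (Y : ℝ) := by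
    have : Y1 ≤ Y := le_trans (le_trans (le_max_left _ _) (le_max_right _ _)) hYY
    exact le_trans hY1 (by exact_mod_cast this)
  have hYb : |C2| * 272 ^ 8 ≤ (Y : ℝ) := by
    have : Y2 ≤ Y := le_trans (le_trans (le_trans (le_max_left _ _) (le_max_right _ _))
      (le_max_right _ _)) hYY
    exact le_trans hY2 (by exact_mod_cast this)
  have hYc : 20 / ep ≤ (Y : ℝ) := by
    have : Y3 ≤ Y := le_trans (le_trans (le_trans (le_max_right _ _) (le_max_right _ _))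
      (le_max_right _ _)) hYY
    exact le_trans hY3 (by exact_mod_cast this)
  have hYc' : 20 ≤ ep * Y := by
    rw [div_le_iff₀ hep] at hYc
    linarith
  have hY0 := Ypos Y hY
  have hY100 : (100 : ℝ) ≤ Y := by exact_mod_cast hY
  obtain ⟨p1, p2, p3, p4, p5, p6, p7, p8, p9, p10, p11, p12, p13, p14⟩ := params Y hY
  have hm : (0 : ℝ) < mm Y := by
    have : (10 : ℝ) ≤ mm Y := by exact_mod_cast p1
    linarith
  have hkap : (0 : ℝ) < kap Y := by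
    have : (0 : ℝ) < (Y : ℝ) ^ 64 := pow_pos hY0 _
    linarith
  have hkm : 0 < (kap Y : ℝ) / (16 * mm Y) := by positivity
  have hθc : θ ≤ cell (mm Y) (ii1 Y) := by linarith
  have hθ176 : θ ≤ 1 / (Y : ℝ) ^ 176 := le_trans hθc p9
  have hθπ : θ ≤ Real.pi := by
    refine le_trans hθ176 ?_
    rw [div_le_iff₀ (pow_pos hY0 _)]
    have := Real.pi_gt_three
    have h1 : (1 : ℝ) ≤ (Y : ℝ) ^ 176 := one_le_pow₀ (by linarith)
    nlinarith
  -- the bump sum is negligible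
  have htt : ∀ z : ℂ, ‖z‖ ≤ 1 →
      ‖tt CR k Y a be al ((θ : ℂ) + z / ((Y : ℂ) ^ 256))‖ ≤ 1 := by
    intro z hz
    have h1 := D.tleft θ z hθ0 hθc hz
    refine le_trans h1 ?_
    have h2 : (Y : ℝ) ^ 64 / 272 ≤ 1 + mm Y * (cell (mm Y) (ii1 Y) - θ) := by
      have h3 : (mm Y : ℝ) * (kap Y / (16 * mm Y)) ≤ mm Y * (cell (mm Y) (ii1 Y) - θ) :=
        mul_le_mul_of_nonneg_left (by linarith) hm.le
      have h4 : (mm Y : ℝ) * (kap Y / (16 * mm Y)) = kap Y / 16 := by field_simp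
      rw [h4] at h3
      linarith
    have h5 : ((Y : ℝ) ^ 64 / 272) ^ 8 ≤ (1 + mm Y * (cell (mm Y) (ii1 Y) - θ)) ^ 8 :=
      pow_le_pow_left₀ (by positivity) h2 8
    have h6 : (0 : ℝ) < ((Y : ℝ) ^ 64 / 272) ^ 8 := by positivity
    rw [div_le_one (lt_of_lt_of_le h6 h5)]
    refine le_trans ?_ h5
    have hR0 := D.R0 (ii1 Y)
    have hRm := D.Rmax (ii1 Y)
    have h7 : RR CR k Y a be (ii1 Y) ≤ (Y : ℝ) ^ 256 := by
      rw [div_le_div_iff₀ hm (pow_pos hY0 _)] at hRm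
      have h8 : (1 : ℝ) ≤ (Y : ℝ) ^ 13 := one_le_pow₀ (by linarith)
      have h9 : 16 * (mm Y : ℝ) ≤ (Y : ℝ) ^ 256 := by
        have : (((16 * mm Y : ℕ)) : ℝ) ≤ ((Y ^ 256 : ℕ) : ℝ) := by exact_mod_cast p2
        push_cast at this
        linarith
      have h10 : RR CR k Y a be (ii1 Y) * 1 ≤ RR CR k Y a be (ii1 Y) * (Y : ℝ) ^ 13 :=
        mul_le_mul_of_nonneg_left h8 hR0
      linarith
    have h11 : C2 * RR CR k Y a be (ii1 Y) ≤ |C2| * (Y : ℝ) ^ 256 :=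
      le_trans (mul_le_mul_of_nonneg_right (le_abs_self C2) hR0)
        (mul_le_mul_of_nonneg_left h7 (abs_nonneg _))
    refine le_trans h11 ?_
    rw [div_pow, le_div_iff₀ (by positivity)]
    calc |C2| * (Y : ℝ) ^ 256 * 272 ^ 8 = (|C2| * 272 ^ 8) * (Y : ℝ) ^ 256 := by ring
      _ ≤ Y * (Y : ℝ) ^ 256 := mul_le_mul_of_nonneg_right hYb (pow_pos hY0 _).le
      _ = (Y : ℝ) ^ 257 := by ring
      _ ≤ (Y : ℝ) ^ 512 := pow_le_pow_right₀ (by linarith) (by norm_num)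
      _ = ((Y : ℝ) ^ 64) ^ 8 := by rw [← pow_mul]
  obtain ⟨hh0, hh1⟩ := hh_bounds Y hY
  have hhn : ‖((1 - hh Y : ℝ) : ℂ)‖ ≤ 1 := by
    rw [Complex.norm_real, Real.norm_eq_abs, abs_of_nonneg (by linarith)]
    linarith
  have hn3 : ‖Complex.exp (Complex.I * ((k * Y ^ 256 : ℕ) : ℂ) * (θ : ℂ))‖ = 1 :=
    norm_exp_nat_real _ _
  -- the second window is negligible, for index shift `lam`
  have hsecond : ∀ (lam : ℝ) (z : ℂ), |lam| ≤ k → ‖z‖ ≤ 1 → ∃ W : ℂ, ‖W‖ ≤ (Y : ℝ) ^ 130 ∧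
      Complex.exp (-(Complex.I * (lam : ℂ) * z)) * PN k Y a e ((θ : ℂ) + z / ((Y : ℂ) ^ 256)) =
      Complex.exp (-(Complex.I * (lam : ℂ) * z)) * GG k Y a ((θ : ℂ) + z / ((Y : ℂ) ^ 256)) +
      W := by
    intro lam z hlam hz
    obtain ⟨E, hE, hsplit⟩ := PN_split hY D θ hθ0 hθπ z hz
    set s : ℂ := (θ : ℂ) + z / ((Y : ℂ) ^ 256) with hs
    set B1 : ℂ := ((1 - hh Y : ℝ) : ℂ) * BB Y be s +
          Complex.exp (Complex.I * (8 * (mm Y : ℂ)) * s) * (v * tt CR k Y a be al s) + E with hB1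
    refine ⟨Complex.exp (Complex.I * (((k : ℝ) - lam : ℝ) : ℂ) * z) *
      (Complex.exp (Complex.I * ((k * Y ^ 256 : ℕ) : ℂ) * (θ : ℂ)) * B1), ?_, ?_⟩
    · have hlam' := abs_le.mp hlam
      have n1 : ‖Complex.exp (Complex.I * (((k : ℝ) - lam : ℝ) : ℂ) * z)‖ ≤
          Real.exp (2 * k) := by
        refine le_trans (norm_exp_I_mul ((k : ℝ) - lam) z hz (by linarith)) ?_
        exact Real.exp_le_exp.mpr (by linarith)
      have hreg := D.flat.reg θ z hz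
      have e1 : ((Y ^ 256 : ℕ) : ℂ) = (Y : ℂ) ^ 256 := by push_cast; rfl
      rw [e1] at hreg
      have h1 : ‖BB Y be s‖ ≤ L0 * ‖BB Y be (θ : ℂ)‖ := hreg
      have h2 := BB_up' hY D.flat θ
      have h3 : ‖BB Y be (θ : ℂ)‖ ≤ (Y : ℝ) ^ 129 := by
        have := norm_nonneg (BB Y be (θ : ℂ))
        linarith
      have h4 : ‖((1 - hh Y : ℝ) : ℂ) * BB Y be s‖ ≤ L0 * (Y : ℝ) ^ 129 := by
        rw [norm_mul]
        calc _ ≤ 1 * (L0 * (Y : ℝ) ^ 129) := by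
              apply mul_le_mul hhn _ (norm_nonneg _) (by norm_num)
              exact le_trans h1 (mul_le_mul_of_nonneg_left h3 (by linarith))
          _ = _ := one_mul _
      have h5 : ‖Complex.exp (Complex.I * (8 * (mm Y : ℂ)) * s) *
          (v * tt CR k Y a be al s)‖ ≤ 6 := by
        rw [norm_mul, norm_mul]
        have h10 : ‖v‖ * ‖tt CR k Y a be al s‖ ≤ 3 * 1 :=
          mul_le_mul D.v3 (htt z hz) (norm_nonneg _) (by norm_num)
        calc _ ≤ 2 * (3 * 1) :=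
              mul_le_mul (norm_exp8 Y hY θ z hz) h10
                (mul_nonneg (norm_nonneg _) (norm_nonneg _)) (by norm_num)
          _ = 6 := by norm_num
      have h6 : ‖B1‖ ≤ (L0 + 6 + 2) * (Y : ℝ) ^ 129 := by
        have h7 : ‖B1‖ ≤ L0 * (Y : ℝ) ^ 129 + 6 + 2 * (Y : ℝ) ^ 126 :=
          le_trans (norm_add_le _ _) (add_le_add
            (le_trans (norm_add_le _ _) (add_le_add h4 h5)) hE)
        have h8 : (1 : ℝ) ≤ (Y : ℝ) ^ 129 := one_le_pow₀ (by linarith)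
        have h9 : (Y : ℝ) ^ 126 ≤ (Y : ℝ) ^ 129 :=
          pow_le_pow_right₀ (by linarith) (by norm_num)
        linarith
      rw [norm_mul, norm_mul, hn3, one_mul]
      calc _ ≤ Real.exp (2 * k) * ((L0 + 6 + 2) * (Y : ℝ) ^ 129) :=
            mul_le_mul n1 h6 (norm_nonneg _) (Real.exp_pos _).le
        _ = (Real.exp (2 * k) * (L0 + 6 + 2)) * (Y : ℝ) ^ 129 := by ring
        _ ≤ Y * (Y : ℝ) ^ 129 := mul_le_mul_of_nonneg_right hYa (pow_pos hY0 _).le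
        _ = (Y : ℝ) ^ 130 := by ring
    · have e3 : Complex.exp (-(Complex.I * (lam : ℂ) * z)) =
          Complex.exp (Complex.I * (((k : ℝ) - lam : ℝ) : ℂ) * z) *
          Complex.exp (-(Complex.I * (k : ℂ) * z)) := by
        rw [← Complex.exp_add]
        congr 1
        push_cast
        ring
      rw [e3, mul_assoc, hsplit]
      ring
  -- lower bound for g
  have hqlow := r1_q_low Y hY θ hθ0 hθ176
  have hPlow : (Y : ℝ) ^ 30 ≤ ‖PP k Y a ((Y : ℂ) ^ 192 * (θ : ℂ))‖ := by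
    have := D.good.lower ((Y : ℝ) ^ 192 * θ)
    simp only [PP]
    push_cast at this
    exact this
  set G0 : ℝ := ‖GG k Y a (θ : ℂ)‖ with hG0
  have hG0eq : G0 = ‖PP k Y a ((Y : ℂ) ^ 192 * (θ : ℂ))‖ * ‖QQ Y (θ : ℂ)‖ := by
    rw [hG0]; simp only [GG]; rw [norm_mul]
  have hG0low : (Y : ℝ) ^ 190 / 5 ≤ G0 := by
    rw [hG0eq]
    have h1 : (Y : ℝ) ^ 30 * ((Y : ℝ) ^ 160 / 5) ≤
        ‖PP k Y a ((Y : ℂ) ^ 192 * (θ : ℂ))‖ * ‖QQ Y (θ : ℂ)‖ :=
      mul_le_mul hPlow hqlow (by positivity) (norm_nonneg _)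
    refine le_trans (le_of_eq ?_) h1
    ring
  have hW130 : (Y : ℝ) ^ 130 * (Y : ℝ) ≤ G0 / 20 := by
    have h1 : (Y : ℝ) ^ 131 * 100 ≤ (Y : ℝ) ^ 190 := by
      calc (Y : ℝ) ^ 131 * 100 ≤ (Y : ℝ) ^ 131 * Y :=
            mul_le_mul_of_nonneg_left hY100 (pow_pos hY0 _).le
        _ = (Y : ℝ) ^ 132 := by ring
        _ ≤ (Y : ℝ) ^ 190 := pow_le_pow_right₀ (by linarith) (by norm_num)
    have h2 : (Y : ℝ) ^ 130 * (Y : ℝ) = (Y : ℝ) ^ 131 := by ring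
    rw [h2]
    linarith
  -- smallness of the error relative to g
  have hG0pos : 0 < G0 := by
    have : (0 : ℝ) < (Y : ℝ) ^ 190 := pow_pos hY0 _
    linarith
  have hW : (Y : ℝ) ^ 130 ≤ ep / 400 * G0 := by
    have h1 : 20 * (Y : ℝ) ^ 130 ≤ ep * Y * (Y : ℝ) ^ 130 :=
      mul_le_mul_of_nonneg_right hYc' (pow_pos hY0 _).le
    have h2 : ep * ((Y : ℝ) ^ 130 * Y) ≤ ep * (G0 / 20) :=
      mul_le_mul_of_nonneg_left hW130 hep.le
    have h3 : ep * Y * (Y : ℝ) ^ 130 = ep * ((Y : ℝ) ^ 130 * Y) := by ring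
    linarith
  have hW' : (Y : ℝ) ^ 130 ≤ G0 / 2000 := by
    have h1 : (Y : ℝ) ^ 130 * 100 ≤ (Y : ℝ) ^ 130 * Y :=
      mul_le_mul_of_nonneg_left hY100 (pow_pos hY0 _).le
    linarith
  -- lower bound for the new polynomial
  obtain ⟨W0, hW0, hP0⟩ := hsecond 0 0 (by simp) (by simp)
  have hP0' : PN k Y a e (θ : ℂ) = GG k Y a (θ : ℂ) + W0 := by simpa using hP0
  have hlow1 : G0 - (Y : ℝ) ^ 130 ≤ ‖PN k Y a e (θ : ℂ)‖ := by
    rw [hP0']
    have := norm_sub_le_norm_add (GG k Y a (θ : ℂ)) W0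
    linarith
  refine ⟨?_, ?_⟩
  · refine le_trans ?_ hlow1
    have h1 : (Y : ℝ) ^ 120 ≤ (Y : ℝ) ^ 130 := pow_le_pow_right₀ (by linarith) (by norm_num)
    linarith
  · obtain ⟨lam, hlam, hreg⟩ := D.good.reg ((Y : ℝ) ^ 192 * θ)
    refine ⟨lam, le_trans hlam (by linarith), fun z hz => ?_⟩
    obtain ⟨W, hWn, hP⟩ := hsecond lam z hlam hz
    rw [hP]
    have h1 : ‖Complex.exp (-(Complex.I * (lam : ℂ) * z)) *
        PP k Y a ((Y : ℂ) ^ 192 * ((θ : ℂ) + z / ((Y : ℂ) ^ 256)))‖ ≤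
        La * ‖PP k Y a ((Y : ℂ) ^ 192 * (θ : ℂ))‖ := by
      have h2 := hreg z hz
      rw [scale_arg Y hY]
      simp only [PP]
      push_cast at h2 ⊢
      exact h2
    have hπ3 := Real.pi_gt_three
    have h2 : ‖QQ Y ((θ : ℂ) + z / ((Y : ℂ) ^ 256))‖ ≤
        (1 + 1 / (Y : ℝ) ^ 8) * ‖QQ Y (θ : ℂ)‖ :=
      rq_rel Y hY θ hθ0 (le_trans hθ176 (by
        apply div_le_div_of_nonneg_right _ (pow_pos hY0 _).le
        linarith)) z hz
    have h3 : ‖Complex.exp (-(Complex.I * (lam : ℂ) * z)) *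
        GG k Y a ((θ : ℂ) + z / ((Y : ℂ) ^ 256))‖ ≤ La * (1 + 1 / (Y : ℝ) ^ 8) * G0 := by
      simp only [GG]
      rw [← mul_assoc, norm_mul, hG0eq]
      have hLa0 : 0 ≤ La := by linarith
      calc _ ≤ (La * ‖PP k Y a ((Y : ℂ) ^ 192 * (θ : ℂ))‖) *
            ((1 + 1 / (Y : ℝ) ^ 8) * ‖QQ Y (θ : ℂ)‖) :=
            mul_le_mul h1 h2 (norm_nonneg _) (mul_nonneg hLa0 (norm_nonneg _))
        _ = _ := by ring
    have h8 : 1 / (Y : ℝ) ^ 8 ≤ ep / 20 := by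
      rw [div_le_div_iff₀ (pow_pos hY0 _) (by norm_num)]
      have h9 : (Y : ℝ) ^ 1 ≤ (Y : ℝ) ^ 8 := pow_le_pow_right₀ (by linarith) (by norm_num)
      rw [pow_one] at h9
      have h10 : ep * Y ≤ ep * (Y : ℝ) ^ 8 := mul_le_mul_of_nonneg_left h9 hep.le
      linarith
    have h11 : La * (1 + 1 / (Y : ℝ) ^ 8) * G0 ≤ La * (1 + ep / 20) * G0 := by
      apply mul_le_mul_of_nonneg_right _ hG0pos.le
      exact mul_le_mul_of_nonneg_left (by linarith) (by linarith)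
    refine le_trans (norm_add_le _ _) ?_
    have hLG : (Y : ℝ) ^ 130 ≤ La * (ep / 400 * G0) := by
      have : 1 * (ep / 400 * G0) ≤ La * (ep / 400 * G0) :=
        mul_le_mul_of_nonneg_right hLa (by positivity)
      linarith
    have h12 : La * (1 + ep) * (G0 - (Y : ℝ) ^ 130) ≤
        La * (1 + ep) * ‖PN k Y a e (θ : ℂ)‖ :=
      mul_le_mul_of_nonneg_left hlow1 (mul_nonneg (by linarith) (by linarith))
    refine le_trans ?_ h12
    -- La (1 + ep/20) G0 + Y^130 ≤ La (1 + ep) (G0 - Y^130)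
    have h13 : La * (1 + ep) * (Y : ℝ) ^ 130 ≤ La * (ep / 4 * G0) := by
      have h14 : (1 + ep) * (Y : ℝ) ^ 130 ≤ ep / 4 * G0 := by
        have h15 : ep * (Y : ℝ) ^ 130 ≤ ep * (G0 / 2000) :=
          mul_le_mul_of_nonneg_left hW' hep.le
        have h16 : 0 ≤ ep * G0 := mul_nonneg hep.le hG0pos.le
        linarith
      calc La * (1 + ep) * (Y : ℝ) ^ 130 = La * ((1 + ep) * (Y : ℝ) ^ 130) := by ring
        _ ≤ La * (ep / 4 * G0) := mul_le_mul_of_nonneg_left h14 (by linarith)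
    have h17 : 0 ≤ La * (ep * G0) :=
      mul_nonneg (by linarith) (mul_nonneg hep.le hG0pos.le)
    have e20 : La * (1 + ep) * (G0 - (Y : ℝ) ^ 130) =
        La * G0 + La * (ep * G0) - La * (1 + ep) * (Y : ℝ) ^ 130 := by ring
    have e21 : La * (1 + ep / 20) * G0 = La * G0 + La * (ep * G0) / 20 := by ring
    have e22 : La * (ep / 4 * G0) = La * (ep * G0) / 4 := by ring
    have e23 : La * (ep / 400 * G0) = La * (ep * G0) / 400 := by ring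
    rw [e20]
    rw [e21] at h11
    rw [e22] at h13
    rw [e23] at hLG
    linarith

end Pool.Agent.Helper59.Lit
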