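import Pool.Agent.Helper59.Lit.RegCommon

/-!
# Near `π` the new polynomial is a small perturbation of the flat one
-/

set_option autoImplicit false

namespace Pool.Agent.Helper59.Lit

open Finset

theorem norm_exp8 (Y : ℕ) (hY : 100 ≤ Y) (θ : ℝ) (z : ℂ) (hz : ‖z‖ ≤ 1) :
    ‖Complex.exp (Complex.I * (8 * (mm Y : ℂ)) * ((θ : ℂ) + z / ((Y : ℂ) ^ 256)))‖ ≤ 2 := by
  have hY0 := Ypos Y hY
  set s : ℂ := (θ : ℂ) + z / ((Y : ℂ) ^ 256) with hs
  have him : |s.im| ≤ 1 / (Y : ℝ) ^ 256 := im_div_pow Y 256 hY θ z hz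
  rw [Complex.norm_exp]
  have e2 : (Complex.I * (8 * (mm Y : ℂ)) * s).re = -(8 * mm Y * s.im) := by
    simp
  rw [e2]
  have hm : (mm Y : ℝ) * 16 ≤ (Y : ℝ) ^ 256 := by
    have := (params Y hY).2.1
    have : (((16 * mm Y : ℕ)) : ℝ) ≤ ((Y ^ 256 : ℕ) : ℝ) := by exact_mod_cast this
    push_cast at this
    linarith
  have h3 : -(8 * (mm Y : ℝ) * s.im) ≤ 1 / 2 := by
    have h4 := neg_abs_le s.im
    have h5 : (0 : ℝ) ≤ mm Y := Nat.cast_nonneg _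
    have h6 : (mm Y : ℝ) * |s.im| ≤ 1 / 16 := by
      calc (mm Y : ℝ) * |s.im| ≤ mm Y * (1 / (Y : ℝ) ^ 256) :=
            mul_le_mul_of_nonneg_left him h5
        _ ≤ 1 / 16 := by
            rw [mul_one_div, div_le_div_iff₀ (pow_pos hY0 _) (by norm_num)]
            linarith
    nlinarith
  have h4 : Real.exp (1 / 2) ≤ 2 := by
    have h5 := Real.exp_one_lt_d9
    have h6 : Real.exp (1 / 2) * Real.exp (1 / 2) = Real.exp 1 := by
      rw [← Real.exp_add]; norm_num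
    nlinarith [Real.exp_pos (1 / 2)]
  exact le_trans (Real.exp_le_exp.mpr h3) h4

theorem hh_bounds (Y : ℕ) (hY : 100 ≤ Y) : 0 ≤ hh Y ∧ hh Y ≤ 1 / 100 := by
  have hY0 := Ypos Y hY
  have hY1 : (100 : ℝ) ≤ Y := by exact_mod_cast hY
  unfold hh
  refine ⟨by positivity, ?_⟩
  rw [div_le_div_iff₀ (pow_pos hY0 _) (by norm_num)]
  have : (Y : ℝ) ^ 1 ≤ (Y : ℝ) ^ 6 := pow_le_pow_right₀ (by linarith) (by norm_num)
  rw [pow_one] at this
  linarith

theorem region5 (L0 C0 CR D0 ρ c1 C2 C3 La : ℝ) (k : ℕ) (_hk : 1 ≤ k) (hL0 : 1 ≤ L0)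
    (_hC0 : 1 ≤ C0) (_hLa : 1 ≤ La) (hCR : 1 ≤ CR) (hC2 : 1 ≤ C2) (hC3 : 1 ≤ C3) :
    ∃ Y0 : ℕ, ∀ Y : ℕ, Y0 ≤ Y → ∀ (a be al e : ℕ → ℤ) (v : ℂ),
      StepData L0 C0 La CR D0 ρ c1 C2 C3 k Y a be al e v → ∀ θ : ℝ, 1 ≤ θ → θ ≤ Real.pi →
      ‖BB Y be (θ : ℂ)‖ / 2 ≤ ‖PN k Y a e (θ : ℂ)‖ ∧
      ‖PN k Y a e (θ : ℂ)‖ ≤ 2 * ‖BB Y be (θ : ℂ)‖ ∧
      ∀ z : ℂ, ‖z‖ ≤ 1 → ‖Complex.exp (-(Complex.I * (k : ℂ) * z)) *
        PN k Y a e ((θ : ℂ) + z / ((Y : ℂ) ^ 256))‖ ≤ 2 * L0 * ‖BB Y be (θ : ℂ)‖ := by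
  obtain ⟨Y1, hY1⟩ := exists_nat_ge (40 * k * Real.exp (2 * k) + 6 + 2)
  obtain ⟨Y2, hY2⟩ := exists_nat_ge (C2 * C3 * CR * 34)
  refine ⟨max 100 (max Y1 Y2), ?_⟩
  intro Y hYY a be al e v D θ hθ1 hθπ
  have hY : 100 ≤ Y := le_trans (le_max_left _ _) hYY
  have hYa : (40 * k * Real.exp (2 * k) + 6 + 2) ≤ (Y : ℝ) :=
    le_trans hY1 (by exact_mod_cast le_trans (le_trans (le_max_left _ _) (le_max_right _ _)) hYY)
  have hYb : C2 * C3 * CR * 34 ≤ (Y : ℝ) :=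
    le_trans hY2 (by exact_mod_cast le_trans (le_trans (le_max_right _ _) (le_max_right _ _)) hYY)
  have hY0 := Ypos Y hY
  have hY100 : (100 : ℝ) ≤ Y := by exact_mod_cast hY
  obtain ⟨p1, p2, p3, p4, p5, p6, p7, p8, p9, p10, p11, p12, p13, p14⟩ := params Y hY
  have hθ0 : 0 ≤ θ := by linarith
  -- main error bound
  have key : ∀ z : ℂ, ‖z‖ ≤ 1 → ∃ W : ℂ, ‖W‖ ≤ (Y : ℝ) ^ 127 ∧
      Complex.exp (-(Complex.I * (k : ℂ) * z)) * PN k Y a e ((θ : ℂ) + z / ((Y : ℂ) ^ 256)) =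
      Complex.exp (Complex.I * ((k * Y ^ 256 : ℕ) : ℂ) * (θ : ℂ)) *
        (((1 - hh Y : ℝ) : ℂ) * BB Y be ((θ : ℂ) + z / ((Y : ℂ) ^ 256))) + W := by
    intro z hz
    obtain ⟨E, hE, hsplit⟩ := PN_split hY D θ hθ0 hθπ z hz
    set s : ℂ := (θ : ℂ) + z / ((Y : ℂ) ^ 256) with hs
    refine ⟨Complex.exp (-(Complex.I * (k : ℂ) * z)) * GG k Y a s +
      Complex.exp (Complex.I * ((k * Y ^ 256 : ℕ) : ℂ) * (θ : ℂ)) *
        (Complex.exp (Complex.I * (8 * (mm Y : ℂ)) * s) *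
            (v * tt CR k Y a be al s) + E), ?_, ?_⟩
    · -- norms
      have n1 : ‖Complex.exp (-(Complex.I * (k : ℂ) * z))‖ ≤ Real.exp k := by
        have := norm_exp_negI_mul (k : ℝ) z hz (Nat.cast_nonneg k)
        simpa using this
      have n2 : ‖GG k Y a s‖ ≤ (k * (Y : ℝ) ^ 64 * Real.exp k) * 40 := by
        simp only [GG, QQ]
        rw [norm_mul]
        apply mul_le_mul (PP_triv k Y hY a D.good.sign θ z hz) _ (norm_nonneg _) (by positivity)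
        refine le_trans (rq_up Y hY θ (by linarith) hθπ z hz) ?_
        rw [div_le_iff₀ (by linarith)]
        linarith
      have n3 : ‖Complex.exp (Complex.I * ((k * Y ^ 256 : ℕ) : ℂ) * (θ : ℂ))‖ = 1 :=
        norm_exp_nat_real _ _
      have n4 := norm_exp8 Y hY θ z hz
      rw [← hs] at n4
      have n5 : ‖tt CR k Y a be al s‖ ≤ 1 := by
        have hc2 : cell (mm Y) (ii2 Y) ≤ 1 / 2 := by
          refine le_trans p6 ?_
          rw [div_le_div_iff₀ (pow_pos hY0 _) (by norm_num)]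
          have : (Y : ℝ) ^ 1 ≤ (Y : ℝ) ^ 60 := pow_le_pow_right₀ (by linarith) (by norm_num)
          rw [pow_one] at this
          linarith
        have h1 := D.tright θ z (by linarith) hθπ hz
        rw [← hs] at h1
        have h2 : RR CR k Y a be (ii2 Y) ≤ C3 * CR * (Y : ℝ) ^ 129 := by
          refine le_trans D.Rright ?_
          apply mul_le_mul_of_nonneg_left _ (by positivity)
          have := BB_up' hY D.flat (cell (mm Y) (ii2 Y))
          have := norm_nonneg (BB Y be (cell (mm Y) (ii2 Y) : ℂ))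
          linarith
        have h3 : (Y : ℝ) ^ 256 / 34 ≤ (1 + mm Y * (θ - cell (mm Y) (ii2 Y))) ^ 8 := by
          have h4 : (Y : ℝ) ^ 256 / 34 ≤ mm Y * (θ - cell (mm Y) (ii2 Y)) := by
            have h6 : (0 : ℝ) ≤ mm Y := Nat.cast_nonneg _
            have h7 : (mm Y : ℝ) * (1 / 2) ≤ mm Y * (θ - cell (mm Y) (ii2 Y)) :=
              mul_le_mul_of_nonneg_left (by linarith) h6
            linarith
          have h5 : (0 : ℝ) ≤ (Y : ℝ) ^ 256 / 34 := by positivity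
          set x : ℝ := mm Y * (θ - cell (mm Y) (ii2 Y)) with hx
          have h6 : (1 : ℝ) ≤ 1 + x := by linarith
          have h7 : (1 + x) ^ 1 ≤ (1 + x) ^ 8 := pow_le_pow_right₀ h6 (by norm_num)
          rw [pow_one] at h7
          linarith
        have hpos : (0 : ℝ) < (1 + mm Y * (θ - cell (mm Y) (ii2 Y))) ^ 8 :=
          lt_of_lt_of_le (by positivity) h3
        refine le_trans h1 ?_
        rw [div_le_one hpos]
        refine le_trans ?_ h3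
        rw [le_div_iff₀ (by norm_num)]
        calc C2 * RR CR k Y a be (ii2 Y) * 34 ≤ C2 * (C3 * CR * (Y : ℝ) ^ 129) * 34 := by
              apply mul_le_mul_of_nonneg_right _ (by norm_num)
              exact mul_le_mul_of_nonneg_left h2 (by linarith)
          _ = (C2 * C3 * CR * 34) * (Y : ℝ) ^ 129 := by ring
          _ ≤ Y * (Y : ℝ) ^ 129 := mul_le_mul_of_nonneg_right hYb (by positivity)
          _ = (Y : ℝ) ^ 130 := by ring
          _ ≤ (Y : ℝ) ^ 256 := pow_le_pow_right₀ (by linarith) (by norm_num)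
      have m1 : ‖Complex.exp (-(Complex.I * (k : ℂ) * z)) * GG k Y a s‖ ≤
          40 * k * Real.exp (2 * k) * (Y : ℝ) ^ 64 := by
        rw [norm_mul]
        calc _ ≤ Real.exp k * ((k * (Y : ℝ) ^ 64 * Real.exp k) * 40) :=
              mul_le_mul n1 n2 (norm_nonneg _) (Real.exp_pos _).le
          _ = 40 * k * (Real.exp k * Real.exp k) * (Y : ℝ) ^ 64 := by ring
          _ = 40 * k * Real.exp (2 * k) * (Y : ℝ) ^ 64 := by
              rw [← Real.exp_add]; ring_nf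
      have m2 : ‖Complex.exp (Complex.I * (8 * (mm Y : ℂ)) * s) *
            (v * tt CR k Y a be al s)‖ ≤ 6 := by
        rw [norm_mul, norm_mul]
        have h10 : ‖v‖ * ‖tt CR k Y a be al s‖ ≤ 3 * 1 :=
          mul_le_mul D.v3 n5 (norm_nonneg _) (by norm_num)
        calc _ ≤ 2 * (3 * 1) :=
              mul_le_mul n4 h10 (mul_nonneg (norm_nonneg _) (norm_nonneg _)) (by norm_num)
          _ = 6 := by norm_num
      have m3 : (1 : ℝ) ≤ (Y : ℝ) ^ 126 := one_le_pow₀ (by linarith)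
      have m4 : (Y : ℝ) ^ 64 ≤ (Y : ℝ) ^ 126 := pow_le_pow_right₀ (by linarith) (by norm_num)
      calc _ ≤ ‖Complex.exp (-(Complex.I * (k : ℂ) * z)) * GG k Y a s‖ +
            ‖Complex.exp (Complex.I * ((k * Y ^ 256 : ℕ) : ℂ) * (θ : ℂ)) *
            (Complex.exp (Complex.I * (8 * (mm Y : ℂ)) * s) *
            (v * tt CR k Y a be al s) + E)‖ := norm_add_le _ _
        _ ≤ 40 * k * Real.exp (2 * k) * (Y : ℝ) ^ 64 + (6 + 2 * (Y : ℝ) ^ 126) := by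
            apply add_le_add m1
            rw [norm_mul, n3, one_mul]
            refine le_trans (norm_add_le _ _) ?_
            exact add_le_add m2 hE
        _ ≤ 40 * k * Real.exp (2 * k) * (Y : ℝ) ^ 126 + (6 * (Y : ℝ) ^ 126 +
              2 * (Y : ℝ) ^ 126) := by
            have h5 : 40 * k * Real.exp (2 * k) * (Y : ℝ) ^ 64 ≤
                40 * k * Real.exp (2 * k) * (Y : ℝ) ^ 126 :=
              mul_le_mul_of_nonneg_left m4 (by positivity)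
            linarith
        _ = (40 * k * Real.exp (2 * k) + 6 + 2) * (Y : ℝ) ^ 126 := by ring
        _ ≤ Y * (Y : ℝ) ^ 126 := mul_le_mul_of_nonneg_right hYa (by positivity)
        _ = (Y : ℝ) ^ 127 := by ring
    · rw [hsplit]; ring
  have hB := BB_low' hY D.flat θ
  obtain ⟨hh0, hh1⟩ := hh_bounds Y hY
  have hn3 : ‖Complex.exp (Complex.I * ((k * Y ^ 256 : ℕ) : ℂ) * (θ : ℂ))‖ = 1 :=
    norm_exp_nat_real _ _
  have hhn : ‖((1 - hh Y : ℝ) : ℂ)‖ = 1 - hh Y := by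
    rw [Complex.norm_real, Real.norm_eq_abs, abs_of_nonneg (by linarith)]
  obtain ⟨W0, hW0, hP0⟩ := key 0 (by simp)
  have hP0' : PN k Y a e (θ : ℂ) = Complex.exp (Complex.I * ((k * Y ^ 256 : ℕ) : ℂ) * (θ : ℂ)) *
        (((1 - hh Y : ℝ) : ℂ) * BB Y be (θ : ℂ)) + W0 := by
    simpa using hP0
  have hmain : ‖Complex.exp (Complex.I * ((k * Y ^ 256 : ℕ) : ℂ) * (θ : ℂ)) *
        (((1 - hh Y : ℝ) : ℂ) * BB Y be (θ : ℂ))‖ = (1 - hh Y) * ‖BB Y be (θ : ℂ)‖ := by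
    rw [norm_mul, norm_mul, hn3, hhn, one_mul]
  have hBn := norm_nonneg (BB Y be (θ : ℂ))
  refine ⟨?_, ?_, ?_⟩
  · rw [hP0']
    have h1 : ‖Complex.exp (Complex.I * ((k * Y ^ 256 : ℕ) : ℂ) * (θ : ℂ)) *
        (((1 - hh Y : ℝ) : ℂ) * BB Y be (θ : ℂ))‖ - ‖W0‖ ≤ ‖Complex.exp (Complex.I * ((k * Y ^ 256 : ℕ) : ℂ) * (θ : ℂ)) *
        (((1 - hh Y : ℝ) : ℂ) * BB Y be (θ : ℂ)) + W0‖ := norm_sub_le_norm_add _ _
    rw [hmain] at h1
    nlinarith
  · rw [hP0']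
    refine le_trans (norm_add_le _ _) ?_
    rw [hmain]
    nlinarith
  · intro z hz
    obtain ⟨W, hW, hP⟩ := key z hz
    rw [hP]
    refine le_trans (norm_add_le _ _) ?_
    rw [norm_mul, norm_mul, hn3, hhn, one_mul]
    have hreg := D.flat.reg θ z hz
    have e1 : ((Y ^ 256 : ℕ) : ℂ) = (Y : ℂ) ^ 256 := by push_cast; rfl
    rw [e1] at hreg
    have h1 : ‖BB Y be ((θ : ℂ) + z / ((Y : ℂ) ^ 256))‖ ≤ L0 * ‖BB Y be (θ : ℂ)‖ := hreg
    have h2 : (1 - hh Y) * ‖BB Y be ((θ : ℂ) + z / ((Y : ℂ) ^ 256))‖ ≤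
        1 * (L0 * ‖BB Y be (θ : ℂ)‖) :=
      mul_le_mul (by linarith) h1 (norm_nonneg _) (by norm_num)
    have h3 : ‖BB Y be (θ : ℂ)‖ ≤ L0 * ‖BB Y be (θ : ℂ)‖ := le_mul_of_one_le_left hBn hL0
    have h4 : 10 * ‖W‖ ≤ ‖BB Y be (θ : ℂ)‖ := by linarith
    rw [one_mul] at h2
    linarith

end Pool.Agent.Helper59.Lit
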