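import Pool.Agent.Helper59.Lit.RegNear
import Pool.Agent.Helper59.Lit.Region5

/-!
# Region II: left neighbourhood of the first bump, including the first crossing
-/

set_option autoImplicit false

namespace Pool.Agent.Helper59.Lit

open Finset

/-- final step of region II -/
theorem r2_finish {L0 K ρ G R2 Ls : ℝ} {k Y : ℕ} {a e : ℕ → ℤ} {θ : ℝ} (hk : 1 ≤ k)
    (hL0 : 1 ≤ L0) (hK : 0 ≤ K) (hρ : 0 < ρ) (hG : 0 < G)
    (hR2 : R2 ≤ ρ / 4 * G) (hρ1 : ρ ≤ 1) (hGY : (Y : ℝ) ^ 120 ≤ ρ / 2 * G)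
    (hLs : Ls = (8 * L0 + 18 * K + 3) * 2 / ρ)
    (g b t : ℂ → ℂ)
    (hg : ∀ z : ℂ, ‖z‖ ≤ 1 → ‖g z‖ ≤ 8 * L0 * G)
    (hb : ∀ z : ℂ, ‖z‖ ≤ 1 → ‖b z‖ ≤ R2)
    (ht : ∀ z : ℂ, ‖z‖ ≤ 1 → ‖t z‖ ≤ 6 * K * G)
    (h0 : 3 / 4 * (ρ * G) - ‖b 0‖ ≤ ‖g 0 +
      Complex.exp (Complex.I * ((k * Y ^ 256 : ℕ) : ℂ) * (θ : ℂ)) * (b 0 + t 0)‖)
    (hsplit : ∀ z : ℂ, ‖z‖ ≤ 1 →
      Complex.exp (-(Complex.I * (((k : ℝ) - 1 : ℝ) : ℂ) * z)) *
        PN k Y a e ((θ : ℂ) + z / ((Y : ℂ) ^ 256)) =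
      g z + Complex.exp (Complex.I * (1 : ℂ) * z) *
        (Complex.exp (Complex.I * ((k * Y ^ 256 : ℕ) : ℂ) * (θ : ℂ)) * (b z + t z))) :
    PtGood Ls k Y a e θ := by
  have hn3 : ‖Complex.exp (Complex.I * ((k * Y ^ 256 : ℕ) : ℂ) * (θ : ℂ))‖ = 1 :=
    norm_exp_nat_real _ _
  have hP0 := hsplit 0 (by simp)
  have hP0' : PN k Y a e (θ : ℂ) = g 0 +
      Complex.exp (Complex.I * ((k * Y ^ 256 : ℕ) : ℂ) * (θ : ℂ)) * (b 0 + t 0) := by
    simpa using hP0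
  have hb0 := hb 0 (by simp)
  have hρG : 0 < ρ * G := mul_pos hρ hG
  have hlow : ρ / 2 * G ≤ ‖PN k Y a e (θ : ℂ)‖ := by
    rw [hP0']
    refine le_trans ?_ h0
    linarith
  refine ⟨le_trans hGY hlow, ((k : ℝ) - 1), ?_, ?_⟩
  · have : (1 : ℝ) ≤ k := by exact_mod_cast hk
    rw [abs_of_nonneg (by linarith)]
    linarith
  · intro z hz
    rw [hsplit z hz]
    have h8 : ‖Complex.exp (Complex.I * (1 : ℂ) * z)‖ ≤ 3 := by
      have h9 := norm_exp_I_mul 1 z hz (by norm_num)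
      have h10 := Real.exp_one_lt_d9
      have h11 : ((1 : ℝ) : ℂ) = 1 := by norm_num
      rw [h11] at h9
      linarith
    have h1 : ‖b z + t z‖ ≤ R2 + 6 * K * G :=
      le_trans (norm_add_le _ _) (add_le_add (hb z hz) (ht z hz))
    have hR20 : 0 ≤ R2 := le_trans (norm_nonneg _) hb0
    have h2 : ‖g z + Complex.exp (Complex.I * (1 : ℂ) * z) *
        (Complex.exp (Complex.I * ((k * Y ^ 256 : ℕ) : ℂ) * (θ : ℂ)) * (b z + t z))‖ ≤
        8 * L0 * G + 3 * (R2 + 6 * K * G) := by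
      refine le_trans (norm_add_le _ _) (add_le_add (hg z hz) ?_)
      rw [norm_mul, norm_mul, hn3, one_mul]
      exact mul_le_mul h8 h1 (norm_nonneg _) (by norm_num)
    refine le_trans h2 ?_
    have hR3 : R2 ≤ G := by
      have : ρ / 4 * G ≤ 1 * G := mul_le_mul_of_nonneg_right (by linarith) hG.le
      linarith
    have h3 : 8 * L0 * G + 3 * (R2 + 6 * K * G) ≤ (8 * L0 + 18 * K + 3) * G := by
      have : (8 * L0 + 18 * K + 3) * G = 8 * L0 * G + 18 * (K * G) + 3 * G := by ring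
      rw [this]
      have : 6 * K * G = 6 * (K * G) := by ring
      rw [this]
      linarith
    refine le_trans h3 ?_
    rw [hLs]
    have h5 : (8 * L0 + 18 * K + 3) * G = ((8 * L0 + 18 * K + 3) * 2 / ρ) * (ρ / 2 * G) := by
      field_simp
    rw [h5]
    apply mul_le_mul_of_nonneg_left hlow
    apply div_nonneg _ hρ.le
    linarith

theorem region2 (L0 C0 CR c1 C2 C3 : ℝ) (hL0 : 1 ≤ L0) (hC0 : 1 ≤ C0) (hCR : 1 ≤ CR)
    (_hc1 : 0 < c1) (hC2 : 1 ≤ C2) (hC3 : 1 ≤ C3) : ∃ D1 : ℝ, 1 ≤ D1 ∧ ∀ D0 ρ : ℝ, D1 ≤ D0 →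
    0 < ρ → ρ ≤ 1 → ∃ Ls : ℝ, 1 ≤ Ls ∧ ∀ (La : ℝ) (k : ℕ), 1 ≤ La → 1 ≤ k →
    ∃ Y0 : ℕ, ∀ Y : ℕ, Y0 ≤ Y → ∀ (a be al e : ℕ → ℤ) (v : ℂ),
      StepData L0 C0 La CR D0 ρ c1 C2 C3 k Y a be al e v → ∀ θ : ℝ,
      cell (mm Y) (ii1 Y) - kap Y / (16 * mm Y) ≤ θ → θ ≤ cell (mm Y) (ii1 Y) →
      PtGood Ls k Y a e θ := by
  set K : ℝ := 1700 * C0 * C2 * C3 * CR with hK
  have hK1 : 1 ≤ K := by
    have h1 : 1 ≤ C0 * C2 := by nlinarith
    have h2 : 1 ≤ C0 * C2 * C3 := by nlinarith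
    have h3 : 1 ≤ C0 * C2 * C3 * CR := by nlinarith
    have : K = 1700 * (C0 * C2 * C3 * CR) := by rw [hK]; ring
    rw [this]; linarith
  refine ⟨12 * K, by linarith, ?_⟩
  intro D0 ρ hD0 hρ hρ1
  refine ⟨(8 * L0 + 18 * K + 3) * 2 / ρ, ?_, ?_⟩
  · rw [le_div_iff₀ hρ]; linarith
  intro La k hLa hk
  obtain ⟨Y1, hY1⟩ := exists_nat_ge ((L0 + 2) * 1800 * C0 * 4 / ρ)
  refine ⟨max 100 Y1, ?_⟩
  intro Y hYY a be al e v D θ hθ1 hθ2
  have hY : 100 ≤ Y := le_trans (le_max_left _ _) hYY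
  have hYa : (L0 + 2) * 1800 * C0 * 4 ≤ ρ * (Y : ℝ) := by
    have h1 : Y1 ≤ Y := le_trans (le_max_right _ _) hYY
    have h2 : (L0 + 2) * 1800 * C0 * 4 / ρ ≤ (Y : ℝ) := le_trans hY1 (by exact_mod_cast h1)
    rw [div_le_iff₀ hρ] at h2
    linarith
  have hY0 := Ypos Y hY
  have hY100 : (100 : ℝ) ≤ Y := by exact_mod_cast hY
  obtain ⟨p1, p2, p3, p4, p5, p6, p7, p8, p9, p10, p11, p12, p13, p14⟩ := params Y hY
  have hm : (0 : ℝ) < mm Y := by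
    have : (10 : ℝ) ≤ mm Y := by exact_mod_cast p1
    linarith
  have hkap : (0 : ℝ) < kap Y := by
    have : (0 : ℝ) < (Y : ℝ) ^ 64 := pow_pos hY0 _
    linarith
  have hmk : (mm Y : ℝ) = (Y : ℝ) ^ 192 * kap Y := by simp [mm]
  have hY192 : (0 : ℝ) < (Y : ℝ) ^ 192 := pow_pos hY0 _
  have hY176 : (0 : ℝ) < (Y : ℝ) ^ 176 := pow_pos hY0 _
  have hkm : (kap Y : ℝ) / (16 * mm Y) = 1 / (16 * (Y : ℝ) ^ 192) := by
    rw [hmk]; field_simp
  have hπ3 := Real.pi_gt_three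
  set c : ℝ := cell (mm Y) (ii1 Y) with hc
  have hcpos : 0 < c := lt_of_lt_of_le (by positivity) p8
  -- theta is at least half of c
  have hsmall : (kap Y : ℝ) / (16 * mm Y) ≤ c / 2 := by
    rw [hkm]
    have h1 : 1 / (16 * (Y : ℝ) ^ 192) ≤ 7 / (10 * (Y : ℝ) ^ 176) / 2 := by
      rw [div_div, div_le_div_iff₀ (by positivity) (by positivity)]
      have h2 : (Y : ℝ) ^ 176 ≤ (Y : ℝ) ^ 192 := pow_le_pow_right₀ (by linarith) (by norm_num)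
      linarith
    linarith
  have hθc : c / 2 ≤ θ := by linarith
  have hθ0 : 0 ≤ θ := by linarith
  have hθ176 : θ ≤ 1 / (Y : ℝ) ^ 176 := le_trans hθ2 p9
  have hθ176' : θ ≤ Real.pi / (Y : ℝ) ^ 176 :=
    le_trans hθ176 (div_le_div_of_nonneg_right (by linarith) hY176.le)
  have hθπ : θ ≤ Real.pi := by
    refine le_trans hθ176 ?_
    rw [div_le_iff₀ hY176]
    have h1 : (1 : ℝ) ≤ (Y : ℝ) ^ 176 := one_le_pow₀ (by linarith)
    nlinarith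
  -- the variable u
  set u : ℝ := mm Y * (c - θ) with hu
  have hu0 : 0 ≤ u := mul_nonneg hm.le (by linarith)
  have hu16 : u ≤ kap Y / 16 := by
    have h1 : (mm Y : ℝ) * (c - θ) ≤ mm Y * (kap Y / (16 * mm Y)) :=
      mul_le_mul_of_nonneg_left (by linarith) hm.le
    have h2 : (mm Y : ℝ) * (kap Y / (16 * mm Y)) = kap Y / 16 := by field_simp
    rw [h2] at h1
    exact h1
  -- near pi
  have hnear1 : |(Y : ℝ) ^ 192 * c - 2 * Real.pi * ((Y ^ 16 / 8 : ℕ) : ℝ) - Real.pi| ≤ 1 := by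
    rw [hc, p13]
    linarith
  have hnear2 : |(Y : ℝ) ^ 192 * θ - 2 * Real.pi * ((Y ^ 16 / 8 : ℕ) : ℝ) - Real.pi| ≤ 1 := by
    have e1 : (Y : ℝ) ^ 192 * θ - 2 * Real.pi * ((Y ^ 16 / 8 : ℕ) : ℝ) - Real.pi =
        -((Y : ℝ) ^ 192 * (c - θ)) +
        (cell (kap Y) (ii1 Y) - 2 * Real.pi * ((Y ^ 16 / 8 : ℕ) : ℝ) - Real.pi) := by
      rw [← p13, ← hc]; ring
    rw [e1]
    refine le_trans (abs_add_le _ _) ?_
    rw [abs_neg, abs_of_nonneg (mul_nonneg hY192.le (by linarith))]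
    have h1 : (Y : ℝ) ^ 192 * (c - θ) ≤ 1 / 16 := by
      have h2 : (Y : ℝ) ^ 192 * (c - θ) ≤ (Y : ℝ) ^ 192 * (1 / (16 * (Y : ℝ) ^ 192)) :=
        mul_le_mul_of_nonneg_left (by rw [← hkm]; linarith) hY192.le
      have h3 : (Y : ℝ) ^ 192 * (1 / (16 * (Y : ℝ) ^ 192)) = 1 / 16 := by field_simp
      linarith
    linarith
  -- the size of g
  set G : ℝ := ‖GG k Y a (θ : ℂ)‖ with hG
  have hGeq : G = ‖PP k Y a ((Y : ℂ) ^ 192 * (θ : ℂ))‖ * ‖QQ Y (θ : ℂ)‖ := by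
    rw [hG]; simp only [GG]; rw [norm_mul]
  set P1 : ℝ := ‖PP k Y a (cell (kap Y) (ii1 Y) : ℂ)‖ with hP1
  have hpoly := near_poly hY D.good θ c hnear2 hnear1
  rw [hc, PP_cell k Y hY a (ii1 Y), ← hc, ← hP1] at hpoly
  have hYu : (Y : ℝ) ^ 256 * |θ - c| ≤ 17 * u := by
    rw [abs_sub_comm, abs_of_nonneg (by linarith)]
    calc (Y : ℝ) ^ 256 * (c - θ) ≤ 17 * mm Y * (c - θ) :=
          mul_le_mul_of_nonneg_right p3 (by linarith)
      _ = 17 * u := by rw [hu]; ring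
  have hPθ : P1 ≤ 4 * C0 * (1 + 17 * u) * ‖PP k Y a ((Y : ℂ) ^ 192 * (θ : ℂ))‖ := by
    refine le_trans hpoly ?_
    apply mul_le_mul_of_nonneg_right _ (norm_nonneg _)
    exact mul_le_mul_of_nonneg_left (by linarith) (by linarith)
  have hqθ : 1 / (25 * c) ≤ ‖QQ Y (θ : ℂ)‖ := by
    have h1 := rq_low Y hY θ hθ0 hθ176'
    refine le_trans ?_ h1
    have h2 : (Y : ℝ) ^ 352 * (c / 2) / 5 ≤ (Y : ℝ) ^ 352 * θ / 5 := by
      apply div_le_div_of_nonneg_right _ (by norm_num)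
      exact mul_le_mul_of_nonneg_left hθc (pow_pos hY0 _).le
    refine le_trans ?_ h2
    rw [div_le_div_iff₀ (by linarith) (by norm_num)]
    have h3 : (7 / 10 : ℝ) ≤ (Y : ℝ) ^ 176 * c := by
      have h4 : (Y : ℝ) ^ 176 * (7 / (10 * (Y : ℝ) ^ 176)) ≤ (Y : ℝ) ^ 176 * c :=
        mul_le_mul_of_nonneg_left p8 hY176.le
      have h5 : (Y : ℝ) ^ 176 * (7 / (10 * (Y : ℝ) ^ 176)) = 7 / 10 := by field_simp
      rw [h5] at h4
      exact h4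
    have h6 : (49 / 100 : ℝ) ≤ (Y : ℝ) ^ 352 * (c * c) := by
      have h7 : (7 / 10 : ℝ) * (7 / 10) ≤ ((Y : ℝ) ^ 176 * c) * ((Y : ℝ) ^ 176 * c) :=
        mul_le_mul h3 h3 (by norm_num) (by linarith)
      have h8 : ((Y : ℝ) ^ 176 * c) * ((Y : ℝ) ^ 176 * c) = (Y : ℝ) ^ 352 * (c * c) := by ring
      rw [h8] at h7
      norm_num at h7 ⊢
      exact h7
    have h9 : (Y : ℝ) ^ 352 * (c / 2) * (25 * c) = 25 / 2 * ((Y : ℝ) ^ 352 * (c * c)) := by ring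
    rw [h9]
    linarith
  -- Gamma = P1 / c is at most 100 C0 (1 + 17 u) G
  have h1u : 0 < 1 + 17 * u := by linarith
  have hΓ : P1 / c ≤ 100 * C0 * (1 + 17 * u) * G := by
    have hqpos : 0 < 1 / (25 * c) := by positivity
    have h1 : P1 * (1 / (25 * c)) ≤
        4 * C0 * (1 + 17 * u) * ‖PP k Y a ((Y : ℂ) ^ 192 * (θ : ℂ))‖ * ‖QQ Y (θ : ℂ)‖ := by
      apply mul_le_mul hPθ hqθ hqpos.le
      exact mul_nonneg (mul_nonneg (by linarith) h1u.le) (norm_nonneg _)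
    have h2 : P1 * (1 / (25 * c)) = P1 / c / 25 := by
      field_simp
    rw [h2] at h1
    rw [hGeq]
    have h3 : 100 * C0 * (1 + 17 * u) * (‖PP k Y a ((Y : ℂ) ^ 192 * (θ : ℂ))‖ * ‖QQ Y (θ : ℂ)‖) =
        25 * (4 * C0 * (1 + 17 * u) * ‖PP k Y a ((Y : ℂ) ^ 192 * (θ : ℂ))‖ * ‖QQ Y (θ : ℂ)‖) := by
      ring
    rw [h3]
    linarith
  have hP1low : (Y : ℝ) ^ 30 ≤ P1 := D.good.lower (cell (kap Y) (ii1 Y))
  have hΓlow : (Y : ℝ) ^ 206 ≤ P1 / c := by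
    rw [le_div_iff₀ hcpos]
    have h1 : (Y : ℝ) ^ 206 * c ≤ (Y : ℝ) ^ 206 * (1 / (Y : ℝ) ^ 176) :=
      mul_le_mul_of_nonneg_left p9 (pow_pos hY0 _).le
    have h2 : (Y : ℝ) ^ 206 * (1 / (Y : ℝ) ^ 176) = (Y : ℝ) ^ 30 := by
      rw [mul_one_div, div_eq_iff hY176.ne', ← pow_add]
    rw [h2] at h1
    linarith
  have hGlow : (Y : ℝ) ^ 142 ≤ 1800 * C0 * G := by
    have hG0' : 0 ≤ G := norm_nonneg _
    have h1 : 1 + 17 * u ≤ 18 * (Y : ℝ) ^ 64 := by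
      have h2 : (1 : ℝ) ≤ (Y : ℝ) ^ 64 := one_le_pow₀ (by linarith)
      linarith
    have h3 : 100 * C0 * (1 + 17 * u) * G ≤ 100 * C0 * (18 * (Y : ℝ) ^ 64) * G := by
      apply mul_le_mul_of_nonneg_right _ hG0'
      exact mul_le_mul_of_nonneg_left h1 (by linarith)
    have h4 : (Y : ℝ) ^ 206 ≤ (1800 * C0 * G) * (Y : ℝ) ^ 64 := by
      refine le_trans hΓlow (le_trans hΓ (le_trans h3 (le_of_eq ?_)))
      ring
    have h5 : (Y : ℝ) ^ 206 = (Y : ℝ) ^ 142 * (Y : ℝ) ^ 64 := by ring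
    rw [h5] at h4
    exact le_of_mul_le_mul_right h4 (pow_pos hY0 _)
  have hG0 : 0 < G := by
    have h1 : (0 : ℝ) < (Y : ℝ) ^ 142 := pow_pos hY0 _
    have h2 : 0 < 1800 * C0 * G := by linarith
    by_contra hcon
    push Not at hcon
    have : 1800 * C0 * G ≤ 0 := mul_nonpos_of_nonneg_of_nonpos (by linarith) hcon
    linarith
  -- the negligible terms
  have hR2 : (L0 + 2) * (Y : ℝ) ^ 129 ≤ ρ / 4 * G := by
    have h1 : ((L0 + 2) * 1800 * C0 * 4) * (Y : ℝ) ^ 129 ≤ ρ * Y * (Y : ℝ) ^ 129 :=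
      mul_le_mul_of_nonneg_right hYa (pow_pos hY0 _).le
    have h2 : ρ * Y * (Y : ℝ) ^ 129 ≤ ρ * (Y : ℝ) ^ 142 := by
      have h3 : (Y : ℝ) ^ 130 ≤ (Y : ℝ) ^ 142 := pow_le_pow_right₀ (by linarith) (by norm_num)
      have h4 : ρ * Y * (Y : ℝ) ^ 129 = ρ * (Y : ℝ) ^ 130 := by ring
      rw [h4]
      exact mul_le_mul_of_nonneg_left h3 hρ.le
    have h5 : ρ * (Y : ℝ) ^ 142 ≤ ρ * (1800 * C0 * G) := mul_le_mul_of_nonneg_left hGlow hρ.le
    have h6 : ((L0 + 2) * (Y : ℝ) ^ 129) * (7200 * C0) ≤ (ρ / 4 * G) * (7200 * C0) := by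
      have e1 : ((L0 + 2) * (Y : ℝ) ^ 129) * (7200 * C0) =
        ((L0 + 2) * 1800 * C0 * 4) * (Y : ℝ) ^ 129 := by ring
      have e2 : (ρ / 4 * G) * (7200 * C0) = ρ * (1800 * C0 * G) := by ring
      rw [e1, e2]
      linarith
    exact le_of_mul_le_mul_right h6 (by linarith)
  have hY120 : (Y : ℝ) ^ 120 ≤ ρ / 2 * G := by
    have h1 : (Y : ℝ) ^ 120 ≤ (Y : ℝ) ^ 129 := pow_le_pow_right₀ (by linarith) (by norm_num)
    have h2 : (0 : ℝ) < (Y : ℝ) ^ 129 := pow_pos hY0 _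
    have h3 : 1 * (Y : ℝ) ^ 129 ≤ (L0 + 2) * (Y : ℝ) ^ 129 :=
      mul_le_mul_of_nonneg_right (by linarith) h2.le
    have h4 : 0 < ρ * G := mul_pos hρ hG0
    linarith
  -- the bump sum
  have htt : ∀ z : ℂ, ‖z‖ ≤ 1 →
      ‖tt CR k Y a be al ((θ : ℂ) + z / ((Y : ℂ) ^ 256))‖ ≤ K * G / (1 + u) ^ 7 := by
    intro z hz
    have h1 := D.tleft θ z hθ0 hθ2 hz
    rw [← hc, ← hu] at h1
    refine le_trans h1 ?_
    have h2 := D.Rleft
    rw [← hc, ← hP1] at h2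
    have h3 : C2 * RR CR k Y a be (ii1 Y) ≤ K * G * (1 + u) := by
      have h4 : RR CR k Y a be (ii1 Y) ≤ C3 * CR * (100 * C0 * (1 + 17 * u) * G) :=
        le_trans h2 (mul_le_mul_of_nonneg_left hΓ (by positivity))
      have h5 : C2 * RR CR k Y a be (ii1 Y) ≤ C2 * (C3 * CR * (100 * C0 * (1 + 17 * u) * G)) :=
        mul_le_mul_of_nonneg_left h4 (by linarith)
      refine le_trans h5 ?_
      have h6 : 1 + 17 * u ≤ 17 * (1 + u) := by linarith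
      have h7 : C2 * (C3 * CR * (100 * C0 * (1 + 17 * u) * G)) =
          (100 * C0 * C2 * C3 * CR * G) * (1 + 17 * u) := by ring
      have h8 : K * G * (1 + u) = (100 * C0 * C2 * C3 * CR * G) * (17 * (1 + u)) := by
        rw [hK]; ring
      rw [h7, h8]
      exact mul_le_mul_of_nonneg_left h6 (by positivity)
    have hu1 : 0 < 1 + u := by linarith
    rw [div_le_div_iff₀ (by positivity) (by positivity)]
    calc C2 * RR CR k Y a be (ii1 Y) * (1 + u) ^ 7 ≤ (K * G * (1 + u)) * (1 + u) ^ 7 :=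
          mul_le_mul_of_nonneg_right h3 (by positivity)
      _ = K * G * (1 + u) ^ 8 := by ring
  have hKG : 0 ≤ K * G := mul_nonneg (by linarith) hG0.le
  have htt1 : ∀ z : ℂ, ‖z‖ ≤ 1 →
      ‖tt CR k Y a be al ((θ : ℂ) + z / ((Y : ℂ) ^ 256))‖ ≤ K * G := by
    intro z hz
    refine le_trans (htt z hz) ?_
    apply div_le_self hKG
    exact one_le_pow₀ (by linarith)
  obtain ⟨hh0, hh1⟩ := hh_bounds Y hY
  have hhn : ‖((1 - hh Y : ℝ) : ℂ)‖ ≤ 1 := by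
    rw [Complex.norm_real, Real.norm_eq_abs, abs_of_nonneg (by linarith)]
    linarith
  have hn3 : ‖Complex.exp (Complex.I * ((k * Y ^ 256 : ℕ) : ℂ) * (θ : ℂ))‖ = 1 :=
    norm_exp_nat_real _ _
  -- the splitting
  have hsp : ∀ z : ℂ, ∃ E : ℂ, ‖z‖ ≤ 1 → (‖E‖ ≤ 2 * (Y : ℝ) ^ 126 ∧
      Complex.exp (-(Complex.I * (k : ℂ) * z)) * PN k Y a e ((θ : ℂ) + z / ((Y : ℂ) ^ 256)) =
      Complex.exp (-(Complex.I * (k : ℂ) * z)) * GG k Y a ((θ : ℂ) + z / ((Y : ℂ) ^ 256)) +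
      Complex.exp (Complex.I * ((k * Y ^ 256 : ℕ) : ℂ) * (θ : ℂ)) *
        (((1 - hh Y : ℝ) : ℂ) * BB Y be ((θ : ℂ) + z / ((Y : ℂ) ^ 256)) +
          Complex.exp (Complex.I * (8 * (mm Y : ℂ)) * ((θ : ℂ) + z / ((Y : ℂ) ^ 256))) *
            (v * tt CR k Y a be al ((θ : ℂ) + z / ((Y : ℂ) ^ 256))) + E)) := by
    intro z
    rcases le_or_gt ‖z‖ 1 with hz | hz
    · obtain ⟨E, h1, h2⟩ := PN_split hY D θ hθ0 hθπ z hz
      exact ⟨E, fun _ => ⟨h1, h2⟩⟩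
    · exact ⟨0, fun h => absurd h (not_le.mpr hz)⟩
  choose E hE using hsp
  -- pieces
  have hgz : ∀ z : ℂ, ‖z‖ ≤ 1 → ‖Complex.exp (-(Complex.I * (((k : ℝ) - 1 : ℝ) : ℂ) * z)) *
      GG k Y a ((θ : ℂ) + z / ((Y : ℂ) ^ 256))‖ ≤ 8 * L0 * G := by
    intro z hz
    have h1 := near_nice hY D.good θ hnear2 z hz
    have h2 : ‖QQ Y ((θ : ℂ) + z / ((Y : ℂ) ^ 256))‖ ≤
        (1 + 1 / (Y : ℝ) ^ 8) * ‖QQ Y (θ : ℂ)‖ := rq_rel Y hY θ hθ0 hθ176' z hz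
    have h3 : 1 + 1 / (Y : ℝ) ^ 8 ≤ 2 := by
      have h4 : 1 / (Y : ℝ) ^ 8 ≤ 1 := by
        rw [div_le_one (pow_pos hY0 _)]
        exact one_le_pow₀ (by linarith)
      linarith
    have h5 : ‖QQ Y ((θ : ℂ) + z / ((Y : ℂ) ^ 256))‖ ≤ 2 * ‖QQ Y (θ : ℂ)‖ :=
      le_trans h2 (mul_le_mul_of_nonneg_right h3 (norm_nonneg _))
    have e1 : (((k : ℝ) - 1 : ℝ) : ℂ) = (k : ℂ) - 1 := by push_cast; ring
    rw [e1]
    simp only [GG]
    rw [← mul_assoc, norm_mul, hGeq]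
    calc _ ≤ (4 * L0 * ‖PP k Y a ((Y : ℂ) ^ 192 * (θ : ℂ))‖) * (2 * ‖QQ Y (θ : ℂ)‖) :=
          mul_le_mul h1 h5 (norm_nonneg _) (mul_nonneg (by linarith) (norm_nonneg _))
      _ = _ := by ring
  have hbz : ∀ z : ℂ, ‖z‖ ≤ 1 → ‖((1 - hh Y : ℝ) : ℂ) *
      BB Y be ((θ : ℂ) + z / ((Y : ℂ) ^ 256)) + E z‖ ≤ (L0 + 2) * (Y : ℝ) ^ 129 := by
    intro z hz
    have hreg := D.flat.reg θ z hz
    have e1 : ((Y ^ 256 : ℕ) : ℂ) = (Y : ℂ) ^ 256 := by push_cast; rfl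
    rw [e1] at hreg
    have h1 : ‖BB Y be ((θ : ℂ) + z / ((Y : ℂ) ^ 256))‖ ≤ L0 * ‖BB Y be (θ : ℂ)‖ := hreg
    have h2 := BB_up' hY D.flat θ
    have h3 : ‖BB Y be (θ : ℂ)‖ ≤ (Y : ℝ) ^ 129 := by
      have := norm_nonneg (BB Y be (θ : ℂ))
      linarith
    have h4 : ‖((1 - hh Y : ℝ) : ℂ) * BB Y be ((θ : ℂ) + z / ((Y : ℂ) ^ 256))‖ ≤
        L0 * (Y : ℝ) ^ 129 := by
      rw [norm_mul]
      calc _ ≤ 1 * (L0 * (Y : ℝ) ^ 129) := by
            apply mul_le_mul hhn _ (norm_nonneg _) (by norm_num)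
            exact le_trans h1 (mul_le_mul_of_nonneg_left h3 (by linarith))
        _ = _ := one_mul _
    have h9 : (Y : ℝ) ^ 126 ≤ (Y : ℝ) ^ 129 :=
      pow_le_pow_right₀ (by linarith) (by norm_num)
    refine le_trans (norm_add_le _ _) ?_
    have h10 := (hE z hz).1
    linarith
  have htz : ∀ z : ℂ, ‖z‖ ≤ 1 → ‖Complex.exp (Complex.I * (8 * (mm Y : ℂ)) *
      ((θ : ℂ) + z / ((Y : ℂ) ^ 256))) *
            (v * tt CR k Y a be al ((θ : ℂ) + z / ((Y : ℂ) ^ 256)))‖ ≤ 6 * K * G := by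
    intro z hz
    rw [norm_mul, norm_mul]
    have h10 : ‖v‖ * ‖tt CR k Y a be al ((θ : ℂ) + z / ((Y : ℂ) ^ 256))‖ ≤ 3 * (K * G) :=
      mul_le_mul D.v3 (htt1 z hz) (norm_nonneg _) (by norm_num)
    calc _ ≤ 2 * (3 * (K * G)) :=
          mul_le_mul (norm_exp8 Y hY θ z hz) h10 (mul_nonneg (norm_nonneg _) (norm_nonneg _))
            (by norm_num)
      _ = 6 * K * G := by ring
  refine r2_finish (L0 := L0) (K := K) (ρ := ρ) (G := G) (R2 := (L0 + 2) * (Y : ℝ) ^ 129) hk hL0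
    (by linarith) hρ hG0 hR2 hρ1 hY120 rfl
    (fun z => Complex.exp (-(Complex.I * (((k : ℝ) - 1 : ℝ) : ℂ) * z)) *
      GG k Y a ((θ : ℂ) + z / ((Y : ℂ) ^ 256)))
    (fun z => ((1 - hh Y : ℝ) : ℂ) * BB Y be ((θ : ℂ) + z / ((Y : ℂ) ^ 256)) + E z)
    (fun z => Complex.exp (Complex.I * (8 * (mm Y : ℂ)) * ((θ : ℂ) + z / ((Y : ℂ) ^ 256))) *
            (v * tt CR k Y a be al ((θ : ℂ) + z / ((Y : ℂ) ^ 256)))) hgz hbz htz ?_ ?_
  · -- lower bound at theta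
    have hG0c : GG k Y a (θ : ℂ) ≠ 0 := by
      rw [← norm_pos_iff]; exact hG0
    have e0 : (θ : ℂ) + 0 / ((Y : ℂ) ^ 256) = (θ : ℂ) := by rw [zero_div, add_zero]
    have ez : Complex.exp (-(Complex.I * (((k : ℝ) - 1 : ℝ) : ℂ) * 0)) = 1 := by simp
    simp only [e0, ez, one_mul]
    set b0 : ℂ := ((1 - hh Y : ℝ) : ℂ) * BB Y be (θ : ℂ) + E 0 with hb0
    set t0 : ℂ := Complex.exp (Complex.I * (8 * (mm Y : ℂ)) * (θ : ℂ)) *
      (v * tt CR k Y a be al (θ : ℂ)) with ht0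
    set w : ℂ := Complex.exp (Complex.I * ((k * Y ^ 256 : ℕ) : ℂ) * (θ : ℂ)) with hw
    have hρG : 0 < ρ * G := mul_pos hρ hG0
    have hmain : 3 / 4 * (ρ * G) ≤ ‖GG k Y a (θ : ℂ) + w * t0‖ := by
      rcases le_or_gt u D0 with huD | huD
      · -- crossing
        have h1 := D.cross1 θ (by
          have h2 : D0 / mm Y = D0 / mm Y := rfl
          have h3 : c - θ ≤ D0 / mm Y := by
            rw [le_div_iff₀ hm]
            rw [hu] at huD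
            linarith
          rw [← hc]; linarith) hθ2
        have h4 : GG k Y a (θ : ℂ) + w * t0 =
            GG k Y a (θ : ℂ) * (1 + v * ph1 CR k Y a be al θ) := by
          rw [ht0, hw]
          unfold ph1
          have e5 : Complex.exp (Complex.I * ((k * Y ^ 256 + 8 * mm Y : ℕ) : ℂ) * (θ : ℂ)) =
              Complex.exp (Complex.I * ((k * Y ^ 256 : ℕ) : ℂ) * (θ : ℂ)) *
              Complex.exp (Complex.I * (8 * (mm Y : ℂ)) * (θ : ℂ)) := by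
            rw [← Complex.exp_add]
            congr 1
            push_cast
            ring
          rw [e5]
          field_simp
        rw [h4, norm_mul]
        have h5 : G * ρ ≤ G * ‖1 + v * ph1 CR k Y a be al θ‖ :=
          mul_le_mul_of_nonneg_left h1 hG0.le
        have h6 : G * ρ = ρ * G := mul_comm _ _
        rw [h6] at h5
        linarith
      · -- the bump sum is already small
        have h1 := htt 0 (by simp)
        rw [e0] at h1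
        have h2 : K * G / (1 + u) ^ 7 ≤ G / 12 := by
          rw [div_le_div_iff₀ (by positivity) (by norm_num)]
          have h3 : 12 * K ≤ (1 + u) ^ 7 := by
            have h4 : (1 + u) ^ 1 ≤ (1 + u) ^ 7 :=
              pow_le_pow_right₀ (by linarith) (by norm_num)
            rw [pow_one] at h4
            linarith
          calc K * G * 12 = G * (12 * K) := by ring
            _ ≤ G * (1 + u) ^ 7 := mul_le_mul_of_nonneg_left h3 hG0.le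
        have h5 : ‖w * t0‖ ≤ G / 4 := by
          rw [norm_mul, hw, hn3, one_mul, ht0, norm_mul, norm_mul]
          have h6 : ‖Complex.exp (Complex.I * (8 * (mm Y : ℂ)) * (θ : ℂ))‖ = 1 := by
            have := norm_exp_nat_real (8 * mm Y) θ
            rw [← this]
            congr 2
            push_cast
            ring
          rw [h6, one_mul]
          calc ‖v‖ * ‖tt CR k Y a be al (θ : ℂ)‖ ≤ 3 * (G / 12) :=
                mul_le_mul D.v3 (le_trans h1 h2) (norm_nonneg _) (by norm_num)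
            _ = G / 4 := by ring
        have h7 : G - ‖w * t0‖ ≤ ‖GG k Y a (θ : ℂ) + w * t0‖ := norm_sub_le_norm_add _ _
        have h8 : ρ * G ≤ 1 * G := mul_le_mul_of_nonneg_right hρ1 hG0.le
        linarith
    have e6 : GG k Y a (θ : ℂ) + w * (b0 + t0) = (GG k Y a (θ : ℂ) + w * t0) + w * b0 := by ring
    rw [e6]
    have h8 := norm_sub_le_norm_add (GG k Y a (θ : ℂ) + w * t0) (w * b0)
    have h9 : ‖w * b0‖ = ‖b0‖ := by rw [norm_mul, hw, hn3, one_mul]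
    rw [h9] at h8
    linarith
  · intro z hz
    have h1 := (hE z hz).2
    have e1 : Complex.exp (-(Complex.I * (((k : ℝ) - 1 : ℝ) : ℂ) * z)) =
        Complex.exp (Complex.I * (1 : ℂ) * z) * Complex.exp (-(Complex.I * (k : ℂ) * z)) := by
      rw [← Complex.exp_add]
      congr 1
      push_cast
      ring
    simp only [e1]
    rw [mul_assoc, h1]
    ring

end Pool.Agent.Helper59.Lit
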