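import Pool.Agent.Helper59.Lit.RegNear
import Pool.Agent.Helper59.Lit.Region5

/-!
# Region III: the bump sum dominates
-/

set_option autoImplicit false

namespace Pool.Agent.Helper59.Lit

open Finset

/-- bound for the short-run block near the nearest cell -/
theorem QQ_cell (Y : ℕ) (hY : 100 ≤ Y) (θ : ℝ) (i : ℕ) (hi : 1 ≤ i) (hi2 : i ≤ ii2 Y)
    (hθi : |θ - cell (mm Y) i| ≤ Real.pi / mm Y) (z : ℂ) (hz : ‖z‖ ≤ 1) :
    0 < cell (mm Y) i ∧
    ‖QQ Y ((θ : ℂ) + z / ((Y : ℂ) ^ 256))‖ ≤ 80 / cell (mm Y) i := by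
  have hY0 := Ypos Y hY
  have hY100 : (100 : ℝ) ≤ Y := by exact_mod_cast hY
  obtain ⟨p1, p2, p3, p4, p5, p6, p7, p8, p9, p10, p11, p12, p13, p14⟩ := params Y hY
  have hm : (0 : ℝ) < mm Y := by
    have : (10 : ℝ) ≤ mm Y := by exact_mod_cast p1
    linarith
  have hpi := Real.pi_pos
  have hi' : (1 : ℝ) ≤ i := by exact_mod_cast hi
  have hc : 2 * (Real.pi / mm Y) ≤ cell (mm Y) i := by
    unfold cell
    rw [mul_div_assoc', div_le_div_iff_of_pos_right hm]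
    nlinarith
  have hpm : 0 < Real.pi / mm Y := div_pos hpi hm
  have hcpos : 0 < cell (mm Y) i := by linarith
  have hθ2 : cell (mm Y) i / 2 ≤ θ := by
    have := (abs_le.mp hθi).1
    linarith
  have hcle : cell (mm Y) i ≤ 1 / 2 := by
    have h1 : cell (mm Y) i ≤ cell (mm Y) (ii2 Y) := by
      unfold cell
      rw [div_le_div_iff_of_pos_right hm]
      have : (i : ℝ) ≤ ii2 Y := by exact_mod_cast hi2
      nlinarith
    have h2 : cell (mm Y) (ii2 Y) ≤ 1 / 2 := by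
      refine le_trans p6 ?_
      rw [div_le_div_iff₀ (pow_pos hY0 _) (by norm_num)]
      have : (Y : ℝ) ^ 1 ≤ (Y : ℝ) ^ 60 := pow_le_pow_right₀ (by linarith) (by norm_num)
      rw [pow_one] at this
      linarith
    linarith
  have hθπ : θ ≤ Real.pi := by
    have := (abs_le.mp hθi).2
    have := Real.pi_gt_three
    linarith
  refine ⟨hcpos, ?_⟩
  have := rq_up Y hY θ (by linarith) hθπ z hz
  refine le_trans this ?_
  rw [div_le_div_iff₀ (by linarith) hcpos]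
  linarith

/-- (A): the zone where `z^b` is near `-1` -/
theorem caseA {La L1 C1 : ℝ} {k Y : ℕ} {a : ℕ → ℤ} (be : ℕ → ℤ) (hY : 100 ≤ Y)
    (hL1 : 0 ≤ L1) (hC1 : 0 ≤ C1)
    (hg : Good La L1 C1 k Y a) (θ : ℝ) (i : ℕ) (hi1 : ii1 Y ≤ i) (hi2 : i ≤ ii2 Y)
    (hθi : |θ - cell (mm Y) i| ≤ Real.pi / mm Y)
    (hA : (i : ℝ) - ii1 Y ≤ kap Y / 8) (z : ℂ) (hz : ‖z‖ ≤ 1) :
    ‖Complex.exp (-(Complex.I * (k : ℂ) * z)) * GG k Y a ((θ : ℂ) + z / ((Y : ℂ) ^ 256))‖ ≤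
      3 * (L1 * (C1 * 55) * 80) * gam k Y a be i := by
  have hY0 := Ypos Y hY
  have hY100 : (100 : ℝ) ≤ Y := by exact_mod_cast hY
  obtain ⟨p1, p2, p3, p4, p5, p6, p7, p8, p9, p10, p11, p12, p13, p14⟩ := params Y hY
  have hm : (0 : ℝ) < mm Y := by
    have : (10 : ℝ) ≤ mm Y := by exact_mod_cast p1
    linarith
  have hpi := Real.pi_pos
  have hpi4 : Real.pi < 3.15 := Real.pi_lt_d2
  obtain ⟨hcpos, hq⟩ := QQ_cell Y hY θ i (le_trans p4 hi1) hi2 hθi z hz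
  have hi1' : (ii1 Y : ℝ) ≤ i := by exact_mod_cast hi1
  have hY64 : (10 : ℝ) ^ 128 ≤ (Y : ℝ) ^ 64 := by
    calc (10 : ℝ) ^ 128 = 100 ^ 64 := by norm_num
      _ ≤ (Y : ℝ) ^ 64 := pow_le_pow_left₀ (by norm_num) hY100 64
  have hkap : (0 : ℝ) < kap Y := by
    have : (0 : ℝ) < (Y : ℝ) ^ 64 := pow_pos hY0 _
    linarith
  have hkap2 : (1000 : ℝ) ≤ kap Y := by
    have : (17 * 1000 : ℝ) ≤ 10 ^ 128 := by norm_num
    linarith
  have hmk : (mm Y : ℝ) = (Y : ℝ) ^ 192 * kap Y := by simp [mm]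
  have hY192 : (0 : ℝ) < (Y : ℝ) ^ 192 := pow_pos hY0 _
  -- distances in the argument of P
  have hpk : (Y : ℝ) ^ 192 * (Real.pi / mm Y) = Real.pi / kap Y := by
    rw [hmk]; field_simp
  have hd0 : |(Y : ℝ) ^ 192 * θ - (Y : ℝ) ^ 192 * cell (mm Y) i| ≤ Real.pi / kap Y := by
    rw [← mul_sub, abs_mul, abs_of_pos hY192, ← hpk]
    exact mul_le_mul_of_nonneg_left hθi hY192.le
  have hd1 : |(Y : ℝ) ^ 192 * cell (mm Y) i - (Y : ℝ) ^ 192 * cell (mm Y) (ii1 Y)| ≤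
      Real.pi / 4 := by
    rw [p13, p13]
    unfold cell
    rw [← sub_div, ← mul_sub, abs_of_nonneg (by
      apply div_nonneg _ hkap.le
      apply mul_nonneg (by positivity); linarith), div_le_iff₀ hkap]
    nlinarith
  have hpk2 : Real.pi / kap Y ≤ 1 / 100 := by
    rw [div_le_div_iff₀ hkap (by norm_num)]
    nlinarith
  have hnear1 : |(Y : ℝ) ^ 192 * cell (mm Y) i - 2 * Real.pi * ((Y ^ 16 / 8 : ℕ) : ℝ) -
      Real.pi| ≤ 9 / 10 := by
    have e : (Y : ℝ) ^ 192 * cell (mm Y) i - 2 * Real.pi * ((Y ^ 16 / 8 : ℕ) : ℝ) - Real.pi =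
      ((Y : ℝ) ^ 192 * cell (mm Y) i - (Y : ℝ) ^ 192 * cell (mm Y) (ii1 Y)) +
      (cell (kap Y) (ii1 Y) - 2 * Real.pi * ((Y ^ 16 / 8 : ℕ) : ℝ) - Real.pi) := by
      rw [p13 (ii1 Y)]; ring
    rw [e]
    refine le_trans (abs_add_le _ _) ?_
    have : Real.pi / 4 ≤ 0.79 := by linarith
    linarith
  have hnear2 : |(Y : ℝ) ^ 192 * θ - 2 * Real.pi * ((Y ^ 16 / 8 : ℕ) : ℝ) -
      Real.pi| ≤ 1 := by
    have e : (Y : ℝ) ^ 192 * θ - 2 * Real.pi * ((Y ^ 16 / 8 : ℕ) : ℝ) - Real.pi =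
      ((Y : ℝ) ^ 192 * θ - (Y : ℝ) ^ 192 * cell (mm Y) i) +
      ((Y : ℝ) ^ 192 * cell (mm Y) i - 2 * Real.pi * ((Y ^ 16 / 8 : ℕ) : ℝ) - Real.pi) := by
      ring
    rw [e]
    refine le_trans (abs_add_le _ _) ?_
    linarith
  have h1 := near_nice hY hg θ hnear2 z hz
  have h2 := near_poly hY hg (cell (mm Y) i) θ (le_trans hnear1 (by norm_num)) hnear2
  rw [PP_cell k Y hY a i] at h2
  have h3 : (1 + (Y : ℝ) ^ 256 * |cell (mm Y) i - θ|) ≤ 55 := by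
    rw [abs_sub_comm]
    have h4 : (Y : ℝ) ^ 256 * |θ - cell (mm Y) i| ≤ 17 * mm Y * (Real.pi / mm Y) :=
      mul_le_mul p3 hθi (abs_nonneg _) (by positivity)
    have h5 : 17 * mm Y * (Real.pi / mm Y) = 17 * Real.pi := by field_simp
    rw [h5] at h4
    linarith
  have h6 : ‖PP k Y a ((Y : ℂ) ^ 192 * (θ : ℂ))‖ ≤
      C1 * 55 * ‖PP k Y a (cell (kap Y) i : ℂ)‖ := by
    refine le_trans h2 ?_
    apply mul_le_mul_of_nonneg_right _ (norm_nonneg _)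
    exact mul_le_mul_of_nonneg_left h3 hC1
  have h7 : ‖Complex.exp (-(Complex.I * ((k : ℂ) - 1) * z)) *
        PP k Y a ((Y : ℂ) ^ 192 * ((θ : ℂ) + z / ((Y : ℂ) ^ 256)))‖ ≤
      L1 * (C1 * 55 * ‖PP k Y a (cell (kap Y) i : ℂ)‖) :=
    le_trans h1 (mul_le_mul_of_nonneg_left h6 hL1)
  have h8 : ‖Complex.exp (-(Complex.I * (1 : ℂ) * z))‖ ≤ 3 := by
    have h9 := norm_exp_negI_mul 1 z hz (by norm_num)
    have h10 := Real.exp_one_lt_d9
    have h11 : ((1 : ℝ) : ℂ) = 1 := by norm_num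
    rw [h11] at h9
    linarith
  have hgam : ‖PP k Y a (cell (kap Y) i : ℂ)‖ / cell (mm Y) i ≤ gam k Y a be i := by
    unfold gam
    have := norm_nonneg (BB Y be (cell (mm Y) i : ℂ))
    linarith
  have e5 : Complex.exp (-(Complex.I * (k : ℂ) * z)) * GG k Y a ((θ : ℂ) + z / ((Y : ℂ) ^ 256)) =
      Complex.exp (-(Complex.I * (1 : ℂ) * z)) *
      ((Complex.exp (-(Complex.I * ((k : ℂ) - 1) * z)) *
        PP k Y a ((Y : ℂ) ^ 192 * ((θ : ℂ) + z / ((Y : ℂ) ^ 256)))) *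
        QQ Y ((θ : ℂ) + z / ((Y : ℂ) ^ 256))) := by
    have : Complex.exp (-(Complex.I * (k : ℂ) * z)) = Complex.exp (-(Complex.I * (1 : ℂ) * z)) *
      Complex.exp (-(Complex.I * ((k : ℂ) - 1) * z)) := by
      rw [← Complex.exp_add]; congr 1; ring
    rw [this]
    simp only [GG]
    ring
  rw [e5, norm_mul, norm_mul]
  calc _ ≤ 3 * ((L1 * (C1 * 55 * ‖PP k Y a (cell (kap Y) i : ℂ)‖)) * (80 / cell (mm Y) i)) := by
        apply mul_le_mul h8 _ (mul_nonneg (norm_nonneg _) (norm_nonneg _)) (by norm_num)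
        apply mul_le_mul h7 hq (norm_nonneg _)
        have := norm_nonneg (PP k Y a (cell (kap Y) i : ℂ))
        positivity
    _ = 3 * (L1 * (C1 * 55) * 80) * (‖PP k Y a (cell (kap Y) i : ℂ)‖ / cell (mm Y) i) := by ring
    _ ≤ 3 * (L1 * (C1 * 55) * 80) * gam k Y a be i :=
        mul_le_mul_of_nonneg_left hgam (by positivity)

/-- moving along the real line by steps of length at most `1/X` -/
theorem reg_iter {La L1 C1 : ℝ} {k Y : ℕ} {a : ℕ → ℤ} (hY : 100 ≤ Y) (hLa : 1 ≤ La)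
    (hg : Good La L1 C1 k Y a) (n : ℕ) (x y : ℝ) (h : (Y : ℝ) ^ 64 * |y - x| ≤ n) :
    ‖PP k Y a (y : ℂ)‖ ≤ La ^ n * ‖PP k Y a (x : ℂ)‖ := by
  have hY0 := Ypos Y hY
  have hX : (0 : ℝ) < (Y : ℝ) ^ 64 := pow_pos hY0 _
  -- one step
  have step : ∀ x w : ℝ, |w| ≤ 1 → ‖PP k Y a ((x + w / (Y : ℝ) ^ 64 : ℝ) : ℂ)‖ ≤
      La * ‖PP k Y a (x : ℂ)‖ := by
    intro x w hw
    obtain ⟨lam, hlam, hreg⟩ := hg.reg x
    have h1 := hreg (w : ℂ) (by rw [Complex.norm_real]; exact hw)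
    rw [norm_mul] at h1
    have h2 : ‖Complex.exp (-(Complex.I * (lam : ℂ) * (w : ℂ)))‖ = 1 := by
      rw [Complex.norm_exp]; simp
    rw [h2, one_mul] at h1
    simp only [PP]
    push_cast
    exact h1
  rcases Nat.eq_zero_or_pos n with hn | hn
  · subst hn
    have : y = x := by
      have h3 : (Y : ℝ) ^ 64 * |y - x| ≤ 0 := by simpa using h
      have h4 : |y - x| ≤ 0 := by
        by_contra hc
        push Not at hc
        have := mul_pos hX hc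
        linarith
      have := abs_nonpos_iff.mp h4
      linarith
    rw [this]; simp
  · have hnR : (0 : ℝ) < n := by exact_mod_cast hn
    set w : ℝ := (Y : ℝ) ^ 64 * (y - x) / n with hw
    have hw1 : |w| ≤ 1 := by
      rw [hw, abs_div, abs_mul, abs_of_pos hX, abs_of_pos hnR, div_le_one hnR]
      exact h
    have hind : ∀ j : ℕ, ‖PP k Y a ((x + j * w / (Y : ℝ) ^ 64 : ℝ) : ℂ)‖ ≤
        La ^ j * ‖PP k Y a (x : ℂ)‖ := by
      intro j
      induction j with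
      | zero => simp
      | succ j ih =>
        have h5 := step (x + j * w / (Y : ℝ) ^ 64) w hw1
        have e : x + ((j + 1 : ℕ) : ℝ) * w / (Y : ℝ) ^ 64 =
            x + j * w / (Y : ℝ) ^ 64 + w / (Y : ℝ) ^ 64 := by
          push_cast; ring
        rw [e]
        refine le_trans h5 ?_
        calc La * _ ≤ La * (La ^ j * ‖PP k Y a (x : ℂ)‖) :=
              mul_le_mul_of_nonneg_left ih (by linarith)
          _ = La ^ (j + 1) * ‖PP k Y a (x : ℂ)‖ := by ring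
    have := hind n
    have e : x + (n : ℝ) * w / (Y : ℝ) ^ 64 = y := by
      rw [hw]; field_simp; ring
    rwa [e] at this

/-- (B): interior cells -/
theorem caseB {La L1 C1 : ℝ} {k Y : ℕ} {a : ℕ → ℤ} (be : ℕ → ℤ) (hY : 100 ≤ Y) (hLa : 1 ≤ La)
    (hg : Good La L1 C1 k Y a) (θ : ℝ) (i : ℕ) (hi1 : ii1 Y ≤ i) (hi2 : i ≤ ii2 Y)
    (hθi : |θ - cell (mm Y) i| ≤ Real.pi / mm Y) (z : ℂ) (hz : ‖z‖ ≤ 1) :
    ‖Complex.exp (-(Complex.I * (k : ℂ) * z)) * GG k Y a ((θ : ℂ) + z / ((Y : ℂ) ^ 256))‖ ≤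
      Real.exp (2 * k) * La ^ 55 * 80 * gam k Y a be i := by
  have hY0 := Ypos Y hY
  have hY100 : (100 : ℝ) ≤ Y := by exact_mod_cast hY
  obtain ⟨p1, p2, p3, p4, p5, p6, p7, p8, p9, p10, p11, p12, p13, p14⟩ := params Y hY
  have hm : (0 : ℝ) < mm Y := by
    have : (10 : ℝ) ≤ mm Y := by exact_mod_cast p1
    linarith
  have hpi4 : Real.pi < 3.15 := Real.pi_lt_d2
  obtain ⟨hcpos, hq⟩ := QQ_cell Y hY θ i (le_trans p4 hi1) hi2 hθi z hz
  have h3 : (Y : ℝ) ^ 256 * |θ - cell (mm Y) i| ≤ 54 := by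
    have h4 : (Y : ℝ) ^ 256 * |θ - cell (mm Y) i| ≤ 17 * mm Y * (Real.pi / mm Y) :=
      mul_le_mul p3 hθi (abs_nonneg _) (by positivity)
    have h5 : 17 * mm Y * (Real.pi / mm Y) = 17 * Real.pi := by field_simp
    rw [h5] at h4
    linarith
  -- bound at the real point
  have h6 : ‖PP k Y a (((Y : ℝ) ^ 192 * θ : ℝ) : ℂ)‖ ≤
      La ^ 54 * ‖PP k Y a (cell (kap Y) i : ℂ)‖ := by
    apply reg_iter hY hLa hg 54
    rw [← p13 i, ← mul_sub, abs_mul, abs_of_pos (pow_pos hY0 192)]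
    have : (Y : ℝ) ^ 64 * ((Y : ℝ) ^ 192 * |θ - cell (mm Y) i|) =
        (Y : ℝ) ^ 256 * |θ - cell (mm Y) i| := by ring
    rw [this]
    norm_num
    exact h3
  -- complex shift
  obtain ⟨lam, hlam, hreg⟩ := hg.reg ((Y : ℝ) ^ 192 * θ)
  have h7 := hreg z hz
  have hlam2 : ‖Complex.exp (Complex.I * (lam : ℂ) * z)‖ ≤ Real.exp k := by
    rw [Complex.norm_exp]
    apply Real.exp_le_exp.mpr
    have e2 : (Complex.I * (lam : ℂ) * z).re = -(lam * z.im) := by simp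
    rw [e2]
    have h1 : |z.im| ≤ 1 := le_trans (Complex.abs_im_le_norm z) hz
    have h2 : |lam * z.im| ≤ k := by
      rw [abs_mul]
      calc |lam| * |z.im| ≤ k * 1 := mul_le_mul hlam h1 (abs_nonneg _) (Nat.cast_nonneg _)
        _ = k := mul_one _
    have := neg_abs_le (lam * z.im)
    linarith
  have h8 : ‖PP k Y a ((Y : ℂ) ^ 192 * ((θ : ℂ) + z / ((Y : ℂ) ^ 256)))‖ ≤
      Real.exp k * (La * (La ^ 54 * ‖PP k Y a (cell (kap Y) i : ℂ)‖)) := by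
    have e : PP k Y a ((Y : ℂ) ^ 192 * ((θ : ℂ) + z / ((Y : ℂ) ^ 256))) =
        Complex.exp (Complex.I * (lam : ℂ) * z) *
        (Complex.exp (-(Complex.I * (lam : ℂ) * z)) *
        sv (k * Y ^ 64) a ((((Y : ℝ) ^ 192 * θ : ℝ) : ℂ) + z / ((Y : ℂ) ^ 64))) := by
      rw [← mul_assoc, ← Complex.exp_add, add_neg_cancel, Complex.exp_zero, one_mul,
        scale_arg Y hY]
      rfl
    rw [e, norm_mul]
    apply mul_le_mul hlam2 _ (norm_nonneg _) (Real.exp_pos _).le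
    refine le_trans h7 ?_
    exact mul_le_mul_of_nonneg_left h6 (by linarith)
  have n1 : ‖Complex.exp (-(Complex.I * (k : ℂ) * z))‖ ≤ Real.exp k := by
    have := norm_exp_negI_mul (k : ℝ) z hz (Nat.cast_nonneg k)
    simpa using this
  have hgam : ‖PP k Y a (cell (kap Y) i : ℂ)‖ / cell (mm Y) i ≤ gam k Y a be i := by
    unfold gam
    have := norm_nonneg (BB Y be (cell (mm Y) i : ℂ))
    linarith
  have hPn := norm_nonneg (PP k Y a (cell (kap Y) i : ℂ))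
  have hLa0 : 0 ≤ La := by linarith
  simp only [GG]
  rw [norm_mul, norm_mul]
  calc _ ≤ Real.exp k * ((Real.exp k * (La * (La ^ 54 * ‖PP k Y a (cell (kap Y) i : ℂ)‖))) *
        (80 / cell (mm Y) i)) := by
        apply mul_le_mul n1 _ (mul_nonneg (norm_nonneg _) (norm_nonneg _)) (Real.exp_pos _).le
        apply mul_le_mul h8 hq (norm_nonneg _)
        exact mul_nonneg (Real.exp_pos _).le
          (mul_nonneg hLa0 (mul_nonneg (pow_nonneg hLa0 _) hPn))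
    _ = (Real.exp k * Real.exp k) * La ^ 55 * 80 *
        (‖PP k Y a (cell (kap Y) i : ℂ)‖ / cell (mm Y) i) := by ring
    _ = Real.exp (2 * k) * La ^ 55 * 80 *
        (‖PP k Y a (cell (kap Y) i : ℂ)‖ / cell (mm Y) i) := by
        rw [← Real.exp_add]; ring_nf
    _ ≤ Real.exp (2 * k) * La ^ 55 * 80 * gam k Y a be i :=
        mul_le_mul_of_nonneg_left hgam
          (mul_nonneg (mul_nonneg (Real.exp_pos _).le (pow_nonneg hLa0 _)) (by norm_num))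

/-- (C): the last cells -/
theorem caseC {k Y : ℕ} {a : ℕ → ℤ} (ha : IsSign a) (hY : 100 ≤ Y)
    (θ : ℝ) (i : ℕ) (hi1 : ii1 Y ≤ i) (hi2 : i ≤ ii2 Y)
    (hθi : |θ - cell (mm Y) i| ≤ Real.pi / mm Y) (hC : (ii2 Y : ℝ) - i ≤ Y) (z : ℂ)
    (hz : ‖z‖ ≤ 1) :
    ‖Complex.exp (-(Complex.I * (k : ℂ) * z)) * GG k Y a ((θ : ℂ) + z / ((Y : ℂ) ^ 256))‖ ≤
      Real.exp (2 * k) * k * 80 * (Y : ℝ) ^ 124 := by
  have hY0 := Ypos Y hY
  have hY100 : (100 : ℝ) ≤ Y := by exact_mod_cast hY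
  obtain ⟨p1, p2, p3, p4, p5, p6, p7, p8, p9, p10, p11, p12, p13, p14⟩ := params Y hY
  have hm : (0 : ℝ) < mm Y := by
    have : (10 : ℝ) ≤ mm Y := by exact_mod_cast p1
    linarith
  have hpi := Real.pi_pos
  obtain ⟨hcpos, hq⟩ := QQ_cell Y hY θ i (le_trans p4 hi1) hi2 hθi z hz
  have hi2' : (2 * Y : ℝ) ≤ ii2 Y := by
    have h1 : (ii1 Y : ℝ) ≤ ii2 Y := by exact_mod_cast p5
    have h2 : (Y : ℝ) ^ 2 ≤ (Y : ℝ) ^ 78 := pow_le_pow_right₀ (by linarith) (by norm_num)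
    nlinarith
  have hci : 1 / (Y : ℝ) ^ 60 ≤ cell (mm Y) i := by
    have h1 : (ii2 Y : ℝ) / 2 ≤ i := by linarith
    have h2 : cell (mm Y) (ii2 Y) / 2 ≤ cell (mm Y) i := by
      unfold cell
      rw [div_div, div_le_div_iff₀ (by positivity) hm]
      nlinarith [mul_pos hpi hm]
    have h3 : 6 / (Y : ℝ) ^ 60 = 6 * (1 / (Y : ℝ) ^ 60) := by ring
    have h4 : 0 < 1 / (Y : ℝ) ^ 60 := by positivity
    linarith
  have hq2 : ‖QQ Y ((θ : ℂ) + z / ((Y : ℂ) ^ 256))‖ ≤ 80 * (Y : ℝ) ^ 60 := by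
    refine le_trans hq ?_
    rw [div_le_iff₀ hcpos]
    have h5 : (Y : ℝ) ^ 60 * (1 / (Y : ℝ) ^ 60) = 1 := by
      field_simp
    have h6 : (Y : ℝ) ^ 60 * (1 / (Y : ℝ) ^ 60) ≤ (Y : ℝ) ^ 60 * cell (mm Y) i :=
      mul_le_mul_of_nonneg_left hci (by positivity)
    nlinarith
  have n1 : ‖Complex.exp (-(Complex.I * (k : ℂ) * z))‖ ≤ Real.exp k := by
    have := norm_exp_negI_mul (k : ℝ) z hz (Nat.cast_nonneg k)
    simpa using this
  have h8 := PP_triv k Y hY a ha θ z hz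
  simp only [GG]
  rw [norm_mul, norm_mul]
  calc _ ≤ Real.exp k * ((k * (Y : ℝ) ^ 64 * Real.exp k) * (80 * (Y : ℝ) ^ 60)) := by
        apply mul_le_mul n1 _ (mul_nonneg (norm_nonneg _) (norm_nonneg _)) (Real.exp_pos _).le
        apply mul_le_mul h8 hq2 (norm_nonneg _)
        positivity
    _ = (Real.exp k * Real.exp k) * k * 80 * (Y : ℝ) ^ 124 := by ring
    _ = Real.exp (2 * k) * k * 80 * (Y : ℝ) ^ 124 := by
        rw [← Real.exp_add]; ring_nf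

/-- the nearest cell -/
theorem nearest_cell (Y : ℕ) (hY : 100 ≤ Y) (θ : ℝ) (h1 : cell (mm Y) (ii1 Y) ≤ θ)
    (h2 : θ ≤ cell (mm Y) (ii2 Y)) : ∃ i : ℕ, i ∈ Icc (ii1 Y) (ii2 Y) ∧
      |θ - cell (mm Y) i| ≤ Real.pi / mm Y := by
  obtain ⟨p1, p2, p3, p4, p5, p6, p7, p8, p9, p10, p11, p12, p13, p14⟩ := params Y hY
  have hm : (0 : ℝ) < mm Y := by
    have : (10 : ℝ) ≤ mm Y := by exact_mod_cast p1
    linarith
  have hpi := Real.pi_pos
  set t : ℝ := θ * mm Y / (2 * Real.pi) with ht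
  have ht1 : (ii1 Y : ℝ) ≤ t := by
    rw [ht, le_div_iff₀ (by positivity)]
    unfold cell at h1
    rw [div_le_iff₀ hm] at h1
    linarith
  have ht2 : t ≤ ii2 Y := by
    rw [ht, div_le_iff₀ (by positivity)]
    unfold cell at h2
    rw [le_div_iff₀ hm] at h2
    linarith
  have hr := abs_sub_round t
  have hr1 : (ii1 Y : ℤ) ≤ round t := by
    rw [round_eq]
    exact Int.le_floor.mpr (by push_cast; linarith)
  have hr2 : round t ≤ (ii2 Y : ℤ) := by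
    rw [round_eq]
    exact Int.lt_add_one_iff.mp (Int.floor_lt.mpr (by push_cast; linarith))
  have hr0 : 0 ≤ round t := le_trans (Int.natCast_nonneg _) hr1
  refine ⟨(round t).toNat, Finset.mem_Icc.mpr ⟨by omega, by omega⟩, ?_⟩
  have e1 : (((round t).toNat : ℕ) : ℝ) = ((round t : ℤ) : ℝ) := by
    have : (((round t).toNat : ℕ) : ℤ) = round t := Int.toNat_of_nonneg hr0
    exact_mod_cast this
  unfold cell
  rw [e1]
  have e2 : θ - 2 * Real.pi * ((round t : ℤ) : ℝ) / mm Y =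
      (t - ((round t : ℤ) : ℝ)) * (2 * Real.pi / mm Y) := by
    rw [ht]; field_simp
  rw [e2, abs_mul, abs_of_pos (by positivity : 0 < 2 * Real.pi / mm Y)]
  calc |t - ((round t : ℤ) : ℝ)| * (2 * Real.pi / mm Y) ≤ 1 / 2 * (2 * Real.pi / mm Y) :=
        mul_le_mul_of_nonneg_right hr (by positivity)
    _ = Real.pi / mm Y := by ring

theorem om_ge_one (Y i : ℕ) (hY : 100 ≤ Y) : 1 ≤ om Y i := by
  have hY100 : (100 : ℝ) ≤ Y := by exact_mod_cast hY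
  unfold om
  refine le_min (le_min ?_ ?_) (by linarith)
  · have := abs_nonneg ((i : ℝ) - (ii1 Y : ℝ)); linarith
  · have := abs_nonneg ((ii2 Y : ℝ) - (i : ℝ)); linarith

/-- final step of region III -/
theorem finish3 {c1 C2 R Ls : ℝ} {k Y : ℕ} {a e : ℕ → ℤ} {θ : ℝ} (hY : 100 ≤ Y) (hc1 : 0 < c1)
    (hc11 : c1 ≤ 1) (hC2 : 1 ≤ C2) (hR : 10 * (Y : ℝ) ^ 127 ≤ R) (hcY : 2 ≤ c1 * Y)
    (hLs : Ls = (6 * C2 + 1) * 2 / c1)
    (g b t E : ℂ → ℂ)
    (hg : ∀ z : ℂ, ‖z‖ ≤ 1 → ‖g z‖ ≤ c1 / 8 * R)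
    (hb : ∀ z : ℂ, ‖z‖ ≤ 1 → ‖b z‖ ≤ c1 / 8 * R)
    (ht : ∀ z : ℂ, ‖z‖ ≤ 1 → ‖t z‖ ≤ 6 * C2 * R)
    (ht0 : c1 * R ≤ ‖t 0‖)
    (hE : ∀ z : ℂ, ‖z‖ ≤ 1 → ‖E z‖ ≤ 2 * (Y : ℝ) ^ 126)
    (hsplit : ∀ z : ℂ, ‖z‖ ≤ 1 →
      Complex.exp (-(Complex.I * (k : ℂ) * z)) * PN k Y a e ((θ : ℂ) + z / ((Y : ℂ) ^ 256)) =
      g z + Complex.exp (Complex.I * ((k * Y ^ 256 : ℕ) : ℂ) * (θ : ℂ)) * (b z + t z + E z)) :
    PtGood Ls k Y a e θ := by
  have hY0 := Ypos Y hY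
  have hY100 : (100 : ℝ) ≤ Y := by exact_mod_cast hY
  have hY126 : (0 : ℝ) < (Y : ℝ) ^ 126 := pow_pos hY0 _
  have e127 : (Y : ℝ) ^ 127 = Y * (Y : ℝ) ^ 126 := by ring
  have hR0 : 0 < R := by
    have : (0 : ℝ) < (Y : ℝ) ^ 127 := pow_pos hY0 _
    linarith
  have hn3 : ‖Complex.exp (Complex.I * ((k * Y ^ 256 : ℕ) : ℂ) * (θ : ℂ))‖ = 1 :=
    norm_exp_nat_real _ _
  have hEs : 2 * (Y : ℝ) ^ 126 ≤ c1 / 8 * R := by
    have h1 : c1 / 8 * (10 * (Y : ℝ) ^ 127) ≤ c1 / 8 * R :=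
      mul_le_mul_of_nonneg_left hR (by positivity)
    have h2 : 2 * (Y : ℝ) ^ 126 ≤ c1 / 8 * (10 * (Y : ℝ) ^ 127) := by
      rw [e127]
      have h3 : c1 / 8 * (10 * (Y * (Y : ℝ) ^ 126)) = (c1 * Y) * (10 / 8) * (Y : ℝ) ^ 126 := by
        ring
      rw [h3]
      apply mul_le_mul_of_nonneg_right _ hY126.le
      linarith
    linarith
  -- lower bound
  have hP0 := hsplit 0 (by simp)
  have hP0' : PN k Y a e (θ : ℂ) =
      g 0 + Complex.exp (Complex.I * ((k * Y ^ 256 : ℕ) : ℂ) * (θ : ℂ)) * (b 0 + t 0 + E 0) := by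
    simpa using hP0
  have hlow : c1 / 2 * R ≤ ‖PN k Y a e (θ : ℂ)‖ := by
    have h1 : ‖t 0‖ ≤ ‖PN k Y a e (θ : ℂ)‖ + ‖g 0‖ + ‖b 0‖ + ‖E 0‖ := by
      have h2 : Complex.exp (Complex.I * ((k * Y ^ 256 : ℕ) : ℂ) * (θ : ℂ)) * t 0 =
          PN k Y a e (θ : ℂ) - g 0 -
          Complex.exp (Complex.I * ((k * Y ^ 256 : ℕ) : ℂ) * (θ : ℂ)) * b 0 -
          Complex.exp (Complex.I * ((k * Y ^ 256 : ℕ) : ℂ) * (θ : ℂ)) * E 0 := by
        rw [hP0']; ring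
      have h3 : ‖t 0‖ = ‖Complex.exp (Complex.I * ((k * Y ^ 256 : ℕ) : ℂ) * (θ : ℂ)) * t 0‖ := by
        rw [norm_mul, hn3, one_mul]
      rw [h3, h2]
      refine le_trans (norm_sub_le _ _) ?_
      rw [norm_mul _ (E 0), hn3, one_mul]
      refine add_le_add ?_ le_rfl
      refine le_trans (norm_sub_le _ _) ?_
      rw [norm_mul _ (b 0), hn3, one_mul]
      refine add_le_add ?_ le_rfl
      exact norm_sub_le _ _
    have h4 := hg 0 (by simp)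
    have h5 := hb 0 (by simp)
    have h6 := hE 0 (by simp)
    have h7 : 0 ≤ c1 * R := mul_nonneg hc1.le hR0.le
    nlinarith
  refine ⟨?_, (k : ℝ), ?_, ?_⟩
  · refine le_trans ?_ hlow
    have h1 : c1 / 2 * (10 * (Y : ℝ) ^ 127) ≤ c1 / 2 * R :=
      mul_le_mul_of_nonneg_left hR (by positivity)
    refine le_trans ?_ h1
    have h2 : (Y : ℝ) ^ 120 ≤ (Y : ℝ) ^ 126 := pow_le_pow_right₀ (by linarith) (by norm_num)
    refine le_trans h2 ?_
    rw [e127]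
    have h3 : c1 / 2 * (10 * (Y * (Y : ℝ) ^ 126)) = (c1 * Y) * 5 * (Y : ℝ) ^ 126 := by ring
    rw [h3]
    have h4 : (1 : ℝ) * (Y : ℝ) ^ 126 ≤ (c1 * Y) * 5 * (Y : ℝ) ^ 126 := by
      apply mul_le_mul_of_nonneg_right _ hY126.le
      linarith
    linarith
  · rw [abs_of_nonneg (Nat.cast_nonneg _)]; linarith
  · intro z hz
    have hc : (((k : ℝ)) : ℂ) = (k : ℂ) := by push_cast; rfl
    rw [hc, hsplit z hz]
    have h1 : ‖g z + Complex.exp (Complex.I * ((k * Y ^ 256 : ℕ) : ℂ) * (θ : ℂ)) *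
        (b z + t z + E z)‖ ≤ (6 * C2 + 1) * R := by
      refine le_trans (norm_add_le _ _) ?_
      rw [norm_mul, hn3, one_mul]
      have h2 : ‖b z + t z + E z‖ ≤ ‖b z‖ + ‖t z‖ + ‖E z‖ :=
        le_trans (norm_add_le _ _) (add_le_add (norm_add_le _ _) le_rfl)
      have h3 := hg z hz
      have h4 := hb z hz
      have h5 := ht z hz
      have h6 := hE z hz
      have h7 : c1 / 8 * R ≤ 1 / 8 * R := mul_le_mul_of_nonneg_right (by linarith) hR0.le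
      linarith
    refine le_trans h1 ?_
    rw [hLs]
    have h8 : (6 * C2 + 1) * R = ((6 * C2 + 1) * 2 / c1) * (c1 / 2 * R) := by
      field_simp
    rw [h8]
    apply mul_le_mul_of_nonneg_left hlow
    apply div_nonneg _ hc1.le
    linarith

theorem region3 (L0 C0 c1 C2 : ℝ) (hL0 : 1 ≤ L0) (hC0 : 1 ≤ C0)
    (hc1 : 0 < c1) (hc11 : c1 ≤ 1) (hC2 : 1 ≤ C2) : ∃ CR0 : ℝ, 1 ≤ CR0 ∧ ∀ CR : ℝ, CR0 ≤ CR →
    ∃ Ls : ℝ, 1 ≤ Ls ∧
    ∀ (La D0 ρ C3 : ℝ) (k : ℕ), 1 ≤ La → 1 ≤ k → ∃ Y0 : ℕ, ∀ Y : ℕ, Y0 ≤ Y →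
      ∀ (a be al e : ℕ → ℤ) (v : ℂ), StepData L0 C0 La CR D0 ρ c1 C2 C3 k Y a be al e v →
      ∀ θ : ℝ, cell (mm Y) (ii1 Y) ≤ θ → θ ≤ cell (mm Y) (ii2 Y) →
      PtGood Ls k Y a e θ := by
  set K1 : ℝ := 3 * ((4 * L0) * ((4 * C0) * 55) * 80) with hK1
  set K2 : ℝ := L0 * (C0 * 55) with hK2
  have hK1p : 0 ≤ K1 := by positivity
  have hK2p : 0 ≤ K2 := by positivity
  refine ⟨8 * (K1 + K2) / c1 + 1, ?_, ?_⟩
  · have : 0 ≤ 8 * (K1 + K2) / c1 := by positivity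
    linarith
  intro CR hCR
  have hCR1 : 1 ≤ CR := by
    have : 0 ≤ 8 * (K1 + K2) / c1 := by positivity
    linarith
  have hK12 : K1 + K2 ≤ c1 / 8 * CR := by
    have h1 : 8 * (K1 + K2) / c1 ≤ CR := by linarith
    rw [div_le_iff₀ hc1] at h1
    linarith
  refine ⟨(6 * C2 + 1) * 2 / c1, ?_, ?_⟩
  · rw [le_div_iff₀ hc1]; linarith
  intro La D0 ρ C3 k hLa hk
  obtain ⟨Y1, hY1⟩ := exists_nat_ge ((8 * (Real.exp (2 * k) * La ^ 55 * 80)) / c1)
  obtain ⟨Y2, hY2⟩ := exists_nat_ge ((Real.exp (2 * k) * k * 80) / c1)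
  obtain ⟨Y3, hY3⟩ := exists_nat_ge (2 / c1)
  refine ⟨max 100 (max Y1 (max Y2 Y3)), ?_⟩
  intro Y hYY a be al e v D θ hθ1 hθ2
  have hY : 100 ≤ Y := le_trans (le_max_left _ _) hYY
  have hYR1 : (Y1 : ℝ) ≤ Y := by
    have : Y1 ≤ Y := le_trans (le_trans (le_max_left _ _) (le_max_right _ _)) hYY
    exact_mod_cast this
  have hYR2 : (Y2 : ℝ) ≤ Y := by
    have : Y2 ≤ Y := le_trans (le_trans (le_trans (le_max_left _ _) (le_max_right _ _))
      (le_max_right _ _)) hYY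
    exact_mod_cast this
  have hYR3 : (Y3 : ℝ) ≤ Y := by
    have : Y3 ≤ Y := le_trans (le_trans (le_trans (le_max_right _ _) (le_max_right _ _))
      (le_max_right _ _)) hYY
    exact_mod_cast this
  have hYa : 8 * (Real.exp (2 * k) * La ^ 55 * 80) ≤ c1 * Y := by
    have := le_trans hY1 hYR1
    rw [div_le_iff₀ hc1] at this
    linarith
  have hYb : Real.exp (2 * k) * k * 80 ≤ c1 * Y := by
    have := le_trans hY2 hYR2
    rw [div_le_iff₀ hc1] at this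
    linarith
  have hYc : 2 ≤ c1 * Y := by
    have := le_trans hY3 hYR3
    rw [div_le_iff₀ hc1] at this
    linarith
  have hY0 := Ypos Y hY
  have hY100 : (100 : ℝ) ≤ Y := by exact_mod_cast hY
  obtain ⟨p1, p2, p3, p4, p5, p6, p7, p8, p9, p10, p11, p12, p13, p14⟩ := params Y hY
  have hm : (0 : ℝ) < mm Y := by
    have : (10 : ℝ) ≤ mm Y := by exact_mod_cast p1
    linarith
  have hpi4 : Real.pi < 3.15 := Real.pi_lt_d2
  obtain ⟨i, hi, hθi⟩ := nearest_cell Y hY θ hθ1 hθ2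
  obtain ⟨hi1, hi2⟩ := Finset.mem_Icc.mp hi
  have hi1' : (ii1 Y : ℝ) ≤ i := by exact_mod_cast hi1
  have hi2' : (i : ℝ) ≤ ii2 Y := by exact_mod_cast hi2
  obtain ⟨hcpos, -⟩ := QQ_cell Y hY θ i (le_trans p4 hi1) hi2 hθi 0 (by simp)
  -- theta in [0, pi]
  have hθ0 : 0 ≤ θ := by
    refine le_trans ?_ hθ1
    refine le_trans ?_ p8
    positivity
  have hθπ : θ ≤ Real.pi := by
    refine le_trans hθ2 (le_trans p6 ?_)
    rw [div_le_iff₀ (pow_pos hY0 _)]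
    have h1 : (Y : ℝ) ^ 1 ≤ (Y : ℝ) ^ 60 := pow_le_pow_right₀ (by linarith) (by norm_num)
    rw [pow_one] at h1
    have := Real.pi_gt_three
    nlinarith
  set R : ℝ := RR CR k Y a be i with hRdef
  have hRi : CR * om Y i * gam k Y a be i ≤ R := D.Rge i hi
  have hom := om_ge_one Y i hY
  have hgam0 : 0 ≤ gam k Y a be i := by
    unfold gam
    have h1 := norm_nonneg (PP k Y a (cell (kap Y) i : ℂ))
    have h2 := norm_nonneg (BB Y be (cell (mm Y) i : ℂ))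
    positivity
  have hgamB : ‖BB Y be (cell (mm Y) i : ℂ)‖ ≤ gam k Y a be i := by
    unfold gam
    have h1 : 0 ≤ ‖PP k Y a (cell (kap Y) i : ℂ)‖ / cell (mm Y) i :=
      div_nonneg (norm_nonneg _) hcpos.le
    linarith
  have hRgam : CR * gam k Y a be i ≤ R := by
    refine le_trans ?_ hRi
    have h1 : CR * 1 ≤ CR * om Y i := mul_le_mul_of_nonneg_left hom (by linarith)
    rw [mul_one] at h1
    exact mul_le_mul_of_nonneg_right h1 hgam0
  have hRB : 10 * (Y : ℝ) ^ 127 ≤ R := by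
    have h1 := BB_low' hY D.flat (cell (mm Y) i)
    have h2 : gam k Y a be i ≤ CR * gam k Y a be i := le_mul_of_one_le_left hgam0 hCR1
    linarith
  have hR0 : 0 < R := by
    have : (0 : ℝ) < (Y : ℝ) ^ 127 := pow_pos hY0 _
    linarith
  have hsmall : (K1 + K2) * gam k Y a be i ≤ c1 / 8 * R := by
    calc (K1 + K2) * gam k Y a be i ≤ c1 / 8 * CR * gam k Y a be i :=
          mul_le_mul_of_nonneg_right hK12 hgam0
      _ = c1 / 8 * (CR * gam k Y a be i) := by ring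
      _ ≤ c1 / 8 * R := mul_le_mul_of_nonneg_left hRgam (by positivity)
  -- the term g
  have hgz : ∀ z : ℂ, ‖z‖ ≤ 1 → ‖Complex.exp (-(Complex.I * (k : ℂ) * z)) *
      GG k Y a ((θ : ℂ) + z / ((Y : ℂ) ^ 256))‖ ≤ c1 / 8 * R := by
    intro z hz
    rcases le_or_gt ((i : ℝ) - ii1 Y) (kap Y / 8) with hA | hA
    · have h1 := caseA be hY (by linarith) (by linarith) D.good θ i hi1 hi2 hθi hA z hz
      refine le_trans h1 (le_trans ?_ hsmall)
      have h2 : 0 ≤ K2 * gam k Y a be i := mul_nonneg hK2p hgam0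
      rw [add_mul]
      have h3 : 3 * (4 * L0 * (4 * C0 * 55) * 80) * gam k Y a be i = K1 * gam k Y a be i := by
        rw [hK1]
      linarith
    · rcases le_or_gt ((ii2 Y : ℝ) - i) Y with hC | hC
      · have h1 := caseC (k := k) D.good.sign hY θ i hi1 hi2 hθi hC z hz
        refine le_trans h1 ?_
        have h2 : c1 / 8 * (10 * (Y : ℝ) ^ 127) ≤ c1 / 8 * R :=
          mul_le_mul_of_nonneg_left hRB (by positivity)
        refine le_trans ?_ h2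
        have h3 : Real.exp (2 * k) * k * 80 * (Y : ℝ) ^ 124 ≤ (c1 * Y) * (Y : ℝ) ^ 124 :=
          mul_le_mul_of_nonneg_right hYb (by positivity)
        refine le_trans h3 ?_
        have h4 : c1 / 8 * (10 * (Y : ℝ) ^ 127) = (c1 * Y) * ((10 / 8) * (Y : ℝ) ^ 126) := by ring
        rw [h4]
        apply mul_le_mul_of_nonneg_left _ (by positivity)
        have h5 : (Y : ℝ) ^ 124 ≤ (Y : ℝ) ^ 126 := pow_le_pow_right₀ (by linarith) (by norm_num)
        have h6 : (0 : ℝ) < (Y : ℝ) ^ 126 := pow_pos hY0 _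
        linarith
      · -- interior: the weight is Y
        have homY : om Y i = Y := by
          unfold om
          have h1 : (Y : ℝ) ≤ 1 + |(i : ℝ) - (ii1 Y : ℝ)| := by
            rw [abs_of_nonneg (by linarith)]
            have h2 : (Y : ℝ) ≤ kap Y / 8 := by
              have h3 : (Y : ℝ) ^ 3 ≤ (Y : ℝ) ^ 64 :=
                pow_le_pow_right₀ (by linarith) (by norm_num)
              have h4 : 136 * (Y : ℝ) ≤ (Y : ℝ) ^ 3 := by
                have h5 : (Y : ℝ) ^ 3 = Y * Y * Y := by ring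
                have h6 : (136 : ℝ) ≤ Y * Y := by nlinarith
                rw [h5]
                exact mul_le_mul_of_nonneg_right h6 hY0.le
              linarith
            linarith
          have h2 : (Y : ℝ) ≤ 1 + |(ii2 Y : ℝ) - (i : ℝ)| := by
            rw [abs_of_nonneg (by linarith)]
            linarith
          exact min_eq_right (le_min h1 h2)
        have h1 := caseB be hY hLa D.good θ i hi1 hi2 hθi z hz
        refine le_trans h1 ?_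
        have h2 : c1 / 8 * (CR * om Y i * gam k Y a be i) ≤ c1 / 8 * R :=
          mul_le_mul_of_nonneg_left hRi (by positivity)
        refine le_trans ?_ h2
        rw [homY]
        have h3 : Real.exp (2 * k) * La ^ 55 * 80 ≤ c1 / 8 * (CR * Y) := by
          have h4 : (1 : ℝ) * Y ≤ CR * Y := mul_le_mul_of_nonneg_right hCR1 hY0.le
          have h5 : c1 / 8 * (1 * (Y : ℝ)) ≤ c1 / 8 * (CR * Y) :=
            mul_le_mul_of_nonneg_left h4 (by positivity)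
          linarith
        calc _ ≤ c1 / 8 * (CR * Y) * gam k Y a be i := mul_le_mul_of_nonneg_right h3 hgam0
          _ = c1 / 8 * (CR * Y * gam k Y a be i) := by ring
  -- the flat term
  obtain ⟨hh0, hh1⟩ := hh_bounds Y hY
  have hhn : ‖((1 - hh Y : ℝ) : ℂ)‖ ≤ 1 := by
    rw [Complex.norm_real, Real.norm_eq_abs, abs_of_nonneg (by linarith)]
    linarith
  have hbz : ∀ z : ℂ, ‖z‖ ≤ 1 → ‖((1 - hh Y : ℝ) : ℂ) *
      BB Y be ((θ : ℂ) + z / ((Y : ℂ) ^ 256))‖ ≤ c1 / 8 * R := by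
    intro z hz
    have hreg := D.flat.reg θ z hz
    have e1 : ((Y ^ 256 : ℕ) : ℂ) = (Y : ℂ) ^ 256 := by push_cast; rfl
    have e2 : ((Y ^ 256 : ℕ) : ℝ) = (Y : ℝ) ^ 256 := by push_cast; rfl
    rw [e1] at hreg
    have h1 : ‖BB Y be ((θ : ℂ) + z / ((Y : ℂ) ^ 256))‖ ≤ L0 * ‖BB Y be (θ : ℂ)‖ := hreg
    have hpoly := D.flat.poly (cell (mm Y) i) θ
    rw [e2] at hpoly
    have h3 : (1 + (Y : ℝ) ^ 256 * |cell (mm Y) i - θ|) ≤ 55 := by
      rw [abs_sub_comm]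
      have h4 : (Y : ℝ) ^ 256 * |θ - cell (mm Y) i| ≤ 17 * mm Y * (Real.pi / mm Y) :=
        mul_le_mul p3 hθi (abs_nonneg _) (by positivity)
      have h5 : 17 * mm Y * (Real.pi / mm Y) = 17 * Real.pi := by field_simp
      rw [h5] at h4
      linarith
    have h4 : ‖BB Y be (θ : ℂ)‖ ≤ C0 * 55 * ‖BB Y be (cell (mm Y) i : ℂ)‖ := by
      refine le_trans hpoly ?_
      apply mul_le_mul_of_nonneg_right _ (norm_nonneg _)
      exact mul_le_mul_of_nonneg_left h3 (by linarith)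
    rw [norm_mul]
    calc _ ≤ 1 * (L0 * (C0 * 55 * ‖BB Y be (cell (mm Y) i : ℂ)‖)) := by
          apply mul_le_mul hhn _ (norm_nonneg _) (by norm_num)
          exact le_trans h1 (mul_le_mul_of_nonneg_left h4 (by linarith))
      _ = K2 * ‖BB Y be (cell (mm Y) i : ℂ)‖ := by rw [hK2]; ring
      _ ≤ K2 * gam k Y a be i := mul_le_mul_of_nonneg_left hgamB hK2p
      _ ≤ (K1 + K2) * gam k Y a be i :=
          mul_le_mul_of_nonneg_right (by linarith) hgam0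
      _ ≤ c1 / 8 * R := hsmall
  -- the splitting
  have hsp : ∀ z : ℂ, ∃ E : ℂ, ‖z‖ ≤ 1 → (‖E‖ ≤ 2 * (Y : ℝ) ^ 126 ∧
      Complex.exp (-(Complex.I * (k : ℂ) * z)) * PN k Y a e ((θ : ℂ) + z / ((Y : ℂ) ^ 256)) =
      Complex.exp (-(Complex.I * (k : ℂ) * z)) * GG k Y a ((θ : ℂ) + z / ((Y : ℂ) ^ 256)) +
      Complex.exp (Complex.I * ((k * Y ^ 256 : ℕ) : ℂ) * (θ : ℂ)) *
        (((1 - hh Y : ℝ) : ℂ) * BB Y be ((θ : ℂ) + z / ((Y : ℂ) ^ 256)) +
          Complex.exp (Complex.I * (8 * (mm Y : ℂ)) * ((θ : ℂ) + z / ((Y : ℂ) ^ 256))) *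
            (v * tt CR k Y a be al ((θ : ℂ) + z / ((Y : ℂ) ^ 256))) + E)) := by
    intro z
    rcases le_or_gt ‖z‖ 1 with hz | hz
    · obtain ⟨E, h1, h2⟩ := PN_split hY D θ hθ0 hθπ z hz
      exact ⟨E, fun _ => ⟨h1, h2⟩⟩
    · exact ⟨0, fun h => absurd h (not_le.mpr hz)⟩
  choose E hE using hsp
  refine finish3 hY hc1 hc11 hC2 hRB hYc rfl
    (fun z => Complex.exp (-(Complex.I * (k : ℂ) * z)) *
      GG k Y a ((θ : ℂ) + z / ((Y : ℂ) ^ 256)))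
    (fun z => ((1 - hh Y : ℝ) : ℂ) * BB Y be ((θ : ℂ) + z / ((Y : ℂ) ^ 256)))
    (fun z => Complex.exp (Complex.I * (8 * (mm Y : ℂ)) * ((θ : ℂ) + z / ((Y : ℂ) ^ 256))) *
            (v * tt CR k Y a be al ((θ : ℂ) + z / ((Y : ℂ) ^ 256)))) E hgz hbz ?_ ?_
    (fun z hz => (hE z hz).1) (fun z hz => (hE z hz).2)
  · intro z hz
    have h1 := norm_exp8 Y hY θ z hz
    have h2 := D.tup θ i z hi hθi hθ0 hz
    rw [norm_mul, norm_mul]
    have h10 : ‖v‖ * ‖tt CR k Y a be al ((θ : ℂ) + z / ((Y : ℂ) ^ 256))‖ ≤ 3 * (C2 * R) :=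
      mul_le_mul D.v3 h2 (norm_nonneg _) (by norm_num)
    calc _ ≤ 2 * (3 * (C2 * R)) :=
          mul_le_mul h1 h10 (mul_nonneg (norm_nonneg _) (norm_nonneg _)) (by norm_num)
      _ = 6 * C2 * R := by ring
  · rw [zero_div, add_zero, norm_mul, norm_mul]
    have h1 : ‖Complex.exp (Complex.I * (8 * (mm Y : ℂ)) * (θ : ℂ))‖ = 1 := by
      have := norm_exp_nat_real (8 * mm Y) θ
      rw [← this]
      congr 2
      push_cast
      ring
    rw [h1, one_mul]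
    have h2 := D.tlow θ i hi hθi
    have h3 := D.v1
    have h4 := norm_nonneg (tt CR k Y a be al (θ : ℂ))
    calc c1 * R ≤ 1 * ‖tt CR k Y a be al (θ : ℂ)‖ := by rw [one_mul]; exact h2
      _ ≤ ‖v‖ * ‖tt CR k Y a be al (θ : ℂ)‖ := mul_le_mul_of_nonneg_right h3 h4

end Pool.Agent.Helper59.Lit
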