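import Pool.Agent.Helper59.Lit.Region3

/-!
# Region IV: right of the last bump
-/

set_option autoImplicit false

namespace Pool.Agent.Helper59.Lit

open Finset

/-- the old term is small -/
theorem r4_old {L0 C0 La CR D0 ρ c1 C2 C3 : ℝ} {k Y : ℕ} {a be al e : ℕ → ℤ} {v : ℂ}
    (hY : 100 ≤ Y) (D : StepData L0 C0 La CR D0 ρ c1 C2 C3 k Y a be al e v)
    (hYk : 7 * k * Real.exp (2 * k) ≤ Y) (θ : ℝ)
    (h1 : cell (mm Y) (ii2 Y) ≤ θ) (h2 : θ ≤ Real.pi) (z : ℂ) (hz : ‖z‖ ≤ 1) :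
    ‖Complex.exp (-(Complex.I * (k : ℂ) * z)) * GG k Y a ((θ : ℂ) + z / ((Y : ℂ) ^ 256))‖ ≤
      (Y : ℝ) ^ 126 := by
  have hY0 := Ypos Y hY
  have hY100 : (100 : ℝ) ≤ Y := by exact_mod_cast hY
  obtain ⟨p1, p2, p3, p4, p5, p6, p7, p8, p9, p10, p11, p12, p13, p14⟩ := params Y hY
  have hY60 : (0 : ℝ) < (Y : ℝ) ^ 60 := pow_pos hY0 _
  have hθ6 : 6 / (Y : ℝ) ^ 60 ≤ θ := p7.trans h1
  have hθ0 : 0 < θ := lt_of_lt_of_le (by positivity) hθ6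
  have n1 : ‖Complex.exp (-(Complex.I * (k : ℂ) * z))‖ ≤ Real.exp k := by
    have := norm_exp_negI_mul (k : ℝ) z hz (Nat.cast_nonneg k)
    simpa using this
  have n2 : ‖GG k Y a ((θ : ℂ) + z / ((Y : ℂ) ^ 256))‖ ≤
      (k * (Y : ℝ) ^ 64 * Real.exp k) * (7 * (Y : ℝ) ^ 60) := by
    simp only [GG, QQ]
    rw [norm_mul]
    apply mul_le_mul (PP_triv k Y hY a D.good.sign θ z hz) _ (norm_nonneg _) (by positivity)
    refine le_trans (rq_up Y hY θ hθ0 h2 z hz) ?_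
    rw [div_le_iff₀ hθ0]
    rw [div_le_iff₀ hY60] at hθ6
    nlinarith
  rw [norm_mul]
  calc _ ≤ Real.exp k * ((k * (Y : ℝ) ^ 64 * Real.exp k) * (7 * (Y : ℝ) ^ 60)) :=
        mul_le_mul n1 n2 (norm_nonneg _) (Real.exp_pos _).le
    _ = 7 * k * (Real.exp k * Real.exp k) * (Y : ℝ) ^ 124 := by ring
    _ = 7 * k * Real.exp (2 * k) * (Y : ℝ) ^ 124 := by
        rw [← Real.exp_add]; ring_nf
    _ ≤ Y * (Y : ℝ) ^ 124 := mul_le_mul_of_nonneg_right hYk (by positivity)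
    _ = (Y : ℝ) ^ 125 := by ring
    _ ≤ (Y : ℝ) ^ 126 := pow_le_pow_right₀ (by linarith) (by norm_num)

/-- the bump sum is controlled by the flat polynomial -/
theorem r4_tt {L0 C0 La CR D0 ρ c1 C2 C3 : ℝ} {k Y : ℕ} {a be al e : ℕ → ℤ} {v : ℂ}
    (hY : 100 ≤ Y) (hC0 : 1 ≤ C0) (hCR : 1 ≤ CR) (hC2 : 1 ≤ C2) (hC3 : 1 ≤ C3)
    (D : StepData L0 C0 La CR D0 ρ c1 C2 C3 k Y a be al e v) (θ : ℝ)
    (h1 : cell (mm Y) (ii2 Y) ≤ θ) (h2 : θ ≤ Real.pi) (z : ℂ) (hz : ‖z‖ ≤ 1) :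
    ‖tt CR k Y a be al ((θ : ℂ) + z / ((Y : ℂ) ^ 256))‖ ≤
      17 * C0 * C2 * C3 * CR / (1 + mm Y * (θ - cell (mm Y) (ii2 Y))) * ‖BB Y be (θ : ℂ)‖ := by
  have hY0 := Ypos Y hY
  obtain ⟨p1, p2, p3, p4, p5, p6, p7, p8, p9, p10, p11, p12, p13, p14⟩ := params Y hY
  have hm : (0 : ℝ) < mm Y := by
    have : (10 : ℝ) ≤ mm Y := by exact_mod_cast p1
    linarith
  set u : ℝ := mm Y * (θ - cell (mm Y) (ii2 Y)) with hu
  have hu0 : 0 ≤ u := mul_nonneg hm.le (by linarith)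
  have hBn := norm_nonneg (BB Y be (θ : ℂ))
  have e2 : ((Y ^ 256 : ℕ) : ℝ) = (Y : ℝ) ^ 256 := by push_cast; rfl
  have hpoly := D.flat.poly θ (cell (mm Y) (ii2 Y))
  rw [e2, abs_of_nonneg (by linarith : 0 ≤ θ - cell (mm Y) (ii2 Y))] at hpoly
  have h3 : 1 + (Y : ℝ) ^ 256 * (θ - cell (mm Y) (ii2 Y)) ≤ 17 * (1 + u) := by
    have h4 : (Y : ℝ) ^ 256 * (θ - cell (mm Y) (ii2 Y)) ≤
        17 * mm Y * (θ - cell (mm Y) (ii2 Y)) :=
      mul_le_mul_of_nonneg_right p3 (by linarith)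
    have h5 : 17 * mm Y * (θ - cell (mm Y) (ii2 Y)) = 17 * u := by rw [hu]; ring
    linarith
  have h4 : ‖BB Y be (cell (mm Y) (ii2 Y) : ℂ)‖ ≤ C0 * (17 * (1 + u)) * ‖BB Y be (θ : ℂ)‖ := by
    refine le_trans hpoly ?_
    apply mul_le_mul_of_nonneg_right _ hBn
    exact mul_le_mul_of_nonneg_left h3 (by linarith)
  have h5 : RR CR k Y a be (ii2 Y) ≤
      C3 * CR * (C0 * (17 * (1 + u)) * ‖BB Y be (θ : ℂ)‖) := by
    refine le_trans D.Rright ?_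
    exact mul_le_mul_of_nonneg_left h4 (by positivity)
  have h6 := D.tright θ z h1 h2 hz
  rw [← hu] at h6
  refine le_trans h6 ?_
  have hu1 : 0 < 1 + u := by linarith
  have h7 : (1 + u) * (1 + u) ≤ (1 + u) ^ 8 := by
    have h8 : (1 + u) * (1 + u) = (1 + u) ^ 2 := by ring
    rw [h8]
    exact pow_le_pow_right₀ (by linarith) (by norm_num)
  rw [div_le_iff₀ (by positivity)]
  calc C2 * RR CR k Y a be (ii2 Y) ≤ C2 * (C3 * CR * (C0 * (17 * (1 + u)) * ‖BB Y be (θ : ℂ)‖)) :=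
        mul_le_mul_of_nonneg_left h5 (by linarith)
    _ = (17 * C0 * C2 * C3 * CR / (1 + u) * ‖BB Y be (θ : ℂ)‖) * ((1 + u) * (1 + u)) := by
        field_simp
    _ ≤ (17 * C0 * C2 * C3 * CR / (1 + u) * ‖BB Y be (θ : ℂ)‖) * (1 + u) ^ 8 := by
        apply mul_le_mul_of_nonneg_left h7
        positivity

theorem r4_fac (X w v t : ℂ) (h : X ≠ 0) : X + w * (v * t) = X * (1 + v * (w * t / X)) := by
  field_simp

/-- Region IV: right of the last bump, including the second crossing. -/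
theorem region4 (L0 C0 CR c1 C2 C3 : ℝ) (hL0 : 1 ≤ L0) (hC0 : 1 ≤ C0) (hCR : 1 ≤ CR)
    (_hc1 : 0 < c1) (hC2 : 1 ≤ C2) (hC3 : 1 ≤ C3) : ∃ D1 : ℝ, 1 ≤ D1 ∧ ∀ D0 ρ : ℝ, D1 ≤ D0 →
    0 < ρ → ρ ≤ 1 → ∃ Ls : ℝ, 1 ≤ Ls ∧ ∀ (La : ℝ) (k : ℕ), 1 ≤ La → 1 ≤ k →
    ∃ Y0 : ℕ, ∀ Y : ℕ, Y0 ≤ Y → ∀ (a be al e : ℕ → ℤ) (v : ℂ),
      StepData L0 C0 La CR D0 ρ c1 C2 C3 k Y a be al e v → ∀ θ : ℝ,
      cell (mm Y) (ii2 Y) ≤ θ → θ ≤ Real.pi →
      PtGood Ls k Y a e θ := by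
  set K : ℝ := 17 * C0 * C2 * C3 * CR with hK
  have hK1 : 1 ≤ K := by
    rw [hK]
    have h1 : 1 ≤ C0 * C2 := one_le_mul_of_one_le_of_one_le hC0 hC2
    have h2 : 1 ≤ C0 * C2 * C3 := one_le_mul_of_one_le_of_one_le h1 hC3
    have h3 : 1 ≤ C0 * C2 * C3 * CR := one_le_mul_of_one_le_of_one_le h2 hCR
    have h4 : 17 * C0 * C2 * C3 * CR = 17 * (C0 * C2 * C3 * CR) := by ring
    rw [h4]
    linarith
  refine ⟨12 * K, by linarith, ?_⟩
  intro D0 ρ hD0 hρ hρ1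
  refine ⟨(L0 + 6 * K + 1) * (2 / ρ), ?_, ?_⟩
  · have h1 : 1 ≤ L0 + 6 * K + 1 := by linarith
    have h2 : 1 ≤ 2 / ρ := by
      rw [le_div_iff₀ hρ]; linarith
    exact one_le_mul_of_one_le_of_one_le h1 h2
  intro La k hLa hk
  obtain ⟨Y1, hY1⟩ := exists_nat_ge (7 * k * Real.exp (2 * k))
  obtain ⟨Y2, hY2⟩ := exists_nat_ge (1 / ρ)
  refine ⟨max 100 (max Y1 Y2), ?_⟩
  intro Y hYY a be al e v D θ hθ1 hθ2
  have hY : 100 ≤ Y := le_trans (le_max_left _ _) hYY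
  have hYk : 7 * k * Real.exp (2 * k) ≤ (Y : ℝ) :=
    le_trans hY1 (by exact_mod_cast le_trans (le_trans (le_max_left _ _) (le_max_right _ _)) hYY)
  have hYρ : 1 / ρ ≤ (Y : ℝ) :=
    le_trans hY2 (by exact_mod_cast le_trans (le_trans (le_max_right _ _) (le_max_right _ _)) hYY)
  have hρY : 1 ≤ ρ * Y := by
    rw [div_le_iff₀ hρ] at hYρ
    linarith
  have hY0 := Ypos Y hY
  have hY100 : (100 : ℝ) ≤ Y := by exact_mod_cast hY
  obtain ⟨p1, p2, p3, p4, p5, p6, p7, p8, p9, p10, p11, p12, p13, p14⟩ := params Y hY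
  have hm : (0 : ℝ) < mm Y := by
    have : (10 : ℝ) ≤ mm Y := by exact_mod_cast p1
    linarith
  have hY60 : (0 : ℝ) < (Y : ℝ) ^ 60 := pow_pos hY0 _
  have hθ6 : 6 / (Y : ℝ) ^ 60 ≤ θ := p7.trans hθ1
  have hθ0 : 0 < θ := lt_of_lt_of_le (by positivity) hθ6
  set B : ℝ := ‖BB Y be (θ : ℂ)‖ with hB
  have hBlow : 10 * (Y : ℝ) ^ 127 ≤ B := BB_low' hY D.flat θ
  have hY126 : (0 : ℝ) < (Y : ℝ) ^ 126 := pow_pos hY0 _
  have e127 : (Y : ℝ) ^ 127 = Y * (Y : ℝ) ^ 126 := by ring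
  have hB0 : 0 < B := lt_of_lt_of_le (by positivity) hBlow
  -- the error is small
  have hsmall : 10 * (Y : ℝ) ^ 126 ≤ ρ * B := by
    calc 10 * (Y : ℝ) ^ 126 = 1 * (10 * (Y : ℝ) ^ 126) := by ring
      _ ≤ (ρ * Y) * (10 * (Y : ℝ) ^ 126) :=
          mul_le_mul_of_nonneg_right hρY (by positivity)
      _ = ρ * (10 * (Y : ℝ) ^ 127) := by rw [e127]; ring
      _ ≤ ρ * B := mul_le_mul_of_nonneg_left hBlow hρ.le
  have hρB : ρ * B ≤ B := mul_le_of_le_one_left hB0.le hρ1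
  have hB1000 : 1000 * (Y : ℝ) ^ 126 ≤ B := by
    refine le_trans ?_ hBlow
    rw [e127]
    have : 100 * (Y : ℝ) ^ 126 ≤ Y * (Y : ℝ) ^ 126 := mul_le_mul_of_nonneg_right hY100 hY126.le
    linarith
  obtain ⟨hh0, hh1⟩ := hh_bounds Y hY
  have hhn : ‖((1 - hh Y : ℝ) : ℂ)‖ = 1 - hh Y := by
    rw [Complex.norm_real, Real.norm_eq_abs, abs_of_nonneg (by linarith)]
  have hn3 : ‖Complex.exp (Complex.I * ((k * Y ^ 256 : ℕ) : ℂ) * (θ : ℂ))‖ = 1 :=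
    norm_exp_nat_real _ _
  set u : ℝ := mm Y * (θ - cell (mm Y) (ii2 Y)) with hu
  have hu0 : 0 ≤ u := mul_nonneg hm.le (by linarith)
  -- lower bound at the real point
  obtain ⟨E0, hE0, hP0⟩ := PN_split hY D θ hθ0.le hθ2 0 (by simp)
  have hold0 := r4_old hY D hYk θ hθ1 hθ2 0 (by simp)
  have e8 : Complex.exp (Complex.I * (8 * (mm Y : ℂ)) * (θ : ℂ)) =
      Complex.exp (Complex.I * ((8 * mm Y : ℕ) : ℂ) * (θ : ℂ)) := by
    congr 2
    push_cast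
    ring
  have h8n : ‖Complex.exp (Complex.I * (8 * (mm Y : ℂ)) * (θ : ℂ))‖ = 1 := by
    rw [e8]
    exact norm_exp_nat_real _ _
  simp only [mul_zero, neg_zero, Complex.exp_zero, one_mul, zero_div, add_zero] at hP0 hold0
  set g0 : ℂ := GG k Y a (θ : ℂ) with hg0
  set m0 : ℂ := ((1 - hh Y : ℝ) : ℂ) * BB Y be (θ : ℂ) +
    Complex.exp (Complex.I * (8 * (mm Y : ℂ)) * (θ : ℂ)) * (v * tt CR k Y a be al (θ : ℂ)) with hm0
  have hmain : 98 / 100 * ρ * B ≤ ‖m0‖ ∨ B * (7 / 10) ≤ ‖m0‖ := by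
    rcases le_or_gt u D0 with hcase | hcase
    · -- crossing zone
      left
      have hc := D.cross2 θ hθ1 (by
        have : u / mm Y ≤ D0 / mm Y := div_le_div_of_nonneg_right hcase hm.le
        have h2 : u / mm Y = θ - cell (mm Y) (ii2 Y) := by rw [hu]; field_simp
        linarith)
      have hne : ((1 - hh Y : ℝ) : ℂ) * BB Y be (θ : ℂ) ≠ 0 := by
        rw [← norm_pos_iff, norm_mul, hhn]
        exact mul_pos (by linarith) hB0
      have hfac : m0 = (((1 - hh Y : ℝ) : ℂ) * BB Y be (θ : ℂ)) *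
          (1 + v * ph2 CR k Y a be al θ) := by
        rw [hm0, e8]
        unfold ph2
        exact r4_fac _ _ _ _ hne
      rw [hfac, norm_mul, norm_mul, hhn]
      calc 98 / 100 * ρ * B = (98 / 100 * B) * ρ := by ring
        _ ≤ ((1 - hh Y) * B) * ‖1 + v * ph2 CR k Y a be al θ‖ := by
            apply mul_le_mul _ hc hρ.le (mul_nonneg (by linarith) hB0.le)
            exact mul_le_mul_of_nonneg_right (by linarith) hB0.le
    · -- far zone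
      right
      have ht := r4_tt hY hC0 hCR hC2 hC3 D θ hθ1 hθ2 0 (by simp)
      rw [zero_div, add_zero, ← hK, ← hu, ← hB] at ht
      have h1u : 12 * K ≤ 1 + u := by linarith
      have h1 : K / (1 + u) ≤ 1 / 12 := by
        rw [div_le_div_iff₀ (by linarith) (by norm_num)]
        linarith
      have ht2 : ‖tt CR k Y a be al (θ : ℂ)‖ ≤ 1 / 12 * B :=
        ht.trans (mul_le_mul_of_nonneg_right h1 hB0.le)
      have h2 : ‖Complex.exp (Complex.I * (8 * (mm Y : ℂ)) * (θ : ℂ)) *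
          (v * tt CR k Y a be al (θ : ℂ))‖ ≤ 1 / 4 * B := by
        rw [norm_mul, norm_mul, h8n, one_mul]
        calc ‖v‖ * ‖tt CR k Y a be al (θ : ℂ)‖ ≤ 3 * (1 / 12 * B) :=
              mul_le_mul D.v3 ht2 (norm_nonneg _) (by norm_num)
          _ = 1 / 4 * B := by ring
      have h3 : ‖((1 - hh Y : ℝ) : ℂ) * BB Y be (θ : ℂ)‖ = (1 - hh Y) * B := by
        rw [norm_mul, hhn]
      have h4 := norm_sub_le_norm_add (((1 - hh Y : ℝ) : ℂ) * BB Y be (θ : ℂ))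
        (Complex.exp (Complex.I * (8 * (mm Y : ℂ)) * (θ : ℂ)) *
          (v * tt CR k Y a be al (θ : ℂ)))
      rw [h3] at h4
      have h5 : 99 / 100 * B ≤ (1 - hh Y) * B :=
        mul_le_mul_of_nonneg_right (by linarith) hB0.le
      rw [hm0]
      linarith
  have hlow : ρ / 2 * B ≤ ‖PN k Y a e (θ : ℂ)‖ := by
    have h1 : ‖m0‖ ≤ ‖PN k Y a e (θ : ℂ)‖ + (Y : ℝ) ^ 126 + 2 * (Y : ℝ) ^ 126 := by
      have h2 : Complex.exp (Complex.I * ((k * Y ^ 256 : ℕ) : ℂ) * (θ : ℂ)) * m0 =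
          PN k Y a e (θ : ℂ) - g0 -
          Complex.exp (Complex.I * ((k * Y ^ 256 : ℕ) : ℂ) * (θ : ℂ)) * E0 := by
        rw [hP0, hm0]; ring
      have h3 : ‖m0‖ = ‖Complex.exp (Complex.I * ((k * Y ^ 256 : ℕ) : ℂ) * (θ : ℂ)) * m0‖ := by
        rw [norm_mul, hn3, one_mul]
      rw [h3, h2]
      refine le_trans (norm_sub_le _ _) ?_
      rw [norm_mul _ E0, hn3, one_mul]
      refine add_le_add ?_ hE0
      refine le_trans (norm_sub_le _ _) ?_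
      exact add_le_add le_rfl hold0
    rcases hmain with h2 | h2
    · have h3 : 98 / 100 * ρ * B = 98 / 100 * (ρ * B) := by ring
      have h4 : ρ / 2 * B = 1 / 2 * (ρ * B) := by ring
      rw [h3] at h2
      rw [h4]
      linarith
    · have h4 : ρ / 2 * B = 1 / 2 * (ρ * B) := by ring
      rw [h4]
      linarith
  refine ⟨?_, (k : ℝ), ?_, ?_⟩
  · refine le_trans ?_ hlow
    have h1 : ρ / 2 * B = 1 / 2 * (ρ * B) := by ring
    rw [h1]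
    have h2 : (Y : ℝ) ^ 120 ≤ (Y : ℝ) ^ 126 := pow_le_pow_right₀ (by linarith) (by norm_num)
    linarith
  · rw [abs_of_nonneg (Nat.cast_nonneg _)]; linarith
  · intro z hz
    have hc : (((k : ℝ)) : ℂ) = (k : ℂ) := by push_cast; rfl
    obtain ⟨E, hE, hP⟩ := PN_split hY D θ hθ0.le hθ2 z hz
    rw [hc, hP]
    have hold := r4_old hY D hYk θ hθ1 hθ2 z hz
    have hreg := D.flat.reg θ z hz
    have e1 : ((Y ^ 256 : ℕ) : ℂ) = (Y : ℂ) ^ 256 := by push_cast; rfl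
    rw [e1] at hreg
    have h1 : ‖BB Y be ((θ : ℂ) + z / ((Y : ℂ) ^ 256))‖ ≤ L0 * B := hreg
    have h2 : ‖((1 - hh Y : ℝ) : ℂ) * BB Y be ((θ : ℂ) + z / ((Y : ℂ) ^ 256))‖ ≤ L0 * B := by
      rw [norm_mul, hhn]
      calc (1 - hh Y) * ‖BB Y be ((θ : ℂ) + z / ((Y : ℂ) ^ 256))‖ ≤ 1 * (L0 * B) :=
            mul_le_mul (by linarith) h1 (norm_nonneg _) (by norm_num)
        _ = L0 * B := one_mul _
    have ht := r4_tt hY hC0 hCR hC2 hC3 D θ hθ1 hθ2 z hz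
    rw [← hK, ← hu, ← hB] at ht
    have ht2 : ‖tt CR k Y a be al ((θ : ℂ) + z / ((Y : ℂ) ^ 256))‖ ≤ K * B := by
      refine ht.trans (mul_le_mul_of_nonneg_right ?_ hB0.le)
      exact div_le_self (by linarith) (by linarith)
    have h3 := norm_exp8 Y hY θ z hz
    have h4 : ‖Complex.exp (Complex.I * (8 * (mm Y : ℂ)) * ((θ : ℂ) + z / ((Y : ℂ) ^ 256))) *
        (v * tt CR k Y a be al ((θ : ℂ) + z / ((Y : ℂ) ^ 256)))‖ ≤ 6 * K * B := by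
      rw [norm_mul, norm_mul]
      have h10 : ‖v‖ * ‖tt CR k Y a be al ((θ : ℂ) + z / ((Y : ℂ) ^ 256))‖ ≤ 3 * (K * B) :=
        mul_le_mul D.v3 ht2 (norm_nonneg _) (by norm_num)
      calc _ ≤ 2 * (3 * (K * B)) :=
            mul_le_mul h3 h10 (mul_nonneg (norm_nonneg _) (norm_nonneg _)) (by norm_num)
        _ = 6 * K * B := by ring
    have h5 : ‖Complex.exp (-(Complex.I * (k : ℂ) * z)) *
          GG k Y a ((θ : ℂ) + z / ((Y : ℂ) ^ 256)) +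
        Complex.exp (Complex.I * ((k * Y ^ 256 : ℕ) : ℂ) * (θ : ℂ)) *
        (((1 - hh Y : ℝ) : ℂ) * BB Y be ((θ : ℂ) + z / ((Y : ℂ) ^ 256)) +
          Complex.exp (Complex.I * (8 * (mm Y : ℂ)) * ((θ : ℂ) + z / ((Y : ℂ) ^ 256))) *
            (v * tt CR k Y a be al ((θ : ℂ) + z / ((Y : ℂ) ^ 256))) + E)‖ ≤
        (L0 + 6 * K + 1) * B := by
      refine le_trans (norm_add_le _ _) ?_
      rw [norm_mul (Complex.exp (Complex.I * ((k * Y ^ 256 : ℕ) : ℂ) * (θ : ℂ))), hn3, one_mul]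
      have h6 := norm_add₃_le (a := ((1 - hh Y : ℝ) : ℂ) * BB Y be ((θ : ℂ) + z / ((Y : ℂ) ^ 256)))
        (b := Complex.exp (Complex.I * (8 * (mm Y : ℂ)) * ((θ : ℂ) + z / ((Y : ℂ) ^ 256))) *
            (v * tt CR k Y a be al ((θ : ℂ) + z / ((Y : ℂ) ^ 256)))) (c := E)
      have h7 : (L0 + 6 * K + 1) * B = L0 * B + 6 * K * B + B := by ring
      rw [h7]
      linarith
    refine le_trans h5 ?_
    have h8 : (L0 + 6 * K + 1) * B = ((L0 + 6 * K + 1) * (2 / ρ)) * (ρ / 2 * B) := by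
      field_simp
    rw [h8]
    apply mul_le_mul_of_nonneg_left hlow
    have : 0 ≤ L0 + 6 * K + 1 := by linarith
    positivity

end Pool.Agent.Helper59.Lit
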