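import Pool.Agent.Helper59.Lit.Region1
import Pool.Agent.Helper59.Lit.Region2
import Pool.Agent.Helper59.Lit.Region3
import Pool.Agent.Helper59.Lit.Region4
import Pool.Agent.Helper59.Lit.Region5
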