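import Pool.Agent.Helper59.Lit.Defs

/-!
# Module Rq: the short-run block polynomial `1 + z + ... - ... - z^(b-1)`
with `b = Y^192` coefficients, the last `Y^176` of them `-1`, at scale `L = Y^256`
-/

set_option autoImplicit false

namespace Pool.Agent.Helper59.Lit

open Finset

namespace RqAux

theorem exp_pow (s : ℂ) (j : ℕ) :
    Complex.exp (Complex.I * (j : ℂ) * s) = Complex.exp (Complex.I * s) ^ j := by
  rw [← Complex.exp_nat_mul]
  congr 1
  ring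

theorem sv_eq (b mr : ℕ) (s : ℂ) :
    sv b (rs b mr) s = 2 * ∑ j ∈ range (b - mr), Complex.exp (Complex.I * s) ^ j -
      ∑ j ∈ range b, Complex.exp (Complex.I * s) ^ j := by
  unfold sv rv
  have h1 : ∑ j ∈ range (b - mr), Complex.exp (Complex.I * s) ^ j =
      ∑ j ∈ range b, if j < b - mr then Complex.exp (Complex.I * s) ^ j else 0 := by
    rw [← Finset.sum_filter]
    refine Finset.sum_congr ?_ fun _ _ => rfl
    ext j
    simp only [mem_range, mem_filter]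
    omega
  rw [h1, Finset.mul_sum, ← Finset.sum_sub_distrib]
  refine Finset.sum_congr rfl fun j _ => ?_
  rw [exp_pow]
  by_cases hj : j < b - mr
  · have h2 : rs b mr j = 1 := if_pos hj
    rw [if_pos hj]
    simp only [h2]
    push_cast; ring
  · have h2 : rs b mr j = -1 := if_neg hj
    rw [if_neg hj]
    simp only [h2]
    push_cast; ring

theorem key (b mr : ℕ) (s : ℂ) :
    (Complex.exp (Complex.I * s) - 1) * sv b (rs b mr) s =
      2 * Complex.exp (Complex.I * s) ^ (b - mr) - Complex.exp (Complex.I * s) ^ b - 1 := by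
  rw [sv_eq]
  have h1 := mul_geom_sum (Complex.exp (Complex.I * s)) (b - mr)
  have h2 := mul_geom_sum (Complex.exp (Complex.I * s)) b
  calc _ = 2 * ((Complex.exp (Complex.I * s) - 1) *
        ∑ j ∈ range (b - mr), Complex.exp (Complex.I * s) ^ j) -
        (Complex.exp (Complex.I * s) - 1) * ∑ j ∈ range b, Complex.exp (Complex.I * s) ^ j := by
        ring
    _ = _ := by rw [h1, h2]; ring

/-- difference bound -/
theorem diff (b : ℕ) (a : ℕ → ℤ) (ha : IsSign a) (θ : ℝ) (w : ℂ) (hw : (b : ℝ) * ‖w‖ ≤ 1) :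
    ‖sv b a ((θ : ℂ) + w) - sv b a (θ : ℂ)‖ ≤ 2 * (b : ℝ) ^ 2 * ‖w‖ := by
  unfold sv rv
  rw [← Finset.sum_sub_distrib]
  have hterm : ∀ j ∈ range b, ‖(((a j : ℝ)) : ℂ) * Complex.exp (Complex.I * (j : ℂ) * ((θ : ℂ) + w))
      - (((a j : ℝ)) : ℂ) * Complex.exp (Complex.I * (j : ℂ) * (θ : ℂ))‖ ≤ 2 * (b : ℝ) * ‖w‖ := by
    intro j hj
    have hj' : (j : ℝ) ≤ b := by
      have := (mem_range.mp hj).le
      exact_mod_cast this
    have e1 : Complex.exp (Complex.I * (j : ℂ) * ((θ : ℂ) + w)) =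
        Complex.exp (Complex.I * (j : ℂ) * (θ : ℂ)) * Complex.exp (Complex.I * (j : ℂ) * w) := by
      rw [← Complex.exp_add]; ring_nf
    rw [e1]
    have e2 : (((a j : ℝ)) : ℂ) * (Complex.exp (Complex.I * (j : ℂ) * (θ : ℂ)) *
        Complex.exp (Complex.I * (j : ℂ) * w)) -
        (((a j : ℝ)) : ℂ) * Complex.exp (Complex.I * (j : ℂ) * (θ : ℂ)) =
        (((a j : ℝ)) : ℂ) * Complex.exp (Complex.I * (j : ℂ) * (θ : ℂ)) *
          (Complex.exp (Complex.I * (j : ℂ) * w) - 1) := by ring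
    rw [e2, norm_mul, norm_mul]
    have n1 : ‖(((a j : ℝ)) : ℂ)‖ = 1 := by
      rcases ha j with h | h <;> rw [h] <;> simp
    have n2 : ‖Complex.exp (Complex.I * (j : ℂ) * (θ : ℂ))‖ = 1 := by
      have : Complex.I * (j : ℂ) * (θ : ℂ) = ((j * θ : ℝ) : ℂ) * Complex.I := by
        push_cast; ring
      rw [this, Complex.norm_exp_ofReal_mul_I]
    have n3 : ‖Complex.I * (j : ℂ) * w‖ = (j : ℝ) * ‖w‖ := by
      rw [norm_mul, norm_mul, Complex.norm_I, one_mul, Complex.norm_natCast]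
    have hle : (j : ℝ) * ‖w‖ ≤ b * ‖w‖ := mul_le_mul_of_nonneg_right hj' (norm_nonneg _)
    have n4 : ‖Complex.exp (Complex.I * (j : ℂ) * w) - 1‖ ≤ 2 * ((j : ℝ) * ‖w‖) := by
      have := Complex.norm_exp_sub_one_le (x := Complex.I * (j : ℂ) * w) (by rw [n3]; linarith)
      rwa [n3] at this
    rw [n1, n2]
    linarith
  calc _ ≤ ∑ j ∈ range b, (2 * (b : ℝ) * ‖w‖) := norm_sum_le_of_le _ hterm
    _ = _ := by rw [Finset.sum_const, card_range, nsmul_eq_mul]; ring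

theorem rs_sign (b mr : ℕ) : IsSign (rs b mr) := by
  intro j
  unfold rs
  split_ifs
  · exact Or.inl rfl
  · exact Or.inr rfl

theorem exp_sub_one_lower (θ : ℝ) (h0 : 0 ≤ θ) (h1 : θ ≤ Real.pi) :
    2 / Real.pi * θ ≤ ‖Complex.exp (Complex.I * (θ : ℂ)) - 1‖ := by
  rw [Complex.norm_exp_I_mul_ofReal_sub_one, Real.norm_eq_abs]
  have h2 := Real.mul_le_sin (x := θ / 2) (by linarith) (by linarith)
  have h3 : 2 / Real.pi * θ = 2 * (2 / Real.pi * (θ / 2)) := by ring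
  rw [h3]
  exact (mul_le_mul_of_nonneg_left h2 (by norm_num)).trans (le_abs_self _)

/-- `|2 - e^{i phi}| - 1 >= 2 phi^2 / pi^2` for `0 <= phi <= pi` -/
theorem two_sub_exp (φ : ℝ) (h0 : 0 ≤ φ) (h1 : φ ≤ Real.pi) :
    1 + 2 * φ ^ 2 / Real.pi ^ 2 ≤ ‖2 - Complex.exp (Complex.I * (φ : ℂ))‖ := by
  have hs := Real.mul_le_sin (x := φ / 2) (by linarith) (by linarith)
  have hs0 : 0 ≤ 2 / Real.pi * (φ / 2) := by positivity
  set S := Real.sin (φ / 2) with hS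
  have hS0 : 0 ≤ S := hs0.trans hs
  have hS1 : S ≤ 1 := Real.sin_le_one _
  have hsq : φ ^ 2 / Real.pi ^ 2 ≤ S ^ 2 := by
    have : φ ^ 2 / Real.pi ^ 2 = (2 / Real.pi * (φ / 2)) ^ 2 := by
      field_simp
    rw [this]
    exact pow_le_pow_left₀ hs0 hs 2
  have hn : ‖2 - Complex.exp (Complex.I * (φ : ℂ))‖ ^ 2 = 1 + 8 * S ^ 2 := by
    have hc : Complex.exp (Complex.I * (φ : ℂ)) =
        ((Real.cos φ : ℝ) : ℂ) + ((Real.sin φ : ℝ) : ℂ) * Complex.I := by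
      rw [mul_comm, Complex.exp_mul_I, ← Complex.ofReal_cos, ← Complex.ofReal_sin]
    have hcos : Real.cos φ = 1 - 2 * S ^ 2 := by
      have := Real.cos_two_mul (φ / 2)
      have h3 : 2 * (φ / 2) = φ := by ring
      rw [h3] at this
      have h4 := Real.sin_sq_add_cos_sq (φ / 2)
      rw [this, hS]
      nlinarith
    have hsc := Real.sin_sq_add_cos_sq φ
    rw [hc, ← Complex.normSq_eq_norm_sq, Complex.normSq_apply]
    simp only [Complex.sub_re, Complex.sub_im, Complex.add_re, Complex.add_im,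
      Complex.ofReal_re, Complex.ofReal_im, Complex.mul_re, Complex.mul_im, Complex.I_re,
      Complex.I_im, Complex.re_ofNat, Complex.im_ofNat]
    rw [hcos] at hsc ⊢
    nlinarith
  have hpos : 0 ≤ ‖2 - Complex.exp (Complex.I * (φ : ℂ))‖ := norm_nonneg _
  have h5 : (1 + 2 * S ^ 2) ^ 2 ≤ ‖2 - Complex.exp (Complex.I * (φ : ℂ))‖ ^ 2 := by
    rw [hn]
    have : S ^ 2 ≤ 1 := pow_le_one₀ hS0 hS1
    nlinarith [sq_nonneg S, mul_nonneg (sq_nonneg S) (sub_nonneg.mpr this)]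
  have h6 := abs_le_of_sq_le_sq h5 hpos
  have h7 := (abs_le.mp h6).2
  have h8 : 2 * φ ^ 2 / Real.pi ^ 2 = 2 * (φ ^ 2 / Real.pi ^ 2) := by ring
  rw [h8]
  linarith

theorem low (b mr : ℕ) (hmr : mr ≤ b) (θ : ℝ) (h0 : 0 ≤ θ) (h1 : (mr : ℝ) * θ ≤ Real.pi) :
    (mr : ℝ) ^ 2 * θ / 5 ≤ ‖sv b (rs b mr) (θ : ℂ)‖ := by
  rcases h0.eq_or_lt with h | hpos
  · rw [← h]
    simp
  · have hk := key b mr (θ : ℂ)
    have hpow : ∀ n : ℕ, Complex.exp (Complex.I * (θ : ℂ)) ^ n =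
        Complex.exp (Complex.I * ((n * θ : ℝ) : ℂ)) := by
      intro n
      rw [← Complex.exp_nat_mul]
      congr 1
      push_cast
      ring
    have e1 : 2 * Complex.exp (Complex.I * (θ : ℂ)) ^ (b - mr) -
        Complex.exp (Complex.I * (θ : ℂ)) ^ b - 1 =
        Complex.exp (Complex.I * (θ : ℂ)) ^ (b - mr) *
          (2 - Complex.exp (Complex.I * ((mr * θ : ℝ) : ℂ))) - 1 := by
      rw [← hpow mr, mul_sub, ← pow_add, Nat.sub_add_cancel hmr]
      ring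
    have n1 : ‖Complex.exp (Complex.I * (θ : ℂ)) ^ (b - mr)‖ = 1 := by
      rw [hpow, mul_comm, Complex.norm_exp_ofReal_mul_I]
    have h2 := two_sub_exp (mr * θ) (by positivity) h1
    have h3 : 2 * (mr * θ) ^ 2 / Real.pi ^ 2 ≤
        ‖(Complex.exp (Complex.I * (θ : ℂ)) - 1) * sv b (rs b mr) (θ : ℂ)‖ := by
      rw [hk, e1]
      have := norm_sub_norm_le (Complex.exp (Complex.I * (θ : ℂ)) ^ (b - mr) *
          (2 - Complex.exp (Complex.I * ((mr * θ : ℝ) : ℂ)))) 1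
      rw [norm_mul, n1, one_mul, norm_one] at this
      linarith
    rw [norm_mul] at h3
    have h4 : ‖Complex.exp (Complex.I * (θ : ℂ)) - 1‖ ≤ θ := by
      have := Real.norm_exp_I_mul_ofReal_sub_one_le (x := θ)
      rwa [Real.norm_of_nonneg h0] at this
    have h5 : 2 * (mr * θ) ^ 2 / Real.pi ^ 2 ≤ θ * ‖sv b (rs b mr) (θ : ℂ)‖ :=
      h3.trans (mul_le_mul_of_nonneg_right h4 (norm_nonneg _))
    have hpi : Real.pi ^ 2 ≤ 10 := by
      have := Real.pi_lt_d2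
      have h0 := Real.pi_pos
      nlinarith
    have h6 : (mr * θ) ^ 2 / 5 ≤ 2 * (mr * θ) ^ 2 / Real.pi ^ 2 := by
      rw [div_le_div_iff₀ (by norm_num) (by positivity)]
      nlinarith [sq_nonneg ((mr : ℝ) * θ)]
    have h7 : θ * ((mr : ℝ) ^ 2 * θ / 5) ≤ θ * ‖sv b (rs b mr) (θ : ℂ)‖ := by
      calc _ = (mr * θ) ^ 2 / 5 := by ring
        _ ≤ _ := h6.trans h5
    exact le_of_mul_le_mul_left h7 hpos

theorem low_small (b mr : ℕ) (hmr : 16 * mr ≤ b) (θ : ℝ) (h0 : 0 ≤ θ) (h1 : (b : ℝ) * θ ≤ 1) :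
    (b : ℝ) / 4 ≤ ‖sv b (rs b mr) (θ : ℂ)‖ := by
  have hre : (sv b (rs b mr) (θ : ℂ)).re = ∑ j ∈ range b, ((rs b mr j : ℤ) : ℝ) * Real.cos (j * θ) := by
    unfold sv rv
    rw [Complex.re_sum]
    refine Finset.sum_congr rfl fun j _ => ?_
    have : Complex.I * (j : ℂ) * (θ : ℂ) = ((j * θ : ℝ) : ℂ) * Complex.I := by
      push_cast; ring
    rw [this, Complex.re_ofReal_mul, Complex.exp_ofReal_mul_I_re]
  have hterm : ∀ j ∈ range b, (1 / 2 - (if j < b - mr then (0 : ℝ) else 2)) ≤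
      ((rs b mr j : ℤ) : ℝ) * Real.cos (j * θ) := by
    intro j hj
    have hj' : (j : ℝ) ≤ b := by
      have := (mem_range.mp hj).le
      exact_mod_cast this
    have hx1 : (j : ℝ) * θ ≤ 1 := (mul_le_mul_of_nonneg_right hj' h0).trans h1
    have hx0 : 0 ≤ (j : ℝ) * θ := by positivity
    unfold rs
    split_ifs
    · have := Real.one_sub_sq_div_two_le_cos (x := (j : ℝ) * θ)
      push_cast
      nlinarith
    · have := Real.cos_le_one ((j : ℝ) * θ)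
      push_cast
      linarith
  have hsum := Finset.sum_le_sum hterm
  rw [← hre] at hsum
  have hcount : ∑ j ∈ range b, (1 / 2 - (if j < b - mr then (0 : ℝ) else 2)) =
      b / 2 - 2 * mr := by
    rw [Finset.sum_sub_distrib, Finset.sum_const, card_range, nsmul_eq_mul]
    have h2 : ∑ j ∈ range b, (if j < b - mr then (0 : ℝ) else 2) =
        ∑ j ∈ range b, ((2 : ℝ) - (if j < b - mr then 2 else 0)) := by
      refine Finset.sum_congr rfl fun j _ => ?_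
      split_ifs <;> norm_num
    rw [h2, Finset.sum_sub_distrib, Finset.sum_const, card_range, nsmul_eq_mul,
      ← Finset.sum_filter]
    have h3 : (range b).filter (fun j => j < b - mr) = range (b - mr) := by
      ext j
      simp only [mem_range, mem_filter]
      omega
    rw [h3, Finset.sum_const, card_range, nsmul_eq_mul, Nat.cast_sub (by omega)]
    ring
  rw [hcount] at hsum
  have hmr' : 16 * (mr : ℝ) ≤ b := by exact_mod_cast hmr
  have := Complex.re_le_norm (sv b (rs b mr) (θ : ℂ))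
  linarith

theorem norm_pow_le (b L : ℕ) (j : ℕ) (hj : j ≤ b) (hL : 16 * b ≤ L) (hL0 : 0 < L) (θ : ℝ) (z : ℂ)
    (hz : ‖z‖ ≤ 1) :
    ‖Complex.exp (Complex.I * ((θ : ℂ) + z / (L : ℂ))) ^ j‖ ≤ 3 / 2 := by
  rw [← Complex.exp_nat_mul, Complex.norm_exp]
  have hLr : (0 : ℝ) < L := by exact_mod_cast hL0
  have h1 : ((j : ℂ) * (Complex.I * ((θ : ℂ) + z / (L : ℂ)))).re = -(j * z.im / L) := by
    have h2 : z / (L : ℂ) = ((z.re / L : ℝ) : ℂ) + ((z.im / L : ℝ) : ℂ) * Complex.I := by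
      have hLc : (L : ℂ) ≠ 0 := by exact_mod_cast hL0.ne'
      have h3 := Complex.re_add_im z
      push_cast
      field_simp
      linear_combination (-1 : ℂ) * h3
    have h3 : (j : ℂ) * (Complex.I * ((θ : ℂ) + z / (L : ℂ))) =
        ((-(j * z.im / L) : ℝ) : ℂ) + ((j * (θ + z.re / L) : ℝ) : ℂ) * Complex.I := by
      rw [h2]
      push_cast
      ring_nf
      rw [Complex.I_sq]
      ring
    rw [h3, Complex.add_re, Complex.ofReal_re, Complex.re_ofReal_mul, Complex.I_re]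
    ring
  rw [h1]
  have him : |z.im| ≤ 1 := (Complex.abs_im_le_norm z).trans hz
  have hjL : 16 * (j : ℝ) ≤ L := by
    have : 16 * j ≤ L := by omega
    exact_mod_cast this
  have h4 : -(j * z.im / L) ≤ 1 / 16 := by
    rw [← neg_div, div_le_div_iff₀ hLr (by norm_num)]
    have := (abs_le.mp him).1
    have hj0 : (0 : ℝ) ≤ j := Nat.cast_nonneg j
    nlinarith
  calc Real.exp (-(j * z.im / L)) ≤ Real.exp (1 / 16) := Real.exp_le_exp.mpr h4
    _ ≤ 3 / 2 := by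
      have h5 := Real.exp_bound_div_one_sub_of_interval (x := 1 / 16) (by norm_num) (by norm_num)
      refine h5.trans (by norm_num)

theorem up (b mr L : ℕ) (hmr : mr ≤ b) (hb : 0 < b) (hL : 16 * b ≤ L) (θ : ℝ) (h0 : 0 < θ)
    (h1 : θ ≤ Real.pi) (z : ℂ) (hz : ‖z‖ ≤ 1) :
    ‖sv b (rs b mr) ((θ : ℂ) + z / (L : ℂ))‖ ≤ 40 / θ := by
  have hL0 : 0 < L := by omega
  have hLr : (0 : ℝ) < L := by exact_mod_cast hL0
  have hbL : 16 * (b : ℝ) ≤ L := by exact_mod_cast hL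
  rcases le_or_gt θ (8 / L) with hθ | hθ
  · -- trivial bound
    have hterm : ∀ j ∈ range b, ‖(((rs b mr j : ℤ) : ℝ) : ℂ) *
        Complex.exp (Complex.I * (j : ℂ) * ((θ : ℂ) + z / (L : ℂ)))‖ ≤ 3 / 2 := by
      intro j hj
      rw [exp_pow, norm_mul]
      have n1 : ‖(((rs b mr j : ℤ) : ℝ) : ℂ)‖ = 1 := by
        rcases rs_sign b mr j with h | h <;> rw [h] <;> simp
      rw [n1, one_mul]
      exact norm_pow_le b L j (mem_range.mp hj).le hL hL0 θ z hz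
    have h2 : ‖sv b (rs b mr) ((θ : ℂ) + z / (L : ℂ))‖ ≤ b * (3 / 2) := by
      unfold sv rv
      refine (norm_sum_le_of_le _ hterm).trans ?_
      rw [Finset.sum_const, card_range, nsmul_eq_mul]
    refine h2.trans ?_
    rw [le_div_iff₀ h0]
    have h3 : θ * L ≤ 8 := by
      rw [← le_div_iff₀ hLr]; exact hθ
    nlinarith
  · have hk := key b mr ((θ : ℂ) + z / (L : ℂ))
    have e1 := norm_pow_le b L (b - mr) (by omega) hL hL0 θ z hz
    have e2 := norm_pow_le b L b le_rfl hL hL0 θ z hz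
    have h2 : ‖(Complex.exp (Complex.I * ((θ : ℂ) + z / (L : ℂ))) - 1) *
        sv b (rs b mr) ((θ : ℂ) + z / (L : ℂ))‖ ≤ 6 := by
      rw [hk]
      refine (norm_sub_le _ _).trans ?_
      refine (add_le_add_left (norm_sub_le _ _) _).trans ?_
      rw [norm_mul, norm_one, Complex.norm_ofNat]
      linarith
    rw [norm_mul] at h2
    have hzL : ‖z / (L : ℂ)‖ ≤ 1 / L := by
      rw [norm_div, Complex.norm_natCast]
      exact div_le_div_of_nonneg_right hz hLr.le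
    have hL1 : (1 : ℝ) / L ≤ 1 := by
      rw [div_le_one hLr]
      have : 1 ≤ L := hL0
      exact_mod_cast this
    have h3 : θ / 3 ≤ ‖Complex.exp (Complex.I * ((θ : ℂ) + z / (L : ℂ))) - 1‖ := by
      have h4 := exp_sub_one_lower θ h0.le h1
      have h5 : Complex.exp (Complex.I * ((θ : ℂ) + z / (L : ℂ))) =
          Complex.exp (Complex.I * (θ : ℂ)) * Complex.exp (Complex.I * (z / (L : ℂ))) := by
        rw [← Complex.exp_add]; ring_nf
      have n2 : ‖Complex.exp (Complex.I * (θ : ℂ))‖ = 1 := by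
        rw [mul_comm, Complex.norm_exp_ofReal_mul_I]
      have n3 : ‖Complex.I * (z / (L : ℂ))‖ ≤ 1 / L := by
        rw [norm_mul, Complex.norm_I, one_mul]; exact hzL
      have h6 : ‖Complex.exp (Complex.I * ((θ : ℂ) + z / (L : ℂ))) -
          Complex.exp (Complex.I * (θ : ℂ))‖ ≤ 2 / L := by
        have e3 : Complex.exp (Complex.I * ((θ : ℂ) + z / (L : ℂ))) -
          Complex.exp (Complex.I * (θ : ℂ)) = Complex.exp (Complex.I * (θ : ℂ)) *
            (Complex.exp (Complex.I * (z / (L : ℂ))) - 1) := by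
          rw [h5]; ring
        rw [e3, norm_mul, n2, one_mul]
        have := Complex.norm_exp_sub_one_le (x := Complex.I * (z / (L : ℂ))) (n3.trans hL1)
        calc _ ≤ 2 * ‖Complex.I * (z / (L : ℂ))‖ := this
          _ ≤ 2 * (1 / L) := by linarith
          _ = 2 / L := by ring
      have h7 : ‖Complex.exp (Complex.I * (θ : ℂ)) - 1‖ ≤
          ‖Complex.exp (Complex.I * ((θ : ℂ) + z / (L : ℂ))) - 1‖ +
          ‖Complex.exp (Complex.I * ((θ : ℂ) + z / (L : ℂ))) -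
          Complex.exp (Complex.I * (θ : ℂ))‖ := by
        have := norm_sub_le (Complex.exp (Complex.I * ((θ : ℂ) + z / (L : ℂ))) - 1)
          (Complex.exp (Complex.I * ((θ : ℂ) + z / (L : ℂ))) - Complex.exp (Complex.I * (θ : ℂ)))
        rwa [sub_sub_sub_cancel_left] at this
      have h8 : 2 / (L : ℝ) ≤ θ / 4 := by
        have : 2 / (L : ℝ) = (8 / L) / 4 := by ring
        rw [this]
        linarith
      have h9 : 3 / 5 * θ ≤ 2 / Real.pi * θ := by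
        apply mul_le_mul_of_nonneg_right _ h0.le
        rw [div_le_div_iff₀ (by norm_num) Real.pi_pos]
        have := Real.pi_lt_d2
        linarith
      linarith
    have h10 : θ / 3 * ‖sv b (rs b mr) ((θ : ℂ) + z / (L : ℂ))‖ ≤ 6 :=
      (mul_le_mul_of_nonneg_right h3 (norm_nonneg _)).trans h2
    rw [le_div_iff₀ h0]
    linarith

end RqAux

open RqAux

theorem rq_low_small (Y : ℕ) (hY : 100 ≤ Y) (θ : ℝ) (h0 : 0 ≤ θ) (h1 : θ ≤ 1 / (Y : ℝ) ^ 192) :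
    (Y : ℝ) ^ 192 / 4 ≤ ‖sv (Y ^ 192) (rs (Y ^ 192) (Y ^ 176)) (θ : ℂ)‖ := by
  have hYr : (0 : ℝ) < (Y : ℝ) ^ 192 := by
    have : (0 : ℝ) < Y := by exact_mod_cast (by omega : 0 < Y)
    positivity
  have h := low_small (Y ^ 192) (Y ^ 176) (by
    calc 16 * Y ^ 176 ≤ Y ^ 16 * Y ^ 176 := by
          apply Nat.mul_le_mul_right
          calc 16 ≤ Y := by omega
            _ = Y ^ 1 := (pow_one Y).symm
            _ ≤ Y ^ 16 := Nat.pow_le_pow_right (by omega) (by norm_num)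
      _ = Y ^ 192 := by rw [← pow_add]) θ h0 (by
    push_cast
    rw [le_div_iff₀ hYr] at h1
    linarith)
  push_cast at h
  exact h

theorem rq_low (Y : ℕ) (hY : 100 ≤ Y) (θ : ℝ) (h0 : 0 ≤ θ)
    (h1 : θ ≤ Real.pi / (Y : ℝ) ^ 176) :
    (Y : ℝ) ^ 352 * θ / 5 ≤ ‖sv (Y ^ 192) (rs (Y ^ 192) (Y ^ 176)) (θ : ℂ)‖ := by
  have hYr : (0 : ℝ) < (Y : ℝ) ^ 176 := by
    have : (0 : ℝ) < Y := by exact_mod_cast (by omega : 0 < Y)
    positivity
  have h := low (Y ^ 192) (Y ^ 176) (Nat.pow_le_pow_right (by omega) (by norm_num)) θ h0 (by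
    push_cast
    rw [le_div_iff₀ hYr] at h1
    linarith)
  push_cast at h
  rw [← pow_mul] at h
  exact h

theorem rq_rel (Y : ℕ) (hY : 100 ≤ Y) (θ : ℝ) (h0 : 0 ≤ θ)
    (h1 : θ ≤ Real.pi / (Y : ℝ) ^ 176) (z : ℂ) (hz : ‖z‖ ≤ 1) :
    ‖sv (Y ^ 192) (rs (Y ^ 192) (Y ^ 176)) ((θ : ℂ) + z / ((Y : ℂ) ^ 256))‖ ≤
      (1 + 1 / (Y : ℝ) ^ 8) * ‖sv (Y ^ 192) (rs (Y ^ 192) (Y ^ 176)) (θ : ℂ)‖ := by
  have hY1 : (1 : ℝ) ≤ Y := by exact_mod_cast (by omega : 1 ≤ Y)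
  have hY0 : (0 : ℝ) < Y := by linarith
  have hY100 : (100 : ℝ) ≤ Y := by exact_mod_cast hY
  have hw : ‖z / ((Y : ℂ) ^ 256)‖ ≤ 1 / (Y : ℝ) ^ 256 := by
    rw [norm_div, norm_pow, Complex.norm_natCast]
    exact div_le_div_of_nonneg_right hz (by positivity)
  have hd := diff (Y ^ 192) (rs (Y ^ 192) (Y ^ 176)) (rs_sign _ _) θ (z / ((Y : ℂ) ^ 256)) (by
    push_cast
    calc (Y : ℝ) ^ 192 * ‖z / ((Y : ℂ) ^ 256)‖ ≤ (Y : ℝ) ^ 192 * (1 / (Y : ℝ) ^ 256) :=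
          mul_le_mul_of_nonneg_left hw (by positivity)
      _ = (Y : ℝ) ^ 192 / (Y : ℝ) ^ 256 := by ring
      _ ≤ 1 := by
        rw [div_le_one (by positivity)]
        exact pow_le_pow_right₀ hY1 (by norm_num))
  push_cast at hd
  have hd2 : ‖sv (Y ^ 192) (rs (Y ^ 192) (Y ^ 176)) ((θ : ℂ) + z / ((Y : ℂ) ^ 256)) -
      sv (Y ^ 192) (rs (Y ^ 192) (Y ^ 176)) (θ : ℂ)‖ ≤ 2 * (Y : ℝ) ^ 128 := by
    refine hd.trans ?_
    calc 2 * ((Y : ℝ) ^ 192) ^ 2 * ‖z / ((Y : ℂ) ^ 256)‖ ≤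
          2 * ((Y : ℝ) ^ 192) ^ 2 * (1 / (Y : ℝ) ^ 256) :=
          mul_le_mul_of_nonneg_left hw (by positivity)
      _ = 2 * (Y : ℝ) ^ 128 := by
        field_simp
  have hlow : 2 * (Y : ℝ) ^ 136 ≤ ‖sv (Y ^ 192) (rs (Y ^ 192) (Y ^ 176)) (θ : ℂ)‖ := by
    rcases le_or_gt θ (1 / (Y : ℝ) ^ 192) with h | h
    · refine le_trans ?_ (rq_low_small Y hY θ h0 h)
      rw [le_div_iff₀ (by norm_num)]
      calc 2 * (Y : ℝ) ^ 136 * 4 = 8 * (Y : ℝ) ^ 136 := by ring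
        _ ≤ (Y : ℝ) ^ 56 * (Y : ℝ) ^ 136 := by
          apply mul_le_mul_of_nonneg_right _ (by positivity)
          calc (8 : ℝ) ≤ Y := by linarith
            _ = (Y : ℝ) ^ 1 := (pow_one _).symm
            _ ≤ (Y : ℝ) ^ 56 := pow_le_pow_right₀ hY1 (by norm_num)
        _ = (Y : ℝ) ^ 192 := by rw [← pow_add]
    · refine le_trans ?_ (rq_low Y hY θ h0 h1)
      rw [le_div_iff₀ (by norm_num)]
      have h2 : (Y : ℝ) ^ 160 ≤ (Y : ℝ) ^ 352 * θ := by
        calc (Y : ℝ) ^ 160 = (Y : ℝ) ^ 352 * (1 / (Y : ℝ) ^ 192) := by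
              rw [mul_one_div, eq_div_iff (by positivity), ← pow_add]
          _ ≤ _ := mul_le_mul_of_nonneg_left h.le (by positivity)
      refine le_trans ?_ h2
      calc 2 * (Y : ℝ) ^ 136 * 5 = 10 * (Y : ℝ) ^ 136 := by ring
        _ ≤ (Y : ℝ) ^ 24 * (Y : ℝ) ^ 136 := by
          apply mul_le_mul_of_nonneg_right _ (by positivity)
          calc (10 : ℝ) ≤ Y := by linarith
            _ = (Y : ℝ) ^ 1 := (pow_one _).symm
            _ ≤ (Y : ℝ) ^ 24 := pow_le_pow_right₀ hY1 (by norm_num)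
        _ = (Y : ℝ) ^ 160 := by rw [← pow_add]
  have h8 : 2 * (Y : ℝ) ^ 128 ≤
      1 / (Y : ℝ) ^ 8 * ‖sv (Y ^ 192) (rs (Y ^ 192) (Y ^ 176)) (θ : ℂ)‖ := by
    calc 2 * (Y : ℝ) ^ 128 = 1 / (Y : ℝ) ^ 8 * (2 * (Y : ℝ) ^ 136) := by
          rw [one_div, eq_inv_mul_iff_mul_eq₀ (by positivity)]
          ring
      _ ≤ _ := mul_le_mul_of_nonneg_left hlow (by positivity)
  have h9 := norm_le_norm_add_norm_sub' (sv (Y ^ 192) (rs (Y ^ 192) (Y ^ 176))
    ((θ : ℂ) + z / ((Y : ℂ) ^ 256))) (sv (Y ^ 192) (rs (Y ^ 192) (Y ^ 176)) (θ : ℂ))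
  have h10 : (1 + 1 / (Y : ℝ) ^ 8) * ‖sv (Y ^ 192) (rs (Y ^ 192) (Y ^ 176)) (θ : ℂ)‖ =
      ‖sv (Y ^ 192) (rs (Y ^ 192) (Y ^ 176)) (θ : ℂ)‖ +
      1 / (Y : ℝ) ^ 8 * ‖sv (Y ^ 192) (rs (Y ^ 192) (Y ^ 176)) (θ : ℂ)‖ := by ring
  rw [h10]
  linarith

theorem rq_up (Y : ℕ) (hY : 100 ≤ Y) (θ : ℝ) (h0 : 0 < θ) (h1 : θ ≤ Real.pi) (z : ℂ)
    (hz : ‖z‖ ≤ 1) :
    ‖sv (Y ^ 192) (rs (Y ^ 192) (Y ^ 176)) ((θ : ℂ) + z / ((Y : ℂ) ^ 256))‖ ≤ 40 / θ := by
  have h := up (Y ^ 192) (Y ^ 176) (Y ^ 256) (Nat.pow_le_pow_right (by omega) (by norm_num))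
    (by positivity) (by
      calc 16 * Y ^ 192 ≤ Y ^ 64 * Y ^ 192 := by
            apply Nat.mul_le_mul_right
            calc 16 ≤ Y := by omega
              _ = Y ^ 1 := (pow_one Y).symm
              _ ≤ Y ^ 64 := Nat.pow_le_pow_right (by omega) (by norm_num)
        _ = Y ^ 256 := by rw [← pow_add]) θ h0 h1 z hz
  push_cast at h
  exact h

end Pool.Agent.Helper59.Lit
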