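import Pool.Agent.Helper59.Lit.Regions

/-!
# Module Stage: the induction step
-/

set_option autoImplicit false

namespace Pool.Agent.Helper59.Lit

open Finset

theorem sv_int_periodic (n : ℕ) (a : ℕ → ℤ) (s : ℂ) (j : ℤ) :
    sv n a (s + (j : ℂ) * (2 * Real.pi)) = sv n a s := by
  have h : Function.Periodic (sv n a) (2 * (Real.pi : ℂ)) := fun s => sv_periodic n a s
  have := h.int_mul j s
  simpa using this

theorem norm_sv_reflect (n : ℕ) (a : ℕ → ℤ) (s : ℂ) :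
    ‖sv n a (-(starRingEnd ℂ) s)‖ = ‖sv n a s‖ := by
  rw [sv_neg_conj, RCLike.norm_conj]

/-- every real number is, modulo `2π`, plus or minus a point of `[0, π]` -/
theorem mod_two_pi (θ : ℝ) : ∃ j : ℤ, ∃ t : ℝ, 0 ≤ t ∧ t ≤ Real.pi ∧
    (θ = t + j * (2 * Real.pi) ∨ θ = -t + j * (2 * Real.pi)) := by
  have hpi := Real.pi_pos
  set j : ℤ := round (θ / (2 * Real.pi)) with hj
  have h := abs_sub_round (θ / (2 * Real.pi))
  have h2 : |θ - j * (2 * Real.pi)| ≤ Real.pi := by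
    have : θ - j * (2 * Real.pi) = (θ / (2 * Real.pi) - j) * (2 * Real.pi) := by
      field_simp
    rw [this, abs_mul, abs_of_pos (by positivity : (0:ℝ) < 2 * Real.pi)]
    nlinarith [abs_nonneg (θ / (2 * Real.pi) - (j:ℝ))]
  refine ⟨j, |θ - j * (2 * Real.pi)|, abs_nonneg _, h2, ?_⟩
  rcases le_total 0 (θ - j * (2 * Real.pi)) with h0 | h0
  · left; rw [abs_of_nonneg h0]; ring
  · right; rw [abs_of_nonpos h0]; ring

/-- transfer of regularity from `[0, π]` to all real points -/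
theorem extend_reg (n : ℕ) (a : ℕ → ℤ) (L : ℝ) (Ls Kb lo : ℝ)
    (h : ∀ θ : ℝ, 0 ≤ θ → θ ≤ Real.pi → lo ≤ ‖sv n a (θ : ℂ)‖ ∧
      ∃ lam : ℝ, |lam| ≤ Kb ∧ ∀ z : ℂ, ‖z‖ ≤ 1 →
        ‖Complex.exp (-(Complex.I * (lam : ℂ) * z)) * sv n a ((θ : ℂ) + z / (L : ℂ))‖ ≤
          Ls * ‖sv n a (θ : ℂ)‖) (θ : ℝ) :
    lo ≤ ‖sv n a (θ : ℂ)‖ ∧
      ∃ lam : ℝ, |lam| ≤ Kb ∧ ∀ z : ℂ, ‖z‖ ≤ 1 →
        ‖Complex.exp (-(Complex.I * (lam : ℂ) * z)) * sv n a ((θ : ℂ) + z / (L : ℂ))‖ ≤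
          Ls * ‖sv n a (θ : ℂ)‖ := by
  obtain ⟨j, t, ht0, ht1, hθ⟩ := mod_two_pi θ
  obtain ⟨h1, lam, hlam, h2⟩ := h t ht0 ht1
  rcases hθ with hθ | hθ
  · have e1 : sv n a (θ : ℂ) = sv n a (t : ℂ) := by
      rw [hθ]; push_cast; exact sv_int_periodic n a t j
    have e2 : ∀ z : ℂ, sv n a ((θ : ℂ) + z / (L : ℂ)) = sv n a ((t : ℂ) + z / (L : ℂ)) := by
      intro z
      have : (θ : ℂ) + z / (L : ℂ) = ((t : ℂ) + z / (L : ℂ)) + (j : ℂ) * (2 * Real.pi) := by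
        rw [hθ]; push_cast; ring
      rw [this, sv_int_periodic]
    refine ⟨by rw [e1]; exact h1, lam, hlam, fun z hz => ?_⟩
    rw [e1, e2]; exact h2 z hz
  · have e1 : ‖sv n a (θ : ℂ)‖ = ‖sv n a (t : ℂ)‖ := by
      have : (θ : ℂ) = -(starRingEnd ℂ) (t : ℂ) + (j : ℂ) * (2 * Real.pi) := by
        rw [hθ]; push_cast; simp
      rw [this, sv_int_periodic, norm_sv_reflect]
    have e2 : ∀ z : ℂ, ‖sv n a ((θ : ℂ) + z / (L : ℂ))‖ =
        ‖sv n a ((t : ℂ) + (-(starRingEnd ℂ) z) / (L : ℂ))‖ := by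
      intro z
      have : (θ : ℂ) + z / (L : ℂ) =
          -(starRingEnd ℂ) ((t : ℂ) + (-(starRingEnd ℂ) z) / (L : ℂ)) +
            (j : ℂ) * (2 * Real.pi) := by
        rw [hθ]; push_cast; simp [map_add, map_neg, map_div₀]
        ring
      rw [this, sv_int_periodic, norm_sv_reflect]
    refine ⟨by rw [e1]; exact h1, lam, hlam, fun z hz => ?_⟩
    have h3 := h2 (-(starRingEnd ℂ) z) (by rw [norm_neg, RCLike.norm_conj]; exact hz)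
    rw [norm_mul] at h3 ⊢
    rw [e1, e2]
    have e3 : ‖Complex.exp (-(Complex.I * (lam : ℂ) * z))‖ =
        ‖Complex.exp (-(Complex.I * (lam : ℂ) * -(starRingEnd ℂ) z))‖ := by
      rw [Complex.norm_exp, Complex.norm_exp]
      congr 1
      simp
    rw [e3]; exact h3

theorem step_unwrap (k Y : ℕ) (a e a' : ℕ → ℤ)
    (h : ∀ s : ℂ, sv ((k + 1) * (Y ^ 192 * Y ^ 64)) a' s =
      sv (k * Y ^ 64) a (((Y ^ 192 : ℕ) : ℂ) * s) * sv (Y ^ 192) (rs (Y ^ 192) (Y ^ 176)) s +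
        Complex.exp (Complex.I * ((k * (Y ^ 192 * Y ^ 64) : ℕ) : ℂ) * s) *
          sv (Y ^ 192 * Y ^ 64) e s) (s : ℂ) :
    sv ((k + 1) * (Y ^ 4) ^ 64) a' s = PN k Y a e s := by
  have e1 : (Y ^ 4) ^ 64 = Y ^ 192 * Y ^ 64 := by ring
  have e2 : Y ^ 256 = Y ^ 192 * Y ^ 64 := by ring
  rw [e1, h s]
  simp only [PN, GG, PP, QQ, AA]
  rw [e2]
  push_cast
  rfl

theorem stage (L0 C0 : ℝ) (hL0 : 1 ≤ L0) (hC0 : 1 ≤ C0) : ∃ Ls : ℝ, 1 ≤ Ls ∧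
    ∀ (k : ℕ) (La ep : ℝ), 1 ≤ k → 1 ≤ La → 0 < ep → ∃ Y0 : ℕ, ∀ Y : ℕ, Y0 ≤ Y →
    ∀ (be a : ℕ → ℤ), FlatB L0 C0 (Y ^ 256) be → Good La (4 * L0) (4 * C0) k Y a →
    ∃ a' : ℕ → ℤ, Good (max Ls (La * (1 + ep))) (4 * L0) (4 * C0) (k + 1) (Y ^ 4) a' := by
  obtain ⟨c1, C2, hc1, hc11, hC2, htau⟩ := tau_bounds
  obtain ⟨C3, hC3, hrad⟩ := radii_props L0 C0 hL0 hC0
  obtain ⟨CR, hCR, h3⟩ := region3 L0 C0 c1 C2 hL0 hC0 hc1 hc11 hC2
  obtain ⟨Ls3, hLs3, h3'⟩ := h3 CR le_rfl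
  obtain ⟨D2, hD2, h2⟩ := region2 L0 C0 CR c1 C2 C3 hL0 hC0 hCR hc1 hC2 hC3
  obtain ⟨D4, hD4, h4⟩ := region4 L0 C0 CR c1 C2 C3 hL0 hC0 hCR hc1 hC2 hC3
  have hD0 : 1 ≤ max D2 D4 := le_trans hD2 (le_max_left _ _)
  obtain ⟨ρ, hρ0, hρ1, hch⟩ := choice L0 C0 hL0 hC0 CR (max D2 D4) hCR hD0
  obtain ⟨Ls2, hLs2, h2'⟩ := h2 (max D2 D4) ρ (le_max_left _ _) hρ0 hρ1
  obtain ⟨Ls4, hLs4, h4'⟩ := h4 (max D2 D4) ρ (le_max_right _ _) hρ0 hρ1
  refine ⟨max Ls2 (max Ls3 Ls4), le_trans hLs2 (le_max_left _ _), ?_⟩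
  intro k La ep hk hLa hep
  obtain ⟨Ya, hYa⟩ := hrad CR k hCR hk
  obtain ⟨Yb, hYb⟩ := hch k hk
  obtain ⟨Y1, hY1⟩ := region1 L0 C0 La CR (max D2 D4) ρ c1 C2 C3 ep k hk hL0 hC0 hLa hCR hep
  obtain ⟨Y2, hY2⟩ := h2' La k hLa hk
  obtain ⟨Y3, hY3⟩ := h3' La (max D2 D4) ρ C3 k hLa hk
  obtain ⟨Y4, hY4⟩ := h4' La k hLa hk
  obtain ⟨Y5, hY5⟩ := region5 L0 C0 CR (max D2 D4) ρ c1 C2 C3 La k hk hL0 hC0 hLa hCR hC2 hC3
  obtain ⟨Yc, hYc⟩ := exists_nat_ge C2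
  refine ⟨Ya + Yb + Y1 + Y2 + Y3 + Y4 + Y5 + Yc + 100, fun Y hY be a hbe hgood => ?_⟩
  have hY100 : 100 ≤ Y := by omega
  obtain ⟨hR0, hRslow, hRge, hRl, hRr, hRsq, hRmax⟩ := hYa Y (by omega) be a La hbe hgood
  obtain ⟨al, e, v, hal, he, hv1, hv3, hTH, herr, hx1, hx2⟩ := hYb Y (by omega) be a La hbe hgood
  obtain ⟨tl, tu, tle, tri, tmi⟩ := htau _ _ _ _ _ _ hTH
  obtain ⟨hm10, hm16, hm17, hi1, hi12, hc2u, hc2l, hc1l, hc1u, hk17, hk16, hi78, hcell, hper⟩ :=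
    params Y hY100
  have hYR : (100 : ℝ) ≤ Y := by exact_mod_cast hY100
  have hY1' : (1 : ℝ) ≤ Y := by linarith
  have hmpos : (0 : ℝ) < mm Y := by
    have : 0 < mm Y := by omega
    exact_mod_cast this
  have hcast : ((Y ^ 256 : ℕ) : ℂ) = (Y : ℂ) ^ 256 := by push_cast; rfl
  have hSD : StepData L0 C0 La CR (max D2 D4) ρ c1 C2 C3 k Y a be al e v := by
    refine ⟨hgood, hbe, hv1, hv3, hR0, hRge, hRl, hRr, hRmax, tl, ?_, ?_, ?_, ?_, herr, hx1, hx2⟩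
    · intro θ i z hi hθ h0 hz
      have := tu θ i z hi hθ h0 hz
      rw [hcast] at this; exact this
    · intro θ z h0 h1 hz
      have := tle θ z h0 h1 hz
      rw [hcast] at this; exact this
    · intro θ z h0 h1 hz
      have := tri θ z h0 h1 hz
      rw [hcast] at this; exact this
    · intro θ z h0 h1 hz
      have h5 := tmi θ z h0 h1 hz
      rw [hcast] at h5
      refine le_trans h5 ?_
      have hi1pos : (0 : ℝ) < ii1 Y := by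
        have : 0 < ii1 Y := by omega
        exact_mod_cast this
      rw [div_le_one (by positivity)]
      have hsum : ∑ i ∈ Icc (ii1 Y) (ii2 Y), RR CR k Y a be i ≤ (Y : ℝ) ^ 512 := by
        have hb : ∀ i ∈ Icc (ii1 Y) (ii2 Y), RR CR k Y a be i ≤ (mm Y : ℝ) := by
          intro i _
          have h6 := hRmax i
          rw [div_le_iff₀ hmpos] at h6
          refine le_trans h6 ?_
          have : 1 / (Y : ℝ) ^ 13 ≤ 1 := by
            rw [div_le_one (by positivity)]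
            exact one_le_pow₀ hY1'
          nlinarith
        refine le_trans (Finset.sum_le_sum hb) ?_
        rw [Finset.sum_const, nsmul_eq_mul, Nat.card_Icc]
        have h7 : ((ii2 Y + 1 - ii1 Y : ℕ) : ℝ) ≤ mm Y := by
          have h8 : ii2 Y + 1 - ii1 Y ≤ mm Y := by
            have : ii2 Y ≤ mm Y := Nat.div_le_self _ _
            omega
          exact_mod_cast h8
        have h9 : (mm Y : ℝ) ≤ (Y : ℝ) ^ 256 := by
          have : mm Y ≤ Y ^ 256 := by omega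
          exact_mod_cast this
        calc ((ii2 Y + 1 - ii1 Y : ℕ) : ℝ) * (mm Y : ℝ) ≤ (mm Y : ℝ) * (mm Y : ℝ) := by
              exact mul_le_mul_of_nonneg_right h7 hmpos.le
          _ ≤ (Y : ℝ) ^ 256 * (Y : ℝ) ^ 256 := by
              exact mul_le_mul h9 h9 hmpos.le (by positivity)
          _ = (Y : ℝ) ^ 512 := by ring
      have hCY : C2 ≤ (Y : ℝ) := by
        refine le_trans hYc ?_
        have : Yc ≤ Y := by omega
        exact_mod_cast this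
      calc C2 * ∑ i ∈ Icc (ii1 Y) (ii2 Y), RR CR k Y a be i ≤ (Y : ℝ) * (Y : ℝ) ^ 512 := by
            apply mul_le_mul hCY hsum (Finset.sum_nonneg fun i _ => hR0 i) (by positivity)
        _ = (Y : ℝ) ^ 513 := by ring
        _ ≤ (Y : ℝ) ^ (78 * 16) := pow_le_pow_right₀ hY1' (by norm_num)
        _ = ((Y : ℝ) ^ 78) ^ 16 := by rw [pow_mul]
        _ ≤ (ii1 Y : ℝ) ^ 16 := by
            exact pow_le_pow_left₀ (by positivity) hi78 16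
  -- all points of [0, π]
  have hpt : ∀ θ : ℝ, 0 ≤ θ → θ ≤ Real.pi →
      PtGood (max (max Ls2 (max Ls3 Ls4)) (La * (1 + ep))) k Y a e θ := by
    have hmono : ∀ (x θ : ℝ), x ≤ max (max Ls2 (max Ls3 Ls4)) (La * (1 + ep)) →
        PtGood x k Y a e θ → PtGood (max (max Ls2 (max Ls3 Ls4)) (La * (1 + ep))) k Y a e θ := by
      rintro x θ hx ⟨hp1, lam, hp2, hp3⟩
      refine ⟨hp1, lam, hp2, fun z hz => le_trans (hp3 z hz) ?_⟩
      exact mul_le_mul_of_nonneg_right hx (norm_nonneg _)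
    intro θ h0 hπ
    rcases le_total θ (cell (mm Y) (ii1 Y) - kap Y / (16 * mm Y)) with hA | hA
    · exact hmono _ θ (le_max_right _ _) (hY1 Y (by omega) a be al e v hSD θ h0 hA)
    rcases le_total θ (cell (mm Y) (ii1 Y)) with hB | hB
    · exact hmono _ θ (le_trans (le_max_left _ _) (le_max_left _ _))
        (hY2 Y (by omega) a be al e v hSD θ hA hB)
    rcases le_total θ (cell (mm Y) (ii2 Y)) with hC | hC
    · exact hmono _ θ (le_trans (le_trans (le_max_left _ _) (le_max_right _ _)) (le_max_left _ _))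
        (hY3 Y (by omega) a be al e v hSD θ hB hC)
    · exact hmono _ θ (le_trans (le_trans (le_max_right _ _) (le_max_right _ _)) (le_max_left _ _))
        (hY4 Y (by omega) a be al e v hSD θ hC hπ)
  have hrs : IsSign (rs (Y ^ 192) (Y ^ 176)) := by
    intro j; unfold rs; split_ifs <;> simp
  obtain ⟨a', ha', hsv'⟩ := concat_exists k (Y ^ 192) (Y ^ 64) (Nat.one_le_pow _ _ (by omega)) a
    (rs (Y ^ 192) (Y ^ 176)) e hgood.sign hrs he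
  have hsv : ∀ s : ℂ, sv ((k + 1) * (Y ^ 4) ^ 64) a' s = PN k Y a e s :=
    fun s => step_unwrap k Y a e a' hsv' s
  have hcast2 : (((Y ^ 4 : ℕ) : ℂ)) ^ 64 = (Y : ℂ) ^ 256 := by push_cast; ring
  have hcast3 : (((Y ^ 4 : ℕ) : ℝ)) ^ 64 = (Y : ℝ) ^ 256 := by push_cast; ring
  have hcast4 : ((((Y : ℝ) ^ 256 : ℝ)) : ℂ) = (Y : ℂ) ^ 256 := by push_cast; rfl
  have hext := extend_reg ((k + 1) * (Y ^ 4) ^ 64) a' ((Y : ℝ) ^ 256)
    (max (max Ls2 (max Ls3 Ls4)) (La * (1 + ep))) ((k : ℝ) + 1) ((Y : ℝ) ^ 120) (by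
      intro θ h0 hπ
      have := hpt θ h0 hπ
      unfold PtGood at this
      rw [hsv]
      refine ⟨this.1, ?_⟩
      obtain ⟨lam, hl1, hl2⟩ := this.2
      refine ⟨lam, hl1, fun z hz => ?_⟩
      rw [hsv, hcast4]
      exact hl2 z hz)
  -- near π
  have h5 := hY5 Y (by omega) a be al e v hSD
  have hpi3 := Real.pi_gt_three
  have hpi4 := Real.pi_le_four
  -- folding map
  have hfold : ∀ θ : ℝ, |θ - Real.pi| ≤ 1 → ∃ t : ℝ, 1 ≤ t ∧ t ≤ Real.pi ∧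
      ((θ ≤ Real.pi ∧ t = θ) ∨ (Real.pi ≤ θ ∧ t = 2 * Real.pi - θ)) := by
    intro θ hθ
    rw [abs_le] at hθ
    rcases le_total θ Real.pi with h | h
    · exact ⟨θ, by linarith, h, Or.inl ⟨h, rfl⟩⟩
    · exact ⟨2 * Real.pi - θ, by linarith, by linarith, Or.inr ⟨h, rfl⟩⟩
  have hrefl : ∀ (s : ℂ), ‖sv ((k + 1) * (Y ^ 4) ^ 64) a' (2 * Real.pi - (starRingEnd ℂ) s)‖ =
      ‖sv ((k + 1) * (Y ^ 4) ^ 64) a' s‖ := by
    intro s
    have : (2 * Real.pi - (starRingEnd ℂ) s : ℂ) = -(starRingEnd ℂ) s + 2 * Real.pi := by ring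
    rw [this, sv_periodic, norm_sv_reflect]
  have hreflR : ∀ θ : ℝ, ‖sv ((k + 1) * (Y ^ 4) ^ 64) a' ((2 * Real.pi - θ : ℝ) : ℂ)‖ =
      ‖sv ((k + 1) * (Y ^ 4) ^ 64) a' (θ : ℂ)‖ := by
    intro θ
    have := hrefl (θ : ℂ)
    rw [Complex.conj_ofReal] at this
    push_cast
    exact this
  have hreflB : ∀ θ : ℝ, ‖BB Y be ((2 * Real.pi - θ : ℝ) : ℂ)‖ = ‖BB Y be (θ : ℂ)‖ := by
    intro θ
    unfold BB
    have e1 : (((2 * Real.pi - θ : ℝ)) : ℂ) = -(starRingEnd ℂ) (θ : ℂ) + 2 * Real.pi := by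
      rw [Complex.conj_ofReal]; push_cast; ring
    rw [e1, sv_periodic, norm_sv_reflect]
  have hBlow : ∀ θ : ℝ, |θ - Real.pi| ≤ 1 →
      ‖BB Y be (θ : ℂ)‖ / 2 ≤ ‖sv ((k + 1) * (Y ^ 4) ^ 64) a' (θ : ℂ)‖ ∧
      ‖sv ((k + 1) * (Y ^ 4) ^ 64) a' (θ : ℂ)‖ ≤ 2 * ‖BB Y be (θ : ℂ)‖ := by
    intro θ hθ
    obtain ⟨t, ht1, htπ, ht⟩ := hfold θ hθ
    obtain ⟨q1, q2, q3⟩ := h5 t ht1 htπ
    rw [← hsv] at q1 q2
    rcases ht with ⟨_, ht⟩ | ⟨_, ht⟩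
    · rw [ht] at q1 q2; exact ⟨q1, q2⟩
    · rw [ht, hreflB, hreflR] at q1
      rw [ht, hreflB, hreflR] at q2
      exact ⟨q1, q2⟩
  refine ⟨a', ha', ?_, ?_, ?_, ?_⟩
  · -- reg
    intro θ
    obtain ⟨_, lam, hl1, hl2⟩ := hext θ
    refine ⟨lam, by push_cast; exact hl1, fun z hz => ?_⟩
    have := hl2 z hz
    rw [hcast4] at this
    rw [hcast2]
    exact this
  · intro θ
    have := (hext θ).1
    refine le_trans (le_of_eq ?_) this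
    push_cast; ring
  · -- poly
    intro θ θ' hθ hθ'
    rw [hcast3]
    obtain ⟨q1, q2⟩ := hBlow θ hθ
    obtain ⟨q1', q2'⟩ := hBlow θ' hθ'
    have hcast5 : ((Y ^ 256 : ℕ) : ℝ) = (Y : ℝ) ^ 256 := by push_cast; rfl
    have hp : ‖BB Y be (θ' : ℂ)‖ ≤ C0 * (1 + (Y : ℝ) ^ 256 * |θ - θ'|) * ‖BB Y be (θ : ℂ)‖ := by
      have hp0 := hbe.poly θ θ'
      rw [hcast5] at hp0
      unfold BB
      exact hp0
    have hnn : 0 ≤ C0 * (1 + (Y : ℝ) ^ 256 * |θ - θ'|) := by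
      apply mul_nonneg (le_trans zero_le_one hC0)
      have hYp : 0 ≤ (Y : ℝ) ^ 256 := pow_nonneg (Nat.cast_nonneg Y) _
      have := mul_nonneg hYp (abs_nonneg (θ - θ'))
      linarith
    calc ‖sv ((k + 1) * (Y ^ 4) ^ 64) a' (θ' : ℂ)‖ ≤ 2 * ‖BB Y be (θ' : ℂ)‖ := q2'
      _ ≤ 2 * (C0 * (1 + (Y : ℝ) ^ 256 * |θ - θ'|) * ‖BB Y be (θ : ℂ)‖) := by linarith
      _ ≤ 2 * (C0 * (1 + (Y : ℝ) ^ 256 * |θ - θ'|) *
            (2 * ‖sv ((k + 1) * (Y ^ 4) ^ 64) a' (θ : ℂ)‖)) := by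
          have : ‖BB Y be (θ : ℂ)‖ ≤ 2 * ‖sv ((k + 1) * (Y ^ 4) ^ 64) a' (θ : ℂ)‖ := by linarith
          have := mul_le_mul_of_nonneg_left this hnn
          linarith
      _ = 4 * C0 * (1 + (Y : ℝ) ^ 256 * |θ - θ'|) *
            ‖sv ((k + 1) * (Y ^ 4) ^ 64) a' (θ : ℂ)‖ := by ring
  · -- nice
    intro θ hθ z hz
    rw [hcast2]
    obtain ⟨q1, q2⟩ := hBlow θ hθ
    obtain ⟨t, ht1, htπ, ht⟩ := hfold θ hθ
    obtain ⟨_, _, q3⟩ := h5 t ht1 htπ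
    have hk1 : (((k + 1 : ℕ) : ℂ) - 1) = (k : ℂ) := by push_cast; ring
    rw [hk1]
    have hfin : ∀ x : ℝ, x ≤ 2 * L0 * ‖BB Y be (θ : ℂ)‖ →
        x ≤ 4 * L0 * ‖sv ((k + 1) * (Y ^ 4) ^ 64) a' (θ : ℂ)‖ := by
      intro x hx
      have : ‖BB Y be (θ : ℂ)‖ ≤ 2 * ‖sv ((k + 1) * (Y ^ 4) ^ 64) a' (θ : ℂ)‖ := by linarith
      nlinarith
    apply hfin
    rcases ht with ⟨_, ht⟩ | ⟨_, ht⟩
    · have := q3 z hz
      rw [← hsv, ht] at this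
      exact this
    · have hz' : ‖-(starRingEnd ℂ) z‖ ≤ 1 := by rw [norm_neg, RCLike.norm_conj]; exact hz
      have h6 := q3 (-(starRingEnd ℂ) z) hz'
      rw [ht, hreflB] at h6
      refine le_trans (le_of_eq ?_) h6
      rw [← hsv, norm_mul, norm_mul]
      congr 1
      · rw [Complex.norm_exp, Complex.norm_exp]
        congr 1
        simp
      · rw [← hrefl]
        congr 2
        simp [map_add, map_div₀, map_pow]
        ring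

end Pool.Agent.Helper59.Lit
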