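import Pool.Agent.Helper59.Lit.Kernel

/-!
# Module Tau: bounds for the bump sum
-/

set_option autoImplicit false

namespace Pool.Agent.Helper59.Lit

open Finset

/-- hypotheses on the data of a bump sum -/
structure TauHyp (m L i1 i2 : ℕ) (al : ℕ → ℤ) (R : ℕ → ℝ) : Prop where
  sign : IsSign al
  hm : 10 ≤ m
  hL : 16 * m ≤ L
  h1 : 1 ≤ i1
  h12 : i1 ≤ i2
  hcell : cell m i2 ≤ 1
  hR0 : ∀ i, 0 ≤ R i
  hR : ∀ i j : ℕ, R i ≤ (1 + |(i : ℝ) - (j : ℝ)|) ^ 4 * R j

/-! ### elementary sums -/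

theorem sum_inv_sq_range (N : ℕ) : ∑ n ∈ range N, 1 / (1 + (n : ℝ)) ^ 2 ≤ 2 - 2 / ((N : ℝ) + 1) := by
  induction N with
  | zero => simp
  | succ N ih =>
    rw [Finset.sum_range_succ]
    have h1 : 1 / (1 + (N : ℝ)) ^ 2 ≤ 2 / ((N : ℝ) + 1) - 2 / (((N + 1 : ℕ) : ℝ) + 1) := by
      push_cast
      rw [div_sub_div _ _ (by positivity) (by positivity), div_le_div_iff₀ (by positivity)
        (by positivity)]
      have : (0 : ℝ) ≤ N := by positivity
      nlinarith [mul_nonneg this this, mul_nonneg (mul_nonneg this this) this]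
    linarith

theorem sum_inv_sq_finset (T : Finset ℕ) : ∑ n ∈ T, 1 / (1 + (n : ℝ)) ^ 2 ≤ 2 := by
  have h1 : T ⊆ range (T.sup id + 1) := by
    intro n hn
    rw [Finset.mem_range, Nat.lt_succ_iff]
    exact Finset.le_sup (f := id) hn
  calc ∑ n ∈ T, 1 / (1 + (n : ℝ)) ^ 2 ≤ ∑ n ∈ range (T.sup id + 1), 1 / (1 + (n : ℝ)) ^ 2 :=
        Finset.sum_le_sum_of_subset_of_nonneg h1 (fun _ _ _ => by positivity)
    _ ≤ 2 - 2 / (((T.sup id + 1 : ℕ) : ℝ) + 1) := sum_inv_sq_range _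
    _ ≤ 2 := by
        have : (0 : ℝ) ≤ 2 / (((T.sup id + 1 : ℕ) : ℝ) + 1) := by positivity
        linarith

theorem sum_inv_sq_two (T : Finset ℕ) (i : ℕ) :
    ∑ j ∈ T, 1 / (1 + |(i : ℝ) - (j : ℝ)|) ^ 2 ≤ 4 := by
  classical
  rw [← Finset.sum_filter_add_sum_filter_not T (fun j => i ≤ j)]
  have h1 : ∑ j ∈ T.filter (fun j => i ≤ j), 1 / (1 + |(i : ℝ) - (j : ℝ)|) ^ 2 ≤ 2 := by
    calc ∑ j ∈ T.filter (fun j => i ≤ j), 1 / (1 + |(i : ℝ) - (j : ℝ)|) ^ 2
        = ∑ n ∈ (T.filter (fun j => i ≤ j)).image (fun j => j - i), 1 / (1 + (n : ℝ)) ^ 2 := by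
          rw [Finset.sum_image]
          · refine Finset.sum_congr rfl fun j hj => ?_
            rw [Finset.mem_filter] at hj
            rw [Nat.cast_sub hj.2, abs_sub_comm, abs_of_nonneg]
            have : (i : ℝ) ≤ j := by exact_mod_cast hj.2
            linarith
          · intro a ha b hb hab
            simp only [Finset.coe_filter, Set.mem_ofPred_eq] at ha hb
            simp only at hab
            omega
      _ ≤ 2 := sum_inv_sq_finset _
  have h2 : ∑ j ∈ T.filter (fun j => ¬ i ≤ j), 1 / (1 + |(i : ℝ) - (j : ℝ)|) ^ 2 ≤ 2 := by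
    calc ∑ j ∈ T.filter (fun j => ¬ i ≤ j), 1 / (1 + |(i : ℝ) - (j : ℝ)|) ^ 2
        = ∑ n ∈ (T.filter (fun j => ¬ i ≤ j)).image (fun j => i - j), 1 / (1 + (n : ℝ)) ^ 2 := by
          rw [Finset.sum_image]
          · refine Finset.sum_congr rfl fun j hj => ?_
            rw [Finset.mem_filter] at hj
            rw [Nat.cast_sub (by omega), abs_of_nonneg]
            have : (j : ℝ) ≤ i := by exact_mod_cast (by omega : j ≤ i)
            linarith
          · intro a ha b hb hab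
            simp only [Finset.coe_filter, Set.mem_ofPred_eq] at ha hb
            simp only at hab
            omega
      _ ≤ 2 := sum_inv_sq_finset _
  linarith

/-! ### the kernel bound in one formula -/

theorem FK_bd (m : ℕ) (hm : 1 ≤ m) (s : ℂ) (him : |s.im| ≤ 1 / (m : ℝ))
    (hre : |s.re| ≤ Real.pi) : ‖FK m s‖ ≤ (26 : ℝ) ^ 16 / (1 + m * |s.re|) ^ 16 := by
  have hm' : (0 : ℝ) < m := by exact_mod_cast (by omega : 0 < m)
  obtain ⟨h1, h2⟩ := FK_cplx m hm s him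
  rw [← div_pow]
  rcases lt_or_ge ((m : ℝ) * |s.re|) 1 with h | h
  · refine h1.trans ?_
    have e1 : Real.exp 16 = (Real.exp 1) ^ 16 := by
      rw [← Real.exp_nat_mul]; norm_num
    rw [e1]
    refine pow_le_pow_left₀ (Real.exp_pos _).le ?_ 16
    rw [le_div_iff₀ (by positivity)]
    have h3 := Real.exp_one_lt_d9
    have h4 : (0 : ℝ) ≤ m * |s.re| := by positivity
    nlinarith [Real.exp_pos 1]
  · have hpos : 0 < |s.re| := by
      by_contra hcon
      have : |s.re| = 0 := le_antisymm (not_lt.mp hcon) (abs_nonneg _)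
      rw [this, mul_zero] at h
      linarith
    refine (h2 hre (abs_pos.mp hpos)).trans ?_
    refine pow_le_pow_left₀ (by positivity) ?_ 16
    rw [div_le_div_iff₀ (by positivity) (by positivity)]
    nlinarith [Real.pi_lt_d2, Real.pi_pos]

/-! ### norms -/

theorem norm_sign {al : ℕ → ℤ} (h : IsSign al) (i : ℕ) : ‖((al i : ℤ) : ℂ)‖ = 1 := by
  rcases h i with h | h <;> rw [h] <;> simp

theorem tau_norm_le {m i1 i2 : ℕ} {al : ℕ → ℤ} {R : ℕ → ℝ} (hal : IsSign al)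
    (hR : ∀ i, 0 ≤ R i) (s : ℂ) :
    ‖tau m i1 i2 al R s‖ ≤ ∑ j ∈ Icc i1 i2, R j * ‖FK m (s - (cell m j : ℂ))‖ := by
  unfold tau
  refine (norm_sum_le _ _).trans (le_of_eq ?_)
  refine Finset.sum_congr rfl fun j _ => ?_
  rw [norm_mul, norm_mul, norm_mul, norm_sign hal, norm_pow, Complex.norm_I, one_pow,
    Complex.norm_real, Real.norm_eq_abs, abs_of_nonneg (hR j)]
  ring

theorem tauS_norm_le {m i1 i2 : ℕ} {al : ℕ → ℤ} {R : ℕ → ℝ} (hal : IsSign al)
    (hR : ∀ i, 0 ≤ R i) (s : ℂ) :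
    ‖tauS m i1 i2 al R s‖ ≤ ∑ j ∈ Icc i1 i2, R j * ‖FK m (s + (cell m j : ℂ))‖ := by
  unfold tauS
  refine (norm_sum_le _ _).trans (le_of_eq ?_)
  refine Finset.sum_congr rfl fun j _ => ?_
  rw [norm_mul, norm_mul, norm_mul, norm_sign hal, norm_pow, norm_neg, Complex.norm_I, one_pow,
    Complex.norm_real, Real.norm_eq_abs, abs_of_nonneg (hR j)]
  ring

theorem cell_mono {m : ℕ} {i j : ℕ} (h : i ≤ j) : cell m i ≤ cell m j := by
  unfold cell
  have : (i : ℝ) ≤ j := by exact_mod_cast h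
  have h0 : (0 : ℝ) ≤ 2 * Real.pi := by positivity
  gcongr

theorem cell_nonneg (m i : ℕ) : 0 ≤ cell m i := by
  unfold cell; positivity

theorem cell_sub (m i j : ℕ) : cell m i - cell m j = 2 * Real.pi * ((i : ℝ) - j) / m := by
  unfold cell; ring

/-- data of a perturbed point -/
theorem pert {m L : ℕ} (hm : 10 ≤ m) (hL : 16 * m ≤ L) (x : ℝ) (z : ℂ) (hz : ‖z‖ ≤ 1) :
    |((x : ℂ) + z / (L : ℂ)).im| ≤ 1 / (m : ℝ) ∧
    |((x : ℂ) + z / (L : ℂ)).re - x| ≤ 1 / (16 * (m : ℝ)) ∧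
    1 / (16 * (m : ℝ)) ≤ 1 / 160 := by
  have hm' : (10 : ℝ) ≤ m := by exact_mod_cast hm
  have hL' : 16 * (m : ℝ) ≤ L := by exact_mod_cast hL
  have hLpos : (0 : ℝ) < L := by linarith
  have h1 : (z / (L : ℂ)).im = z.im / L := by
    rw [← Complex.ofReal_natCast, Complex.div_ofReal_im]
  have h2 : (z / (L : ℂ)).re = z.re / L := by
    rw [← Complex.ofReal_natCast, Complex.div_ofReal_re]
  have h3 : |z.im| ≤ 1 := (Complex.abs_im_le_norm z).trans hz
  have h4 : |z.re| ≤ 1 := (Complex.abs_re_le_norm z).trans hz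
  have h5 : 1 / (L : ℝ) ≤ 1 / (16 * (m : ℝ)) := by
    apply one_div_le_one_div_of_le <;> linarith
  refine ⟨?_, ?_, ?_⟩
  · rw [Complex.add_im, Complex.ofReal_im, zero_add, h1, abs_div, abs_of_pos hLpos]
    calc |z.im| / L ≤ 1 / L := by gcongr
      _ ≤ 1 / (16 * (m : ℝ)) := h5
      _ ≤ 1 / (m : ℝ) := by apply one_div_le_one_div_of_le <;> linarith
  · rw [Complex.add_re, Complex.ofReal_re, h2, add_sub_cancel_left, abs_div, abs_of_pos hLpos]
    calc |z.re| / L ≤ 1 / L := by gcongr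
      _ ≤ 1 / (16 * (m : ℝ)) := h5
  · apply one_div_le_one_div_of_le <;> linarith

/-- the kernel at a perturbed point -/
theorem FK_pert {m L : ℕ} (hm : 10 ≤ m) (hL : 16 * m ≤ L) (x : ℝ) (z : ℂ) (hz : ‖z‖ ≤ 1)
    (hx : |x| + 1 / (16 * (m : ℝ)) ≤ Real.pi) :
    ‖FK m ((x : ℂ) + z / (L : ℂ))‖ ≤ (28 : ℝ) ^ 16 / (1 + m * |x|) ^ 16 := by
  obtain ⟨h1, h2, _⟩ := pert hm hL x z hz
  have hm' : (10 : ℝ) ≤ m := by exact_mod_cast hm
  set r := ((x : ℂ) + z / (L : ℂ)).re with hr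
  have h3 : |r| ≤ |x| + 1 / (16 * (m : ℝ)) := by
    have := abs_sub_abs_le_abs_sub r x
    linarith
  have h4 : |x| - 1 / (16 * (m : ℝ)) ≤ |r| := by
    have := abs_sub_abs_le_abs_sub x r
    rw [abs_sub_comm] at this
    linarith
  refine (FK_bd m (by omega) _ h1 (by rw [← hr]; linarith)).trans ?_
  rw [← hr, ← div_pow, ← div_pow]
  refine pow_le_pow_left₀ (by positivity) ?_ 16
  rw [div_le_div_iff₀ (by positivity) (by positivity)]
  have h5 : (m : ℝ) * |x| - 1 / 16 ≤ m * |r| := by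
    have : (m : ℝ) * (|x| - 1 / (16 * (m : ℝ))) ≤ m * |r| := by gcongr
    have e : (m : ℝ) * (|x| - 1 / (16 * (m : ℝ))) = m * |x| - 1 / 16 := by field_simp
    linarith
  have h6 : (0 : ℝ) ≤ m * |x| := by positivity
  nlinarith

/-- upper bound for a sum over cells -/
theorem sum_cells {R : ℕ → ℝ} {i : ℕ} (hR0 : ∀ i, 0 ≤ R i)
    (hR : ∀ i j : ℕ, R i ≤ (1 + |(i : ℝ) - (j : ℝ)|) ^ 4 * R j) (T : Finset ℕ)
    (w : ℕ → ℝ) {C : ℝ} (hC : 0 ≤ C)
    (hw : ∀ j ∈ T, w j ≤ C / (1 + |(i : ℝ) - (j : ℝ)|) ^ 8) :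
    ∑ j ∈ T, R j * w j ≤ 4 * C * R i := by
  have h1 : ∀ j ∈ T, R j * w j ≤ (C * R i) * (1 / (1 + |(i : ℝ) - (j : ℝ)|) ^ 2) := by
    intro j hj
    set n := |(i : ℝ) - (j : ℝ)| with hn
    have hn0 : 0 ≤ n := abs_nonneg _
    have hRj : R j ≤ (1 + n) ^ 4 * R i := by
      have := hR j i
      rwa [abs_sub_comm] at this
    have hRi := hR0 i
    calc R j * w j ≤ R j * (C / (1 + n) ^ 8) :=
          mul_le_mul_of_nonneg_left (hw j hj) (hR0 j)
      _ ≤ ((1 + n) ^ 4 * R i) * (C / (1 + n) ^ 8) :=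
          mul_le_mul_of_nonneg_right hRj (by positivity)
      _ = (C * R i) * (1 / (1 + n) ^ 4) := by field_simp
      _ ≤ (C * R i) * (1 / (1 + n) ^ 2) := by
          apply mul_le_mul_of_nonneg_left _ (by positivity)
          apply one_div_le_one_div_of_le (by positivity)
          exact pow_le_pow_right₀ (by linarith) (by norm_num)
  calc ∑ j ∈ T, R j * w j ≤ ∑ j ∈ T, (C * R i) * (1 / (1 + |(i : ℝ) - (j : ℝ)|) ^ 2) :=
        Finset.sum_le_sum h1
    _ = (C * R i) * ∑ j ∈ T, (1 / (1 + |(i : ℝ) - (j : ℝ)|) ^ 2) := by rw [Finset.mul_sum]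
    _ ≤ (C * R i) * 4 := by
        apply mul_le_mul_of_nonneg_left (sum_inv_sq_two T i)
        exact mul_nonneg hC (hR0 i)
    _ = 4 * C * R i := by ring

/-! ### the lower bound -/

theorem re_I_pow (i j : ℕ) : |(Complex.I ^ j * (-Complex.I) ^ i).re| ≤ 1 := by
  refine (Complex.abs_re_le_norm _).trans ?_
  simp

theorem re_I_pow_odd (i j : ℕ) (h : (i + j) % 2 = 1) :
    (Complex.I ^ j * (-Complex.I) ^ i).re = 0 := by
  have h1 : Complex.I ^ j * (-Complex.I) ^ i = (-1) ^ i * Complex.I ^ (i + j) := by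
    rw [neg_pow, pow_add]; ring
  obtain ⟨k, hk⟩ : ∃ k, i + j = 2 * k + 1 := ⟨(i + j) / 2, by omega⟩
  rw [h1, hk, pow_succ, pow_mul, Complex.I_sq]
  have h2 : ((-1 : ℂ)) ^ i * ((-1) ^ k * Complex.I) = (((-1 : ℝ) ^ i * (-1) ^ k : ℝ) : ℂ)
      * Complex.I := by push_cast; ring
  rw [h2, Complex.re_ofReal_mul, Complex.I_re, mul_zero]

theorem re_I_pow_self (i : ℕ) : (Complex.I ^ i * (-Complex.I) ^ i).re = 1 := by
  rw [← mul_pow]
  simp

theorem tau_lower (m L i1 i2 : ℕ) (al : ℕ → ℤ) (R : ℕ → ℝ) (H : TauHyp m L i1 i2 al R)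
    (θ : ℝ) (i : ℕ) (hi : i ∈ Icc i1 i2) (hθ : |θ - cell m i| ≤ Real.pi / m) :
    5 / 100000 * R i ≤ ‖tau m i1 i2 al R (θ : ℂ)‖ := by
  classical
  have hm1 : 1 ≤ m := by have := H.hm; omega
  have hm' : (10 : ℝ) ≤ m := by exact_mod_cast H.hm
  have hmpos : (0 : ℝ) < m := by linarith
  have hi' := hi
  rw [Finset.mem_Icc] at hi'
  choose y hy using fun j : ℕ => FK_real m hm1 (θ - cell m j)
  have hyeq : ∀ j, FK m ((θ : ℂ) - (cell m j : ℂ)) = ((y j : ℝ) : ℂ) := by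
    intro j
    have := (hy j).1
    rwa [Complex.ofReal_sub] at this
  have hpi := Real.pi_lt_d2
  have hpi3 := Real.pi_gt_three
  -- the functional
  have hphi : (tau m i1 i2 al R (θ : ℂ) * (-Complex.I) ^ i).re
      = ∑ j ∈ Icc i1 i2, (al j : ℝ) * R j * y j * (Complex.I ^ j * (-Complex.I) ^ i).re := by
    unfold tau
    rw [Finset.sum_mul, Complex.re_sum]
    refine Finset.sum_congr rfl fun j _ => ?_
    rw [hyeq j]
    have e1 : (al j : ℂ) * Complex.I ^ j * (R j : ℂ) * ((y j : ℝ) : ℂ) * (-Complex.I) ^ i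
        = (((al j : ℝ) * R j * y j : ℝ) : ℂ) * (Complex.I ^ j * (-Complex.I) ^ i) := by
      push_cast; ring
    rw [e1, Complex.re_ofReal_mul]
  have hnorm : |(tau m i1 i2 al R (θ : ℂ) * (-Complex.I) ^ i).re|
      ≤ ‖tau m i1 i2 al R (θ : ℂ)‖ := by
    refine (Complex.abs_re_le_norm _).trans ?_
    simp
  refine le_trans ?_ hnorm
  rw [hphi, ← Finset.add_sum_erase _ _ hi, re_I_pow_self, mul_one]
  -- the main term
  have hal : ∀ j, |(al j : ℝ)| = 1 := by
    intro j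
    rcases H.sign j with h | h <;> rw [h] <;> simp
  have hmain : (57 / 100 : ℝ) ^ 16 * R i ≤ |(al i : ℝ) * R i * y i| := by
    rw [abs_mul, abs_mul, hal, one_mul, abs_of_nonneg (H.hR0 i), abs_of_nonneg (hy i).2.1]
    have h1 : (57 / 100 : ℝ) ^ 16 ≤ y i := by
      apply (hy i).2.2.2.2
      calc (m : ℝ) * |θ - cell m i| ≤ m * (Real.pi / m) := by gcongr
        _ = Real.pi := by field_simp
    rw [mul_comm]
    exact mul_le_mul_of_nonneg_left h1 (H.hR0 i)
  have hrest : |∑ j ∈ (Icc i1 i2).erase i, (al j : ℝ) * R j * y j *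
      (Complex.I ^ j * (-Complex.I) ^ i).re| ≤ 4 * (1 / 3 ^ 10) * R i := by
    have hterm : ∀ j ∈ (Icc i1 i2).erase i, |(al j : ℝ) * R j * y j *
        (Complex.I ^ j * (-Complex.I) ^ i).re|
        ≤ (1 / 3 ^ 10 * R i) * (1 / (1 + |(i : ℝ) - (j : ℝ)|) ^ 2) := by
      intro j hj
      rw [Finset.mem_erase, Finset.mem_Icc] at hj
      have hRi := H.hR0 i
      rcases Nat.even_or_odd (i + j) with he | ho
      · -- same parity
        have hn2 : (2 : ℝ) ≤ |(i : ℝ) - (j : ℝ)| := by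
          obtain ⟨k, hk⟩ := he
          have h1 : 2 ≤ |(i : ℤ) - (j : ℤ)| := by
            rw [le_abs]
            omega
          exact_mod_cast h1
        set n := |(i : ℝ) - (j : ℝ)| with hn
        have hdist : (2 * n - 1) * (Real.pi / m) ≤ |θ - cell m j| := by
          have h1 : |cell m i - cell m j| = 2 * n * (Real.pi / m) := by
            rw [cell_sub, abs_div, abs_mul, abs_of_pos (by positivity : 0 < 2 * Real.pi),
              ← hn, abs_of_pos hmpos]
            ring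
          have h2 : |cell m i - cell m j| ≤ |θ - cell m i| + |θ - cell m j| := by
            have := abs_sub_le (cell m i) θ (cell m j)
            rw [abs_sub_comm (cell m i) θ] at this
            exact this
          linarith
        have hdle : |θ - cell m j| ≤ Real.pi := by
          have c1 := cell_nonneg m i
          have c2 := cell_nonneg m j
          have c3 : cell m i ≤ 1 := (cell_mono hi'.2).trans H.hcell
          have c4 : cell m j ≤ 1 := (cell_mono hj.2.2).trans H.hcell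
          have c5 : Real.pi / m ≤ 1 := by
            rw [div_le_one hmpos]; linarith
          rw [abs_le] at hθ ⊢
          constructor <;> linarith [hθ.1, hθ.2]
        have hdpos : 0 < |θ - cell m j| := by
          have : 0 < (2 * n - 1) * (Real.pi / m) := by
            apply mul_pos (by linarith); positivity
          linarith
        have hyj := (hy j).2.2.2.1 hdle (abs_pos.mp hdpos)
        have hyj2 : y j ≤ (1 / (2 * n - 1)) ^ 16 := by
          refine hyj.trans ?_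
          refine pow_le_pow_left₀ (by positivity) ?_ 16
          rw [div_le_div_iff₀ (by positivity) (by linarith), one_mul]
          have : (m : ℝ) * ((2 * n - 1) * (Real.pi / m)) ≤ m * |θ - cell m j| := by gcongr
          have e : (m : ℝ) * ((2 * n - 1) * (Real.pi / m)) = Real.pi * (2 * n - 1) := by
            field_simp
          linarith
        have hRj : R j ≤ (2 * n - 1) ^ 4 * R i := by
          have h1 := H.hR j i
          rw [abs_sub_comm, ← hn] at h1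
          refine h1.trans ?_
          apply mul_le_mul_of_nonneg_right _ (H.hR0 i)
          apply pow_le_pow_left₀ (by linarith)
          linarith
        rw [abs_mul, abs_mul, abs_mul, hal, one_mul, abs_of_nonneg (H.hR0 j),
          abs_of_nonneg (hy j).2.1]
        have h2n : (3 : ℝ) ≤ 2 * n - 1 := by linarith
        have hpos : (0 : ℝ) < 2 * n - 1 := by linarith
        calc R j * y j * |(Complex.I ^ j * (-Complex.I) ^ i).re|
            ≤ R j * y j * 1 := by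
              apply mul_le_mul_of_nonneg_left (re_I_pow i j)
              exact mul_nonneg (H.hR0 j) (hy j).2.1
          _ ≤ ((2 * n - 1) ^ 4 * R i) * (1 / (2 * n - 1)) ^ 16 := by
              rw [mul_one]
              apply mul_le_mul hRj hyj2 (hy j).2.1
              positivity
          _ = R i * ((1 / (2 * n - 1) ^ 10) * (1 / (2 * n - 1) ^ 2)) := by
              field_simp
          _ ≤ R i * ((1 / 3 ^ 10) * (1 / (1 + n) ^ 2)) := by
              apply mul_le_mul_of_nonneg_left _ (H.hR0 i)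
              apply mul_le_mul _ _ (by positivity) (by positivity)
              · apply one_div_le_one_div_of_le (by positivity)
                exact pow_le_pow_left₀ (by norm_num) h2n 10
              · apply one_div_le_one_div_of_le (by positivity)
                apply pow_le_pow_left₀ (by linarith)
                linarith
          _ = _ := by ring
      · rw [re_I_pow_odd i j (by rw [Nat.odd_iff] at ho; exact ho), mul_zero, abs_zero]
        positivity
    calc _ ≤ ∑ j ∈ (Icc i1 i2).erase i, |(al j : ℝ) * R j * y j *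
          (Complex.I ^ j * (-Complex.I) ^ i).re| := Finset.abs_sum_le_sum_abs _ _
      _ ≤ ∑ j ∈ (Icc i1 i2).erase i,
          (1 / 3 ^ 10 * R i) * (1 / (1 + |(i : ℝ) - (j : ℝ)|) ^ 2) := Finset.sum_le_sum hterm
      _ = (1 / 3 ^ 10 * R i) * ∑ j ∈ (Icc i1 i2).erase i,
          (1 / (1 + |(i : ℝ) - (j : ℝ)|) ^ 2) := by rw [Finset.mul_sum]
      _ ≤ (1 / 3 ^ 10 * R i) * 4 := by
          apply mul_le_mul_of_nonneg_left (sum_inv_sq_two _ i)
          exact mul_nonneg (by norm_num) (H.hR0 i)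
      _ = 4 * (1 / 3 ^ 10) * R i := by ring
  have hfin : |(al i : ℝ) * R i * y i| - |∑ j ∈ (Icc i1 i2).erase i, (al j : ℝ) * R j * y j *
      (Complex.I ^ j * (-Complex.I) ^ i).re| ≤ |(al i : ℝ) * R i * y i +
      ∑ j ∈ (Icc i1 i2).erase i, (al j : ℝ) * R j * y j *
      (Complex.I ^ j * (-Complex.I) ^ i).re| := by
    have := abs_sub_abs_le_abs_sub ((al i : ℝ) * R i * y i)
      (-∑ j ∈ (Icc i1 i2).erase i, (al j : ℝ) * R j * y j *
      (Complex.I ^ j * (-Complex.I) ^ i).re)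
    rw [abs_neg, sub_neg_eq_add] at this
    exact this
  have hRi := H.hR0 i
  have hnum : (5 / 100000 : ℝ) ≤ (57 / 100 : ℝ) ^ 16 - 4 * (1 / 3 ^ 10) := by norm_num
  calc 5 / 100000 * R i ≤ ((57 / 100 : ℝ) ^ 16 - 4 * (1 / 3 ^ 10)) * R i := by gcongr
    _ = (57 / 100 : ℝ) ^ 16 * R i - 4 * (1 / 3 ^ 10) * R i := by ring
    _ ≤ _ := by linarith

/-! ### the upper bounds -/

theorem pi_div_le {m : ℕ} (hm : 10 ≤ m) : Real.pi / m ≤ 1 / 2 := by
  have hm' : (10 : ℝ) ≤ m := by exact_mod_cast hm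
  rw [div_le_iff₀ (by linarith)]
  linarith [Real.pi_lt_d2]

/-- weakening of the kernel bound -/
theorem FK_pert_weak {m L : ℕ} (hm : 10 ≤ m) (hL : 16 * m ≤ L) (x : ℝ) (z : ℂ) (hz : ‖z‖ ≤ 1)
    (hx : |x| + 1 / (16 * (m : ℝ)) ≤ Real.pi) (a b : ℝ) (ha : 0 ≤ a) (hb : 0 ≤ b)
    (hab : a ≤ m * |x|) (hbb : b ≤ m * |x|) :
    ‖FK m ((x : ℂ) + z / (L : ℂ))‖ ≤ ((28 : ℝ) ^ 16 / (1 + a) ^ 8) / (1 + b) ^ 8 := by
  refine (FK_pert hm hL x z hz hx).trans ?_
  rw [div_div]
  apply div_le_div_of_nonneg_left (by positivity) (by positivity)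
  have h1 : (1 + m * |x|) ^ 16 = (1 + m * |x|) ^ 8 * (1 + m * |x|) ^ 8 := by ring
  rw [h1]
  gcongr

theorem tau_near (m L i1 i2 : ℕ) (al : ℕ → ℤ) (R : ℕ → ℝ) (H : TauHyp m L i1 i2 al R)
    (θ : ℝ) (i : ℕ) (z : ℂ) (hi : i ∈ Icc i1 i2) (hθ : |θ - cell m i| ≤ Real.pi / m)
    (hθ0 : 0 ≤ θ) (hz : ‖z‖ ≤ 1) :
    ‖tau m i1 i2 al R ((θ : ℂ) + z / (L : ℂ))‖ ≤ 4 * 28 ^ 16 * R i := by
  have hm' : (10 : ℝ) ≤ m := by exact_mod_cast H.hm
  have hmpos : (0 : ℝ) < m := by linarith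
  have hi' := hi
  rw [Finset.mem_Icc] at hi'
  have hpi := Real.pi_lt_d2
  have hpi3 := Real.pi_gt_three
  refine (tau_norm_le H.sign H.hR0 _).trans ?_
  refine sum_cells H.hR0 H.hR _ _ (by positivity) ?_
  intro j hj
  rw [Finset.mem_Icc] at hj
  have e1 : (θ : ℂ) + z / (L : ℂ) - (cell m j : ℂ) = ((θ - cell m j : ℝ) : ℂ) + z / (L : ℂ) := by
    push_cast; ring
  rw [e1]
  have c1 := cell_nonneg m i
  have c2 := cell_nonneg m j
  have c3 : cell m i ≤ 1 := (cell_mono hi'.2).trans H.hcell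
  have c4 : cell m j ≤ 1 := (cell_mono hj.2).trans H.hcell
  have c5 := pi_div_le H.hm
  have c6 := (pert H.hm H.hL 0 z hz).2.2
  have hx : |θ - cell m j| + 1 / (16 * (m : ℝ)) ≤ Real.pi := by
    have : |θ - cell m j| ≤ 3 / 2 := by
      rw [abs_le] at hθ ⊢
      constructor <;> linarith [hθ.1, hθ.2]
    linarith
  set n := |(i : ℝ) - (j : ℝ)| with hn
  have hn0 : 0 ≤ n := abs_nonneg _
  have hnx : n ≤ m * |θ - cell m j| := by
    rcases eq_or_ne i j with h | h
    · have : n = 0 := by rw [hn, h]; simp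
      rw [this]; positivity
    · have hn1 : 1 ≤ n := by
        have h1 : 1 ≤ |(i : ℤ) - (j : ℤ)| := by
          rw [le_abs]; omega
        rw [hn]
        exact_mod_cast h1
      have h1 : |cell m i - cell m j| = 2 * n * (Real.pi / m) := by
        rw [cell_sub, abs_div, abs_mul, abs_of_pos (by positivity : 0 < 2 * Real.pi),
          ← hn, abs_of_pos hmpos]
        ring
      have h2 : |cell m i - cell m j| ≤ |θ - cell m i| + |θ - cell m j| := by
        have := abs_sub_le (cell m i) θ (cell m j)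
        rw [abs_sub_comm (cell m i) θ] at this
        exact this
      have h3 : (2 * n - 1) * (Real.pi / m) ≤ |θ - cell m j| := by linarith
      have h4 : (m : ℝ) * ((2 * n - 1) * (Real.pi / m)) ≤ m * |θ - cell m j| := by gcongr
      have e : (m : ℝ) * ((2 * n - 1) * (Real.pi / m)) = Real.pi * (2 * n - 1) := by
        field_simp
      rw [e] at h4
      nlinarith
  refine (FK_pert_weak H.hm H.hL _ z hz hx 0 n le_rfl hn0 (by positivity) hnx).trans ?_
  simp

theorem tau_left (m L i1 i2 : ℕ) (al : ℕ → ℤ) (R : ℕ → ℝ) (H : TauHyp m L i1 i2 al R)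
    (θ : ℝ) (z : ℂ) (hθ0 : 0 ≤ θ) (hθ : θ ≤ cell m i1) (hz : ‖z‖ ≤ 1) :
    ‖tau m i1 i2 al R ((θ : ℂ) + z / (L : ℂ))‖
      ≤ 4 * 28 ^ 16 * R i1 / (1 + m * (cell m i1 - θ)) ^ 8 := by
  have hm' : (10 : ℝ) ≤ m := by exact_mod_cast H.hm
  have hmpos : (0 : ℝ) < m := by linarith
  have hpi := Real.pi_lt_d2
  have hpi3 := Real.pi_gt_three
  have hD : 0 ≤ cell m i1 - θ := by linarith
  refine (tau_norm_le H.sign H.hR0 _).trans ?_
  have hgoal : 4 * 28 ^ 16 * R i1 / (1 + m * (cell m i1 - θ)) ^ 8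
      = 4 * (28 ^ 16 / (1 + m * (cell m i1 - θ)) ^ 8) * R i1 := by ring
  rw [hgoal]
  refine sum_cells H.hR0 H.hR _ _ (by positivity) ?_
  intro j hj
  rw [Finset.mem_Icc] at hj
  have e1 : (θ : ℂ) + z / (L : ℂ) - (cell m j : ℂ) = ((θ - cell m j : ℝ) : ℂ) + z / (L : ℂ) := by
    push_cast; ring
  rw [e1]
  have c2 := cell_nonneg m j
  have c4 : cell m j ≤ 1 := (cell_mono hj.2).trans H.hcell
  have c6 := (pert H.hm H.hL 0 z hz).2.2
  have c7 : cell m i1 ≤ cell m j := cell_mono hj.1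
  have habs : |θ - cell m j| = cell m j - θ := by
    rw [abs_sub_comm, abs_of_nonneg]; linarith
  have hx : |θ - cell m j| + 1 / (16 * (m : ℝ)) ≤ Real.pi := by
    rw [habs]; linarith
  have hnn : |(i1 : ℝ) - (j : ℝ)| = (j : ℝ) - i1 := by
    rw [abs_sub_comm, abs_of_nonneg]
    have : (i1 : ℝ) ≤ j := by exact_mod_cast hj.1
    linarith
  have hj0 : 0 ≤ (j : ℝ) - i1 := by rw [← hnn]; exact abs_nonneg _
  have hmx : (m : ℝ) * |θ - cell m j| = m * (cell m i1 - θ) + 2 * Real.pi * ((j : ℝ) - i1) := by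
    have h1 : (m : ℝ) * (cell m j - cell m i1) = 2 * Real.pi * ((j : ℝ) - i1) := by
      rw [cell_sub]; field_simp
    rw [habs]; linarith
  have hmD : 0 ≤ (m : ℝ) * (cell m i1 - θ) := by positivity
  refine (FK_pert_weak H.hm H.hL _ z hz hx (m * (cell m i1 - θ)) ((j : ℝ) - i1) hmD hj0 ?_ ?_).trans
    (le_of_eq (by rw [hnn]))
  · rw [hmx]; nlinarith
  · rw [hmx]; nlinarith

theorem tau_right (m L i1 i2 : ℕ) (al : ℕ → ℤ) (R : ℕ → ℝ) (H : TauHyp m L i1 i2 al R)
    (θ : ℝ) (z : ℂ) (hθ : cell m i2 ≤ θ) (hθπ : θ ≤ Real.pi) (hz : ‖z‖ ≤ 1) :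
    ‖tau m i1 i2 al R ((θ : ℂ) + z / (L : ℂ))‖
      ≤ 4 * 28 ^ 16 * R i2 / (1 + m * (θ - cell m i2)) ^ 8 := by
  have hm' : (10 : ℝ) ≤ m := by exact_mod_cast H.hm
  have hmpos : (0 : ℝ) < m := by linarith
  have hpi := Real.pi_lt_d2
  have hpi3 := Real.pi_gt_three
  have hD : 0 ≤ θ - cell m i2 := by linarith
  refine (tau_norm_le H.sign H.hR0 _).trans ?_
  have hgoal : 4 * 28 ^ 16 * R i2 / (1 + m * (θ - cell m i2)) ^ 8
      = 4 * (28 ^ 16 / (1 + m * (θ - cell m i2)) ^ 8) * R i2 := by ring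
  rw [hgoal]
  refine sum_cells H.hR0 H.hR _ _ (by positivity) ?_
  intro j hj
  rw [Finset.mem_Icc] at hj
  have e1 : (θ : ℂ) + z / (L : ℂ) - (cell m j : ℂ) = ((θ - cell m j : ℝ) : ℂ) + z / (L : ℂ) := by
    push_cast; ring
  rw [e1]
  have c7 : cell m j ≤ cell m i2 := cell_mono hj.2
  have c8 : 2 * Real.pi / m ≤ cell m j := by
    have h1 : cell m 1 ≤ cell m j := cell_mono (H.h1.trans hj.1)
    have h2 : cell m 1 = 2 * Real.pi / m := by unfold cell; simp
    linarith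
  have c9 : 1 / (16 * (m : ℝ)) ≤ 2 * Real.pi / m := by
    rw [div_le_div_iff₀ (by positivity) hmpos]
    nlinarith
  have habs : |θ - cell m j| = θ - cell m j := by
    rw [abs_of_nonneg]; linarith
  have hx : |θ - cell m j| + 1 / (16 * (m : ℝ)) ≤ Real.pi := by
    rw [habs]; linarith
  have hnn : |(i2 : ℝ) - (j : ℝ)| = (i2 : ℝ) - j := by
    rw [abs_of_nonneg]
    have : (j : ℝ) ≤ i2 := by exact_mod_cast hj.2
    linarith
  have hj0 : 0 ≤ (i2 : ℝ) - j := by rw [← hnn]; exact abs_nonneg _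
  have hmx : (m : ℝ) * |θ - cell m j| = m * (θ - cell m i2) + 2 * Real.pi * ((i2 : ℝ) - j) := by
    have h1 : (m : ℝ) * (cell m i2 - cell m j) = 2 * Real.pi * ((i2 : ℝ) - j) := by
      rw [cell_sub]; field_simp
    rw [habs]; linarith
  have hmD : 0 ≤ (m : ℝ) * (θ - cell m i2) := by positivity
  refine (FK_pert_weak H.hm H.hL _ z hz hx (m * (θ - cell m i2)) ((i2 : ℝ) - j) hmD hj0 ?_ ?_).trans
    (le_of_eq (by rw [hnn]))
  · rw [hmx]; nlinarith
  · rw [hmx]; nlinarith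

theorem tauS_upper (m L i1 i2 : ℕ) (al : ℕ → ℤ) (R : ℕ → ℝ) (H : TauHyp m L i1 i2 al R)
    (θ : ℝ) (z : ℂ) (hθ0 : 0 ≤ θ) (hθπ : θ ≤ Real.pi) (hz : ‖z‖ ≤ 1) :
    ‖tauS m i1 i2 al R ((θ : ℂ) + z / (L : ℂ))‖
      ≤ 4 * 28 ^ 16 * (∑ i ∈ Icc i1 i2, R i) / (i1 : ℝ) ^ 16 := by
  have hm' : (10 : ℝ) ≤ m := by exact_mod_cast H.hm
  have hmpos : (0 : ℝ) < m := by linarith
  have hpi := Real.pi_lt_d2
  have hpi3 := Real.pi_gt_three
  have hi1 : (1 : ℝ) ≤ i1 := by exact_mod_cast H.h1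
  refine (tauS_norm_le H.sign H.hR0 _).trans ?_
  have hterm : ∀ j ∈ Icc i1 i2, R j * ‖FK m ((θ : ℂ) + z / (L : ℂ) + (cell m j : ℂ))‖
      ≤ R j * (28 ^ 16 / (i1 : ℝ) ^ 16) := by
    intro j hj
    rw [Finset.mem_Icc] at hj
    apply mul_le_mul_of_nonneg_left _ (H.hR0 j)
    have e1 : (θ : ℂ) + z / (L : ℂ) + (cell m j : ℂ) = ((θ + cell m j : ℝ) : ℂ) + z / (L : ℂ) := by
      push_cast; ring
    rw [e1]
    obtain ⟨p1, p2, p3⟩ := pert H.hm H.hL (θ + cell m j) z hz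
    set s := ((θ + cell m j : ℝ) : ℂ) + z / (L : ℂ) with hs
    have c2 := cell_nonneg m j
    have c4 : cell m j ≤ 1 := (cell_mono hj.2).trans H.hcell
    have hij : (i1 : ℝ) ≤ j := by exact_mod_cast hj.1
    have hcellj : (m : ℝ) * cell m j = 2 * Real.pi * j := by
      unfold cell; field_simp
    rw [abs_le] at p2
    have hden : ∀ r : ℝ, (i1 : ℝ) ≤ 1 + m * |r| →
        (26 : ℝ) ^ 16 / (1 + m * |r|) ^ 16 ≤ 28 ^ 16 / (i1 : ℝ) ^ 16 := by
      intro r hr
      have h0 : (0 : ℝ) ≤ m * |r| := by positivity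
      gcongr
      norm_num
    rcases le_or_gt s.re Real.pi with h | h
    · have hlow : cell m j - 1 / (16 * (m : ℝ)) ≤ s.re := by linarith [p2.1]
      have hpos : 0 ≤ cell m j - 1 / (16 * (m : ℝ)) := by
        have c8 : 2 * Real.pi / m ≤ cell m j := by
          have h1 : cell m 1 ≤ cell m j := cell_mono (H.h1.trans hj.1)
          have h2 : cell m 1 = 2 * Real.pi / m := by unfold cell; simp
          linarith
        have c9 : 1 / (16 * (m : ℝ)) ≤ 2 * Real.pi / m := by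
          rw [div_le_div_iff₀ (by positivity) hmpos]
          nlinarith
        linarith
      have habs : |s.re| = s.re := abs_of_nonneg (by linarith)
      refine (FK_bd m (by have := H.hm; omega) s p1 (by rw [habs]; exact h)).trans ?_
      apply hden
      rw [habs]
      have h1 : (m : ℝ) * (cell m j - 1 / (16 * (m : ℝ))) ≤ m * s.re := by gcongr
      have e : (m : ℝ) * (cell m j - 1 / (16 * (m : ℝ))) = m * cell m j - 1 / 16 := by
        field_simp
      rw [e, hcellj] at h1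
      nlinarith
    · have hper : FK m s = FK m (s - 2 * Real.pi) := by
        rw [← FK_periodic m (s - 2 * Real.pi)]
        congr 1
        ring
      rw [hper]
      have hre : (s - 2 * Real.pi).re = s.re - 2 * Real.pi := by
        simp
      have him : (s - 2 * Real.pi).im = s.im := by
        simp
      have hup : s.re ≤ Real.pi + 1 + 1 / 160 := by linarith [p2.2]
      have habs : |(s - 2 * Real.pi).re| = 2 * Real.pi - s.re := by
        rw [hre, abs_of_nonpos (by linarith)]; ring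
      refine (FK_bd m (by have := H.hm; omega) _ (by rw [him]; exact p1)
        (by rw [habs]; linarith)).trans ?_
      apply hden
      rw [habs]
      have h1 : (m : ℝ) * cell m j ≤ m * (2 * Real.pi - s.re) := by
        gcongr
        linarith
      rw [hcellj] at h1
      nlinarith
  refine (Finset.sum_le_sum hterm).trans ?_
  rw [← Finset.sum_mul]
  have hsum : 0 ≤ ∑ i ∈ Icc i1 i2, R i := Finset.sum_nonneg fun i _ => H.hR0 i
  rw [mul_div_assoc', mul_comm (∑ i ∈ Icc i1 i2, R i)]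
  gcongr
  norm_num

theorem tau_bounds : ∃ c1 C2 : ℝ, 0 < c1 ∧ c1 ≤ 1 ∧ 1 ≤ C2 ∧
    ∀ (m L i1 i2 : ℕ) (al : ℕ → ℤ) (R : ℕ → ℝ), TauHyp m L i1 i2 al R →
    (∀ (θ : ℝ) (i : ℕ), i ∈ Icc i1 i2 → |θ - cell m i| ≤ Real.pi / m →
      c1 * R i ≤ ‖tau m i1 i2 al R (θ : ℂ)‖) ∧
    (∀ (θ : ℝ) (i : ℕ) (z : ℂ), i ∈ Icc i1 i2 → |θ - cell m i| ≤ Real.pi / m → 0 ≤ θ →
      ‖z‖ ≤ 1 → ‖tau m i1 i2 al R ((θ : ℂ) + z / (L : ℂ))‖ ≤ C2 * R i) ∧
    (∀ (θ : ℝ) (z : ℂ), 0 ≤ θ → θ ≤ cell m i1 → ‖z‖ ≤ 1 →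
      ‖tau m i1 i2 al R ((θ : ℂ) + z / (L : ℂ))‖ ≤ C2 * R i1 / (1 + m * (cell m i1 - θ)) ^ 8) ∧
    (∀ (θ : ℝ) (z : ℂ), cell m i2 ≤ θ → θ ≤ Real.pi → ‖z‖ ≤ 1 →
      ‖tau m i1 i2 al R ((θ : ℂ) + z / (L : ℂ))‖ ≤ C2 * R i2 / (1 + m * (θ - cell m i2)) ^ 8) ∧
    (∀ (θ : ℝ) (z : ℂ), 0 ≤ θ → θ ≤ Real.pi → ‖z‖ ≤ 1 →
      ‖tauS m i1 i2 al R ((θ : ℂ) + z / (L : ℂ))‖ ≤
        C2 * (∑ i ∈ Icc i1 i2, R i) / (i1 : ℝ) ^ 16) := by
  refine ⟨5 / 100000, 4 * 28 ^ 16, by norm_num, by norm_num, by norm_num, ?_⟩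
  intro m L i1 i2 al R H
  exact ⟨fun θ i hi hθ => tau_lower m L i1 i2 al R H θ i hi hθ,
    fun θ i z hi hθ h0 hz => tau_near m L i1 i2 al R H θ i z hi hθ h0 hz,
    fun θ z h0 h1 hz => tau_left m L i1 i2 al R H θ z h0 h1 hz,
    fun θ z h0 h1 hz => tau_right m L i1 i2 al R H θ z h0 h1 hz,
    fun θ z h0 h1 hz => tauS_upper m L i1 i2 al R H θ z h0 h1 hz⟩

/-! ### Fourier coefficients -/

/-- real Fourier coefficients of the modulated real bump sum -/
theorem tau_coef (m L i1 i2 : ℕ) (al : ℕ → ℤ) (R : ℕ → ℝ) (hm : 1 ≤ m) (hL : 16 * m ≤ L)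
    (v : ℂ) : ∃ be : ℕ → ℝ,
    (∀ s : ℂ, Complex.exp (Complex.I * (8 * (m : ℂ)) * s) *
      (v * tau m i1 i2 al R s + (starRingEnd ℂ) v * tauS m i1 i2 al R s) = rv L be s) ∧
    (∀ j, L ≤ j → be j = 0) ∧
    ∀ j < L, |be j| ≤ 2 * ‖v‖ *
      ‖∑ i ∈ Icc i1 i2, (al i : ℂ) * (Complex.I ^ i * ((R i / m : ℝ) : ℂ) *
        Complex.exp (-(Complex.I * ((j : ℂ) - 8 * (m : ℂ)) * (cell m i : ℂ))))‖ := by
  classical
  obtain ⟨f, hf1, _, hf3, hf4⟩ := FK_coef m hm
  have hmpos : (0 : ℝ) < m := by exact_mod_cast (by omega : 0 < m)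
  -- the amplitudes
  set A : ℤ → ℂ := fun k => ∑ i ∈ Icc i1 i2, (al i : ℂ) * Complex.I ^ i * (R i : ℂ) *
    Complex.exp (-(Complex.I * (k : ℂ) * (cell m i : ℂ))) with hA
  set N : ℤ := 8 * ((m : ℤ) - 1) with hN
  have htau : ∀ s : ℂ, tau m i1 i2 al R s = ∑ k ∈ Icc (-N) N,
      (f k : ℂ) * A k * Complex.exp (Complex.I * (k : ℂ) * s) := by
    intro s
    unfold tau
    have h1 : ∀ i ∈ Icc i1 i2, (al i : ℂ) * Complex.I ^ i * (R i : ℂ) *
        FK m (s - (cell m i : ℂ)) = ∑ k ∈ Icc (-N) N, (f k : ℂ) *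
        ((al i : ℂ) * Complex.I ^ i * (R i : ℂ) *
        Complex.exp (-(Complex.I * (k : ℂ) * (cell m i : ℂ)))) *
        Complex.exp (Complex.I * (k : ℂ) * s) := by
      intro i _
      rw [hf4, Finset.mul_sum]
      refine Finset.sum_congr rfl fun k _ => ?_
      have h2 : Complex.exp (Complex.I * (k : ℂ) * (s - (cell m i : ℂ)))
          = Complex.exp (-(Complex.I * (k : ℂ) * (cell m i : ℂ))) *
            Complex.exp (Complex.I * (k : ℂ) * s) := by
        rw [← Complex.exp_add]; congr 1; ring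
      rw [h2]; ring
    rw [Finset.sum_congr rfl h1, Finset.sum_comm]
    refine Finset.sum_congr rfl fun k _ => ?_
    rw [hA]
    simp only
    rw [Finset.mul_sum, Finset.sum_mul]
  have htauS : ∀ s : ℂ, tauS m i1 i2 al R s = ∑ k ∈ Icc (-N) N,
      (f k : ℂ) * (starRingEnd ℂ) (A k) * Complex.exp (Complex.I * (k : ℂ) * s) := by
    intro s
    unfold tauS
    have h1 : ∀ i ∈ Icc i1 i2, (al i : ℂ) * (-Complex.I) ^ i * (R i : ℂ) *
        FK m (s + (cell m i : ℂ)) = ∑ k ∈ Icc (-N) N, (f k : ℂ) *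
        ((al i : ℂ) * (-Complex.I) ^ i * (R i : ℂ) *
        Complex.exp (Complex.I * (k : ℂ) * (cell m i : ℂ))) *
        Complex.exp (Complex.I * (k : ℂ) * s) := by
      intro i _
      rw [hf4, Finset.mul_sum]
      refine Finset.sum_congr rfl fun k _ => ?_
      have h2 : Complex.exp (Complex.I * (k : ℂ) * (s + (cell m i : ℂ)))
          = Complex.exp (Complex.I * (k : ℂ) * (cell m i : ℂ)) *
            Complex.exp (Complex.I * (k : ℂ) * s) := by
        rw [← Complex.exp_add]; congr 1; ring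
      rw [h2]; ring
    rw [Finset.sum_congr rfl h1, Finset.sum_comm]
    refine Finset.sum_congr rfl fun k _ => ?_
    have h3 : (starRingEnd ℂ) (A k) = ∑ i ∈ Icc i1 i2, (al i : ℂ) * (-Complex.I) ^ i *
        (R i : ℂ) * Complex.exp (Complex.I * (k : ℂ) * (cell m i : ℂ)) := by
      rw [hA]
      simp only
      rw [map_sum]
      refine Finset.sum_congr rfl fun i _ => ?_
      rw [map_mul, map_mul, map_mul, map_pow, Complex.conj_I, Complex.conj_ofReal,
        ← Complex.exp_conj]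
      congr 2
      · simp
      · simp
    rw [h3, Finset.mul_sum, Finset.sum_mul]
  refine ⟨fun j => f ((j : ℤ) - 8 * m) * (2 * (v * A ((j : ℤ) - 8 * m)).re), ?_, ?_, ?_⟩
  · intro s
    rw [htau, htauS, Finset.mul_sum, Finset.mul_sum, ← Finset.sum_add_distrib, Finset.mul_sum]
    unfold rv
    have h1 : ∑ j ∈ range L, ((f ((j : ℤ) - 8 * m) * (2 * (v * A ((j : ℤ) - 8 * m)).re) : ℝ) : ℂ)
        * Complex.exp (Complex.I * (j : ℂ) * s)
        = ∑ k ∈ (range L).image (fun j : ℕ => (j : ℤ) - 8 * m),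
          ((f k * (2 * (v * A k).re) : ℝ) : ℂ) *
          Complex.exp (Complex.I * ((k : ℂ) + 8 * m) * s) := by
      rw [Finset.sum_image]
      · refine Finset.sum_congr rfl fun j _ => ?_
        congr 2
        push_cast
        ring
      · intro a _ b _ hab
        simp only at hab
        omega
    rw [h1]
    have h5 : ∑ k ∈ Icc (-N) N, ((f k * (2 * (v * A k).re) : ℝ) : ℂ) *
          Complex.exp (Complex.I * ((k : ℂ) + 8 * m) * s)
        = ∑ k ∈ (range L).image (fun j : ℕ => (j : ℤ) - 8 * m),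
          ((f k * (2 * (v * A k).re) : ℝ) : ℂ) *
          Complex.exp (Complex.I * ((k : ℂ) + 8 * m) * s) := by
      apply Finset.sum_subset
      · intro k hk
        rw [Finset.mem_Icc] at hk
        rw [Finset.mem_image]
        refine ⟨(k + 8 * m).toNat, ?_, ?_⟩
        · rw [Finset.mem_range]
          omega
        · omega
      · intro k _ hk
        have : f k = 0 := by
          apply hf3
          rw [lt_abs]
          by_contra hcon
          push Not at hcon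
          apply hk
          rw [Finset.mem_Icc]
          omega
        rw [this, zero_mul, Complex.ofReal_zero, zero_mul]
    rw [← h5]
    refine Finset.sum_congr rfl fun k _ => ?_
    have h2 : Complex.exp (Complex.I * ((k : ℂ) + 8 * m) * s)
        = Complex.exp (Complex.I * (8 * (m : ℂ)) * s) *
          Complex.exp (Complex.I * (k : ℂ) * s) := by
      rw [← Complex.exp_add]; congr 1; ring
    have h3 : ((2 * (v * A k).re : ℝ) : ℂ) = v * A k + (starRingEnd ℂ) (v * A k) := by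
      rw [Complex.add_conj]
    rw [h2, Complex.ofReal_mul (f k), h3, map_mul]
    ring
  · intro j hj
    have : f ((j : ℤ) - 8 * m) = 0 := by
      apply hf3
      rw [lt_abs]
      left
      omega
    simp only
    rw [this, zero_mul]
  · intro j _
    have h1 : ∑ i ∈ Icc i1 i2, (al i : ℂ) * (Complex.I ^ i * ((R i / m : ℝ) : ℂ) *
        Complex.exp (-(Complex.I * ((j : ℂ) - 8 * (m : ℂ)) * (cell m i : ℂ))))
        = (1 / (m : ℂ)) * A ((j : ℤ) - 8 * m) := by
      rw [hA]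
      simp only
      rw [Finset.mul_sum]
      refine Finset.sum_congr rfl fun i _ => ?_
      push_cast
      ring
    rw [h1, norm_mul]
    have h2 : ‖(1 / (m : ℂ))‖ = 1 / (m : ℝ) := by simp
    rw [h2, abs_mul, abs_mul, abs_two]
    have h3 := hf1 ((j : ℤ) - 8 * m)
    have h4 : |(v * A ((j : ℤ) - 8 * m)).re| ≤ ‖v‖ * ‖A ((j : ℤ) - 8 * m)‖ := by
      refine (Complex.abs_re_le_norm _).trans ?_
      rw [norm_mul]
    rw [abs_of_nonneg h3.1]
    calc f ((j : ℤ) - 8 * m) * (2 * |(v * A ((j : ℤ) - 8 * m)).re|)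
        ≤ (1 / (m : ℝ)) * (2 * (‖v‖ * ‖A ((j : ℤ) - 8 * m)‖)) := by
          apply mul_le_mul h3.2 _ (by positivity) (by positivity)
          linarith
      _ = 2 * ‖v‖ * (1 / (m : ℝ) * ‖A ((j : ℤ) - 8 * m)‖) := by ring

end Pool.Agent.Helper59.Lit
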