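import Pool.Agent.Helper59.Lit.Energy
import Pool.Agent.Helper59.Lit.Rad
import Pool.Agent.Helper59.Lit.Tau
import Pool.Agent.Helper59.Lit.Rq
import Pool.Agent.Helper59.Lit.Avoid
import Pool.Agent.Helper59.Lit.Lip
import Pool.Agent.Helper59.Lit.Pot
import Pool.Agent.Helper59.Lit.Concat

/-!
# Definitions for the induction step
-/

set_option autoImplicit false

namespace Pool.Agent.Helper59.Lit

open Finset

/-- the old polynomial -/
noncomputable def PP (k Y : ℕ) (a : ℕ → ℤ) (s : ℂ) : ℂ := sv (k * Y ^ 64) a s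

/-- the short-run block -/
noncomputable def QQ (Y : ℕ) (s : ℂ) : ℂ := sv (Y ^ 192) (rs (Y ^ 192) (Y ^ 176)) s

/-- `P(z^b) q(z)` -/
noncomputable def GG (k Y : ℕ) (a : ℕ → ℤ) (s : ℂ) : ℂ := PP k Y a ((Y : ℂ) ^ 192 * s) * QQ Y s

/-- the flat polynomial -/
noncomputable def BB (Y : ℕ) (be : ℕ → ℤ) (s : ℂ) : ℂ := sv (Y ^ 256) be s

/-- local size of the terms to be dominated -/
noncomputable def gam (k Y : ℕ) (a be : ℕ → ℤ) (i : ℕ) : ℝ :=
  ‖PP k Y a (cell (kap Y) i : ℂ)‖ / cell (mm Y) i + ‖BB Y be (cell (mm Y) i : ℂ)‖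

/-- extra weight in the interior -/
noncomputable def om (Y i : ℕ) : ℝ :=
  min (min (1 + |(i : ℝ) - (ii1 Y : ℝ)|) (1 + |(ii2 Y : ℝ) - (i : ℝ)|)) Y

/-- the radii -/
noncomputable def RR (CR : ℝ) (k Y : ℕ) (a be : ℕ → ℤ) (i : ℕ) : ℝ :=
  rad (ii1 Y) (ii2 Y) (fun j => CR * om Y j * gam k Y a be j) i

/-- flip density -/
noncomputable def hh (Y : ℕ) : ℝ := 1 / (Y : ℝ) ^ 6

/-- the bump function used in the step -/
noncomputable def tt (CR : ℝ) (k Y : ℕ) (a be al : ℕ → ℤ) (s : ℂ) : ℂ :=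
  tau (mm Y) (ii1 Y) (ii2 Y) al (RR CR k Y a be) s

/-- its mirror image -/
noncomputable def ttS (CR : ℝ) (k Y : ℕ) (a be al : ℕ → ℤ) (s : ℂ) : ℂ :=
  tauS (mm Y) (ii1 Y) (ii2 Y) al (RR CR k Y a be) s

/-- the new window -/
noncomputable def AA (Y : ℕ) (e : ℕ → ℤ) (s : ℂ) : ℂ := sv (Y ^ 256) e s

/-- the new polynomial -/
noncomputable def PN (k Y : ℕ) (a e : ℕ → ℤ) (s : ℂ) : ℂ :=
  GG k Y a s + Complex.exp (Complex.I * ((k * Y ^ 256 : ℕ) : ℂ) * s) * AA Y e s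

end Pool.Agent.Helper59.Lit
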